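import Pool.Agent.Lib.MP_45f3cb_gt.Fa.JetK

/-!
The Carleman estimate on jets: data and identities.
-/

namespace Pool.Agent.Lib.MP_45f3cb_gt.Fa

variable {n : ℕ} {M : Type} [AddCommGroup M] [Module ℝ M]

/-- the data of the Carleman estimate -/
structure Car (J : Jet n M) (C c₀ : ℝ) where
  X : Module.End ℝ M
  X' : Module.End ℝ M
  ν : Module.End ℝ M
  a : Module.End ℝ M
  W : Fin n → Module.End ℝ M
  W' : Fin n → Module.End ℝ M
  N : Fin n → Module.End ℝ M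
  l : Fin n → Module.End ℝ M
  m : Fin n → Module.End ℝ M
  hC : 1 ≤ C
  hc : 0 < c₀
  XD : J.CD X
  Xadj : J.Adj X X'
  Xeq : X' = -X - ν
  νm : J.Mul C ν
  am : J.Mul C a
  lm : ∀ b, J.Mul C (l b)
  mm : ∀ b, J.Mul C (m b)
  Xa : J.Bd C (X' * a - a * X')
  Xν : J.Bd C (X' * ν - ν * X')
  Xl : ∀ b, J.Bd C (X' * l b - l b * X')
  Wadj : ∀ b, J.Adj (W b) (W' b)
  Weu : ∀ b, J.Eu C (W' b + W b)
  WD : ∀ b, J.DC C (W b)
  Wa : ∀ b, J.Bd C (W b * a - a * W b)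
  Wl : ∀ c b, J.Bd C (W c * l b - l b * W c)
  Wl' : ∀ c b, J.Bd C (W' c * l b - l b * W' c)
  al : ∀ b, a * l b = l b * a
  ll : ∀ c b, l c * l b = l b * l c
  XW : ∀ b, J.Sml W N C 0 (X' * W b - W b * X')
  WW : ∀ c b, J.Sml W N C 0 (W c * W' b - W' b * W c)
  ND : ∀ c, J.CD (N c)
  low : ∀ k P, c₀ * J.ip k P P ≤ ∑ b, J.ip k (l b P) (l b P)

namespace Car

variable {J : Jet n M} {C c₀ : ℝ} (H : Car J C c₀)

/-- the conjugated transport operator -/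
def A (τ : ℝ) : Module.End ℝ M := H.X - τ • H.a

/-- its adjoint -/
def A' (τ : ℝ) : Module.End ℝ M := H.X' - τ • H.a

/-- the conjugated horizontal operators -/
def Wt (τ : ℝ) (b : Fin n) : Module.End ℝ M := H.W b - τ • H.l b

/-- their adjoints -/
def Wt' (τ : ℝ) (b : Fin n) : Module.End ℝ M := H.W' b - τ • H.l b

/-- the source -/
def Gv (τ : ℝ) (V : M) : M := H.A τ V - ∑ b, J.Y b (H.Wt τ b V)

/-- the vertical defect -/
def gv (τ : ℝ) (V : M) (c : Fin n) : M := H.N c V - J.D c V - τ • H.m c V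

/-- squared norm of the horizontal part -/
noncomputable def bb (τ : ℝ) (V : M) (k : ℕ) : ℝ := ∑ b, J.ip k (H.Wt τ b V) (H.Wt τ b V)

/-- squared norm of the defect -/
noncomputable def gg (τ : ℝ) (V : M) (k : ℕ) : ℝ := ∑ c, J.ip k (H.gv τ V c) (H.gv τ V c)

/-- cross term -/
noncomputable def cr (τ : ℝ) (V : M) (k : ℕ) : ℝ := ∑ b, J.ip k (H.A τ (J.D b V)) (H.Wt τ b V)

/-- adjoint cross term -/
noncomputable def cr' (τ : ℝ) (V : M) (k : ℕ) : ℝ :=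
  J.ip k (H.A' τ V) (∑ b, H.Wt' τ b (J.D b V))

/-- curl term -/
noncomputable def JJ (τ : ℝ) (V : M) (k : ℕ) : ℝ :=
  ∑ c, ∑ b, J.ip k (J.D c (H.Wt τ b V)) (J.D b (H.Wt τ c V))

/-- divergence term -/
noncomputable def dd (τ : ℝ) (V : M) (k : ℕ) : ℝ :=
  J.ip k (∑ b, H.Wt' τ b (J.D b V)) (∑ b, H.Wt' τ b (J.D b V))

theorem CarA_sub (k : ℕ) (P Q : M) :
    J.ip k (P - Q) (P - Q) = J.ip k P P - 2 * J.ip k Q P + J.ip k Q Q := by
  simp only [map_sub, LinearMap.sub_apply]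
  rw [J.ip_symm k P Q]
  ring

theorem adjA (τ : ℝ) : J.Adj (H.A τ) (H.A' τ) := by
  exact H.Xadj.sub (H.am.adj.smul τ)

theorem adjW (τ : ℝ) (b : Fin n) : J.Adj (H.Wt τ b) (H.Wt' τ b) := by
  exact (H.Wadj b).sub ((H.lm b).adj.smul τ)

theorem cdA (τ : ℝ) : J.CD (H.A τ) := by
  intro a P
  simp only [A, LinearMap.sub_apply, LinearMap.smul_apply, map_sub, map_smul, H.XD a P,
    H.am.cd a P]

theorem P1 (τ : ℝ) (V : M) :
    J.ip 0 (H.Gv τ V) (H.Gv τ V) = J.ip 0 (H.A τ V) (H.A τ V) ∧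
    J.ip 1 (H.Gv τ V) (H.Gv τ V) = J.ip 1 (H.A τ V) (H.A τ V) - 2 * H.cr τ V 0 + H.bb τ V 0 ∧
    ∀ N, J.ip (N + 2) (H.Gv τ V) (H.Gv τ V) = J.ip (N + 2) (H.A τ V) (H.A τ V) -
      2 * H.cr τ V (N + 1) + H.bb τ V (N + 1) + H.JJ τ V N := by
  have e : ∀ k, J.ip (k + 1) (∑ b, J.Y b (H.Wt τ b V)) (H.A τ V) = H.cr τ V k := fun k => by
    rw [J.ip_sumY, cr]
    exact Finset.sum_congr rfl fun b _ => by rw [H.cdA τ b V, J.ip_symm]
  refine ⟨?_, ?_, fun N => ?_⟩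
  · rw [Gv, CarA_sub, J.ip_sumY_zero, J.ip_sumY_zero]
    ring
  · rw [Gv, CarA_sub, e 0, J.sq_sumY_one, bb]
  · rw [Gv, CarA_sub, e (N + 1), J.sq_sumY, bb, JJ]
    ring

theorem P2 (τ : ℝ) (V : M) (N : ℕ) (r : ℝ) :
    0 ≤ J.ip N (H.A' τ V) (H.A' τ V) - 2 * r * H.cr' τ V N + r ^ 2 * H.dd τ V N := by
  have h := J.ip_nonneg N (H.A' τ V - r • ∑ b, H.Wt' τ b (J.D b V))
  rw [CarA_sub, J.ip_symm N (r • _) (H.A' τ V)] at h
  simp only [map_smul, LinearMap.smul_apply, smul_eq_mul] at h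
  rw [cr', dd]
  linarith

/-- Sketch: `|X V + ν V + τ a V|² - |X V - τ a V|²`, `skew` for `⟨X V, a V⟩` and `⟨X V, ν V⟩`. -/
theorem P4 : ∃ C₁, 0 ≤ C₁ ∧ ∀ τ, 1 ≤ τ → ∀ V N,
    J.ip N (H.A' τ V) (H.A' τ V) - J.ip N (H.A τ V) (H.A τ V) ≤ C₁ * τ * J.ip N V V := by
  have hC : 0 ≤ C := zero_le_one.trans H.hC
  refine ⟨6 * C ^ 2 + 3 * C, by positivity, fun τ hτ V N => ?_⟩
  have h0 : J.nm N ((H.X' + H.X) V) ≤ C * J.nm N V := by
    have : (H.X' + H.X) V = -H.ν V := by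
      rw [H.Xeq]; simp only [LinearMap.add_apply, LinearMap.sub_apply, LinearMap.neg_apply]; abel
    rw [this, J.nm_neg]
    exact H.νm.bd N V
  have h1 := (le_abs_self _).trans (Jet.skew H.Xadj H.am hC h0 (H.Xa N V))
  have h2 := (le_abs_self _).trans (Jet.skew H.Xadj H.νm hC h0 (H.Xν N V))
  have h3 := J.ip_le_of_nm (H.νm.bd N V)
  have h4 := (J.ip_le N (H.ν V) (H.a V)).trans (mul_le_mul (H.νm.bd N V) (H.am.bd N V)
    (J.nm_nonneg _ _) (mul_nonneg hC (J.nm_nonneg _ _)))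
  rw [mul_pow, J.nm_sq] at h3
  rw [mul_mul_mul_comm, ← sq, ← sq, J.nm_sq] at h4
  have e : J.ip N (H.A' τ V) (H.A' τ V) - J.ip N (H.A τ V) (H.A τ V) =
      J.ip N (H.ν V) (H.ν V) + 2 * J.ip N (H.X V) (H.ν V) + τ * (4 * J.ip N (H.X V) (H.a V) +
        2 * J.ip N (H.ν V) (H.a V)) := by
    simp only [A, A', H.Xeq, LinearMap.sub_apply, LinearMap.smul_apply, LinearMap.neg_apply,
      map_sub, map_smul, map_neg, smul_eq_mul]
    rw [J.ip_symm N (H.ν V) (H.X V), J.ip_symm N (H.a V) (H.X V), J.ip_symm N (H.a V) (H.ν V)]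
    ring
  have h5 := mul_le_mul_of_nonneg_left (show 4 * J.ip N (H.X V) (H.a V) +
    2 * J.ip N (H.ν V) (H.a V) ≤ (4 * C ^ 2 + 2 * C) * J.ip N V V by linarith)
    (zero_le_one.trans hτ)
  have h6 := mul_le_mul_of_nonneg_right hτ
    (mul_nonneg (show 0 ≤ 2 * C ^ 2 + C by positivity) (J.ip_nonneg N V))
  rw [e]
  linarith

theorem CarA_sml {τ : ℝ} (hτ : 0 ≤ τ) {K K₀ K₁ K₂ : Module.End ℝ M} (h0 : J.Sml H.W H.N C 0 K₀)
    (h1 : J.Bd C K₁) (h2 : J.Bd C K₂) (e : K = K₀ - τ • K₁ + τ • K₂) :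
    J.Sml (H.Wt τ) H.N (C + n * C ^ 2 + 2 * C) τ K := by
  intro k P
  have hC : 0 ≤ C := zero_le_one.trans H.hC
  have hb : ∀ {L : Module.End ℝ M}, J.Bd C L → J.nm k (τ • L P) ≤ τ * (C * J.nm k P) :=
    fun hL => by
      rw [J.nm_smul, abs_of_nonneg hτ]
      exact mul_le_mul_of_nonneg_left (hL k P) hτ
  have h3 : ∑ c, J.nm k (H.W c P) ≤ ∑ c, J.nm k (H.Wt τ c P) + n * (τ * (C * J.nm k P)) := by
    have h4 := Finset.sum_le_sum fun c (_ : c ∈ Finset.univ) =>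
      show J.nm k (H.W c P) ≤ J.nm k (H.Wt τ c P) + τ * (C * J.nm k P) by
        refine (J.nm_le_add_sub k _ (H.Wt τ c P)).trans (add_le_add le_rfl ?_)
        rw [Wt, LinearMap.sub_apply, sub_sub_cancel]
        exact hb (H.lm c).bd
    rwa [Finset.sum_add_distrib, Finset.sum_const, Finset.card_fin, nsmul_eq_mul] at h4
  have h4 : J.nm k (K P) ≤ J.nm k (K₀ P) + τ * (C * J.nm k P) + τ * (C * J.nm k P) := by
    rw [e]
    exact (J.nm_add_le _ _ _).trans (add_le_add ((J.nm_sub_le _ _ _).trans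
      (add_le_add le_rfl (hb h1))) (hb h2))
  have h5 := h0 k P
  have h6 := mul_le_mul_of_nonneg_left h3 hC
  have hp := J.nm_nonneg k P
  have h7 : 0 ≤ ∑ c, J.nm k (H.Wt τ c P) := Finset.sum_nonneg fun _ _ => J.nm_nonneg _ _
  have h8 : 0 ≤ ∑ c, J.nm k (H.N c P) := Finset.sum_nonneg fun _ _ => J.nm_nonneg _ _
  have h9 : 0 ≤ (n * C ^ 2 + 2 * C) * (∑ c, J.nm k (H.Wt τ c P) + ∑ c, J.nm k (H.N c P) +
      ((k : ℝ) + 1) * J.nm k P) := by positivity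
  have h10 : 0 ≤ C * (τ * J.nm k P) := by positivity
  linarith

/-- Sketch: `|W P| ≤ |Wt P| + τ C |P|`; expand the commutators of the conjugated operators. -/
theorem sml : ∃ C₁, 0 ≤ C₁ ∧ ∀ τ, 1 ≤ τ →
    (∀ b, J.Sml (H.Wt τ) H.N C₁ τ (H.A' τ * H.Wt τ b - H.Wt τ b * H.A' τ)) ∧
    (∀ c b, J.Sml (H.Wt τ) H.N C₁ τ (H.Wt τ c * H.Wt' τ b - H.Wt' τ b * H.Wt τ c)) ∧
    ∀ b, J.DC C₁ (H.Wt τ b) := by
  have hC : 0 ≤ C := zero_le_one.trans H.hC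
  refine ⟨C + n * C ^ 2 + 2 * C, by positivity, fun τ hτ => ⟨fun b => ?_, fun c b => ?_,
    fun b => Jet.DC.mono (fun a k P => ?_) (show C ≤ _ by
      have : 0 ≤ n * C ^ 2 + 2 * C := by positivity
      linarith)⟩⟩
  · refine H.CarA_sml (zero_le_one.trans hτ) (H.XW b) (H.Xl b) (H.Wa b) ?_
    simp only [A', Wt, sub_mul, mul_sub, smul_mul_assoc, mul_smul_comm, smul_sub, H.al b]
    abel
  · refine H.CarA_sml (zero_le_one.trans hτ) (H.WW c b) (H.Wl c b) (H.Wl' b c) ?_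
    simp only [Wt', Wt, sub_mul, mul_sub, smul_mul_assoc, mul_smul_comm, smul_sub, H.ll c b]
    abel
  · have e : J.D a (H.Wt τ b P) - H.Wt τ b (J.D a P) = J.D a (H.W b P) - H.W b (J.D a P) := by
      simp only [Wt, LinearMap.sub_apply, LinearMap.smul_apply, map_sub, map_smul,
        (H.lm b).cd a P]
      abel
    rw [e]
    exact H.WD b a k P

/-- Sketch: expand `|W V - τ l V|²`; `skew`, `low`. -/
theorem P7 : ∃ C₁, 0 ≤ C₁ ∧ ∀ τ, 1 ≤ τ → ∀ V (N : ℕ),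
    c₀ * τ ^ 2 * J.ip N V V - C₁ * τ * ((N : ℝ) + 1) * J.ip N V V ≤ H.bb τ V N := by
  have hC : 0 ≤ C := zero_le_one.trans H.hC
  refine ⟨n * (C ^ 2 + C), by positivity, fun τ hτ V N => ?_⟩
  have hN : (0 : ℝ) ≤ N := N.cast_nonneg
  have hV := J.ip_nonneg N V
  have h1 : ∀ b, τ ^ 2 * J.ip N (H.l b V) (H.l b V) -
      τ * ((C ^ 2 + C) * ((N : ℝ) + 1) * J.ip N V V) ≤ J.ip N (H.Wt τ b V) (H.Wt τ b V) := by
    intro b
    have h2 := (le_abs_self _).trans (Jet.skew (H.Wadj b) (H.lm b) (by positivity) (H.Weu b N V)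
      (H.Wl' b b N V))
    have h3 := J.ip_nonneg N (H.W b V)
    have h4 : 0 ≤ C * N * J.ip N V V := by positivity
    have h5 := mul_le_mul_of_nonneg_left (show 2 * J.ip N (H.W b V) (H.l b V) ≤
      (C ^ 2 + C) * ((N : ℝ) + 1) * J.ip N V V by linarith) (zero_le_one.trans hτ)
    rw [Wt, LinearMap.sub_apply, LinearMap.smul_apply, CarA_sub, J.ip_symm N (τ • _) (H.W b V)]
    simp only [map_smul, LinearMap.smul_apply, smul_eq_mul]
    linarith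
  have h2 := Finset.sum_le_sum fun b (_ : b ∈ Finset.univ) => h1 b
  rw [Finset.sum_sub_distrib, ← Finset.mul_sum, Finset.sum_const, Finset.card_fin,
    nsmul_eq_mul] at h2
  have h3 := mul_le_mul_of_nonneg_left (H.low N V) (sq_nonneg τ)
  rw [bb]
  linarith

end Car

end Pool.Agent.Lib.MP_45f3cb_gt.Fa
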