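import Pool.Agent.Lib.MP_45f3cb_gt.Fa.CarA

/-!
The Carleman estimate on jets: commutator terms.
-/

namespace Pool.Agent.Lib.MP_45f3cb_gt.Fa

variable {n : ℕ} {M : Type} [AddCommGroup M] [Module ℝ M]

namespace Car

variable {J : Jet n M} {C c₀ : ℝ} (H : Car J C c₀)

include H in
theorem CarB_C0 : 0 ≤ C := zero_le_one.trans H.hC

theorem CarB_W (τ : ℝ) (V : M) (k : ℕ) (c : Fin n) :
    J.nm k (H.Wt τ c V) ≤ Real.sqrt (H.bb τ V k) :=
  Real.sqrt_le_sqrt (Finset.single_le_sum (f := fun b => J.ip k (H.Wt τ b V) (H.Wt τ b V))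
    (fun _ _ => J.ip_nonneg _ _) (Finset.mem_univ c))

theorem CarB_N {τ : ℝ} (hτ : 0 ≤ τ) (V : M) (k : ℕ) (c : Fin n) : J.nm k (H.N c V) ≤
    Real.sqrt ((k : ℝ) + 1) * J.nm (k + 1) V + τ * (C * J.nm k V) + Real.sqrt (H.gg τ V k) := by
  have e : H.N c V = J.D c V + τ • H.m c V + H.gv τ V c := by rw [gv]; abel
  have h1 : J.nm k (H.gv τ V c) ≤ Real.sqrt (H.gg τ V k) :=
    Real.sqrt_le_sqrt (Finset.single_le_sum (f := fun b => J.ip k (H.gv τ V b) (H.gv τ V b))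
      (fun _ _ => J.ip_nonneg _ _) (Finset.mem_univ c))
  have h2 : J.nm k (τ • H.m c V) ≤ τ * (C * J.nm k V) := by
    rw [J.nm_smul, abs_of_nonneg hτ]
    exact mul_le_mul_of_nonneg_left ((H.mm c).bd k V) hτ
  rw [e]
  exact (J.nm_add_le _ _ _).trans (add_le_add ((J.nm_add_le _ _ _).trans
    (add_le_add (J.nm_D_le _ _ _) h2)) h1)

theorem CarB_sum {f : Fin n → ℝ} {r : ℝ} (h : ∀ c, f c ≤ r) : ∑ c, f c ≤ n * r := by
  simpa using Finset.sum_le_card_nsmul Finset.univ f r fun c _ => h c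

theorem CarB_real {m K C β u v γ τ t : ℝ} (hm : 0 ≤ m) (hK : 0 ≤ K) (hC : 0 ≤ C) (hβ : 0 ≤ β)
    (hu : 0 ≤ u) (hv : 0 ≤ v) (hγ : 0 ≤ γ) (h1 : 1 ≤ t) (h2 : τ ≤ t) :
    m * (β + K * v) + m * (u + τ * (C * v) + γ) + t * v ≤
      (m + m * K + m * C + 1) * (β + u + t * v + γ) := by
  have h3 : v ≤ t * v := le_mul_of_one_le_left hv h1
  have h4 : τ * v ≤ t * v := mul_le_mul_of_nonneg_right h2 hv
  have h5 := mul_le_mul_of_nonneg_left h3 (mul_nonneg hm hK)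
  have h6 := mul_le_mul_of_nonneg_left h4 (mul_nonneg hm hC)
  have h7 : 0 ≤ m * (t * v) := mul_nonneg hm (hv.trans h3)
  have h8 : 0 ≤ (m * K + m * C + 1) * (β + u + γ) := by positivity
  nlinarith

/-- Sketch: the difference is `∑ ⟨D_b V, [A', Wt_b] V⟩`; `sml`, `N_c V = D_c V + τ m_c V + gv_c`,
`nm_D_le`. -/
theorem P5 : ∃ C₁, 0 ≤ C₁ ∧ ∀ τ, 1 ≤ τ → ∀ V (N : ℕ), |H.cr τ V N - H.cr' τ V N| ≤
    C₁ * (Real.sqrt ((N : ℝ) + 1) * J.nm (N + 1) V) * (Real.sqrt (H.bb τ V N) +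
      Real.sqrt ((N : ℝ) + 1) * J.nm (N + 1) V + ((N : ℝ) + 1 + τ) * J.nm N V +
      Real.sqrt (H.gg τ V N)) := by
  obtain ⟨C₁, h0, h⟩ := H.sml
  have hC := H.CarB_C0
  refine ⟨n * (C₁ * (n + n * 0 + n * C + 1)), by positivity, fun τ hτ V N => ?_⟩
  obtain ⟨h1, -, -⟩ := h τ hτ
  have e : H.cr τ V N - H.cr' τ V N =
      ∑ b, J.ip N (J.D b V) ((H.A' τ * H.Wt τ b - H.Wt τ b * H.A' τ) V) := by
    rw [cr, cr', map_sum, ← Finset.sum_sub_distrib]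
    refine Finset.sum_congr rfl fun b _ => ?_
    rw [H.adjA τ N, ← H.adjW τ b N, J.ip_symm N (H.Wt τ b _), LinearMap.sub_apply, map_sub]
    rfl
  have hN : (0 : ℝ) ≤ N := N.cast_nonneg
  have hv := J.nm_nonneg N V
  have hu : 0 ≤ Real.sqrt ((N : ℝ) + 1) * J.nm (N + 1) V :=
    mul_nonneg (Real.sqrt_nonneg _) (J.nm_nonneg _ _)
  have h2 := CarB_real (K := 0) (t := (N : ℝ) + 1 + τ) n.cast_nonneg le_rfl hC
    (Real.sqrt_nonneg (H.bb τ V N)) hu hv (Real.sqrt_nonneg (H.gg τ V N)) (by linarith)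
    (show τ ≤ _ by linarith)
  rw [zero_mul, add_zero] at h2
  rw [e]
  refine (Jet.abs_sum1_le (fun a => J.nm_D_le N a V) fun b => (h1 b N V).trans
    (mul_le_mul_of_nonneg_left ((add_le_add (add_le_add (CarB_sum (H.CarB_W τ V N))
      (CarB_sum (H.CarB_N (by linarith) V N))) le_rfl).trans h2) h0)).trans (le_of_eq ?_)
  ring

/-- Sketch: `K0` for `Wt` and `α = D V`, `pert` (`D_c Wt_b V` against `Wt_b D_c V`), `sml`;
`N_c D_b V = D_b D_c V + τ m_c D_b V + D_b gv_c`; `nm_D_le` everywhere. -/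
theorem P6 : ∃ C₁, 0 ≤ C₁ ∧ ∀ τ, 1 ≤ τ → ∀ V (N : ℕ), |H.dd τ V N - H.JJ τ V N| ≤
    C₁ * (((N : ℝ) + 1) * J.nm (N + 1) V) * (Real.sqrt (H.bb τ V (N + 1)) +
      Real.sqrt ((N : ℝ) + 2) * J.nm (N + 2) V + ((N : ℝ) + 1 + τ) * J.nm (N + 1) V +
      Real.sqrt (H.gg τ V (N + 1))) := by
  obtain ⟨C₁, h0, h⟩ := H.sml
  have hC := H.CarB_C0
  refine ⟨n ^ 2 * (2 * (C₁ * n) + (C₁ * n) ^ 2) + n ^ 2 * (C₁ * (n + n * (C₁ * n) + n * C + 1)),
    by positivity, fun τ hτ V N => ?_⟩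
  obtain ⟨-, h1, h2⟩ := h τ hτ
  have hN : (0 : ℝ) ≤ N := N.cast_nonneg
  have hv := J.nm_nonneg (N + 1) V
  have hu : 0 ≤ Real.sqrt ((N : ℝ) + 2) * J.nm (N + 2) V :=
    mul_nonneg (Real.sqrt_nonneg _) (J.nm_nonneg _ _)
  have hβ := Real.sqrt_nonneg (H.bb τ V (N + 1))
  have hγ := Real.sqrt_nonneg (H.gg τ V (N + 1))
  have hr := Real.sqrt_nonneg ((N : ℝ) + 1)
  have hrr : Real.sqrt ((N : ℝ) + 1) * Real.sqrt ((N : ℝ) + 1) = N + 1 :=
    Real.mul_self_sqrt (by linarith)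
  have hδ : ∀ a b, J.nm N (J.D a (H.Wt τ b V) - H.Wt τ b (J.D a V)) ≤
      C₁ * (n * (Real.sqrt ((N : ℝ) + 1) * J.nm (N + 1) V)) := fun a b =>
    (h2 b a N V).trans (mul_le_mul_of_nonneg_left (CarB_sum fun c => J.nm_D_le N c V) h0)
  have hμ : ∀ a b, J.nm N (J.D a (H.Wt τ b V)) ≤
      Real.sqrt ((N : ℝ) + 1) * Real.sqrt (H.bb τ V (N + 1)) := fun a b =>
    (J.nm_D_le N a _).trans (mul_le_mul_of_nonneg_left (H.CarB_W τ V _ b) hr)
  have hp := Jet.pert (x := fun a b => J.D a (H.Wt τ b V)) (y := fun a b => H.Wt τ b (J.D a V))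
    hδ hμ
  have hW : ∀ b c, J.nm N (H.Wt τ c (J.D b V)) ≤ Real.sqrt ((N : ℝ) + 1) *
      (Real.sqrt (H.bb τ V (N + 1)) + C₁ * n * J.nm (N + 1) V) := fun b c => by
    have h3 := J.nm_le_add_sub N (H.Wt τ c (J.D b V)) (J.D b (H.Wt τ c V))
    rw [J.nm_sub_comm] at h3
    linarith [hδ b c, hμ b c]
  have hNN : ∀ b c, J.nm N (H.N c (J.D b V)) ≤ Real.sqrt ((N : ℝ) + 1) *
      (Real.sqrt ((N : ℝ) + 2) * J.nm (N + 2) V + τ * (C * J.nm (N + 1) V) +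
        Real.sqrt (H.gg τ V (N + 1))) := fun b c => by
    have h3 := H.CarB_N (show 0 ≤ τ by linarith) V (N + 1) c
    rw [Nat.cast_succ, add_assoc (N : ℝ), one_add_one_eq_two] at h3
    rw [← H.ND c b V]
    exact (J.nm_D_le N b _).trans (mul_le_mul_of_nonneg_left h3 hr)
  have h3 := CarB_real (K := C₁ * n) (t := (N : ℝ) + 1 + τ) n.cast_nonneg (by positivity) hC
    hβ hu hv hγ (by linarith) (show τ ≤ _ by linarith)
  have hq := Jet.abs_sum2_le (x := fun a _ => J.D a V)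
    (y := fun a b => (H.Wt τ a * H.Wt' τ b - H.Wt' τ b * H.Wt τ a) (J.D b V))
    (fun a _ => J.nm_D_le N a V) fun a b => (h1 a b N _).trans
      (mul_le_mul_of_nonneg_left (((add_le_add (add_le_add (CarB_sum (hW b)) (CarB_sum (hNN b)))
        (mul_le_mul_of_nonneg_left (J.nm_D_le N b V) (by linarith))).trans (le_of_eq (by ring))).trans
          (mul_le_mul_of_nonneg_left h3 hr)) h0)
  rw [dd, Jet.K0 (H.adjW τ) N fun b => J.D b V, JJ, add_sub_right_comm]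
  rw [abs_sub_comm] at hp
  refine (abs_add_le _ _).trans ((add_le_add hp hq).trans ?_)
  generalize Real.sqrt (H.bb τ V (N + 1)) = β at hβ
  generalize Real.sqrt (H.gg τ V (N + 1)) = γ at hγ
  generalize Real.sqrt ((N : ℝ) + 2) * J.nm (N + 2) V = u at hu
  generalize J.nm (N + 1) V = v at hv
  have h4 : 0 ≤ ((N : ℝ) + 1 + τ) * v := mul_nonneg (by linarith) hv
  have h5 : v ≤ ((N : ℝ) + 1 + τ) * v := le_mul_of_one_le_left hv (by linarith)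
  generalize ((N : ℝ) + 1 + τ) * v = w at h4 h5
  generalize Real.sqrt ((N : ℝ) + 1) = r at hrr
  rw [← hrr]
  have h6 : 0 ≤ (n : ℝ) ^ 2 * (r * r * v) := mul_nonneg (sq_nonneg _) (mul_nonneg (mul_self_nonneg r) hv)
  have h7 := mul_le_mul_of_nonneg_left (show β ≤ β + u + w + γ by linarith)
    (mul_nonneg h6 (show 0 ≤ 2 * (C₁ * n) by positivity))
  have h8 := mul_le_mul_of_nonneg_left (show v ≤ β + u + w + γ by linarith)
    (mul_nonneg h6 (sq_nonneg (C₁ * n)))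
  linarith

end Car

end Pool.Agent.Lib.MP_45f3cb_gt.Fa
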