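import Pool.Agent.Lib.MP_45f3cb_gt.Fa.NumC

/-!
The error terms of the Carleman estimate.
-/

namespace Pool.Agent.Lib.MP_45f3cb_gt.Fa

theorem NumD_am {ε : ℝ} (hε : 0 < ε) (x y : ℝ) : 2 * x * y ≤ ε * x ^ 2 + y ^ 2 / ε := by
  have h : ε * x ^ 2 + y ^ 2 / ε - 2 * x * y = (ε * x - y) ^ 2 / ε := by
    field_simp
    ring
  have h2 : 0 ≤ (ε * x - y) ^ 2 / ε := by positivity
  linarith

theorem NumD_A1 {C w0 w1 s1 n v1 b0 δ τ u : ℝ} (hw0 : 0 < w0) (hw1 : 0 < w1) (hs : s1 ^ 2 = n)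
    (hwn : w1 * n ≤ 2 * w0) (hδ0 : 0 < δ) (hδ : 1 ≤ 3 * τ * u * δ) :
    2 * b0 * (C * w1 * s1 * v1) ≤ δ / 4 * (w0 * b0 ^ 2) + 24 * C ^ 2 * u * τ * (w1 * v1 ^ 2) := by
  have hε : 0 < δ * w0 / 4 := by positivity
  have h := NumD_am hε b0 (C * w1 * s1 * v1)
  have h2 : (C * w1 * s1 * v1) ^ 2 / (δ * w0 / 4) ≤ 24 * C ^ 2 * u * τ * (w1 * v1 ^ 2) := by
    rw [div_le_iff₀ hε]
    have hP : 0 ≤ C ^ 2 * (w1 * v1 ^ 2) := by positivity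
    have e1 : (C * w1 * s1 * v1) ^ 2 = C ^ 2 * (w1 * v1 ^ 2) * (w1 * n) := by
      rw [← hs]; ring
    have e2 : 24 * C ^ 2 * u * τ * (w1 * v1 ^ 2) * (δ * w0 / 4) =
        C ^ 2 * (w1 * v1 ^ 2) * (2 * w0 * (3 * τ * u * δ)) := by ring
    rw [e1, e2]
    refine mul_le_mul_of_nonneg_left (hwn.trans ?_) hP
    exact le_mul_of_one_le_right (by positivity) hδ
  have e3 : δ * w0 / 4 * b0 ^ 2 = δ / 4 * (w0 * b0 ^ 2) := by ring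
  linarith

theorem NumD_B1 {C w1 v1 b1 δ τ u : ℝ} (hw1 : 0 < w1) (hδ0 : 0 < δ) (hδ : 1 ≤ 3 * τ * u * δ) :
    2 * b1 * (C * w1 * v1) ≤ δ / 4 * (w1 * b1 ^ 2) + 12 * C ^ 2 * u * τ * (w1 * v1 ^ 2) := by
  have hε : 0 < δ * w1 / 4 := by positivity
  have h := NumD_am hε b1 (C * w1 * v1)
  have h2 : (C * w1 * v1) ^ 2 / (δ * w1 / 4) ≤ 12 * C ^ 2 * u * τ * (w1 * v1 ^ 2) := by
    rw [div_le_iff₀ hε]
    have hP : 0 ≤ C ^ 2 * (w1 * v1 ^ 2) * w1 := by positivity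
    have e1 : (C * w1 * v1) ^ 2 = C ^ 2 * (w1 * v1 ^ 2) * w1 * 1 := by ring
    have e2 : 12 * C ^ 2 * u * τ * (w1 * v1 ^ 2) * (δ * w1 / 4) =
        C ^ 2 * (w1 * v1 ^ 2) * w1 * (3 * τ * u * δ) := by ring
    rw [e1, e2]
    exact mul_le_mul_of_nonneg_left hδ hP
  have e3 : δ * w1 / 4 * b1 ^ 2 = δ / 4 * (w1 * b1 ^ 2) := by ring
  linarith

/-- the cross term with a square root -/
theorem NumD_cr {w0 w1 s1 n x y : ℝ} (hw1 : 0 < w1) (hs : s1 ^ 2 = n) (hwn : w1 * n ≤ 2 * w0) :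
    2 * (w1 * s1 * x * y) ≤ w1 * x ^ 2 + 2 * (w0 * y ^ 2) := by
  have h1 : 0 ≤ w1 * (x - s1 * y) ^ 2 := by positivity
  have h2 : w1 * (x - s1 * y) ^ 2 = w1 * x ^ 2 - 2 * (w1 * s1 * x * y) + w1 * n * y ^ 2 := by
    rw [← hs]; ring
  have h3 : w1 * n * y ^ 2 ≤ 2 * w0 * y ^ 2 := mul_le_mul_of_nonneg_right hwn (sq_nonneg y)
  linarith

theorem NumD_A {C w0 w1 s1 n v0 v1 b0 g0 e δ τ u : ℝ} (hC : 0 ≤ C) (hw0 : 0 < w0) (hw1 : 0 < w1)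
    (hs : s1 ^ 2 = n) (hwn : w1 * n ≤ 2 * w0) (hδ0 : 0 < δ)
    (hδ : 1 ≤ 3 * τ * u * δ) (hτ : 1 ≤ τ) (hn : n ≤ τ)
    (he : e ≤ C * (s1 * v1) * (b0 + s1 * v1 + (n + τ) * v0 + g0)) :
    2 * (w1 * e) ≤ δ / 4 * (w0 * b0 ^ 2) + τ * ((24 * C ^ 2 * u + 5 * C) * (w1 * v1 ^ 2) +
      4 * C * (w0 * v0 ^ 2) + 2 * C * (w0 * g0 ^ 2)) := by
  have h0 : w1 * e ≤ w1 * (C * (s1 * v1) * (b0 + s1 * v1 + (n + τ) * v0 + g0)) :=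
    mul_le_mul_of_nonneg_left he hw1.le
  have e0 : 2 * (w1 * (C * (s1 * v1) * (b0 + s1 * v1 + (n + τ) * v0 + g0))) =
      2 * b0 * (C * w1 * s1 * v1) + 2 * C * (w1 * v1 ^ 2) * n +
        C * (2 * (w1 * s1 * v1 * v0)) * (n + τ) + C * (2 * (w1 * s1 * v1 * g0)) := by
    rw [← hs]; ring
  have h1 := NumD_A1 (C := C) (v1 := v1) (b0 := b0) hw0 hw1 hs hwn hδ0 hδ
  have hV1 : 0 ≤ w1 * v1 ^ 2 := by positivity
  have hV0 : 0 ≤ w0 * v0 ^ 2 := by positivity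
  have hG0 : 0 ≤ w0 * g0 ^ 2 := by positivity
  have h2 : 2 * C * (w1 * v1 ^ 2) * n ≤ 2 * C * (w1 * v1 ^ 2) * τ :=
    mul_le_mul_of_nonneg_left hn (by positivity)
  have h3 : C * (2 * (w1 * s1 * v1 * v0)) * (n + τ) ≤
      C * (w1 * v1 ^ 2 + 2 * (w0 * v0 ^ 2)) * (2 * τ) := by
    refine mul_le_mul (mul_le_mul_of_nonneg_left (NumD_cr hw1 hs hwn) hC) (by linarith) ?_
      (by positivity)
    have : 0 ≤ n := by rw [← hs]; positivity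
    linarith
  have h4 : C * (2 * (w1 * s1 * v1 * g0)) ≤ C * (w1 * v1 ^ 2 + 2 * (w0 * g0 ^ 2)) * τ := by
    refine (mul_le_mul_of_nonneg_left (NumD_cr hw1 hs hwn) hC).trans ?_
    exact le_mul_of_one_le_right (by positivity) hτ
  linarith

theorem NumD_B {C w1 w2 r s2 n v1 v2 b1 g1 e δ τ u : ℝ} (hC : 0 ≤ C) (hw1 : 0 < w1) (hw2 : 0 < w2)
    (hr0 : 0 ≤ r) (hr : r * n ≤ 2) (hn0 : 0 ≤ n) (hs0 : 0 ≤ s2) (hs : s2 ^ 2 = n + 1)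
    (hu : 0 ≤ u) (hw : w1 ≤ (n + 1) * u * w2) (hδ0 : 0 < δ) (hδ : 1 ≤ 3 * τ * u * δ) (hτ : 1 ≤ τ)
    (hn : n ≤ τ) (hv1 : 0 ≤ v1) (hv2 : 0 ≤ v2) (hb1 : 0 ≤ b1) (hg1 : 0 ≤ g1)
    (he : e ≤ C * (n * v1) * (b1 + s2 * v2 + (n + τ) * v1 + g1)) :
    w1 * r * e ≤ δ / 4 * (w1 * b1 ^ 2) + τ * ((12 * C ^ 2 * u + 7 * C) * (w1 * v1 ^ 2) +
      2 * C * u * (w2 * v2 ^ 2) + C * (w1 * g1 ^ 2)) := by
  have hτ0 : 0 ≤ τ := by linarith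
  have h0 : w1 * r * e ≤ w1 * r * (C * (n * v1) * (b1 + s2 * v2 + (n + τ) * v1 + g1)) :=
    mul_le_mul_of_nonneg_left he (by positivity)
  have h0' : w1 * r * (C * (n * v1) * (b1 + s2 * v2 + (n + τ) * v1 + g1)) ≤
      2 * (w1 * C * v1 * (b1 + s2 * v2 + (n + τ) * v1 + g1)) := by
    have : w1 * r * (C * (n * v1) * (b1 + s2 * v2 + (n + τ) * v1 + g1)) =
        r * n * (w1 * C * v1 * (b1 + s2 * v2 + (n + τ) * v1 + g1)) := by ring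
    rw [this]
    exact mul_le_mul_of_nonneg_right hr (by positivity)
  have e0 : 2 * (w1 * C * v1 * (b1 + s2 * v2 + (n + τ) * v1 + g1)) =
      2 * b1 * (C * w1 * v1) + C * (w1 * (2 * (s2 * v1) * v2)) +
        2 * C * (w1 * v1 ^ 2) * (n + τ) + C * (w1 * (2 * v1 * g1)) := by ring
  have h1 := NumD_B1 (C := C) (v1 := v1) (b1 := b1) hw1 hδ0 hδ
  have hV1 : 0 ≤ w1 * v1 ^ 2 := by positivity
  have hV2 : 0 ≤ w2 * v2 ^ 2 := by positivity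
  have hG1 : 0 ≤ w1 * g1 ^ 2 := by positivity
  have h2 : w1 * (2 * (s2 * v1) * v2) ≤ 2 * τ * (w1 * v1 ^ 2) + 2 * τ * (u * (w2 * v2 ^ 2)) := by
    have a1 : 2 * (s2 * v1) * v2 ≤ (n + 1) * v1 ^ 2 + v2 ^ 2 := by
      rw [← hs]; linarith only [sq_nonneg (s2 * v1 - v2)]
    have a2 := mul_le_mul_of_nonneg_left a1 hw1.le
    have a3 : w1 * v2 ^ 2 ≤ (n + 1) * u * w2 * v2 ^ 2 := mul_le_mul_of_nonneg_right hw (sq_nonneg _)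
    have a4 : (n + 1) * (w1 * v1 ^ 2) ≤ 2 * τ * (w1 * v1 ^ 2) :=
      mul_le_mul_of_nonneg_right (by linarith) hV1
    have a5 : (n + 1) * (u * (w2 * v2 ^ 2)) ≤ 2 * τ * (u * (w2 * v2 ^ 2)) :=
      mul_le_mul_of_nonneg_right (by linarith) (by positivity)
    linarith
  have h2' := mul_le_mul_of_nonneg_left h2 hC
  have h3 : 2 * C * (w1 * v1 ^ 2) * (n + τ) ≤ 2 * C * (w1 * v1 ^ 2) * (2 * τ) :=
    mul_le_mul_of_nonneg_left (by linarith) (by positivity)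
  have h4 : C * (w1 * (2 * v1 * g1)) ≤ C * (w1 * v1 ^ 2 + w1 * g1 ^ 2) * τ := by
    refine le_trans (mul_le_mul_of_nonneg_left ?_ hC) (le_mul_of_one_le_right (by positivity) hτ)
    have : 2 * v1 * g1 ≤ v1 ^ 2 + g1 ^ 2 := by linarith only [sq_nonneg (v1 - g1)]
    have := mul_le_mul_of_nonneg_left this hw1.le
    linarith
  linarith

theorem NumD_shift {f : ℕ → ℝ} (hf : ∀ N, 0 ≤ f N) {n k m : ℕ} (h : k + n ≤ m) :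
    ∑ N ∈ Finset.range n, f (N + k) ≤ ∑ N ∈ Finset.range m, f N := by
  have h1 : ∑ N ∈ Finset.range n, f (N + k) = ∑ N ∈ Finset.Ico k (k + n), f N := by
    rw [Finset.sum_Ico_eq_sum_range, add_tsub_cancel_left]
    simp only [add_comm]
  rw [h1]
  refine Finset.sum_le_sum_of_subset_of_nonneg ?_ fun i _ _ => hf i
  intro i hi
  simp only [Finset.mem_Ico, Finset.mem_range] at hi ⊢
  omega

/-- the error terms. Sketch: `2 x y ≤ ε x² + ε⁻¹ y²` termwise, `r N * (N + 1) ≤ 2 ρ² ≤ 2`,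
`(N₁ + 2) ≤ 3 τ`, `om (N + 1) * (N + 2) ≤ om (N + 2) * (N + 2)² / ρ²`; shift the summation index
(`Finset.sum_range_succ'`). -/
theorem car_num2 (C₂ ρ : ℝ) (hC : 0 ≤ C₂) (hρ : 0 < ρ) (hρ1 : ρ ≤ 1) : ∃ C₁, 0 ≤ C₁ ∧
    ∀ (τ : ℝ) (N₁ : ℕ) (b v g e₅ e₆ : ℕ → ℝ), 1 ≤ τ → 1 ≤ N₁ → (N₁ : ℝ) ≤ τ → (∀ N, 0 ≤ b N) →
      (∀ N, 0 ≤ v N) → (∀ N, 0 ≤ g N) →
      (∀ N : ℕ, e₅ N ≤ C₂ * (Real.sqrt ((N : ℝ) + 1) * v (N + 1)) * (b N +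
        Real.sqrt ((N : ℝ) + 1) * v (N + 1) + ((N : ℝ) + 1 + τ) * v N + g N)) →
      (∀ N : ℕ, e₆ N ≤ C₂ * (((N : ℝ) + 1) * v (N + 1)) * (b (N + 1) +
        Real.sqrt ((N : ℝ) + 2) * v (N + 2) + ((N : ℝ) + 1 + τ) * v (N + 1) + g (N + 1))) →
      2 * ∑ N ∈ Finset.range N₁, om ρ N₁ (N + 1) * e₅ N +
        ∑ N ∈ Finset.range N₁, om ρ N₁ (N + 1) *
          (ρ ^ 2 * (1 / ((N₁ : ℝ) + 2) + 1 / ((N : ℝ) + 1))) * e₆ N ≤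
      ρ ^ 2 / ((N₁ : ℝ) + 2) / 2 * ∑ N ∈ Finset.range N₁, om ρ N₁ N * b N ^ 2 +
        om ρ N₁ N₁ * b N₁ ^ 2 + C₁ * τ * (∑ N ∈ Finset.range (N₁ + 2), om ρ N₁ N * v N ^ 2 +
          ∑ N ∈ Finset.range (N₁ + 1), om ρ N₁ N * g N ^ 2) := by
  obtain ⟨u, hu⟩ : ∃ u : ℝ, u = 1 / ρ ^ 2 := ⟨_, rfl⟩
  have hρ2 : 0 < ρ ^ 2 := by positivity
  have hρ21 : ρ ^ 2 ≤ 1 := pow_le_one₀ hρ.le hρ1
  have hu0 : 0 ≤ u := by rw [hu]; positivity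
  have huρ : u * ρ ^ 2 = 1 := by rw [hu]; field_simp
  refine ⟨36 * C₂ ^ 2 * u + 16 * C₂ + 2 * C₂ * u, by positivity, ?_⟩
  intro τ N₁ b v g e₅ e₆ hτ hN₁ hNτ hb hv hg h5 h6
  have hτ0 : 0 ≤ τ := by linarith
  have hM : (0 : ℝ) < (N₁ : ℝ) + 2 := by positivity
  obtain ⟨δ, hδ⟩ : ∃ δ : ℝ, δ = ρ ^ 2 / ((N₁ : ℝ) + 2) := ⟨_, rfl⟩
  have hδ0 : 0 < δ := by rw [hδ]; positivity
  have hδ1 : δ ≤ 1 := by
    rw [hδ, div_le_one hM]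
    have : (0 : ℝ) ≤ N₁ := Nat.cast_nonneg _
    linarith
  have hδu : 1 ≤ 3 * τ * u * δ := by
    have : 3 * τ * u * δ = 3 * τ * (u * ρ ^ 2) / ((N₁ : ℝ) + 2) := by rw [hδ]; ring
    rw [this, huρ, le_div_iff₀ hM]
    linarith
  rw [← hδ]
  obtain ⟨B, hB⟩ : ∃ B : ℕ → ℝ, ∀ N, B N = om ρ N₁ N * b N ^ 2 := ⟨_, fun _ => rfl⟩
  obtain ⟨V, hV⟩ : ∃ V : ℕ → ℝ, ∀ N, V N = om ρ N₁ N * v N ^ 2 := ⟨_, fun _ => rfl⟩
  obtain ⟨G, hG⟩ : ∃ G : ℕ → ℝ, ∀ N, G N = om ρ N₁ N * g N ^ 2 := ⟨_, fun _ => rfl⟩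
  have hw := om_pos hρ N₁
  have hB0 : ∀ N, 0 ≤ B N := fun N => by rw [hB]; exact mul_nonneg (hw N).le (sq_nonneg _)
  have hV0 : ∀ N, 0 ≤ V N := fun N => by rw [hV]; exact mul_nonneg (hw N).le (sq_nonneg _)
  have hG0 : ∀ N, 0 ≤ G N := fun N => by rw [hG]; exact mul_nonneg (hw N).le (sq_nonneg _)
  simp only [← hB, ← hV, ← hG]
  have key : ∀ N ∈ Finset.range N₁, 2 * (om ρ N₁ (N + 1) * e₅ N) + om ρ N₁ (N + 1) *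
      (ρ ^ 2 * (1 / ((N₁ : ℝ) + 2) + 1 / ((N : ℝ) + 1))) * e₆ N ≤
      δ / 4 * B N + δ / 4 * B (N + 1) + τ * (4 * C₂) * V (N + 0) +
        τ * (36 * C₂ ^ 2 * u + 12 * C₂) * V (N + 1) + τ * (2 * C₂ * u) * V (N + 2) +
        τ * (2 * C₂) * G (N + 0) + τ * C₂ * G (N + 1) := by
    intro N hN
    have hN' : (N : ℝ) + 1 ≤ N₁ := by exact_mod_cast Finset.mem_range.mp hN
    have hn0 : (0 : ℝ) < (N : ℝ) + 1 := by positivity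
    have hr : ρ ^ 2 * (1 / ((N₁ : ℝ) + 2) + 1 / ((N : ℝ) + 1)) * ((N : ℝ) + 1) ≤ 2 := by
      have a1 : (1 / ((N₁ : ℝ) + 2) + 1 / ((N : ℝ) + 1)) * ((N : ℝ) + 1) =
          ((N : ℝ) + 1) / ((N₁ : ℝ) + 2) + 1 := by field_simp
      have a2 : ((N : ℝ) + 1) / ((N₁ : ℝ) + 2) ≤ 1 := by
        rw [div_le_one hM]; linarith
      have a3 : 0 ≤ ((N : ℝ) + 1) / ((N₁ : ℝ) + 2) := by positivity
      rw [mul_assoc, a1]
      have a4 := mul_le_mul hρ21 (add_le_add_left a2 1) (by linarith) zero_le_one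
      linarith
    have hwn : om ρ N₁ (N + 1) * ((N : ℝ) + 1) ≤ 2 * om ρ N₁ N := by
      have := mul_le_mul_of_nonneg_right hr (hw N).le
      rw [om]
      linarith
    have hw2 : om ρ N₁ (N + 1) ≤ ((N : ℝ) + 1 + 1) * u * om ρ N₁ (N + 2) := by
      have a1 : om ρ N₁ (N + 2) = ρ ^ 2 * (1 / ((N₁ : ℝ) + 2) + 1 / ((N : ℝ) + 1 + 1)) *
          om ρ N₁ (N + 1) := by
        rw [om]; push_cast; rfl
      have a2 : ((N : ℝ) + 1 + 1) * u * (ρ ^ 2 * (1 / ((N₁ : ℝ) + 2) + 1 / ((N : ℝ) + 1 + 1)) *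
          om ρ N₁ (N + 1)) = (u * ρ ^ 2) * (((N : ℝ) + 1 + 1) / ((N₁ : ℝ) + 2) + 1) *
          om ρ N₁ (N + 1) := by
        field_simp
      rw [a1, a2, huρ, one_mul]
      refine le_mul_of_one_le_left (hw _).le ?_
      have : 0 ≤ ((N : ℝ) + 1 + 1) / ((N₁ : ℝ) + 2) := by positivity
      linarith
    have hA := NumD_A hC (hw N) (hw (N + 1)) (Real.sq_sqrt hn0.le) hwn hδ0 hδu
      hτ (hN'.trans hNτ) (h5 N)
    have hs2 : Real.sqrt ((N : ℝ) + 2) ^ 2 = (N : ℝ) + 1 + 1 := by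
      rw [Real.sq_sqrt (by positivity)]; ring
    have hBB := NumD_B hC (hw (N + 1)) (hw (N + 2)) (by positivity) hr hn0.le (Real.sqrt_nonneg _)
      hs2 hu0 hw2 hδ0 hδu hτ (hN'.trans hNτ) (hv (N + 1)) (hv (N + 2)) (hb (N + 1)) (hg (N + 1))
      (h6 N)
    simp only [← hB, ← hV, ← hG] at hA hBB
    simp only [add_zero]
    linarith
  have hs := Finset.sum_le_sum key
  simp only [Finset.sum_add_distrib, ← Finset.mul_sum] at hs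
  have s0 := NumD_shift hB0 (n := N₁) (k := 1) (m := N₁ + 1) (by omega)
  rw [Finset.sum_range_succ] at s0
  have s1 := mul_le_mul_of_nonneg_left (NumD_shift hV0 (n := N₁) (k := 0) (m := N₁ + 2) (by omega))
    (show 0 ≤ τ * (4 * C₂) by positivity)
  have s2 := mul_le_mul_of_nonneg_left (NumD_shift hV0 (n := N₁) (k := 1) (m := N₁ + 2) (by omega))
    (show 0 ≤ τ * (36 * C₂ ^ 2 * u + 12 * C₂) by positivity)
  have s3 := mul_le_mul_of_nonneg_left (NumD_shift hV0 (n := N₁) (k := 2) (m := N₁ + 2) (by omega))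
    (show 0 ≤ τ * (2 * C₂ * u) by positivity)
  have s4 := mul_le_mul_of_nonneg_left (NumD_shift hG0 (n := N₁) (k := 0) (m := N₁ + 1) (by omega))
    (show 0 ≤ τ * (2 * C₂) by positivity)
  have s5 := mul_le_mul_of_nonneg_left (NumD_shift hG0 (n := N₁) (k := 1) (m := N₁ + 1) (by omega))
    (show 0 ≤ τ * C₂ by positivity)
  have s6 := mul_le_mul_of_nonneg_left s0 (show 0 ≤ δ / 4 by positivity)
  have s7 : δ / 4 * B N₁ ≤ B N₁ := mul_le_of_le_one_left (hB0 _) (by linarith)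
  have hGs : 0 ≤ ∑ N ∈ Finset.range (N₁ + 1), G N := Finset.sum_nonneg fun i _ => hG0 i
  have s8 : 0 ≤ τ * (36 * C₂ ^ 2 * u + 13 * C₂ + 2 * C₂ * u) * ∑ N ∈ Finset.range (N₁ + 1), G N := by
    positivity
  linarith

end Pool.Agent.Lib.MP_45f3cb_gt.Fa
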