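import Pool.Agent.Lib.MP_45f3cb_gt.Fa.CarB
import Pool.Agent.Lib.MP_45f3cb_gt.Fa.NumD

/-!
The Carleman estimate on jets.
-/

namespace Pool.Agent.Lib.MP_45f3cb_gt.Fa

variable {n : ℕ} {M : Type} [AddCommGroup M] [Module ℝ M]

namespace Car

variable {J : Jet n M} {C c₀ : ℝ} (H : Car J C c₀)

/-- Sketch: `car_num1` (`P1`, `P2`, `abs_curl_le`), `P4`, `car_num2` (`P5`, `P6`), `P7` with
`δ₀ = min 1 (c₀ / (2 C + 1))`, `c₁ = ρ² c₀ / 4`. -/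
theorem est {ρ : ℝ} (hρ : 0 < ρ) (hρ1 : ρ ≤ 1) : ∃ C₁ c₁ δ₀ : ℝ, 0 ≤ C₁ ∧ 0 < c₁ ∧ 0 < δ₀ ∧
    ∀ (τ : ℝ) (N₁ : ℕ) (V : M), 1 ≤ τ → 1 ≤ N₁ → (N₁ : ℝ) ≤ δ₀ * τ →
      (c₁ * τ ^ 2 / ((N₁ : ℝ) + 2) - C₁ * τ) * ∑ N ∈ Finset.range N₁, om ρ N₁ N * J.ip N V V ≤
        ∑ N ∈ Finset.range (N₁ + 1), om ρ N₁ N * J.ip N (H.Gv τ V) (H.Gv τ V) +
          C₁ * τ * (om ρ N₁ N₁ * (H.bb τ V N₁ + J.ip N₁ V V) +
            om ρ N₁ (N₁ + 1) * J.ip (N₁ + 1) V V +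
            ∑ N ∈ Finset.range (N₁ + 1), om ρ N₁ N * H.gg τ V N) := by
  obtain ⟨C4, hC4, h4⟩ := H.P4
  obtain ⟨C5, hC5, h5⟩ := H.P5
  obtain ⟨C6, hC6, h6⟩ := H.P6
  obtain ⟨C7, hC7, h7⟩ := H.P7
  obtain ⟨C8, hC8, h8⟩ := car_num2 (C5 + C6) ρ (add_nonneg hC5 hC6) hρ hρ1
  have hc := H.hc
  refine ⟨C4 + C8 + 3, ρ ^ 2 * c₀ / 4, min 1 (c₀ / (2 * C7 + 1)), by positivity, by positivity,
    lt_min one_pos (by positivity), ?_⟩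
  intro τ N₁ V hτ hN hδ
  have hτ0 : 0 ≤ τ := le_trans zero_le_one hτ
  have hNτ : (N₁ : ℝ) ≤ τ :=
    hδ.trans (by nlinarith [min_le_left (1 : ℝ) (c₀ / (2 * C7 + 1))])
  have hN7 : C7 * N₁ ≤ c₀ * τ / 2 := by
    have h1 : (N₁ : ℝ) ≤ c₀ / (2 * C7 + 1) * τ :=
      hδ.trans (mul_le_mul_of_nonneg_right (min_le_right _ _) hτ0)
    have h2 : (N₁ : ℝ) * (2 * C7 + 1) ≤ c₀ * τ := by
      rw [div_mul_eq_mul_div, le_div_iff₀ (by positivity)] at h1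
      exact h1
    have h3 : (0 : ℝ) ≤ N₁ := Nat.cast_nonneg _
    nlinarith
  have hb : ∀ N, 0 ≤ H.bb τ V N := fun N => Finset.sum_nonneg fun _ _ => J.ip_nonneg _ _
  have hg : ∀ N, 0 ≤ H.gg τ V N := fun N => Finset.sum_nonneg fun _ _ => J.ip_nonneg _ _
  have hω : ∀ N, 0 ≤ om ρ N₁ N := fun N => (om_pos hρ N₁ N).le
  have hu : ∀ N, 0 ≤ J.ip N V V := fun N => J.ip_nonneg _ _
  obtain ⟨g0, g1, g2⟩ := H.P1 τ V
  have k1 := car_num1 (x := fun N => J.ip N (H.A τ V) (H.A τ V))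
    (x' := fun N => J.ip N (H.A' τ V) (H.A' τ V)) (cr := H.cr τ V) (cr' := H.cr' τ V)
    (JJ := H.JJ τ V) (dd := H.dd τ V) (GG := fun N => J.ip N (H.Gv τ V) (H.Gv τ V))
    (bb := H.bb τ V) hρ hN hb (fun N => J.ip_nonneg _ _) g0 g1 g2 (fun N r => H.P2 τ V N r)
    (fun N => J.abs_curl_le N fun b => H.Wt τ b V)
  have k2 := h8 τ N₁ (fun N => Real.sqrt (H.bb τ V N)) (fun N => J.nm N V)
    (fun N => Real.sqrt (H.gg τ V N)) (fun N => |H.cr τ V N - H.cr' τ V N|)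
    (fun N => |H.dd τ V N - H.JJ τ V N|) hτ hN hNτ (fun _ => Real.sqrt_nonneg _)
    (fun N => J.nm_nonneg _ _) (fun _ => Real.sqrt_nonneg _)
    (fun N => (h5 τ hτ V N).trans (by
      have := J.nm_nonneg (N + 1) V
      have := J.nm_nonneg N V
      gcongr
      linarith))
    (fun N => (h6 τ hτ V N).trans (by
      have := J.nm_nonneg (N + 1) V
      have := J.nm_nonneg (N + 2) V
      gcongr
      linarith))
  simp only [Real.sq_sqrt (hb _), Real.sq_sqrt (hg _), J.nm_sq] at k2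
  rw [Finset.sum_range_succ (fun N => om ρ N₁ N * J.ip N V V),
    Finset.sum_range_succ (fun N => om ρ N₁ N * J.ip N V V)] at k2
  have k3 : ∑ N ∈ Finset.range (N₁ + 1), om ρ N₁ N *
      (J.ip N (H.A' τ V) (H.A' τ V) - J.ip N (H.A τ V) (H.A τ V)) ≤
      C4 * τ * (∑ N ∈ Finset.range N₁, om ρ N₁ N * J.ip N V V + om ρ N₁ N₁ * J.ip N₁ V V) := by
    rw [← Finset.sum_range_succ (fun N => om ρ N₁ N * J.ip N V V), Finset.mul_sum]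
    refine Finset.sum_le_sum fun N _ => ?_
    have := mul_le_mul_of_nonneg_left (h4 τ hτ V N) (hω N)
    linarith
  have k4 : c₀ * τ ^ 2 / 2 * ∑ N ∈ Finset.range N₁, om ρ N₁ N * J.ip N V V ≤
      ∑ N ∈ Finset.range N₁, om ρ N₁ N * H.bb τ V N := by
    rw [Finset.mul_sum]
    refine Finset.sum_le_sum fun N hN' => ?_
    have h1 : (N : ℝ) + 1 ≤ N₁ := by exact_mod_cast Finset.mem_range.1 hN'
    have h2 : C7 * ((N : ℝ) + 1) ≤ c₀ * τ / 2 := (mul_le_mul_of_nonneg_left h1 hC7).trans hN7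
    have h3 := mul_le_mul_of_nonneg_right h2 (mul_nonneg hτ0 (hu N))
    have h9 : c₀ * τ ^ 2 / 2 * J.ip N V V ≤ H.bb τ V N := by
      have := h7 τ hτ V N
      nlinarith
    have := mul_le_mul_of_nonneg_left h9 (hω N)
    linarith
  have hK : 0 ≤ ρ ^ 2 / ((N₁ : ℝ) + 2) / 2 := by positivity
  have k5 := mul_le_mul_of_nonneg_left k4 hK
  have hS : 0 ≤ ∑ N ∈ Finset.range N₁, om ρ N₁ N * J.ip N V V :=
    Finset.sum_nonneg fun N _ => mul_nonneg (hω N) (hu N)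
  have hG : 0 ≤ ∑ N ∈ Finset.range (N₁ + 1), om ρ N₁ N * H.gg τ V N :=
    Finset.sum_nonneg fun N _ => mul_nonneg (hω N) (hg N)
  have p1 := mul_nonneg (hω N₁) (hb N₁)
  have p2 := mul_nonneg (hω N₁) (hu N₁)
  have p3 := mul_nonneg (hω (N₁ + 1)) (hu (N₁ + 1))
  have hρ2 : ρ ^ 2 ≤ 1 := by nlinarith
  have p4 : 2 * ρ ^ 2 * om ρ N₁ N₁ * H.bb τ V N₁ ≤ 2 * (om ρ N₁ N₁ * H.bb τ V N₁) := by
    nlinarith
  rw [mul_add (om ρ N₁ N₁)]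
  generalize ∑ N ∈ Finset.range N₁, om ρ N₁ N * J.ip N V V = S at *
  generalize ∑ N ∈ Finset.range (N₁ + 1), om ρ N₁ N * H.gg τ V N = Γ at *
  generalize om ρ N₁ N₁ * H.bb τ V N₁ = q1 at *
  generalize om ρ N₁ N₁ * J.ip N₁ V V = q2 at *
  generalize om ρ N₁ (N₁ + 1) * J.ip (N₁ + 1) V V = q3 at *
  have e1 : ρ ^ 2 / ((N₁ : ℝ) + 2) / 2 * (c₀ * τ ^ 2 / 2 * S) =
      ρ ^ 2 * c₀ / 4 * τ ^ 2 / ((N₁ : ℝ) + 2) * S := by ring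
  have e2 : q1 ≤ τ * q1 := le_mul_of_one_le_left p1 hτ
  have t1 := mul_nonneg hτ0 p1
  have t2 := mul_nonneg hτ0 p2
  have t3 := mul_nonneg hτ0 p3
  have t4 := mul_nonneg hτ0 hG
  have t5 := mul_nonneg hτ0 hS
  have s1 := mul_nonneg hC4 t1
  have s2 := mul_nonneg hC8 t1
  have s3 := mul_nonneg hC4 t3
  have s4 := mul_nonneg hC4 t4
  linarith

end Car

end Pool.Agent.Lib.MP_45f3cb_gt.Fa
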