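import Pool.Agent.Lib.MP_45f3cb_gt.Stmt

/-!
Definitions for the statement: inner product, curvature operator, covariant derivative along a
curve and the index condition.
-/

open Set

namespace Pool.Agent.Lib.MP_45f3cb_gt.Fa

variable {n : ℕ}

/-- `g(u, w)` at `x` -/
def gi (g : V n → Matrix (Fin n) (Fin n) ℝ) (x u w : V n) : ℝ := ∑ i, ∑ j, g x i j * u i * w j

/-- `R(Y, v) v` at `x`, with `R^k_{lij} = ∂_i Γ^k_{jl} - ∂_j Γ^k_{il} + Γ^k_{im} Γ^m_{jl} -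
Γ^k_{jm} Γ^m_{il}` (the Jacobi equation is `D² J + R(J, γ') γ' = 0`) -/
noncomputable def curv (g : V n → Matrix (Fin n) (Fin n) ℝ) (x Y v : V n) : V n := fun k =>
  ∑ l, ∑ i, ∑ j, (pd i (fun y => chr g y k j l) x - pd j (fun y => chr g y k i l) x +
    ∑ m, (chr g x k i m * chr g x m j l - chr g x k j m * chr g x m i l)) * Y i * v j * v l

/-- the covariant derivative of the field `Y` along the curve `γ` with velocity `γ'` -/
noncomputable def covD (g : V n → Matrix (Fin n) (Fin n) ℝ) (γ γ' Y : ℝ → V n) (t : ℝ) : V n :=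
  fun k => deriv (fun r => Y r k) t + ∑ i, ∑ j, chr g (γ t) k i j * γ' t i * Y t j

/-- there is a smooth function `q` such that on `[a, c]` the index forms of `y'' + q y` and of
`D² Y + 2 R(Y, γ') γ' - q Y^⊥` are positive definite -/
def IdxPos (g : V n → Matrix (Fin n) (Fin n) ℝ) (γ γ' : ℝ → V n) (a c : ℝ) : Prop :=
  ∃ q : ℝ → ℝ, ContDiff ℝ (⊤ : ℕ∞) q ∧
    (∀ y : ℝ → ℝ, ContDiff ℝ (⊤ : ℕ∞) y → y a = 0 → y c = 0 → (∃ t ∈ Icc a c, y t ≠ 0) →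
      0 < ∫ t in a..c, (deriv y t ^ 2 - q t * y t ^ 2)) ∧
    ∀ Y : ℝ → V n, ContDiff ℝ (⊤ : ℕ∞) Y → Y a = 0 → Y c = 0 → (∃ t ∈ Icc a c, Y t ≠ 0) →
      0 < ∫ t in a..c, (gi g (γ t) (covD g γ γ' Y t) (covD g γ γ' Y t) -
        2 * gi g (γ t) (curv g (γ t) (Y t) (γ' t)) (Y t) +
        q t * (gi g (γ t) (Y t) (Y t) - gi g (γ t) (Y t) (γ' t) ^ 2))

end Pool.Agent.Lib.MP_45f3cb_gt.Fa
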