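import Pool.Agent.Lib.MP_45f3cb_gt.Fa.MatA
import Pool.Agent.Lib.MP_45f3cb_gt.Fa.Stmt
import Pool.Agent.Lib.MP_45f3cb_gt.Tr1

/-!
The geodesic spray in velocity coordinates and the quadratic form of the energy identity.
-/

open Set MeasureTheory Filter Topology Matrix

namespace Pool.Agent.Lib.MP_45f3cb_gt.Fa

variable {n : ℕ} {g : V n → Mat n}

/-- a smooth Riemannian metric -/
structure RM (g : V n → Mat n) : Prop where
  sm : MSm g
  pos : ∀ x, (g x).PosDef

/-- the matrix `Γ(v, ·)` -/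
noncomputable def Gv (g : V n → Mat n) (z : Z n) : Mat n :=
  Matrix.of fun k j => ∑ i, chr g z.1 k i j * z.2 i

/-- the derivative of `Γ(v, ·)` along the spray -/
noncomputable def XG (g : V n → Mat n) (z : Z n) : Mat n := mD (Gv g) z (spray g z)

/-- the matrix of `Y ↦ R(Y, v) v` -/
noncomputable def Rm (g : V n → Mat n) (z : Z n) : Mat n :=
  Matrix.of fun k i => curv g z.1 (Pi.single i 1) z.2 k

/-- covariant derivative of the frame -/
noncomputable def DE (g : V n → Mat n) (E : ℝ → Mat n) (t : ℝ) (z : Z n) : Mat n :=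
  md E t + Gv g z * E t

/-- the transposed first order coefficient of `[X, W]` -/
noncomputable def Mt (g : V n → Mat n) (E G : ℝ → Mat n) (t : ℝ) (z : Z n) : Mat n :=
  (2 : ℝ) • (G t * DE g E t z)

/-- the transposed zero order coefficient of `[X, W]` -/
noncomputable def Lt (g : V n → Mat n) (E G : ℝ → Mat n) (t : ℝ) (z : Z n) : Mat n :=
  G t * (md (md E) t + XG g z * E t + (2 : ℝ) • (Gv g z * md E t) + Gv g z * Gv g z * E t -
    (2 : ℝ) • (DE g E t z * G t * DE g E t z) - Rm g z * E t)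

/-- the quadratic form of the energy identity -/
noncomputable def QF (g : V n → Mat n) (E G : ℝ → Mat n) (lam : ℝ → ℝ) (l : ℝ → V n) (t : ℝ)
    (z : Z n) (α β : V n) : ℝ :=
  β ⬝ᵥ β + β ⬝ᵥ (Mt g E G t z *ᵥ α) + (deriv lam t + dvg (spray g) z) * (α ⬝ᵥ β) +
    α ⬝ᵥ (Lt g E G t z *ᵥ α) + ((G t *ᵥ z.2) ⬝ᵥ α) * (l t ⬝ᵥ α)

/-- Sketch: `exists_met`, `Met.inv_eq`, `Sm.pd`. -/
theorem RM.sm_chr (h : RM g) (k i j : Fin n) : Sm fun x => chr g x k i j := by
  obtain ⟨A, hg⟩ := exists_met h.sm h.pos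
  simp only [chr, A.inv_eq hg, hg]
  exact contDiff_const.mul (ContDiff.sum fun l _ => (A.smG k l).mul
    ((((A.smg j l).pd i).add ((A.smg i l).pd j)).sub ((A.smg i j).pd l)))

theorem RM.symm (h : RM g) (x : V n) (i j : Fin n) : g x i j = g x j i := by
  simpa using (h.pos x).isHermitian.apply j i

theorem RM.tr (h : RM g) (x : V n) : (g x)ᵀ = g x := by
  ext i j
  exact h.symm x j i

theorem RM.chr_symm (h : RM g) (x : V n) (k i j : Fin n) : chr g x k i j = chr g x k j i := by
  have e : (fun y => g y i j) = fun y => g y j i := funext fun y => h.symm y i j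
  simp only [chr]
  rw [e]
  refine congrArg _ (Finset.sum_congr rfl fun l _ => ?_)
  ring

theorem RM.sm_spray (h : RM g) : Sm (spray g) := by
  obtain ⟨A, hg⟩ := exists_met h.sm h.pos
  exact A.sm_spray hg

theorem RM.sm_Gv (h : RM g) : MSm (Gv g) := by
  intro k j
  simp only [Gv, Matrix.of_apply]
  exact ContDiff.sum fun i _ => ((h.sm_chr k i j).comp contDiff_fst).mul
    ((contDiff_apply ℝ ℝ i).comp contDiff_snd)

theorem RM.sm_XG (h : RM g) : MSm (XG g) := h.sm_Gv.mD h.sm_spray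

theorem RM.sm_Rm (h : RM g) : MSm (Rm g) := by
  intro k i
  have hc : ∀ a, Sm fun z : Z n => z.2 a := fun a => (contDiff_apply ℝ ℝ a).comp contDiff_snd
  have h1 : ∀ a b c, Sm fun z : Z n => chr g z.1 a b c := fun a b c =>
    (h.sm_chr a b c).comp contDiff_fst
  have h2 : ∀ e a b c, Sm fun z : Z n => pd e (fun y => chr g y a b c) z.1 := fun e a b c =>
    ((h.sm_chr a b c).pd e).comp contDiff_fst
  simp only [Rm, curv, Matrix.of_apply]
  exact ContDiff.sum fun l _ => ContDiff.sum fun a _ => ContDiff.sum fun j _ =>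
    ((((((h2 a k j l).sub (h2 j k a l)).add (ContDiff.sum fun m _ =>
      ((h1 k a m).mul (h1 m j l)).sub ((h1 k j m).mul (h1 m a l)))).mul contDiff_const).mul
      (hc j)).mul (hc l))

theorem spray_eq (g : V n → Mat n) (z : Z n) : spray g z = (z.2, -(Gv g z *ᵥ z.2)) := by
  refine Prod.ext rfl (funext fun k => ?_)
  simp only [spray, Gv, Pi.neg_apply, Matrix.mulVec, dotProduct, Matrix.of_apply, Finset.sum_mul]
  rw [Finset.sum_comm]

theorem RM.Gv_symm (h : RM g) (x u w : V n) : Gv g (x, u) *ᵥ w = Gv g (x, w) *ᵥ u := by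
  funext k
  simp only [Gv, Matrix.mulVec, dotProduct, Matrix.of_apply, Finset.sum_mul]
  rw [Finset.sum_comm]
  refine Finset.sum_congr rfl fun i _ => Finset.sum_congr rfl fun j _ => ?_
  rw [h.chr_symm x k i j]
  ring

theorem Gv_add (g : V n → Mat n) (x u w : V n) : Gv g (x, u + w) = Gv g (x, u) + Gv g (x, w) := by
  ext k j
  simp only [Gv, Matrix.of_apply, Matrix.add_apply, Pi.add_apply, mul_add, Finset.sum_add_distrib]

theorem Gv_smul (g : V n → Mat n) (x u : V n) (c : ℝ) : Gv g (x, c • u) = c • Gv g (x, u) := by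
  ext k j
  simp only [Gv, Matrix.of_apply, Matrix.smul_apply, Pi.smul_apply, smul_eq_mul, Finset.mul_sum]
  exact Finset.sum_congr rfl fun i _ => by ring

theorem curv_eq (g : V n → Mat n) (x Y v : V n) : curv g x Y v = Rm g (x, v) *ᵥ Y := by
  funext k
  have key : ∀ c : Fin n → Fin n → Fin n → ℝ, ∑ l, ∑ i, ∑ j, c l i j * Y i * v j * v l =
      ∑ a, (∑ l, ∑ i, ∑ j, c l i j * (Pi.single a 1 : V n) i * v j * v l) * Y a := by
    intro c
    have e1 : ∀ a l, ∑ i, ∑ j, c l i j * (Pi.single a 1 : V n) i * v j * v l =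
        ∑ j, c l a j * v j * v l := by
      intro a l
      rw [Finset.sum_eq_single a (fun i _ hi => by simp [hi]) (by simp)]
      simp
    simp only [e1, Finset.sum_mul]
    rw [Finset.sum_comm]
    exact Finset.sum_congr rfl fun a _ => Finset.sum_congr rfl fun l _ =>
      Finset.sum_congr rfl fun j _ => by ring
  exact key _

theorem gi_eq (g : V n → Mat n) (x u w : V n) : gi g x u w = u ⬝ᵥ (g x *ᵥ w) := by
  simp only [gi, Matrix.mulVec, dotProduct, Finset.mul_sum]
  exact Finset.sum_congr rfl fun i _ => Finset.sum_congr rfl fun j _ => by ring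

theorem GeoA_DE (h : RM g) {E : ℝ → Mat n} (hE : MSm E) :
    MSm fun q : ℝ × Z n => DE g E q.1 q.2 :=
  (hE.md.comp contDiff_fst).add ((h.sm_Gv.comp contDiff_snd).mul (hE.comp contDiff_fst))

theorem RM.sm_Mt (h : RM g) {E G : ℝ → Mat n} (hE : MSm E) (hG : MSm G) :
    MSm fun q : ℝ × Z n => Mt g E G q.1 q.2 := by
  exact MSm.smul (c := fun _ => (2 : ℝ)) contDiff_const
    ((hG.comp contDiff_fst).mul (GeoA_DE h hE))

theorem RM.sm_Lt (h : RM g) {E G : ℝ → Mat n} (hE : MSm E) (hG : MSm G) :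
    MSm fun q : ℝ × Z n => Lt g E G q.1 q.2 := by
  have e0 : MSm fun q : ℝ × Z n => E q.1 := hE.comp contDiff_fst
  have e1 : MSm fun q : ℝ × Z n => md E q.1 := hE.md.comp contDiff_fst
  have e2 : MSm fun q : ℝ × Z n => md (md E) q.1 := hE.md.md.comp contDiff_fst
  have e3 : MSm fun q : ℝ × Z n => G q.1 := hG.comp contDiff_fst
  have e4 : MSm fun q : ℝ × Z n => Gv g q.2 := h.sm_Gv.comp contDiff_snd
  have e5 : MSm fun q : ℝ × Z n => XG g q.2 := h.sm_XG.comp contDiff_snd
  have e6 : MSm fun q : ℝ × Z n => Rm g q.2 := h.sm_Rm.comp contDiff_snd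
  have e7 := GeoA_DE h hE
  exact e3.mul (((((e2.add (e5.mul e0)).add (MSm.smul (c := fun _ => (2 : ℝ)) contDiff_const
    (e4.mul e1))).add ((e4.mul e4).mul e0)).sub (MSm.smul (c := fun _ => (2 : ℝ)) contDiff_const
    ((e7.mul e3).mul e7))).sub (e6.mul e0))

/-- the energy shell on which the transport equation holds -/
def Om (g : V n → Mat n) : Set (Z n) := {z | gi g z.1 z.2 z.2 ∈ Ioo (1 / 2 : ℝ) 2}

theorem RM.cont_gi (h : RM g) : Continuous fun z : Z n => gi g z.1 z.2 z.2 := by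
  exact continuous_finsetSum _ fun i _ => continuous_finsetSum _ fun j _ =>
    (((h.sm i j).continuous.comp continuous_fst).mul
      ((continuous_apply i).comp continuous_snd)).mul ((continuous_apply j).comp continuous_snd)

theorem RM.isOpen_Om (h : RM g) : IsOpen (Om g) := isOpen_Ioo.preimage h.cont_gi

end Pool.Agent.Lib.MP_45f3cb_gt.Fa
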