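import Pool.Agent.Lib.MP_45f3cb_gt.Fa.OpC
import Pool.Agent.Lib.MP_45f3cb_gt.Fa.GeoA

/-!
Frames on phase space, the lift to the jet space, analyticity in the mean.
-/

open Set MeasureTheory Filter Topology Matrix

namespace Pool.Agent.Lib.MP_45f3cb_gt.Fa

variable {n : ℕ}

/-- a frame with a cut-off -/
structure FS (C : Ctx n) (g : V n → Mat n) where
  rm : RM g
  χ : Z n → ℝ
  E : Z n → Mat n
  E1 : Z n → Mat n
  G : Z n → Mat n
  sχ : Sm χ
  sE : MSm E
  sE1 : MSm E1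
  sG : MSm G
  inv : ∀ z ∈ C.K, E z * G z = 1
  der : ∀ z ∈ C.K, mD (fun w => χ w • E w) z (spray g z) = χ z • E1 z

/-- the lift of a function to the jet space -/
def hat (EE : Z n → Mat n) (w : Z n → ℝ) (q : W n) : ℝ := w (q.1.1, q.1.2 + EE q.1 *ᵥ q.2)

/-- the squared norm of the vertical jet -/
noncomputable def jn (N : ℕ) (w : Z n → ℝ) (z : Z n) : ℝ := nn N (fun y => w (z.1, y)) z.2

/-- analyticity in the fibre, in the mean over `O` -/
def An (w : Z n → ℝ) (O : Set (Z n)) (A : ℝ) : Prop :=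
  ∀ N : ℕ, ∫ z in O, jn N w z ≤ A ^ (N + 1) * (N.factorial : ℝ)

/-- the spray as an operator -/
noncomputable def oX {g : V n → Mat n} (h : RM g) : OD n :=
  ⟨spray g, fun _ => 0, fun _ => 0, h.sm_spray, contDiff_const, MSm.const 0⟩

theorem sm_hat {EE : Z n → Mat n} (hE : MSm EE) {w : Z n → ℝ} (hw : Sm w) : Sm (hat EE w) :=
  hw.comp ((contDiff_fst.comp contDiff_fst).prodMk ((contDiff_snd.comp contDiff_fst).add
    ((hE.comp contDiff_fst).mulVec contDiff_snd)))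

theorem FmA_mulVec {EE : Z n → Mat n} (hE : MSm EE) (z ζ : Z n) (y η : V n) :
    fderiv ℝ (fun q : W n => EE q.1 *ᵥ q.2) (z, y) (ζ, η) = mD EE z ζ *ᵥ y + EE z *ᵥ η := by
  have h0 : ∀ i j, HasFDerivAt (fun q : W n => EE q.1 i j)
      ((fderiv ℝ (fun w => EE w i j) z).comp (ContinuousLinearMap.fst ℝ (Z n) (V n))) (z, y) :=
    fun i j => HasFDerivAt.comp (g := fun w => EE w i j) (f := Prod.fst) (z, y)
      ((hE i j).dAt z).hasFDerivAt hasFDerivAt_fst
  have h1 := fun i j => (h0 i j).fun_mul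
    (((ContinuousLinearMap.proj j : V n →L[ℝ] ℝ).comp
      (ContinuousLinearMap.snd ℝ (Z n) (V n))).hasFDerivAt (x := (z, y)))
  have h2 := hasFDerivAt_pi.2 fun i => HasFDerivAt.fun_sum (u := Finset.univ) fun j _ => h1 i j
  have h3 : fderiv ℝ (fun q : W n => EE q.1 *ᵥ q.2) (z, y) = _ := h2.fderiv
  rw [h3]
  funext i
  simp only [ContinuousLinearMap.pi_apply, _root_.sum_apply, Pi.add_apply, mulVec,
    dotProduct, mD, of_apply, ← Finset.sum_add_distrib]
  refine Finset.sum_congr rfl fun j _ => ?_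
  simp
  ring

theorem fderiv_hat {EE : Z n → Mat n} (hE : MSm EE) {w : Z n → ℝ} (hw : Sm w) (z ζ : Z n)
    (y η : V n) : fderiv ℝ (hat EE w) (z, y) (ζ, η) =
      fderiv ℝ w (z.1, z.2 + EE z *ᵥ y) (ζ.1, ζ.2 + mD EE z ζ *ᵥ y + EE z *ᵥ η) := by
  have h1 : HasFDerivAt (fun q : W n => ((q.1.1, q.1.2 + EE q.1 *ᵥ q.2) : Z n))
      (((ContinuousLinearMap.fst ℝ (V n) (V n)).comp (ContinuousLinearMap.fst ℝ (Z n) (V n))).prod
        ((ContinuousLinearMap.snd ℝ (V n) (V n)).comp (ContinuousLinearMap.fst ℝ (Z n) (V n)) +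
          fderiv ℝ (fun q : W n => EE q.1 *ᵥ q.2) (z, y))) (z, y) :=
    (hasFDerivAt_fst.comp (z, y) hasFDerivAt_fst).prodMk
      ((hasFDerivAt_snd.comp (z, y) hasFDerivAt_fst).add
        (((hE.comp contDiff_fst).mulVec contDiff_snd).dAt (z, y)).hasFDerivAt)
  have h2 := ((hw.dAt (z.1, z.2 + EE z *ᵥ y)).hasFDerivAt.comp (z, y) h1).fderiv
  rw [show hat EE w = w ∘ fun q : W n => ((q.1.1, q.1.2 + EE q.1 *ᵥ q.2) : Z n) from rfl, h2,
    ContinuousLinearMap.comp_apply, ContinuousLinearMap.prod_apply, _root_.add_apply,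
    FmA_mulVec hE, add_assoc]
  rfl

theorem cont_jn {w : Z n → ℝ} (hw : Sm w) (N : ℕ) : Continuous (jn N w) := cont_pip hw hw N

theorem jn_nonneg (N : ℕ) (w : Z n → ℝ) (z : Z n) : 0 ≤ jn N w z := nn_nonneg _ _ _

theorem jn_zero (w : Z n → ℝ) (z : Z n) : jn 0 w z = w z ^ 2 := nn_zero_real _ _

theorem jn_off {w : Z n → ℝ} {z : Z n} (h : ∀ y, w (z.1, y) = 0) (N : ℕ) : jn N w z = 0 := by
  unfold jn
  rw [show (fun y => w (z.1, y)) = fun _ => (0 : ℝ) from funext h]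
  exact nn_fun_zero _ _

theorem slice_dp {w : Z n → ℝ} (hw : Sm w) (c : Fin n) (x : V n) :
    (fun y => dp c w (x, y)) = pdF c fun y => w (x, y) := by
  funext y
  have h1 := ((hw.dAt (x, y)).hasFDerivAt.comp y (hasFDerivAt_prodMk_right x y)).fderiv
  simp only [pdF, dp]
  rw [show (fun y => w (x, y)) = w ∘ fun y => (x, y) from rfl, h1]
  simp

theorem jn_mul {w : Z n → ℝ} (hw : Sm w) (k : V n → ℝ) (N : ℕ) (z : Z n) :
    jn N (fun z => k z.1 * w z) z = k z.1 ^ 2 * jn N w z := by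
  exact nn_mul (P := fun y => w (z.1, y)) (hw.comp (contDiff_const.prodMk contDiff_id))
    (k z.1) N z.2

theorem Ctx.op_adj_X (C : Ctx n) {g : V n → Mat n} (h : RM g) :
    C.op ((oX h).adj C) = -C.op (oX h) - C.mul _ (C.sm_dv h.sm_spray) := by
  refine LinearMap.ext fun P => Subtype.ext (funext fun q => ?_)
  have e1 : ((-C.op (oX h) - C.mul _ (C.sm_dv h.sm_spray)) P).1 q =
      -(C.op (oX h) P).1 q - (C.mul _ (C.sm_dv h.sm_spray) P).1 q := rfl
  have e2 : ((-spray g q.1, (0 : V n)) : W n) = -(spray g q.1, 0) := by simp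
  rw [e1, C.mul_apply, C.op_apply, C.op_apply]
  simp only [OD.app, OD.adj, oX, transpose_zero, zero_mulVec]
  rw [e2, map_neg]
  ring

theorem jn_dp {w : Z n → ℝ} (hw : Sm w) (N : ℕ) (c : Fin n) (z : Z n) :
    jn N (dp c w) z ≤ ((N : ℝ) + 1) * jn (N + 1) w z := by
  unfold jn
  rw [slice_dp hw]
  exact nn_pdF_le _ _ _ _

theorem An.mono {w : Z n → ℝ} (hw : Sm w) {O O' : Set (Z n)} {A A' : ℝ} (h : An w O A)
    (hO : IsCompact O) (hO' : IsCompact O') (hs : O' ⊆ O) (hA : 0 ≤ A) (hA' : A ≤ A') :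
    An w O' A' := by
  intro N
  refine le_trans (setIntegral_mono_set ((cont_jn hw N).continuousOn.integrableOn_compact hO)
    (Eventually.of_forall fun z => jn_nonneg N w z) (LE.le.eventuallyLE hs)) ?_
  refine (h N).trans ?_
  gcongr

theorem An.union {w : Z n → ℝ} (hw : Sm w) {ι : Type} (s : Finset ι) {O : ι → Set (Z n)}
    (hO : ∀ i ∈ s, IsCompact (O i)) (h : ∀ i ∈ s, ∃ A, 1 ≤ A ∧ An w (O i) A) :
    ∃ A, 1 ≤ A ∧ An w (⋃ i ∈ s, O i) A := by
  classical
  induction s using Finset.induction_on with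
  | empty => exact ⟨1, le_rfl, fun N => by simp⟩
  | insert a s ha ih =>
    obtain ⟨A, hA, h1⟩ := ih (fun i hi => hO i (Finset.mem_insert_of_mem hi))
      fun i hi => h i (Finset.mem_insert_of_mem hi)
    obtain ⟨B, hB, h2⟩ := h a (Finset.mem_insert_self a s)
    have c1 : IsCompact (O a) := hO a (Finset.mem_insert_self a s)
    have c2 : IsCompact (⋃ i ∈ s, O i) :=
      s.isCompact_biUnion fun i hi => hO i (Finset.mem_insert_of_mem hi)
    refine ⟨B + A, by linarith, fun N => ?_⟩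
    rw [Finset.set_biUnion_insert]
    have i1 := (cont_jn hw N).continuousOn.integrableOn_compact (μ := volume) c1
    have i2 := (cont_jn hw N).continuousOn.integrableOn_compact (μ := volume) c2
    have e1 : ∫ z in O a ∪ ⋃ i ∈ s, O i, jn N w z =
        (∫ z in O a, jn N w z) + ∫ z in (⋃ i ∈ s, O i) \ O a, jn N w z := by
      rw [← union_sdiff_self, setIntegral_union disjoint_sdiff_right
        (c2.measurableSet.diff c1.measurableSet) i1 (i2.mono_set sdiff_subset)]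
    have e2 : ∫ z in (⋃ i ∈ s, O i) \ O a, jn N w z ≤ ∫ z in ⋃ i ∈ s, O i, jn N w z :=
      setIntegral_mono_set i2 (Eventually.of_forall fun z => jn_nonneg N w z)
        (LE.le.eventuallyLE sdiff_subset)
    have e3 : B ^ (N + 1) + A ^ (N + 1) ≤ (B + A) ^ (N + 1) :=
      pow_add_pow_le (by linarith) (by linarith) (Nat.succ_ne_zero N)
    have e4 := mul_le_mul_of_nonneg_right e3 (Nat.cast_nonneg (α := ℝ) N.factorial)
    have e5 := h1 N
    have e6 := h2 N
    rw [e1]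
    linarith

theorem FmA_off {w : Z n → ℝ} {K : Set (V n)} (hK : IsClosed K)
    (h : ∀ z : Z n, z.1 ∉ K → w z = 0) {z : Z n} (hz : z.1 ∉ K) : fderiv ℝ w z = 0 := by
  have h1 : w =ᶠ[𝓝 z] fun _ => 0 :=
    Filter.mem_of_superset ((hK.isOpen_compl.preimage continuous_fst).mem_nhds hz)
      fun u hu => h u hu
  rw [h1.fderiv_eq]
  simp

theorem dx_off {w : Z n → ℝ} {K : Set (V n)} (hK : IsClosed K) (h : ∀ z : Z n, z.1 ∉ K → w z = 0)
    (c : Fin n) : ∀ z : Z n, z.1 ∉ K → dx c w z = 0 := by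
  intro z hz
  simp [dx, FmA_off hK h hz]

theorem dp_off {w : Z n → ℝ} {K : Set (V n)} (hK : IsClosed K) (h : ∀ z : Z n, z.1 ∉ K → w z = 0)
    (c : Fin n) : ∀ z : Z n, z.1 ∉ K → dp c w z = 0 := by
  intro z hz
  simp [dp, FmA_off hK h hz]

namespace FS

variable {C : Ctx n} {g : V n → Mat n} (S : FS C g)

/-- the frame with the cut-off -/
def EE (z : Z n) : Mat n := S.χ z • S.E z

/-- vertical field -/
def Y0 (a : Fin n) (z : Z n) : Z n := (0, fun i => S.E z i a)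

/-- horizontal field -/
noncomputable def W0 (b : Fin n) (z : Z n) : Z n :=
  (fun i => -S.E z i b, fun i => (S.E1 z + (2 : ℝ) • (Gv g z * S.E z)) i b)

theorem sEE : MSm S.EE := S.sE.smul S.sχ

theorem sY0 (a : Fin n) : Sm (S.Y0 a) := contDiff_const.prodMk (S.sE.col a)

theorem sW0 (b : Fin n) : Sm (S.W0 b) :=
  (S.sE.neg.col b).prodMk
    ((S.sE1.add (MSm.smul (c := fun _ => (2 : ℝ)) contDiff_const (S.rm.sm_Gv.mul S.sE))).col b)

/-- `Γ(E_b, ·)` -/
noncomputable def GE (b : Fin n) (z : Z n) : Mat n := Gv g (z.1, fun i => S.E z i b)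

theorem sGE (b : Fin n) : MSm (S.GE b) := S.rm.sm_Gv.comp (contDiff_fst.prodMk (S.sE.col b))

/-- vertical frame operator -/
noncomputable def oN (a : Fin n) : OD n :=
  ⟨fun z => S.χ z • S.Y0 a z, fun _ => 0, fun z => -(S.G z * mD S.EE z (S.Y0 a z)),
    S.sχ.smul (S.sY0 a), contDiff_const, (S.sG.mul (S.sEE.mD (S.sY0 a))).neg⟩

/-- horizontal frame operator -/
noncomputable def oW (b : Fin n) : OD n :=
  ⟨fun z => S.χ z • S.W0 b z, fun _ => 0,
    fun z => -(S.G z * (mD S.EE z (S.W0 b z) - S.χ z • (S.GE b z * S.E z))),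
    S.sχ.smul (S.sW0 b), contDiff_const,
    (S.sG.mul ((S.sEE.mD (S.sW0 b)).sub (MSm.smul S.sχ ((S.sGE b).mul S.sE)))).neg⟩

/-- the vertical operators -/
noncomputable def N (a : Fin n) : Module.End ℝ C.M := C.op (S.oN a)

/-- the horizontal operators -/
noncomputable def Wo (b : Fin n) : Module.End ℝ C.M := C.op (S.oW b)

/-- the adjoint vertical operators -/
noncomputable def N' (a : Fin n) : Module.End ℝ C.M := C.op ((S.oN a).adj C)

/-- the adjoint horizontal operators -/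
noncomputable def Wo' (b : Fin n) : Module.End ℝ C.M := C.op ((S.oW b).adj C)

/-- a field with the factor `χ` -/
def Chi (ξ : Z n → Z n) : Prop := ∃ ξ₀ : Z n → Z n, Sm ξ₀ ∧ ∀ z, ξ z = S.χ z • ξ₀ z

/-- a vertical field with the factor `χ` -/
def Chv (ξ : Z n → Z n) : Prop :=
  ∃ ξ₀ : Z n → V n, Sm ξ₀ ∧ ∀ z, ξ z = S.χ z • ((0, ξ₀ z) : Z n)

end FS

/-- a solution of the transport equation with polynomial source that vanishes outside `K` -/
structure Sol (g : V n → Mat n) (d : ℕ) (K : Set (V n)) (Ω : Set (Z n)) (w f : Z n → ℝ) : Prop where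
  smw : Sm w
  smf : Sm f
  fp : FP (d + 1) f
  eq : ∀ z ∈ Ω, fderiv ℝ w z (spray g z) = f z
  eul : ∀ z ∈ Ω, fderiv ℝ w z (0, z.2) = d * w z
  off : ∀ z : Z n, z.1 ∉ K → w z = 0
  offf : ∀ z : Z n, z.1 ∉ K → f z = 0

end Pool.Agent.Lib.MP_45f3cb_gt.Fa
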