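import Pool.Agent.Lib.MP_45f3cb_gt.Fa.FmA

/-!
The frame operators control their commutators.
-/

open Set MeasureTheory Filter Topology Matrix

namespace Pool.Agent.Lib.MP_45f3cb_gt.Fa

variable {n : ℕ}

namespace FS

variable {C : Ctx n} {g : V n → Mat n} {S : FS C g}

theorem FmB_der {ξ B : Z n → Z n} (hB : Sm B) (h : ∀ z, ξ z = S.χ z • B z) (z ζ : Z n) :
    fderiv ℝ ξ z ζ = fderiv ℝ S.χ z ζ • B z + S.χ z • fderiv ℝ B z ζ := by
  have e : ξ = S.χ • B := funext h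
  rw [e, ((S.sχ.dAt z).hasFDerivAt.smul (hB.dAt z).hasFDerivAt).fderiv]
  simp [add_comm]

theorem FmB_der0 {b : Z n → V n} (hb : Sm b) (z ζ : Z n) :
    fderiv ℝ (fun z => ((0, b z) : Z n)) z ζ = (0, fderiv ℝ b z ζ) := by
  rw [((hasFDerivAt_const (0 : V n) z).prodMk (hb.dAt z).hasFDerivAt).fderiv]
  simp

theorem FmB_sum (A : Mat n) (u : V n) : ∑ a, u a • (fun i => A i a : V n) = A *ᵥ u := by
  funext i
  simp [Finset.sum_apply, Matrix.mulVec, dotProduct, mul_comm]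

theorem Chv.chi {ξ : Z n → Z n} (h : S.Chv ξ) : S.Chi ξ := by
  obtain ⟨b, hb, e⟩ := h
  exact ⟨fun z => (0, b z), contDiff_const.prodMk hb, e⟩

/-- Sketch: `[χ A, χ B] = χ (χ [A, B] + (A χ) B - (B χ) A)`. -/
theorem Chi.br {o o' : OD n} (h : S.Chi o.ξ) (h' : S.Chi o'.ξ) : S.Chi (o.br o').ξ := by
  obtain ⟨A, hA, e⟩ := h
  obtain ⟨B, hB, e'⟩ := h'
  refine ⟨fun z => (fderiv ℝ S.χ z (A z) • B z + S.χ z • fderiv ℝ B z (A z)) -
    (fderiv ℝ S.χ z (B z) • A z + S.χ z • fderiv ℝ A z (B z)),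
    (((sm_fderiv_app S.sχ hA).smul hB).add (S.sχ.smul (sm_fderiv_app hB hA))).sub
      (((sm_fderiv_app S.sχ hB).smul hA).add (S.sχ.smul (sm_fderiv_app hA hB))), fun z => ?_⟩
  change fderiv ℝ o'.ξ z (o.ξ z) - fderiv ℝ o.ξ z (o'.ξ z) = _
  rw [e z, e' z, map_smul, map_smul, FmB_der hB e', FmB_der hA e, smul_sub]

theorem Chv.br {o o' : OD n} (h : S.Chv o.ξ) (h' : S.Chv o'.ξ) : S.Chv (o.br o').ξ := by
  obtain ⟨a, ha, e⟩ := h
  obtain ⟨b, hb, e'⟩ := h'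
  have hA : Sm fun z => ((0, a z) : Z n) := contDiff_const.prodMk ha
  have hB : Sm fun z => ((0, b z) : Z n) := contDiff_const.prodMk hb
  refine ⟨fun z => (fderiv ℝ S.χ z (0, a z) • b z + S.χ z • fderiv ℝ b z (0, a z)) -
    (fderiv ℝ S.χ z (0, b z) • a z + S.χ z • fderiv ℝ a z (0, b z)),
    (((sm_fderiv_app S.sχ hA).smul hb).add (S.sχ.smul (sm_fderiv_app hb hA))).sub
      (((sm_fderiv_app S.sχ hB).smul ha).add (S.sχ.smul (sm_fderiv_app ha hB))), fun z => ?_⟩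
  change fderiv ℝ o'.ξ z (o.ξ z) - fderiv ℝ o.ξ z (o'.ξ z) = _
  rw [e z, e' z, map_smul, map_smul, FmB_der hB e', FmB_der hA e, ← smul_sub, FmB_der0 ha,
    FmB_der0 hb]
  congr 1
  ext i <;> simp

theorem Chi.adj {o : OD n} (h : S.Chi o.ξ) : S.Chi (o.adj C).ξ := by
  obtain ⟨A, hA, e⟩ := h
  refine ⟨fun z => -A z, hA.neg, fun z => ?_⟩
  change -o.ξ z = _
  rw [e z, smul_neg]

theorem Chv.adj {o : OD n} (h : S.Chv o.ξ) : S.Chv (o.adj C).ξ := by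
  obtain ⟨A, hA, e⟩ := h
  refine ⟨fun z => -A z, hA.neg, fun z => ?_⟩
  change -o.ξ z = _
  rw [e z, ← smul_neg]
  simp

/-- Sketch: `Ctx.sml_op` with `c = -G ξ₀.1` and `c' = G (ξ₀.2 + (E1 + 2 Gv E) G ξ₀.1)`. -/
theorem Chi.sml {o : OD n} (h : S.Chi o.ξ) : ∃ c₁, C.jet.Sml S.Wo S.N c₁ 0 (C.op o) := by
  obtain ⟨A, hA, e⟩ := h
  have hH : MSm fun z => S.E1 z + (2 : ℝ) • (Gv g z * S.E z) :=
    S.sE1.add (MSm.smul (c := fun _ => (2 : ℝ)) contDiff_const (S.rm.sm_Gv.mul S.sE))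
  have h1 : Sm fun z => S.G z *ᵥ (A z).1 := S.sG.mulVec (contDiff_fst.comp hA)
  have h2 : Sm fun z => S.G z *ᵥ ((A z).2 +
      (S.E1 z + (2 : ℝ) • (Gv g z * S.E z)) *ᵥ (S.G z *ᵥ (A z).1)) :=
    S.sG.mulVec ((contDiff_snd.comp hA).add (hH.mulVec h1))
  obtain ⟨_, _, _, hc⟩ := C.sml_op (o := o) (w := S.oW) (v := S.oN)
    (c := fun a z => (-(S.G z *ᵥ (A z).1)) a)
    (c' := fun a z => (S.G z *ᵥ ((A z).2 +
      (S.E1 z + (2 : ℝ) • (Gv g z * S.E z)) *ᵥ (S.G z *ᵥ (A z).1))) a)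
    (fun a => contDiff_pi.1 h1.neg a) (fun a => contDiff_pi.1 h2 a) (fun z hz => by
      have hi : ∀ u : V n, S.E z *ᵥ (S.G z *ᵥ u) = u := fun u => by
        rw [Matrix.mulVec_mulVec, S.inv z hz, Matrix.one_mulVec]
      change o.ξ z = ∑ a, _ • S.χ z • S.W0 a z + ∑ a, _ • S.χ z • S.Y0 a z
      simp only [smul_comm _ (S.χ z), ← Finset.smul_sum, ← smul_add]
      rw [e z]
      congr 1
      refine Prod.ext ?_ ?_
      · simp only [Prod.fst_add, Prod.fst_sum, Prod.smul_fst, W0, Y0, smul_zero,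
          Finset.sum_const_zero, add_zero]
        have := FmB_sum (-S.E z) (-(S.G z *ᵥ (A z).1))
        simp only [Matrix.neg_apply] at this
        rw [this, Matrix.neg_mulVec, Matrix.mulVec_neg, neg_neg, hi]
      · simp only [Prod.snd_add, Prod.snd_sum, Prod.smul_snd, W0, Y0]
        rw [FmB_sum, FmB_sum, hi, Matrix.mulVec_neg]
        abel)
  exact hc

theorem Chv.smv {o : OD n} (h : S.Chv o.ξ) : ∃ c₁, C.jet.Smv S.N c₁ (C.op o) := by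
  obtain ⟨A, hA, e⟩ := h
  have h1 : Sm fun z => S.G z *ᵥ A z := S.sG.mulVec hA
  exact C.smv_op (o := o) (v := S.oN) (c' := fun a z => (S.G z *ᵥ A z) a)
    (fun a => contDiff_pi.1 h1 a) (fun z hz => by
      change o.ξ z = ∑ a, _ • S.χ z • S.Y0 a z
      simp only [smul_comm _ (S.χ z), ← Finset.smul_sum]
      rw [e z]
      congr 1
      refine Prod.ext ?_ ?_
      · simp only [Prod.fst_sum, Prod.smul_fst, Y0, smul_zero, Finset.sum_const_zero]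
      · simp only [Prod.snd_sum, Prod.smul_snd, Y0]
        rw [FmB_sum, Matrix.mulVec_mulVec, S.inv z hz, Matrix.one_mulVec])

variable (S)

theorem chv_N (a : Fin n) : S.Chv (S.oN a).ξ :=
  ⟨fun z i => S.E z i a, S.sE.col a, fun _ => rfl⟩

theorem chi_W (b : Fin n) : S.Chi (S.oW b).ξ := ⟨S.W0 b, S.sW0 b, fun _ => rfl⟩

theorem sml_NW (a b : Fin n) : ∃ c₁, C.jet.Sml S.Wo S.N c₁ 0 (S.N a * S.Wo b - S.Wo b * S.N a) := by
  rw [N, Wo, C.op_br]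
  exact ((S.chv_N a).chi.br (S.chi_W b)).sml

theorem smv_NN (a b : Fin n) : ∃ c₁, C.jet.Smv S.N c₁ (S.N a * S.N' b - S.N' b * S.N a) := by
  rw [N, N', C.op_br]
  exact ((S.chv_N a).br (S.chv_N b).adj).smv

theorem sml_WW (a b : Fin n) :
    ∃ c₁, C.jet.Sml S.Wo S.N c₁ 0 (S.Wo a * S.Wo' b - S.Wo' b * S.Wo a) := by
  rw [Wo, Wo', C.op_br]
  exact ((S.chi_W a).br (S.chi_W b).adj).sml

theorem sml_WN (b c : Fin n) :
    ∃ c₁, C.jet.Sml S.Wo S.N c₁ 0 (S.Wo' b * S.N c - S.N c * S.Wo' b) := by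
  rw [N, Wo', C.op_br]
  exact ((S.chi_W b).adj.br (S.chv_N c).chi).sml

theorem sml_Wmul (b : Fin n) (c : Z n → ℝ) (hc : Sm c) :
    ∃ c₁, C.jet.Sml S.Wo S.N c₁ 0 (S.Wo' b * C.mul c hc) := by
  rw [Wo', C.op_mul]
  obtain ⟨A, hA, e⟩ := (S.chi_W b).adj
  refine Chi.sml ⟨fun z => c z • A z, hc.smul hA, fun z => ?_⟩
  change c z • ((S.oW b).adj C).ξ z + 0 = _
  rw [e z, add_zero, smul_comm]

end FS

end Pool.Agent.Lib.MP_45f3cb_gt.Fa
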