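import Pool.Agent.Lib.MP_45f3cb_gt.Fa.FmA

/-!
The frame operators on lifted functions.
-/

open Set MeasureTheory Filter Topology Matrix

namespace Pool.Agent.Lib.MP_45f3cb_gt.Fa

variable {n : ℕ}

theorem FmC_mD_zero (A : Z n → Mat n) (z : Z n) : mD A z 0 = 0 := by
  ext i j
  simp [mD]

theorem FmC_sum (L : Z n →L[ℝ] ℝ) (c : V n) (p : Fin n → Z n) :
    ∑ b, c b * L (p b) = L (∑ b, c b • p b) := by
  simp [map_sum, map_smul]

theorem FmC_col (A : Mat n) (c : V n) : ∑ b, c b • (fun i => A i b : V n) = A *ᵥ c := by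
  ext i
  simp [Matrix.mulVec, dotProduct, Finset.sum_apply, mul_comm]

theorem FmC_Gv_sum (g : V n → Mat n) (x : V n) (A : Mat n) (c u : V n) :
    ∑ b, c b • (Gv g (x, fun i => A i b) *ᵥ u) = Gv g (x, A *ᵥ c) *ᵥ u := by
  ext k
  simp only [Gv, Matrix.mulVec, dotProduct, Finset.sum_apply, Pi.smul_apply, smul_eq_mul,
    Matrix.of_apply, Finset.mul_sum, Finset.sum_mul]
  rw [Finset.sum_comm]
  refine Finset.sum_congr rfl fun j _ => ?_
  rw [Finset.sum_comm]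
  refine Finset.sum_congr rfl fun i _ => Finset.sum_congr rfl fun b _ => ?_
  ring

namespace FS

variable {C : Ctx n} {g : V n → Mat n} (S : FS C g) {w : Z n → ℝ} {z : Z n}

theorem FmC_EG (hz : z ∈ C.K) (M : Mat n) (y : V n) :
    S.EE z *ᵥ ((S.G z * M) *ᵥ y) = S.χ z • (M *ᵥ y) := by
  rw [Matrix.mulVec_mulVec, EE, Matrix.smul_mul, ← Matrix.mul_assoc, S.inv z hz, Matrix.one_mul,
    Matrix.smul_mulVec]

theorem dy_hat (hw : Sm w) (a : Fin n) (z : Z n) (y : V n) :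
    dy a (hat S.EE w) (z, y) = fderiv ℝ w (z.1, z.2 + S.EE z *ᵥ y) (0, fun i => S.EE z i a) := by
  rw [dy, fderiv_hat S.sEE hw, FmC_mD_zero]
  congr 1
  ext i
  · simp
  · simp

theorem hat_N (hw : Sm w) (hz : z ∈ C.K) (a : Fin n) (y : V n) :
    (S.oN a).app (hat S.EE w) (z, y) = dy a (hat S.EE w) (z, y) := by
  rw [dy_hat S hw]
  simp only [OD.app, oN, zero_mul, add_zero]
  rw [fderiv_hat S.sEE hw, mD_smul_arg, Matrix.neg_mulVec, Matrix.mulVec_neg, S.FmC_EG hz,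
    Matrix.smul_mulVec]
  congr 1
  ext i
  · simp [Y0]
  · simp [Y0, EE]

theorem hat_W (hw : Sm w) (hz : z ∈ C.K) (b : Fin n) (y : V n) :
    (S.oW b).app (hat S.EE w) (z, y) = fderiv ℝ w (z.1, z.2 + S.EE z *ᵥ y)
      (fun i => -S.EE z i b, (fun i => S.χ z * (S.E1 z + (2 : ℝ) • (Gv g z * S.E z)) i b) +
        (S.χ z * S.χ z) • ((S.GE b z * S.E z) *ᵥ y)) := by
  simp only [OD.app, oW, zero_mul, add_zero]
  rw [fderiv_hat S.sEE hw, mD_smul_arg, Matrix.neg_mulVec, Matrix.mulVec_neg, S.FmC_EG hz,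
    Matrix.smul_mulVec, Matrix.sub_mulVec, Matrix.smul_mulVec]
  congr 1
  ext i
  · simp [W0, EE]
  · simp only [W0, Prod.smul_snd, Pi.add_apply, Pi.smul_apply, Pi.neg_apply, Pi.sub_apply,
      smul_eq_mul]
    ring

/-- Sketch: `fderiv_hat`, `der`, `hat_W`, linearity of `fderiv w _`; for `u = EE z *ᵥ y`,
`spray (x, v + u) = (v + u, -Γ(v, v) - 2 Γ(v, u) - Γ(u, u))` and
`∑ b, y b • χ² Γ(E_b, E y) = Γ(u, u)`. -/
theorem hat_X (hw : Sm w) (hz : z ∈ C.K) (y : V n) :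
    (oX S.rm).app (hat S.EE w) (z, y) = hat S.EE (fun z => fderiv ℝ w z (spray g z)) (z, y) +
      ∑ b, y b * (S.oW b).app (hat S.EE w) (z, y) := by
  simp only [S.hat_W hw hz]
  rw [FmC_sum]
  simp only [OD.app, oX, zero_mul, add_zero, hat]
  have hd : mD S.EE z (spray g z) = S.χ z • S.E1 z := S.der z hz
  rw [fderiv_hat S.sEE hw, hd, ← map_add]
  congr 1
  have h1 : ∑ b, y b • (fun i => -S.EE z i b : V n) = -(S.EE z *ᵥ y) := by
    rw [← Matrix.neg_mulVec]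
    exact FmC_col (-S.EE z) y
  have h2 : ∑ b, y b • (fun i => S.χ z * (S.E1 z + (2 : ℝ) • (Gv g z * S.E z)) i b : V n) =
      S.χ z • (S.E1 z *ᵥ y) + (2 : ℝ) • (Gv g z *ᵥ (S.EE z *ᵥ y)) := by
    have := FmC_col (S.χ z • (S.E1 z + (2 : ℝ) • (Gv g z * S.E z))) y
    refine this.trans ?_
    rw [Matrix.smul_mulVec, Matrix.add_mulVec, Matrix.smul_mulVec, EE, Matrix.smul_mulVec,
      Matrix.mulVec_smul, Matrix.mulVec_mulVec, smul_add, smul_comm (S.χ z) (2 : ℝ)]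
  have h3 : ∑ b, y b • ((S.χ z * S.χ z) • ((S.GE b z * S.E z) *ᵥ y)) =
      Gv g (z.1, S.EE z *ᵥ y) *ᵥ (S.EE z *ᵥ y) := by
    rw [EE, Matrix.smul_mulVec, Gv_smul, Matrix.smul_mulVec, Matrix.mulVec_smul, smul_smul,
      ← FmC_Gv_sum, Finset.smul_sum]
    refine Finset.sum_congr rfl fun b _ => ?_
    rw [smul_comm, GE, Matrix.mulVec_mulVec]
  have h4 : Gv g (z.1, S.EE z *ᵥ y) *ᵥ z.2 = Gv g z *ᵥ (S.EE z *ᵥ y) := S.rm.Gv_symm _ _ _
  rw [spray_eq, spray_eq]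
  refine Prod.ext ?_ ?_
  · simp only [Prod.fst_add, Prod.fst_sum, Prod.smul_fst]
    rw [h1]
    abel
  · simp only [Prod.snd_add, Prod.snd_sum, Prod.smul_snd, smul_add, Finset.sum_add_distrib]
    rw [h2, h3, Gv_add, Matrix.add_mulVec, Matrix.mulVec_add, Matrix.mulVec_add, h4,
      Matrix.zero_mulVec, Matrix.mulVec_zero, Matrix.smul_mulVec, two_smul]
    abel

/-- the horizontal derivatives in terms of the frame operators -/
theorem hat_dx (hw : Sm w) (hz : z ∈ C.K) (b : Fin n) (y : V n) :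
    ∑ c, S.EE z c b * hat S.EE (dx c w) (z, y) = -(S.oW b).app (hat S.EE w) (z, y) +
      ∑ e, (S.G z * (S.E1 z + (2 : ℝ) • (Gv g z * S.E z))) e b * dy e (hat S.EE w) (z, y) +
      (OD.eul (fun z => S.χ z • (S.G z * (S.GE b z * S.E z)))
        (MSm.smul S.sχ (S.sG.mul ((S.sGE b).mul S.sE)))).app (hat S.EE w) (z, y) := by
  rw [S.hat_W hw hz]
  simp only [S.dy_hat hw]
  rw [FmC_sum]
  simp only [OD.app, OD.eul, zero_mul, add_zero]
  rw [fderiv_hat S.sEE hw, FmC_mD_zero, Matrix.smul_mulVec, Matrix.mulVec_smul, S.FmC_EG hz]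
  simp only [hat, dx]
  rw [FmC_sum, ← map_neg, ← map_add, ← map_add]
  congr 1
  have h2 : ∑ e, (S.G z * (S.E1 z + (2 : ℝ) • (Gv g z * S.E z))) e b •
      (fun i => S.EE z i e : V n) =
      fun i => S.χ z * (S.E1 z + (2 : ℝ) • (Gv g z * S.E z)) i b := by
    rw [FmC_col (S.EE z) fun e => (S.G z * (S.E1 z + (2 : ℝ) • (Gv g z * S.E z))) e b]
    have := S.FmC_EG hz (S.E1 z + (2 : ℝ) • (Gv g z * S.E z)) (Pi.single b 1)
    rw [Matrix.mulVec_single_one, Matrix.mulVec_single_one] at this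
    exact this
  refine Prod.ext ?_ ?_
  · ext i
    simp [Prod.fst_sum, Finset.sum_apply, Pi.single_apply]
  · simp only [Prod.snd_add, Prod.snd_sum, Prod.smul_snd, Prod.snd_neg, smul_zero,
      Finset.sum_const_zero, Prod.snd_zero]
    rw [h2, Matrix.zero_mulVec, smul_smul]
    abel

/-- the radial derivative in terms of the jet operators -/
theorem hat_rad (hw : Sm w) (hz : z ∈ C.K) (y : V n) :
    ∑ a, (S.G z *ᵥ z.2) a * dy a (hat S.EE w) (z, y) =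
      S.χ z * (hat S.EE (fun z => fderiv ℝ w z (0, z.2)) (z, y) -
        ∑ a, y a * dy a (hat S.EE w) (z, y)) := by
  simp only [S.dy_hat hw]
  rw [FmC_sum, FmC_sum]
  simp only [hat]
  rw [← map_sub, ← smul_eq_mul, ← map_smul]
  congr 1
  refine Prod.ext ?_ ?_
  · simp [Prod.fst_sum]
  · simp only [Prod.snd_sum, Prod.smul_snd, Prod.snd_sub]
    rw [FmC_col, FmC_col, add_sub_cancel_right]
    have := S.FmC_EG hz 1 z.2
    rwa [Matrix.mul_one, Matrix.one_mulVec] at this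

end FS

end Pool.Agent.Lib.MP_45f3cb_gt.Fa
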