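import Pool.Agent.Lib.MP_45f3cb_gt.Fa.FmA

/-!
Fourier transform in the base variable.
-/

open Set MeasureTheory Filter Topology Matrix

namespace Pool.Agent.Lib.MP_45f3cb_gt.Fa

variable {n : ℕ}

/-- smooth with compact support in the base variable -/
structure XC (P : Z n → ℝ) : Prop where
  sm : Sm P
  cpt : ∃ Kx : Set (V n), IsCompact Kx ∧ ∀ z : Z n, z.1 ∉ Kx → P z = 0

/-- Fourier transform in the base variable -/
noncomputable def ft (P : Z n → ℝ) (ξ v : V n) : ℂ :=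
  ∫ x : V n, Complex.exp (-((2 * Real.pi * ∑ a, ξ a * x a : ℝ) : ℂ) * Complex.I) * (P (x, v) : ℂ)

/-- integrated squared norm of the vertical jets -/
noncomputable def JI (N : ℕ) (P : Z n → ℝ) (S : Set (V n)) : ℝ := ∫ x, ∫ v in S, jn N P (x, v)

/-- conjugated derivative -/
noncomputable def Bc (P : Z n → ℝ) (l : V n) (c : Fin n) (z : Z n) : ℝ := dx c P z - l c * P z

/-- remainder of the frozen transport equation -/
noncomputable def Rr (P p : Z n → ℝ) (l : V n) (z : Z n) : ℝ := ∑ c, z.2 c * Bc P l c z - p z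

variable {P Q p : Z n → ℝ}

theorem FoA_fderiv (h : XC P) (w : Z n) : XC fun z => fderiv ℝ P z w := by
  obtain ⟨K, hK, h0⟩ := h.cpt
  refine ⟨(h.sm.fderiv_right (m := (⊤ : ℕ∞)) (by simp)).clm_apply contDiff_const, K, hK,
    fun z hz => ?_⟩
  have e : P =ᶠ[𝓝 z] fun _ => 0 :=
    Filter.mem_of_superset ((hK.isClosed.isOpen_compl.preimage continuous_fst).mem_nhds hz)
      fun w hw => h0 w hw
  simp only [e.fderiv_eq]
  simp

theorem XC.dx (h : XC P) (a : Fin n) : XC (dx a P) := FoA_fderiv h _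

theorem XC.dp (h : XC P) (a : Fin n) : XC (dp a P) := FoA_fderiv h _

theorem XC.sub (h : XC P) (h' : XC Q) : XC fun z => P z - Q z := by
  obtain ⟨K, hK, h0⟩ := h.cpt
  obtain ⟨K', hK', h0'⟩ := h'.cpt
  refine ⟨h.sm.sub h'.sm, K ∪ K', hK.union hK', fun z hz => ?_⟩
  rw [h0 z fun hh => hz (Or.inl hh), h0' z fun hh => hz (Or.inr hh), sub_zero]

theorem XC.mul (h : XC P) {c : Z n → ℝ} (hc : Sm c) : XC fun z => c z * P z := by
  obtain ⟨K, hK, h0⟩ := h.cpt
  exact ⟨ContDiff.mul hc h.sm, K, hK, fun z hz => by rw [h0 z hz, mul_zero]⟩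

theorem XC.sum {R : Fin n → Z n → ℝ} (h : ∀ c, XC (R c)) : XC fun z => ∑ c, R c z := by
  choose K hK h0 using fun c => (h c).cpt
  refine ⟨ContDiff.sum fun c _ => (h c).sm, ⋃ c, K c, isCompact_iUnion hK, fun z hz => ?_⟩
  exact Finset.sum_eq_zero fun c _ => h0 c z fun hh => hz (mem_iUnion.2 ⟨c, hh⟩)

theorem XC.bc (h : XC P) (l : V n) (c : Fin n) : XC (Bc P l c) :=
  (h.dx c).sub (h.mul (c := fun _ => l c) contDiff_const)

theorem XC.rr (h : XC P) (h' : XC p) (l : V n) : XC (Rr P p l) :=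
  (XC.sum fun c => (h.bc l c).mul (c := fun z => z.2 c)
    ((contDiff_apply ℝ ℝ c).comp contDiff_snd)).sub h'

/-- the phase -/
noncomputable def FoA_th (ξ x : V n) : ℝ := 2 * Real.pi * ∑ a, ξ a * x a

theorem FoA_sm_th : Sm fun q : V n × V n => FoA_th q.1 q.2 :=
  contDiff_const.mul (ContDiff.sum fun a _ => ((contDiff_apply ℝ ℝ a).comp contDiff_fst).mul
    ((contDiff_apply ℝ ℝ a).comp contDiff_snd))

theorem FoA_sm_th' (ξ : V n) : Sm (FoA_th ξ) :=
  contDiff_const.mul (ContDiff.sum fun a _ => contDiff_const.mul (contDiff_apply ℝ ℝ a))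

theorem FoA_cont (h : XC P) (v : V n) : Continuous fun x => P (x, v) :=
  h.sm.continuous.comp (Continuous.prodMk_left v)

theorem FoA_int {E : Type} [NormedRing E] [NormedAlgebra ℝ E] (h : XC P) {u : V n → E}
    (hu : Continuous u) (v : V n) : Integrable fun x => u x * algebraMap ℝ E (P (x, v)) := by
  obtain ⟨K, hK, h0⟩ := h.cpt
  exact (hu.mul ((continuous_algebraMap ℝ E).comp (FoA_cont h v))).integrable_of_hasCompactSupport
    (HasCompactSupport.intro hK fun x hx => by simp [h0 (x, v) hx])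

theorem FoA_intR (h : XC P) {u : V n → ℝ} (hu : Continuous u) (v : V n) :
    Integrable fun x => u x * P (x, v) := FoA_int h hu v

theorem FoA_intC (h : XC P) {u : V n → ℂ} (hu : Continuous u) (v : V n) :
    Integrable fun x => u x * (P (x, v) : ℂ) := FoA_int h hu v

/-- the character -/
noncomputable def FoA_e (ξ x : V n) : ℂ := Complex.exp (-(FoA_th ξ x : ℂ) * Complex.I)

theorem FoA_e_cont (ξ : V n) : Continuous (FoA_e ξ) :=
  Complex.continuous_exp.comp
    ((Complex.continuous_ofReal.comp (FoA_sm_th' ξ).continuous).neg.mul continuous_const)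

theorem FoA_ft_def (P : Z n → ℝ) (ξ v : V n) : ft P ξ v = ∫ x, FoA_e ξ x * (P (x, v) : ℂ) := rfl

theorem FoA_ft (h : XC P) (ξ v : V n) : ft P ξ v =
    ((∫ x, Real.cos (FoA_th ξ x) * P (x, v) : ℝ) : ℂ) -
      ((∫ x, Real.sin (FoA_th ξ x) * P (x, v) : ℝ) : ℂ) * Complex.I := by
  have h1 : Integrable fun x => ((Real.cos (FoA_th ξ x) * P (x, v) : ℝ) : ℂ) :=
    (FoA_intR h (Real.continuous_cos.comp (FoA_sm_th' ξ).continuous) v).ofReal (𝕜 := ℂ)
  have h2 : Integrable fun x => ((Real.sin (FoA_th ξ x) * P (x, v) : ℝ) : ℂ) :=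
    (FoA_intR h (Real.continuous_sin.comp (FoA_sm_th' ξ).continuous) v).ofReal (𝕜 := ℂ)
  rw [← integral_complex_ofReal, ← integral_complex_ofReal, ← integral_mul_const,
    ← integral_sub h1 (h2.mul_const _), FoA_ft_def]
  refine integral_congr_ae (Eventually.of_forall fun x => ?_)
  simp only [FoA_e, Complex.exp_mul_I, Complex.cos_neg, Complex.sin_neg]
  push_cast
  ring

theorem FoA_sm (h : XC P) {w : V n × V n → ℝ} (hw : Sm w) :
    Sm fun q : V n × V n => ∫ x, w (q.1, x) * P (x, q.2) := by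
  obtain ⟨K, hK, h0⟩ := h.cpt
  have e : (fun q : V n × V n => ∫ x, w (q.1, x) * P (x, q.2)) =
      fun q : V n × V n => ∫ x in K, w (q.1, x) * P (x, q.2) := funext fun q =>
    (setIntegral_eq_integral_of_forall_compl_eq_zero fun x hx => by
      rw [h0 (x, q.2) hx, mul_zero]).symm
  rw [e]
  exact sm_setInt (G := fun r : (V n × V n) × V n => w (r.1.1, r.2) * P (r.2, r.1.2)) hK
    ((hw.comp (contDiff_fst.fst.prodMk contDiff_snd)).mul
      (h.sm.comp (contDiff_snd.prodMk contDiff_fst.snd)))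

theorem FoA_pd (h : XC P) {u : V n → ℝ} (hu : Sm u) (a : Fin n) (v : V n) :
    DifferentiableAt ℝ (fun v => ∫ x, u x * P (x, v)) v ∧
      fderiv ℝ (fun v => ∫ x, u x * P (x, v)) v (Pi.single a 1) =
        ∫ x, u x * Pool.Agent.Lib.MP_45f3cb_gt.dp a P (x, v) := by
  obtain ⟨K, hK, h0⟩ := h.cpt
  have e : (fun v => ∫ x, u x * P (x, v)) = fun v => ∫ x in K, u x * P (x, v) := funext fun v =>
    (setIntegral_eq_integral_of_forall_compl_eq_zero fun x hx => by
      rw [h0 (x, v) hx, mul_zero]).symm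
  have hG : Sm fun r : V n × V n => u r.2 * P (r.2, r.1) :=
    (hu.comp contDiff_snd).mul (h.sm.comp (contDiff_snd.prodMk contDiff_fst))
  obtain ⟨h1, h2⟩ := hasFDerivAt_setInt (μ := volume)
    (G := fun r : V n × V n => u r.2 * P (r.2, r.1)) hK (hG.of_le (by simp)) v
  rw [e]
  refine ⟨h1, (h2 _).trans ?_⟩
  have h3 : ∀ x, fderiv ℝ (fun r : V n × V n => u r.2 * P (r.2, r.1)) (v, x) (Pi.single a 1, 0) =
      u x * Pool.Agent.Lib.MP_45f3cb_gt.dp a P (x, v) := fun x => by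
    have d1 : HasFDerivAt (fun r : V n × V n => u r.2) _ (v, x) :=
      (hu.dAt x).hasFDerivAt.comp (v, x) hasFDerivAt_snd
    have d2 : HasFDerivAt (fun r : V n × V n => P (r.2, r.1)) _ (v, x) :=
      (h.sm.dAt (x, v)).hasFDerivAt.comp (v, x) (hasFDerivAt_snd.prodMk hasFDerivAt_fst)
    rw [(d1.fun_mul d2).fderiv]
    simp [Pool.Agent.Lib.MP_45f3cb_gt.dp]
  simp only [h3]
  refine setIntegral_eq_integral_of_forall_compl_eq_zero fun x hx => ?_
  have e0 : P =ᶠ[𝓝 (x, v)] fun _ => 0 :=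
    Filter.mem_of_superset ((hK.isClosed.isOpen_compl.preimage continuous_fst).mem_nhds hx)
      fun w hw => h0 w hw
  simp [Pool.Agent.Lib.MP_45f3cb_gt.dp, e0.fderiv_eq]

theorem FoA_fd {A B : V n → ℝ} {v : V n} (h1 : DifferentiableAt ℝ A v)
    (h2 : DifferentiableAt ℝ B v) (w : V n) :
    fderiv ℝ (fun v => (A v : ℂ) - (B v : ℂ) * Complex.I) v w =
      (fderiv ℝ A v w : ℂ) - (fderiv ℝ B v w : ℂ) * Complex.I := by
  have d := (Complex.ofRealCLM.hasFDerivAt.comp v h1.hasFDerivAt).sub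
    ((Complex.ofRealCLM.hasFDerivAt.comp v h2.hasFDerivAt).mul_const Complex.I)
  rw [show fderiv ℝ (fun v => (A v : ℂ) - (B v : ℂ) * Complex.I) v = _ from d.fderiv]
  simp [mul_comm]

/-- Sketch: real and imaginary part are `∫ x in Kx, cos (…) * P` and `-∫ x in Kx, sin (…) * P`;
`sm_setInt`. -/
theorem XC.sm_ft (h : XC P) : Sm fun q : V n × V n => ft P q.1 q.2 := by
  have h1 := FoA_sm h (w := fun q => Real.cos (FoA_th q.1 q.2)) FoA_sm_th.cos
  have h2 := FoA_sm h (w := fun q => Real.sin (FoA_th q.1 q.2)) FoA_sm_th.sin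
  rw [funext fun q : V n × V n => FoA_ft h q.1 q.2]
  exact (ContDiff.comp (g := Complex.ofRealCLM) Complex.ofRealCLM.contDiff h1).sub
    ((ContDiff.comp (g := Complex.ofRealCLM) Complex.ofRealCLM.contDiff h2).mul contDiff_const)

theorem XC.sm_ft' (h : XC P) (ξ : V n) : Sm (ft P ξ) :=
  ContDiff.comp (g := fun q : V n × V n => ft P q.1 q.2) (f := fun v : V n => (ξ, v)) h.sm_ft
    (contDiff_const.prodMk contDiff_id)

/-- Sketch: as `sm_ft` with `hasFDerivAt_setInt`. -/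
theorem XC.pdF_ft (h : XC P) (ξ : V n) (a : Fin n) : pdF a (ft P ξ) = ft (Pool.Agent.Lib.MP_45f3cb_gt.dp a P) ξ := by
  funext v
  obtain ⟨h1, e1⟩ := FoA_pd h (u := fun x => Real.cos (FoA_th ξ x)) (FoA_sm_th' ξ).cos a v
  obtain ⟨h2, e2⟩ := FoA_pd h (u := fun x => Real.sin (FoA_th ξ x)) (FoA_sm_th' ξ).sin a v
  rw [FoA_ft (h.dp a), ← e1, ← e2, pdF, funext fun v => FoA_ft h ξ v]
  exact FoA_fd h1 h2 _

/-- Sketch: integration by parts, `int_fderiv` for the real and imaginary parts. -/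
theorem XC.ft_dx (h : XC P) (ξ v : V n) (a : Fin n) :
    ft (Pool.Agent.Lib.MP_45f3cb_gt.dx a P) ξ v = (2 * Real.pi * ξ a : ℝ) * Complex.I * ft P ξ v := by
  have d1 : ∀ x, HasFDerivAt (FoA_th ξ) ((2 * Real.pi) • ∑ b, ξ b •
      (ContinuousLinearMap.proj b : V n →L[ℝ] ℝ)) x := fun x =>
    (HasFDerivAt.fun_sum fun b _ => (hasFDerivAt_apply b x).const_mul (ξ b)).const_mul _
  have d2 := fun x => (((Complex.ofRealCLM.hasFDerivAt.comp x (d1 x)).neg).mul_const Complex.I).cexp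
  have d3 := fun x => Complex.ofRealCLM.hasFDerivAt.comp x
    ((h.sm.dAt (x, v)).hasFDerivAt.comp x (hasFDerivAt_prodMk_left x v))
  have e2 : ∀ x, fderiv ℝ (FoA_e ξ) x (Pi.single a 1) =
      -((2 * Real.pi * ξ a : ℝ) * Complex.I) * FoA_e ξ x := fun x => by
    rw [show fderiv ℝ (FoA_e ξ) x = _ from (d2 x).fderiv]
    simp [FoA_e, Pi.single_apply]
    ring
  have e3 : ∀ x, fderiv ℝ (fun x => (P (x, v) : ℂ)) x (Pi.single a 1) =
      (Pool.Agent.Lib.MP_45f3cb_gt.dx a P (x, v) : ℂ) := fun x => by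
    rw [show fderiv ℝ (fun x => (P (x, v) : ℂ)) x = _ from (d3 x).fderiv]
    simp [Pool.Agent.Lib.MP_45f3cb_gt.dx]
  have key := integral_mul_fderiv_eq_neg_fderiv_mul_of_integrable (μ := volume) (𝕜 := ℂ)
    (f := FoA_e ξ) (g := fun x => (P (x, v) : ℂ)) (v := Pi.single a 1)
    (by simp only [e2]; exact FoA_intC h (continuous_const.mul (FoA_e_cont ξ)) v)
    (by simp only [e3]; exact FoA_intC (h.dx a) (FoA_e_cont ξ) v) (FoA_intC h (FoA_e_cont ξ) v)
    (fun x _ => (d2 x).differentiableAt) (fun x _ => (d3 x).differentiableAt)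
  simp only [e2, e3, mul_assoc _ (FoA_e ξ _)] at key
  rw [FoA_ft_def, FoA_ft_def, key, integral_const_mul]
  ring

theorem FoA_ft_sub (h : XC P) (h' : XC Q) (ξ v : V n) :
    ft (fun z => P z - Q z) ξ v = ft P ξ v - ft Q ξ v := by
  rw [FoA_ft_def, FoA_ft_def, FoA_ft_def,
    ← integral_sub (FoA_intC h (FoA_e_cont ξ) v) (FoA_intC h' (FoA_e_cont ξ) v)]
  exact integral_congr_ae (Eventually.of_forall fun x => by push_cast; ring)

theorem FoA_ft_mul (P : Z n → ℝ) (c : V n → ℝ) (ξ v : V n) :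
    ft (fun z => c z.2 * P z) ξ v = (c v : ℂ) * ft P ξ v := by
  rw [FoA_ft_def, FoA_ft_def, ← integral_const_mul]
  exact integral_congr_ae (Eventually.of_forall fun x => by push_cast; ring)

theorem FoA_ft_sum {R : Fin n → Z n → ℝ} (h : ∀ c, XC (R c)) (ξ v : V n) :
    ft (fun z => ∑ c, R c z) ξ v = ∑ c, ft (R c) ξ v := by
  simp only [FoA_ft_def]
  rw [← integral_finsetSum _ fun c _ => FoA_intC (h c) (FoA_e_cont ξ) v]
  exact integral_congr_ae (Eventually.of_forall fun x => by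
    push_cast; rw [Finset.mul_sum])

theorem XC.ft_bc (h : XC P) (l ξ v : V n) (c : Fin n) :
    ft (Bc P l c) ξ v = ((2 * Real.pi * ξ c : ℝ) * Complex.I - (l c : ℂ)) * ft P ξ v := by
  have h1 := FoA_ft_sub (h.dx c) (h.mul (c := fun _ => l c) contDiff_const) ξ v
  rw [FoA_ft_mul P (fun _ => l c), h.ft_dx] at h1
  exact h1.trans (by ring)

theorem XC.ft_rr (h : XC P) (h' : XC p) (l ξ v : V n) : ft (Rr P p l) ξ v =
    (∑ c, ((2 * Real.pi * ξ c : ℝ) * Complex.I - (l c : ℂ)) * (v c : ℂ)) * ft P ξ v - ft p ξ v := by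
  have h0 : ∀ c, XC fun z => z.2 c * Bc P l c z := fun c => (h.bc l c).mul (c := fun z => z.2 c)
    ((contDiff_apply ℝ ℝ c).comp contDiff_snd)
  have h1 := FoA_ft_sub (XC.sum h0) h' ξ v
  rw [FoA_ft_sum h0] at h1
  refine h1.trans ?_
  rw [Finset.sum_mul]
  congr 1
  refine Finset.sum_congr rfl fun c _ => ?_
  rw [FoA_ft_mul (Bc P l c) (fun y => y c), h.ft_bc]
  ring

theorem XC.pl_ft {d : ℕ} (h : XC p) (hp : FP d p) (ξ : V n) : PL (d + 1) (ft p ξ) := by
  induction d generalizing p with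
  | zero =>
    refine ⟨h.sm_ft' ξ, fun a y => ?_⟩
    rw [h.pdF_ft, FoA_ft_def]
    have : ∀ x, Pool.Agent.Lib.MP_45f3cb_gt.dp a p (x, y) = 0 := fun x => by
      rw [dp_eq_pd (h.sm.dAt _)]
      exact HP_pd_zero (hp x) a y
    simp [this]
  | succ d ih =>
    refine ⟨h.sm_ft' ξ, fun a => ?_⟩
    rw [h.pdF_ft]
    exact ih (h.dp a) (hp.dp (fun z => h.sm.dAt z) a)

/-- Sketch: induction on `d`; Fubini for `d = 0`. -/
theorem XC.gz_ft {ψ : V n → ℝ} (hψ : Continuous ψ) (hc : HasCompactSupport ψ) (d : ℕ) (h : XC P)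
    (hz : ∀ x, Gz ψ d fun y => P (x, y)) (ξ : V n) : Gz ψ d (ft P ξ) := by
  induction d generalizing P with
  | zero =>
    obtain ⟨K, hK, h0⟩ := h.cpt
    have hi : Integrable (Function.uncurry fun y x : V n => ψ y • (FoA_e ξ x * (P (x, y) : ℂ)))
        (volume.prod volume) := by
      refine Continuous.integrable_of_hasCompactSupport ?_
        (HasCompactSupport.intro (hc.isCompact.prod hK) fun q hq => ?_)
      · exact (hψ.comp continuous_fst).smul (((FoA_e_cont ξ).comp continuous_snd).mul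
          (Complex.continuous_ofReal.comp (h.sm.continuous.comp continuous_swap)))
      · change ψ q.1 • (FoA_e ξ q.2 * (P (q.2, q.1) : ℂ)) = 0
        by_cases h1 : q.1 ∈ tsupport ψ
        · rw [h0 (q.2, q.1) fun h2 => hq ⟨h1, h2⟩]; simp
        · rw [image_eq_zero_of_notMem_tsupport h1, zero_smul]
    change ∫ y, ψ y • ft P ξ y = 0
    simp only [FoA_ft_def, ← integral_smul]
    rw [integral_integral_swap hi]
    refine integral_eq_zero_of_ae (Eventually.of_forall fun x => ?_)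
    have h1 : ∫ y, ψ y • P (x, y) = 0 := hz x
    have h2 : ∀ y, ψ y • (FoA_e ξ x * (P (x, y) : ℂ)) =
        FoA_e ξ x * ((ψ y • P (x, y) : ℝ) : ℂ) := fun y => by
      rw [smul_eq_mul, Complex.real_smul]; push_cast; ring
    change ∫ y, ψ y • (FoA_e ξ x * (P (x, y) : ℂ)) = 0
    simp only [h2]
    rw [integral_const_mul, integral_complex_ofReal, h1]
    simp
  | succ d ih =>
    intro a
    rw [h.pdF_ft]
    refine ih (h.dp a) fun x => ?_
    have e : (fun y => Pool.Agent.Lib.MP_45f3cb_gt.dp a P (x, y)) = pdF a fun y => P (x, y) :=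
      funext fun y => dp_eq_pd (h.sm.dAt (x, y))
    rw [e]
    exact hz x a

end Pool.Agent.Lib.MP_45f3cb_gt.Fa
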