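import Pool.Agent.Lib.MP_45f3cb_gt.Base

/-!
The Plancherel identity on `V n`.
-/

open Set MeasureTheory Filter Topology Matrix

namespace Pool.Agent.Lib.MP_45f3cb_gt.Fa

variable {n : ℕ}

/-- Plancherel. Sketch: transfer to `EuclideanSpace ℝ (Fin n)` (`PiLp.volume_preserving_toLp`,
`PiLp.volume_preserving_ofLp`), `HasCompactSupport.toSchwartzMap`,
`SchwartzMap.integral_norm_sq_fourier`, `Real.fourier_eq'`. -/
theorem planch {u : V n → ℝ} (hu : Sm u) (hc : HasCompactSupport u) :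
    Integrable (fun ξ : V n => ‖∫ x : V n, Complex.exp (-((2 * Real.pi * ∑ a, ξ a * x a : ℝ) : ℂ) *
      Complex.I) * (u x : ℂ)‖ ^ 2) ∧
    ∫ ξ : V n, ‖∫ x : V n, Complex.exp (-((2 * Real.pi * ∑ a, ξ a * x a : ℝ) : ℂ) * Complex.I) *
      (u x : ℂ)‖ ^ 2 = ∫ x, u x ^ 2 := by
  let e : EuclideanSpace ℝ (Fin n) ≃L[ℝ] V n := EuclideanSpace.equiv (Fin n) ℝ
  have h1 : HasCompactSupport fun y : EuclideanSpace ℝ (Fin n) => (u (e y) : ℂ) :=
    (hc.comp_homeomorph e.toHomeomorph).comp_left (g := fun t : ℝ => (t : ℂ)) Complex.ofReal_zero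
  have h2 : Sm fun y : EuclideanSpace ℝ (Fin n) => (u (e y) : ℂ) :=
    Complex.ofRealCLM.contDiff.comp (hu.comp e.contDiff)
  let f : SchwartzMap (EuclideanSpace ℝ (Fin n)) ℂ := h1.toSchwartzMap h2
  have hm := PiLp.volume_preserving_toLp (Fin n)
  have he : MeasurableEmbedding (WithLp.toLp 2 : V n → EuclideanSpace ℝ (Fin n)) :=
    (MeasurableEquiv.toLp 2 _).measurableEmbedding
  have key : ∀ ξ : V n, ∫ x : V n, Complex.exp (-((2 * Real.pi * ∑ a, ξ a * x a : ℝ) : ℂ) *
      Complex.I) * (u x : ℂ) = FourierTransform.fourier f (WithLp.toLp 2 ξ) := by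
    intro ξ
    rw [SchwartzMap.fourier_coe, Real.fourier_eq', ← hm.integral_comp he]
    refine integral_congr_ae (Eventually.of_forall fun x => ?_)
    have : inner ℝ (WithLp.toLp 2 x : EuclideanSpace ℝ (Fin n)) (WithLp.toLp 2 ξ) =
        ∑ a, ξ a * x a := by
      simp [PiLp.inner_apply]
    simp only [this, smul_eq_mul]
    congr 2
    push_cast
    ring
  simp only [key]
  refine ⟨?_, ?_⟩
  · have h3 : Integrable fun y : EuclideanSpace ℝ (Fin n) => ‖FourierTransform.fourier f y‖ ^ 2 :=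
      ((FourierTransform.fourier f).memLp 2 volume).integrable_norm_pow two_ne_zero
    exact (hm.integrable_comp_emb he).2 h3
  · rw [hm.integral_comp he fun y => ‖FourierTransform.fourier f y‖ ^ 2,
      SchwartzMap.integral_norm_sq_fourier, ← hm.integral_comp he]
    refine integral_congr_ae (Eventually.of_forall fun x => ?_)
    change ‖(u x : ℂ)‖ ^ 2 = u x ^ 2
    rw [Complex.norm_real, Real.norm_eq_abs, sq_abs]

end Pool.Agent.Lib.MP_45f3cb_gt.Fa
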