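import Pool.Agent.Lib.MP_45f3cb_gt.Fa.FoA
import Pool.Agent.Lib.MP_45f3cb_gt.Fa.FoP

/-!
The Plancherel identity for jets.
-/

open Set MeasureTheory Filter Topology Matrix

namespace Pool.Agent.Lib.MP_45f3cb_gt.Fa

variable {n : ℕ}

variable {P Q p : Z n → ℝ}

theorem FoB_int (N : ℕ) (h : XC P) (v : V n) : Integrable fun x => jn N P (x, v) := by
  obtain ⟨K, hK, h0⟩ := h.cpt
  exact ((cont_jn h.sm N).comp (continuous_id.prodMk continuous_const)).integrable_of_hasCompactSupport
    (HasCompactSupport.intro hK fun x hx => jn_off (fun y => h0 (x, y) hx) N)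

theorem FoB_prod (N : ℕ) (h : XC P) {S : Set (V n)} (hS : IsCompact S) :
    Integrable (jn N P) (volume.prod (volume.restrict S)) := by
  obtain ⟨K, hK, h0⟩ := h.cpt
  rw [show (volume : Measure (V n)).prod (volume.restrict S) =
      ((volume : Measure (V n)).prod volume).restrict (univ ×ˢ S) by
        rw [← Measure.prod_restrict, Measure.restrict_univ]]
  have h1 : IntegrableOn (jn N P) (K ×ˢ S) ((volume : Measure (V n)).prod volume) :=
    (cont_jn h.sm N).continuousOn.integrableOn_compact (hK.prod hS)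
  exact h1.of_forall_sdiff_eq_zero (MeasurableSet.univ.prod hS.measurableSet) fun z hz =>
    jn_off (fun y => h0 (z.1, y) fun hx => hz.2 ⟨hx, hz.1.2⟩) N

/-- Sketch: induction on `N` for all `P`; `pdF_ft`, `dp_eq_pd`. -/
theorem XC.planch_nn (N : ℕ) (h : XC P) (v : V n) : Integrable (fun ξ => nn N (ft P ξ) v) ∧
    ∫ ξ, nn N (ft P ξ) v = ∫ x, jn N P (x, v) := by
  induction N generalizing P with
  | zero =>
    obtain ⟨K, hK, h0⟩ := h.cpt
    simp only [nn_zero, jn_zero]
    exact planch (u := fun x => P (x, v)) (h.sm.comp (contDiff_id.prodMk contDiff_const))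
      (HasCompactSupport.intro hK fun x hx => h0 (x, v) hx)
  | succ k ih =>
    have e1 : ∀ ξ, nn (k + 1) (ft P ξ) v = (1 / ((k : ℝ) + 1)) *
        ∑ a, nn k (ft (Pool.Agent.Lib.MP_45f3cb_gt.dp a P) ξ) v := fun ξ => by
      simp only [← h.pdF_ft]
      rfl
    have e2 : ∀ x, jn (k + 1) P (x, v) = (1 / ((k : ℝ) + 1)) *
        ∑ a, jn k (Pool.Agent.Lib.MP_45f3cb_gt.dp a P) (x, v) := fun x => by
      simp only [jn, slice_dp h.sm]
      rfl
    simp only [e1, e2]
    refine ⟨(integrable_finsetSum _ fun a _ => (ih (h.dp a)).1).const_mul _, ?_⟩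
    rw [integral_const_mul, integral_const_mul, integral_finsetSum _ fun a _ => (ih (h.dp a)).1,
      integral_finsetSum _ fun a _ => FoB_int k (h.dp a) v]
    exact congrArg _ (Finset.sum_congr rfl fun a _ => (ih (h.dp a)).2)

/-- Sketch: `integrable_prod_iff'` and `integral_integral_swap` twice; the functions are continuous
(`cont_pip`) and nonnegative, `v ↦ ∫ x, jn N P (x, v)` is continuous. -/
theorem XC.planch_set (N : ℕ) (h : XC P) {S : Set (V n)} (hS : IsCompact S) :
    Integrable (fun ξ => ∫ v in S, nn N (ft P ξ) v) ∧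
      ∫ ξ, ∫ v in S, nn N (ft P ξ) v = JI N P S := by
  have h1 := FoB_prod N h hS
  have hc : Continuous fun q : V n × V n => nn N (ft P q.1) q.2 :=
    cont_pip (P := fun q : V n × V n => ft P q.1 q.2) (Q := fun q : V n × V n => ft P q.1 q.2)
      h.sm_ft h.sm_ft N
  have h2 : Integrable (fun q : V n × V n => nn N (ft P q.1) q.2)
      (volume.prod (volume.restrict S)) := by
    refine (integrable_prod_iff' hc.aestronglyMeasurable).2
      ⟨Eventually.of_forall fun v => (h.planch_nn N v).1, ?_⟩
    refine h1.integral_prod_right.congr (Eventually.of_forall fun v => ?_)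
    simp only [Real.norm_of_nonneg (nn_nonneg _ _ _)]
    exact (h.planch_nn N v).2.symm
  refine ⟨h2.integral_prod_left, ?_⟩
  rw [integral_integral_swap (f := fun ξ v => nn N (ft P ξ) v) h2, JI,
    integral_integral_swap (f := fun x v => jn N P (x, v)) h1]
  exact integral_congr_ae (Eventually.of_forall fun v => (h.planch_nn N v).2)

end Pool.Agent.Lib.MP_45f3cb_gt.Fa
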