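import Mathlib

/-!
The weights and the summation of the exact estimate.
-/

namespace Pool.Agent.Lib.MP_45f3cb_gt.Fa

/-- the weights of the exact estimate -/
noncomputable def omp (ρ : ℝ) (N : ℕ) : ℝ := ρ ^ (2 * N) / ((N + 1).factorial : ℝ)

theorem omp_pos {ρ : ℝ} (hρ : 0 < ρ) (N : ℕ) : 0 < omp ρ N := by
  unfold omp
  positivity

theorem omp_succ (ρ : ℝ) (N : ℕ) : omp ρ (N + 1) = ρ ^ 2 / ((N : ℝ) + 2) * omp ρ N := by
  unfold omp
  rw [Nat.factorial_succ (N + 1)]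
  have h : (((N + 1).factorial : ℕ) : ℝ) ≠ 0 := by positivity
  push_cast
  field_simp
  ring

theorem NumH_ind {a t cr G : ℕ → ℝ} {bb cc ρ : ℝ} (hρ : 0 < ρ)
    (ht : ∀ N, 0 ≤ t N)
    (h1 : cc * a 1 + 2 * cr 0 + bb * a 0 ≤ G 1)
    (h1' : ∀ N, cc * a (N + 2) + 2 * cr (N + 1) + bb * a (N + 1) + t N ≤ G (N + 2))
    (h2 : ∀ N (r : ℝ), 0 ≤ cc * a N + 2 * r * cr N + r ^ 2 * t N)
    (h3 : ∀ N : ℕ, t N ≤ bb * ((N : ℝ) + 1) * a (N + 1)) (l m : ℕ) (h : l ≤ m) :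
    omp ρ (l + 1) * bb * a l +
        ∑ N ∈ Finset.Ioo l (m + 1), omp ρ N * (ρ ^ 2 / (((N : ℝ) + 1) * ((N : ℝ) + 2))) * bb * a N +
        omp ρ (m + 1) * cc * a (m + 1) ≤
      omp ρ l * cc * a l + ∑ N ∈ Finset.Ioc l (m + 1), omp ρ N * G N +
        omp ρ (m + 1) * (ρ ^ 2 / ((m : ℝ) + 2)) * t m := by
  induction m, h using Nat.le_induction with
  | base =>
    have e1 : Finset.Ioo l (l + 1) = ∅ := by
      ext x
      simp only [Finset.mem_Ioo, Finset.notMem_empty, iff_false]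
      omega
    have hG : cc * a (l + 1) + 2 * cr l + bb * a l ≤ G (l + 1) := by
      rcases l with _ | l
      · simpa using h1
      · have := h1' l
        have := ht l
        linarith
    rw [e1, Finset.sum_empty, Nat.Ioc_succ_singleton, Finset.sum_singleton]
    have hw := omp_pos hρ l
    have hs := omp_succ ρ l
    have hw1 := omp_pos hρ (l + 1)
    have k2 := mul_nonneg hw.le (h2 l (ρ ^ 2 / ((l : ℝ) + 2)))
    have k1 := mul_le_mul_of_nonneg_left hG hw1.le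
    generalize ρ ^ 2 / ((l : ℝ) + 2) = r at *
    rw [hs] at k1 ⊢
    linarith [k1, k2]
  | succ m hm ih =>
    have e1 : Finset.Ioo l (m + 1 + 1) = insert (m + 1) (Finset.Ioo l (m + 1)) := by
      ext x
      simp only [Finset.mem_Ioo, Finset.mem_insert]
      omega
    rw [e1, Finset.sum_insert (by simp), Finset.sum_Ioc_succ_top (by omega)]
    have hw := omp_pos hρ (m + 1)
    have hs := omp_succ ρ (m + 1)
    have hw1 := omp_pos hρ (m + 1 + 1)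
    have k2 := mul_nonneg hw.le (h2 (m + 1) (ρ ^ 2 / (((m + 1 : ℕ) : ℝ) + 2)))
    have k1 := mul_le_mul_of_nonneg_left (h1' m) hw1.le
    have hc0 : 0 ≤ ρ ^ 2 / ((((m + 1 : ℕ) : ℝ) + 1) * (((m + 1 : ℕ) : ℝ) + 2)) := by positivity
    have k3 := mul_le_mul_of_nonneg_left (h3 m) (mul_nonneg hw.le hc0)
    have r1 : ρ ^ 2 / (((m + 1 : ℕ) : ℝ) + 2) =
        ρ ^ 2 / ((((m + 1 : ℕ) : ℝ) + 1) * (((m + 1 : ℕ) : ℝ) + 2)) * ((m : ℝ) + 2) := by
      push_cast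
      field_simp
      ring
    have r2 : ρ ^ 2 / ((m : ℝ) + 2) =
        ρ ^ 2 / ((((m + 1 : ℕ) : ℝ) + 1) * (((m + 1 : ℕ) : ℝ) + 2)) * ((m : ℝ) + 3) := by
      push_cast
      field_simp
      ring
    rw [r2] at ih
    rw [r1] at hs k2
    rw [r1]
    generalize ρ ^ 2 / ((((m + 1 : ℕ) : ℝ) + 1) * (((m + 1 : ℕ) : ℝ) + 2)) = c at *
    rw [show m + 2 = m + 1 + 1 from rfl, hs] at k1
    rw [hs]
    linarith [k1, k2, k3, ih]

/-- Sketch: with `r N = ρ² / (N + 2)` subtract the nonnegative numbers `omp N * (h2 N (r N))`,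
`l ≤ N < N₂`, from the sum of `omp N * G N` over `l < N ≤ N₂`; the cross terms cancel (`omp (N + 1) = r N * omp N`), the
coefficient of `t N` is `omp (N + 2) - omp (N + 1) * r N ≤ 0` (use `h3`), for `N = N₂ - 1` only the
negative part is there. Induction on `N₂` for the statement that keeps the term
`omp N₂ * cc * a N₂` on the left and `omp N₂ * r (N₂ - 1) * t (N₂ - 1)` on the right. -/
theorem hyp_num {a t cr G : ℕ → ℝ} {bb cc ρ : ℝ} (hρ : 0 < ρ) (hb : 0 ≤ bb) (hc : 0 ≤ cc)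
    (ha : ∀ N, 0 ≤ a N) (ht : ∀ N, 0 ≤ t N)
    (h1 : cc * a 1 + 2 * cr 0 + bb * a 0 ≤ G 1)
    (h1' : ∀ N, cc * a (N + 2) + 2 * cr (N + 1) + bb * a (N + 1) + t N ≤ G (N + 2))
    (h2 : ∀ N (r : ℝ), 0 ≤ cc * a N + 2 * r * cr N + r ^ 2 * t N)
    (h3 : ∀ N : ℕ, t N ≤ bb * ((N : ℝ) + 1) * a (N + 1)) {l N₂ : ℕ} (h : l < N₂) :
    omp ρ (l + 1) * bb * a l +
        ∑ N ∈ Finset.Ioo l N₂, omp ρ N * (ρ ^ 2 / (((N : ℝ) + 1) * ((N : ℝ) + 2))) * bb * a N ≤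
      omp ρ l * cc * a l + ∑ N ∈ Finset.Ioc l N₂, omp ρ N * G N + ρ ^ 2 * omp ρ N₂ * bb * a N₂ := by
  obtain ⟨m, rfl⟩ : ∃ m, N₂ = m + 1 := ⟨N₂ - 1, by omega⟩
  have k := NumH_ind hρ ht h1 h1' h2 h3 l m (by omega)
  have hw := omp_pos hρ (m + 1)
  have k1 : 0 ≤ omp ρ (m + 1) * cc * a (m + 1) := mul_nonneg (mul_nonneg hw.le hc) (ha _)
  have hr : 0 ≤ ρ ^ 2 / ((m : ℝ) + 2) := by positivity
  have k2 := mul_le_mul_of_nonneg_left (h3 m) (mul_nonneg hw.le hr)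
  have k3 : ρ ^ 2 / ((m : ℝ) + 2) * ((m : ℝ) + 1) ≤ ρ ^ 2 := by
    rw [div_mul_eq_mul_div, div_le_iff₀ (by positivity)]
    nlinarith [sq_nonneg ρ]
  have k4 := mul_le_mul_of_nonneg_left k3 (mul_nonneg (mul_nonneg hw.le hb) (ha (m + 1)))
  linarith [k, k1, k2, k4]

end Pool.Agent.Lib.MP_45f3cb_gt.Fa
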