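import Pool.Agent.Lib.MP_45f3cb_gt.Fa.JetK
import Pool.Agent.Lib.MP_45f3cb_gt.Fa.NumH

/-!
The exact hyponormality estimate.
-/

namespace Pool.Agent.Lib.MP_45f3cb_gt.Fa

theorem JetH_ss {n : ℕ} {M : Type} [AddCommGroup M] [Module ℝ M] {J : Jet n M}
    {s : ℂ → Module.End ℝ M} (H : J.Cx s) (u v u' v' : ℂ)
    (huv : (starRingEnd ℂ) u * v = (starRingEnd ℂ) u' * v') (k : ℕ) (x y : M) :
    J.ip k (s u x) (s v y) = J.ip k (s u' x) (s v' y) := by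
  rw [H.adj u k, H.adj u' k, ← Module.End.mul_apply, ← Module.End.mul_apply, ← H.mul, ← H.mul, huv]

theorem JetH_curl {n : ℕ} {M : Type} [AddCommGroup M] [Module ℝ M] {J : Jet n M}
    {s : ℂ → Module.End ℝ M} (H : J.Cx s) (b : Fin n → ℂ) (A : M) (k : ℕ) :
    ∑ a, ∑ e, J.ip k (J.D a (s (b e) A)) (J.D e (s (b a) A)) =
      J.ip k (∑ a, s ((starRingEnd ℂ) (b a)) (J.D a A))
        (∑ a, s ((starRingEnd ℂ) (b a)) (J.D a A)) := by
  rw [map_sum, Finset.sum_comm]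
  refine Finset.sum_congr rfl fun e _ => ?_
  rw [map_sum, LinearMap.sum_apply]
  refine Finset.sum_congr rfl fun a _ => ?_
  rw [H.cd (b e) a A, H.cd (b a) e A]
  refine JetH_ss H _ _ _ _ ?_ k _ _
  rw [Complex.conj_conj, mul_comm]

theorem JetH_cross {n : ℕ} {M : Type} [AddCommGroup M] [Module ℝ M] {J : Jet n M}
    {s : ℂ → Module.End ℝ M} (H : J.Cx s) (b : Fin n → ℂ) (c : ℂ) (A : M) (k : ℕ) :
    J.ip (k + 1) (∑ a, J.Y a (s (b a) A)) (s c A) =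
      J.ip k (∑ a, s ((starRingEnd ℂ) (b a)) (J.D a A)) (s ((starRingEnd ℂ) c) A) := by
  rw [J.ip_sumY, map_sum, LinearMap.sum_apply]
  refine Finset.sum_congr rfl fun a _ => ?_
  rw [H.cd c a A, J.ip_symm k (s (b a) A)]
  refine JetH_ss H _ _ _ _ ?_ k _ _
  rw [Complex.conj_conj, mul_comm]

theorem JetH_sq {n : ℕ} {M : Type} [AddCommGroup M] [Module ℝ M] {J : Jet n M}
    {s : ℂ → Module.End ℝ M} (H : J.Cx s) (b : Fin n → ℂ) (A : M) (k : ℕ) :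
    ∑ a, J.ip k (s (b a) A) (s (b a) A) = (∑ a, ‖b a‖ ^ 2) * J.ip k A A := by
  rw [Finset.sum_mul]
  exact Finset.sum_congr rfl fun a _ => H.ip_s (b a) k A

theorem JetH_add {n : ℕ} {M : Type} [AddCommGroup M] [Module ℝ M] (J : Jet n M) (k : ℕ)
    (x y : M) : J.ip k (x + y) (x + y) = J.ip k x x + 2 * J.ip k y x + J.ip k y y := by
  simp only [map_add, LinearMap.add_apply]
  rw [J.ip_symm k x y]
  ring

/-- Sketch: `hyp_num` with `T = ∑ s (b a) Y a`, `T' = ∑ s (conj (b a)) D a`, `a N = |A|²`,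
`t N = |T' A|²`, `cr N = ⟨T' A, s (conj c) A⟩`. `|T A|²` by `sq_sumY` for `B a = s (b a) A`:
`∑ ⟨D a (s (b b') A), D b' (s (b a) A)⟩ = |T' A|²`; `h3` from `2 |⟨x, y⟩| ≤ |x|² + |y|²` in this form
(`abs_curl_le`, `Cx.ip_s`). -/
theorem Jet.hyp {n : ℕ} {M : Type} [AddCommGroup M] [Module ℝ M] {J : Jet n M}
    {s : ℂ → Module.End ℝ M} (H : J.Cx s) (b : Fin n → ℂ) (c : ℂ) (A G : M)
    (hG : G = s c A + ∑ a, J.Y a (s (b a) A)) {ρ : ℝ} (hρ : 0 < ρ) {l N₂ : ℕ} (h : l < N₂) :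
    omp ρ (l + 1) * (∑ a, ‖b a‖ ^ 2) * J.ip l A A +
        ∑ N ∈ Finset.Ioo l N₂, omp ρ N * (ρ ^ 2 / (((N : ℝ) + 1) * ((N : ℝ) + 2))) *
          (∑ a, ‖b a‖ ^ 2) * J.ip N A A ≤
      omp ρ l * ‖c‖ ^ 2 * J.ip l A A + ∑ N ∈ Finset.Ioc l N₂, omp ρ N * J.ip N G G +
        ρ ^ 2 * omp ρ N₂ * (∑ a, ‖b a‖ ^ 2) * J.ip N₂ A A := by
  refine hyp_num (a := fun N => J.ip N A A)
    (t := fun N => J.ip N (∑ a, s ((starRingEnd ℂ) (b a)) (J.D a A))
      (∑ a, s ((starRingEnd ℂ) (b a)) (J.D a A)))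
    (cr := fun N => J.ip N (∑ a, s ((starRingEnd ℂ) (b a)) (J.D a A)) (s ((starRingEnd ℂ) c) A))
    (G := fun N => J.ip N G G) (bb := ∑ a, ‖b a‖ ^ 2) (cc := ‖c‖ ^ 2) hρ
    (Finset.sum_nonneg fun a _ => by positivity) (by positivity) (fun N => J.ip_nonneg N A)
    (fun N => J.ip_nonneg N _) ?_ (fun N => ?_) (fun N r => ?_) (fun N => ?_) h
  · have h1 := JetH_cross H b c A 0
    have h2 := J.sq_sumY_one fun a => s (b a) A
    rw [JetH_sq H] at h2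
    rw [hG, JetH_add, H.ip_s, h2, ← h1]
  · have h1 := JetH_cross H b c A (N + 1)
    have h2 := J.sq_sumY N fun a => s (b a) A
    rw [JetH_sq H, JetH_curl H] at h2
    rw [hG, JetH_add, H.ip_s, h2, ← h1]
    exact le_of_eq (by ring)
  · have h1 := J.ip_nonneg N (s ((starRingEnd ℂ) c) A +
      r • ∑ a, s ((starRingEnd ℂ) (b a)) (J.D a A))
    rw [JetH_add, H.ip_s, RCLike.norm_conj] at h1
    simp only [map_smul, LinearMap.smul_apply, smul_eq_mul] at h1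
    exact h1.trans (le_of_eq (by ring))
  · have h1 := J.abs_curl_le N fun a => s (b a) A
    rw [JetH_sq H, JetH_curl H] at h1
    exact ((le_abs_self _).trans h1).trans (le_of_eq (by ring))

end Pool.Agent.Lib.MP_45f3cb_gt.Fa
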