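import Pool.Agent.Lib.MP_45f3cb_gt.Fa.PtD
import Pool.Agent.Lib.MP_45f3cb_gt.Fa.JetH

/-!
The fibre estimate at one point.
-/

open Set MeasureTheory Filter Topology Matrix

namespace Pool.Agent.Lib.MP_45f3cb_gt.Fa

variable {n : ℕ}

/-- multiplication by a complex number on smooth functions -/
noncomputable def cmul (c : ℂ) : Module.End ℝ (SmF n ℂ) where
  toFun P := ⟨fun y => c * P.1 y, show Sm fun y => c * P.1 y from contDiff_const.mul (SmF.sm P)⟩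
  map_add' P Q := Subtype.ext (funext fun y => by
    change c * (P.1 y + Q.1 y) = c * P.1 y + c * Q.1 y
    exact mul_add _ _ _)
  map_smul' r P := Subtype.ext (funext fun y => by
    change c * (r • P.1 y) = r • (c * P.1 y)
    exact mul_smul_comm _ _ _)

theorem cx_cmul (v : V n) : (ptJet ℂ v).Cx cmul := by
  have hcd : ∀ c : ℂ, (ptJet ℂ v).CD (cmul c) := fun c a P => Subtype.ext (funext fun y => by
    change fderiv ℝ (fun y => c * P.1 y) y (Pi.single a 1) = c * fderiv ℝ P.1 y (Pi.single a 1)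
    rw [fderiv_const_mul ((SmF.sm P).dAt y)]
    rfl)
  refine ⟨fun c c' => ?_, fun c c' => ?_, fun r P => ?_, fun c => ?_, hcd, fun c a P => ?_⟩
  · exact LinearMap.ext fun P => Subtype.ext (funext fun y => add_mul _ _ _)
  · exact LinearMap.ext fun P => Subtype.ext (funext fun y => mul_assoc _ _ _)
  · exact Subtype.ext (funext fun y => Complex.real_smul.symm)
  · refine Jet.adj_lift (hcd _) (hcd _) fun P Q => ?_
    change inner ℝ (c * P.1 v) (Q.1 v) = inner ℝ (P.1 v) ((starRingEnd ℂ) c * Q.1 v)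
    rw [Complex.inner, Complex.inner, map_mul]
    congr 1
    ring
  · exact Subtype.ext (funext fun y => mul_smul_comm _ _ _)

theorem FoC_sm (b : Fin n → ℂ) {A : V n → ℂ} (hA : Sm A) :
    Sm fun y : V n => (∑ a, b a * (y a : ℂ)) * A y :=
  (ContDiff.sum fun a _ => contDiff_const.mul
    (Complex.ofRealCLM.contDiff.comp (contDiff_apply ℝ ℝ a))).mul hA

theorem FoC_split (b : Fin n → ℂ) (A : V n → ℂ) (v y : V n) :
    (∑ a, b a * (y a : ℂ)) * A y =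
      (∑ a, b a * (v a : ℂ)) * A y + ∑ a, (y a - v a) • (b a * A y) := by
  rw [Finset.sum_mul, Finset.sum_mul, ← Finset.sum_add_distrib]
  refine Finset.sum_congr rfl fun a _ => ?_
  rw [Complex.real_smul]
  push_cast
  ring

/-- Sketch: `Jet.hyp` for `ptJet ℂ v`, `c = ∑ b a * v a`; `pip_eq`. -/
theorem hyp_pt (b : Fin n → ℂ) {A : V n → ℂ} (hA : Sm A) (v : V n) {ρ : ℝ} (hρ : 0 < ρ) {l N₂ : ℕ}
    (h : l < N₂) : omp ρ (l + 1) * (∑ a, ‖b a‖ ^ 2) * nn l A v +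
        ∑ N ∈ Finset.Ioo l N₂, omp ρ N * (ρ ^ 2 / (((N : ℝ) + 1) * ((N : ℝ) + 2))) *
          (∑ a, ‖b a‖ ^ 2) * nn N A v ≤
      omp ρ l * ‖∑ a, b a * (v a : ℂ)‖ ^ 2 * nn l A v +
        ∑ N ∈ Finset.Ioc l N₂, omp ρ N * nn N (fun y => (∑ a, b a * (y a : ℂ)) * A y) v +
        ρ ^ 2 * omp ρ N₂ * (∑ a, ‖b a‖ ^ 2) * nn N₂ A v := by
  have := Jet.hyp (cx_cmul v) b (∑ a, b a * (v a : ℂ)) ⟨A, hA⟩ ⟨_, FoC_sm b hA⟩
    (Subtype.ext (funext fun y => by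
      rw [Submodule.coe_add, Submodule.coe_sum, Pi.add_apply, Finset.sum_apply]
      exact FoC_split b A v y)) hρ h
  simpa only [pip_eq, nn] using this

/-- the right hand side of the fibre estimate -/
noncomputable def GG (ρ : ℝ) (N₂ : ℕ) (b : Fin n → ℂ) (A p : V n → ℂ) (v : V n) : ℝ :=
  ∑ N ∈ Finset.range (N₂ + 1), omp ρ N * nn N (fun y => (∑ a, b a * (y a : ℂ)) * A y - p y) v +
    omp ρ N₂ * (∑ a, ‖b a‖ ^ 2) * nn N₂ A v

theorem FoC_Y {P : V n → ℂ} (hP : Sm P) (a : Fin n) (k : ℕ) (v : V n) :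
    nn k (fun y => (y a - v a) • P y) v ≤ k * nn (k - 1) P v := by
  cases k with
  | zero => simp [nn_zero]
  | succ k =>
    have h := (ptJet ℂ v).ip_le_of_nm ((ptJet ℂ v).nm_Y_le k a ⟨P, hP⟩)
    rw [mul_pow, Real.sq_sqrt (by positivity), Jet.nm_sq, pip_eq, pip_eq] at h
    rw [Nat.add_sub_cancel]
    push_cast
    exact h

theorem nn_lin_le (b : Fin n → ℂ) {A : V n → ℂ} (hA : Sm A) (k : ℕ) (v : V n) :
    nn k (fun y => (∑ a, b a * (y a : ℂ)) * A y) v ≤ 2 * ‖∑ a, b a * (v a : ℂ)‖ ^ 2 * nn k A v +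
      2 * k * n * (∑ a, ‖b a‖ ^ 2) * nn (k - 1) A v := by
  have hs : ∀ a, Sm fun y : V n => (y a - v a) • (b a * A y) := fun a =>
    sm_coord (contDiff_const.mul hA) a (v a)
  rw [funext (FoC_split b A v)]
  refine (nn_add_le (contDiff_const.mul hA) (ContDiff.sum fun a _ => hs a) k v).trans ?_
  rw [nn_cmul hA]
  have h1 := nn_sum_le hs k v
  have h2 : ∑ a, nn k (fun y : V n => (y a - v a) • (b a * A y)) v ≤
      ∑ a, k * (‖b a‖ ^ 2 * nn (k - 1) A v) := Finset.sum_le_sum fun a _ => by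
    rw [← nn_cmul hA]
    exact FoC_Y (contDiff_const.mul hA) a k v
  rw [← Finset.mul_sum, ← Finset.sum_mul] at h2
  rw [Fintype.card_fin] at h1
  have h3 := mul_le_mul_of_nonneg_left h2 (Nat.cast_nonneg (α := ℝ) n)
  linarith

theorem FoC_parts {ρ : ℝ} (hρ : 0 < ρ) (N₂ : ℕ) (b : Fin n → ℂ) (A p : V n → ℂ) (v : V n) :
    0 ≤ GG ρ N₂ b A p v ∧
    (∀ s ⊆ Finset.range (N₂ + 1), ∑ N ∈ s, omp ρ N *
      nn N (fun y => (∑ a, b a * (y a : ℂ)) * A y - p y) v ≤ GG ρ N₂ b A p v) ∧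
    omp ρ N₂ * (∑ a, ‖b a‖ ^ 2) * nn N₂ A v ≤ GG ρ N₂ b A p v := by
  have h0 : ∀ N, 0 ≤ omp ρ N * nn N (fun y => (∑ a, b a * (y a : ℂ)) * A y - p y) v :=
    fun N => mul_nonneg (omp_pos hρ N).le (nn_nonneg _ _ _)
  have h1 : 0 ≤ ∑ N ∈ Finset.range (N₂ + 1), omp ρ N *
      nn N (fun y => (∑ a, b a * (y a : ℂ)) * A y - p y) v := Finset.sum_nonneg fun N _ => h0 N
  have h2 : 0 ≤ omp ρ N₂ * (∑ a, ‖b a‖ ^ 2) * nn N₂ A v :=
    mul_nonneg (mul_nonneg (omp_pos hρ N₂).le (by positivity)) (nn_nonneg _ _ _)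
  refine ⟨add_nonneg h1 h2, fun s hs => ?_, le_add_of_nonneg_left h1⟩
  exact (Finset.sum_le_sum_of_subset_of_nonneg hs fun N _ _ => h0 N).trans
    (le_add_of_nonneg_right h2)

/-- Sketch: `hyp_pt` with `l = d + 1`; above this level `p` has no jets (`PL.nn_zero`, `Jet.nm_congr`). -/
theorem fl1 (d : ℕ) {ρ : ℝ} (hρ : 0 < ρ) : ∃ C, 0 ≤ C ∧ ∀ (b : Fin n → ℂ) (A p : V n → ℂ) (v : V n)
    (N₂ : ℕ), Sm A → PL (d + 2) p → d + 1 < N₂ →
      ‖∑ a, b a * (v a : ℂ)‖ ^ 2 ≤ ρ ^ 2 / (2 * ((d : ℝ) + 3)) * ∑ a, ‖b a‖ ^ 2 →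
      (∑ a, ‖b a‖ ^ 2) * nn (d + 1) A v ≤ C * GG ρ N₂ b A p v := by
  have ho := omp_pos hρ (d + 2)
  refine ⟨2 * (1 + ρ ^ 2) / omp ρ (d + 2), by positivity, fun b A p v N₂ hA hp hN hc => ?_⟩
  have h := hyp_pt b hA v hρ hN
  obtain ⟨g0, g1, g2⟩ := FoC_parts hρ N₂ b A p v
  have h1 := g1 (Finset.Ioc (d + 1) N₂) fun N hN => by
    rw [Finset.mem_Ioc] at hN
    exact Finset.mem_range.2 (by omega)
  have h2 : ∑ N ∈ Finset.Ioc (d + 1) N₂, omp ρ N *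
      nn N (fun y => (∑ a, b a * (y a : ℂ)) * A y - p y) v = ∑ N ∈ Finset.Ioc (d + 1) N₂, omp ρ N *
      nn N (fun y => (∑ a, b a * (y a : ℂ)) * A y) v := Finset.sum_congr rfl fun N hN => by
    rw [Finset.mem_Ioc] at hN
    rw [nn_sub_pl (FoC_sm b hA) hp (by omega)]
  have h3 : 0 ≤ ∑ N ∈ Finset.Ioo (d + 1) N₂, omp ρ N *
      (ρ ^ 2 / (((N : ℝ) + 1) * ((N : ℝ) + 2))) * (∑ a, ‖b a‖ ^ 2) * nn N A v :=
    Finset.sum_nonneg fun N _ => mul_nonneg (mul_nonneg (mul_nonneg (omp_pos hρ N).le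
      (by positivity)) (by positivity)) (nn_nonneg _ _ _)
  have h4 : omp ρ (d + 1) * ‖∑ a, b a * (v a : ℂ)‖ ^ 2 * nn (d + 1) A v ≤
      omp ρ (d + 1) * (ρ ^ 2 / (2 * ((d : ℝ) + 3)) * ∑ a, ‖b a‖ ^ 2) * nn (d + 1) A v :=
    mul_le_mul_of_nonneg_right (mul_le_mul_of_nonneg_left hc (omp_pos hρ _).le) (nn_nonneg _ _ _)
  have h5 : omp ρ (d + 1) * (ρ ^ 2 / (2 * ((d : ℝ) + 3))) = omp ρ (d + 2) / 2 := by
    rw [show d + 2 = d + 1 + 1 from rfl, omp_succ ρ (d + 1)]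
    push_cast
    field_simp
    ring
  have h6 := mul_le_mul_of_nonneg_left g2 (sq_nonneg ρ)
  rw [← mul_assoc, h5] at h4
  rw [div_mul_eq_mul_div, le_div_iff₀ ho]
  rw [show d + 1 + 1 = d + 2 from rfl] at h
  linarith

/-- Sketch: `Q = p - (b·y) T = (b·y) (A - T) - R` with `T = tay v d A` is `PL (d + 2)`; its jets at
`v` by `nn_lin_le`, `nn_sub_tay`, `fl1`; `poly_bd`. -/
theorem fl2 (d : ℕ) {ρ : ℝ} (hρ : 0 < ρ) (R₀ : ℝ) : ∃ C, 0 ≤ C ∧ ∀ (b : Fin n → ℂ) (A p : V n → ℂ)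
    (v v' : V n) (N₂ : ℕ), Sm A → PL (d + 2) p → d + 1 < N₂ → ‖v' - v‖ ≤ R₀ →
      ‖∑ a, b a * (v a : ℂ)‖ ^ 2 ≤ ρ ^ 2 / (2 * ((d : ℝ) + 3)) * ∑ a, ‖b a‖ ^ 2 →
      ∑ k ∈ Finset.range (d + 2),
        nn k (fun y => p y - (∑ a, b a * (y a : ℂ)) * tay v d A y) v' ≤ C * GG ρ N₂ b A p v := by
  obtain ⟨C₁, hC₁, h1⟩ := fl1 (n := n) d hρ
  obtain ⟨C₂, hC₂, h2⟩ := poly_bd n (d + 1) ℂ R₀
  have hκ : 0 ≤ ρ ^ 2 / (2 * ((d : ℝ) + 3)) := by positivity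
  refine ⟨C₂ * ∑ k ∈ Finset.range (d + 2),
    (4 * (ρ ^ 2 / (2 * ((d : ℝ) + 3)) * C₁) + 2 / omp ρ k), mul_nonneg hC₂
      (Finset.sum_nonneg fun k _ => add_nonneg (by positivity)
        (div_nonneg zero_le_two (omp_pos hρ k).le)), fun b A p v v' N₂ hA hp hN hv hc => ?_⟩
  have hT := pl_tay v d A
  have hQ : PL (d + 1 + 1) fun y => p y - (∑ a, b a * (y a : ℂ)) * tay v d A y := by
    refine PL.sub hp ?_
    have h3 := PL.sum Finset.univ fun a (_ : a ∈ Finset.univ) => (hT.cmul (b a)).coord a 0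
    have h4 : (fun y : V n => (∑ a, b a * (y a : ℂ)) * tay v d A y) =
        fun y => ∑ a, (y a - 0) • (b a * tay v d A y) := funext fun y => by
      rw [FoC_split b (tay v d A) 0 y]
      simp
    rw [h4]
    exact h3
  refine (h2 _ hQ v v' hv).trans ?_
  rw [mul_assoc, Finset.sum_mul]
  refine mul_le_mul_of_nonneg_left (Finset.sum_le_sum fun k hk => ?_) hC₂
  rw [Finset.mem_range] at hk
  obtain ⟨g0, g1, -⟩ := FoC_parts hρ N₂ b A p v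
  have hAT : Sm fun y => A y - tay v d A y := hA.sub hT.sm
  have e : (fun y => p y - (∑ a, b a * (y a : ℂ)) * tay v d A y) = fun y =>
      (∑ a, b a * (y a : ℂ)) * (A y - tay v d A y) - ((∑ a, b a * (y a : ℂ)) * A y - p y) :=
    funext fun y => by ring
  rw [e]
  refine (nn_sub_le (FoC_sm b hAT) ((FoC_sm b hA).sub hp.sm) k v).trans ?_
  have k1 := g1 {k} (Finset.singleton_subset_iff.2 (Finset.mem_range.2 (by omega)))
  rw [Finset.sum_singleton] at k1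
  have k2 : nn k (fun y => (∑ a, b a * (y a : ℂ)) * A y - p y) v ≤
      1 / omp ρ k * GG ρ N₂ b A p v := by
    rw [one_div, le_inv_mul_iff₀ (omp_pos hρ k)]
    exact k1
  have k3 := nn_lin_le b hAT k v
  rw [nn_sub_tay hA v (show k - 1 ≤ d by omega), mul_zero, add_zero] at k3
  have k4 : nn k (fun y => A y - tay v d A y) v ≤ nn (d + 1) A v := by
    rcases Nat.lt_or_ge d k with hk' | hk'
    · obtain rfl : k = d + 1 := by omega
      exact (nn_sub_pl hA hT le_rfl v).le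
    · rw [nn_sub_tay hA v hk']
      exact nn_nonneg _ _ _
  have k5 := h1 b A p v N₂ hA hp hN hc
  have k6 : ‖∑ a, b a * (v a : ℂ)‖ ^ 2 * nn k (fun y => A y - tay v d A y) v ≤
      (ρ ^ 2 / (2 * ((d : ℝ) + 3)) * ∑ a, ‖b a‖ ^ 2) * nn (d + 1) A v :=
    mul_le_mul hc k4 (nn_nonneg _ _ _) (by positivity)
  have k7 := mul_le_mul_of_nonneg_left k5 hκ
  have k8 : 2 / omp ρ k = 2 * (1 / omp ρ k) := by ring
  rw [k8]
  linarith

end Pool.Agent.Lib.MP_45f3cb_gt.Fa
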