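import Pool.Agent.Lib.MP_45f3cb_gt.Fa.FoC

/-!
The fibre estimate.
-/

open Set MeasureTheory Filter Topology Matrix

namespace Pool.Agent.Lib.MP_45f3cb_gt.Fa

variable {n : ℕ}

theorem FoD_sm_lin (b : Fin n → ℂ) : Sm fun y : V n => ∑ a, b a * (y a : ℂ) :=
  ContDiff.sum fun a _ => contDiff_const.mul
    (Complex.ofRealCLM.contDiff.comp (contDiff_apply ℝ ℝ a))

theorem FoD_sm_R (b : Fin n → ℂ) {A p : V n → ℂ} (hA : Sm A) (hp : Sm p) :
    Sm fun y : V n => (∑ a, b a * (y a : ℂ)) * A y - p y := ((FoD_sm_lin b).mul hA).sub hp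

theorem FoD_pl_lin (b : Fin n → ℂ) {k : ℕ} {T : V n → ℂ} (h : PL k T) :
    PL (k + 1) fun y : V n => (∑ a, b a * (y a : ℂ)) * T y := by
  have h1 := PL.sum Finset.univ fun a _ => (h.coord a 0).cmul (b a)
  have e : (fun y : V n => (∑ a, b a * (y a : ℂ)) * T y) =
      fun y : V n => ∑ a, b a * ((y a - 0) • T y) := by
    funext y
    rw [Finset.sum_mul]
    refine Finset.sum_congr rfl fun a _ => ?_
    rw [sub_zero, Complex.real_smul, mul_assoc]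
  rw [e]
  exact h1

theorem FoD_bb (b : Fin n → ℂ) : 0 ≤ ∑ a, ‖b a‖ ^ 2 := Finset.sum_nonneg fun _ _ => sq_nonneg _

theorem FoD_sum_le {ρ : ℝ} (hρ : 0 < ρ) (N₂ : ℕ) (b : Fin n → ℂ) (A p : V n → ℂ) (v : V n) :
    ∑ N ∈ Finset.range (N₂ + 1), omp ρ N * nn N (fun y => (∑ a, b a * (y a : ℂ)) * A y - p y) v ≤
      GG ρ N₂ b A p v :=
  le_add_of_nonneg_right (mul_nonneg (mul_nonneg (omp_pos hρ _).le (FoD_bb b)) (nn_nonneg _ _ _))

theorem FoD_sum_nonneg {ρ : ℝ} (hρ : 0 < ρ) (s : Finset ℕ) (P : V n → ℂ) (v : V n) :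
    0 ≤ ∑ N ∈ s, omp ρ N * nn N P v :=
  Finset.sum_nonneg fun _ _ => mul_nonneg (omp_pos hρ _).le (nn_nonneg _ _ _)

theorem FoD_top_le {ρ : ℝ} (hρ : 0 < ρ) (N₂ : ℕ) (b : Fin n → ℂ) (A p : V n → ℂ) (v : V n) :
    omp ρ N₂ * (∑ a, ‖b a‖ ^ 2) * nn N₂ A v ≤ GG ρ N₂ b A p v :=
  le_add_of_nonneg_left (FoD_sum_nonneg hρ _ _ _)

theorem FoD_GG_nonneg {ρ : ℝ} (hρ : 0 < ρ) (N₂ : ℕ) (b : Fin n → ℂ) (A p : V n → ℂ) (v : V n) :
    0 ≤ GG ρ N₂ b A p v := (FoD_sum_nonneg hρ _ _ _).trans (FoD_sum_le hρ N₂ b A p v)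

theorem FoD_GG_cont (ρ : ℝ) (N₂ : ℕ) (b : Fin n → ℂ) {A p : V n → ℂ} (hA : Sm A) (hp : Sm p) :
    Continuous (GG ρ N₂ b A p) :=
  (continuous_finsetSum _ fun N _ => continuous_const.mul (cont_nn (FoD_sm_R b hA hp) N)).add
    (continuous_const.mul (cont_nn hA N₂))

theorem FoD_pl_sum {ρ : ℝ} (hρ : 0 < ρ) {m : ℕ} {Q : V n → ℂ} (hQ : PL m Q) (s : Finset ℕ)
    (v : V n) : ∑ N ∈ s, omp ρ N * nn N Q v ≤
      (∑ k ∈ Finset.range m, omp ρ k) * ∑ k ∈ Finset.range m, nn k Q v := by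
  have h1 : ∑ N ∈ s, omp ρ N * nn N Q v ≤ ∑ N ∈ Finset.range m, omp ρ N * nn N Q v := by
    rw [← Finset.sum_subset (Finset.inter_subset_left (s₁ := s) (s₂ := Finset.range m))]
    · exact Finset.sum_le_sum_of_subset_of_nonneg Finset.inter_subset_right fun N _ _ =>
        mul_nonneg (omp_pos hρ _).le (nn_nonneg _ _ _)
    · intro N h1 h2
      rw [hQ.nn_zero (not_lt.1 fun hN => h2 (Finset.mem_inter.2 ⟨h1, Finset.mem_range.2 hN⟩)),
        mul_zero]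
  refine h1.trans ?_
  rw [Finset.sum_mul]
  refine Finset.sum_le_sum fun N hN => mul_le_mul_of_nonneg_left ?_ (omp_pos hρ _).le
  exact Finset.single_le_sum (f := fun k => nn k Q v) (fun k _ => nn_nonneg _ _ _) hN

theorem FoD_hyp (b : Fin n → ℂ) {U : V n → ℂ} (hU : Sm U) (v : V n) {ρ : ℝ} (hρ : 0 < ρ)
    {d N₂ : ℕ} (h : d < N₂) :
    omp ρ d * (ρ ^ 2 / (((d : ℝ) + 1) * ((d : ℝ) + 2))) * (∑ a, ‖b a‖ ^ 2) * nn d U v ≤
      ∑ N ∈ Finset.range (N₂ + 1), omp ρ N * nn N (fun y => (∑ a, b a * (y a : ℂ)) * U y) v +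
        ρ ^ 2 * omp ρ N₂ * (∑ a, ‖b a‖ ^ 2) * nn N₂ U v := by
  have h0 : 0 < N₂ := by omega
  have h1 := hyp_pt b hU v hρ h0
  have e1 : Finset.range (N₂ + 1) = insert 0 (Finset.Ioc 0 N₂) := by
    ext k
    simp only [Finset.mem_range, Finset.mem_insert, Finset.mem_Ioc]
    omega
  have e2 : omp ρ 0 * nn 0 (fun y => (∑ a, b a * (y a : ℂ)) * U y) v =
      omp ρ 0 * ‖∑ a, b a * (v a : ℂ)‖ ^ 2 * nn 0 U v := by
    rw [nn_zero, nn_zero, norm_mul, mul_pow, mul_assoc]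
  rw [e1, Finset.sum_insert (by simp), e2]
  refine le_trans ?_ h1
  have hn : ∀ N : ℕ, 0 ≤ omp ρ N * (ρ ^ 2 / (((N : ℝ) + 1) * ((N : ℝ) + 2))) *
      (∑ a, ‖b a‖ ^ 2) * nn N U v := fun N =>
    mul_nonneg (mul_nonneg (mul_nonneg (omp_pos hρ _).le (by positivity)) (FoD_bb b))
      (nn_nonneg _ _ _)
  rcases Nat.eq_zero_or_pos d with rfl | hd
  · refine le_add_of_le_of_nonneg (le_of_eq ?_) (Finset.sum_nonneg fun N _ => hn N)
    rw [omp_succ]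
    push_cast
    ring
  · refine le_add_of_nonneg_of_le ?_ (Finset.single_le_sum (fun N _ => hn N)
      (Finset.mem_Ioo.2 ⟨hd, h⟩))
    exact mul_nonneg (mul_nonneg (omp_pos hρ _).le (FoD_bb b)) (nn_nonneg _ _ _)

/-- Sketch: `hyp_pt` at `v'` with `l = 0` for `A - T`; `(b·y) (A - T) = R + Q`; `fl2`. -/
theorem fl3 (d : ℕ) {ρ : ℝ} (hρ : 0 < ρ) (R₀ : ℝ) : ∃ C, 0 ≤ C ∧ ∀ (b : Fin n → ℂ) (A p : V n → ℂ)
    (v v' : V n) (N₂ : ℕ), Sm A → PL (d + 2) p → d + 1 < N₂ → ‖v' - v‖ ≤ R₀ →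
      ‖∑ a, b a * (v a : ℂ)‖ ^ 2 ≤ ρ ^ 2 / (2 * ((d : ℝ) + 3)) * ∑ a, ‖b a‖ ^ 2 →
      (∑ a, ‖b a‖ ^ 2) * nn d (fun y => A y - tay v d A y) v' ≤
        C * (GG ρ N₂ b A p v' + GG ρ N₂ b A p v) := by
  obtain ⟨C, hC, H⟩ := fl2 (n := n) d hρ R₀
  obtain ⟨c, hc⟩ : ∃ c, c = omp ρ d * (ρ ^ 2 / (((d : ℝ) + 1) * ((d : ℝ) + 2))) := ⟨_, rfl⟩
  obtain ⟨W, hW⟩ : ∃ W, W = ∑ k ∈ Finset.range (d + 2), omp ρ k := ⟨_, rfl⟩
  have c0 : 0 < c := by
    rw [hc]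
    exact mul_pos (omp_pos hρ _) (by positivity)
  have W0 : 0 ≤ W := by
    rw [hW]
    exact Finset.sum_nonneg fun k _ => (omp_pos hρ k).le
  refine ⟨(2 + ρ ^ 2 + 2 * (W * C)) / c, by positivity, fun b A p v v' N₂ hA hp hN hv hb => ?_⟩
  have hT := pl_tay v d A
  have hQ : PL (d + 2) fun y => p y - (∑ a, b a * (y a : ℂ)) * tay v d A y :=
    hp.sub (FoD_pl_lin b hT)
  have h1 := FoD_hyp b (U := fun y => A y - tay v d A y) (hA.sub hT.sm) v' hρ (d := d) (N₂ := N₂)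
    (by omega)
  rw [nn_sub_pl hA hT hN.le, ← hc] at h1
  have e : (fun y : V n => (∑ a, b a * (y a : ℂ)) * (A y - tay v d A y)) = fun y =>
      ((∑ a, b a * (y a : ℂ)) * A y - p y) + (p y - (∑ a, b a * (y a : ℂ)) * tay v d A y) := by
    funext y
    ring
  rw [e] at h1
  have h2 : ∑ N ∈ Finset.range (N₂ + 1), omp ρ N * nn N (fun y =>
      ((∑ a, b a * (y a : ℂ)) * A y - p y) + (p y - (∑ a, b a * (y a : ℂ)) * tay v d A y)) v' ≤
      2 * ∑ N ∈ Finset.range (N₂ + 1), omp ρ N *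
        nn N (fun y => (∑ a, b a * (y a : ℂ)) * A y - p y) v' +
      2 * ∑ N ∈ Finset.range (N₂ + 1), omp ρ N *
        nn N (fun y => p y - (∑ a, b a * (y a : ℂ)) * tay v d A y) v' := by
    rw [Finset.mul_sum, Finset.mul_sum, ← Finset.sum_add_distrib]
    refine Finset.sum_le_sum fun N _ => ?_
    have := mul_le_mul_of_nonneg_left (nn_add_le (FoD_sm_R b hA hp.sm) hQ.sm N v')
      (omp_pos hρ N).le
    linarith
  have h3 := FoD_pl_sum hρ hQ (Finset.range (N₂ + 1)) v'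
  rw [← hW] at h3
  have h4 := mul_le_mul_of_nonneg_left (H b A p v v' N₂ hA hp hN hv hb) W0
  have h5 := FoD_sum_le hρ N₂ b A p v'
  have h6 := mul_le_mul_of_nonneg_left (FoD_top_le hρ N₂ b A p v') (sq_nonneg ρ)
  have g1 := FoD_GG_nonneg hρ N₂ b A p v
  have g2 := FoD_GG_nonneg hρ N₂ b A p v'
  have g3 := mul_nonneg (mul_nonneg W0 hC) g2
  have g4 := mul_nonneg (sq_nonneg ρ) g1
  rw [div_mul_eq_mul_div, le_div_iff₀ c0]
  nlinarith

theorem FoD_lin_le (b : Fin n → ℂ) {v₀ v : V n} {r : ℝ} (h0 : ∑ a, b a * (v₀ a : ℂ) = 0)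
    (hv : v ∈ Metric.closedBall v₀ r) :
    ‖∑ a, b a * (v a : ℂ)‖ ^ 2 ≤ n * r ^ 2 * ∑ a, ‖b a‖ ^ 2 := by
  have e : ∑ a, b a * (v a : ℂ) = ∑ a, b a * ((v a - v₀ a : ℝ) : ℂ) := by
    simp only [Complex.ofReal_sub, mul_sub, Finset.sum_sub_distrib, h0, sub_zero]
  have h1 : ‖∑ a, b a * (v a : ℂ)‖ ≤ ∑ a, ‖b a‖ * |v a - v₀ a| := by
    rw [e]
    refine (norm_sum_le _ _).trans (le_of_eq (Finset.sum_congr rfl fun a _ => ?_))
    rw [norm_mul, Complex.norm_real, Real.norm_eq_abs]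
  have h2 : ∀ a, |v a - v₀ a| ≤ r := fun a => by
    have := (dist_le_pi_dist v v₀ a).trans (Metric.mem_closedBall.1 hv)
    rwa [Real.dist_eq] at this
  have h3 : ∑ a, |v a - v₀ a| ^ 2 ≤ n * r ^ 2 := by
    have := Finset.sum_le_card_nsmul Finset.univ (fun a => |v a - v₀ a| ^ 2) (r ^ 2) fun a _ =>
      pow_le_pow_left₀ (abs_nonneg _) (h2 a) 2
    simpa using this
  calc ‖∑ a, b a * (v a : ℂ)‖ ^ 2 ≤ (∑ a, ‖b a‖ * |v a - v₀ a|) ^ 2 :=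
        pow_le_pow_left₀ (norm_nonneg _) h1 2
    _ ≤ (∑ a, ‖b a‖ ^ 2) * ∑ a, |v a - v₀ a| ^ 2 := Finset.sum_mul_sq_le_sq_mul_sq _ _ _
    _ ≤ (∑ a, ‖b a‖ ^ 2) * (n * r ^ 2) := mul_le_mul_of_nonneg_left h3 (FoD_bb b)
    _ = _ := mul_comm _ _

theorem FoD_gauge (d : ℕ) {ρ : ℝ} (hρ : 0 < ρ) {ψ : V n → ℝ} (hψ : Continuous ψ)
    {S : Set (V n)} (hS : IsCompact S) (hsup : ∀ y, ψ y ≠ 0 → y ∈ S) (h0 : ∀ y, 0 ≤ ψ y)
    (hp : 0 < ∫ y, ψ y) : ∃ C, 0 ≤ C ∧ ∀ (b : Fin n → ℂ) (A p : V n → ℂ) (v : V n) (N₂ : ℕ),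
      Sm A → PL (d + 2) p → d + 1 < N₂ → v ∈ S →
      ‖∑ a, b a * (v a : ℂ)‖ ^ 2 ≤ ρ ^ 2 / (2 * ((d : ℝ) + 3)) * ∑ a, ‖b a‖ ^ 2 → Gz ψ d A →
      (∑ a, ‖b a‖ ^ 2) * nn d A v ≤ C * (GG ρ N₂ b A p v + ∫ y in S, GG ρ N₂ b A p y) := by
  have hz : ∀ y, y ∉ S → ψ y = 0 := fun y hy => by_contra fun h => hy (hsup y h)
  have hc : HasCompactSupport ψ := HasCompactSupport.intro hS hz
  obtain ⟨R, hR⟩ := hS.isBounded.exists_norm_le
  obtain ⟨M, hM⟩ := hS.exists_bound_of_continuousOn hψ.continuousOn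
  obtain ⟨C, hC, H⟩ := fl3 (n := n) d hρ (R + R)
  refine ⟨C * (max M 0 / (∫ y, ψ y) + 1), by positivity, fun b A p v N₂ hA hp' hN hv hb hg => ?_⟩
  have hT := pl_tay v d A
  have h1 := gz_bd hψ hc h0 hp d hA hg hT v
  rw [nn_tay hA v le_rfl] at h1
  have cG := FoD_GG_cont ρ N₂ b hA hp'.sm
  have cN : Continuous (nn d fun y => A y - tay v d A y) := cont_nn (hA.sub hT.sm) d
  have i1 : Integrable fun y => ψ y * GG ρ N₂ b A p y :=
    (hψ.mul cG).integrable_of_hasCompactSupport hc.mul_right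
  have i2 : Integrable ψ := hψ.integrable_of_hasCompactSupport hc
  have i3 : Integrable fun y => ψ y * nn d (fun y => A y - tay v d A y) y :=
    (hψ.mul cN).integrable_of_hasCompactSupport hc.mul_right
  have h2 : (∑ a, ‖b a‖ ^ 2) * ∫ y, ψ y * nn d (fun y => A y - tay v d A y) y ≤
      C * ((∫ y, ψ y * GG ρ N₂ b A p y) + (∫ y, ψ y) * GG ρ N₂ b A p v) := by
    rw [← integral_const_mul, ← integral_mul_const, ← integral_add i1 (i2.mul_const _),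
      ← integral_const_mul]
    refine integral_mono (i3.const_mul _) ((i1.add (i2.mul_const _)).const_mul _) fun y => ?_
    by_cases hy : y ∈ S
    · have := mul_le_mul_of_nonneg_left (H b A p v y N₂ hA hp' hN
        ((norm_sub_le _ _).trans (add_le_add (hR y hy) (hR v hv))) hb) (h0 y)
      dsimp only
      linarith
    · simp [hz y hy]
  have h3 : ∫ y, ψ y * GG ρ N₂ b A p y ≤ max M 0 * ∫ y in S, GG ρ N₂ b A p y := by
    rw [← setIntegral_eq_integral_of_forall_compl_eq_zero (s := S)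
      (fun y hy => by rw [hz y hy, zero_mul]), ← integral_const_mul]
    refine setIntegral_mono_on i1.integrableOn
      ((cG.continuousOn.integrableOn_compact hS).const_mul _) hS.measurableSet fun y hy => ?_
    exact mul_le_mul_of_nonneg_right (((le_abs_self _).trans (hM y hy)).trans (le_max_left _ _))
      (FoD_GG_nonneg hρ N₂ b A p y)
  have g1 := FoD_GG_nonneg hρ N₂ b A p v
  have g2 : 0 ≤ ∫ y in S, GG ρ N₂ b A p y := integral_nonneg fun y => FoD_GG_nonneg hρ N₂ b A p y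
  have h4 := mul_le_mul_of_nonneg_left h1 (FoD_bb b)
  have h5 := mul_le_mul_of_nonneg_left h3 hC
  have M0 : 0 ≤ max M 0 := le_max_right _ _
  generalize max M 0 = M' at *
  generalize (∫ y, ψ y) = I at *
  refine le_of_mul_le_mul_left ?_ hp
  have e : I * (C * (M' / I + 1) * (GG ρ N₂ b A p v + ∫ y in S, GG ρ N₂ b A p y)) =
      C * (M' + I) * (GG ρ N₂ b A p v + ∫ y in S, GG ρ N₂ b A p y) := by
    field_simp
  rw [e]
  have g3 := mul_nonneg (mul_nonneg hC M0) g1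
  have g4 := mul_nonneg (mul_nonneg hC hp.le) g2
  nlinarith

/-- Sketch: for `v` in the ball, `gz_bd`, `nn_tay`, `fl3` bound `|b|² nn d A v`; `p = (b·y) A - R`
on level `d + 1` (`nn_lin_le`, `fl1`, `PL.nn_top`); integrate over the ball. -/
theorem fl (d : ℕ) {ρ ρ'' : ℝ} (hρ : 0 < ρ) (hρ'' : 0 < ρ'')
    (hs : n * ρ'' ^ 2 ≤ ρ ^ 2 / (2 * ((d : ℝ) + 3))) {ψ : V n → ℝ} (hψ : Continuous ψ)
    {S : Set (V n)} (hS : IsCompact S) (hsup : ∀ y, ψ y ≠ 0 → y ∈ S) (h0 : ∀ y, 0 ≤ ψ y)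
    (hp : 0 < ∫ y, ψ y) : ∃ C, 0 ≤ C ∧ ∀ (b : Fin n → ℂ) (A p : V n → ℂ) (v₀ : V n) (N₂ : ℕ),
      Sm A → PL (d + 2) p → d + 1 < N₂ → ∑ a, b a * (v₀ a : ℂ) = 0 →
      Metric.closedBall v₀ ρ'' ⊆ S → Gz ψ d A → nn (d + 1) p 0 ≤ C * ∫ v in S, GG ρ N₂ b A p v := by
  obtain ⟨C₁, hC₁, H₁⟩ := fl1 (n := n) d hρ
  obtain ⟨C₂, hC₂, H₂⟩ := FoD_gauge d hρ hψ hS hsup h0 hp
  obtain ⟨s, hs'⟩ : ∃ s, s = ρ ^ 2 / (2 * ((d : ℝ) + 3)) := ⟨_, rfl⟩
  have s0 : 0 ≤ s := by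
    rw [hs']
    positivity
  have o0 := omp_pos hρ (d + 1)
  obtain ⟨β, hβ⟩ : ∃ β, β = 4 * ((d : ℝ) + 1) * n * C₂ := ⟨_, rfl⟩
  obtain ⟨α, hα⟩ : ∃ α, α = 4 * s * C₁ + β + 2 / omp ρ (d + 1) := ⟨_, rfl⟩
  have β0 : 0 ≤ β := by
    rw [hβ]
    positivity
  have α0 : 0 ≤ α := by
    rw [hα]
    positivity
  refine ⟨α / (2 * ρ'') ^ n + β, by positivity, fun b A p v₀ N₂ hA hp' hN hb hB hg => ?_⟩
  have cG := FoD_GG_cont ρ N₂ b hA hp'.sm
  have iS : IntegrableOn (GG ρ N₂ b A p) S := cG.continuousOn.integrableOn_compact hS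
  have key : ∀ v ∈ Metric.closedBall v₀ ρ'',
      nn (d + 1) p 0 - β * ∫ v in S, GG ρ N₂ b A p v ≤ α * GG ρ N₂ b A p v := by
    intro v hv
    have h1 := (FoD_lin_le b hb hv).trans (mul_le_mul_of_nonneg_right hs (FoD_bb b))
    have h2 := H₁ b A p v N₂ hA hp' hN h1
    have h3 := H₂ b A p v N₂ hA hp' hN (hB hv) h1 hg
    rw [← hs'] at h1
    have h4 := nn_lin_le b hA (d + 1) v
    rw [Nat.add_sub_cancel] at h4
    push_cast at h4
    have h5 := nn_sub_le ((FoD_sm_lin b).mul hA) (FoD_sm_R b hA hp'.sm) (d + 1) v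
    simp only [sub_sub_cancel] at h5
    have h6 : nn (d + 1) (fun y => (∑ a, b a * (y a : ℂ)) * A y - p y) v ≤
        1 / omp ρ (d + 1) * GG ρ N₂ b A p v := by
      rw [one_div, le_inv_mul_iff₀ o0]
      refine le_trans ?_ (FoD_sum_le hρ N₂ b A p v)
      exact Finset.single_le_sum (f := fun N => omp ρ N *
        nn N (fun y => (∑ a, b a * (y a : ℂ)) * A y - p y) v)
        (fun N _ => mul_nonneg (omp_pos hρ _).le (nn_nonneg _ _ _))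
        (Finset.mem_range.2 (by omega))
    have h7 := mul_le_mul_of_nonneg_right h1 (nn_nonneg (d + 1) A v)
    have h8 := mul_le_mul_of_nonneg_left h2 s0
    have h9 := mul_le_mul_of_nonneg_left h3 (show 0 ≤ 4 * ((d : ℝ) + 1) * n by positivity)
    rw [hp'.nn_top 0 v, hα, hβ]
    have e : 2 / omp ρ (d + 1) = 2 * (1 / omp ρ (d + 1)) := by ring
    rw [e]
    change nn (d + 1) p v ≤ _ at h5
    nlinarith
  have h1 := setIntegral_mono_on (s := Metric.closedBall v₀ ρ'') (μ := volume)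
    (integrableOn_const (measure_closedBall_lt_top).ne) ((iS.mono_set hB).const_mul α)
    Metric.isClosed_closedBall.measurableSet key
  have h2 : ∫ v in Metric.closedBall v₀ ρ'', GG ρ N₂ b A p v ≤ ∫ v in S, GG ρ N₂ b A p v :=
    setIntegral_mono_set iS (Eventually.of_forall fun y => FoD_GG_nonneg hρ N₂ b A p y)
      hB.eventuallyLE
  rw [setIntegral_const, integral_const_mul, Measure.real, Real.volume_pi_closedBall _ hρ''.le,
    ENNReal.toReal_ofReal (by positivity), Fintype.card_fin, smul_eq_mul] at h1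
  have h3 := h1.trans (mul_le_mul_of_nonneg_left h2 α0)
  have V0 : 0 < (2 * ρ'') ^ n := by positivity
  rw [add_mul, div_mul_eq_mul_div, ← sub_le_iff_le_add, le_div_iff₀ V0, mul_comm]
  exact h3

end Pool.Agent.Lib.MP_45f3cb_gt.Fa
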