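import Pool.Agent.Lib.MP_45f3cb_gt.Fa.FoB
import Pool.Agent.Lib.MP_45f3cb_gt.Fa.FoD

/-!
The elliptic estimate for the source with frozen weight.
-/

open Set MeasureTheory Filter Topology Matrix

namespace Pool.Agent.Lib.MP_45f3cb_gt.Fa

variable {n : ℕ}

/-- Sketch: `fl` for every `ξ` with `b c = 2 π ξ c I - l c`, `A = ft P ξ`; `ft_rr`, `ft_bc`,
`nn_cmul`; integrate in `ξ` (`planch_nn`, `planch_set`). -/
theorem ftl (d : ℕ) {ρ ρ'' : ℝ} (hρ : 0 < ρ) (hρ'' : 0 < ρ'')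
    (hs : n * ρ'' ^ 2 ≤ ρ ^ 2 / (2 * ((d : ℝ) + 3))) {ψ : V n → ℝ} (hψ : Continuous ψ)
    {S : Set (V n)} (hS : IsCompact S) (hsup : ∀ y, ψ y ≠ 0 → y ∈ S) (h0 : ∀ y, 0 ≤ ψ y)
    (hp : 0 < ∫ y, ψ y) : ∃ C, 0 ≤ C ∧ ∀ (P p : Z n → ℝ) (l : V n) (N₂ : ℕ), XC P → XC p →
      FP (d + 1) p → d + 1 < N₂ →
      (∀ ξ : V n, ∃ v₀, ξ ⬝ᵥ v₀ = 0 ∧ l ⬝ᵥ v₀ = 0 ∧ Metric.closedBall v₀ ρ'' ⊆ S) →
      (∀ x, Gz ψ d fun y => P (x, y)) →
      ∫ x, jn (d + 1) p (x, 0) ≤ C * (∑ N ∈ Finset.range (N₂ + 1), omp ρ N * JI N (Rr P p l) S +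
        omp ρ N₂ * ∑ c, JI N₂ (Bc P l c) S) := by
  obtain ⟨C, hC, h⟩ := fl d hρ hρ'' hs hψ hS hsup h0 hp
  refine ⟨C, hC, fun P p l N₂ hP hp' hF hN hv hG => ?_⟩
  have hc : HasCompactSupport ψ :=
    HasCompactSupport.intro hS fun y hy => by
      by_contra e
      exact hy (hsup y e)
  have hR := hP.rr hp' l
  have hB := fun c => hP.bc l c
  have hI : ∀ {Q : Z n → ℝ}, XC Q → ∀ (N : ℕ) (ξ : V n),
      IntegrableOn (fun v => nn N (ft Q ξ) v) S := fun hQ N ξ =>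
    (cont_nn (hQ.sm_ft' ξ) N).continuousOn.integrableOn_compact hS
  have key : ∀ ξ : V n, nn (d + 1) (ft p ξ) 0 ≤
      C * (∑ N ∈ Finset.range (N₂ + 1), omp ρ N * (∫ v in S, nn N (ft (Rr P p l) ξ) v) +
        omp ρ N₂ * ∑ c, ∫ v in S, nn N₂ (ft (Bc P l c) ξ) v) := fun ξ => by
    obtain ⟨v₀, h1, h2, h3⟩ := hv ξ
    have hz : ∑ a, ((2 * Real.pi * ξ a : ℝ) * Complex.I - (l a : ℂ)) * (v₀ a : ℂ) = 0 := by
      have e : ∑ a, ((2 * Real.pi * ξ a : ℝ) * Complex.I - (l a : ℂ)) * (v₀ a : ℂ) =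
          2 * Real.pi * Complex.I * ((ξ ⬝ᵥ v₀ : ℝ) : ℂ) - ((l ⬝ᵥ v₀ : ℝ) : ℂ) := by
        simp only [dotProduct]
        push_cast
        rw [Finset.mul_sum, ← Finset.sum_sub_distrib]
        exact Finset.sum_congr rfl fun a _ => by ring
      rw [e, h1, h2]
      simp
    have h4 := h (fun a => (2 * Real.pi * ξ a : ℝ) * Complex.I - (l a : ℂ)) (ft P ξ) (ft p ξ) v₀ N₂
      (hP.sm_ft' ξ) (hp'.pl_ft hF ξ) hN hz h3 (hP.gz_ft hψ hc d hG ξ)
    refine h4.trans_eq (congrArg _ ?_)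
    have e : ∀ v, GG ρ N₂ (fun a => (2 * Real.pi * ξ a : ℝ) * Complex.I - (l a : ℂ)) (ft P ξ)
        (ft p ξ) v = ∑ N ∈ Finset.range (N₂ + 1), omp ρ N * nn N (ft (Rr P p l) ξ) v +
          omp ρ N₂ * ∑ c, nn N₂ (ft (Bc P l c) ξ) v := fun v => by
      unfold GG
      rw [show ft (Rr P p l) ξ = _ from funext fun y => hP.ft_rr hp' l ξ y, mul_assoc,
        Finset.sum_mul]
      congr 2
      refine Finset.sum_congr rfl fun c _ => ?_
      rw [show ft (Bc P l c) ξ = _ from funext fun y => hP.ft_bc l ξ y c, nn_cmul (hP.sm_ft' ξ)]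
    simp only [e]
    rw [integral_add (integrable_finsetSum _ fun N _ => (hI hR N ξ).const_mul _)
      ((integrable_finsetSum _ fun c _ => hI (hB c) N₂ ξ).const_mul _),
      integral_finsetSum _ fun N _ => (hI hR N ξ).const_mul _, integral_const_mul,
      integral_finsetSum _ fun c _ => hI (hB c) N₂ ξ]
    simp only [integral_const_mul]
  have i1 := integrable_finsetSum (Finset.range (N₂ + 1)) fun N _ =>
    (hR.planch_set N hS).1.const_mul (omp ρ N)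
  have i2 := (integrable_finsetSum Finset.univ fun c _ => ((hB c).planch_set N₂ hS).1).const_mul
    (omp ρ N₂)
  have h5 := integral_mono (hp'.planch_nn (d + 1) 0).1 ((i1.add i2).const_mul C) key
  rw [(hp'.planch_nn (d + 1) 0).2] at h5
  refine h5.trans_eq ?_
  rw [integral_const_mul, integral_add' i1 i2,
    integral_finsetSum _ fun N _ => (hR.planch_set N hS).1.const_mul (omp ρ N), integral_const_mul,
    integral_finsetSum _ fun c _ => ((hB c).planch_set N₂ hS).1]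
  simp only [integral_const_mul, fun N => (hR.planch_set N hS).2,
    fun c => ((hB c).planch_set N₂ hS).2]

end Pool.Agent.Lib.MP_45f3cb_gt.Fa
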