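import Pool.Agent.Lib.MP_45f3cb_gt.PolyC
import Pool.Agent.Lib.MP_45f3cb_gt.Int

/-!
Windows.
-/

open Set MeasureTheory Filter Topology Matrix

namespace Pool.Agent.Lib.MP_45f3cb_gt.Fa

/-- averaging over balls -/
theorem FoW_ball {n : ℕ} {f : V n → ℝ} (hf : Integrable f) {r : ℝ} (hr : 0 ≤ r) :
    Integrable (fun y : V n => ∫ x in Metric.closedBall y r, f x) ∧
      ∫ y : V n, ∫ x in Metric.closedBall y r, f x = (∫ x, f x) * (2 * r) ^ n := by
  have hg : Integrable ((Metric.closedBall (0 : V n) r).indicator fun _ => (1 : ℝ)) :=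
    (integrable_indicator_iff measurableSet_closedBall).2
      (integrableOn_const (isCompact_closedBall _ _).measure_lt_top.ne)
  have e : (fun y : V n => ∫ x in Metric.closedBall y r, f x) =
      convolution f ((Metric.closedBall (0 : V n) r).indicator fun _ => (1 : ℝ))
        (ContinuousLinearMap.mul ℝ ℝ) volume := by
    funext y
    rw [convolution_def, ← integral_indicator measurableSet_closedBall]
    congr 1
    funext x
    by_cases hx : x ∈ Metric.closedBall y r
    · rw [indicator_of_mem hx, indicator_of_mem (by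
        rwa [mem_closedBall_zero_iff, ← mem_closedBall_iff_norm'])]
      simp
    · rw [indicator_of_notMem hx, indicator_of_notMem (by
        rwa [mem_closedBall_zero_iff, ← mem_closedBall_iff_norm'])]
      simp
  rw [e]
  refine ⟨hf.integrable_convolution _ hg, ?_⟩
  rw [integral_convolution _ hf hg, integral_indicator measurableSet_closedBall, setIntegral_const,
    Measure.real, Real.volume_pi_closedBall _ hr, ENNReal.toReal_ofReal (by positivity)]
  simp

/-- windows. Sketch: a `ContDiffBump` at `0`; integrate the hypothesis in `x₁`, Fubini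
(`integral_integral_swap`), scaling (`PolyC_change`, `Measure.addHaar_closedBall`). -/
theorem win (n : ℕ) : ∃ (ω : V n → ℝ) (C : ℝ), Sm ω ∧ 0 ≤ C ∧ (∀ y, 1 < ‖y‖ → ω y = 0) ∧
    (∀ y, |ω y| ≤ 1) ∧ ∀ (s : ℝ) (a h : V n → ℝ), 0 < s → Continuous a → HasCompactSupport a →
      Continuous h → HasCompactSupport h → (∀ x, 0 ≤ a x) → (∀ x, 0 ≤ h x) →
      (∀ x₁, ∫ x, ω (s • (x - x₁)) ^ 2 * a x ≤ ∫ x in Metric.closedBall x₁ s⁻¹, h x) →
      ∫ x, a x ≤ C * ∫ x, h x := by
  let b : ContDiffBump (0 : V n) := ⟨1 / 2, 1, by norm_num, by norm_num⟩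
  refine ⟨b, 2 ^ n, b.contDiff, by positivity, fun y hy => b.zero_of_le_dist ?_,
    fun y => by rw [abs_of_nonneg b.nonneg]; exact b.le_one, ?_⟩
  · rw [dist_zero_right]
    exact hy.le
  intro s a h hs ha ha' hh hh' a0 h0 H
  have hs' : 0 < s⁻¹ := inv_pos.2 hs
  obtain ⟨i1, v1⟩ := FoW_ball (ha.integrable_of_hasCompactSupport ha') (r := s⁻¹ / 2)
    (by positivity)
  obtain ⟨i2, v2⟩ := FoW_ball (hh.integrable_of_hasCompactSupport hh') hs'.le
  have key := integral_mono i1 i2 fun y => by
    refine le_trans ?_ (H y)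
    have hc : Continuous fun x : V n => b (s • (x - y)) ^ 2 * a x :=
      ((b.continuous.comp (by fun_prop)).pow 2).mul ha
    have hi : Integrable fun x : V n => b (s • (x - y)) ^ 2 * a x :=
      hc.integrable_of_hasCompactSupport ha'.mul_left
    refine le_trans (le_of_eq ?_) (setIntegral_le_integral (s := Metric.closedBall y (s⁻¹ / 2)) hi
      (Eventually.of_forall fun x => mul_nonneg (sq_nonneg _) (a0 x)))
    refine setIntegral_congr_fun measurableSet_closedBall fun x hx => ?_
    have h1 : b (s • (x - y)) = 1 := by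
      refine b.one_of_mem_closedBall ?_
      rw [mem_closedBall_zero_iff, norm_smul, Real.norm_of_nonneg hs.le]
      calc _ ≤ s * (s⁻¹ / 2) := mul_le_mul_of_nonneg_left (mem_closedBall_iff_norm.1 hx) hs.le
        _ = 1 / 2 := by field_simp
    simp only [h1, one_pow, one_mul]
  rw [v1, v2, mul_div_cancel₀ _ (two_ne_zero), mul_pow] at key
  refine le_of_mul_le_mul_right (key.trans (le_of_eq ?_)) (pow_pos hs' n)
  ring

end Pool.Agent.Lib.MP_45f3cb_gt.Fa
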