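import Pool.Agent.Lib.MP_45f3cb_gt.Fa.GeoA

/-!
The linearised spray and metric compatibility.
-/

open Set MeasureTheory Filter Topology Matrix

namespace Pool.Agent.Lib.MP_45f3cb_gt.Fa

variable {n : ℕ} {g : V n → Mat n}

/-- the derivative of `Γ(v, ·)` in the base direction `Y` -/
noncomputable def GeoB_D (g : V n → Mat n) (x v Y : V n) : Mat n :=
  Matrix.of fun k j => ∑ i, (∑ l, Y l * pd l (fun y => chr g y k i j) x) * v i

theorem GeoB_coord (i : Fin n) (z : Z n) : HasFDerivAt (fun w : Z n => w.2 i)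
    ((ContinuousLinearMap.proj i).comp (ContinuousLinearMap.snd ℝ (V n) (V n))) z :=
  ((ContinuousLinearMap.proj i).comp (ContinuousLinearMap.snd ℝ (V n) (V n))).hasFDerivAt

theorem GeoB_mD (h : RM g) (z : Z n) (Y η : V n) :
    mD (Gv g) z (Y, η) = GeoB_D g z.1 z.2 Y + Gv g (z.1, η) := by
  ext k j
  have h1 := HasFDerivAt.fun_sum (u := Finset.univ) fun i _ =>
    (((h.sm_chr k i j).dAt z.1).hasFDerivAt.comp z hasFDerivAt_fst).fun_mul (GeoB_coord i z)
  have h2 : mD (Gv g) z (Y, η) k j = fderiv ℝ (fun w : Z n => ∑ i,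
      ((fun x => chr g x k i j) ∘ Prod.fst) w * w.2 i) z (Y, η) := rfl
  rw [h2, h1.fderiv]
  simp only [GeoB_D, Gv, Matrix.add_apply, Matrix.of_apply, _root_.sum_apply,
    _root_.add_apply, _root_.smul_apply, ContinuousLinearMap.comp_apply,
    ContinuousLinearMap.coe_fst', ContinuousLinearMap.coe_snd', ContinuousLinearMap.proj_apply,
    Function.comp_apply, smul_eq_mul, fderiv_eq_sum_pd, ← Finset.sum_add_distrib]
  exact Finset.sum_congr rfl fun i _ => by ring

theorem GeoB_spray (h : RM g) (z : Z n) (Y η : V n) : fderiv ℝ (spray g) z (Y, η) =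
    (η, -(mD (Gv g) z (Y, η) *ᵥ z.2) - Gv g z *ᵥ η) := by
  have h1 := (hasFDerivAt_snd (𝕜 := ℝ) (p := z)).prodMk (hasFDerivAt_pi.2 fun k =>
    (HasFDerivAt.fun_sum (u := Finset.univ) fun j _ =>
      ((h.sm_Gv k j).dAt z).hasFDerivAt.fun_mul (GeoB_coord j z)).fun_neg)
  have h2 : spray g = fun w : Z n => (w.2, fun k => -∑ j, Gv g w k j * w.2 j) :=
    funext fun w => spray_eq g w
  rw [h2, h1.fderiv]
  refine Prod.ext rfl (funext fun k => ?_)
  simp only [mD, Matrix.mulVec, dotProduct, Matrix.of_apply, ContinuousLinearMap.prod_apply,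
    ContinuousLinearMap.pi_apply, _root_.neg_apply, _root_.sum_apply,
    _root_.add_apply, _root_.smul_apply, ContinuousLinearMap.comp_apply,
    ContinuousLinearMap.coe_snd', ContinuousLinearMap.proj_apply, smul_eq_mul, Pi.sub_apply,
    Pi.neg_apply, Finset.sum_add_distrib]
  rw [Finset.sum_congr rfl fun j _ => mul_comm (z.2 j) _]
  ring

theorem GeoB_rot (f : Fin n → Fin n → Fin n → ℝ) :
    ∑ a, ∑ b, ∑ c, f a b c = ∑ c, ∑ a, ∑ b, f a b c := by
  rw [Finset.sum_congr rfl fun a _ => Finset.sum_comm, Finset.sum_comm]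

theorem GeoB_curv (h : RM g) (x Y v : V n) : curv g x Y v = GeoB_D g x v Y *ᵥ v -
    GeoB_D g x v v *ᵥ Y + Gv g (x, Y) *ᵥ (Gv g (x, v) *ᵥ v) -
      Gv g (x, v) *ᵥ (Gv g (x, Y) *ᵥ v) := by
  funext k
  have e1 : (GeoB_D g x v Y *ᵥ v) k =
      ∑ l, ∑ i, ∑ j, pd i (fun y => chr g y k j l) x * Y i * v j * v l := by
    simp only [GeoB_D, Matrix.mulVec, dotProduct, Matrix.of_apply, Finset.sum_mul]
    refine Finset.sum_congr rfl fun l _ => ?_
    rw [Finset.sum_comm]
    exact Finset.sum_congr rfl fun i _ => Finset.sum_congr rfl fun j _ => by ring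
  have e2 : (GeoB_D g x v v *ᵥ Y) k =
      ∑ l, ∑ i, ∑ j, pd j (fun y => chr g y k i l) x * Y i * v j * v l := by
    simp only [GeoB_D, Matrix.mulVec, dotProduct, Matrix.of_apply, Finset.sum_mul]
    rw [Finset.sum_comm]
    refine Finset.sum_congr rfl fun l _ => Finset.sum_congr rfl fun i _ =>
      Finset.sum_congr rfl fun j _ => ?_
    rw [show (fun y => chr g y k l i) = fun y => chr g y k i l from
      funext fun y => h.chr_symm y k l i]
    ring
  have e3 : (Gv g (x, Y) *ᵥ (Gv g (x, v) *ᵥ v)) k =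
      ∑ l, ∑ i, ∑ j, ∑ m, chr g x k i m * chr g x m j l * Y i * v j * v l := by
    simp only [Gv, Matrix.mulVec, dotProduct, Matrix.of_apply, Finset.sum_mul, Finset.mul_sum]
    rw [Finset.sum_comm]
    refine Finset.sum_congr rfl fun l _ => ?_
    rw [GeoB_rot]
    refine Finset.sum_congr rfl fun i _ => ?_
    rw [Finset.sum_comm]
    exact Finset.sum_congr rfl fun j _ => Finset.sum_congr rfl fun m _ => by ring
  have e4 : (Gv g (x, v) *ᵥ (Gv g (x, Y) *ᵥ v)) k =
      ∑ l, ∑ i, ∑ j, ∑ m, chr g x k j m * chr g x m i l * Y i * v j * v l := by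
    simp only [Gv, Matrix.mulVec, dotProduct, Matrix.of_apply, Finset.sum_mul, Finset.mul_sum]
    rw [Finset.sum_comm]
    refine Finset.sum_congr rfl fun l _ => ?_
    rw [Finset.sum_comm]
    refine Finset.sum_congr rfl fun i _ => ?_
    rw [Finset.sum_comm]
    exact Finset.sum_congr rfl fun j _ => Finset.sum_congr rfl fun m _ => by ring
  rw [Pi.sub_apply, Pi.add_apply, Pi.sub_apply, e1, e2, e3, e4]
  simp only [curv, add_mul, sub_mul, Finset.sum_mul, Finset.sum_add_distrib,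
    Finset.sum_sub_distrib]
  ring

/-- the linearised spray. Sketch: `spray_eq`; expand with `fderiv_eq_sum`, `dx_fst`, `dp_fst`;
`XG z k j = ∑ ∂_l Γ^k_{ij} v_l v_i - ∑ Γ^k_{ij} (Γ(v, v))_i`; symmetry of `Γ`. -/
theorem RM.fderiv_spray (h : RM g) (z : Z n) (Y η : V n) : fderiv ℝ (spray g) z (Y, η) =
    (η, -((Rm g z + XG g z + Gv g z * Gv g z) *ᵥ Y) - (2 : ℝ) • (Gv g z *ᵥ η)) := by
  obtain ⟨x, v⟩ := z
  have e1 : XG g (x, v) *ᵥ Y = GeoB_D g x v v *ᵥ Y - Gv g (x, Y) *ᵥ (Gv g (x, v) *ᵥ v) := by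
    rw [XG, spray_eq, GeoB_mD h, Matrix.add_mulVec, h.Gv_symm, Matrix.mulVec_neg, sub_eq_add_neg]
  rw [GeoB_spray h, GeoB_mD h, Matrix.add_mulVec, Matrix.add_mulVec, Matrix.add_mulVec, e1,
    ← curv_eq, GeoB_curv h, ← Matrix.mulVec_mulVec, h.Gv_symm x v Y, h.Gv_symm x η v, two_smul]
  congr 1
  abel

theorem GeoB_low (h : RM g) (x : V n) (j l i : Fin n) : ∑ k, g x j k * chr g x k l i =
    (1 / 2) * (pd l (fun y => g y i j) x + pd i (fun y => g y l j) x -
      pd j (fun y => g y l i) x) := by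
  have h1 : ∀ B : V n, g x *ᵥ ((g x)⁻¹ *ᵥ B) = B := fun B => by
    rw [Matrix.mulVec_mulVec, Matrix.mul_nonsing_inv _ (h.pos x).det_pos.ne'.isUnit,
      Matrix.one_mulVec]
  have h2 := congrFun (h1 fun m => pd l (fun y => g y i m) x + pd i (fun y => g y l m) x -
    pd m (fun y => g y l i) x) j
  rw [← h2]
  simp only [chr, Matrix.mulVec, dotProduct]
  rw [Finset.mul_sum]
  exact Finset.sum_congr rfl fun k _ => by ring

/-- metric compatibility. Sketch: `g * g⁻¹ = 1`, `∂_l g_{ij} = Γ_{i,lj} + Γ_{j,li}`. -/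
theorem RM.compat (h : RM g) (x v : V n) :
    mD g x v = (Gv g (x, v))ᵀ * g x + g x * Gv g (x, v) := by
  ext i j
  have e1 : ∀ i j, (g x * Gv g (x, v)) i j = ∑ l, v l * ∑ k, g x i k * chr g x k l j := by
    intro i j
    simp only [Matrix.mul_apply, Gv, Matrix.of_apply, Finset.mul_sum]
    rw [Finset.sum_comm]
    exact Finset.sum_congr rfl fun l _ => Finset.sum_congr rfl fun k _ => by ring
  have e2 : ((Gv g (x, v))ᵀ * g x) i j = (g x * Gv g (x, v)) j i := by
    rw [← Matrix.transpose_apply (g x * Gv g (x, v)), Matrix.transpose_mul, h.tr]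
  rw [Matrix.add_apply, e2, e1, e1, ← Finset.sum_add_distrib, mD, Matrix.of_apply,
    fderiv_eq_sum_pd]
  refine Finset.sum_congr rfl fun l _ => ?_
  rw [GeoB_low h, GeoB_low h, show (fun y => g y j i) = fun y => g y i j from
    funext fun y => h.symm y j i]
  ring

end Pool.Agent.Lib.MP_45f3cb_gt.Fa
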