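import Pool.Agent.Lib.MP_45f3cb_gt.Fa.OdeA
import Pool.Agent.Lib.MP_45f3cb_gt.Fa.GeoB

/-!
The parallel frame and the index form.
-/

open Set MeasureTheory Filter Topology Matrix

namespace Pool.Agent.Lib.MP_45f3cb_gt.Fa

variable {n : ℕ} {g : V n → Mat n} {c : ℝ → Z n} {a b : ℝ}

theorem FrA_smg (h : RM g) (hc : Sm c) : MSm fun t => g (c t).1 :=
  h.sm.comp (f := fun t => (c t).1) (contDiff_fst.comp hc)

theorem FrA_dot (P : Mat n) (u w : V n) : (P *ᵥ u) ⬝ᵥ w = u ⬝ᵥ (Pᵀ *ᵥ w) := by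
  rw [dotProduct_mulVec, vecMul_transpose]

/-- a parallel orthonormal frame. Sketch: `exists_root`, `matode` for `-Gv g (c t)` on a larger
interval; `md (Pᵀ g P) = 0` on `Icc a b` by `md_curve`, `RM.compat`; `md_zero_const`. -/
theorem par_frame (h : RM g) (hc : Sm c) (hab : a ≤ b)
    (hgeo : ∀ t ∈ Icc a b, HasDerivAt c (spray g (c t)) t) :
    ∃ P : ℝ → Mat n, MSm P ∧ (∀ t ∈ Icc (a - 1) (b + 1), md P t = -(Gv g (c t) * P t)) ∧
      ∀ t ∈ Icc a b, (P t)ᵀ * g (c t).1 * P t = 1 := by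
  obtain ⟨Q, hQ⟩ := exists_root (h.pos (c a).1)
  obtain ⟨P, hP, h0, h1⟩ := matode (B := fun t => -Gv g (c t)) (h.sm_Gv.comp hc).neg Q a (b - a + 1)
  have h2 : ∀ t ∈ Icc (a - 1) (b + 1), md P t = -(Gv g (c t) * P t) := fun t ht => by
    rw [h1 t ⟨by linarith [ht.1], by linarith [ht.2]⟩, Matrix.neg_mul]
  have hg := FrA_smg h hc
  refine ⟨P, hP, h2, fun t ht => ?_⟩
  rw [← hQ, ← h0]
  refine md_zero_const (A := fun t => (P t)ᵀ * g (c t).1 * P t) ((hP.tr.mul hg).mul hP)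
    (fun r hr => ?_) ht ⟨le_rfl, hab⟩
  have h3 : HasDerivAt (fun r => (c r).1) (c r).2 r :=
    (ContinuousLinearMap.fst ℝ (V n) (V n)).hasFDerivAt.comp_hasDerivAt r (hgeo r hr)
  have h4 : md (fun r => g (c r).1) r =
      (Gv g (c r))ᵀ * g (c r).1 + g (c r).1 * Gv g (c r) :=
    (md_curve (c := fun r => (c r).1) h.sm h3).trans (h.compat _ _)
  rw [md_mul (hP.tr.mul hg) hP, md_mul hP.tr hg, md_tr, h4,
    h2 r ⟨by linarith [hr.1], by linarith [hr.2]⟩]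
  simp only [transpose_neg, transpose_mul, Matrix.mul_add, Matrix.add_mul, Matrix.neg_mul,
    Matrix.mul_neg, Matrix.mul_assoc]
  abel

/-- the velocity in the parallel frame -/
noncomputable def thv (g : V n → Mat n) (c : ℝ → Z n) (P : ℝ → Mat n) (t : ℝ) : V n :=
  ((P t)ᵀ * g (c t).1) *ᵥ (c t).2

/-- the curvature in the parallel frame -/
noncomputable def Rh (g : V n → Mat n) (c : ℝ → Z n) (P : ℝ → Mat n) (t : ℝ) : Mat n :=
  (P t)ᵀ * g (c t).1 * Rm g (c t) * P t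

/-- the matrix of the modified index form -/
noncomputable def Aq (g : V n → Mat n) (c : ℝ → Z n) (P : ℝ → Mat n) (q : ℝ → ℝ) (t : ℝ) : Mat n :=
  (2 : ℝ) • Rh g c P t - q t • (1 - vecMulVec (thv g c P t) (thv g c P t))

theorem sm_thv (h : RM g) (hc : Sm c) {P : ℝ → Mat n} (hP : MSm P) : Sm (thv g c P) :=
  (hP.tr.mul (FrA_smg h hc)).mulVec (contDiff_snd.comp hc)

theorem sm_Rh (h : RM g) (hc : Sm c) {P : ℝ → Mat n} (hP : MSm P) : MSm (Rh g c P) :=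
  ((hP.tr.mul (FrA_smg h hc)).mul (h.sm_Rm.comp hc)).mul hP

theorem sm_Aq (h : RM g) (hc : Sm c) {P : ℝ → Mat n} (hP : MSm P) {q : ℝ → ℝ} (hq : Sm q) :
    MSm (Aq g c P q) := by
  have h1 := contDiff_pi.1 (sm_thv h hc hP)
  have h2 : MSm fun t => vecMulVec (thv g c P t) (thv g c P t) := fun i j => (h1 i).mul (h1 j)
  exact ((sm_Rh h hc hP).smul (c := fun _ => 2) contDiff_const).sub
    (((MSm.const 1).sub h2).smul hq)

/-- Sketch: apply the hypothesis to `Y t = P t *ᵥ y t`; `covD Y = P *ᵥ y'` on `Icc a b`;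
`intervalIntegral.integral_congr`. -/
theorem idx_frame (h : RM g) (hc : Sm c) (hab : a ≤ b) {P : ℝ → Mat n} (hP : MSm P)
    (h1 : ∀ t ∈ Icc (a - 1) (b + 1), md P t = -(Gv g (c t) * P t))
    (h2 : ∀ t ∈ Icc a b, (P t)ᵀ * g (c t).1 * P t = 1) {q : ℝ → ℝ}
    (hI : ∀ Y : ℝ → V n, ContDiff ℝ (⊤ : ℕ∞) Y → Y a = 0 → Y b = 0 → (∃ t ∈ Icc a b, Y t ≠ 0) →
      0 < ∫ t in a..b, (gi g (c t).1 (covD g (fun t => (c t).1) (fun t => (c t).2) Y t)
          (covD g (fun t => (c t).1) (fun t => (c t).2) Y t) -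
        2 * gi g (c t).1 (curv g (c t).1 (Y t) (c t).2) (Y t) +
        q t * (gi g (c t).1 (Y t) (Y t) - gi g (c t).1 (Y t) (c t).2 ^ 2))) :
    Idx (Aq g c P q) a b := by
  intro y hy ha hb ⟨t₀, ht₀, hne⟩
  have h3 := hI (fun t => P t *ᵥ y t) (hP.mulVec hy) (by simp [ha]) (by simp [hb])
    ⟨t₀, ht₀, fun h0 => hne (by
      have h4 : ((P t₀)ᵀ * g (c t₀).1 * P t₀) *ᵥ y t₀ = 0 := by
        rw [← mulVec_mulVec, show P t₀ *ᵥ y t₀ = 0 from h0, mulVec_zero]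
      rwa [h2 t₀ ht₀, one_mulVec] at h4)⟩
  refine h3.trans_eq (intervalIntegral.integral_congr fun t ht => ?_)
  rw [uIcc_of_le hab] at ht
  have hd : HasDerivAt y (deriv y t) t := (hy.dAt t).hasDerivAt
  have h5 : covD g (fun t => (c t).1) (fun t => (c t).2) (fun t => P t *ᵥ y t) t =
      P t *ᵥ deriv y t := by
    funext k
    have h6 : HasDerivAt (fun r => (P r *ᵥ y r) k)
        (∑ j, (md P t k j * y t j + P t k j * deriv y t j)) t :=
      HasDerivAt.fun_sum (u := Finset.univ) fun j _ =>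
        (hP.hasDerivAt k j t).fun_mul (hasDerivAt_pi.1 hd j)
    have h7 : ∑ i, ∑ j, chr g (c t).1 k i j * (c t).2 i * (P t *ᵥ y t) j =
        (Gv g (c t) *ᵥ (P t *ᵥ y t)) k := by
      rw [Finset.sum_comm]
      simp only [Gv, mulVec, dotProduct, of_apply, Finset.sum_mul]
    have h8 : ∑ j, (md P t k j * y t j + P t k j * deriv y t j) =
        (md P t *ᵥ y t) k + (P t *ᵥ deriv y t) k := Finset.sum_add_distrib
    simp only [covD]
    rw [h6.deriv, h7, h8, h1 t ⟨by linarith [ht.1], by linarith [ht.2]⟩, neg_mulVec,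
      mulVec_mulVec]
    simp
  have h9 : ∀ u w : V n, gi g (c t).1 (P t *ᵥ u) (P t *ᵥ w) = u ⬝ᵥ w := fun u w => by
    rw [gi_eq, FrA_dot, mulVec_mulVec, mulVec_mulVec, h2 t ht, one_mulVec]
  have h10 : gi g (c t).1 (curv g (c t).1 (P t *ᵥ y t) (c t).2) (P t *ᵥ y t) =
      y t ⬝ᵥ (Rh g c P t *ᵥ y t) := by
    rw [gi_eq, curv_eq, dotProduct_comm, FrA_dot, FrA_dot, h.tr]
    simp only [Rh, mulVec_mulVec, Matrix.mul_assoc]
  have h11 : gi g (c t).1 (P t *ᵥ y t) (c t).2 = y t ⬝ᵥ thv g c P t := by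
    rw [gi_eq, FrA_dot, mulVec_mulVec]
    rfl
  have h12 : y t ⬝ᵥ (vecMulVec (thv g c P t) (thv g c P t) *ᵥ y t) = (y t ⬝ᵥ thv g c P t) ^ 2 := by
    rw [sq, dotProduct, dotProduct, Finset.sum_mul]
    refine Finset.sum_congr rfl fun i _ => ?_
    simp only [mulVec, dotProduct, vecMulVec_apply, Finset.mul_sum]
    exact Finset.sum_congr rfl fun j _ => by ring
  simp only [h5, h9, h10, h11, Aq, sub_mulVec, smul_mulVec, dotProduct_sub, dotProduct_smul,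
    one_mulVec, h12, smul_eq_mul]
  ring

end Pool.Agent.Lib.MP_45f3cb_gt.Fa
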