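import Pool.Agent.Lib.MP_45f3cb_gt.Fa.OdeA

/-!
The smooth root and the completion of the square.
-/

open Set MeasureTheory Filter Topology Matrix

namespace Pool.Agent.Lib.MP_45f3cb_gt.Fa

variable {n : ℕ} {a b : ℝ}

/-- the smooth root. Sketch: `exists_inv` gives `H` with `B H = 1` near `Icc a b`; `matode` for
`F' = -(1/2) H B' F`, `F a` from `exists_root`; then `(Fᵀ B F)' = 0` on a slightly larger interval
(`md_zero_const`), and `H = F Fᵀ` there. -/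
theorem root_frame {B : ℝ → Mat n} (hB : MSm B) (hs : ∀ t, (B t)ᵀ = B t) (hab : a ≤ b)
    (hp : ∀ t ∈ Icc a b, ∀ e : V n, e ≠ 0 → 0 < e ⬝ᵥ (B t *ᵥ e)) :
    ∃ F : ℝ → Mat n, MSm F ∧ ∀ t ∈ Icc a b, ∀ᶠ s in 𝓝 t, (F s)ᵀ * B s * F s = 1 ∧
      md F s = F s * (-(1 / 2 : ℝ) • ((F s)ᵀ * md B s * F s)) := by
  have hpd : ∀ t ∈ Icc a b, (B t).PosDef := fun t ht =>
    Matrix.PosDef.of_dotProduct_mulVec_pos (by simpa [Matrix.IsHermitian] using hs t)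
      fun e he => by simpa using hp t ht e he
  obtain ⟨H, hH, hBH⟩ := exists_inv hB fun t ht => (hpd t ht).det_pos.ne'
  obtain ⟨Q, hQ⟩ := exists_root (hpd a ⟨le_rfl, hab⟩)
  have hM : MSm fun s => -(1 / 2 : ℝ) • (H s * md B s) :=
    MSm.smul (c := fun _ => -(1 / 2 : ℝ)) contDiff_const (hH.mul hB.md)
  obtain ⟨F, hF, hF0, hF1⟩ := matode hM Q a (b - a + 1)
  obtain ⟨δ₁, d1, e1⟩ := Metric.eventually_nhds_iff.1 (hBH a ⟨le_rfl, hab⟩)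
  obtain ⟨δ₂, d2, e2⟩ := Metric.eventually_nhds_iff.1 (hBH b ⟨hab, le_rfl⟩)
  obtain ⟨δ, d0, d3, d4, d5⟩ : ∃ δ : ℝ, 0 < δ ∧ δ < δ₁ ∧ δ < δ₂ ∧ δ ≤ 1 :=
    ⟨min (min δ₁ δ₂ / 2) 1, by positivity,
      (min_le_left _ _).trans_lt (by linarith [min_le_left δ₁ δ₂, lt_min d1 d2]),
      (min_le_left _ _).trans_lt (by linarith [min_le_right δ₁ δ₂, lt_min d1 d2]),
      min_le_right _ _⟩
  have hU : ∀ s ∈ Icc (a - δ) (b + δ), B s * H s = 1 := fun s hs => by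
    rcases lt_or_ge s a with h | h
    · exact e1 (by rw [Real.dist_eq, abs_lt]; constructor <;> linarith [hs.1])
    rcases lt_or_ge b s with h' | h'
    · exact e2 (by rw [Real.dist_eq, abs_lt]; constructor <;> linarith [hs.2])
    exact (hBH s ⟨h, h'⟩).self_of_nhds
  have hD : ∀ s ∈ Icc (a - δ) (b + δ), md F s = (-(1 / 2 : ℝ) • (H s * md B s)) * F s :=
    fun s hs => hF1 s ⟨by linarith [hs.1], by linarith [hs.2]⟩
  have hB' : ∀ s, (md B s)ᵀ = md B s := fun s => by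
    rw [← md_tr]
    simp only [hs]
  have hz : ∀ s ∈ Icc (a - δ) (b + δ), md (fun r => (F r)ᵀ * B r * F r) s = 0 := fun s h => by
    have k1 : B s * md F s = -(1 / 2 : ℝ) • (md B s * F s) := by
      rw [hD s h, Matrix.smul_mul, Matrix.mul_smul, ← Matrix.mul_assoc, ← Matrix.mul_assoc, hU s h,
        Matrix.one_mul]
    have k2 : (md F s)ᵀ * B s = -(1 / 2 : ℝ) • ((F s)ᵀ * md B s) := by
      have := congrArg transpose k1
      rwa [transpose_mul, hs, transpose_smul, transpose_mul, hB'] at this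
    rw [md_mul (hF.tr.mul hB) hF, md_mul hF.tr hB, md_tr, k2, Matrix.mul_assoc _ (B s), k1,
      Matrix.add_mul, Matrix.smul_mul, Matrix.mul_smul, ← Matrix.mul_assoc]
    module
  have h1 : ∀ s ∈ Icc (a - δ) (b + δ), (F s)ᵀ * B s * F s = 1 := fun s h => by
    have := md_zero_const ((hF.tr.mul hB).mul hF) hz h
      (show a ∈ Icc (a - δ) (b + δ) from ⟨by linarith, by linarith⟩)
    simpa only [hF0, hQ] using this
  refine ⟨F, hF, fun t ht => ?_⟩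
  filter_upwards [Icc_mem_nhds (show a - δ < t by linarith [ht.1])
    (show t < b + δ by linarith [ht.2])] with s h
  have k1 : H s = F s * (F s)ᵀ := by
    have k2 := mul_eq_one_comm.1 (h1 s h)
    rw [← Matrix.one_mul (H s), ← k2, Matrix.mul_assoc, Matrix.mul_assoc, hU s h, Matrix.mul_one]
  refine ⟨h1 s h, ?_⟩
  rw [hD s h, k1]
  simp only [Matrix.smul_mul, Matrix.mul_smul, Matrix.mul_assoc]

/-- completing the square. Sketch: with `u = β + (m + ν / 2) α` the form is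
`u ⬝ u + α ⬝ K α`, and `α ⬝ K α = -(1/2) (F α) ⬝ S (F α)` for
`S = B₂ - ν B₁ + ν² / 2 B + Rᵀ B + B R`. -/
theorem form_pos {F B B₁ B₂ R : Mat n} {ν : ℝ} (h1 : Fᵀ * B * F = 1) (hs : Bᵀ = B) (hs₁ : B₁ᵀ = B₁)
    (hS : ∀ e : V n, e ≠ 0 →
      e ⬝ᵥ ((B₂ - ν • B₁ + (ν ^ 2 / 2) • B + Rᵀ * B + B * R) *ᵥ e) < 0) {m : Mat n}
    (hm : m = -(1 / 2 : ℝ) • (Fᵀ * B₁ * F)) {α β : V n} (h0 : (α, β) ≠ 0) :
    0 < β ⬝ᵥ β + β ⬝ᵥ (((2 : ℝ) • m) *ᵥ α) + ν * (α ⬝ᵥ β) +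
      α ⬝ᵥ ((-(1 / 2 : ℝ) • (Fᵀ * B₂ * F) + m * m - Fᵀ * B * R * F) *ᵥ α) := by
  have q : ∀ A : Mat n, α ⬝ᵥ ((Fᵀ * A * F) *ᵥ α) = (F *ᵥ α) ⬝ᵥ (A *ᵥ (F *ᵥ α)) := fun A => by
    rw [← mulVec_mulVec, ← mulVec_mulVec, dotProduct_mulVec, vecMul_transpose]
  have hmt : mᵀ = m := by
    rw [hm, transpose_smul, transpose_mul, transpose_mul, transpose_transpose, hs₁,
      Matrix.mul_assoc]
  have k1 : α ⬝ᵥ ((m * m) *ᵥ α) = (m *ᵥ α) ⬝ᵥ (m *ᵥ α) := by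
    rw [← mulVec_mulVec, dotProduct_mulVec, ← vecMul_transpose, hmt]
  have k2 : α ⬝ᵥ (m *ᵥ α) = -(1 / 2 : ℝ) * ((F *ᵥ α) ⬝ᵥ (B₁ *ᵥ (F *ᵥ α))) := by
    rw [hm, smul_mulVec, dotProduct_smul, q, smul_eq_mul]
  have k3 : α ⬝ᵥ α = (F *ᵥ α) ⬝ᵥ (B *ᵥ (F *ᵥ α)) := by rw [← q, h1, one_mulVec]
  have k4 : (F *ᵥ α) ⬝ᵥ ((Rᵀ * B) *ᵥ (F *ᵥ α)) = (F *ᵥ α) ⬝ᵥ ((B * R) *ᵥ (F *ᵥ α)) := by
    rw [dotProduct_mulVec, ← mulVec_transpose, transpose_mul, transpose_transpose, hs,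
      dotProduct_comm]
  have k5 : 0 ≤ (β + m *ᵥ α + (ν / 2) • α) ⬝ᵥ (β + m *ᵥ α + (ν / 2) • α) :=
    Finset.sum_nonneg fun i _ => mul_self_nonneg _
  rcases eq_or_ne α 0 with rfl | hα
  · have hβ : β ≠ 0 := fun h => h0 (by rw [h]; rfl)
    have k6 : 0 ≤ β ⬝ᵥ β := Finset.sum_nonneg fun i _ => mul_self_nonneg _
    simpa using k6.lt_of_ne fun h => hβ (dotProduct_self_eq_zero.1 h.symm)
  have he : F *ᵥ α ≠ 0 := fun h => hα (dotProduct_self_eq_zero.1 (by rw [k3, h, zero_dotProduct]))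
  have k6 := hS _ he
  simp only [add_mulVec, sub_mulVec, smul_mulVec, dotProduct_add, dotProduct_sub, add_dotProduct,
    dotProduct_smul, smul_dotProduct, smul_eq_mul, k4] at k5 k6 ⊢
  rw [q, k1, Matrix.mul_assoc Fᵀ B R, q]
  rw [dotProduct_comm (m *ᵥ α) β, dotProduct_comm (m *ᵥ α) α, dotProduct_comm β α, k2, k3] at k5
  nlinarith

end Pool.Agent.Lib.MP_45f3cb_gt.Fa
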