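import Pool.Agent.Lib.MP_45f3cb_gt.Fa.FrA

/-!
The coefficients of the frame.
-/

open Set MeasureTheory Filter Topology Matrix

namespace Pool.Agent.Lib.MP_45f3cb_gt.Fa

variable {n : ℕ} {g : V n → Mat n} {c : ℝ → Z n} {a b : ℝ}

/-- the coefficients for `E = P F`. Sketch: near `t`, `md E + Gv E = P F m` along the curve;
differentiate once more (`md_congr`, `md_curve` gives `XG`); `G t = Fᵀ B Pᵀ g`;
`md m = -(1/2) Fᵀ B'' F + 2 m m`. -/
theorem frame_coef (h : RM g) (hc : Sm c) {P F B G : ℝ → Mat n} (hP : MSm P) (hF : MSm F)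
    (hB : MSm B) (hs : ∀ t, (B t)ᵀ = B t) {t : ℝ} (hgeo : HasDerivAt c (spray g (c t)) t)
    (h1 : ∀ᶠ s in 𝓝 t, md P s = -(Gv g (c s) * P s)) (h2 : (P t)ᵀ * g (c t).1 * P t = 1)
    (h3 : ∀ᶠ s in 𝓝 t, (F s)ᵀ * B s * F s = 1 ∧
      md F s = F s * (-(1 / 2 : ℝ) • ((F s)ᵀ * md B s * F s)))
    (h4 : P t * F t * G t = 1) {m : Mat n} (hm : m = -(1 / 2 : ℝ) • ((F t)ᵀ * md B t * F t)) :
    Mt g (fun s => P s * F s) G t (c t) = (2 : ℝ) • m ∧
      Lt g (fun s => P s * F s) G t (c t) = -(1 / 2 : ℝ) • ((F t)ᵀ * md (md B) t * F t) + m * m -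
        (F t)ᵀ * B t * Rh g c P t * F t ∧
      G t *ᵥ (c t).2 = ((F t)ᵀ * B t) *ᵥ thv g c P t := by
  obtain ⟨M, hM⟩ : ∃ M : ℝ → Mat n, M = fun s => -(1 / 2 : ℝ) • ((F s)ᵀ * md B s * F s) := ⟨_, rfl⟩
  have hMt : M t = m := by rw [hM, hm]
  have sM : MSm M := hM ▸ MSm.smul contDiff_const ((hF.tr.mul hB.md).mul hF)
  have sE : MSm fun s => P s * F s := hP.mul hF
  have sΓ : MSm fun s => Gv g (c s) := h.sm_Gv.comp hc
  have e1 : (fun s => md (fun s => P s * F s) s + Gv g (c s) * (P s * F s)) =ᶠ[𝓝 t]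
      fun s => P s * F s * M s := by
    filter_upwards [h1, h3] with s a1 a3
    rw [md_mul hP hF, a1, a3.2, hM]
    simp only [Matrix.neg_mul, Matrix.mul_assoc]
    abel
  have e2 := md_congr e1
  rw [md_add sE.md (sΓ.mul sE), md_mul sΓ sE, md_mul sE sM, md_curve h.sm_Gv hgeo, hMt] at e2
  have e3 : md (fun s => P s * F s) t + Gv g (c t) * (P t * F t) = P t * F t * m :=
    hMt ▸ e1.self_of_nhds
  obtain ⟨b1, b2⟩ := h3.self_of_nhds
  rw [← hm] at b2
  have hGE : G t * (P t * F t) = 1 := mul_eq_one_comm.1 h4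
  have hG : G t = (F t)ᵀ * B t * ((P t)ᵀ * g (c t).1) := by
    have : (F t)ᵀ * B t * ((P t)ᵀ * g (c t).1) * (P t * F t) = 1 := by
      rw [← b1]
      calc _ = (F t)ᵀ * B t * ((P t)ᵀ * g (c t).1 * P t) * F t := by simp only [Matrix.mul_assoc]
        _ = _ := by rw [h2, Matrix.mul_one]
    rw [← Matrix.one_mul (G t), ← this, Matrix.mul_assoc _ (P t * F t), h4, Matrix.mul_one]
  have hB' : (md B t)ᵀ = md B t := by
    rw [← md_tr, funext hs]
  have hmT : mᵀ = m := by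
    rw [hm, transpose_smul, transpose_mul, transpose_mul, transpose_transpose, hB', Matrix.mul_assoc]
  have hX : (F t)ᵀ * md B t * F t = -(2 : ℝ) • m := by
    rw [hm, smul_smul]
    norm_num
  have e4 : md M t = -(1 / 2 : ℝ) • ((F t)ᵀ * md (md B) t * F t) + (2 : ℝ) • (m * m) := by
    rw [hM, md_smul contDiff_const ((hF.tr.mul hB.md).mul hF), deriv_const, zero_smul, zero_add,
      md_mul (hF.tr.mul hB.md) hF, md_mul hF.tr hB.md, md_tr, b2, transpose_mul, hmT,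
      ← Matrix.mul_assoc _ (F t) m, hX, Matrix.add_mul, Matrix.mul_assoc m, Matrix.mul_assoc m, hX,
      Matrix.mul_smul, Matrix.smul_mul]
    module
  have e5 : DE g (fun s => P s * F s) t (c t) = P t * F t * m := e3
  have e6 : ∀ X : Mat n, G t * (P t * F t * X) = X := fun X => by
    rw [← Matrix.mul_assoc, hGE, Matrix.one_mul]
  refine ⟨by rw [Mt, e5, e6], ?_, by rw [hG, thv, mulVec_mulVec]⟩
  have e7 : md (md fun s => P s * F s) t + XG g (c t) * (P t * F t) +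
      (2 : ℝ) • (Gv g (c t) * md (fun s => P s * F s) t) + Gv g (c t) * Gv g (c t) * (P t * F t) =
      P t * F t * (m * m + md M t) := by
    rw [eq_sub_of_add_eq e2, eq_sub_of_add_eq e3, XG]
    simp only [Matrix.mul_add, Matrix.mul_sub, Matrix.sub_mul, Matrix.mul_assoc]
    module
  rw [Lt, e5, e7, Matrix.mul_assoc _ (G t), e6, Matrix.mul_sub, Matrix.mul_sub, e6, Matrix.mul_smul,
    Matrix.mul_assoc _ m m, e6, e4, hG, Rh]
  simp only [Matrix.mul_assoc]
  module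

end Pool.Agent.Lib.MP_45f3cb_gt.Fa
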