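import Pool.Agent.Lib.MP_45f3cb_gt.Fa.OdeA

/-!
The matrix boundary value problem: positivity.
-/

open Set MeasureTheory Filter Topology Matrix

namespace Pool.Agent.Lib.MP_45f3cb_gt.Fa

variable {n : ℕ}

theorem OdeD_der {B : ℝ → Mat n} (h : MSm B) (e : V n) (t : ℝ) :
    HasDerivAt (fun r => e ⬝ᵥ (B r *ᵥ e)) (e ⬝ᵥ (md B t *ᵥ e)) t := by
  simp only [Matrix.mulVec, dotProduct]
  exact HasDerivAt.fun_sum fun i _ => (HasDerivAt.fun_sum fun j _ =>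
    (h.hasDerivAt i j t).mul_const (e j)).const_mul (e i)

theorem OdeD_min {B : ℝ → Mat n} (h : MSm B) (e : V n) {t : ℝ}
    (hm : IsLocalMin (fun r => e ⬝ᵥ (B r *ᵥ e)) t) : 0 ≤ e ⬝ᵥ (md (md B) t *ᵥ e) := by
  have e1 : deriv (fun r => e ⬝ᵥ (B r *ᵥ e)) = fun r => e ⬝ᵥ (md B r *ᵥ e) :=
    funext fun r => (OdeD_der h e r).deriv
  have e2 : deriv (deriv fun r => e ⬝ᵥ (B r *ᵥ e)) t = e ⬝ᵥ (md (md B) t *ᵥ e) := by
    rw [e1]
    exact (OdeD_der h.md e t).deriv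
  rw [← e2]
  by_contra hneg
  rw [not_le] at hneg
  have hM := isLocalMax_of_deriv_deriv_neg hneg hm.deriv_eq_zero (OdeD_der h e t).continuousAt
  have hc : (fun r => e ⬝ᵥ (B r *ᵥ e)) =ᶠ[𝓝 t] fun _ => e ⬝ᵥ (B t *ᵥ e) := by
    filter_upwards [hm, hM] with r h1 h2 using le_antisymm h2 h1
  rw [hc.deriv.deriv_eq] at hneg
  simp at hneg

theorem OdeD_self {e : V n} (he : e ≠ 0) : 0 < e ⬝ᵥ e := by
  simpa using (dotProduct_self_star_pos_iff (v := e)).2 he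

theorem OdeD_scale (B : Mat n) (e : V n) (c : ℝ) :
    (c • e) ⬝ᵥ (B *ᵥ (c • e)) = c * c * (e ⬝ᵥ (B *ᵥ e)) := by
  rw [mulVec_smul, smul_dotProduct, dotProduct_smul, smul_eq_mul, smul_eq_mul, mul_assoc]

theorem OdeD_unit {e : V n} (he : e ≠ 0) : ‖e‖⁻¹ • e ∈ Metric.sphere (0 : V n) 1 := by
  rw [mem_sphere_zero_iff_norm, norm_smul, norm_inv, norm_norm,
    inv_mul_cancel₀ (norm_ne_zero_iff.2 he)]

/-- no interior minimum with a value at most zero -/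
theorem OdeD_no {B : ℝ → Mat n} {a b t : ℝ} (h : MSm B) (ha : B a = 1) (hb : B b = 1) {e : V n}
    (he : e ≠ 0) (ht : t ∈ Icc a b) (hm : IsMinOn (fun r => e ⬝ᵥ (B r *ᵥ e)) (Icc a b) t)
    (h0 : e ⬝ᵥ (B t *ᵥ e) ≤ 0) (h2 : e ⬝ᵥ (md (md B) t *ᵥ e) = -(e ⬝ᵥ e)) : False := by
  have hp := OdeD_self he
  have h3 : a < t := lt_of_le_of_ne ht.1 fun e1 => by
    rw [← e1, ha, one_mulVec] at h0
    linarith
  have h4 : t < b := lt_of_le_of_ne ht.2 fun e1 => by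
    rw [e1, hb, one_mulVec] at h0
    linarith
  have h5 := OdeD_min h e (hm.isLocalMin (Icc_mem_nhds h3 h4))
  linarith

/-- Sketch: otherwise let `m s` be the minimum of `e ⬝ C s t e` over `t ∈ Icc a b`, `e ⬝ e = 1`; it is
continuous, `m 0 > 0` (concavity: `h'' = -1`, `h a = h b = 1`); if `m s ≤ 0` for some `s` there is
`s` with `m s = 0` (`IsPreconnected.intermediate_value`), attained at an interior `t₀` and `e` with
`C e = 0`; `h = e ⬝ C e ≥ 0` has `h t₀ = 0` and `h'' t₀ = -1`, impossible. -/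
theorem bvp_pos {A : ℝ → Mat n} {a b : ℝ} (hab : a < b) {C : ℝ → ℝ → Mat n} (h1 : ∀ s, MSm (C s))
    (h2 : ∀ s t, (C s t)ᵀ = C s t)
    (h3 : ∀ i j, ContinuousOn (fun q : ℝ × ℝ => C q.1 q.2 i j) (Icc 0 1 ×ˢ Icc a b))
    (h4 : ∀ s ∈ Icc (0 : ℝ) 1, C s a = 1 ∧ C s b = 1 ∧
      ∀ t ∈ Icc a b, md (md (C s)) t + s • Ly (A t) (C s t) = -1) :
    ∀ t ∈ Icc a b, ∀ e : V n, e ≠ 0 → 0 < e ⬝ᵥ (C 1 t *ᵥ e) := by
  intro t ht e he
  by_contra hneg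
  rw [not_lt] at hneg
  have hK : IsCompact ((Icc (0 : ℝ) 1 ×ˢ Icc a b) ×ˢ Metric.sphere (0 : V n) 1) :=
    (isCompact_Icc.prod isCompact_Icc).prod (isCompact_sphere _ _)
  have hF : ContinuousOn (fun q : (ℝ × ℝ) × V n => q.2 ⬝ᵥ (C q.1.1 q.1.2 *ᵥ q.2))
      ((Icc (0 : ℝ) 1 ×ˢ Icc a b) ×ˢ Metric.sphere (0 : V n) 1) := by
    simp only [Matrix.mulVec, dotProduct]
    refine continuousOn_finsetSum _ fun i _ => ContinuousOn.mul (by fun_prop)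
      (continuousOn_finsetSum _ fun j _ => ContinuousOn.mul ?_ (by fun_prop))
    exact (h3 i j).comp continuousOn_fst fun q hq => hq.1
  have hB := hK.of_isClosed_subset (hF.preimage_isClosed_of_isClosed hK.isClosed
    (isClosed_Iic (a := 0))) inter_subset_left
  obtain ⟨⟨⟨s, t₀⟩, e₀⟩, ⟨⟨⟨hs, ht₀⟩, he₀⟩, hq⟩, hmin⟩ := hB.exists_isMinOn
    ⟨((1, t), ‖e‖⁻¹ • e), ⟨⟨⟨zero_le_one, le_rfl⟩, ht⟩, OdeD_unit he⟩, by
      simp only [mem_preimage, mem_Iic, OdeD_scale]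
      exact mul_nonpos_of_nonneg_of_nonpos (mul_self_nonneg _) hneg⟩
    (f := fun q => q.1.1) (by fun_prop)
  have hq' : e₀ ⬝ᵥ (C s t₀ *ᵥ e₀) ≤ 0 := hq
  have he0 : e₀ ≠ 0 := by
    rintro rfl
    simp at he₀
  obtain ⟨ha, hb, hode⟩ := h4 s hs
  rcases eq_or_lt_of_le (show 0 ≤ s from hs.1) with h0 | h0
  · obtain ⟨t₁, ht₁, hm⟩ := isCompact_Icc.exists_isMinOn (nonempty_Icc.2 hab.le)
      (f := fun r => e₀ ⬝ᵥ (C s r *ᵥ e₀))
      fun r _ => (OdeD_der (h1 s) e₀ r).continuousAt.continuousWithinAt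
    refine OdeD_no (h1 s) ha hb he0 ht₁ hm (le_trans (hm ht₀) hq') ?_
    have h5 := hode t₁ ht₁
    rw [← h0, zero_smul, add_zero, h0] at h5
    rw [h5, neg_mulVec, one_mulVec, dotProduct_neg]
  · have hge : ∀ r ∈ Icc a b, ∀ v ∈ Metric.sphere (0 : V n) 1, 0 ≤ v ⬝ᵥ (C s r *ᵥ v) := by
      intro r hr v hv
      have c1 : ContinuousWithinAt (fun x : ℝ => v ⬝ᵥ (C x r *ᵥ v)) (Ico 0 s) s :=
        (hF ((s, r), v) ⟨⟨hs, hr⟩, hv⟩).comp (f := fun x : ℝ => ((x, r), v)) (by fun_prop)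
          fun x hx => ⟨⟨⟨hx.1, hx.2.le.trans hs.2⟩, hr⟩, hv⟩
      have : (𝓝[Ico 0 s] s).NeBot := right_nhdsWithin_Ico_neBot h0
      refine ge_of_tendsto c1 (eventually_nhdsWithin_of_forall fun x hx => ?_)
      by_contra hx'
      have h6 : s ≤ x := hmin (a := ((x, r), v))
        ⟨⟨⟨⟨hx.1, hx.2.le.trans hs.2⟩, hr⟩, hv⟩, (not_le.1 hx').le⟩
      exact absurd hx.2 (not_lt.2 h6)
    have hps : (C s t₀).PosSemidef := by
      refine PosSemidef.of_dotProduct_mulVec_nonneg ?_ fun v => ?_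
      · rw [IsHermitian, conjTranspose_eq_transpose_of_trivial, h2]
      · rw [star_trivial]
        by_cases hv : v = 0
        · simp [hv]
        · have h6 := hge t₀ ht₀ _ (OdeD_unit hv)
          rw [OdeD_scale] at h6
          exact nonneg_of_mul_nonneg_right h6
            (mul_self_pos.2 (inv_ne_zero (norm_ne_zero_iff.2 hv)))
    have h7 : e₀ ⬝ᵥ (C s t₀ *ᵥ e₀) = 0 := le_antisymm hq' (hge t₀ ht₀ e₀ he₀)
    have h8 : C s t₀ *ᵥ e₀ = 0 := (hps.dotProduct_mulVec_zero_iff e₀).1 (by rwa [star_trivial])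
    refine OdeD_no (h1 s) ha hb he0 ht₀ (fun r hr => ?_) hq' ?_
    · exact le_trans hq' (hge r hr e₀ he₀)
    · have h9 : e₀ ᵥ* C s t₀ = 0 := by rw [← h2 s t₀, vecMul_transpose, h8]
      have h10 : e₀ ⬝ᵥ (Ly (A t₀) (C s t₀) *ᵥ e₀) = 0 := by
        rw [Ly, smul_mulVec, add_mulVec, ← mulVec_mulVec, ← mulVec_mulVec, h8, mulVec_zero, zero_add,
          dotProduct_smul, dotProduct_mulVec, h9, zero_dotProduct, smul_zero]
      rw [eq_sub_of_add_eq (hode t₀ ht₀), sub_mulVec, smul_mulVec, dotProduct_sub, dotProduct_smul,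
        h10, smul_zero, sub_zero, neg_mulVec, one_mulVec, dotProduct_neg]

end Pool.Agent.Lib.MP_45f3cb_gt.Fa
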