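import Pool.Agent.Lib.MP_45f3cb_gt.Fa.OdeC
import Pool.Agent.Lib.MP_45f3cb_gt.Fa.OdeD

/-!
The matrix boundary value problem.
-/

open Set MeasureTheory Filter Topology Matrix

namespace Pool.Agent.Lib.MP_45f3cb_gt.Fa

variable {n : ℕ}

/-- Sketch: for `a = b` take `C t = Φ 1 t (1, 0, 1)` of `bvp_ivp`, symmetrised; otherwise
`bvp_fam`, `bvp_pos`. -/
theorem bvp {A : ℝ → Mat n} (hA : MSm A) {a b : ℝ} (hab : a ≤ b) (h : Idx A a b) :
    ∃ C : ℝ → Mat n, MSm C ∧ (∀ t, (C t)ᵀ = C t) ∧ ∀ t ∈ Icc a b,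
      (∀ e : V n, e ≠ 0 → 0 < e ⬝ᵥ (C t *ᵥ e)) ∧ md (md C) t + Ly (A t) (C t) = -1 := by
  rcases hab.eq_or_lt with rfl | hlt
  · obtain ⟨N, hN⟩ : ∃ N : Mat n, N = -1 - Ly (A a) 1 := ⟨_, rfl⟩
    have hNs : Nᵀ = N := by
      rw [hN, Ly]
      simp only [transpose_sub, transpose_neg, transpose_one, transpose_smul, transpose_add,
        mul_one, one_mul, transpose_transpose, add_comm]
    have h1 : md (fun t => (1 : Mat n) + ((t - a) ^ 2 / 2) • N) = fun t => (t - a) • N := by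
      funext t
      refine md_eq fun i j => ?_
      have := (((((hasDerivAt_id t).sub_const a).pow 2).div_const 2).mul_const (N i j)).const_add
        ((1 : Mat n) i j)
      exact this.congr_deriv (by simp)
    refine ⟨fun t => 1 + ((t - a) ^ 2 / 2) • N, (MSm.const 1).add (MSm.smul ?_ (MSm.const N)),
      fun t => by rw [transpose_add, transpose_one, transpose_smul, hNs], fun t ht => ?_⟩
    · exact ((contDiff_id.sub contDiff_const).pow 2).div_const 2
    · obtain rfl : t = a := le_antisymm ht.2 ht.1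
      have h2 : md (fun r => (r - t) • N) t = N := by
        refine md_eq fun i j => ?_
        exact (((hasDerivAt_id t).sub_const t).mul_const (N i j)).congr_deriv (one_mul _)
      rw [h1, h2]
      simp only [sub_self, ne_eq, OfNat.ofNat_ne_zero, not_false_eq_true, zero_pow, zero_div,
        zero_smul, add_zero, one_mulVec]
      refine ⟨fun e he => ?_, by rw [hN, sub_add_cancel]⟩
      exact lt_of_le_of_ne (Finset.sum_nonneg fun i _ => mul_self_nonneg _)
        fun e0 => he (dotProduct_self_eq_zero.1 e0.symm)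
  · obtain ⟨C, h1, h2, h3, h4⟩ := bvp_fam hA hlt h
    refine ⟨C 1, h1 1, h2 1, fun t ht => ⟨bvp_pos hlt h1 h2 h3 h4 t ht, ?_⟩⟩
    have := (h4 1 ⟨zero_le_one, le_rfl⟩).2.2 t ht
    rwa [one_smul] at this

/-- Sketch: `bvp` for `n = 1`. -/
theorem bvp1 {q : ℝ → ℝ} (hq : Sm q) {a b : ℝ} (hab : a ≤ b)
    (h : ∀ y : ℝ → ℝ, Sm y → y a = 0 → y b = 0 → (∃ t ∈ Icc a b, y t ≠ 0) →
      0 < ∫ t in a..b, (deriv y t ^ 2 - q t * y t ^ 2)) :
    ∃ r : ℝ → ℝ, Sm r ∧ ∀ t ∈ Icc a b, 0 < r t ∧ deriv (deriv r) t + q t * r t = -1 := by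
  have hA : MSm fun t => (Matrix.of fun _ _ => q t : Mat 1) := fun _ _ => hq
  obtain ⟨C, h1, -, h3⟩ := bvp hA hab fun y hy ha hb hne => by
    have h0 := h (fun t => y t 0) (contDiff_pi.1 hy 0) (by rw [ha]; rfl) (by rw [hb]; rfl) (by
      obtain ⟨t, ht, e⟩ := hne
      exact ⟨t, ht, fun e' => e (funext fun i => by rw [Subsingleton.elim i 0]; exact e')⟩)
    refine h0.trans_eq (intervalIntegral.integral_congr fun t _ => ?_)
    have hd : deriv (fun t => y t 0) t = deriv y t 0 :=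
      (hasDerivAt_pi.1 (hy.differentiable (by simp) t).hasDerivAt 0).deriv
    simp only [hd, dotProduct, mulVec, Fin.sum_univ_one, of_apply]
    ring
  refine ⟨fun t => C t 0 0, h1 0 0, fun t ht => ⟨?_, ?_⟩⟩
  · have := (h3 t ht).1 (fun _ => 1) fun e => one_ne_zero (congrFun e 0)
    simpa [dotProduct, mulVec] using this
  · have := congrFun (congrFun (h3 t ht).2 0) 0
    simp only [Ly, Matrix.add_apply, Matrix.smul_apply, Matrix.mul_apply, Fin.sum_univ_one,
      transpose_apply, of_apply, Matrix.neg_apply, one_apply_eq, smul_eq_mul] at this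
    have e : md (md C) t 0 0 = deriv (deriv fun t => C t 0 0) t := rfl
    rw [e] at this
    linarith

end Pool.Agent.Lib.MP_45f3cb_gt.Fa
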