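import Pool.Agent.Lib.MP_45f3cb_gt.Fa.FrB
import Pool.Agent.Lib.MP_45f3cb_gt.Fa.FrC
import Pool.Agent.Lib.MP_45f3cb_gt.Fa.OdeE

/-!
Construction of the frame and the weight along a geodesic.
-/

open Set MeasureTheory Filter Topology Matrix

namespace Pool.Agent.Lib.MP_45f3cb_gt.Fa

variable {n : ℕ} {g : V n → Mat n} {c : ℝ → Z n} {a b : ℝ}

theorem FrD_prim {f : ℝ → ℝ} (hf : Sm f) :
    Sm (fun t => ∫ s in (0 : ℝ)..t, f s) ∧ ∀ t, deriv (fun t => ∫ s in (0 : ℝ)..t, f s) t = f t := by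
  have hd : ∀ t, HasDerivAt (fun t => ∫ s in (0 : ℝ)..t, f s) (f t) t := fun t =>
    (hf.continuous.integral_hasStrictDerivAt 0 t).hasDerivAt
  have he : deriv (fun t => ∫ s in (0 : ℝ)..t, f s) = f := funext fun t => (hd t).deriv
  refine ⟨?_, fun t => (hd t).deriv⟩
  refine contDiff_infty_iff_deriv.2 ⟨fun t => (hd t).differentiableAt, ?_⟩
  rw [he]
  exact hf

theorem FrD_det {X Y : Mat n} (h : Xᵀ * Y * X = 1) : X.det ≠ 0 := by
  intro h0
  have := congrArg Matrix.det h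
  rw [Matrix.det_mul, h0, mul_zero, Matrix.det_one] at this
  exact zero_ne_one this

theorem FrD_rank (F B : Mat n) (θ α : V n) (q : ℝ) :
    (((Fᵀ * B) *ᵥ θ) ⬝ᵥ α) * ((-(q / 2) • (Fᵀ *ᵥ θ)) ⬝ᵥ α) =
      -(α ⬝ᵥ ((Fᵀ * B * ((q / 2) • vecMulVec θ θ) * F) *ᵥ α)) := by
  have e1 : (Fᵀ * B * ((q / 2) • vecMulVec θ θ) * F) *ᵥ α =
      ((q / 2) * ((Fᵀ *ᵥ θ) ⬝ᵥ α)) • ((Fᵀ * B) *ᵥ θ) := by
    rw [← Matrix.mulVec_mulVec, ← Matrix.mulVec_mulVec, Matrix.smul_mulVec,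
      Matrix.vecMulVec_mulVec, Matrix.mulVec_transpose, ← Matrix.dotProduct_mulVec,
      op_smul_eq_smul, smul_smul, Matrix.mulVec_smul]
  rw [e1, dotProduct_smul, smul_dotProduct, dotProduct_comm α]
  simp only [smul_eq_mul]
  ring

theorem FrD_S {C C₁ C₂ Rh : Mat n} {θ : V n} {r r₁ r₂ q ν : ℝ} (hν : ν * r = 2 * r₁)
    (hr : r₂ + q * r = -1)
    (hC : C₂ + Ly ((2 : ℝ) • Rh - q • (1 - vecMulVec θ θ)) C = -1) :
    (r₂ • C + r₁ • C₁ + (r₁ • C₁ + r • C₂)) - ν • (r₁ • C + r • C₁) + (ν ^ 2 / 2) • (r • C) +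
      (Rh + (q / 2) • vecMulVec θ θ)ᵀ * (r • C) + (r • C) * (Rh + (q / 2) • vecMulVec θ θ) =
      -C - r • (1 : Mat n) := by
  have hT : (vecMulVec θ θ)ᵀ = vecMulVec θ θ := Matrix.transpose_vecMulVec θ θ
  have h2 : C₂ = -1 - Ly ((2 : ℝ) • Rh - q • (1 - vecMulVec θ θ)) C := eq_sub_of_add_eq hC
  have h3 : r₂ = -1 - q * r := eq_sub_of_add_eq hr
  have h4 : r₁ = ν * r / 2 := by linarith
  rw [h2, h3, h4]
  simp only [Ly, Matrix.transpose_add, Matrix.transpose_sub, Matrix.transpose_smul, hT,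
    Matrix.transpose_one, Matrix.add_mul, Matrix.mul_add, Matrix.sub_mul, Matrix.mul_sub,
    Matrix.smul_mul, Matrix.mul_smul, Matrix.one_mul, Matrix.mul_one]
  module

/-- Sketch: `par_frame`, `idx_frame`, `bvp`, `bvp1`; `B = r • C`, `root_frame`, `E = P F`,
`exists_inv`; `ν = 2 r' ι(r)` with `exists_smooth_inv`; `lam t = ∫ s in 0..t, ν s - dvg (c s)`;
`l = -(q / 2) • Fᵀ θ`; `frame_coef`, `form_pos` with `R = Rh + (q / 2) • θ θᵀ`, where
`S = -C - r • 1`. -/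
theorem frame (h : RM g) (hc : Sm c) (hab : a ≤ b)
    (hgeo : ∀ t ∈ Icc a b, HasDerivAt c (spray g (c t)) t)
    (hI : IdxPos g (fun t => (c t).1) (fun t => (c t).2) a b) :
    ∃ (E G : ℝ → Mat n) (lam : ℝ → ℝ) (l : ℝ → V n), MSm E ∧ MSm G ∧ Sm lam ∧ Sm l ∧
      ∀ t ∈ Icc a b, (∀ᶠ s in 𝓝 t, E s * G s = 1) ∧
        ∀ α β : V n, (α, β) ≠ 0 → 0 < QF g E G lam l t (c t) α β := by
  obtain ⟨q, hq, hI1, hI2⟩ := hI
  obtain ⟨P, hP, hP1, hP2⟩ := par_frame h hc hab hgeo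
  have hIdx : Idx (Aq g c P q) a b := idx_frame h hc hab hP hP1 hP2 hI2
  obtain ⟨C, hC, hCs, hC1⟩ := bvp (sm_Aq h hc hP hq) hab hIdx
  obtain ⟨r, hr, hr1⟩ := bvp1 hq hab hI1
  have hB : MSm fun t => r t • C t := hC.smul hr
  have hBs : ∀ t, ((fun t => r t • C t) t)ᵀ = (fun t => r t • C t) t := fun t => by
    simp only [Matrix.transpose_smul, hCs]
  have hBp : ∀ t ∈ Icc a b, ∀ e : V n, e ≠ 0 → 0 < e ⬝ᵥ ((fun t => r t • C t) t *ᵥ e) := by
    intro t ht e he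
    simp only [Matrix.smul_mulVec, dotProduct_smul, smul_eq_mul]
    exact mul_pos (hr1 t ht).1 ((hC1 t ht).1 e he)
  obtain ⟨F, hF, hF1⟩ := root_frame hB hBs hab hBp
  have hE : MSm fun s => P s * F s := hP.mul hF
  obtain ⟨G, hG, hG1⟩ := exists_inv hE (a := a) (b := b) fun t ht => by
    rw [Matrix.det_mul]
    exact mul_ne_zero (FrD_det (hP2 t ht)) (FrD_det (hF1 t ht).self_of_nhds.1)
  obtain ⟨t₀, ht₀, hmin⟩ := isCompact_Icc.exists_isMinOn (nonempty_Icc.2 hab)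
    hr.continuous.continuousOn
  obtain ⟨ι, hι, hι1⟩ := exists_smooth_inv (hr1 t₀ ht₀).1
  have hr' : Sm (deriv r) := (contDiff_infty_iff_deriv.1 hr).2
  have hν : Sm fun s => 2 * deriv r s * ι (r s) := (contDiff_const.mul hr').mul (hι.comp hr)
  have hf : Sm fun s => 2 * deriv r s * ι (r s) - dvg (spray g) (c s) :=
    hν.sub ((sm_dvg h.sm_spray).comp hc)
  obtain ⟨hl1, hl2⟩ := FrD_prim hf
  have hl : Sm fun t => -(q t / 2) • ((F t)ᵀ *ᵥ thv g c P t) :=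
    (hq.div_const 2).neg.smul (hF.tr.mulVec (sm_thv h hc hP))
  refine ⟨fun s => P s * F s, G, _, _, hE, hG, hl1, hl, fun t ht => ⟨hG1 t ht, fun α β h0 => ?_⟩⟩
  have hn : ∀ᶠ s in 𝓝 t, md P s = -(Gv g (c s) * P s) := by
    filter_upwards [Icc_mem_nhds (show a - 1 < t by linarith [ht.1])
      (show t < b + 1 by linarith [ht.2])] with s hs using hP1 s hs
  obtain ⟨e1, e2, e3⟩ := frame_coef h hc hP hF hB hBs (hgeo t ht) hn (hP2 t ht) (hF1 t ht)
    (hG1 t ht).self_of_nhds rfl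
  have d1 : md (fun t => r t • C t) = fun t => deriv r t • C t + r t • md C t :=
    funext fun s => md_smul hr hC s
  have d2 : md (md fun t => r t • C t) t = deriv (deriv r) t • C t + deriv r t • md C t +
      (deriv r t • md C t + r t • md (md C) t) := by
    rw [d1, md_add (hC.smul hr') (hC.md.smul hr), md_smul hr' hC, md_smul hr hC.md]
  have hs₁ : (md (fun t => r t • C t) t)ᵀ = md (fun t => r t • C t) t := by
    rw [← md_tr]
    exact congrArg (fun X => md X t) (funext hBs)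
  have hνr : 2 * deriv r t * ι (r t) * r t = 2 * deriv r t := by
    rw [mul_assoc, hι1 (r t) ((hmin ht).trans (le_abs_self _)), mul_one]
  have key := form_pos (F := F t) (B := r t • C t) (B₁ := md (fun t => r t • C t) t)
    (B₂ := md (md fun t => r t • C t) t)
    (R := Rh g c P t + (q t / 2) • vecMulVec (thv g c P t) (thv g c P t))
    (ν := 2 * deriv r t * ι (r t)) (hF1 t ht).self_of_nhds.1 (hBs t) hs₁ (fun e he => by
      rw [d2, d1]
      simp only []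
      rw [FrD_S hνr (hr1 t ht).2 (hC1 t ht).2, Matrix.sub_mulVec, Matrix.neg_mulVec,
        Matrix.smul_mulVec, Matrix.one_mulVec, dotProduct_sub, dotProduct_neg, dotProduct_smul,
        smul_eq_mul]
      have p1 := (hC1 t ht).1 e he
      have p2 : 0 ≤ e ⬝ᵥ e := Finset.sum_nonneg fun i _ => mul_self_nonneg (e i)
      nlinarith [(hr1 t ht).1]) rfl h0
  unfold QF
  rw [e1, e2, e3, hl2, FrD_rank, sub_add_cancel]
  rw [Matrix.mul_add, Matrix.add_mul, ← sub_sub, Matrix.sub_mulVec, dotProduct_sub] at key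
  linarith

end Pool.Agent.Lib.MP_45f3cb_gt.Fa
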