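import Pool.Agent.Lib.MP_45f3cb_gt.Fa.GeoA

/-!
Positivity of the quadratic form near a segment.
-/

open Set MeasureTheory Filter Topology Matrix

namespace Pool.Agent.Lib.MP_45f3cb_gt.Fa

variable {n : ℕ} {g : V n → Mat n}

theorem GeoC_nonneg (α : V n) : 0 ≤ α ⬝ᵥ α := Finset.sum_nonneg fun i _ => mul_self_nonneg (α i)

theorem GeoC_norm {α : V n} (h : α ⬝ᵥ α ≤ 1) : ‖α‖ ≤ 1 := by
  refine (pi_norm_le_iff_of_nonneg zero_le_one).2 fun i => ?_
  have h1 : α i * α i ≤ α ⬝ᵥ α :=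
    Finset.single_le_sum (f := fun i => α i * α i) (fun i _ => mul_self_nonneg (α i))
      (Finset.mem_univ i)
  exact abs_le_one_iff_mul_self_le_one.2 (h1.trans h)

theorem GeoC_compact : IsCompact {p : V n × V n | p.1 ⬝ᵥ p.1 + p.2 ⬝ᵥ p.2 = 1} := by
  refine (isCompact_closedBall (0 : V n × V n) 1).of_isClosed_subset
    (isClosed_eq ((continuous_fst.dotProduct continuous_fst).add
      (continuous_snd.dotProduct continuous_snd)) continuous_const) fun p hp => ?_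
  have h0 : p.1 ⬝ᵥ p.1 + p.2 ⬝ᵥ p.2 = 1 := hp
  have h1 := GeoC_nonneg p.1
  have h2 := GeoC_nonneg p.2
  rw [mem_closedBall_zero_iff, Prod.norm_def]
  exact max_le (GeoC_norm (by linarith)) (GeoC_norm (by linarith))

theorem GeoC_mat {E : Type} [NormedAddCommGroup E] [NormedSpace ℝ E] {A : E → Mat n} (h : MSm A) :
    Continuous A := continuous_matrix fun i j => (h i j).continuous

theorem GeoC_cont (h : RM g) {E G : ℝ → Mat n} {lam : ℝ → ℝ} {l : ℝ → V n} (hE : MSm E)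
    (hG : MSm G) (hlam : Sm lam) (hl : Sm l) {X : Type} [TopologicalSpace X] {t : X → ℝ}
    {z : X → Z n} {α β : X → V n} (ht : Continuous t) (hz : Continuous z) (hα : Continuous α)
    (hβ : Continuous β) : Continuous fun x => QF g E G lam l (t x) (z x) (α x) (β x) := by
  have h1 : Continuous fun x => Mt g E G (t x) (z x) :=
    (GeoC_mat (h.sm_Mt hE hG)).comp (ht.prodMk hz)
  have h2 : Continuous fun x => Lt g E G (t x) (z x) :=
    (GeoC_mat (h.sm_Lt hE hG)).comp (ht.prodMk hz)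
  have h3 : Continuous fun x => deriv lam (t x) :=
    (ContDiff.continuous_deriv hlam (by simp)).comp ht
  have h4 : Continuous fun x => dvg (spray g) (z x) := (sm_dvg h.sm_spray).continuous.comp hz
  have h5 : Continuous fun x => G (t x) := (GeoC_mat hG).comp ht
  have h6 : Continuous fun x => l (t x) := hl.continuous.comp ht
  exact ((((hβ.dotProduct hβ).add (hβ.dotProduct (h1.matrix_mulVec hα))).add
    ((h3.add h4).mul (hα.dotProduct hβ))).add (hα.dotProduct (h2.matrix_mulVec hα))).add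
    (((h5.matrix_mulVec hz.snd).dotProduct hα).mul (h6.dotProduct hα))

theorem GeoC_hom (E G : ℝ → Mat n) (lam : ℝ → ℝ) (l : ℝ → V n) (t : ℝ) (z : Z n) (α β : V n)
    (r : ℝ) : QF g E G lam l t z (r • α) (r • β) = r ^ 2 * QF g E G lam l t z α β := by
  simp only [QF, Matrix.mulVec_smul, smul_dotProduct, dotProduct_smul, smul_eq_mul]
  ring

/-- Sketch: `QF` is continuous in `(t, z, α, β)` and homogeneous of degree two in `(α, β)`; it has
a positive minimum on `Icc a b × sphere` along the curve; tube lemma (`IsCompact.eventually_forall_of_forall_eventually`)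
in the variables `(s, ζ)` for `t + s`, `c (t + s) + ζ`. -/
theorem pos_ext (h : RM g) {E G : ℝ → Mat n} {lam : ℝ → ℝ} {l : ℝ → V n} (hE : MSm E) (hG : MSm G)
    (hlam : Sm lam) (hl : Sm l) {c : ℝ → Z n} (hc : Continuous c) {a b : ℝ} (hab : a ≤ b)
    (hp : ∀ t ∈ Icc a b, (∀ᶠ s in 𝓝 t, E s * G s = 1) ∧
      ∀ α β : V n, (α, β) ≠ 0 → 0 < QF g E G lam l t (c t) α β) :
    ∃ ε c₀ : ℝ, 0 < ε ∧ 0 < c₀ ∧ ∀ t ∈ Icc (a - ε) (b + ε), E t * G t = 1 ∧
      ∀ z, dist z (c t) ≤ ε → ∀ α β, c₀ * (α ⬝ᵥ α + β ⬝ᵥ β) ≤ QF g E G lam l t z α β := by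
  have hK := (isCompact_Icc (a := a) (b := b)).prod (GeoC_compact (n := n))
  obtain ⟨m, hm, hm'⟩ := hK.exists_forall_le' (a := (0 : ℝ))
    (f := fun k : ℝ × V n × V n => QF g E G lam l k.1 (c k.1) k.2.1 k.2.2)
    (GeoC_cont h hE hG hlam hl continuous_fst (hc.comp continuous_fst) continuous_snd.fst
      continuous_snd.snd).continuousOn (fun k hk => (hp k.1 hk.1).2 _ _ fun e => by
        have h0 : k.2.1 ⬝ᵥ k.2.1 + k.2.2 ⬝ᵥ k.2.2 = 1 := hk.2
        rw [Prod.mk_eq_zero] at e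
        simp [e.1, e.2] at h0)
  have e1 : ∀ᶠ q : ℝ × Z n in 𝓝 0, ∀ k ∈ Icc a b ×ˢ {p : V n × V n | p.1 ⬝ᵥ p.1 + p.2 ⬝ᵥ p.2 = 1},
      m / 2 < QF g E G lam l (k.1 + q.1) (c (k.1 + q.1) + q.2) k.2.1 k.2.2 := by
    refine hK.eventually_forall_of_forall_eventually fun k hk => ?_
    have h1 : Continuous fun w : (ℝ × Z n) × ℝ × V n × V n => w.2.1 + w.1.1 :=
      continuous_snd.fst.add continuous_fst.fst
    have h2 : Continuous fun w : (ℝ × Z n) × ℝ × V n × V n =>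
        QF g E G lam l (w.2.1 + w.1.1) (c (w.2.1 + w.1.1) + w.1.2) w.2.2.1 w.2.2.2 :=
      GeoC_cont h hE hG hlam hl h1 ((hc.comp h1).add continuous_fst.snd) continuous_snd.snd.fst
        continuous_snd.snd.snd
    refine h2.continuousAt.eventually (lt_mem_nhds ?_)
    have := hm' k hk
    simp only [Prod.fst_zero, Prod.snd_zero, add_zero]
    linarith
  have e2 : ∀ᶠ q : ℝ × Z n in 𝓝 0, ∀ t ∈ Icc a b, E (t + q.1) * G (t + q.1) = 1 := by
    refine isCompact_Icc.eventually_forall_of_forall_eventually fun t ht => ?_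
    have h1 : Continuous fun w : (ℝ × Z n) × ℝ => w.2 + w.1.1 :=
      continuous_snd.add continuous_fst.fst
    refine (h1.tendsto' _ t (by simp)).eventually (hp t ht).1
  obtain ⟨ε, hε, hb⟩ := Metric.eventually_nhds_iff.1 (e1.and e2)
  refine ⟨ε / 2, m / 2, by positivity, by positivity, fun t ht => ?_⟩
  have ht0 : max a (min t b) ∈ Icc a b := ⟨le_max_left _ _, max_le hab (min_le_right _ _)⟩
  have hs : |t - max a (min t b)| ≤ ε / 2 := by
    obtain ⟨h1, h2⟩ := ht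
    rw [abs_le]
    rcases le_total t b with h3 | h3 <;> rcases le_total a t with h4 | h4 <;>
      simp only [h3, h4, hab, min_eq_left, min_eq_right, max_eq_left, max_eq_right] <;>
      constructor <;> linarith
  have hq : ∀ ζ : Z n, ‖ζ‖ ≤ ε / 2 → dist ((t - max a (min t b), ζ) : ℝ × Z n) 0 < ε := by
    intro ζ hζ
    rw [dist_zero_right, Prod.norm_def]
    exact max_lt (hs.trans_lt (by linarith)) (hζ.trans_lt (by linarith))
  refine ⟨by simpa using (hb (hq 0 (by simp; positivity))).2 _ ht0, fun z hz α β => ?_⟩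
  have h1 := (hb (hq (z - c t) (by rwa [← dist_eq_norm]))).1
  have hN : 0 ≤ α ⬝ᵥ α + β ⬝ᵥ β := add_nonneg (GeoC_nonneg α) (GeoC_nonneg β)
  rcases hN.eq_or_lt with h0 | h0
  · have hα : α = 0 := dotProduct_self_eq_zero.1 (by linarith [GeoC_nonneg α, GeoC_nonneg β])
    have hβ : β = 0 := dotProduct_self_eq_zero.1 (by linarith [GeoC_nonneg α, GeoC_nonneg β])
    simp [hα, hβ, QF]
  · have hr : (√(α ⬝ᵥ α + β ⬝ᵥ β))⁻¹ ^ 2 * (α ⬝ᵥ α + β ⬝ᵥ β) = 1 := by
      rw [inv_pow, Real.sq_sqrt hN, inv_mul_cancel₀ h0.ne']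
    have h2 := h1 (max a (min t b), (√(α ⬝ᵥ α + β ⬝ᵥ β))⁻¹ • α, (√(α ⬝ᵥ α + β ⬝ᵥ β))⁻¹ • β)
      ⟨ht0, by
        change _ ⬝ᵥ _ + _ ⬝ᵥ _ = (1 : ℝ)
        simp only [smul_dotProduct, dotProduct_smul, smul_eq_mul]
        linear_combination hr⟩
    simp only [add_sub_cancel, GeoC_hom] at h2
    have h3 := mul_lt_mul_of_pos_right h2 h0
    have h4 : (√(α ⬝ᵥ α + β ⬝ᵥ β))⁻¹ ^ 2 * QF g E G lam l t z α β * (α ⬝ᵥ α + β ⬝ᵥ β) =
        QF g E G lam l t z α β := by linear_combination QF g E G lam l t z α β * hr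
    rw [h4] at h3
    exact h3.le

end Pool.Agent.Lib.MP_45f3cb_gt.Fa
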