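import Mathlib

/-!
Abstract jet algebra: definitions and the level seminorms.
-/

namespace Pool.Agent.Lib.MP_45f3cb_gt.Fa

/-- a jet algebra -/
structure Jet (n : ℕ) (M : Type) [AddCommGroup M] [Module ℝ M] where
  D : Fin n → Module.End ℝ M
  Y : Fin n → Module.End ℝ M
  B : M →ₗ[ℝ] M →ₗ[ℝ] ℝ
  DD : ∀ a b P, D a (D b P) = D b (D a P)
  DY : ∀ a b P, D a (Y b P) = Y b (D a P) + if a = b then P else 0
  sym : ∀ P Q, B P Q = B Q P
  pos : ∀ P, 0 ≤ B P P
  BY : ∀ a P Q, B (Y a P) Q = 0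

namespace Jet

variable {n : ℕ} {M : Type} [AddCommGroup M] [Module ℝ M] (J : Jet n M)

/-- the inner product of level `k` -/
noncomputable def ip : ℕ → M →ₗ[ℝ] M →ₗ[ℝ] ℝ
  | 0 => J.B
  | k + 1 => (1 / ((k : ℝ) + 1)) • ∑ a, (ip k).compl₁₂ (J.D a) (J.D a)

/-- the seminorm of level `k` -/
noncomputable def nm (k : ℕ) (P : M) : ℝ := Real.sqrt (J.ip k P P)

/-- `K'` is adjoint to `K` on all levels -/
def Adj (K K' : Module.End ℝ M) : Prop := ∀ k P Q, J.ip k (K P) Q = J.ip k P (K' Q)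

/-- bounded on all levels -/
def Bd (C : ℝ) (K : Module.End ℝ M) : Prop := ∀ k P, J.nm k (K P) ≤ C * J.nm k P

/-- commutes with the derivations -/
def CD (K : Module.End ℝ M) : Prop := ∀ a P, J.D a (K P) = K (J.D a P)

/-- a bounded multiplier -/
structure Mul (C : ℝ) (K : Module.End ℝ M) : Prop where
  adj : J.Adj K K
  cd : J.CD K
  bd : J.Bd C K

/-- bounded by the level -/
def Eu (C : ℝ) (K : Module.End ℝ M) : Prop :=
  ∀ (k : ℕ) P, J.nm k (K P) ≤ C * ((k : ℝ) + 1) * J.nm k P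

/-- controlled by the frame operators -/
def Sml (W N : Fin n → Module.End ℝ M) (C L : ℝ) (K : Module.End ℝ M) : Prop :=
  ∀ (k : ℕ) P, J.nm k (K P) ≤
    C * (∑ c, J.nm k (W c P) + ∑ c, J.nm k (N c P) + ((k : ℝ) + 1 + L) * J.nm k P)

/-- controlled by the vertical frame operators -/
def Smv (N : Fin n → Module.End ℝ M) (C : ℝ) (K : Module.End ℝ M) : Prop :=
  ∀ (k : ℕ) P, J.nm k (K P) ≤ C * (∑ c, J.nm k (N c P) + ((k : ℝ) + 1) * J.nm k P)

/-- almost commutes with the derivations -/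
def DC (C : ℝ) (K : Module.End ℝ M) : Prop :=
  ∀ a k P, J.nm k (J.D a (K P) - K (J.D a P)) ≤ C * ∑ e, J.nm k (J.D e P)

/-- almost commutes with the multiplications -/
def YC (C : ℝ) (K : Module.End ℝ M) : Prop :=
  ∀ a (k : ℕ) P, J.nm (k + 1) (K (J.Y a P) - J.Y a (K P)) ≤ C * Real.sqrt ((k : ℝ) + 1) * J.nm k P

theorem ip_zero (P Q : M) : J.ip 0 P Q = J.B P Q := rfl

theorem ip_succ (k : ℕ) (P Q : M) :
    J.ip (k + 1) P Q = (1 / ((k : ℝ) + 1)) * ∑ a, J.ip k (J.D a P) (J.D a Q) := by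
  simp [ip, LinearMap.sum_apply]

theorem ip_symm (k : ℕ) (P Q : M) : J.ip k P Q = J.ip k Q P := by
  induction k generalizing P Q with
  | zero => exact J.sym P Q
  | succ k ih => simp only [ip_succ, ih (J.D _ P)]

theorem ip_nonneg (k : ℕ) (P : M) : 0 ≤ J.ip k P P := by
  induction k generalizing P with
  | zero => exact J.pos P
  | succ k ih =>
    rw [ip_succ]
    exact mul_nonneg (by positivity) (Finset.sum_nonneg fun a _ => ih _)

theorem nm_nonneg (k : ℕ) (P : M) : 0 ≤ J.nm k P := Real.sqrt_nonneg _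

theorem nm_sq (k : ℕ) (P : M) : J.nm k P ^ 2 = J.ip k P P := Real.sq_sqrt (J.ip_nonneg k P)

/-- Sketch: discriminant of `t ↦ ip k (P + t • Q) (P + t • Q)` (`discrim_le_zero`). -/
theorem abs_ip_le (k : ℕ) (P Q : M) : |J.ip k P Q| ≤ J.nm k P * J.nm k Q := by
  have h : ∀ t : ℝ, 0 ≤ J.ip k Q Q * (t * t) + 2 * J.ip k P Q * t + J.ip k P P := by
    intro t
    have h0 := J.ip_nonneg k (P + t • Q)
    simp only [map_add, map_smul, LinearMap.add_apply, LinearMap.smul_apply, smul_eq_mul,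
      J.ip_symm k Q P] at h0
    linarith
  have h1 := discrim_le_zero h
  rw [discrim] at h1
  refine abs_le_of_sq_le_sq' ?_ (mul_nonneg (J.nm_nonneg k P) (J.nm_nonneg k Q)) |> abs_le.2
  rw [mul_pow, nm_sq, nm_sq]
  nlinarith

theorem ip_le (k : ℕ) (P Q : M) : J.ip k P Q ≤ J.nm k P * J.nm k Q := by
  exact (le_abs_self _).trans (J.abs_ip_le k P Q)

theorem nm_zero (k : ℕ) : J.nm k 0 = 0 := by
  simp [nm]

theorem nm_smul (k : ℕ) (c : ℝ) (P : M) : J.nm k (c • P) = |c| * J.nm k P := by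
  simp only [nm, map_smul, LinearMap.smul_apply, smul_eq_mul]
  rw [← mul_assoc, Real.sqrt_mul (mul_self_nonneg c), Real.sqrt_mul_self_eq_abs]

theorem nm_neg (k : ℕ) (P : M) : J.nm k (-P) = J.nm k P := by
  simp [nm]

theorem nm_add_le (k : ℕ) (P Q : M) : J.nm k (P + Q) ≤ J.nm k P + J.nm k Q := by
  refine Real.sqrt_le_iff.2 ⟨add_nonneg (J.nm_nonneg k P) (J.nm_nonneg k Q), ?_⟩
  have h := J.ip_le k P Q
  simp only [map_add, LinearMap.add_apply, J.ip_symm k Q P]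
  rw [add_sq, nm_sq, nm_sq]
  linarith

theorem nm_sub_le (k : ℕ) (P Q : M) : J.nm k (P - Q) ≤ J.nm k P + J.nm k Q := by
  rw [sub_eq_add_neg, ← J.nm_neg k Q]
  exact J.nm_add_le k P (-Q)

theorem nm_sub_comm (k : ℕ) (P Q : M) : J.nm k (P - Q) = J.nm k (Q - P) := by
  rw [← J.nm_neg k (P - Q), neg_sub]

theorem nm_le_add_sub (k : ℕ) (P Q : M) : J.nm k P ≤ J.nm k Q + J.nm k (P - Q) := by
  have h := J.nm_add_le k Q (P - Q)
  rwa [add_sub_cancel] at h

theorem nm_sum_le {ι : Type} (s : Finset ι) (k : ℕ) (P : ι → M) :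
    J.nm k (∑ i ∈ s, P i) ≤ ∑ i ∈ s, J.nm k (P i) := by
  classical
  induction s using Finset.induction_on with
  | empty => simp [nm_zero]
  | insert a s ha ih =>
    rw [Finset.sum_insert ha, Finset.sum_insert ha]
    exact (J.nm_add_le k _ _).trans (by linarith)

theorem nm_le_of_sq {k : ℕ} {P : M} {r : ℝ} (hr : 0 ≤ r) (h : J.ip k P P ≤ r ^ 2) :
    J.nm k P ≤ r := by
  exact Real.sqrt_le_iff.2 ⟨hr, h⟩

theorem ip_le_of_nm {k : ℕ} {P : M} {r : ℝ} (h : J.nm k P ≤ r) : J.ip k P P ≤ r ^ 2 := by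
  rw [← nm_sq]
  exact pow_le_pow_left₀ (J.nm_nonneg k P) h 2

theorem ip_add_le (k : ℕ) (P Q : M) :
    J.ip k (P + Q) (P + Q) ≤ 2 * J.ip k P P + 2 * J.ip k Q Q := by
  have h := J.ip_nonneg k (P - Q)
  simp only [map_add, map_sub, LinearMap.add_apply, LinearMap.sub_apply, J.ip_symm k Q P] at h ⊢
  linarith

/-- Sketch: `nm_sum_le`, `nm_smul`, `Finset.sum_mul_sq_le_sq_mul_sq`. -/
theorem ip_comb_le {ι : Type} [Fintype ι] (k : ℕ) (c : ι → ℝ) (P : ι → M) :
    J.ip k (∑ i, c i • P i) (∑ i, c i • P i) ≤ (∑ i, c i ^ 2) * ∑ i, J.ip k (P i) (P i) := by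
  have h := J.nm_sum_le Finset.univ k fun i => c i • P i
  simp only [nm_smul] at h
  refine (J.ip_le_of_nm h).trans ?_
  have h2 := Finset.sum_mul_sq_le_sq_mul_sq Finset.univ (fun i => |c i|) fun i => J.nm k (P i)
  simpa only [sq_abs, nm_sq] using h2

theorem ip_null {k : ℕ} {P : M} (h : J.nm k P = 0) (Q : M) : J.ip k P Q = 0 := by
  have h1 := J.abs_ip_le k P Q
  rw [h, zero_mul] at h1
  exact abs_nonpos_iff.1 h1

theorem ip_null' {k : ℕ} {Q : M} (h : J.nm k Q = 0) (P : M) : J.ip k P Q = 0 := by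
  rw [ip_symm]
  exact J.ip_null h P

theorem nm_congr {k : ℕ} {P Q : M} (h : J.nm k (P - Q) = 0) : J.nm k P = J.nm k Q := by
  have h1 := J.nm_le_add_sub k P Q
  have h2 := J.nm_le_add_sub k Q P
  rw [← J.nm_sub_comm k P Q] at h2
  linarith

theorem ip_congr {k : ℕ} {P Q : M} (h : J.nm k (P - Q) = 0) (R : M) :
    J.ip k P R = J.ip k Q R := by
  have h1 := J.ip_null h R
  rwa [map_sub, LinearMap.sub_apply, sub_eq_zero] at h1

variable {J}

theorem Bd.mono {K : Module.End ℝ M} {C C' : ℝ} (h : J.Bd C K) (hC : C ≤ C') : J.Bd C' K := by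
  exact fun k P => (h k P).trans (mul_le_mul_of_nonneg_right hC (J.nm_nonneg k P))

theorem Mul.mono {K : Module.End ℝ M} {C C' : ℝ} (h : J.Mul C K) (hC : C ≤ C') : J.Mul C' K := by
  exact ⟨h.adj, h.cd, h.bd.mono hC⟩

theorem Eu.mono {K : Module.End ℝ M} {C C' : ℝ} (h : J.Eu C K) (hC : C ≤ C') : J.Eu C' K := by
  exact fun k P => (h k P).trans (mul_le_mul_of_nonneg_right
    (mul_le_mul_of_nonneg_right hC (by positivity)) (J.nm_nonneg k P))

theorem Sml.mono {W N : Fin n → Module.End ℝ M} {K : Module.End ℝ M} {C C' L : ℝ} (hL : 0 ≤ L)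
    (h : J.Sml W N C L K) (hC : C ≤ C') : J.Sml W N C' L K := by
  exact fun k P => (h k P).trans (mul_le_mul_of_nonneg_right hC (add_nonneg (add_nonneg
    (Finset.sum_nonneg fun c _ => J.nm_nonneg _ _) (Finset.sum_nonneg fun c _ => J.nm_nonneg _ _))
    (mul_nonneg (by positivity) (J.nm_nonneg k P))))

theorem Smv.mono {N : Fin n → Module.End ℝ M} {K : Module.End ℝ M} {C C' : ℝ}
    (h : J.Smv N C K) (hC : C ≤ C') : J.Smv N C' K := by
  exact fun k P => (h k P).trans (mul_le_mul_of_nonneg_right hC (add_nonneg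
    (Finset.sum_nonneg fun c _ => J.nm_nonneg _ _) (mul_nonneg (by positivity) (J.nm_nonneg k P))))

theorem DC.mono {K : Module.End ℝ M} {C C' : ℝ} (h : J.DC C K) (hC : C ≤ C') : J.DC C' K := by
  exact fun a k P => (h a k P).trans
    (mul_le_mul_of_nonneg_right hC (Finset.sum_nonneg fun c _ => J.nm_nonneg _ _))

theorem YC.mono {K : Module.End ℝ M} {C C' : ℝ} (h : J.YC C K) (hC : C ≤ C') : J.YC C' K := by
  exact fun a k P => (h a k P).trans (mul_le_mul_of_nonneg_right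
    (mul_le_mul_of_nonneg_right hC (Real.sqrt_nonneg _)) (J.nm_nonneg k P))

end Jet

/-- a common constant for finitely many monotone properties -/
theorem exists_const {ι : Type} [Finite ι] {p : ι → ℝ → Prop} (h : ∀ i, ∃ C, p i C)
    (hm : ∀ i C C', p i C → C ≤ C' → p i C') : ∃ C, 1 ≤ C ∧ ∀ C', C ≤ C' → ∀ i, p i C' := by
  choose c hc using h
  obtain ⟨B, hB⟩ := (Set.finite_range c).bddAbove
  exact ⟨max 1 B, le_max_left _ _, fun C' hC i => hm i _ _ (hc i)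
    ((hB ⟨i, rfl⟩).trans ((le_max_right _ _).trans hC))⟩

end Pool.Agent.Lib.MP_45f3cb_gt.Fa
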