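import Pool.Agent.Lib.MP_45f3cb_gt.Fa.JetA

/-!
Abstract jet algebra: creation and annihilation operators, adjoints.
-/

namespace Pool.Agent.Lib.MP_45f3cb_gt.Fa

namespace Jet

variable {n : ℕ} {M : Type} [AddCommGroup M] [Module ℝ M] (J : Jet n M)

theorem ip_Y_zero (a : Fin n) (P Q : M) : J.ip 0 (J.Y a P) Q = 0 := J.BY a P Q

theorem JetB_sum_D (k : ℕ) (P Q : M) :
    ∑ a, J.ip k (J.D a P) (J.D a Q) = ((k : ℝ) + 1) * J.ip (k + 1) P Q := by
  rw [ip_succ]
  have h : (k : ℝ) + 1 ≠ 0 := by positivity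
  field_simp

theorem JetB_ip_DY (k : ℕ) (a b : Fin n) (P Q : M) :
    J.ip k (J.D b (J.Y a P)) Q = J.ip k (J.Y a (J.D b P)) Q + if b = a then J.ip k P Q else 0 := by
  rw [J.DY, map_add, LinearMap.add_apply]
  split_ifs <;> simp

theorem JetB_ip_DY' (k : ℕ) (a b : Fin n) (P Q : M) :
    J.ip k Q (J.D b (J.Y a P)) = J.ip k (J.Y a (J.D b P)) Q + if b = a then J.ip k Q P else 0 := by
  rw [J.ip_symm k Q, JetB_ip_DY, J.ip_symm k Q P]

/-- Sketch: induction on `k`; `DY`, `DD`, `ip_succ`. -/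
theorem ip_Y (k : ℕ) (a : Fin n) (P Q : M) : J.ip (k + 1) (J.Y a P) Q = J.ip k P (J.D a Q) := by
  induction k generalizing P Q with
  | zero =>
    rw [ip_succ]
    simp only [JetB_ip_DY, ip_Y_zero, zero_add, Finset.sum_ite_eq', Finset.mem_univ, if_true]
    simp
  | succ k ih =>
    rw [ip_succ]
    simp only [JetB_ip_DY, ih, Finset.sum_add_distrib, Finset.sum_ite_eq', Finset.mem_univ,
      if_true]
    simp only [J.DD a]
    rw [JetB_sum_D]
    have h : (k : ℝ) + 1 + 1 ≠ 0 := by positivity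
    push_cast
    field_simp

theorem sum_D (k : ℕ) (P Q : M) :
    ∑ a, J.ip k (J.D a P) (J.D a Q) = ((k : ℝ) + 1) * J.ip (k + 1) P Q := by
  exact JetB_sum_D J k P Q

theorem JetB_ip_D_le (k : ℕ) (a : Fin n) (P : M) :
    J.ip k (J.D a P) (J.D a P) ≤ ((k : ℝ) + 1) * J.ip (k + 1) P P := by
  rw [← sum_D]
  exact Finset.single_le_sum (f := fun b => J.ip k (J.D b P) (J.D b P))
    (fun b _ => J.ip_nonneg k _) (Finset.mem_univ a)

theorem JetB_nm_le {k l : ℕ} {P Q : M} {c : ℝ} (hc : 0 ≤ c)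
    (h : J.ip k P P ≤ c * J.ip l Q Q) : J.nm k P ≤ Real.sqrt c * J.nm l Q := by
  unfold nm
  rw [← Real.sqrt_mul hc]
  exact Real.sqrt_le_sqrt h

theorem nm_D_le (k : ℕ) (a : Fin n) (P : M) :
    J.nm k (J.D a P) ≤ Real.sqrt ((k : ℝ) + 1) * J.nm (k + 1) P := by
  exact JetB_nm_le J (by positivity) (JetB_ip_D_le J k a P)

/-- Sketch: `|Y P|² = ⟨P, D Y P⟩ = |P|² + ⟨P, Y D P⟩`, and the last term is `0` or `|D P|²` one
level lower. -/
theorem nm_Y_le (k : ℕ) (a : Fin n) (P : M) :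
    J.nm (k + 1) (J.Y a P) ≤ Real.sqrt ((k : ℝ) + 1) * J.nm k P := by
  refine JetB_nm_le J (by positivity) ?_
  rw [ip_Y, JetB_ip_DY', if_pos rfl]
  cases k with
  | zero => simp [ip_Y_zero]
  | succ j =>
    rw [ip_Y]
    have h := JetB_ip_D_le J j a P
    push_cast
    linarith

theorem nm_Y_zero (a : Fin n) (P : M) : J.nm 0 (J.Y a P) = 0 := by
  unfold nm
  rw [ip_Y_zero, Real.sqrt_zero]

theorem nm_YD_le (k : ℕ) (a b : Fin n) (P : M) : J.nm k (J.Y a (J.D b P)) ≤ k * J.nm k P := by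
  cases k with
  | zero => simp [nm_Y_zero]
  | succ j =>
    have h1 := J.nm_Y_le j a (J.D b P)
    have h2 := J.nm_D_le j b P
    have h3 : Real.sqrt ((j : ℝ) + 1) * Real.sqrt ((j : ℝ) + 1) = (j : ℝ) + 1 :=
      Real.mul_self_sqrt (by positivity)
    have h4 := mul_le_mul_of_nonneg_left h2 (Real.sqrt_nonneg ((j : ℝ) + 1))
    rw [← mul_assoc, h3] at h4
    push_cast
    linarith

theorem ip_sumY (k : ℕ) (B : Fin n → M) (Q : M) :
    J.ip (k + 1) (∑ b, J.Y b (B b)) Q = ∑ b, J.ip k (B b) (J.D b Q) := by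
  rw [map_sum, LinearMap.sum_apply]
  exact Finset.sum_congr rfl fun b _ => J.ip_Y k b _ Q

theorem ip_sumY_zero (B : Fin n → M) (Q : M) : J.ip 0 (∑ b, J.Y b (B b)) Q = 0 := by
  rw [map_sum, LinearMap.sum_apply]
  exact Finset.sum_eq_zero fun b _ => J.ip_Y_zero b _ Q

theorem sq_sumY_one (B : Fin n → M) :
    J.ip 1 (∑ b, J.Y b (B b)) (∑ b, J.Y b (B b)) = ∑ b, J.ip 0 (B b) (B b) := by
  rw [ip_sumY]
  refine Finset.sum_congr rfl fun b _ => ?_
  rw [map_sum, map_sum]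
  simp only [JetB_ip_DY', ip_Y_zero, zero_add, Finset.sum_ite_eq, Finset.mem_univ, if_true]

theorem sq_sumY (k : ℕ) (B : Fin n → M) :
    J.ip (k + 2) (∑ b, J.Y b (B b)) (∑ b, J.Y b (B b)) = ∑ b, J.ip (k + 1) (B b) (B b) +
      ∑ a, ∑ b, J.ip k (J.D a (B b)) (J.D b (B a)) := by
  rw [ip_sumY, ← Finset.sum_add_distrib]
  refine Finset.sum_congr rfl fun b _ => ?_
  rw [map_sum, map_sum]
  simp only [JetB_ip_DY', ip_Y, Finset.sum_add_distrib, Finset.sum_ite_eq, Finset.mem_univ,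
    if_true]
  rw [add_comm]

/-- Sketch: `2 |⟨x, y⟩| ≤ |x|² + |y|²`, `Finset.sum_comm`, `sum_D`. -/
theorem abs_curl_le (k : ℕ) (B : Fin n → M) :
    |∑ a, ∑ b, J.ip k (J.D a (B b)) (J.D b (B a))| ≤
      ((k : ℝ) + 1) * ∑ b, J.ip (k + 1) (B b) (B b) := by
  have h1 : ∀ x y : M, |J.ip k x y| ≤ (J.ip k x x + J.ip k y y) / 2 := by
    intro x y
    have h := J.abs_ip_le k x y
    rw [← nm_sq, ← nm_sq]
    nlinarith [sq_nonneg (J.nm k x - J.nm k y)]
  have h2 : ∑ b, ∑ a, J.ip k (J.D a (B b)) (J.D a (B b)) =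
      ((k : ℝ) + 1) * ∑ b, J.ip (k + 1) (B b) (B b) := by
    rw [Finset.mul_sum]
    exact Finset.sum_congr rfl fun b _ => J.sum_D k _ _
  have h3 : ∑ a, ∑ b, J.ip k (J.D a (B b)) (J.D a (B b)) =
      ((k : ℝ) + 1) * ∑ b, J.ip (k + 1) (B b) (B b) := by
    rw [Finset.sum_comm, h2]
  calc |∑ a, ∑ b, J.ip k (J.D a (B b)) (J.D b (B a))|
      ≤ ∑ a, ∑ b, (J.ip k (J.D a (B b)) (J.D a (B b)) +
          J.ip k (J.D b (B a)) (J.D b (B a))) / 2 := by
        refine (Finset.abs_sum_le_sum_abs _ _).trans (Finset.sum_le_sum fun a _ => ?_)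
        exact (Finset.abs_sum_le_sum_abs _ _).trans (Finset.sum_le_sum fun b _ => h1 _ _)
    _ = _ := by
        simp only [← Finset.sum_div, Finset.sum_add_distrib]
        rw [h2, h3]
        ring

theorem null_D {k : ℕ} {P : M} (h : J.nm (k + 1) P = 0) (a : Fin n) : J.nm k (J.D a P) = 0 := by
  have h1 := J.nm_D_le k a P
  rw [h, mul_zero] at h1
  exact le_antisymm h1 (J.nm_nonneg _ _)

variable {J}

theorem Adj.symm {K K' : Module.End ℝ M} (h : J.Adj K K') : J.Adj K' K := by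
  intro k P Q
  rw [J.ip_symm k (K' P), ← h, J.ip_symm]

theorem Adj.null {K K' : Module.End ℝ M} (h : J.Adj K K') {k : ℕ} {P : M} (hP : J.nm k P = 0) :
    J.nm k (K P) = 0 := by
  unfold nm
  rw [h, J.ip_null hP, Real.sqrt_zero]

theorem Adj.add {K K' L L' : Module.End ℝ M} (h : J.Adj K K') (h' : J.Adj L L') :
    J.Adj (K + L) (K' + L') := by
  intro k P Q
  simp only [LinearMap.add_apply, map_add, h k P Q, h' k P Q]

theorem Adj.sub {K K' L L' : Module.End ℝ M} (h : J.Adj K K') (h' : J.Adj L L') :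
    J.Adj (K - L) (K' - L') := by
  intro k P Q
  simp only [LinearMap.sub_apply, map_sub, h k P Q, h' k P Q]

theorem Adj.smul {K K' : Module.End ℝ M} (h : J.Adj K K') (c : ℝ) : J.Adj (c • K) (c • K') := by
  intro k P Q
  simp only [LinearMap.smul_apply, map_smul, h k P Q]

theorem Adj.mul {K K' L L' : Module.End ℝ M} (h : J.Adj K K') (h' : J.Adj L L') :
    J.Adj (K * L) (L' * K') := by
  intro k P Q
  rw [Module.End.mul_apply, Module.End.mul_apply, h, h']

theorem Adj.sum {ι : Type} (s : Finset ι) {K K' : ι → Module.End ℝ M}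
    (h : ∀ i ∈ s, J.Adj (K i) (K' i)) : J.Adj (∑ i ∈ s, K i) (∑ i ∈ s, K' i) := by
  intro k P Q
  simp only [LinearMap.sum_apply, map_sum]
  exact Finset.sum_congr rfl fun i hi => h i hi k P Q

theorem adj_YD (a b : Fin n) : J.Adj (J.Y a * J.D b) (J.Y b * J.D a) := by
  intro k P Q
  rw [Module.End.mul_apply, Module.End.mul_apply, J.ip_symm k P]
  cases k with
  | zero => rw [ip_Y_zero, ip_Y_zero]
  | succ j => rw [ip_Y, ip_Y, J.ip_symm]

/-- Sketch: induction on the level. -/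
theorem adj_lift {K K' : Module.End ℝ M} (h : J.CD K) (h' : J.CD K')
    (h0 : ∀ P Q, J.B (K P) Q = J.B P (K' Q)) : J.Adj K K' := by
  intro k
  induction k with
  | zero => exact h0
  | succ k ih =>
    intro P Q
    rw [ip_succ, ip_succ]
    congr 1
    exact Finset.sum_congr rfl fun a _ => by rw [h a, h' a, ih]

/-- Sketch: induction on the level for the squares. -/
theorem bd_lift {K : Module.End ℝ M} {C : ℝ} (hC : 0 ≤ C) (h : J.CD K)
    (h0 : ∀ P, J.B (K P) (K P) ≤ C ^ 2 * J.B P P) : J.Bd C K := by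
  have key : ∀ k P, J.ip k (K P) (K P) ≤ C ^ 2 * J.ip k P P := by
    intro k
    induction k with
    | zero => exact h0
    | succ k ih =>
      intro P
      rw [ip_succ, ip_succ, mul_left_comm]
      refine mul_le_mul_of_nonneg_left ?_ (by positivity)
      rw [Finset.mul_sum]
      exact Finset.sum_le_sum fun a _ => by rw [h a]; exact ih _
  intro k P
  have h1 := JetB_nm_le J (sq_nonneg C) (key k P)
  rwa [Real.sqrt_sq hC] at h1

/-- a quadratic inequality between operators that commute with `D` lifts to all levels -/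
theorem quad_lift {ι : Type} [Fintype ι] {K : ι → ι → Module.End ℝ M} (h : ∀ i j, J.CD (K i j))
    (h0 : ∀ P : ι → M, 0 ≤ ∑ i, ∑ j, J.B (P i) (K i j (P j))) (k : ℕ) (P : ι → M) :
    0 ≤ ∑ i, ∑ j, J.ip k (P i) (K i j (P j)) := by
  induction k generalizing P with
  | zero => exact h0 P
  | succ k ih =>
    have e : ∑ i, ∑ j, J.ip (k + 1) (P i) (K i j (P j)) = (1 / ((k : ℝ) + 1)) *
        ∑ a, ∑ i, ∑ j, J.ip k (J.D a (P i)) (K i j (J.D a (P j))) := by
      rw [Finset.sum_comm (s := (Finset.univ : Finset (Fin n))), Finset.mul_sum]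
      refine Finset.sum_congr rfl fun i _ => ?_
      rw [Finset.sum_comm (s := (Finset.univ : Finset (Fin n))), Finset.mul_sum]
      refine Finset.sum_congr rfl fun j _ => ?_
      rw [ip_succ]
      congr 1
      exact Finset.sum_congr rfl fun a _ => by rw [h i j a]
    rw [e]
    exact mul_nonneg (by positivity)
      (Finset.sum_nonneg fun a _ => ih fun i => J.D a (P i))

end Jet

end Pool.Agent.Lib.MP_45f3cb_gt.Fa
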