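import Pool.Agent.Lib.MP_45f3cb_gt.Fa.JetB

/-!
Exact identities of div-curl type in a jet algebra.
-/

namespace Pool.Agent.Lib.MP_45f3cb_gt.Fa

namespace Jet

variable {n : ℕ} {M : Type} [AddCommGroup M] [Module ℝ M] {J : Jet n M}

theorem JetK_abs_ip {k : ℕ} {P Q : M} {r s : ℝ} (hP : J.nm k P ≤ r) (hQ : J.nm k Q ≤ s) :
    |J.ip k P Q| ≤ r * s :=
  (J.abs_ip_le k P Q).trans
    (mul_le_mul hP hQ (J.nm_nonneg k Q) ((J.nm_nonneg k P).trans hP))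

theorem JetK_abs_sum1 {f : Fin n → ℝ} {r : ℝ} (h : ∀ a, |f a| ≤ r) : |∑ a, f a| ≤ (n : ℝ) * r := by
  refine (Finset.abs_sum_le_sum_abs _ _).trans ?_
  refine (Finset.sum_le_sum fun a _ => h a).trans ?_
  simp

theorem JetK_abs_sum2 {f : Fin n → Fin n → ℝ} {r : ℝ} (h : ∀ a b, |f a b| ≤ r) :
    |∑ a, ∑ b, f a b| ≤ (n : ℝ) ^ 2 * r := by
  refine (JetK_abs_sum1 fun a => JetK_abs_sum1 (h a)).trans (le_of_eq ?_)
  ring

/-- Sketch: expand the sums; `⟨T'_a p_a, T'_b p_b⟩ = ⟨p_a, T_a T'_b p_b⟩` (`Adj.symm`) and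
`⟨p_a, T'_b T_a p_b⟩ = ⟨T_b p_a, T_a p_b⟩`. -/
theorem K0 {T T' : Fin n → Module.End ℝ M} (h : ∀ a, J.Adj (T a) (T' a)) (k : ℕ) (p : Fin n → M) :
    J.ip k (∑ a, T' a (p a)) (∑ a, T' a (p a)) = ∑ a, ∑ b, J.ip k (T b (p a)) (T a (p b)) +
      ∑ a, ∑ b, J.ip k (p a) ((T a * T' b - T' b * T a) (p b)) := by
  rw [← Finset.sum_add_distrib]
  simp only [map_sum, LinearMap.sum_apply]
  rw [Finset.sum_comm]
  refine Finset.sum_congr rfl fun a _ => ?_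
  rw [← Finset.sum_add_distrib]
  refine Finset.sum_congr rfl fun b _ => ?_
  rw [(h a).symm k, h b k, LinearMap.sub_apply, map_sub, Module.End.mul_apply,
    Module.End.mul_apply]
  ring

theorem K3 {W W' N N' : Fin n → Module.End ℝ M} (hW : ∀ a, J.Adj (W a) (W' a))
    (hN : ∀ a, J.Adj (N a) (N' a)) (k : ℕ) (α β : Fin n → M) :
    ∑ b, ∑ c, J.ip k (W b (β c)) (N c (α b)) = J.ip k (∑ c, N' c (β c)) (∑ b, W' b (α b)) +
      ∑ b, ∑ c, J.ip k (β c) ((W' b * N c - N c * W' b) (α b)) := by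
  simp only [map_sum, LinearMap.sum_apply]
  rw [← Finset.sum_add_distrib]
  refine Finset.sum_congr rfl fun b _ => ?_
  rw [← Finset.sum_add_distrib]
  refine Finset.sum_congr rfl fun c _ => ?_
  rw [(hN c).symm k, hW b k, LinearMap.sub_apply, map_sub, Module.End.mul_apply,
    Module.End.mul_apply]
  ring

theorem pert {k : ℕ} {x y : Fin n → Fin n → M} {δ μ : ℝ} (hδ : ∀ a b, J.nm k (x a b - y a b) ≤ δ)
    (hμ : ∀ a b, J.nm k (x a b) ≤ μ) :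
    |∑ a, ∑ b, J.ip k (x a b) (x b a) - ∑ a, ∑ b, J.ip k (y a b) (y b a)| ≤
      (n : ℝ) ^ 2 * (2 * δ * μ + δ ^ 2) := by
  rw [← Finset.sum_sub_distrib]
  simp only [← Finset.sum_sub_distrib]
  refine JetK_abs_sum2 fun a b => ?_
  have e : J.ip k (x a b) (x b a) - J.ip k (y a b) (y b a) =
      J.ip k (x a b) (x b a - y b a) + J.ip k (x a b - y a b) (x b a) -
        J.ip k (x a b - y a b) (x b a - y b a) := by
    simp only [map_sub, LinearMap.sub_apply]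
    ring
  have h1 := JetK_abs_ip (hμ a b) (hδ b a)
  have h2 := JetK_abs_ip (hδ a b) (hμ b a)
  have h3 := JetK_abs_ip (hδ a b) (hδ b a)
  rw [e]
  rw [abs_le] at h1 h2 h3 ⊢
  constructor <;> nlinarith [h1.1, h1.2, h2.1, h2.2, h3.1, h3.2]

theorem abs_sum2_le {k : ℕ} {x y : Fin n → Fin n → M} {r s : ℝ} (hx : ∀ a b, J.nm k (x a b) ≤ r)
    (hy : ∀ a b, J.nm k (y a b) ≤ s) : |∑ a, ∑ b, J.ip k (x a b) (y a b)| ≤ (n : ℝ) ^ 2 * (r * s) := by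
  exact JetK_abs_sum2 fun a b => JetK_abs_ip (hx a b) (hy a b)

theorem abs_sum1_le {k : ℕ} {x y : Fin n → M} {r s : ℝ} (hx : ∀ a, J.nm k (x a) ≤ r)
    (hy : ∀ a, J.nm k (y a) ≤ s) : |∑ a, J.ip k (x a) (y a)| ≤ (n : ℝ) * (r * s) := by
  exact JetK_abs_sum1 fun a => JetK_abs_ip (hx a) (hy a)

/-- Sketch: `⟨K P, a P⟩ = ⟨P, K' a P⟩ = ⟨a P, (K' + K) P⟩ - ⟨a P, K P⟩ + ⟨P, [K', a] P⟩`. -/
theorem skew {K K' a : Module.End ℝ M} {C r₁ r₂ : ℝ} (h : J.Adj K K') (ha : J.Mul C a) {k : ℕ}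
    {P : M} (hr : 0 ≤ r₁) (h1 : J.nm k ((K' + K) P) ≤ r₁ * J.nm k P)
    (h2 : J.nm k ((K' * a - a * K') P) ≤ r₂ * J.nm k P) :
    |J.ip k (K P) (a P)| ≤ (C * r₁ + r₂) / 2 * J.ip k P P := by
  have e : 2 * J.ip k (K P) (a P) =
      J.ip k P ((K' * a - a * K') P) + J.ip k (a P) ((K' + K) P) := by
    have e1 : J.ip k (K P) (a P) = J.ip k P (K' (a P)) := h k P (a P)
    have e2 : J.ip k (a P) (K' P) = J.ip k P (a (K' P)) := ha.adj k P (K' P)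
    have e3 : J.ip k (a P) (K P) = J.ip k (K P) (a P) := J.ip_symm k _ _
    rw [LinearMap.sub_apply, LinearMap.add_apply, map_sub, map_add, Module.End.mul_apply,
      Module.End.mul_apply]
    linarith
  have b1 := JetK_abs_ip (le_refl (J.nm k P)) h2
  have b2 := JetK_abs_ip (ha.bd k P) h1
  have e4 : J.nm k P * (r₂ * J.nm k P) = r₂ * J.ip k P P := by
    rw [← J.nm_sq]; ring
  have e5 : C * J.nm k P * (r₁ * J.nm k P) = C * r₁ * J.ip k P P := by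
    rw [← J.nm_sq]; ring
  rw [e4] at b1
  rw [e5] at b2
  rw [abs_le] at b1 b2 ⊢
  constructor <;> linarith [b1.1, b1.2, b2.1, b2.2]

/-- multiplication by complex scalars -/
structure Cx (J : Jet n M) (s : ℂ → Module.End ℝ M) : Prop where
  add : ∀ c c', s (c + c') = s c + s c'
  mul : ∀ c c', s (c * c') = s c * s c'
  re : ∀ (r : ℝ) P, s r P = r • P
  adj : ∀ c, J.Adj (s c) (s ((starRingEnd ℂ) c))
  cd : ∀ c, J.CD (s c)
  cy : ∀ c a P, s c (J.Y a P) = J.Y a (s c P)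

theorem Cx.ip_s {s : ℂ → Module.End ℝ M} (H : J.Cx s) (c : ℂ) (k : ℕ) (P : M) :
    J.ip k (s c P) (s c P) = ‖c‖ ^ 2 * J.ip k P P := by
  rw [H.adj c k, ← Module.End.mul_apply, ← H.mul, Complex.conj_mul']
  have e : ((‖c‖ : ℂ)) ^ 2 = ((‖c‖ ^ 2 : ℝ) : ℂ) := by push_cast; ring
  rw [e, H.re, map_smul, smul_eq_mul]

end Jet

end Pool.Agent.Lib.MP_45f3cb_gt.Fa
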