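import Pool.Agent.Lib.MP_45f3cb_gt.Fa.FmA

/-!
The mean value gauge.
-/

open Set MeasureTheory Filter Topology Matrix

namespace Pool.Agent.Lib.MP_45f3cb_gt.Fa

variable {n d : ℕ} {g : V n → Mat n} {D : Dom n}

/-- the mean with weight `ψ` of the translates -/
noncomputable def avg (ψ A : V n → ℝ) (y : V n) : ℝ := (∫ v, ψ v)⁻¹ * ∫ v, ψ v * A (v + y)

theorem LoA_int {ψ : V n → ℝ} (B : V n → ℝ) :
    ∫ v, ψ v * B v = ∫ v in tsupport ψ, ψ v * B v :=
  (setIntegral_eq_integral_of_forall_compl_eq_zero fun v hv => by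
    rw [image_eq_zero_of_notMem_tsupport hv, zero_mul]).symm

/-- Sketch: the integral is over the compact set `tsupport ψ`; `sm_setInt`. -/
theorem sm_avg {E : Type} [NormedAddCommGroup E] [NormedSpace ℝ E] [FiniteDimensional ℝ E]
    {ψ : V n → ℝ} (hψ : Sm ψ) (hc : HasCompactSupport ψ) {P : E × V n → ℝ} (hP : Sm P) :
    Sm fun q : E × V n => avg ψ (fun y => P (q.1, y)) q.2 := by
  simp only [avg, LoA_int]
  exact contDiff_const.mul (sm_setInt (G := fun r : (E × V n) × V n =>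
    ψ r.2 * P (r.1.1, r.2 + r.1.2)) hc ((hψ.comp contDiff_snd).mul (hP.comp
      ((contDiff_fst.comp contDiff_fst).prodMk (contDiff_snd.add (contDiff_snd.comp contDiff_fst))))))

theorem pdF_avg {ψ A : V n → ℝ} (hψ : Sm ψ) (hc : HasCompactSupport ψ) (hA : Sm A) (a : Fin n) :
    pdF a (avg ψ A) = avg ψ (pdF a A) := by
  funext y
  have hG : Sm fun r : V n × V n => ψ r.2 * A (r.2 + r.1) :=
    (hψ.comp contDiff_snd).mul (hA.comp (contDiff_snd.add contDiff_fst))
  obtain ⟨h1, h2⟩ := hasFDerivAt_setInt (μ := volume) hc (hG.of_le (by exact_mod_cast le_top)) y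
  have e : avg ψ A = fun y => (∫ v, ψ v)⁻¹ * ∫ v in tsupport ψ, ψ v * A (v + y) :=
    funext fun y => by rw [avg, LoA_int]
  rw [e, pdF, fderiv_const_mul h1, avg, LoA_int]
  simp only [_root_.smul_apply, smul_eq_mul]
  rw [h2]
  congr 1
  refine integral_congr_ae (Eventually.of_forall fun v => ?_)
  have h3 : HasFDerivAt (fun r : V n × V n => ψ r.2 * A (r.2 + r.1)) _ (y, v) :=
    ((hψ.dAt v).hasFDerivAt.comp (y, v) hasFDerivAt_snd).mul
      ((hA.dAt (v + y)).hasFDerivAt.comp (y, v) (hasFDerivAt_snd.add hasFDerivAt_fst))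
  simp only [h3.fderiv, pdF]
  simp

/-- Sketch: induction on `k` for all `A`; `pdF_hom`, `pdF_avg`. -/
theorem gz_avg {ψ : V n → ℝ} (hψ : Sm ψ) (hc : HasCompactSupport ψ) (hp : 0 < ∫ y, ψ y) (k : ℕ)
    {A : V n → ℝ} (hA : Sm A) : Gz ψ k fun y => A y - hom 0 k (avg ψ A) y := by
  induction k generalizing A with
  | zero =>
    have i1 : Integrable fun v => ψ v * A v :=
      (hψ.continuous.mul hA.continuous).integrable_of_hasCompactSupport hc.mul_right
    have i2 : Integrable ψ := hψ.continuous.integrable_of_hasCompactSupport hc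
    simp only [Gz, hom, avg, smul_eq_mul, mul_sub, add_zero]
    rw [integral_sub i1 (i2.mul_const _), integral_mul_const, ← mul_assoc, mul_inv_cancel₀ hp.ne',
      one_mul, sub_self]
  | succ k ih =>
    intro a
    have hs : Sm (avg ψ A) :=
      (sm_avg (E := ℝ) (P := fun q => A q.2) hψ hc (hA.comp contDiff_snd)).comp
        ((contDiff_const (c := (0 : ℝ))).prodMk contDiff_id)
    have e : pdF a (fun y => A y - hom 0 (k + 1) (avg ψ A) y) =
        fun y => pdF a A y - hom 0 k (avg ψ (pdF a A)) y := by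
      rw [← pdF_avg hψ hc hA, ← pdF_hom hs]
      funext y
      simp only [pdF]
      rw [fderiv_fun_sub (hA.dAt y) ((sm_hom _ _ _).dAt y)]
      rfl
    rw [e]
    exact ih (sm_pdF hA a)

theorem sm_hom_par {E : Type} [NormedAddCommGroup E] [NormedSpace ℝ E] (v : V n) (k : ℕ)
    {P : E × V n → ℝ} (hP : Sm P) : Sm fun q : E × V n => hom v k (fun y => P (q.1, y)) q.2 := by
  induction k generalizing P with
  | zero => exact hP.comp (contDiff_fst.prodMk contDiff_const)
  | succ k ih =>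
    have e : ∀ (a : Fin n) (x : E), pdF a (fun y => P (x, y)) =
        fun y => fderiv ℝ P (x, y) (0, Pi.single a 1) := fun a x => funext fun y => by
      have h1 : fderiv ℝ (fun p => P (x, p)) y = _ :=
        (HasFDerivAt.comp (f := fun p => (x, p)) y (hP.dAt _).hasFDerivAt
          (hasFDerivAt_prodMk_right x y)).fderiv
      simp only [pdF, h1]
      rfl
    simp only [hom, e]
    refine ContDiff.const_smul _ (ContDiff.sum fun a _ => ContDiff.smul
      (((contDiff_apply ℝ ℝ a).comp contDiff_snd).sub contDiff_const) ?_)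
    exact ih (P := fun q => fderiv ℝ P q (0, Pi.single a 1))
      ((hP.fderiv_right (m := (⊤ : ℕ∞)) le_rfl).clm_apply contDiff_const)

theorem hom_fun_zero (v : V n) (k : ℕ) (y : V n) : hom v k (fun _ => (0 : ℝ)) y = 0 := by
  induction k with
  | zero => rfl
  | succ k ih =>
    have e : ∀ a : Fin n, pdF a (fun _ => (0 : ℝ)) = fun _ => 0 := fun a => funext fun y => by
      simp [pdF]
    simp [hom, e, ih]

/-- Sketch: `fderiv_eq_sum`, `FP.dx`, `FP.coord_dp`, `PolyB_coord`, `FP.fst_mul`, `FP.sum`. -/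
theorem fp_spray (g : V n → Mat n) {h : Z n → ℝ} (hs : Sm h) (hp : FP d h) :
    FP (d + 1) fun z => fderiv ℝ h z (spray g z) := by
  have hF : Differentiable ℝ h := fun z => hs.dAt z
  refine PolyB_congr (FP.sum (s := Finset.univ) fun k _ => FP.sub (PolyB_coord (hp.dx hF k) k)
    (FP.sum (s := Finset.univ) fun i _ => FP.sum (s := Finset.univ) fun j _ =>
      (PolyB_coord (hp.coord_dp hF k j) i).fst_mul fun x => chr g x k i j)) fun z => ?_
  rw [fderiv_eq_sum]
  refine Finset.sum_congr rfl fun k _ => ?_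
  simp only [spray, neg_mul, Finset.sum_mul, sub_eq_add_neg, mul_assoc]

/-- Sketch: `h₂ z = hom 0 d (avg ψ (u (z.1, ·))) z.2`; `hom_HP`, `FP.euler`, `fp_spray`. -/
theorem regauge (h : RM g) {K : Set (V n)} (hK : IsClosed K) {Ω : Set (Z n)} {u f : Z n → ℝ}
    (hu : Sol g d K Ω u f) {ψ : V n → ℝ} (hψ : Sm ψ) (hc : HasCompactSupport ψ) (hp : 0 < ∫ y, ψ y) :
    ∃ h₂ f₂ : Z n → ℝ, FP d h₂ ∧ Sol g d K Ω (fun z => u z - h₂ z) f₂ ∧
      ∀ x, Gz ψ d fun y => u (x, y) - h₂ (x, y) := by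
  have hs : Sm fun z : Z n => hom 0 d (avg ψ fun y => u (z.1, y)) z.2 :=
    sm_hom_par 0 d (P := fun q => avg ψ (fun y => u (q.1, y)) q.2) (sm_avg hψ hc hu.smw)
  have hf : FP d fun z : Z n => hom 0 d (avg ψ fun y => u (z.1, y)) z.2 := fun x =>
    hom_HP d (avg ψ fun y => u (x, y))
  have h0 : ∀ z : Z n, z.1 ∉ K → hom 0 d (avg ψ fun y => u (z.1, y)) z.2 = 0 := fun z hz => by
    have e : (avg ψ fun y => u (z.1, y)) = fun _ => 0 := funext fun y => by
      simp [avg, fun y => hu.off (z.1, y) hz]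
    rw [e, hom_fun_zero]
  generalize hh : (fun z : Z n => hom 0 d (avg ψ fun y => u (z.1, y)) z.2) = h₂ at hs hf
  have h1 : ∀ z : Z n, z.1 ∉ K → h₂ z = 0 := fun z hz => by
    rw [← hh]
    exact h0 z hz
  refine ⟨h₂, fun z => f z - fderiv ℝ h₂ z (spray g z), hf, ⟨hu.smw.sub hs,
    hu.smf.sub ((hs.fderiv_right (m := (⊤ : ℕ∞)) le_rfl).clm_apply h.sm_spray),
    hu.fp.sub (fp_spray g hs hf), fun z hz => ?_, fun z hz => ?_, fun z hz => ?_, fun z hz => ?_⟩,
    fun x => ?_⟩
  · rw [fderiv_fun_sub (hu.smw.dAt z) (hs.dAt z), ← hu.eq z hz]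
    rfl
  · rw [fderiv_fun_sub (hu.smw.dAt z) (hs.dAt z), _root_.sub_apply, hu.eul z hz,
      fderiv_eq_sum, mul_sub, ← hf.euler (fun z => hs.dAt z) z]
    simp
  · rw [hu.off z hz, h1 z hz, sub_zero]
  · have e : h₂ =ᶠ[𝓝 z] fun _ => 0 :=
      ((hK.isOpen_compl.preimage continuous_fst).eventually_mem (x := z) hz).mono h1
    rw [hu.offf z hz, e.fderiv_eq]
    simp
  · rw [← hh]
    exact gz_avg hψ hc hp d (A := fun y => u (x, y))
      (hu.smw.comp (contDiff_const.prodMk contDiff_id))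

end Pool.Agent.Lib.MP_45f3cb_gt.Fa
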