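import Pool.Agent.Lib.MP_45f3cb_gt.Fa.S2H
import Pool.Agent.Lib.MP_45f3cb_gt.Fa.FoE

/-!
Step 2: the estimate in a window.
-/

open Set MeasureTheory Filter Topology Matrix

namespace Pool.Agent.Lib.MP_45f3cb_gt.Fa

variable {n : ℕ}

/-- the integral of a fibre integral against a weight -/
noncomputable def S2I_I (B S : Set (V n)) (a : V n → ℝ) (H : Z n → ℝ) : ℝ :=
  ∫ x in B, a x * ∫ v in S, H (x, v)

theorem S2I_cont {S : Set (V n)} (hS : IsCompact S) {H : Z n → ℝ} (hH : Continuous H) :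
    Continuous fun x => ∫ v in S, H (x, v) :=
  continuous_parametric_integral_of_continuous (f := fun x v => H (x, v)) hH hS

theorem S2I_fib {S : Set (V n)} (hS : IsCompact S) {H : Z n → ℝ} (hH : Continuous H) (x : V n) :
    IntegrableOn (fun v => H (x, v)) S :=
  (hH.comp (continuous_const.prodMk continuous_id)).continuousOn.integrableOn_compact hS

theorem S2I_int {B S : Set (V n)} (hB : IsCompact B) (hS : IsCompact S) {a : V n → ℝ}
    (ha : Continuous a) {H : Z n → ℝ} (hH : Continuous H) :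
    IntegrableOn (fun x => a x * ∫ v in S, H (x, v)) B :=
  (ha.mul (S2I_cont hS hH)).continuousOn.integrableOn_compact hB

theorem S2I_add {B S : Set (V n)} (hB : IsCompact B) (hS : IsCompact S) {a : V n → ℝ}
    (ha : Continuous a) {H H' : Z n → ℝ} (hH : Continuous H) (hH' : Continuous H') :
    S2I_I B S a (fun z => H z + H' z) = S2I_I B S a H + S2I_I B S a H' := by
  unfold S2I_I
  rw [← integral_add (S2I_int hB hS ha hH) (S2I_int hB hS ha hH')]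
  refine integral_congr_ae (Eventually.of_forall fun x => ?_)
  change a x * ∫ v in S, (H (x, v) + H' (x, v)) = _
  rw [integral_add (S2I_fib hS hH x) (S2I_fib hS hH' x), mul_add]

theorem S2I_mul (B S : Set (V n)) (a : V n → ℝ) (H : Z n → ℝ) (c : ℝ) :
    S2I_I B S a (fun z => c * H z) = c * S2I_I B S a H := by
  unfold S2I_I
  rw [← integral_const_mul]
  refine integral_congr_ae (Eventually.of_forall fun x => ?_)
  change a x * ∫ v in S, c * H (x, v) = c * (a x * ∫ v in S, H (x, v))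
  rw [integral_const_mul]
  ring

theorem S2I_sum {ι : Type} (s : Finset ι) {B S : Set (V n)} (hB : IsCompact B) (hS : IsCompact S)
    {a : V n → ℝ} (ha : Continuous a) {H : ι → Z n → ℝ} (hH : ∀ i, Continuous (H i)) :
    S2I_I B S a (fun z => ∑ i ∈ s, H i z) = ∑ i ∈ s, S2I_I B S a (H i) := by
  unfold S2I_I
  rw [← integral_finsetSum s fun i _ => S2I_int hB hS ha (hH i)]
  refine integral_congr_ae (Eventually.of_forall fun x => ?_)
  change a x * ∫ v in S, ∑ i ∈ s, H i (x, v) = ∑ i ∈ s, a x * ∫ v in S, H i (x, v)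
  rw [integral_finsetSum s fun i _ => S2I_fib hS (hH i) x, Finset.mul_sum]

theorem S2I_le {B S : Set (V n)} (hB : IsCompact B) (hS : IsCompact S) {a : V n → ℝ}
    (ha : Continuous a) {G H : Z n → ℝ} (hH : Continuous H) (hG : ∀ z, 0 ≤ G z)
    (hle : ∀ x, ∀ v ∈ S, G (x, v) ≤ B.indicator a x * H (x, v)) :
    ∫ x, ∫ v in S, G (x, v) ≤ S2I_I B S a H := by
  unfold S2I_I
  rw [← integral_indicator hB.measurableSet]
  refine integral_mono_of_nonneg (Eventually.of_forall fun x => integral_nonneg fun v => hG _)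
    ((integrable_indicator_iff hB.measurableSet).2 (S2I_int hB hS ha hH))
    (Eventually.of_forall fun x => ?_)
  have e : B.indicator (fun x => a x * ∫ v in S, H (x, v)) x =
      ∫ v in S, B.indicator a x * H (x, v) := by
    rw [integral_const_mul]
    by_cases hx : x ∈ B
    · rw [indicator_of_mem hx, indicator_of_mem hx]
    · rw [indicator_of_notMem hx, indicator_of_notMem hx, zero_mul]
  change ∫ v in S, G (x, v) ≤ B.indicator (fun x => a x * ∫ v in S, H (x, v)) x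
  rw [e]
  exact integral_mono_of_nonneg (Eventually.of_forall fun v => hG _)
    ((S2I_fib hS hH x).const_mul _)
    ((ae_restrict_iff' hS.measurableSet).2 (Eventually.of_forall fun v hv => hle x v hv))

theorem S2I_rad (n d : ℕ) {ρ ρ₂ : ℝ} (hρ : 0 < ρ) (hρ₂ : 0 < ρ₂) :
    ∃ s : ℝ, 0 < s ∧ s ≤ ρ₂ ∧ n * s ^ 2 ≤ ρ ^ 2 / (2 * ((d : ℝ) + 3)) := by
  have hq : 0 < ρ ^ 2 / (2 * ((d : ℝ) + 3)) := by positivity
  generalize ρ ^ 2 / (2 * ((d : ℝ) + 3)) = q at hq ⊢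
  have hn : (0 : ℝ) ≤ n := Nat.cast_nonneg n
  have hq' : 0 < q / ((n : ℝ) + 1) := by positivity
  refine ⟨min ρ₂ (min 1 (q / ((n : ℝ) + 1))), lt_min hρ₂ (lt_min one_pos hq'), min_le_left _ _, ?_⟩
  have h0 : 0 < min ρ₂ (min 1 (q / ((n : ℝ) + 1))) := lt_min hρ₂ (lt_min one_pos hq')
  have h1 : min ρ₂ (min 1 (q / ((n : ℝ) + 1))) ≤ 1 := (min_le_right _ _).trans (min_le_left _ _)
  have h2 : min ρ₂ (min 1 (q / ((n : ℝ) + 1))) ≤ q / ((n : ℝ) + 1) :=
    (min_le_right _ _).trans (min_le_right _ _)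
  generalize min ρ₂ (min 1 (q / ((n : ℝ) + 1))) = s at h0 h1 h2 ⊢
  rw [le_div_iff₀ (by positivity)] at h2
  have h3 : s ^ 2 ≤ s := by nlinarith
  nlinarith [mul_le_mul_of_nonneg_left h3 hn]

namespace S2G

variable {g : V n → Mat n} {Φ₀ : V n → ℝ} {x₀ : V n} {K : Set (V n)} {O Ω : Set (Z n)}
  (T : S2G g Φ₀ x₀ K O)

variable {d : ℕ} {w f : Z n → ℝ} {A : ℝ}

theorem S2I_cj (hw : Sm w) (N : ℕ) : Continuous (cj w N) :=
  ((continuous_const.mul (cont_jn hw _)).add (continuous_const.mul (cont_jn hw _))).add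
    (continuous_const.mul (cont_jn hw _))

theorem S2I_cj0 (w : Z n → ℝ) (N : ℕ) (z : Z n) : 0 ≤ cj w N z :=
  add_nonneg (add_nonneg (mul_nonneg (by positivity) (jn_nonneg _ _ _))
    (mul_nonneg (by positivity) (jn_nonneg _ _ _))) (mul_nonneg (by positivity) (jn_nonneg _ _ _))

theorem S2I_dens0 (w : Z n → ℝ) {ρ : ℝ} (hρ : 0 < ρ) (N₂ : ℕ) (z : Z n) : 0 ≤ dens w ρ N₂ z :=
  add_nonneg (Finset.sum_nonneg fun N _ =>
      mul_nonneg (omp_pos (half_pos hρ) N).le (S2I_cj0 w N z))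
    (mul_nonneg (omp_pos (half_pos hρ) N₂).le
      (Finset.sum_nonneg fun _ _ => add_nonneg (jn_nonneg _ _ _) (jn_nonneg _ _ _)))

theorem S2I_hh (τ : ℝ) : Continuous (T.hh τ) :=
  ((Real.continuous_exp.comp (continuous_const.mul T.sΦ.continuous)).pow 2).mul
    ((continuous_const.mul (T.sη₀.continuous.pow 2)).add
      (continuous_finsetSum _ fun c _ => (Sm.pd T.sη₀ c).continuous.pow 2))

theorem S2I_hh0 {τ : ℝ} (hτ : 0 ≤ τ) (x : V n) : 0 ≤ T.hh τ x :=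
  mul_nonneg (sq_nonneg _) (add_nonneg (mul_nonneg hτ (sq_nonneg _))
    (Finset.sum_nonneg fun _ _ => sq_nonneg _))

theorem S2I_dens (hw : Sm w) (ρ : ℝ) (N₂ : ℕ) {B S : Set (V n)} (hB : IsCompact B)
    (hS : IsCompact S) {a : V n → ℝ} (ha : Continuous a) :
    S2I_I B S a (dens w ρ N₂) =
      ∑ N ∈ Finset.range (N₂ + 1), omp (ρ / 2) N * S2I_I B S a (cj w N) +
        omp (ρ / 2) N₂ * ∑ e, S2I_I B S a fun z => jn N₂ (dx e w) z + jn N₂ w z := by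
  have h1 : ∀ N, Continuous fun z => omp (ρ / 2) N * cj w N z := fun N =>
    continuous_const.mul (S2I_cj hw N)
  have h2 : ∀ e, Continuous fun z => jn N₂ (dx e w) z + jn N₂ w z := fun e =>
    (cont_jn (hw.dx e) N₂).add (cont_jn hw N₂)
  have h4 : Continuous fun z => omp (ρ / 2) N₂ * ∑ e, (jn N₂ (dx e w) z + jn N₂ w z) :=
    continuous_const.mul (continuous_finsetSum Finset.univ fun e _ => h2 e)
  have h3 := S2I_add hB hS ha (continuous_finsetSum (Finset.range (N₂ + 1)) fun N _ => h1 N) h4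
  refine h3.trans ?_
  rw [S2I_sum _ hB hS ha h1, S2I_mul, S2I_sum _ hB hS ha h2]
  simp only [S2I_mul]

theorem S2I_supp {ω : V n → ℝ} {τ : ℝ} {x₁ x : V n} (hx : T.kk ω τ x₁ x ≠ 0) :
    x ∈ Metric.closedBall x₀ T.r :=
  T.η₀_supp x fun e => hx (by rw [kk, e, mul_zero, mul_zero])

theorem S2I_far {ω : V n → ℝ} (h0 : ∀ y, 1 < ‖y‖ → ω y = 0) {τ : ℝ} (hτ : (T.r ^ 2)⁻¹ ≤ τ)
    {x₁ : V n} (hx₁ : x₁ ∉ Metric.closedBall x₀ (2 * T.r)) (x : V n) : T.kk ω τ x₁ x = 0 := by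
  by_contra hx
  have h1 : dist x x₀ ≤ T.r := T.S2I_supp hx
  have h2 : 2 * T.r < dist x₁ x₀ := not_le.1 hx₁
  have h3 : T.r < ‖x - x₁‖ := by
    have := dist_triangle x₁ x x₀
    rw [dist_comm x₁ x, dist_eq_norm x x₁] at this
    linarith
  have h4 : T.r⁻¹ ≤ Real.sqrt τ := Real.le_sqrt_of_sq_le (by rwa [inv_pow])
  have h5 : 1 < ‖Real.sqrt τ • (x - x₁)‖ := by
    rw [norm_smul, Real.norm_of_nonneg (Real.sqrt_nonneg τ)]
    have h6 : T.r⁻¹ * T.r = 1 := inv_mul_cancel₀ T.hr.ne'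
    have h7 : 0 < T.r⁻¹ := inv_pos.2 T.hr
    calc (1 : ℝ) = T.r⁻¹ * T.r := h6.symm
      _ < T.r⁻¹ * ‖x - x₁‖ := mul_lt_mul_of_pos_left h3 h7
      _ ≤ Real.sqrt τ * ‖x - x₁‖ := mul_le_mul_of_nonneg_right h4 (norm_nonneg _)
  exact hx (by rw [kk, h0 _ h5, zero_mul])

/-- Sketch: for `x₁` outside `closedBall x₀ (2 r)` the left side vanishes; otherwise `ftl` (with
`ρ'' = min ρ₂ _`, `l = τ • dΦ₀ x₁`, `dir`), `jn_R`, `kk_le`. -/
theorem window (h : Sol g d K Ω w f) (hΩ : IsOpen Ω) (hs : O ⊆ Ω)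
    (hz : ∀ x, Gz T.ψ d fun y => w (x, y)) {ρ : ℝ} (hρ : 0 < ρ) {ω : V n → ℝ} (hω : Sm ω)
    (h0 : ∀ y, 1 < ‖y‖ → ω y = 0) (h1 : ∀ y, |ω y| ≤ 1) : ∃ c τ₀, 0 ≤ c ∧ 1 ≤ τ₀ ∧
      ∀ (τ : ℝ) (N₂ : ℕ) (x₁ : V n), τ₀ ≤ τ → d + 1 < N₂ →
        ∫ x, ω (Real.sqrt τ • (x - x₁)) ^ 2 *
          ((Real.exp (τ * Φ₀ x) * T.η₀ x) ^ 2 * jn (d + 1) f (x, 0)) ≤
        ∫ x in Metric.closedBall x₁ (Real.sqrt τ)⁻¹,
          c * T.hh τ x * ∫ v in T.S, dens w ρ N₂ (x, v) := by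
  obtain ⟨s, hs0, hs1, hs2⟩ := S2I_rad n d (half_pos hρ) T.hρ₂
  obtain ⟨C, hC, hft⟩ := ftl d (half_pos hρ) hs0 hs2 T.sψ.continuous T.cS T.ψ_supp T.ψ_nonneg
    T.ψ_pos
  obtain ⟨c₁, hc₁, hk⟩ := T.kk_le hω h0 h1
  obtain ⟨c₂, hc₂, hR⟩ := T.jn_R h hΩ hs
  refine ⟨C * (c₂ * c₁), max 1 (T.r ^ 2)⁻¹, mul_nonneg hC (mul_nonneg hc₂ hc₁), le_max_left _ _,
    fun τ N₂ x₁ hτ hN => ?_⟩
  have hτ1 : 1 ≤ τ := (le_max_left _ _).trans hτ
  have hτ0 : 0 ≤ τ := zero_le_one.trans hτ1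
  have sk : Sm (T.kk ω τ x₁) := T.sm_kk hω τ x₁
  have eL : ∀ x, ω (Real.sqrt τ • (x - x₁)) ^ 2 *
      ((Real.exp (τ * Φ₀ x) * T.η₀ x) ^ 2 * jn (d + 1) f (x, 0)) =
      T.kk ω τ x₁ x ^ 2 * jn (d + 1) f (x, 0) := fun x => by
    rw [kk]
    ring
  simp only [eL]
  by_cases hx₁ : x₁ ∈ Metric.closedBall x₀ (2 * T.r)
  swap
  · have e0 : ∀ x, T.kk ω τ x₁ x ^ 2 * jn (d + 1) f (x, 0) = 0 := fun x => by
      rw [T.S2I_far h0 ((le_max_right _ _).trans hτ) hx₁ x]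
      simp
    simp only [e0, integral_zero]
    exact integral_nonneg fun x =>
      mul_nonneg (mul_nonneg (mul_nonneg hC (mul_nonneg hc₂ hc₁)) (T.S2I_hh0 hτ0 x))
        (integral_nonneg fun v => S2I_dens0 w hρ N₂ _)
  have hB : IsCompact (Metric.closedBall x₁ (Real.sqrt τ)⁻¹) := isCompact_closedBall _ _
  have hk' := hk τ hτ1 x₁ hx₁
  have hR' := hR (T.kk ω τ x₁) (fun e => τ * pd e Φ₀ x₁) sk fun x hx => T.S2I_supp hx
  have hxc : ∀ u : Z n → ℝ, Sm u → XC fun z => T.kk ω τ x₁ z.1 * u z := fun u hu =>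
    ⟨(sk.comp contDiff_fst).mul hu, Metric.closedBall x₀ T.r, isCompact_closedBall _ _,
      fun z hz' => by
        rw [show T.kk ω τ x₁ z.1 = 0 from by_contra fun e => hz' (T.S2I_supp e), zero_mul]⟩
  have key := hft (fun z => T.kk ω τ x₁ z.1 * w z) (fun z => T.kk ω τ x₁ z.1 * f z)
    (fun e => τ * pd e Φ₀ x₁) N₂ (hxc w h.smw) (hxc f h.smf)
    (fun x => (HP n (d + 1)).smul_mem (T.kk ω τ x₁ x) (h.fp x)) hN
    (fun ξ => by
      obtain ⟨v₀, e1, e2, e3⟩ := T.dir x₁ hx₁ ξ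
      refine ⟨v₀, e1, ?_, (Metric.closedBall_subset_closedBall hs1).trans e3⟩
      have e4 : (fun e => τ * pd e Φ₀ x₁) = τ • fun e => pd e Φ₀ x₁ := rfl
      rw [e4, smul_dotProduct, e2, smul_zero])
    (fun x => (hz x).mul (h.smw.comp (contDiff_const.prodMk contDiff_id)) (T.kk ω τ x₁ x))
  simp only [jn_mul h.smf] at key
  refine key.trans ?_
  have ha : Continuous fun x => c₂ * c₁ * T.hh τ x := continuous_const.mul (T.S2I_hh τ)
  have hM : ∀ x, c₂ * (T.kk ω τ x₁ x ^ 2 +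
      ∑ e, (pd e (T.kk ω τ x₁) x - τ * pd e Φ₀ x₁ * T.kk ω τ x₁ x) ^ 2) ≤
      (Metric.closedBall x₁ (Real.sqrt τ)⁻¹).indicator (fun x => c₂ * c₁ * T.hh τ x) x := fun x => by
    refine (mul_le_mul_of_nonneg_left (hk' x) hc₂).trans (le_of_eq ?_)
    by_cases hx : x ∈ Metric.closedBall x₁ (Real.sqrt τ)⁻¹
    · rw [indicator_of_mem hx, indicator_of_mem hx, mul_assoc]
    · rw [indicator_of_notMem hx, indicator_of_notMem hx, mul_zero]
  have eR : ∫ x in Metric.closedBall x₁ (Real.sqrt τ)⁻¹,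
      C * (c₂ * c₁) * T.hh τ x * ∫ v in T.S, dens w ρ N₂ (x, v) =
      C * S2I_I (Metric.closedBall x₁ (Real.sqrt τ)⁻¹) T.S (fun x => c₂ * c₁ * T.hh τ x)
        (dens w ρ N₂) := by
    unfold S2I_I
    rw [← integral_const_mul]
    refine integral_congr_ae (Eventually.of_forall fun x => ?_)
    ring
  rw [eR, S2I_dens h.smw ρ N₂ hB T.cS ha]
  refine mul_le_mul_of_nonneg_left (add_le_add (Finset.sum_le_sum fun N _ =>
    mul_le_mul_of_nonneg_left ?_ (omp_pos (half_pos hρ) N).le)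
    (mul_le_mul_of_nonneg_left (Finset.sum_le_sum fun e _ => ?_)
      (omp_pos (half_pos hρ) N₂).le)) hC
  · exact S2I_le hB T.cS ha (S2I_cj h.smw N) (fun z => jn_nonneg _ _ z) fun x v hv =>
      (hR' x v hv N).1.trans (mul_le_mul_of_nonneg_right (hM x) (S2I_cj0 w N _))
  · exact S2I_le hB T.cS ha ((cont_jn (h.smw.dx e) N₂).add (cont_jn h.smw N₂))
      (fun z => jn_nonneg _ _ z) fun x v hv => ((hR' x v hv N₂).2 e).trans
        (mul_le_mul_of_nonneg_right (hM x) (add_nonneg (jn_nonneg _ _ _) (jn_nonneg _ _ _)))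

end S2G

end Pool.Agent.Lib.MP_45f3cb_gt.Fa
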