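import Pool.Agent.Lib.MP_45f3cb_gt.Int

/-!
Step 2: integral inequalities and the limit in the large parameter.
-/

open Set MeasureTheory Filter Topology Matrix

namespace Pool.Agent.Lib.MP_45f3cb_gt.Fa

variable {n : ℕ}

theorem fib_le {G H : Z n → ℝ} {S : Set (V n)} (hS : IsCompact S) (hG : Continuous G)
    (hH : Continuous H) (hc : HasCompactSupport H) (hG0 : ∀ z, 0 ≤ G z) (h0 : ∀ z, 0 ≤ H z)
    (hle : ∀ x, ∀ v ∈ S, G (x, v) ≤ H (x, v)) : ∫ x, ∫ v in S, G (x, v) ≤ ∫ z, H z := by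
  have hint : Integrable H (volume.prod volume) := by
    rw [← Measure.volume_eq_prod]
    exact hH.integrable_of_hasCompactSupport hc
  have e : ∫ z, H z = ∫ x, ∫ v, H (x, v) := by
    rw [Measure.volume_eq_prod]
    exact integral_prod H hint
  rw [e]
  refine integral_mono_of_nonneg (Eventually.of_forall fun x => ?_) hint.integral_prod_left ?_
  · exact integral_nonneg fun v => hG0 _
  · filter_upwards [hint.prod_right_ae] with x hx
    have hGx : IntegrableOn (fun v => G (x, v)) S :=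
      (hG.comp (Continuous.prodMk_right x)).continuousOn.integrableOn_compact hS
    calc ∫ v in S, G (x, v) ≤ ∫ v in S, H (x, v) :=
          setIntegral_mono_on hGx hx.integrableOn hS.measurableSet (hle x)
      _ ≤ ∫ v, H (x, v) := setIntegral_le_integral hx (Eventually.of_forall fun v => h0 _)

theorem fib_le_set {G H : Z n → ℝ} {S B : Set (V n)} {O : Set (Z n)} (hS : IsCompact S)
    (hB : IsCompact B) (hO : IsCompact O) (hs : B ×ˢ S ⊆ O) (hG : Continuous G) (hH : Continuous H)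
    (h0 : ∀ z, 0 ≤ H z) (hle : ∀ x ∈ B, ∀ v ∈ S, G (x, v) ≤ H (x, v))
    (hz : ∀ x, x ∉ B → ∀ v ∈ S, G (x, v) = 0) : ∫ x, ∫ v in S, G (x, v) ≤ ∫ z in O, H z := by
  have hBS : IsCompact (B ×ˢ S) := hB.prod hS
  have hGi : IntegrableOn G (B ×ˢ S) := hG.continuousOn.integrableOn_compact hBS
  have hHi : IntegrableOn H O := hH.continuousOn.integrableOn_compact hO
  have e1 : ∫ x, ∫ v in S, G (x, v) = ∫ x in B, ∫ v in S, G (x, v) := by
    symm
    refine setIntegral_eq_integral_of_forall_compl_eq_zero fun x hx => ?_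
    exact setIntegral_eq_zero_of_forall_eq_zero fun v hv => hz x hx v hv
  have e2 : ∫ z in B ×ˢ S, G z = ∫ x in B, ∫ v in S, G (x, v) := by
    rw [Measure.volume_eq_prod] at hGi ⊢
    exact setIntegral_prod G hGi
  rw [e1, ← e2]
  calc ∫ z in B ×ˢ S, G z ≤ ∫ z in B ×ˢ S, H z :=
        setIntegral_mono_on hGi (hHi.mono_set hs) hBS.measurableSet
          (fun z hz' => hle z.1 hz'.1 z.2 hz'.2)
    _ ≤ ∫ z in O, H z :=
        setIntegral_mono_set hHi (Eventually.of_forall fun v => h0 _) hs.eventuallyLE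

/-- Sketch: `δ ≤ δ₀` with `c₁ / (2 δ) ≥ C₁ + C₁ C₂ + 1`, `N₁ = ⌊δ τ⌋₊`;
`(1 / 2) ^ N₁ ≤ 2 exp (-δ τ log 2)`. -/
theorem fin_num {NN : ℝ → ℕ → ℝ} {FF I : ℝ → ℝ} {C₁ C₂ c₁ δ₀ τ₀ ε₀ : ℝ} {m : ℕ} (hC₁ : 0 ≤ C₁)
    (hC₂ : 0 ≤ C₂) (hc₁ : 0 < c₁) (hδ₀ : 0 < δ₀) (hε₀ : 0 < ε₀) (hN : ∀ τ N₁, 0 ≤ NN τ N₁)
    (h1 : ∀ (τ : ℝ) (N₁ : ℕ), 1 ≤ τ → 1 ≤ N₁ → (N₁ : ℝ) ≤ δ₀ * τ →
      (c₁ * τ ^ 2 / ((N₁ : ℝ) + 2) - C₁ * τ) * NN τ N₁ ≤
        C₁ * FF τ + C₁ * τ * (Real.exp (-(2 * τ * ε₀)) + (1 / 2) ^ N₁))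
    (h2 : ∀ (τ : ℝ) (N₁ : ℕ), τ₀ ≤ τ → m ≤ N₁ →
      FF τ ≤ C₂ * τ * NN τ N₁ + C₂ * τ * (Real.exp (-(2 * τ * ε₀)) + (1 / 2) ^ N₁))
    (h3 : ∀ (τ : ℝ) (N₁ : ℕ), 1 ≤ N₁ → I τ ≤ NN τ N₁) :
    ∃ ε₁ C τ₁ : ℝ, 0 < ε₁ ∧ ∀ τ, τ₁ ≤ τ → I τ ≤ C * Real.exp (-(2 * τ * ε₁)) := by
  set A : ℝ := C₁ + C₁ * C₂ + 1 with hA
  have hCC : 0 ≤ C₁ * C₂ := mul_nonneg hC₁ hC₂
  have hA0 : 0 < A := by rw [hA]; linarith
  set δ : ℝ := min δ₀ (c₁ / (3 * A)) with hδ
  have hδp : 0 < δ := lt_min hδ₀ (by positivity)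
  have hδ1 : δ ≤ δ₀ := min_le_left _ _
  have hδ2 : δ * (3 * A) ≤ c₁ := (le_div_iff₀ (by positivity)).1 (min_le_right _ _)
  have hl2 : 0 < Real.log 2 := Real.log_pos (by norm_num)
  refine ⟨min ε₀ (δ * Real.log 2 / 2), 3 * (C₁ * C₂ + C₁), max (max 1 τ₀) (((m : ℝ) + 1) / δ),
    lt_min hε₀ (by positivity), fun τ hτ => ?_⟩
  have hτ1 : 1 ≤ τ := le_trans (le_trans (le_max_left _ _) (le_max_left _ _)) hτ
  have hτ0 : τ₀ ≤ τ := le_trans (le_trans (le_max_right _ _) (le_max_left _ _)) hτ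
  have hτm : (m : ℝ) + 1 ≤ δ * τ := by
    have := (div_le_iff₀ hδp).1 (le_trans (le_max_right _ _) hτ)
    linarith
  have hm0 : (0 : ℝ) ≤ m := Nat.cast_nonneg m
  have hτp : 0 < τ := by linarith
  set N : ℕ := ⌊δ * τ⌋₊ with hNd
  have hNm : m + 1 ≤ N := Nat.le_floor (by push_cast; exact hτm)
  have hNle : (N : ℝ) ≤ δ * τ := Nat.floor_le (by positivity)
  have hNge : δ * τ < (N : ℝ) + 1 := Nat.lt_floor_add_one _
  have a1 := h1 τ N hτ1 (by omega) (le_trans hNle (mul_le_mul_of_nonneg_right hδ1 hτp.le))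
  have a2 := h2 τ N hτ0 (by omega)
  have a3 := h3 τ N (by omega)
  have a0 := hN τ N
  set E : ℝ := Real.exp (-(2 * τ * ε₀)) + (1 / 2) ^ N with hE
  have hN0 : (0 : ℝ) ≤ N := Nat.cast_nonneg N
  have b1 : A * τ ≤ c₁ * τ ^ 2 / ((N : ℝ) + 2) := by
    rw [le_div_iff₀ (by positivity)]
    have t1 : (N : ℝ) + 2 ≤ 3 * (δ * τ) := by linarith
    calc A * τ * ((N : ℝ) + 2) ≤ A * τ * (3 * (δ * τ)) :=
          mul_le_mul_of_nonneg_left t1 (by positivity)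
      _ = δ * (3 * A) * τ ^ 2 := by ring
      _ ≤ c₁ * τ ^ 2 := mul_le_mul_of_nonneg_right hδ2 (by positivity)
  have b2 : (A * τ - C₁ * τ) * NN τ N ≤ C₁ * FF τ + C₁ * τ * E :=
    le_trans (mul_le_mul_of_nonneg_right (by linarith) a0) a1
  have b3 : C₁ * FF τ ≤ C₁ * (C₂ * τ * NN τ N + C₂ * τ * E) := mul_le_mul_of_nonneg_left a2 hC₁
  have b4 : τ * NN τ N ≤ τ * ((C₁ * C₂ + C₁) * E) := by
    rw [hA] at b2
    nlinarith [b2, b3]
  have b5 : NN τ N ≤ (C₁ * C₂ + C₁) * E := le_of_mul_le_mul_left b4 hτp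
  have c1 : Real.exp (-(2 * τ * ε₀)) ≤ Real.exp (-(2 * τ * min ε₀ (δ * Real.log 2 / 2))) := by
    apply Real.exp_le_exp.2
    have := mul_le_mul_of_nonneg_left (min_le_left ε₀ (δ * Real.log 2 / 2))
      (show 0 ≤ 2 * τ by positivity)
    linarith
  have c2 : ((1 : ℝ) / 2) ^ N ≤ 2 * Real.exp (-(2 * τ * min ε₀ (δ * Real.log 2 / 2))) := by
    have e1 : ((1 : ℝ) / 2) ^ N = Real.exp (-(N * Real.log 2)) := by
      rw [Real.exp_neg, Real.exp_nat_mul, Real.exp_log (by norm_num), one_div, inv_pow]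
    have e2 : 2 * Real.exp (-(2 * τ * min ε₀ (δ * Real.log 2 / 2))) =
        Real.exp (Real.log 2 + -(2 * τ * min ε₀ (δ * Real.log 2 / 2))) := by
      rw [Real.exp_add, Real.exp_log (by norm_num)]
    rw [e1, e2]
    apply Real.exp_le_exp.2
    have t1 := mul_le_mul_of_nonneg_left (min_le_right ε₀ (δ * Real.log 2 / 2))
      (show 0 ≤ 2 * τ by positivity)
    have t2 := mul_le_mul_of_nonneg_right hNge.le hl2.le
    nlinarith [t1, t2]
  have c3 : E ≤ 3 * Real.exp (-(2 * τ * min ε₀ (δ * Real.log 2 / 2))) := by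
    rw [hE]; linarith
  calc I τ ≤ (C₁ * C₂ + C₁) * E := le_trans a3 b5
    _ ≤ (C₁ * C₂ + C₁) * (3 * Real.exp (-(2 * τ * min ε₀ (δ * Real.log 2 / 2)))) :=
        mul_le_mul_of_nonneg_left c3 (by linarith)
    _ = _ := by ring

/-- Sketch: if `u z₀ > 0` then `u ≥ c` and `Φ ≥ -ε'`, `ε' < ε₁`, on a ball; let `τ → ∞`. -/
theorem vanish {Φ u : Z n → ℝ} (hΦ : Continuous Φ) (hu : Continuous u) (hc : HasCompactSupport u)
    {ε₁ C τ₁ : ℝ} (h : ∀ τ, τ₁ ≤ τ →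
      ∫ z, (Real.exp (τ * Φ z) * u z) ^ 2 ≤ C * Real.exp (-(2 * τ * ε₁))) {z : Z n}
    (hz : -ε₁ < Φ z) : u z = 0 := by
  by_contra hne
  obtain ⟨b, hb1, hb2⟩ := exists_between hz
  set g : Z n → ℝ := fun w => min 1 (max 0 (Φ w - b)) * u w ^ 2 with hg
  have hgc : Continuous g :=
    (continuous_const.min (continuous_const.max (hΦ.sub continuous_const))).mul (hu.pow 2)
  have hu2 : HasCompactSupport fun w => u w ^ 2 :=
    hc.comp_left (g := fun t : ℝ => t ^ 2) (by simp)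
  have hgs : HasCompactSupport g := hu2.mul_left
  have hg0 : ∀ w, 0 ≤ g w := fun w =>
    mul_nonneg (le_min zero_le_one (le_max_left _ _)) (sq_nonneg _)
  have hgz : g z ≠ 0 := by
    have t1 : 0 < min 1 (max 0 (Φ z - b)) :=
      lt_min one_pos (lt_max_of_lt_right (by linarith))
    exact (mul_pos t1 (pow_pos (abs_pos.2 hne) 2 |>.trans_eq (sq_abs _))).ne'
  have ha : 0 < ∫ w, g w := hgc.integral_pos_of_hasCompactSupport_nonneg_nonzero hgs hg0 hgz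
  have key : ∀ τ, max τ₁ 0 ≤ τ → ∫ w, g w ≤ C * Real.exp (-(τ * (2 * (ε₁ + b)))) := by
    intro τ hτ
    have hτ0 : 0 ≤ τ := le_trans (le_max_right _ _) hτ
    have h1 := h τ (le_trans (le_max_left _ _) hτ)
    have hc2 : Continuous fun w => (Real.exp (τ * Φ w) * u w) ^ 2 :=
      ((Real.continuous_exp.comp (continuous_const.mul hΦ)).mul hu).pow 2
    have hs2 : HasCompactSupport fun w => (Real.exp (τ * Φ w) * u w) ^ 2 :=
      (hc.mul_left (f := fun w => Real.exp (τ * Φ w))).comp_left (g := fun t : ℝ => t ^ 2)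
        (by simp)
    have h2 : ∫ w, Real.exp (2 * τ * b) * g w ≤ ∫ w, (Real.exp (τ * Φ w) * u w) ^ 2 := by
      refine integral_mono ((hgc.integrable_of_hasCompactSupport hgs).const_mul _)
        (hc2.integrable_of_hasCompactSupport hs2) fun w => ?_
      show Real.exp (2 * τ * b) * (min 1 (max 0 (Φ w - b)) * u w ^ 2) ≤
        (Real.exp (τ * Φ w) * u w) ^ 2
      rcases le_total (Φ w) b with hw | hw
      · rw [max_eq_left (by linarith), min_eq_right zero_le_one, zero_mul, mul_zero]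
        exact sq_nonneg _
      · have t1 : Real.exp (2 * τ * b) ≤ Real.exp (τ * Φ w) ^ 2 := by
          rw [← Real.exp_nat_mul]
          apply Real.exp_le_exp.2
          have := mul_le_mul_of_nonneg_left hw hτ0
          push_cast
          linarith
        have t2 : min 1 (max 0 (Φ w - b)) * u w ^ 2 ≤ u w ^ 2 :=
          mul_le_of_le_one_left (sq_nonneg _) (min_le_left _ _)
        rw [mul_pow]
        exact mul_le_mul t1 t2 (hg0 w) (sq_nonneg _)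
    rw [integral_const_mul] at h2
    have h3 := le_trans h2 h1
    have e : C * Real.exp (-(2 * τ * ε₁)) =
        Real.exp (2 * τ * b) * (C * Real.exp (-(τ * (2 * (ε₁ + b))))) := by
      rw [mul_left_comm, ← Real.exp_add]
      congr 2
      ring
    rw [e] at h3
    exact le_of_mul_le_mul_left h3 (Real.exp_pos _)
  have lim : Tendsto (fun τ : ℝ => C * Real.exp (-(τ * (2 * (ε₁ + b))))) atTop (𝓝 (C * 0)) := by
    refine Tendsto.const_mul C (Real.tendsto_exp_neg_atTop_nhds_zero.comp ?_)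
    exact tendsto_id.atTop_mul_const (by linarith)
  rw [mul_zero] at lim
  have := ge_of_tendsto lim (eventually_atTop.2 ⟨max τ₁ 0, key⟩)
  linarith

end Pool.Agent.Lib.MP_45f3cb_gt.Fa
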