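import Pool.Agent.Lib.MP_45f3cb_gt.Fa.NumC
import Pool.Agent.Lib.MP_45f3cb_gt.Fa.NumH

/-!
Step 2: comparison of weights.
-/

namespace Pool.Agent.Lib.MP_45f3cb_gt.Fa

theorem S2C_lin (N : ℕ) : (N : ℝ) + 1 ≤ 2 ^ N := by
  exact_mod_cast Nat.succ_le_of_lt (Nat.lt_two_pow_self (n := N))

theorem S2C_sq (N : ℕ) : ((N : ℝ) + 1) ^ 2 ≤ 4 * 2 ^ N := by
  induction N with
  | zero => norm_num
  | succ N ih =>
    have h1 := S2C_lin N
    have h2 : (0 : ℝ) ≤ N := Nat.cast_nonneg N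
    rw [pow_succ (2 : ℝ)]
    push_cast
    nlinarith

theorem S2C_four (N : ℕ) : (N : ℝ) + 1 ≤ 4 ^ N :=
  (S2C_lin N).trans (pow_le_pow_left₀ (by norm_num) (by norm_num) N)

theorem S2C_omp (ρ : ℝ) (N : ℕ) : omp (ρ / 2) N * ((N : ℝ) + 1) =
    ρ ^ (2 * N) / (N.factorial : ℝ) / 4 ^ N := by
  have h1 : (N.factorial : ℝ) ≠ 0 := by exact_mod_cast N.factorial_ne_zero
  have h2 : (N : ℝ) + 1 ≠ 0 := by positivity
  rw [omp, Nat.factorial_succ, div_pow, pow_mul (2 : ℝ), show (2 : ℝ) ^ 2 = 4 by norm_num]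
  push_cast
  field_simp

theorem S2C_two {ρ : ℝ} (hρ : 0 < ρ) (N₁ N : ℕ) :
    omp (ρ / 2) N * ((N : ℝ) + 1) ^ 2 ≤ om ρ N₁ N := by
  refine le_trans ?_ (le_om hρ N₁ N)
  rw [sq, ← mul_assoc, S2C_omp, div_mul_eq_mul_div, div_le_iff₀ (by positivity)]
  exact mul_le_mul_of_nonneg_left (S2C_four N) (by positivity)

theorem S2C_one {ρ : ℝ} (hρ : 0 < ρ) (N₁ N : ℕ) :
    omp (ρ / 2) N * ((N : ℝ) + 1) ≤ 1 / ρ ^ 2 * om ρ N₁ (N + 1) := by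
  refine le_trans ?_ (mul_le_mul_of_nonneg_left (le_om hρ N₁ (N + 1)) (by positivity))
  have h1 : (0 : ℝ) < N.factorial := by exact_mod_cast N.factorial_pos
  have e : 1 / ρ ^ 2 * (ρ ^ (2 * (N + 1)) / ((N + 1).factorial : ℝ)) =
      ρ ^ (2 * N) / (N.factorial : ℝ) / ((N : ℝ) + 1) := by
    rw [Nat.factorial_succ, mul_add, pow_add]
    push_cast
    field_simp
  rw [S2C_omp, e]
  exact div_le_div_of_nonneg_left (by positivity) (by positivity) (S2C_four N)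

theorem S2C_three {ρ : ℝ} (hρ : 0 < ρ) (N₁ N : ℕ) :
    omp (ρ / 2) (N + 1) * ((N : ℝ) + 1) ^ 3 ≤ ρ ^ 2 * om ρ N₁ N := by
  refine le_trans ?_ (mul_le_mul_of_nonneg_left (le_om hρ N₁ N) (by positivity))
  have h1 : (0 : ℝ) < N.factorial := by exact_mod_cast N.factorial_pos
  have h2 : (0 : ℝ) ≤ N := Nat.cast_nonneg N
  have h3 := omp_pos (half_pos hρ) N
  have h4 : omp (ρ / 2) N * ((N : ℝ) + 1) ^ 2 ≤ ρ ^ (2 * N) / (N.factorial : ℝ) := by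
    rw [sq, ← mul_assoc, S2C_omp, div_mul_eq_mul_div, div_le_iff₀ (by positivity)]
    exact mul_le_mul_of_nonneg_left (S2C_four N) (by positivity)
  have h5 : (ρ / 2) ^ 2 / ((N : ℝ) + 2) * ((N : ℝ) + 1) ≤ ρ ^ 2 := by
    rw [div_mul_eq_mul_div, div_le_iff₀ (by positivity)]
    nlinarith [sq_nonneg ρ, mul_nonneg (sq_nonneg ρ) h2]
  calc omp (ρ / 2) (N + 1) * ((N : ℝ) + 1) ^ 3 = ((ρ / 2) ^ 2 / ((N : ℝ) + 2) * ((N : ℝ) + 1)) *
        (omp (ρ / 2) N * ((N : ℝ) + 1) ^ 2) := by rw [omp_succ]; ring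
    _ ≤ _ := mul_le_mul h5 h4 (by positivity) (by positivity)

/-- the polynomial factors in the level are absorbed by a smaller radius -/
theorem omp_abs {ρ : ℝ} (hρ : 0 < ρ) : ∃ C, 0 ≤ C ∧ ∀ (N₂ : ℕ) (y : ℕ → ℝ), (∀ N, 0 ≤ y N) →
    ∑ N ∈ Finset.range (N₂ + 1), omp (ρ / 2) N *
      (((N : ℝ) + 1) * y (N + 1) + ((N : ℝ) + 1) ^ 2 * y N + (N : ℝ) ^ 3 * y (N - 1)) ≤
    C * ∑ N ∈ Finset.range (N₂ + 2), om ρ (N₂ + 2) N * y N := by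
  refine ⟨1 / ρ ^ 2 + 1 + ρ ^ 2, by positivity, fun N₂ y hy => ?_⟩
  have hp : ∀ N, 0 ≤ om ρ (N₂ + 2) N * y N := fun N => mul_nonneg (om_pos hρ _ _).le (hy N)
  have h1 : ∑ N ∈ Finset.range (N₂ + 1), omp (ρ / 2) N * (((N : ℝ) + 1) * y (N + 1)) ≤
      1 / ρ ^ 2 * ∑ N ∈ Finset.range (N₂ + 2), om ρ (N₂ + 2) N * y N := by
    rw [Finset.sum_range_succ' _ (N₂ + 1), mul_add, Finset.mul_sum]
    refine le_add_of_le_of_nonneg (Finset.sum_le_sum fun N _ => ?_)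
      (mul_nonneg (by positivity) (hp 0))
    rw [← mul_assoc, ← mul_assoc]
    exact mul_le_mul_of_nonneg_right (S2C_one hρ _ N) (hy _)
  have h2 : ∑ N ∈ Finset.range (N₂ + 1), omp (ρ / 2) N * (((N : ℝ) + 1) ^ 2 * y N) ≤
      ∑ N ∈ Finset.range (N₂ + 2), om ρ (N₂ + 2) N * y N := by
    rw [Finset.sum_range_succ _ (N₂ + 1)]
    refine le_add_of_le_of_nonneg (Finset.sum_le_sum fun N _ => ?_) (hp _)
    rw [← mul_assoc]
    exact mul_le_mul_of_nonneg_right (S2C_two hρ _ N) (hy _)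
  have h3 : ∑ N ∈ Finset.range (N₂ + 1), omp (ρ / 2) N * ((N : ℝ) ^ 3 * y (N - 1)) ≤
      ρ ^ 2 * ∑ N ∈ Finset.range (N₂ + 2), om ρ (N₂ + 2) N * y N := by
    rw [Finset.sum_range_succ' _ N₂, Finset.sum_range_succ _ (N₂ + 1), Finset.sum_range_succ _ N₂,
      mul_add, mul_add, Finset.mul_sum, add_assoc]
    refine add_le_add (Finset.sum_le_sum fun N _ => ?_) ?_
    · rw [← mul_assoc, ← mul_assoc, Nat.add_sub_cancel, Nat.cast_succ]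
      exact mul_le_mul_of_nonneg_right (S2C_three hρ _ N) (hy _)
    · rw [Nat.cast_zero, zero_pow (by norm_num), zero_mul, mul_zero]
      exact add_nonneg (mul_nonneg (sq_nonneg ρ) (hp _)) (mul_nonneg (sq_nonneg ρ) (hp _))
  simp only [mul_add, add_mul, Finset.sum_add_distrib] at h1 h2 h3 ⊢
  linarith

theorem om_geo {ρ A : ℝ} (hρ : 0 < ρ) (hA : 1 ≤ A) (h : 8 * ρ ^ 2 * A ≤ 1) : ∃ C, 0 ≤ C ∧ ∀ N₁ N : ℕ,
    N ≤ N₁ + 2 → om ρ N₁ N ≤ 1 ∧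
      om ρ N₁ N * (((N : ℝ) + 1) ^ 2 * (A ^ (N + 2) * (N.factorial : ℝ))) ≤ C * (1 / 2) ^ N ∧
      omp (ρ / 2) N * (((N : ℝ) + 1) ^ 3 * (A ^ (N + 2) * (N.factorial : ℝ))) ≤ C * (1 / 2) ^ N := by
  refine ⟨4 * A ^ 2, by positivity, fun N₁ N hN => ?_⟩
  have hA0 : 0 < A := by linarith
  have hf : (1 : ℝ) ≤ N.factorial := by exact_mod_cast N.factorial_pos
  have h1 := om_le hρ hN
  have h2 : 2 * ρ ^ 2 ≤ 1 := by nlinarith [sq_nonneg ρ]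
  have key : (2 * ρ ^ 2) ^ N / (N.factorial : ℝ) *
      (((N : ℝ) + 1) ^ 2 * (A ^ (N + 2) * (N.factorial : ℝ))) ≤ 4 * A ^ 2 * (1 / 2) ^ N := by
    have h3 : (2 * ρ ^ 2 * A) ^ N ≤ (1 / 4) ^ N :=
      pow_le_pow_left₀ (by positivity) (by linarith) N
    calc _ = (2 * ρ ^ 2 * A) ^ N * ((N : ℝ) + 1) ^ 2 * A ^ 2 := by
          rw [mul_pow _ A, pow_add]; field_simp
      _ ≤ (1 / 4) ^ N * (4 * 2 ^ N) * A ^ 2 := by gcongr; exact S2C_sq N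
      _ = 4 * A ^ 2 * ((1 / 4) ^ N * 2 ^ N) := by ring
      _ = _ := by rw [← mul_pow]; norm_num
  refine ⟨h1.trans ((div_le_one (by positivity)).2 ((pow_le_one₀ (by positivity) h2).trans hf)),
    (mul_le_mul_of_nonneg_right h1 (by positivity)).trans key, le_trans ?_ key⟩
  rw [pow_succ' ((N : ℝ) + 1) 2, mul_assoc ((N : ℝ) + 1), ← mul_assoc, S2C_omp]
  refine mul_le_mul_of_nonneg_right ?_ (by positivity)
  refine (div_le_self (by positivity) (one_le_pow₀ (by norm_num))).trans ?_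
  rw [pow_mul]
  exact div_le_div_of_nonneg_right (pow_le_pow_left₀ (sq_nonneg ρ) (by nlinarith [sq_nonneg ρ]) N)
    (by positivity)

end Pool.Agent.Lib.MP_45f3cb_gt.Fa
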