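import Pool.Agent.Lib.MP_45f3cb_gt.Fa.S20
import Pool.Agent.Lib.MP_45f3cb_gt.Fa.S2B
import Pool.Agent.Lib.MP_45f3cb_gt.Fa.S2C

/-!
Step 2: the integrated remainder.
-/

open Set MeasureTheory Filter Topology Matrix

namespace Pool.Agent.Lib.MP_45f3cb_gt.Fa

variable {n : ℕ}

namespace S2G

variable {g : V n → Mat n} {Φ₀ : V n → ℝ} {x₀ : V n} {K : Set (V n)} {O Ω : Set (Z n)}
  (T : S2G g Φ₀ x₀ K O)

theorem S2K_off {x : V n} (hx : x ∉ Metric.closedBall x₀ T.r) :
    T.η₀ x = 0 ∧ fderiv ℝ T.η₀ x = 0 := by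
  have h : T.η₀ =ᶠ[𝓝 x] fun _ => 0 := by
    filter_upwards [Metric.isClosed_closedBall.isOpen_compl.mem_nhds hx] with y hy
    by_contra h0
    exact hy (T.η₀_supp y h0)
  exact ⟨h.self_of_nhds, by rw [h.fderiv_eq]; simp⟩

theorem S2K_bound : ∃ M, 0 ≤ M ∧ ∀ x ∈ Metric.closedBall x₀ T.r,
    T.η₀ x ^ 2 ≤ M ∧ ∑ c, pd c T.η₀ x ^ 2 ≤ M := by
  have hc : Continuous fun x => T.η₀ x ^ 2 + ∑ c, pd c T.η₀ x ^ 2 :=
    (T.sη₀.continuous.pow 2).add
      (continuous_finsetSum _ fun c _ => (T.sη₀.pd c).continuous.pow 2)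
  obtain ⟨M, hM⟩ := (isCompact_closedBall x₀ T.r).exists_bound_of_continuousOn hc.continuousOn
  refine ⟨max M 0, le_max_right _ _, fun x hx => ?_⟩
  have h1 := (le_abs_self _).trans (hM x hx)
  have h2 : 0 ≤ ∑ c, pd c T.η₀ x ^ 2 := Finset.sum_nonneg fun c _ => sq_nonneg _
  have h3 := sq_nonneg (T.η₀ x)
  have h4 := le_max_left M 0
  constructor <;> linarith

theorem S2K_intg {w : Z n → ℝ} (hw : Sm w) (τ : ℝ) (N : ℕ) :
    Continuous (fun z => (Real.exp (τ * T.Φ z) * T.η z) ^ 2 * jn N w z) ∧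
    Integrable (fun z => (Real.exp (τ * T.Φ z) * T.η z) ^ 2 * jn N w z) := by
  have hc : Continuous (fun z => (Real.exp (τ * T.Φ z) * T.η z) ^ 2 * jn N w z) :=
    (((Real.continuous_exp.comp (continuous_const.mul T.sΦz.continuous)).mul
      T.sη.continuous).pow 2).mul (cont_jn hw N)
  refine ⟨hc, intg hc ?_⟩
  refine HasCompactSupport.intro ((isCompact_closedBall x₀ T.r).prod T.cS₂) fun z hz => ?_
  have h0 : T.η z = 0 := by
    by_contra h0
    have h1 := mul_ne_zero_iff.1 h0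
    exact hz ⟨T.η₀_supp _ h1.1, T.η₁_supp _ h1.2⟩
  rw [h0]; simp

theorem S2K_cj_nonneg (w : Z n → ℝ) (N : ℕ) (z : Z n) : 0 ≤ cj w N z := by
  have h1 := jn_nonneg (N + 1) w z
  have h2 := jn_nonneg N w z
  have h3 := jn_nonneg (N - 1) w z
  unfold cj
  positivity

theorem S2K_cont_cj {w : Z n → ℝ} (hw : Sm w) (N : ℕ) : Continuous (cj w N) :=
  ((continuous_const.mul (cont_jn hw _)).add (continuous_const.mul (cont_jn hw _))).add
    (continuous_const.mul (cont_jn hw _))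

theorem S2K_int_cj {w : Z n → ℝ} {A : ℝ} (hO : IsCompact O) (hw : Sm w) (h1 : 1 ≤ A)
    (hA : An w O A) (N : ℕ) :
    ∫ z in O, cj w N z ≤ 3 * (((N : ℝ) + 1) ^ 3 * (A ^ (N + 2) * (N.factorial : ℝ))) := by
  have hi : ∀ k, IntegrableOn (jn k w) O := fun k =>
    (cont_jn hw k).continuousOn.integrableOn_compact hO
  unfold cj
  have h12 : IntegrableOn (fun z => ((N : ℝ) + 1) * jn (N + 1) w z + ((N : ℝ) + 1) ^ 2 * jn N w z)
      O := ((hi _).const_mul _).add ((hi _).const_mul _)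
  rw [integral_add h12 ((hi _).const_mul _),
    integral_add ((hi _).const_mul _) ((hi _).const_mul _), integral_const_mul,
    integral_const_mul, integral_const_mul]
  have hN : (0 : ℝ) ≤ N := Nat.cast_nonneg N
  have hF : (0 : ℝ) ≤ N.factorial := Nat.cast_nonneg _
  have hA0 : 0 ≤ A := by linarith
  have e1 : ((N : ℝ) + 1) * ∫ z in O, jn (N + 1) w z ≤
      ((N : ℝ) + 1) ^ 3 * (A ^ (N + 2) * (N.factorial : ℝ)) := by
    refine (mul_le_mul_of_nonneg_left (hA (N + 1)) (by positivity)).trans ?_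
    rw [Nat.factorial_succ]
    push_cast
    have : 0 ≤ (N : ℝ) * ((N : ℝ) + 1) ^ 2 * (A ^ (N + 2) * (N.factorial : ℝ)) := by positivity
    rw [show N + 1 + 1 = N + 2 from rfl]
    nlinarith
  have e2 : ((N : ℝ) + 1) ^ 2 * ∫ z in O, jn N w z ≤
      ((N : ℝ) + 1) ^ 3 * (A ^ (N + 2) * (N.factorial : ℝ)) := by
    refine (mul_le_mul_of_nonneg_left (hA N) (by positivity)).trans ?_
    refine mul_le_mul (pow_le_pow_right₀ (by linarith) (by norm_num)) ?_ (by positivity)
      (by positivity)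
    exact mul_le_mul_of_nonneg_right (pow_le_pow_right₀ h1 (by omega)) hF
  have e3 : (N : ℝ) ^ 3 * ∫ z in O, jn (N - 1) w z ≤
      ((N : ℝ) + 1) ^ 3 * (A ^ (N + 2) * (N.factorial : ℝ)) := by
    refine (mul_le_mul_of_nonneg_left (hA (N - 1)) (by positivity)).trans ?_
    refine mul_le_mul (pow_le_pow_left₀ hN (by linarith) 3) ?_ (by positivity) (by positivity)
    refine mul_le_mul (pow_le_pow_right₀ h1 (by omega)) ?_ (by positivity) (by positivity)
    exact_mod_cast Nat.factorial_le (Nat.sub_le N 1)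
  linarith

theorem S2K_geo (N₂ : ℕ) : ∑ N ∈ Finset.range N₂, ((1 : ℝ) / 2) ^ N ≤ 2 := by
  have h : ∑ N ∈ Finset.range N₂, ((1 : ℝ) / 2) ^ N = 2 - 2 * (1 / 2) ^ N₂ := by
    induction N₂ with
    | zero => simp
    | succ k ih => rw [Finset.sum_range_succ, ih, pow_succ]; ring
  have : (0 : ℝ) ≤ (1 / 2) ^ N₂ := by positivity
  linarith

variable {d : ℕ} {w f : Z n → ℝ} {A : ℝ}

/-- Sketch: split `hh`; `omp_abs` pointwise and `fib_le` for the main part; `cut₀`, `neg`,
`fib_le_set`, `An`, `om_geo` for the rest (off `K` the density vanishes). -/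
theorem dens_le (h : Sol g d K Ω w f) (h1 : 1 ≤ A) (hA : An w O A) (hA' : ∀ c, An (dx c w) O A)
    {ρ : ℝ} (hρ : 0 < ρ) (h8 : 8 * ρ ^ 2 * A ≤ 1) : ∃ c, 0 ≤ c ∧ ∀ (τ : ℝ) (N₂ : ℕ), 1 ≤ τ →
      ∫ x, T.hh τ x * ∫ v in T.S, dens w ρ N₂ (x, v) ≤ c * τ * T.NN w ρ τ (N₂ + 2) +
        c * τ * (Real.exp (-(2 * τ * T.ε₀)) + (1 / 2) ^ (N₂ + 2)) := by
  obtain ⟨C₁, hC₁, H₁⟩ := omp_abs hρ
  obtain ⟨C₂, hC₂, H₂⟩ := om_geo hρ h1 h8
  obtain ⟨M, hM, HM⟩ := T.S2K_bound
  have hw := h.smw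
  have hn : (0 : ℝ) ≤ n := Nat.cast_nonneg n
  refine ⟨C₁ + M * C₂ * (6 + 8 * n), by positivity, fun τ N₂ hτ => ?_⟩
  have hτ0 : 0 ≤ τ := by linarith
  have hρ2 : 0 < ρ / 2 := by linarith
  set e := Real.exp (-(2 * τ * T.ε₀)) with he
  have he0 : 0 ≤ e := (Real.exp_pos _).le
  let D₁ : Z n → ℝ := fun z => ∑ N ∈ Finset.range (N₂ + 1), omp (ρ / 2) N * cj w N z
  let D₂ : Z n → ℝ := fun z => omp (ρ / 2) N₂ * ∑ e, (jn N₂ (dx e w) z + jn N₂ w z)
  let P : Z n → ℝ := fun z => ∑ N ∈ Finset.range (N₂ + 2),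
    om ρ (N₂ + 2) N * ((Real.exp (τ * T.Φ z) * T.η z) ^ 2 * jn N w z)
  have cD₁ : Continuous D₁ :=
    continuous_finsetSum _ fun N _ => continuous_const.mul (S2K_cont_cj hw N)
  have cD₂ : Continuous D₂ := continuous_const.mul
    (continuous_finsetSum _ fun c _ => (cont_jn (hw.dx c) _).add (cont_jn hw _))
  have cP : Continuous P :=
    continuous_finsetSum _ fun N _ => continuous_const.mul (T.S2K_intg hw τ N).1
  have iP : Integrable P :=
    integrable_finsetSum _ fun N _ => (T.S2K_intg hw τ N).2.const_mul _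
  have nD₁ : ∀ z, 0 ≤ D₁ z := fun z =>
    Finset.sum_nonneg fun N _ => mul_nonneg (omp_pos hρ2 N).le (S2K_cj_nonneg w N z)
  have nD₂ : ∀ z, 0 ≤ D₂ z := fun z => mul_nonneg (omp_pos hρ2 _).le
    (Finset.sum_nonneg fun c _ => add_nonneg (jn_nonneg _ _ _) (jn_nonneg _ _ _))
  have nP : ∀ z, 0 ≤ P z := fun z => Finset.sum_nonneg fun N _ =>
    mul_nonneg (om_pos hρ _ _).le (mul_nonneg (sq_nonneg _) (jn_nonneg _ _ _))
  have chh : Continuous (T.hh τ) :=
    ((Real.continuous_exp.comp (continuous_const.mul T.sΦ.continuous)).pow 2).mul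
      ((continuous_const.mul (T.sη₀.continuous.pow 2)).add
        (continuous_finsetSum _ fun c _ => (T.sη₀.pd c).continuous.pow 2))
  have key := fib_le_set (G := fun z => T.hh τ z.1 * dens w ρ N₂ z)
    (H := fun z => C₁ * τ * P z + (τ * M * D₂ z + M * e * (D₁ z + D₂ z))) T.cS
    (isCompact_closedBall x₀ T.r) T.cO
    ((Set.prod_mono Subset.rfl T.sub₂).trans T.sub)
    ((chh.comp continuous_fst).mul (cont_dens hw ρ N₂))
    ((continuous_const.mul cP).add
      ((continuous_const.mul cD₂).add (continuous_const.mul (cD₁.add cD₂))))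
    (fun z => by
      have := nP z; have := nD₁ z; have := nD₂ z
      positivity)
    (fun x hx v hv => by
      have p1 := nP (x, v); have p2 := nD₁ (x, v); have p3 := nD₂ (x, v)
      by_cases hK : x ∈ K
      · have hd : dens w ρ N₂ (x, v) = D₁ (x, v) + D₂ (x, v) := rfl
        have hE : Real.exp (τ * Φ₀ x) ^ 2 ≤ 1 := by
          rw [← Real.exp_nat_mul, Real.exp_le_one_iff]
          have := mul_nonneg hτ0 (neg_nonneg.2 (T.neg x hK))
          push_cast
          linarith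
        have hE0 : 0 ≤ Real.exp (τ * Φ₀ x) ^ 2 := sq_nonneg _
        have q1 : Real.exp (τ * Φ₀ x) ^ 2 * T.η₀ x ^ 2 * D₁ (x, v) ≤ C₁ * P (x, v) := by
          have h2 := H₁ N₂ (fun N => jn N w (x, v)) fun N => jn_nonneg _ _ _
          have h3 : P (x, v) = Real.exp (τ * Φ₀ x) ^ 2 * T.η₀ x ^ 2 *
              ∑ N ∈ Finset.range (N₂ + 2), om ρ (N₂ + 2) N * jn N w (x, v) := by
            rw [Finset.mul_sum]
            refine Finset.sum_congr rfl fun N _ => ?_
            simp only [Φ, η, T.ψ₀_zero v hv, T.η₁_one v hv, sub_zero, mul_one]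
            ring
          rw [h3, mul_left_comm]
          exact mul_le_mul_of_nonneg_left h2 (by positivity)
        have q2 : Real.exp (τ * Φ₀ x) ^ 2 * T.η₀ x ^ 2 ≤ M := by
          have := mul_le_mul hE (HM x hx).1 (sq_nonneg _) zero_le_one
          linarith
        have q3 : Real.exp (τ * Φ₀ x) ^ 2 * ∑ c, pd c T.η₀ x ^ 2 ≤ M * e := by
          by_cases h0 : fderiv ℝ T.η₀ x = 0
          · have : ∑ c, pd c T.η₀ x ^ 2 = 0 := Finset.sum_eq_zero fun c _ => by simp [pd, h0]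
            rw [this, mul_zero]
            positivity
          · have h2 : Real.exp (τ * Φ₀ x) ^ 2 ≤ e := by
              rw [← Real.exp_nat_mul, he, Real.exp_le_exp]
              have := mul_le_mul_of_nonneg_left (T.cut₀ x hK h0) hτ0
              push_cast
              linarith
            rw [mul_comm M]
            exact mul_le_mul h2 (HM x hx).2 (Finset.sum_nonneg fun c _ => sq_nonneg _) he0
        have r1 := mul_le_mul_of_nonneg_left q1 hτ0
        have r2 := mul_le_mul_of_nonneg_right (mul_le_mul_of_nonneg_left q2 hτ0) p3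
        have r3 := mul_le_mul_of_nonneg_right q3 (add_nonneg p2 p3)
        simp only [hh, hd]
        nlinarith
      · have hz : ∀ N, jn N w (x, v) = 0 := fun N => jn_off (fun y => h.off (x, y) hK) N
        have hz' : ∀ c N, jn N (dx c w) (x, v) = 0 := fun c N =>
          jn_off (fun y => dx_off T.clK h.off c (x, y) hK) N
        have hd : dens w ρ N₂ (x, v) = 0 := by simp [dens, cj, hz, hz']
        simp only [hd, mul_zero]
        positivity)
    (fun x hx v _ => by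
      have h2 := T.S2K_off hx
      have : T.hh τ x = 0 := by simp [hh, pd, h2.1, h2.2]
      simp only [this, zero_mul])
  simp only [integral_const_mul] at key
  have iD₁ : IntegrableOn D₁ O := cD₁.continuousOn.integrableOn_compact T.cO
  have iD₂ : IntegrableOn D₂ O := cD₂.continuousOn.integrableOn_compact T.cO
  have i12 : IntegrableOn (fun z => D₁ z + D₂ z) O := iD₁.add iD₂
  have i13 : IntegrableOn (fun z => τ * M * D₂ z + M * e * (D₁ z + D₂ z)) O :=
    (iD₂.const_mul _).add (i12.const_mul _)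
  rw [integral_add (iP.integrableOn.const_mul _) i13,
    integral_add (iD₂.const_mul _) (i12.const_mul _), integral_const_mul (C₁ * τ),
    integral_const_mul (τ * M), integral_const_mul (M * e), integral_add iD₁ iD₂] at key
  have b1 : ∫ z in O, P z ≤ T.NN w ρ τ (N₂ + 2) := by
    refine (setIntegral_le_integral iP (Eventually.of_forall nP)).trans (le_of_eq ?_)
    rw [integral_finsetSum _ fun N _ => (T.S2K_intg hw τ N).2.const_mul _]
    exact Finset.sum_congr rfl fun N _ => integral_const_mul _ _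
  have b0 : 0 ≤ T.NN w ρ τ (N₂ + 2) := (setIntegral_nonneg T.cO.measurableSet
    fun z _ => nP z).trans b1
  have b2 : ∫ z in O, D₁ z ≤ 6 * C₂ := by
    rw [integral_finsetSum _ fun N _ =>
      ((S2K_cont_cj hw N).continuousOn.integrableOn_compact T.cO).const_mul _]
    have h2 : ∀ N ∈ Finset.range (N₂ + 1), ∫ z in O, omp (ρ / 2) N * cj w N z ≤
        3 * C₂ * (1 / 2) ^ N := fun N _ => by
      rw [integral_const_mul]
      have h3 := mul_le_mul_of_nonneg_left (S2K_int_cj T.cO hw h1 hA N) (omp_pos hρ2 N).le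
      have h4 := (H₂ N N (by omega)).2.2
      linarith
    refine (Finset.sum_le_sum h2).trans ?_
    rw [← Finset.mul_sum]
    have := mul_le_mul_of_nonneg_left (S2K_geo (N₂ + 1)) (show 0 ≤ 3 * C₂ by positivity)
    linarith
  have b3 : ∫ z in O, D₂ z ≤ 2 * n * C₂ * (1 / 2) ^ N₂ := by
    have i1 : ∀ c, IntegrableOn (jn N₂ (dx c w)) O := fun c =>
      (cont_jn (hw.dx c) _).continuousOn.integrableOn_compact T.cO
    have i2 : IntegrableOn (jn N₂ w) O := (cont_jn hw _).continuousOn.integrableOn_compact T.cO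
    have i3 : ∀ c, IntegrableOn (fun z => jn N₂ (dx c w) z + jn N₂ w z) O := fun c => (i1 c).add i2
    rw [integral_const_mul, integral_finsetSum _ fun c _ => i3 c]
    have hA0 : 0 ≤ A := by linarith
    have h5 : A ^ (N₂ + 1) * (N₂.factorial : ℝ) ≤
        ((N₂ : ℝ) + 1) ^ 3 * (A ^ (N₂ + 2) * (N₂.factorial : ℝ)) := by
      have h6 : (1 : ℝ) ≤ ((N₂ : ℝ) + 1) ^ 3 :=
        one_le_pow₀ (by have : (0 : ℝ) ≤ N₂ := Nat.cast_nonneg _; linarith)
      refine le_trans ?_ (le_mul_of_one_le_left (by positivity) h6)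
      exact mul_le_mul_of_nonneg_right (pow_le_pow_right₀ h1 (by omega)) (Nat.cast_nonneg _)
    have h2 : ∀ c ∈ (Finset.univ : Finset (Fin n)), ∫ z in O, (jn N₂ (dx c w) z + jn N₂ w z) ≤
        2 * (((N₂ : ℝ) + 1) ^ 3 * (A ^ (N₂ + 2) * (N₂.factorial : ℝ))) := fun c _ => by
      rw [integral_add (i1 c) i2]
      have := hA N₂
      have := hA' c N₂
      linarith
    have h3 := mul_le_mul_of_nonneg_left (Finset.sum_le_sum h2) (omp_pos hρ2 N₂).le
    rw [Finset.sum_const, Finset.card_univ, Fintype.card_fin, nsmul_eq_mul] at h3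
    have h4 := mul_le_mul_of_nonneg_left (H₂ N₂ N₂ (by omega)).2.2 (show 0 ≤ 2 * (n : ℝ) by positivity)
    linarith
  have hp : ((1 : ℝ) / 2) ^ N₂ = 4 * (1 / 2) ^ (N₂ + 2) := by rw [pow_add]; ring
  have hp0 : (0 : ℝ) ≤ (1 / 2) ^ (N₂ + 2) := by positivity
  have hp1 : ((1 : ℝ) / 2) ^ N₂ ≤ 1 := pow_le_one₀ (by norm_num) (by norm_num)
  have b4 : ∫ z in O, D₂ z ≤ 2 * n * C₂ :=
    b3.trans (mul_le_of_le_one_right (by positivity) hp1)
  rw [hp] at b3
  set q := ((1 : ℝ) / 2) ^ (N₂ + 2)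
  set X := T.NN w ρ τ (N₂ + 2)
  have s1 := mul_le_mul_of_nonneg_left b1 (show 0 ≤ C₁ * τ by positivity)
  have s2 := mul_le_mul_of_nonneg_left b3 (show 0 ≤ τ * M by positivity)
  have s3 := mul_le_mul_of_nonneg_left (add_le_add b2 b4) (show 0 ≤ M * e by positivity)
  have s4 : M * e * (6 * C₂ + 2 * n * C₂) ≤ τ * (M * e * (6 * C₂ + 2 * n * C₂)) :=
    le_mul_of_one_le_left (by positivity) hτ
  have t1 : 0 ≤ M * C₂ * (6 + 8 * n) * τ * X := by positivity
  have t2 : 0 ≤ C₁ * τ * (e + q) := by positivity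
  have t3 : 0 ≤ M * C₂ * (6 * n) * τ * e := by positivity
  have t4 : 0 ≤ M * C₂ * 6 * τ * q := by positivity
  nlinarith

end S2G

end Pool.Agent.Lib.MP_45f3cb_gt.Fa
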