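import Pool.Agent.Lib.MP_45f3cb_gt.Fa.S2F
import Pool.Agent.Lib.MP_45f3cb_gt.Fa.S2I
import Pool.Agent.Lib.MP_45f3cb_gt.Fa.S2K
import Pool.Agent.Lib.MP_45f3cb_gt.Fa.FoW

/-!
Step 2: unique continuation.
-/

open Set MeasureTheory Filter Topology Matrix

namespace Pool.Agent.Lib.MP_45f3cb_gt.Fa

variable {n : ℕ}

namespace S2G

variable {g : V n → Mat n} {Φ₀ : V n → ℝ} {x₀ : V n} {K : Set (V n)} {O Ω : Set (Z n)}
  (T : S2G g Φ₀ x₀ K O)

variable {d : ℕ} {w f : Z n → ℝ} {A : ℝ}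

theorem S2J_dens_nonneg (w : Z n → ℝ) {ρ : ℝ} (hρ : 0 < ρ) (N₂ : ℕ) (z : Z n) :
    0 ≤ dens w ρ N₂ z := by
  have h2 : ∀ N, 0 ≤ omp (ρ / 2) N := fun N => (omp_pos (half_pos hρ) N).le
  have h3 := fun N u => jn_nonneg (n := n) N u z
  refine add_nonneg (Finset.sum_nonneg fun N _ => mul_nonneg (h2 N) ?_)
    (mul_nonneg (h2 _) (Finset.sum_nonneg fun e _ => add_nonneg (h3 _ _) (h3 _ _)))
  exact add_nonneg (add_nonneg (mul_nonneg (by positivity) (h3 _ _))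
    (mul_nonneg (by positivity) (h3 _ _))) (mul_nonneg (by positivity) (h3 _ _))

theorem S2J_off {x : V n} (hx : x ∉ Metric.closedBall x₀ T.r) : T.η₀ =ᶠ[𝓝 x] fun _ => 0 := by
  filter_upwards [Metric.isClosed_closedBall.isOpen_compl.mem_nhds hx] with y hy
  by_contra hc
  exact hy (T.η₀_supp y hc)

theorem S2J_hh_off (τ : ℝ) {x : V n} (hx : x ∉ Metric.closedBall x₀ T.r) : T.hh τ x = 0 := by
  have h1 := T.S2J_off hx
  have h2 : ∀ c, pd c T.η₀ x = 0 := fun c => by simp [pd, h1.fderiv_eq]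
  simp [hh, h1.self_of_nhds, h2]

theorem S2J_cont_hh (τ : ℝ) : Continuous (T.hh τ) := by
  have h1 := T.sΦ.continuous
  have h2 := T.sη₀.continuous
  have h3 : ∀ c, Continuous (pd c T.η₀) := fun c =>
    (T.sη₀.continuous_fderiv (by simp)).clm_apply continuous_const
  unfold hh
  fun_prop

theorem S2J_IN_nonneg (w : Z n → ℝ) (τ : ℝ) (N : ℕ) : 0 ≤ T.IN w τ N :=
  integral_nonneg fun _ => mul_nonneg (sq_nonneg _) (jn_nonneg _ _ _)

/-- Sketch: `win`, `window`, `dens_le`. -/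
theorem est2 (h : Sol g d K Ω w f) (hΩ : IsOpen Ω) (hs : O ⊆ Ω)
    (hz : ∀ x, Gz T.ψ d fun y => w (x, y)) (h1 : 1 ≤ A) (hA : An w O A)
    (hA' : ∀ c, An (dx c w) O A) {ρ : ℝ} (hρ : 0 < ρ) (h8 : 8 * ρ ^ 2 * A ≤ 1) :
    ∃ C₂ τ₀ : ℝ, 0 ≤ C₂ ∧ ∀ (τ : ℝ) (N₁ : ℕ), τ₀ ≤ τ → d + 4 ≤ N₁ →
      T.FF d f τ ≤ C₂ * τ * T.NN w ρ τ N₁ +
        C₂ * τ * (Real.exp (-(2 * τ * T.ε₀)) + (1 / 2) ^ N₁) := by
  obtain ⟨ω, C, hω, hC, w0, w1, hwin⟩ := win n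
  obtain ⟨c, τ₀, hc, hτ₀, hw⟩ := T.window h hΩ hs hz hρ hω w0 w1
  obtain ⟨c', hc', hd⟩ := T.dens_le h h1 hA hA' hρ h8
  refine ⟨C * c * c', τ₀, by positivity, fun τ N₁ hτ hN => ?_⟩
  obtain ⟨N₂, rfl⟩ : ∃ N₂, N₁ = N₂ + 2 := ⟨N₁ - 2, by omega⟩
  have t1 : 1 ≤ τ := hτ₀.trans hτ
  have c1 := T.sΦ.continuous
  have c2 := T.sη₀.continuous
  have c3 := cont_jn h.smf (d + 1)
  have c4 : Continuous fun x => ∫ v in T.S, dens w ρ N₂ (x, v) :=
    continuous_parametric_integral_of_continuous (f := fun x v => dens w ρ N₂ (x, v))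
      (cont_dens h.smw ρ N₂) T.cS
  have key := hwin (Real.sqrt τ)
    (fun x => (Real.exp (τ * Φ₀ x) * T.η₀ x) ^ 2 * jn (d + 1) f (x, 0))
    (fun x => c * T.hh τ x * ∫ v in T.S, dens w ρ N₂ (x, v)) (Real.sqrt_pos.2 (by linarith))
    (by fun_prop)
    (HasCompactSupport.intro (isCompact_closedBall x₀ T.r) fun x hx => by
      simp [(T.S2J_off hx).self_of_nhds])
    ((continuous_const.mul (T.S2J_cont_hh τ)).mul c4)
    (HasCompactSupport.intro (isCompact_closedBall x₀ T.r) fun x hx => by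
      simp [T.S2J_hh_off τ hx])
    (fun x => mul_nonneg (sq_nonneg _) (jn_nonneg _ _ _))
    (fun x => mul_nonneg (mul_nonneg hc (by unfold hh; positivity))
      (integral_nonneg fun v => S2J_dens_nonneg w hρ N₂ _))
    fun x₁ => hw τ N₂ x₁ hτ (by omega)
  simp only [mul_assoc c, integral_const_mul] at key
  have h2 := mul_le_mul_of_nonneg_left (hd τ N₂ t1) (mul_nonneg hC hc)
  unfold FF
  linarith

/-- Sketch: `ρ = 1 / (3 A)`; `est1`, `est2`, `fin_num` with `I τ = IN w τ 0`, `vanish` for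
`u = η w`. -/
theorem zero_near (h : Sol g d K Ω w f) (hΩ : IsOpen Ω) (hs : O ⊆ Ω)
    (hz : ∀ x, Gz T.ψ d fun y => w (x, y)) (h1 : 1 ≤ A) (hA : An w O A)
    (hA' : ∀ c, An (dx c w) O A) : ∀ᶠ x in 𝓝 x₀, ∀ v ∈ T.S, w (x, v) = 0 := by
  have hA0 : 0 < A := by linarith
  have hρ : 0 < 1 / (3 * A) := by positivity
  have h8 : 8 * (1 / (3 * A)) ^ 2 * A ≤ 1 := by
    rw [show 8 * (1 / (3 * A)) ^ 2 * A = 8 / (9 * A) by field_simp; norm_num,
      div_le_one (by positivity)]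
    linarith
  obtain ⟨C₁, c₁, δ₀, hC₁, hc₁, hδ₀, e1⟩ := T.est1 h hΩ hs h1 hA hA' hρ h8
  obtain ⟨C₂, τ₀, hC₂, e2⟩ := T.est2 h hΩ hs hz h1 hA hA' hρ h8
  have n0 : ∀ τ N₁ N, 0 ≤ om (1 / (3 * A)) N₁ N * T.IN w τ N := fun τ N₁ N =>
    mul_nonneg (om_pos hρ _ _).le (T.S2J_IN_nonneg w τ N)
  obtain ⟨ε₁, C, τ₁, hε₁, e3⟩ := fin_num (I := fun τ => T.IN w τ 0) hC₁ hC₂ hc₁ hδ₀ T.hε₀
    (fun τ N₁ => Finset.sum_nonneg fun N _ => n0 τ N₁ N) e1 e2 fun τ N₁ hN => by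
      have := Finset.single_le_sum (f := fun N => om (1 / (3 * A)) N₁ N * T.IN w τ N)
        (fun N _ => n0 τ N₁ N) (Finset.mem_range.2 (show 0 < N₁ by omega))
      simpa [om, NN] using this
  have hv : ∀ z, -ε₁ < T.Φ z → T.η z * w z = 0 := fun z hz' =>
    vanish (u := fun z => T.η z * w z) (C := C) (τ₁ := τ₁) T.sΦz.continuous
      (T.sη.continuous.mul h.smw.continuous)
      (HasCompactSupport.intro ((isCompact_closedBall x₀ T.r).prod T.cS₂) fun z hz => by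
        by_contra hc
        have h2 := mul_ne_zero_iff.1 (mul_ne_zero_iff.1 hc).1
        exact hz ⟨T.η₀_supp _ h2.1, T.η₁_supp _ h2.2⟩)
      (fun τ hτ => by
        refine le_trans (le_of_eq ?_) (e3 τ hτ)
        unfold IN
        congr 1
        funext z
        rw [jn_zero]
        ring) hz'
  have hn : ∀ᶠ x in 𝓝 x₀, -ε₁ < Φ₀ x :=
    T.sΦ.continuous.continuousAt.eventually (lt_mem_nhds (by rw [T.zero]; linarith))
  filter_upwards [hn, T.η₀_one] with x hx hx1 v hv'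
  have := hv (x, v) (by simpa [Φ, T.ψ₀_zero v hv'] using hx)
  simpa [η, hx1, T.η₁_one v hv'] using this

end S2G

end Pool.Agent.Lib.MP_45f3cb_gt.Fa
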