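import Pool.Agent.Lib.MP_45f3cb_gt.Fa.S1C

/-!
Step 1: analyticity in the fibre.
-/

open Set MeasureTheory Filter Topology Matrix

namespace Pool.Agent.Lib.MP_45f3cb_gt.Fa

variable {n : ℕ}

theorem S1E_int {ι : Type} [Fintype ι] (C : Ctx n) (P : ι → C.M) (k : ℕ) {O : Set (Z n)}
    (hO : IsCompact O) {u : Z n → ℝ} (hu : Continuous u) {c : ℝ} (hc : 0 ≤ c)
    (h : ∀ z ∈ O, u z ≤ c * ∑ b, C.ρ z * nn k (fun y => (P b).1 (z, y)) 0) :
    ∫ z in O, u z ≤ c * ∑ b, C.jet.ip k (P b) (P b) := by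
  have h1 : ∀ b, Continuous fun z => C.ρ z * nn k (fun y => (P b).1 (z, y)) 0 := fun b =>
    C.smρ.continuous.mul
      ((cont_pip (Ctx.sm (P b)) (Ctx.sm (P b)) k).comp (Continuous.prodMk_left (0 : V n)))
  have h2 : ∀ b, IntegrableOn (fun z => C.ρ z * nn k (fun y => (P b).1 (z, y)) 0) O := fun b =>
    (h1 b).continuousOn.integrableOn_compact hO
  calc ∫ z in O, u z ≤ ∫ z in O, c * ∑ b, C.ρ z * nn k (fun y => (P b).1 (z, y)) 0 :=
        setIntegral_mono_on (hu.continuousOn.integrableOn_compact hO)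
          ((continuous_const.mul
            (continuous_finsetSum _ fun b _ => h1 b)).continuousOn.integrableOn_compact hO)
          hO.measurableSet h
    _ = c * ∑ b, ∫ z in O, C.ρ z * nn k (fun y => (P b).1 (z, y)) 0 := by
        rw [integral_const_mul, integral_finsetSum _ fun b _ => h2 b]
    _ ≤ _ := mul_le_mul_of_nonneg_left (Finset.sum_le_sum fun b _ =>
        C.int_le_ip k (P b) hO (h1 b) fun _ _ => le_rfl) hc

theorem S1E_dy {u : Z n → ℝ} (hu : Sm u) {P : W n → ℝ} (hP : Sm P) (e : Fin n) (q : W n) :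
    dy e (fun q => P q - u q.1) q = dy e P q := by
  have h1 := ((hP.dAt q).hasFDerivAt.sub
    ((hu.dAt q.1).hasFDerivAt.comp q hasFDerivAt_fst)).fderiv
  simp only [dy]
  rw [show (fun q : W n => P q - u q.1) = P - u ∘ Prod.fst from rfl, h1]
  simp

namespace S1D

variable {g : V n → Mat n} {K : Set (V n)} {Ω : Set (Z n)} (T : S1D g K Ω)

variable {d : ℕ} {w f : Z n → ℝ}

theorem S1E_const {O : Set (Z n)} (hO : IsCompact O) : ∃ Γ : ℝ, 1 ≤ Γ ∧ ∀ z ∈ O,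
    ∑ i, ∑ j, T.G (T.τ z) i j ^ 2 ≤ Γ ∧ 1 ≤ Γ * T.C.ρ z := by
  have h1 : Continuous fun z => ∑ i, ∑ j, T.G (T.τ z) i j ^ 2 + (T.C.ρ z)⁻¹ :=
    (continuous_finsetSum _ fun i _ => continuous_finsetSum _ fun j _ =>
      ((T.sG.comp T.sτ i j).continuous.pow 2)).add
      (T.C.smρ.continuous.inv₀ fun z => (T.C.pos z).ne')
  obtain ⟨B, hB⟩ := hO.exists_bound_of_continuousOn h1.continuousOn
  refine ⟨1 + |B|, by linarith [abs_nonneg B], fun z hz => ?_⟩
  have h2 := (le_abs_self _).trans ((hB z hz).trans (le_abs_self B))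
  have h3 : 0 ≤ ∑ i, ∑ j, T.G (T.τ z) i j ^ 2 := by positivity
  have h4 := T.C.pos z
  have h5 : 0 < (T.C.ρ z)⁻¹ := inv_pos.2 h4
  refine ⟨by linarith, ?_⟩
  rw [← div_le_iff₀ h4, one_div]
  linarith

theorem S1E_EE {z : Z n} (h : T.χ z = 1) : T.S.EE z = T.E (T.τ z) := by
  change T.χ z • T.E (T.τ z) = _
  rw [h, one_smul]

/-- Sketch: on `O` either `z.1 ∉ K` (`jn_off`) or `z ∈ KK` and `conv1` applies with `EE z = E (τ z)`;
bounds for `∑ G²` and `ρ⁻¹` on the compact set `O`; for `N ≥ 1` the constant `w z` does not count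
(`Jet.nm_congr` for `ptJet`, or `nn_succ`); `Ctx.int_le_ip`. -/
theorem an0 (h : Sol g d K Ω w f) {O : Set (Z n)} (hO : IsCompact O) (h1 : ∀ z ∈ O, T.χ z = 1) :
    ∃ A, 1 ≤ A ∧ An w O A := by
  obtain ⟨Γ, hΓ, hG⟩ := T.S1E_const hO
  obtain ⟨A, hA, hb⟩ := T.bound h
  have hΓA : 1 ≤ Γ * A := one_le_mul_of_one_le_of_one_le hΓ hA
  refine ⟨Γ * A + |∫ z in O, jn 0 w z|, by linarith [abs_nonneg (∫ z in O, jn 0 w z)], fun N => ?_⟩
  cases N with
  | zero =>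
    have := le_abs_self (∫ z in O, jn 0 w z)
    simp only [zero_add, pow_one, Nat.factorial_zero, Nat.cast_one, mul_one]
    linarith
  | succ j =>
    have a1 := S1E_int T.C (fun _ : Unit => T.U h) (j + 1) hO (cont_jn h.smw (j + 1))
      (c := Γ ^ (j + 1 + 1)) (by positivity) fun z hz => by
        have b0 := nn_nonneg (j + 1) (fun y => (T.U h).1 (z, y)) 0
        have b1 := T.C.pos z
        rw [Fintype.sum_unique]
        by_cases hK : z.1 ∈ K
        · have hz' := T.mem z hK (by rw [h1 z hz]; exact one_ne_zero)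
          have hs : Sm fun y : V n => w (z.1, y) := h.smw.comp (contDiff_const.prodMk contDiff_id)
          have b2 := conv1 (T.inv z hz') (j + 1) hs z.2
          have b3 : nn (j + 1) (fun y => (T.U h).1 (z, y)) 0 =
              nn (j + 1) (fun y => w (z.1, z.2 + (T.E (T.τ z)).mulVec y)) 0 := by
            rw [← nn_sub_pl (sm_aff hs (T.E (T.τ z)) z.2) (PL.const (w z)) (Nat.le_add_left 1 j) 0,
              ← T.S1E_EE (h1 z hz)]
            rfl
          rw [← b3] at b2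
          obtain ⟨b4, b5⟩ := hG z hz
          calc jn (j + 1) w z ≤ _ := b2
            _ ≤ Γ ^ (j + 1) * (Γ * T.C.ρ z * nn (j + 1) (fun y => (T.U h).1 (z, y)) 0) :=
              mul_le_mul (pow_le_pow_left₀ (by positivity) b4 _) (le_mul_of_one_le_left b0 b5) b0
                (by positivity)
            _ = _ := by ring
        · rw [jn_off fun y => h.off (z.1, y) hK]
          positivity
    rw [Fintype.sum_unique] at a1
    have a2 := hb j
    have a3 : 0 ≤ ∑ b, T.C.jet.ip j (T.S.Wo b (T.U h)) (T.S.Wo b (T.U h)) :=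
      Finset.sum_nonneg fun b _ => T.C.jet.ip_nonneg _ _
    have a4 := T.C.jet.ip_nonneg (j + 1) (T.U h)
    have a5 : 0 ≤ (j : ℝ) * T.C.jet.ip (j + 1) (T.U h) (T.U h) := by positivity
    have a6 : T.C.jet.ip (j + 1) (T.U h) (T.U h) ≤ A ^ (j + 1 + 1) * ((j + 1).factorial : ℝ) := by
      have : A ^ (j + 1) * ((j + 1).factorial : ℝ) ≤ A ^ (j + 1 + 1) * ((j + 1).factorial : ℝ) :=
        mul_le_mul_of_nonneg_right (pow_le_pow_right₀ hA (Nat.le_succ _)) (by positivity)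
      linarith
    calc ∫ z in O, jn (j + 1) w z ≤ Γ ^ (j + 1 + 1) * (A ^ (j + 1 + 1) * ((j + 1).factorial : ℝ)) :=
          a1.trans (mul_le_mul_of_nonneg_left a6 (by positivity))
      _ = (Γ * A) ^ (j + 1 + 1) * ((j + 1).factorial : ℝ) := by rw [mul_pow, mul_assoc]
      _ ≤ _ := mul_le_mul_of_nonneg_right (pow_le_pow_left₀ (by positivity)
          (le_add_of_nonneg_right (abs_nonneg _)) _) (by positivity)

theorem P_mem (h : Sol g d K Ω w f) (b : Fin n) :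
    (fun q : W n => ∑ c, T.S.EE q.1 c b * hat T.S.EE (dx c w) q) ∈ T.C.M := by
  refine ⟨ContDiff.sum fun c _ => ((T.S.sEE c b).comp contDiff_fst).mul
    (sm_hat T.S.sEE (h.smw.dx c)), fun z hz y => Finset.sum_eq_zero fun c _ => ?_⟩
  by_cases hK : z.1 ∈ K
  · have h0 : T.χ z = 0 := by
      by_contra h0
      exact hz (T.mem z hK h0)
    have h1 : T.S.EE z c b = 0 := by
      change T.χ z * T.E (T.τ z) c b = 0
      rw [h0, zero_mul]
    rw [h1, zero_mul]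
  · have h1 : hat T.S.EE (dx c w) (z, y) = 0 := dx_off T.clK h.off c _ hK
    rw [h1, mul_zero]

theorem S1E_nm (h : Sol g d K Ω w f) : ∃ c : ℝ, 1 ≤ c ∧ ∀ (b : Fin n) (N : ℕ), 1 ≤ N →
    T.C.jet.nm N ⟨_, T.P_mem h b⟩ ≤ T.C.jet.nm N (T.S.Wo b (T.U h)) +
      n * (c * (Real.sqrt ((N : ℝ) + 1) * T.C.jet.nm (N + 1) (T.U h))) +
      c * ((N : ℝ) + 1) * T.C.jet.nm N (T.U h) := by
  have hμ : MSm fun z => T.S.G z * (T.S.E1 z + (2 : ℝ) • (Gv g z * T.S.E z)) :=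
    T.S.sG.mul (T.S.sE1.add
      (MSm.smul (c := fun _ => (2 : ℝ)) contDiff_const (T.S.rm.sm_Gv.mul T.S.sE)))
  obtain ⟨c₁, hc₁, H₁⟩ := exists_const (ι := Fin n × Fin n)
    (p := fun i c => T.C.jet.Mul c (T.C.mul _ (hμ i.1 i.2))) (fun i => T.C.mul_Mul _ _)
    fun _ _ _ h h' => h.mono h'
  obtain ⟨c₂, hc₂, H₂⟩ := exists_const (ι := Fin n)
    (p := fun b c => T.C.jet.Eu c (T.C.op (OD.eul
      (fun z => T.S.χ z • (T.S.G z * (T.S.GE b z * T.S.E z)))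
      (MSm.smul T.S.sχ (T.S.sG.mul ((T.S.sGE b).mul T.S.sE))))))
    (fun b => T.C.eu_op fun _ _ => rfl) fun _ _ _ h h' => h.mono h'
  refine ⟨c₁ + c₂, by linarith, fun b N hN => ?_⟩
  have a1 := fun e => (H₁ (c₁ + c₂) (by linarith) (e, b)).bd N (T.C.jet.D e (T.U h))
  have a2 := H₂ (c₁ + c₂) (by linarith) b N (T.U h)
  have hs := sm_hat T.S.sEE h.smw
  have a3 : T.C.jet.nm N (⟨_, T.P_mem h b⟩ - (-T.S.Wo b (T.U h) +
      ∑ e, T.C.mul _ (hμ e b) (T.C.jet.D e (T.U h)) + T.C.op (OD.eul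
        (fun z => T.S.χ z • (T.S.G z * (T.S.GE b z * T.S.E z)))
        (MSm.smul T.S.sχ (T.S.sG.mul ((T.S.sGE b).mul T.S.sE)))) (T.U h))) = 0 := by
    refine T.C.null hN _ fun z hz => ⟨fun _ => -(fderiv ℝ w z ((T.S.oW b).ξ z) +
      (T.S.oW b).a z * w z), PL.const _, Eventually.of_forall fun y => ?_⟩
    have b1 := T.S.hat_dx h.smw hz b y
    have b2 := (T.S.oW b).app_sub_fst h.smw hs (z, y)
    have b3 := (OD.eul (fun z => T.S.χ z • (T.S.G z * (T.S.GE b z * T.S.E z)))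
      (MSm.smul T.S.sχ (T.S.sG.mul ((T.S.sGE b).mul T.S.sE)))).app_sub_fst h.smw hs (z, y)
    have b4 : fderiv ℝ w z ((OD.eul (fun z => T.S.χ z • (T.S.G z * (T.S.GE b z * T.S.E z)))
        (MSm.smul T.S.sχ (T.S.sG.mul ((T.S.sGE b).mul T.S.sE)))).ξ z) = 0 := map_zero _
    have b5 : (OD.eul (fun z => T.S.χ z • (T.S.G z * (T.S.GE b z * T.S.E z)))
        (MSm.smul T.S.sχ (T.S.sG.mul ((T.S.sGE b).mul T.S.sE)))).a z = 0 := rfl
    have b6 : ∀ e, (T.C.mul _ (hμ e b) (T.C.jet.D e (T.U h))).1 (z, y) =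
        (T.S.G z * (T.S.E1 z + (2 : ℝ) • (Gv g z * T.S.E z))) e b *
          dy e (hat T.S.EE w) (z, y) := fun e => by
      rw [Ctx.mul_apply, Ctx.D_apply, ← S1E_dy h.smw hs e (z, y)]
      rfl
    simp only [Submodule.coe_sub, Submodule.coe_add, Submodule.coe_neg, Submodule.coe_sum,
      Pi.sub_apply, Pi.add_apply, Pi.neg_apply, Finset.sum_apply, b6]
    dsimp only at b2 b3
    rw [b4, b5] at b3
    have b7 : (T.S.Wo b (T.U h)).1 (z, y) =
        (T.S.oW b).app (fun q => hat T.S.EE w q - w q.1) (z, y) := rfl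
    have b8 : (T.C.op (OD.eul (fun z => T.S.χ z • (T.S.G z * (T.S.GE b z * T.S.E z)))
        (MSm.smul T.S.sχ (T.S.sG.mul ((T.S.sGE b).mul T.S.sE)))) (T.U h)).1 (z, y) =
        (OD.eul (fun z => T.S.χ z • (T.S.G z * (T.S.GE b z * T.S.E z)))
          (MSm.smul T.S.sχ (T.S.sG.mul ((T.S.sGE b).mul T.S.sE)))).app
          (fun q => hat T.S.EE w q - w q.1) (z, y) := rfl
    rw [b7, b8, b1, b2, b3]
    ring
  rw [T.C.jet.nm_congr a3]
  refine (T.C.jet.nm_add_le _ _ _).trans (add_le_add ((T.C.jet.nm_add_le _ _ _).trans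
    (add_le_add (T.C.jet.nm_neg _ _).le ((T.C.jet.nm_sum_le _ _ _).trans ?_))) a2)
  refine (Finset.sum_le_card_nsmul _ _ _ fun e _ => (a1 e).trans
    (mul_le_mul_of_nonneg_left (T.C.jet.nm_D_le N e _) (by linarith))).trans ?_
  simp

/-- Sketch: `FS.hat_dx`: for `N ≥ 1` the element agrees on level `N` with
`-Wo b U + ∑ mul μ (D e U) + op (eul s) U`; `nm_D_le`, `Ctx.eu_op`, `bound`. -/
theorem boundP (h : Sol g d K Ω w f) : ∃ A : ℝ, 1 ≤ A ∧ ∀ b N,
    T.C.jet.ip N ⟨_, T.P_mem h b⟩ ⟨_, T.P_mem h b⟩ ≤ A ^ (N + 1) * (N.factorial : ℝ) := by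
  obtain ⟨c, hc, hn⟩ := T.S1E_nm h
  obtain ⟨A, hA, hb⟩ := T.bound h
  obtain ⟨κ, hκ⟩ : ∃ κ : ℝ, κ = 1 + n * c + 2 * c := ⟨_, rfl⟩
  have hκ1 : 1 ≤ κ := by
    have : 0 ≤ (n : ℝ) * c := by positivity
    linarith
  have hκ2 : 1 ≤ κ ^ 2 := one_le_pow₀ hκ1
  have hκA : 1 ≤ κ ^ 2 * A := one_le_mul_of_one_le_of_one_le hκ2 hA
  obtain ⟨I, hI⟩ : ∃ I : ℝ, I = ∑ b, T.C.jet.ip 0 ⟨_, T.P_mem h b⟩ ⟨_, T.P_mem h b⟩ := ⟨_, rfl⟩
  have hI0 : 0 ≤ I := hI ▸ Finset.sum_nonneg fun b _ => T.C.jet.ip_nonneg _ _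
  refine ⟨2 * (κ ^ 2 * A) + I, by linarith, fun b N => ?_⟩
  cases N with
  | zero =>
    have a1 : T.C.jet.ip 0 ⟨_, T.P_mem h b⟩ ⟨_, T.P_mem h b⟩ ≤ I :=
      hI ▸ Finset.single_le_sum (f := fun b => T.C.jet.ip 0 ⟨_, T.P_mem h b⟩ ⟨_, T.P_mem h b⟩)
        (fun b _ => T.C.jet.ip_nonneg _ _) (Finset.mem_univ b)
    simp only [zero_add, pow_one, Nat.factorial_zero, Nat.cast_one, mul_one]
    linarith
  | succ j =>
    have a0 := hn b (j + 1) (Nat.le_add_left 1 j)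
    obtain ⟨X, hX⟩ : ∃ X : ℝ, X = A ^ (j + 1 + 1) * ((j + 1 + 1).factorial : ℝ) := ⟨_, rfl⟩
    have hX0 : 0 ≤ X := by rw [hX]; positivity
    have a1 := hb (j + 1)
    have a2 := hb j
    rw [← hX] at a1
    have s0 : ∀ i, 0 ≤ ∑ b, T.C.jet.ip i (T.S.Wo b (T.U h)) (T.S.Wo b (T.U h)) := fun i =>
      Finset.sum_nonneg fun b _ => T.C.jet.ip_nonneg _ _
    have s1 : T.C.jet.ip (j + 1) (T.S.Wo b (T.U h)) (T.S.Wo b (T.U h)) ≤
        ∑ b, T.C.jet.ip (j + 1) (T.S.Wo b (T.U h)) (T.S.Wo b (T.U h)) :=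
      Finset.single_le_sum (f := fun b => T.C.jet.ip (j + 1) (T.S.Wo b (T.U h)) (T.S.Wo b (T.U h)))
        (fun b _ => T.C.jet.ip_nonneg _ _) (Finset.mem_univ b)
    have s2 := T.C.jet.ip_nonneg (j + 1 + 1) (T.U h)
    have s3 := T.C.jet.ip_nonneg (j + 1) (T.U h)
    have s4 : 0 ≤ (((j + 1 : ℕ) : ℝ) + 1) * T.C.jet.ip (j + 1 + 1) (T.U h) (T.U h) := by positivity
    have r0 := Real.sqrt_nonneg X
    have r1 : T.C.jet.nm (j + 1) (T.S.Wo b (T.U h)) ≤ Real.sqrt X :=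
      Real.sqrt_le_sqrt (by linarith)
    have r2 : Real.sqrt (((j + 1 : ℕ) : ℝ) + 1) * T.C.jet.nm (j + 1 + 1) (T.U h) ≤ Real.sqrt X := by
      rw [Jet.nm, ← Real.sqrt_mul (by positivity)]
      exact Real.sqrt_le_sqrt (by linarith [s0 (j + 1)])
    have r3 : (((j + 1 : ℕ) : ℝ) + 1) * T.C.jet.nm (j + 1) (T.U h) ≤ 2 * Real.sqrt X := by
      refine le_of_sq_le_sq ?_ (by positivity)
      rw [mul_pow, mul_pow, Jet.nm_sq, Real.sq_sqrt hX0]
      have e1 : ((j : ℝ) + 1) * T.C.jet.ip (j + 1) (T.U h) (T.U h) ≤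
          A ^ (j + 1 + 1) * ((j + 1).factorial : ℝ) := by
        have : A ^ (j + 1) * ((j + 1).factorial : ℝ) ≤ A ^ (j + 1 + 1) * ((j + 1).factorial : ℝ) :=
          mul_le_mul_of_nonneg_right (pow_le_pow_right₀ hA (Nat.le_succ _)) (by positivity)
        linarith [s0 j]
      have e2 : X = ((j : ℝ) + 2) * (A ^ (j + 1 + 1) * ((j + 1).factorial : ℝ)) := by
        rw [hX, Nat.factorial_succ (j + 1)]
        push_cast
        ring
      have e3 := mul_le_mul_of_nonneg_left e1 (show 0 ≤ (j : ℝ) + 2 by positivity)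
      have e4 : 0 ≤ ((j : ℝ) + 2) * ((3 * j + 2) * T.C.jet.ip (j + 1) (T.U h) (T.U h)) := by
        positivity
      rw [e2]
      push_cast
      linarith
    have r4 : T.C.jet.nm (j + 1) ⟨_, T.P_mem h b⟩ ≤ κ * Real.sqrt X := by
      have e1 := mul_le_mul_of_nonneg_left r2 (show 0 ≤ (n : ℝ) * c by positivity)
      have e2 := mul_le_mul_of_nonneg_left r3 (show 0 ≤ c by linarith)
      rw [hκ]
      linarith
    have r5 := T.C.jet.ip_le_of_nm r4
    rw [mul_pow, Real.sq_sqrt hX0] at r5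
    have r6 : ((j + 1 + 1 : ℕ) : ℝ) ≤ 2 ^ (j + 1 + 1) := by
      exact_mod_cast (Nat.lt_two_pow_self (n := j + 1 + 1)).le
    calc _ ≤ κ ^ 2 * X := r5
      _ = ((j + 1 + 1 : ℕ) : ℝ) * (κ ^ 2 * A ^ (j + 1 + 1)) * ((j + 1).factorial : ℝ) := by
          rw [hX, Nat.factorial_succ (j + 1), Nat.cast_mul]
          ring
      _ ≤ 2 ^ (j + 1 + 1) * ((κ ^ 2) ^ (j + 1 + 1) * A ^ (j + 1 + 1)) * ((j + 1).factorial : ℝ) := by
          gcongr
          exact le_self_pow₀ hκ2 (Nat.succ_ne_zero _)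
      _ = (2 * (κ ^ 2 * A)) ^ (j + 1 + 1) * ((j + 1).factorial : ℝ) := by
          rw [mul_pow 2, mul_pow (κ ^ 2)]
      _ ≤ _ := mul_le_mul_of_nonneg_right (pow_le_pow_left₀ (by positivity)
          (le_add_of_nonneg_right hI0) _) (by positivity)

/-- Sketch: as `an0` with `conv2` and `boundP`. -/
theorem an1 (h : Sol g d K Ω w f) {O : Set (Z n)} (hO : IsCompact O) (h1 : ∀ z ∈ O, T.χ z = 1) :
    ∃ A, 1 ≤ A ∧ ∀ c, An (dx c w) O A := by
  obtain ⟨Γ, hΓ, hG⟩ := T.S1E_const hO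
  obtain ⟨A, hA, hb⟩ := T.boundP h
  have hn : (1 : ℝ) ≤ Γ * ((n : ℝ) + 1) :=
    one_le_mul_of_one_le_of_one_le hΓ (le_add_of_nonneg_left (Nat.cast_nonneg n))
  refine ⟨Γ * ((n : ℝ) + 1) * (Γ * A), one_le_mul_of_one_le_of_one_le hn
    (one_le_mul_of_one_le_of_one_le hΓ hA), fun c N => ?_⟩
  have a1 := S1E_int T.C (fun b => ⟨_, T.P_mem h b⟩) N hO (cont_jn (h.smw.dx c) N)
    (c := Γ ^ (N + 1) * Γ) (by positivity) fun z hz => by
      have b1 := T.C.pos z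
      rw [← Finset.mul_sum]
      have b0 : 0 ≤ ∑ b, nn N (fun y => ∑ c, T.S.EE z c b * hat T.S.EE (dx c w) (z, y)) 0 :=
        Finset.sum_nonneg fun b _ => nn_nonneg _ _ _
      by_cases hK : z.1 ∈ K
      · have hz' := T.mem z hK (by rw [h1 z hz]; exact one_ne_zero)
        have b2 := conv2 (T.inv z hz') N (u := fun c y => dx c w (z.1, y))
          (fun c => (h.smw.dx c).comp (contDiff_const.prodMk contDiff_id)) z.2 c
        rw [← T.S1E_EE (h1 z hz)] at b2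
        obtain ⟨b4, b5⟩ := hG z hz
        calc jn N (dx c w) z ≤ (∑ i, ∑ j, T.G (T.τ z) i j ^ 2) ^ (N + 1) *
              ∑ b, nn N (fun y => ∑ c, T.S.EE z c b * hat T.S.EE (dx c w) (z, y)) 0 := b2
          _ ≤ Γ ^ (N + 1) * (Γ * T.C.ρ z *
              ∑ b, nn N (fun y => ∑ c, T.S.EE z c b * hat T.S.EE (dx c w) (z, y)) 0) :=
            mul_le_mul (pow_le_pow_left₀ (by positivity) b4 _) (le_mul_of_one_le_left b0 b5) b0
              (by positivity)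
          _ = _ := by ring
      · rw [jn_off fun y => dx_off T.clK h.off c (z.1, y) hK]
        exact mul_nonneg (by positivity) (mul_nonneg b1.le b0)
  have a2 := Finset.sum_le_card_nsmul Finset.univ _ _ fun b _ => hb b N
  rw [Finset.card_univ, Fintype.card_fin, nsmul_eq_mul] at a2
  calc ∫ z in O, jn N (dx c w) z ≤ Γ ^ (N + 1) * Γ * (n * (A ^ (N + 1) * (N.factorial : ℝ))) :=
        a1.trans (mul_le_mul_of_nonneg_left a2 (by positivity))
    _ = Γ * n * (Γ * A) ^ (N + 1) * (N.factorial : ℝ) := by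
        rw [mul_pow]
        ring
    _ ≤ (Γ * ((n : ℝ) + 1)) ^ (N + 1) * (Γ * A) ^ (N + 1) * (N.factorial : ℝ) := by
        gcongr
        refine le_trans ?_ (le_self_pow₀ hn (Nat.succ_ne_zero N))
        gcongr
        linarith
    _ = _ := by rw [← mul_pow]

end S1D

end Pool.Agent.Lib.MP_45f3cb_gt.Fa
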