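import Pool.Agent.Lib.MP_45f3cb_gt.Fa.TuB
import Pool.Agent.Lib.MP_45f3cb_gt.Fa.FrD
import Pool.Agent.Lib.MP_45f3cb_gt.Fa.GeoC
import Pool.Agent.Lib.MP_45f3cb_gt.Fa.S1E

/-!
Step 1 at a unit vector.
-/

open Set MeasureTheory Filter Topology Matrix

namespace Pool.Agent.Lib.MP_45f3cb_gt.Fa

variable {n : ℕ} {g : V n → Mat n} {D : Dom n}

/-- Sketch: `geo_seg`, the hypothesis on `Icc a b`, `frame`, `pos_ext`, `tube`; `O` a small closed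
ball; `S1D.an0`, `S1D.an1`, `An.mono`. -/
theorem step1 (P : GF D 3) (h : RM g) (hg : ∀ x i j, g x i j = D.g x i j) {K : Set (V n)}
    (hK : IsClosed K) (hKM : ∀ x ∈ K, D.b x ≤ 0) {z₀ : Z n} (h0 : z₀.1 ∈ K)
    (h1 : gi g z₀.1 z₀.2 z₀.2 = 1)
    (hI : ∀ a b, a ≤ 0 → 0 ≤ b → (∀ t ∈ Icc a b, (geo P z₀ t).1 ∈ K) →
      IdxPos g (fun t => (geo P z₀ t).1) (fun t => (geo P z₀ t).2) a b) :
    ∃ O ∈ 𝓝 z₀, IsCompact O ∧ O ⊆ Om g ∧ ∀ (d : ℕ) (w f : Z n → ℝ), Sol g d K (Om g) w f →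
      (∃ A, 1 ≤ A ∧ An w O A) ∧ ∀ c, ∃ A, 1 ≤ A ∧ An (dx c w) O A := by
  obtain ⟨a, b, ha, hb, hab, hout⟩ := geo_seg P hg hK hKM h0 h1
  obtain ⟨E, G, lam, l, sE, sG, slam, sl, hp⟩ := frame h (sm_geo P z₀) (ha.trans hb)
    (fun t ht => geo_der P hg h1 (hKM _ (hab t ht))) (hI a b ha hb hab)
  obtain ⟨ε, c₀, hε, hc₀, hq⟩ :=
    pos_ext h sE sG slam sl (sm_geo P z₀).continuous (ha.trans hb) hp
  obtain ⟨⟨s₁, hs₁, h2⟩, s₂, hs₂, h3⟩ := hout ε hε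
  obtain ⟨τ, χ, KK, sτ, sχ, cpt, sub, hχ, mem, hKK⟩ := tube P h hg hK hKM h1
    (hs₁.2.trans_le ha) (hb.trans_lt hs₂.1) h2 h3 hε
  have hτ : ∀ z ∈ KK, τ z ∈ Icc (a - ε) (b + ε) := fun z hz =>
    ⟨hs₁.1.le.trans (hKK z hz).2.2.1.1, (hKK z hz).2.2.1.2.trans hs₂.2.le⟩
  let T : S1D g K (Om g) :=
    { rm := h, τ := τ, χ := χ, E := E, G := G, lam := lam, l := l, KK := KK, c₀ := c₀
      sτ := sτ, sχ := sχ, sE := sE, sG := sG, slam := slam, sl := sl, clK := hK, cpt := cpt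
      opn := h.isOpen_Om, sub := sub, mem := mem
      dτ := fun z hz => (hKK z hz).1
      dχ := fun z hz => (hKK z hz).2.1
      inv := fun z hz => (hq _ (hτ z hz)).1
      hc := hc₀
      pd := fun z hz => (hq _ (hτ z hz)).2 z (hKK z hz).2.2.2 }
  have hz₀ : z₀ ∈ Om g := by
    change gi g z₀.1 z₀.2 z₀.2 ∈ Ioo (1 / 2 : ℝ) 2
    rw [h1]
    constructor <;> norm_num
  obtain ⟨O, hO, hO', hOc⟩ := local_compact_nhds (inter_mem hχ (h.isOpen_Om.mem_nhds hz₀))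
  refine ⟨O, hO, hOc, fun z hz => (hO' hz).2, fun d w f hs =>
    ⟨T.an0 hs hOc fun z hz => (hO' hz).1, fun c => ?_⟩⟩
  obtain ⟨A, hA, hA'⟩ := T.an1 hs hOc fun z hz => (hO' hz).1
  exact ⟨A, hA, hA' c⟩

end Pool.Agent.Lib.MP_45f3cb_gt.Fa
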