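import Pool.Agent.Lib.MP_45f3cb_gt.Fa.LoA
import Pool.Agent.Lib.MP_45f3cb_gt.Fa.S2J
import Pool.Agent.Lib.MP_45f3cb_gt.Fa.TuC

/-!
Steps 1 and 2 together.
-/

open Set MeasureTheory Filter Topology Matrix

namespace Pool.Agent.Lib.MP_45f3cb_gt.Fa

variable {n d : ℕ} {g : V n → Mat n} {D : Dom n}

theorem LoB_cpt (h : RM g) (x₀ : V n) (φ : V n → ℝ) :
    IsCompact {v : V n | gi g x₀ v v = 1 ∧ fderiv ℝ φ x₀ v = 0} := by
  refine (cpt_qq (h.pos x₀) (fun c => pd c φ x₀) 0).of_isClosed_subset ?_ ?_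
  · exact (isClosed_eq (h.cont_gi.comp (Continuous.prodMk_right x₀)) continuous_const).inter
      (isClosed_eq (fderiv ℝ φ x₀).continuous continuous_const)
  · rintro v ⟨h1, h2⟩
    rw [gi_eq] at h1
    rw [fderiv_eq_sum_pd] at h2
    have h3 : (fun c => pd c φ x₀) ⬝ᵥ v = 0 := by
      rw [← h2]
      exact Finset.sum_congr rfl fun i _ => mul_comm _ _
    change qq _ _ v ≤ 0
    rw [qq, h1, h3]
    norm_num

theorem LoB_norm (y : V n) : ‖y‖ ^ 2 ≤ ∑ i, y i ^ 2 := by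
  have h0 : 0 ≤ ∑ i, y i ^ 2 := Finset.sum_nonneg fun i _ => sq_nonneg _
  have h1 : ‖y‖ ≤ Real.sqrt (∑ i, y i ^ 2) := by
    refine (pi_norm_le_iff_of_nonneg (Real.sqrt_nonneg _)).2 fun i => ?_
    exact Real.abs_le_sqrt
      (Finset.single_le_sum (f := fun i => y i ^ 2) (fun i _ => sq_nonneg _) (Finset.mem_univ i))
  calc ‖y‖ ^ 2 ≤ Real.sqrt (∑ i, y i ^ 2) ^ 2 := pow_le_pow_left₀ (norm_nonneg _) h1 2
    _ = _ := Real.sq_sqrt h0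

theorem LoB_fderiv {φ : V n → ℝ} (hφ : Sm φ) (x₀ : V n) :
    fderiv ℝ (fun x => φ x - φ x₀ - ∑ i, (x i - x₀ i) ^ 2) x₀ = fderiv ℝ φ x₀ := by
  have h1 : HasFDerivAt (fun x : V n => ∑ i, (x i - x₀ i) ^ 2) (0 : V n →L[ℝ] ℝ) x₀ := by
    have h2 : ∀ i ∈ (Finset.univ : Finset (Fin n)),
        HasFDerivAt (fun x : V n => (x i - x₀ i) ^ 2) (0 : V n →L[ℝ] ℝ) x₀ := by
      intro i _
      have h3 := ((hasFDerivAt_apply (𝕜 := ℝ) i x₀).sub_const (x₀ i)).pow 2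
      simpa using h3
    simpa using HasFDerivAt.fun_sum h2
  have h4 := (((hφ.dAt x₀).hasFDerivAt.sub_const (φ x₀)).fun_sub h1).fderiv
  rw [h4, sub_zero]

/-- Sketch: the tangent unit vectors form the compact set `{qq = 0}` (`cpt_qq`); `step1` at each,
finite subcover, `An.union`; `exists_S2G` for `Φ₀ x = φ x - φ x₀ - ∑ (x i - x₀ i)²`; `regauge`;
`S2G.zero_near`. -/
theorem step12 (hn : 3 ≤ n) (P : GF D 3) (h : RM g) (hg : ∀ x i j, g x i j = D.g x i j)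
    {K : Set (V n)} (hK : IsClosed K) (hKM : ∀ x ∈ K, D.b x ≤ 0) {x₀ : V n} (h0 : x₀ ∈ K)
    {φ : V n → ℝ} (hφ : Sm φ) (hmax : ∀ x ∈ K, φ x ≤ φ x₀) (hd : fderiv ℝ φ x₀ ≠ 0)
    (hI : ∀ v a b, gi g x₀ v v = 1 → fderiv ℝ φ x₀ v = 0 → a ≤ 0 → 0 ≤ b →
      (∀ t ∈ Icc a b, (geo P (x₀, v) t).1 ∈ K) →
      IdxPos g (fun t => (geo P (x₀, v) t).1) (fun t => (geo P (x₀, v) t).2) a b)
    {u f : Z n → ℝ} (hu : Sol g d K (Om g) u f) :
    ∃ (h₂ f₂ : Z n → ℝ) (S : Set (V n)), FP d h₂ ∧ Sol g d K (Om g) (fun z => u z - h₂ z) f₂ ∧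
      (∀ v, gi g x₀ v v = 1 → fderiv ℝ φ x₀ v = 0 → S ∈ 𝓝 v) ∧
      ∀ᶠ x in 𝓝 x₀, ∀ v ∈ S, u (x, v) - h₂ (x, v) = 0 := by
  have hT := LoB_cpt h x₀ φ
  have hs : ∀ v ∈ {v : V n | gi g x₀ v v = 1 ∧ fderiv ℝ φ x₀ v = 0},
      ∃ O ∈ 𝓝 ((x₀, v) : Z n), IsCompact O ∧ O ⊆ Om g ∧ ∀ (d : ℕ) (w f : Z n → ℝ),
        Sol g d K (Om g) w f →
          (∃ A, 1 ≤ A ∧ An w O A) ∧ ∀ c, ∃ A, 1 ≤ A ∧ An (dx c w) O A :=
    fun v hv => step1 P h hg hK hKM (z₀ := (x₀, v)) h0 hv.1 fun a b => hI v a b hv.1 hv.2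
  choose! O hO1 hO2 hO3 hO4 using hs
  obtain ⟨t, ht, hcov⟩ := hT.elim_nhds_subcover (fun v => {v' | O v ∈ 𝓝 ((x₀, v') : Z n)})
    fun v hv => (Continuous.prodMk_right x₀).continuousAt.eventually
      (eventually_mem_nhds_iff.2 (hO1 v hv))
  have hc : IsCompact (⋃ v ∈ t, O v) := t.isCompact_biUnion fun v hv => hO2 v (ht v hv)
  have hsub : (⋃ v ∈ t, O v) ⊆ Om g := iUnion₂_subset fun v hv => hO3 v (ht v hv)
  have hfd := LoB_fderiv hφ x₀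
  have hΦ : Sm fun x : V n => φ x - φ x₀ - ∑ i, (x i - x₀ i) ^ 2 :=
    (hφ.sub contDiff_const).sub
      (ContDiff.sum fun i _ => ((contDiff_apply ℝ ℝ i).sub contDiff_const).pow 2)
  obtain ⟨T⟩ := exists_S2G hn h hΦ (x₀ := x₀) hK (by simp) (by rw [hfd]; exact hd)
    (fun x hx => by
      have h1 := LoB_norm (x - x₀)
      have h2 := hmax x hx
      simp only [Pi.sub_apply] at h1
      linarith) hc
    (fun v h1 h2 => by
      rw [hfd] at h2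
      obtain ⟨v', hv', hv⟩ := mem_iUnion₂.1 (hcov ⟨h1, h2⟩)
      exact mem_of_superset hv (subset_iUnion₂ (s := fun v (_ : v ∈ t) => O v) v' hv'))
  have hψ : HasCompactSupport T.ψ :=
    HasCompactSupport.intro T.cS fun y hy => by_contra fun h1 => hy (T.ψ_supp y h1)
  obtain ⟨h₂, f₂, hp, hw, hz⟩ := regauge h hK hu T.sψ hψ T.ψ_pos
  obtain ⟨A₀, hA₀, hA⟩ := An.union hw.smw t (fun v hv => hO2 v (ht v hv))
    fun v hv => (hO4 v (ht v hv) d _ _ hw).1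
  have hsd : ∀ c, Sm (dx c fun z => u z - h₂ z) := fun c =>
    sm_fderiv_app (ξ := fun _ => (Pi.single c 1, 0)) hw.smw contDiff_const
  have hA' : ∀ c, ∃ A, 1 ≤ A ∧ An (dx c fun z => u z - h₂ z) (⋃ v ∈ t, O v) A := fun c =>
    An.union (hsd c) t (fun v hv => hO2 v (ht v hv)) fun v hv => (hO4 v (ht v hv) d _ _ hw).2 c
  choose A hA1 hA2 using hA'
  have hS : 0 ≤ ∑ c, A c := Finset.sum_nonneg fun c _ => zero_le_one.trans (hA1 c)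
  refine ⟨h₂, f₂, T.S, hp, hw, fun v h1 h2 => T.nbh v h1 (by rw [hfd]; exact h2), ?_⟩
  refine T.zero_near (A := A₀ + ∑ c, A c) hw h.isOpen_Om hsub hz (by linarith)
    (hA.mono hw.smw hc hc Subset.rfl (by linarith) (by linarith)) fun c => ?_
  have h5 : A c ≤ ∑ c, A c :=
    Finset.single_le_sum (fun c _ => zero_le_one.trans (hA1 c)) (Finset.mem_univ c)
  exact (hA2 c).mono (hsd c) hc hc Subset.rfl (zero_le_one.trans (hA1 c)) (by linarith)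

end Pool.Agent.Lib.MP_45f3cb_gt.Fa
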