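import Pool.Agent.Lib.MP_45f3cb_gt.Fa.GeoA
import Pool.Agent.Lib.MP_45f3cb_gt.TimeF
import Pool.Agent.Lib.MP_45f3cb_gt.Exit4

/-!
Geodesics in velocity coordinates and the time function.
-/

open Set MeasureTheory Filter Topology Matrix

namespace Pool.Agent.Lib.MP_45f3cb_gt.Fa

variable {n : ℕ} {g : V n → Mat n} {D : Dom n}

theorem H_dn (hg : ∀ x i j, g x i j = D.g x i j) (z : Z n) :
    2 * D.H (D.dn z) = gi g z.1 z.2 z.2 := by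
  have h := D.g_up (D.dn z)
  rw [D.up_dn] at h
  rw [← h]
  simp only [gi, hg]
  rfl

theorem fderiv_dn (hg : ∀ x i j, g x i j = D.g x i j) {F : Z n → ℝ} (hF : Sm F) (z : Z n) :
    fderiv ℝ (fun w => F (D.dn w)) z (spray g z) = br D.H F (D.dn z) := by
  have h1 : fderiv ℝ (fun w => F (D.dn w)) z = _ :=
    ((hF.dAt (D.dn z)).hasFDerivAt.comp z (D.sm_dn.dAt z).hasFDerivAt).fderiv
  rw [br_eq, h1, ContinuousLinearMap.comp_apply, D.dn_rel hg]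

theorem TuA_half {S : Set ℝ} (hS : IsClosed S) (h0 : (0 : ℝ) ∈ S) {t₁ : ℝ} (h2 : 0 ≤ t₁)
    (h4 : t₁ ∉ S) : ∃ b, 0 ≤ b ∧ Icc 0 b ⊆ S ∧ ∀ ε, 0 < ε → ∃ t ∈ Ioo b (b + ε), t ∉ S := by
  have hne : {t | 0 ≤ t ∧ t ∉ S}.Nonempty := ⟨t₁, h2, h4⟩
  have hbd : BddBelow {t | 0 ≤ t ∧ t ∉ S} := ⟨0, fun _ h => h.1⟩
  have hb : 0 ≤ sInf {t | 0 ≤ t ∧ t ∉ S} := le_csInf hne fun _ h => h.1
  have hlt : Ico 0 (sInf {t | 0 ≤ t ∧ t ∉ S}) ⊆ S := fun t ht => by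
    by_contra h
    exact absurd (csInf_le hbd ⟨ht.1, h⟩) (not_le.2 ht.2)
  have hle : Icc 0 (sInf {t | 0 ≤ t ∧ t ∉ S}) ⊆ S := by
    rcases hb.eq_or_lt with h | h
    · rw [← h, Icc_self]
      exact singleton_subset_iff.2 h0
    · rw [← closure_Ico h.ne]
      exact hS.closure_subset_iff.2 hlt
  refine ⟨_, hb, hle, fun ε hε => ?_⟩
  obtain ⟨t, ht, ht'⟩ := exists_lt_of_csInf_lt hne (lt_add_of_pos_right _ hε)
  refine ⟨t, ⟨lt_of_le_of_ne (csInf_le hbd ht) fun h => ht.2 (hle ⟨ht.1, h.ge⟩), ht'⟩, ht.2⟩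

/-- the component of a closed set of times. Sketch: `b = sSup {t ∈ Icc 0 t₁ | Icc 0 t ⊆ S}`, and
symmetrically. -/
theorem comp_seg {S : Set ℝ} (hS : IsClosed S) (h0 : (0 : ℝ) ∈ S) {t₀ t₁ : ℝ} (h1 : t₀ ≤ 0)
    (h2 : 0 ≤ t₁) (h3 : t₀ ∉ S) (h4 : t₁ ∉ S) : ∃ a b, a ≤ 0 ∧ 0 ≤ b ∧ Icc a b ⊆ S ∧
      ∀ ε, 0 < ε → (∃ t ∈ Ioo (a - ε) a, t ∉ S) ∧ ∃ t ∈ Ioo b (b + ε), t ∉ S := by
  obtain ⟨b, hb, hb1, hb2⟩ := TuA_half hS h0 h2 h4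
  obtain ⟨a, ha, ha1, ha2⟩ := TuA_half (S := {t | -t ∈ S}) (hS.preimage continuous_neg)
    (by simpa using h0) (neg_nonneg.2 h1) (by simpa using h3)
  refine ⟨-a, b, neg_nonpos.2 ha, hb, fun t ht => ?_, fun ε hε => ⟨?_, hb2 ε hε⟩⟩
  · rcases le_total 0 t with h | h
    · exact hb1 ⟨h, ht.2⟩
    · simpa using ha1 (⟨neg_nonneg.2 h, neg_le.2 ht.1⟩ : -t ∈ Icc 0 a)
  · obtain ⟨t, ht, ht'⟩ := ha2 ε hε
    exact ⟨-t, ⟨by linarith [ht.2], by linarith [ht.1]⟩, ht'⟩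

/-- a time function. Sketch: `GF.exists_time` with `h₀ = 1 / 8`, `h₁ = 2`; `GF.br_time` and
continuity (`Dom.clos_neg`) give `br H T = -1` on `{b ≤ 0, 1 / 8 < H < 2}`; `br_eq`, `eqY`. -/
theorem time_fun (P : GF D 3) : ∃ T : Z n → ℝ, Sm T ∧
    ∀ z : Z n, D.b z.1 ≤ 0 → D.H z ∈ Ioo (1 / 8 : ℝ) 2 → fderiv ℝ T z (P.Y z) = -1 := by
  obtain ⟨T, hT, -, h⟩ := P.exists_time (h₀ := 1 / 8) (h₁ := 2) (by norm_num) (by norm_num) one_pos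
  refine ⟨T, hT, fun z hz hH => ?_⟩
  rw [P.eqY z (P.ball _ hz) (hH.2.trans (by norm_num)), ← br_eq]
  have ho : IsOpen {w : Z n | D.H w ∈ Ioo (1 / 8 : ℝ) 2} := isOpen_Ioo.preimage D.sm_H.continuous
  have hc : IsClosed {w : Z n | br D.H T w = -1} :=
    isClosed_eq (D.sm_H.br hT).continuous continuous_const
  refine hc.closure_subset_iff.2 ?_ (ho.inter_closure ⟨hH, D.clos_neg hz⟩)
  intro w hw
  exact P.br_time (by norm_num) (by norm_num) hT h ⟨le_of_lt hw.2, Ioo_subset_Icc_self hw.1⟩ hw.2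

/-- the geodesic through a unit vector -/
noncomputable def geo (P : GF D 3) (z₀ : Z n) (t : ℝ) : Z n := D.up (P.Φ t (D.dn z₀))

theorem sm_geo (P : GF D 3) (z₀ : Z n) : Sm (geo P z₀) := by
  exact D.sm_up.comp (P.flow.sm.comp (contDiff_id.prodMk contDiff_const))

theorem geo_zero (P : GF D 3) (z₀ : Z n) : geo P z₀ 0 = z₀ := by
  rw [geo, P.flow.zero, D.up_dn]

theorem geo_gi (P : GF D 3) (hg : ∀ x i j, g x i j = D.g x i j) (z₀ : Z n) (t : ℝ) :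
    gi g (geo P z₀ t).1 (geo P z₀ t).2 (geo P z₀ t).2 = gi g z₀.1 z₀.2 z₀.2 := by
  rw [← H_dn hg, ← H_dn hg, geo, D.dn_up, P.ener]

theorem geo_der (P : GF D 3) (hg : ∀ x i j, g x i j = D.g x i j) {z₀ : Z n}
    (h1 : gi g z₀.1 z₀.2 z₀.2 = 1) {t : ℝ} (ht : D.b (geo P z₀ t).1 ≤ 0) :
    HasDerivAt (geo P z₀) (spray g (geo P z₀ t)) t := by
  have hH : D.H (P.Φ t (D.dn z₀)) < 3 := by
    have := H_dn hg z₀
    rw [P.ener]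
    linarith
  have h2 := (D.sm_up.dAt (P.Φ t (D.dn z₀))).hasFDerivAt.comp_hasDerivAt t (P.flow.der _ t)
  rw [P.eqY (P.Φ t (D.dn z₀)) (P.ball _ ht) hH, D.up_rel hg] at h2
  exact h2

/-- Sketch: `GF.ex_after` (or `GF.exit_bdd`) forward and, with `GF.rev'`, backward gives times at
which the geodesic is outside `M`; `comp_seg`. -/
theorem geo_seg (P : GF D 3) (hg : ∀ x i j, g x i j = D.g x i j) {K : Set (V n)} (hK : IsClosed K)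
    (hKM : ∀ x ∈ K, D.b x ≤ 0) {z₀ : Z n} (h0 : z₀.1 ∈ K) (h1 : gi g z₀.1 z₀.2 z₀.2 = 1) :
    ∃ a b, a ≤ 0 ∧ 0 ≤ b ∧ (∀ t ∈ Icc a b, (geo P z₀ t).1 ∈ K) ∧
      ∀ ε, 0 < ε → (∃ t ∈ Ioo (a - ε) a, (geo P z₀ t).1 ∉ K) ∧
        ∃ t ∈ Ioo b (b + ε), (geo P z₀ t).1 ∉ K := by
  have hH : D.H (D.dn z₀) = 1 / 2 := by
    have := H_dn hg z₀
    linarith
  obtain ⟨Tm, hT⟩ := P.exit_bdd (h₀ := 1 / 2) (h₁ := 1 / 2) (by norm_num) (by norm_num)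
  obtain ⟨t₁, h2, h3⟩ := hT (D.dn z₀) ⟨hKM _ h0, by rw [hH]; exact left_mem_Icc.2 le_rfl⟩
  obtain ⟨t₀, h4, h5⟩ := hT ((D.dn z₀).1, -(D.dn z₀).2)
    ⟨hKM _ h0, by rw [Exit4_H_neg, hH]; exact left_mem_Icc.2 le_rfl⟩
  have h6 := P.rev (-t₀) (D.dn z₀)
  rw [neg_neg] at h6
  rw [h6] at h5
  exact comp_seg (S := {t | (geo P z₀ t).1 ∈ K}) (hK.preimage (sm_geo P z₀).continuous.fst)
    (by rw [mem_ofPred_eq, geo_zero]; exact h0) (neg_nonpos.2 h4.1) h2.1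
    (fun h => absurd (hKM _ h) (not_le.2 h5)) fun h => absurd (hKM _ h) (not_le.2 h3)

end Pool.Agent.Lib.MP_45f3cb_gt.Fa
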