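import Pool.Agent.Lib.MP_45f3cb_gt.Fa.FmA
import Pool.Agent.Lib.MP_45f3cb_gt.Fa.TuA

/-!
From the tangent directions to all directions.
-/

open Set MeasureTheory Filter Topology Matrix

namespace Pool.Agent.Lib.MP_45f3cb_gt.Fa

variable {n d : ℕ} {g : V n → Mat n} {D : Dom n}

/-- Sketch: `t ↦ β (Φ t z₀)` has nonzero derivative at `0`, so there are arbitrarily small `t₀` with
`β z₀ < β (Φ t₀ z₀)`; for `z` near `z₀` the orbit stays in the set on `uIcc 0 t₀`, where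
`t ↦ F (Φ t z)` is constant. -/
theorem flow_zero {E : Type} [NormedAddCommGroup E] [NormedSpace ℝ E] {Y : E → E} {Φ : ℝ → E → E}
    (h : IsFlow Y Φ) {F β : E → ℝ} (hF : Sm F) (hβ : Sm β) {z₀ : E}
    (h1 : ∀ᶠ z in 𝓝 z₀, fderiv ℝ F z (Y z) = 0) (h2 : fderiv ℝ β z₀ (Y z₀) ≠ 0)
    (h3 : ∀ z, β z₀ < β z → F z = 0) : ∀ᶠ z in 𝓝 z₀, F z = 0 := by
  have hc : ∀ᶠ q in 𝓝 ((0 : ℝ), z₀), fderiv ℝ F (Φ q.1 q.2) (Y (Φ q.1 q.2)) = 0 := by
    have := h.cont.continuousAt (x := ((0 : ℝ), z₀))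
    refine this.eventually (p := fun z => fderiv ℝ F z (Y z) = 0) ?_
    simpa only [h.zero] using h1
  rw [nhds_prod_eq, Filter.eventually_prod_iff] at hc
  obtain ⟨pa, hpa, pb, hpb, hab⟩ := hc
  obtain ⟨δ, hδ, hball⟩ := Metric.eventually_nhds_iff_ball.1 hpa
  have hex : ∃ t ∈ Metric.ball (0 : ℝ) δ, β z₀ < β (Φ t z₀) := by
    by_contra hcon
    push Not at hcon
    have hmax : IsLocalMax (fun t => β (Φ t z₀)) 0 := by
      filter_upwards [Metric.ball_mem_nhds (0 : ℝ) hδ] with t ht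
      simpa only [h.zero] using hcon t ht
    have hd := hmax.hasDerivAt_eq_zero (h.der_comp (F := β) (z := z₀) (t := 0) (hβ.dAt _))
    rw [h.zero] at hd
    exact h2 hd
  obtain ⟨t₀, ht₀, hlt⟩ := hex
  have hcont : Continuous fun z => β (Φ t₀ z) := hβ.continuous.comp (h.sm_t t₀).continuous
  filter_upwards [hpb, hcont.continuousAt.eventually (lt_mem_nhds hlt)] with z hz hz'
  have hder : ∀ t, HasDerivAt (fun r => F (Φ r z)) (fderiv ℝ F (Φ t z) (Y (Φ t z))) t :=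
    fun t => h.der_comp (hF.dAt _)
  have hconst := Metric.isOpen_ball.is_const_of_deriv_eq_zero (f := fun r => F (Φ r z))
    (convex_ball (0 : ℝ) δ).isPreconnected
    (fun t _ => (hder t).differentiableAt.differentiableWithinAt)
    (fun t ht => by rw [(hder t).deriv]; exact hab (hball t ht) hz)
    (Metric.mem_ball_self hδ) ht₀
  simp only [h.zero] at hconst
  rw [hconst]
  exact h3 _ hz'

theorem LoC_pos (h : RM g) (x : V n) {u : V n} (hu : u ≠ 0) : 0 < gi g x u u := by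
  rw [gi_eq]
  simpa using (h.pos x).dotProduct_mulVec_pos hu

theorem LoC_smul (g : V n → Mat n) (x u : V n) (r : ℝ) :
    gi g x (r • u) (r • u) = r ^ 2 * gi g x u u := by
  simp only [gi, Finset.mul_sum, Pi.smul_apply, smul_eq_mul]
  exact Finset.sum_congr rfl fun i _ => Finset.sum_congr rfl fun j _ => by ring

theorem exists_tangent (hn : 2 ≤ n) (h : RM g) (x₀ : V n) (L : V n →L[ℝ] ℝ) :
    ∃ v, gi g x₀ v v = 1 ∧ L v = 0 := by
  have hk : LinearMap.ker (L : V n →ₗ[ℝ] ℝ) ≠ ⊥ :=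
    LinearMap.ker_ne_bot_of_finrank_lt (by simp; omega)
  obtain ⟨u, hu, hu0⟩ := (Submodule.ne_bot_iff _).1 hk
  have hL : L u = 0 := hu
  have hpos := LoC_pos h x₀ hu0
  refine ⟨(Real.sqrt (gi g x₀ u u))⁻¹ • u, ?_, by rw [map_smul, hL, smul_zero]⟩
  rw [LoC_smul, inv_pow, Real.sq_sqrt hpos.le, inv_mul_cancel₀ hpos.ne']

/-- from neighbourhoods of the unit vectors at `x₀` to all unit vectors near `x₀` -/
theorem unit_tube (h : RM g) {x₀ : V n} {p : Z n → Prop}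
    (hp : ∀ v, gi g x₀ v v = 1 → ∀ᶠ z in 𝓝 (x₀, v), p z) :
    ∀ᶠ x in 𝓝 x₀, ∀ v, gi g x v v = 1 → p (x, v) := by
  have hc0 : Continuous fun u : V n => gi g x₀ u u :=
    h.cont_gi.comp (f := fun u : V n => ((x₀, u) : Z n)) (continuous_const.prodMk continuous_id)
  obtain ⟨c, hc, hcle⟩ := (isCompact_sphere (0 : V n) 1).exists_forall_le' hc0.continuousOn
    (a := 0) fun u hu => LoC_pos h x₀ (by
      rintro rfl
      simp at hu)
  have e1 : ∀ᶠ x in 𝓝 x₀, ∀ u ∈ Metric.sphere (0 : V n) 1, c / 2 < gi g x u u :=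
    (isCompact_sphere (0 : V n) 1).eventually_forall_of_forall_eventually fun u hu =>
      (h.cont_gi.continuousAt (x := (x₀, u))).eventually
        (lt_mem_nhds (lt_of_lt_of_le (by linarith) (hcle u hu)))
  have e2 : ∀ᶠ x in 𝓝 x₀, ∀ v ∈ Metric.closedBall (0 : V n) (Real.sqrt (2 / c)),
      gi g x v v = 1 → p (x, v) :=
    (isCompact_closedBall (0 : V n) _).eventually_forall_of_forall_eventually fun v _ => by
      by_cases hv : gi g x₀ v v = 1
      · filter_upwards [hp v hv] with z hz _ using hz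
      · filter_upwards [(h.cont_gi.continuousAt (x := (x₀, v))).eventually_ne hv] with z hz h1
        exact absurd h1 hz
  filter_upwards [e1, e2] with x h1 h2 v hv
  refine h2 v ?_ hv
  rw [mem_closedBall_zero_iff]
  by_cases hv0 : v = 0
  · rw [hv0, norm_zero]
    exact Real.sqrt_nonneg _
  have hn : 0 < ‖v‖ := norm_pos_iff.2 hv0
  have h3 := h1 (‖v‖⁻¹ • v) (by
    rw [mem_sphere_zero_iff_norm, norm_smul, norm_inv, norm_norm, inv_mul_cancel₀ hn.ne'])
  rw [LoC_smul, hv, mul_one, inv_pow, lt_inv_comm₀ (by linarith) (by positivity), inv_div] at h3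
  exact Real.le_sqrt_of_sq_le h3.le

/-- Sketch: near `(x₀, v₁)` for one tangent unit vector `v₁` the function `w` vanishes, so
`f (x, ·) = 0` for `x` near `x₀` (`HP_eq_zero`); `flow_zero` for `w ∘ up`, `P.flow`, `φ ∘ fst` at
`dn (x₀, v)` (`Met.br_up`, `br_eq`, `eqY`); `unit_tube`. -/
theorem step3 (hn : 3 ≤ n) (P : GF D 3) (h : RM g) (hg : ∀ x i j, g x i j = D.g x i j)
    {K : Set (V n)} {x₀ : V n} (h0 : D.b x₀ ≤ 0) {φ : V n → ℝ} (hφ : Sm φ)
    (hmax : ∀ x ∈ K, φ x ≤ φ x₀) {w f : Z n → ℝ} (hw : Sol g d K (Om g) w f) {S : Set (V n)}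
    (hS : ∀ v, gi g x₀ v v = 1 → fderiv ℝ φ x₀ v = 0 → S ∈ 𝓝 v)
    (hz : ∀ᶠ x in 𝓝 x₀, ∀ v ∈ S, w (x, v) = 0) :
    ∀ᶠ x in 𝓝 x₀, ∀ v, gi g x v v = 1 → w (x, v) = 0 := by
  have hOm : ∀ v, gi g x₀ v v = 1 → ((x₀, v) : Z n) ∈ Om g := fun v hv => by
    change gi g x₀ v v ∈ Ioo (1 / 2 : ℝ) 2
    rw [hv]
    constructor <;> norm_num
  obtain ⟨v₁, hv₁, hL⟩ := exists_tangent (by omega) h x₀ (fderiv ℝ φ x₀)
  have hf : ∀ᶠ x in 𝓝 x₀, ∀ p, f (x, p) = 0 := by
    have c1 : Continuous fun x : V n => ((x, v₁) : Z n) := continuous_id.prodMk continuous_const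
    filter_upwards [hz.eventually_nhds, (c1.continuousAt (x := x₀)).eventually
      (h.isOpen_Om.mem_nhds (hOm v₁ hv₁))] with x hx hx1 p
    have c2 : Continuous fun v : V n => ((x, v) : Z n) := continuous_const.prodMk continuous_id
    refine HP_eq_zero (hw.fp x) (O := interior S ∩ (fun v : V n => ((x, v) : Z n)) ⁻¹' Om g)
      (isOpen_interior.inter (h.isOpen_Om.preimage c2))
      ⟨v₁, mem_interior_iff_mem_nhds.2 (hS v₁ hv₁ hL), hx1⟩ (fun v hv => ?_) p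
    have he : w =ᶠ[𝓝 ((x, v) : Z n)] fun _ => 0 := by
      filter_upwards [hx.prod_nhds (mem_interior_iff_mem_nhds.1 hv.1)] with z hz'
      exact hz'.1 _ hz'.2
    rw [← hw.eq _ hv.2, he.fderiv_eq]
    simp
  refine unit_tube h (p := fun z => w z = 0) fun v hv1 => ?_
  by_cases hφv : fderiv ℝ φ x₀ v = 0
  · filter_upwards [hz.prod_nhds (hS v hv1 hφv)] with z hz'
    exact hz'.1 _ hz'.2
  have hY : ∀ᶠ z in 𝓝 (D.dn (x₀, v)), P.Y z = hv D.H z := by
    have a1 : ∀ᶠ z : Z n in 𝓝 (D.dn (x₀, v)), ‖z.1‖ < P.R :=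
      (continuous_fst.norm.continuousAt (x := D.dn (x₀, v))).eventually
        (gt_mem_nhds (P.ball x₀ h0))
    have a2 : ∀ᶠ z : Z n in 𝓝 (D.dn (x₀, v)), D.H z < 3 := by
      refine (D.sm_H.continuous.continuousAt (x := D.dn (x₀, v))).eventually (gt_mem_nhds ?_)
      have := H_dn hg (x₀, v)
      simp only [hv1] at this
      linarith
    filter_upwards [a1, a2] with z h1 h2 using P.eqY z h1 h2
  have hβ : Sm fun z : Z n => φ z.1 := hφ.comp contDiff_fst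
  have key := flow_zero P.flow (F := fun z => w (D.up z)) (β := fun z => φ z.1)
    (z₀ := D.dn (x₀, v)) (hw.smw.comp D.sm_up) hβ ?_ ?_ ?_
  · filter_upwards [(D.sm_dn.continuous.continuousAt (x := (x₀, v))).eventually key] with z hz'
    rwa [D.up_dn] at hz'
  · have a3 : ∀ᶠ z : Z n in 𝓝 (D.dn (x₀, v)), D.up z ∈ Om g := by
      refine (D.sm_up.continuous.continuousAt (x := D.dn (x₀, v))).eventually ?_
      rw [D.up_dn]
      exact h.isOpen_Om.mem_nhds (hOm v hv1)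
    have a4 : ∀ᶠ z : Z n in 𝓝 (D.dn (x₀, v)), ∀ p, f (z.1, p) = 0 :=
      (continuous_fst.continuousAt (x := D.dn (x₀, v))).eventually hf
    filter_upwards [hY, a3, a4] with z h1 h2 h3
    rw [h1, ← br_eq, D.br_up hg (hw.smw.dAt _), hw.eq _ h2]
    exact h3 _
  · rw [hY.self_of_nhds, ← br_eq]
    have a5 := D.br_up hg (F := fun z : Z n => φ z.1) (z := D.dn (x₀, v)) (hβ.dAt _)
    have a6 : fderiv ℝ (fun z : Z n => φ z.1) (x₀, v) = _ :=
      ((hφ.dAt x₀).hasFDerivAt.comp ((x₀, v) : Z n) hasFDerivAt_fst).fderiv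
    rw [D.up_dn, a6] at a5
    intro h1
    exact hφv (a5.symm.trans h1)
  · intro z hlt
    exact hw.off _ fun hK => absurd (hmax _ hK) (not_le.2 hlt)

end Pool.Agent.Lib.MP_45f3cb_gt.Fa
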