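import Pool.Agent.Lib.MP_45f3cb_gt.Fa.FmA
import Pool.Agent.Lib.MP_45f3cb_gt.Fa.TuA
import Pool.Agent.Lib.MP_45f3cb_gt.Gauge

/-!
The gauge fixed solution in velocity coordinates.
-/

open Set MeasureTheory Filter Topology Matrix

namespace Pool.Agent.Lib.MP_45f3cb_gt.Fa

variable {n d : ℕ} {g : V n → Mat n} {D : Dom n}

/-- the gauge fixed solution -/
structure GS (P : GF D 3) (d : ℕ) (κ : ℝ → ℝ) (f h v f' : Z n → ℝ) : Prop where
  cut : Cut κ (1 / 8) 2
  one : ∀ s ∈ Icc (1 / 4 : ℝ) 1, κ s = 1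
  kc : KC D d κ (1 / 8) 2 v f'
  fph : FP d h
  fpf : FP (d + 1) f
  rel : ∀ z : Z n, D.b z.1 ≤ 0 → v z = κ (D.H z) * (P.sol f z - h z)

/-- the support in the base -/
def supK (v : Z n → ℝ) : Set (V n) := closure {x | ∃ p, v (x, p) ≠ 0}

variable {P : GF D 3} {κ : ℝ → ℝ} {f h v f' : Z n → ℝ}

theorem LoD_pos (H : GS P d κ f h v f') {x : V n} (hx : ¬D.b x ≤ 0) (p : V n) : v (x, p) = 0 :=
  H.kc.supp _ fun h3 => hx h3.1

theorem GS.sub (H : GS P d κ f h v f') : ∀ x ∈ supK v, D.b x ≤ 0 := by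
  refine closure_minimal (t := {x | D.b x ≤ 0}) (fun x hx => ?_)
    (isClosed_le D.smb.continuous continuous_const)
  obtain ⟨p, hp⟩ := hx
  exact by_contra fun h1 => hp (LoD_pos H h1 p)

/-- Sketch: `GF.sol_scale` for `r ≤ 1`, and for `r⁻¹` at the scaled point otherwise;
`HP_smul_arg`, `Met.H_smul`. -/
theorem GS.scale (H : GS P d κ f h v f') {x p : V n} (hx : D.b x ≤ 0) (h0 : 0 < D.H (x, p))
    (h1 : D.H (x, p) < 3) {r : ℝ} (hr : 0 < r) (h2 : D.H (x, r • p) < 3) :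
    P.sol f (x, r • p) - h (x, r • p) = r ^ d * (P.sol f (x, p) - h (x, p)) := by
  have e1 : h (x, r • p) = r ^ d * h (x, p) := HP_smul_arg (H.fph x) r p
  have e2 : P.sol f (x, r • p) = r ^ d * P.sol f (x, p) := by
    rcases le_total r 1 with h3 | h3
    · exact P.sol_scale (z := (x, p)) H.fpf hx h0 h1 hr h3
    · have h4 : 0 < D.H (x, r • p) := by
        rw [D.H_smul]
        exact mul_pos (pow_pos hr 2) h0
      have h5 := P.sol_scale (z := (x, r • p)) H.fpf hx h4 h2 (inv_pos.2 hr)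
        (inv_le_one_of_one_le₀ h3)
      simp only [inv_smul_smul₀ hr.ne'] at h5
      rw [h5, ← mul_assoc, ← mul_pow, mul_inv_cancel₀ hr.ne', one_pow, one_mul]
  rw [e1, e2, mul_sub]

theorem LoD_dn_smul (D : Dom n) (x y : V n) (r : ℝ) :
    D.dn (x, r • y) = (x, r • (D.dn (x, y)).2) := by
  refine Prod.ext rfl (funext fun i => ?_)
  simp only [Met.dn, Pi.smul_apply, smul_eq_mul, Finset.mul_sum]
  exact Finset.sum_congr rfl fun j _ => by ring

theorem LoD_hom (H : GS P d κ f h v f') {x p : V n} (h0 : D.H (x, p) ∈ Ioo (1 / 4 : ℝ) 1) :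
    (fun r : ℝ => v (x, r • p)) =ᶠ[nhds 1] fun r => r ^ d * v (x, p) := by
  by_cases hx : D.b x ≤ 0
  · have hc : Continuous fun r : ℝ => D.H (x, r • p) :=
      D.sm_H.continuous.comp (continuous_const.prodMk (continuous_id.smul continuous_const))
    have h1 : ∀ᶠ r : ℝ in nhds 1, D.H (x, r • p) ∈ Ioo (1 / 4 : ℝ) 1 :=
      (isOpen_Ioo.preimage hc).mem_nhds (by simpa using h0)
    filter_upwards [h1, Ioi_mem_nhds (zero_lt_one' ℝ)] with r hr hr0
    rw [H.rel (x, r • p) hx, H.rel (x, p) hx, H.one _ (Ioo_subset_Icc_self hr),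
      H.one _ (Ioo_subset_Icc_self h0), one_mul, one_mul]
    exact H.scale hx (by linarith [h0.1]) (by linarith [h0.2]) hr0 (by linarith [hr.2])
  · exact Eventually.of_forall fun r => by simp only [LoD_pos H hx, mul_zero]

theorem LoD_off {x : V n} (hx : x ∉ supK v) (p : V n) : v (x, p) = 0 :=
  by_contra fun h1 => hx (subset_closure ⟨p, h1⟩)

/-- Sketch: `fderiv_dn`, `H_dn`, `HP_comp_lin`; Euler: differentiate `r ↦ u (x, r • y) = r ^ d u`
at `r = 1` (`scale`); off the support `br H v = 0`, `Cut.fib`, `HP_eq_zero`. -/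
theorem GS.sol (H : GS P d κ f h v f') (hn : 0 < n) (hg : ∀ x i j, g x i j = D.g x i j) :
    Sol g d (supK v) (Om g) (fun z => v (D.dn z)) fun z => f' (D.dn z) := by
  have hw : Sm fun z => v (D.dn z) := H.kc.smv.comp D.sm_dn
  have hO : ∀ z ∈ Om g, D.H (D.dn z) ∈ Ioo (1 / 4 : ℝ) 1 := fun z hz => by
    have e := H_dn hg z
    have h1 : gi g z.1 z.2 z.2 ∈ Ioo (1 / 2 : ℝ) 2 := hz
    constructor <;> linarith [h1.1, h1.2]
  refine ⟨hw, H.kc.smf.comp D.sm_dn, fun x => HP_comp_lin (H.kc.fp x) (D.g x), fun z hz => ?_,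
    fun z hz => ?_, fun z hz => LoD_off hz _, fun z hz => ?_⟩
  · rw [fderiv_dn hg H.kc.smv, H.kc.eq, H.one _ (Ioo_subset_Icc_self (hO z hz)), one_mul]
  · have h1 : HasDerivAt (fun r : ℝ => ((z.1, r • z.2) : Z n)) (0, z.2) 1 := by
      have h2 := (hasDerivAt_const (1 : ℝ) z.1).prodMk ((hasDerivAt_id (1 : ℝ)).smul_const z.2)
      simpa using h2
    have h2 : HasFDerivAt (fun z => v (D.dn z)) (fderiv ℝ (fun z => v (D.dn z)) z)
        ((z.1, (1 : ℝ) • z.2) : Z n) := by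
      rw [one_smul]
      exact (hw.dAt z).hasFDerivAt
    have h3 := h2.comp_hasDerivAt (1 : ℝ) h1
    have h4 : HasDerivAt (fun r : ℝ => r ^ d * v (D.dn z)) (d * v (D.dn z)) 1 := by
      simpa using (hasDerivAt_pow d (1 : ℝ)).mul_const (v (D.dn z))
    refine h3.unique (h4.congr_of_eventuallyEq ?_)
    have h5 := LoD_hom H (x := z.1) (p := (D.dn z).2) (hO z hz)
    refine EventuallyEq.trans (Eventually.of_forall fun r => ?_) h5
    simp only [Function.comp_apply, LoD_dn_smul]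
  · refine HP_eq_zero (H.kc.fp z.1) (O := {p | κ (D.H (z.1, p)) ≠ 0})
      (isOpen_ne_fun (H.cut.sm.continuous.comp
        (D.sm_H.continuous.comp (Continuous.prodMk_right z.1))) continuous_const)
      (H.cut.fib D.toMet hn z.1) (fun p hp => ?_) (D.dn z).2
    have h1 : v =ᶠ[nhds (z.1, p)] fun _ => 0 := by
      filter_upwards [(isClosed_closure.preimage continuous_fst).isOpen_compl.mem_nhds
        (show ((z.1, p) : Z n) ∈ (Prod.fst ⁻¹' supK v)ᶜ from hz)] with y hy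
      exact LoD_off hy y.2
    have h2 := H.kc.eq (z.1, p)
    rw [br_congr h1, br_const] at h2
    exact (mul_eq_zero.1 h2.symm).resolve_left hp

/-- Sketch: by `scale`, `v (x, p) = κ (H) * q (up (x, p)).2` for all `p`; then `proj_unique` for the
weight `κ (H)²` and `kc.orth`, as in the proof of `KC.zero_fib` (file `HamMain`). -/
theorem GS.zero_of_unit (H : GS P d κ f h v f') (hn : 0 < n) (hg : ∀ x i j, g x i j = D.g x i j)
    {x : V n} {q : V n → ℝ} (hq : q ∈ HP n d)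
    (hu : ∀ u, gi g x u u = 1 → v (D.dn (x, u)) = q u) (p : V n) : v (x, p) = 0 := by
  by_cases hx : D.b x ≤ 0
  swap
  · exact LoD_pos H hx p
  obtain ⟨q', hq', e⟩ : ∃ q' ∈ HP n d, ∀ y, q' y = q (D.up (x, y)).2 :=
    ⟨_, HP_comp_lin hq (D.G x), fun _ => rfl⟩
  have h3 : ∀ y, v (x, y) = κ (D.H (x, y)) * q' y := fun y => by
    rw [H.rel (x, y) hx]
    by_cases hy : D.H (x, y) ∈ Icc (1 / 8 : ℝ) 2
    swap
    · rw [H.cut.supp _ hy, zero_mul, zero_mul]
    have h0 : 0 < D.H (x, y) := by linarith [hy.1]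
    have h2 : 0 < 1 / (2 * D.H (x, y)) := by positivity
    have hs : 0 < √(1 / (2 * D.H (x, y))) := Real.sqrt_pos.2 h2
    have h4 : D.H (x, √(1 / (2 * D.H (x, y))) • y) = 1 / 2 := by
      rw [D.H_smul, Real.sq_sqrt h2.le]
      field_simp
    generalize √(1 / (2 * D.H (x, y))) = s at hs h4
    have h5 := H.scale hx h0 (by linarith [hy.2]) hs (by linarith)
    have h6 : D.dn (x, (D.up (x, s • y)).2) = (x, s • y) := D.dn_up (x, s • y)
    have h7 := H_dn hg (x, (D.up (x, s • y)).2)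
    rw [h6, h4] at h7
    have h8 := hu (D.up (x, s • y)).2 (by linarith)
    rw [h6, H.rel (x, s • y) hx, h4, H.one _ ⟨by norm_num, by norm_num⟩, one_mul, h5, ← e,
      HP_smul_arg hq'] at h8
    rw [mul_left_cancel₀ (pow_pos hs d).ne' h8]
  have hκH : Continuous fun z : Z n => κ (D.H z) := H.cut.sm.continuous.comp D.sm_H.continuous
  have h4 := proj_unique (ω := fun z => κ (D.H z) ^ 2) (hκH.pow 2)
    (D.lb_H (s := 2) fun z hz => by
      rw [H.cut.supp _ fun h5 => absurd h5.2 (not_le.2 hz), zero_pow two_ne_zero])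
    (fun z => sq_nonneg _) (x := x) ((H.cut.fib D.toMet hn x).imp fun p hp => by positivity) hq'
    (by
      rw [← H.kc.orth x _ hq']
      refine integral_congr_ae (Filter.Eventually.of_forall fun p => ?_)
      simp only [h3 p]
      ring) p
  rw [h3 p, h4, mul_zero]

end Pool.Agent.Lib.MP_45f3cb_gt.Fa
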