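import Pool.Agent.Lib.MP_45f3cb_gt.Fa.LoB
import Pool.Agent.Lib.MP_45f3cb_gt.Fa.LoC
import Pool.Agent.Lib.MP_45f3cb_gt.Fa.LoD

/-!
The gauge fixed solution vanishes.
-/

open Set MeasureTheory Filter Topology Matrix

namespace Pool.Agent.Lib.MP_45f3cb_gt.Fa

variable {n d : ℕ} {g : V n → Mat n} {D : Dom n}

variable {P : GF D 3} {κ : ℝ → ℝ} {f h v f' : Z n → ℝ}

/-- Sketch: if `supK v` is not empty take a maximum point `x₀` of `φ`. If `fderiv φ x₀ ≠ 0`: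
`GS.sol`, `step12` (the hypothesis `hI` applies to `geo`: `geo_der`, `geo_gi`, `geo_zero`), `step3`,
`zero_of_unit` give `v = 0` over a neighbourhood of `x₀`, against `x₀ ∈ closure`. Otherwise
`supK v ⊆ {x₀}` and `v (x₀, p) = 0` by continuity (`dense_compl_singleton`), so the set is empty. -/
theorem GS.zero (H : GS P d κ f h v f') (hn : 3 ≤ n) (hm : RM g)
    (hg : ∀ x i j, g x i j = D.g x i j) {φ : V n → ℝ} (hφ : Sm φ)
    (hcrit : ∀ x, D.b x ≤ 0 → fderiv ℝ φ x ≠ 0 ∨ ∀ y, D.b y ≤ 0 → y ≠ x → φ x < φ y)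
    (hI : ∀ (γ γ' : ℝ → V n) (a c : ℝ), a ≤ 0 → 0 ≤ c → IsGeod g γ γ' (Icc a c) →
      (∀ t ∈ Icc a c, D.b (γ t) ≤ 0 ∧ φ (γ t) ≤ φ (γ 0) ∧ gi g (γ t) (γ' t) (γ' t) = 1) →
      fderiv ℝ φ (γ 0) (γ' 0) = 0 → IdxPos g γ γ' a c) (z : Z n) : v z = 0 := by
  by_contra hz
  have hn0 : 0 < n := by omega
  have hK : IsClosed (supK v) := isClosed_closure
  have hin : ∀ x p, v (x, p) ≠ 0 → x ∈ supK v := fun x p h => subset_closure ⟨p, h⟩
  obtain ⟨x₀, h0, hmax⟩ := (D.compact.of_isClosed_subset hK H.sub).exists_isMaxOn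
    ⟨z.1, hin z.1 z.2 hz⟩ hφ.continuous.continuousOn
  rcases hcrit x₀ (H.sub x₀ h0) with hd | hd
  · obtain ⟨h₂, f₂, S, h1, h2, h3, h4⟩ := step12 hn P hm hg hK H.sub h0 hφ hmax hd
      (fun w a b e1 e2 ha hb hin' => hI _ _ a b ha hb
        (fun t ht => geo_der P hg (z₀ := (x₀, w)) e1 (H.sub _ (hin' t ht)))
        (fun t ht => ⟨H.sub _ (hin' t ht), by
          rw [geo_zero]
          exact hmax (hin' t ht), (geo_gi P hg _ t).trans e1⟩) (by
          rw [geo_zero]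
          exact e2)) (H.sol hn0 hg)
    have h5 := step3 hn P hm hg (H.sub x₀ h0) hφ hmax h2 h3 h4
    obtain ⟨x, ⟨p, hp⟩, hx⟩ := ((mem_closure_iff_frequently.1 h0).and_eventually h5).exists
    exact hp (H.zero_of_unit hn0 hg (h1 x) (fun u hu => sub_eq_zero.1 (hx u hu)) p)
  · have : Nonempty (Fin n) := ⟨⟨0, hn0⟩⟩
    have := Module.punctured_nhds_neBot ℝ (V n) x₀
    have h1 : (fun y => v (y, z.2)) = fun _ => 0 :=
      Continuous.ext_on (dense_compl_singleton x₀)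
        (H.kc.smv.continuous.comp (Continuous.prodMk_left z.2)) continuous_const fun y hy => by
          by_contra h2
          exact (hd y (H.sub y (hin y _ h2)) hy).not_ge (hmax (hin y _ h2))
    exact hz (congrFun h1 z.1)

end Pool.Agent.Lib.MP_45f3cb_gt.Fa
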