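import Pool.Agent.Lib.MP_45f3cb_gt.Fa.LoE
import Pool.Agent.Lib.MP_45f3cb_gt.Tr2
import Pool.Agent.Lib.MP_45f3cb_gt.Tr3

/-!
The main theorem.
-/

open Set MeasureTheory

namespace Pool.Agent.Lib.MP_45f3cb_gt.Fa

theorem sinj {n : ℕ} (hn : 3 ≤ n) {g : V n → Matrix (Fin n) (Fin n) ℝ} {b : V n → ℝ}
    (h : SimpleDomain g b) {φ : V n → ℝ} (hφ : ContDiff ℝ (⊤ : ℕ∞) φ)
    (hcrit : ∀ x, b x ≤ 0 → fderiv ℝ φ x ≠ 0 ∨ ∀ y, b y ≤ 0 → y ≠ x → φ x < φ y)
    (hI : ∀ (γ γ' : ℝ → V n) (a c : ℝ), a ≤ 0 → 0 ≤ c → IsGeod g γ γ' (Icc a c) →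
      (∀ t ∈ Icc a c, b (γ t) ≤ 0 ∧ φ (γ t) ≤ φ (γ 0) ∧ gi g (γ t) (γ' t) (γ' t) = 1) →
      fderiv ℝ φ (γ 0) (γ' 0) = 0 → IdxPos g γ γ' a c) (d : ℕ) : SInj g b d := by
  obtain ⟨D, rfl, hg⟩ := exists_dom h
  have hn0 : 0 < n := by omega
  intro f hf hs hr
  obtain ⟨f1, f2⟩ := fp_ev D.toMet hf
  obtain ⟨P⟩ := exists_GF D 3
  obtain ⟨κ, hκ, hone⟩ := exists_cut (h₀ := 1 / 8) (a := 1 / 4) (b := 1) (h₁ := 2) (by norm_num)
    (by norm_num) (by norm_num) (by norm_num)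
  obtain ⟨u, v, f', hv, u1, -, u2, u3, hvu⟩ := P.gauge hn0 hκ (by norm_num) f1 f2
    (seg_of_ray D hg hr)
  have h2 : v = fun _ => 0 := funext
    (GS.zero ⟨hκ, hone, hv, u1, f2, fun z hz => (hvu z hz).1⟩ hn ⟨h.smooth_g, h.pos⟩ hg hφ hcrit hI)
  have u4 : ∀ z : Z n, D.b z.1 < 0 → br D.H u z = ev (f z.1) (D.up z).2 := fun z hz => by
    have h3 : f' z = 0 := HP_eq_zero (hv.fp z.1) (O := {p | κ (D.H (z.1, p)) ≠ 0})
      (isOpen_ne_fun (hκ.sm.continuous.comp (D.sm_H.continuous.comp (Continuous.prodMk_right z.1)))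
        continuous_const) (hκ.fib D.toMet hn0 z.1) (fun p hp' => by
          have h4 := hv.eq (z.1, p)
          rw [h2] at h4
          simp only [br, dx, dp, fderiv_fun_const, Pi.zero_apply, zero_apply, mul_zero, sub_zero,
            Finset.sum_const_zero] at h4
          exact (mul_eq_zero.1 h4.symm).resolve_left hp') z.2
    have h4 := (hvu z hz.le).2
    linarith
  obtain ⟨t, t1, t2, t3, t4⟩ := exists_tensor D.toMet u1 u2
  refine ⟨t, t1, t2, fun x hx => t3 x fun p => u3 (x, p) hx, fun x hx => ?_⟩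
  have hd : ∀ a, DifferentiableAt ℝ (fun y => t y a) x := fun a =>
    ((t1 a).contDiffAt (Filter.mem_of_superset
      ((isOpen_lt D.smb.continuous continuous_const).mem_nhds hx) fun y hy =>
        (le_of_lt hy : D.b y ≤ 0))).differentiableAt (by simp)
  refine sym_ext (hs x) (isSym_symm _) fun v => ?_
  have e : u = fun w => (fun w : Z n => ev (t w.1) w.2) (D.up w) := funext fun w => by
    change u w = ev (t (D.up w).1) (D.up w).2
    rw [t4, Prod.mk.eta, Met.dn_up]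
  have hE : DifferentiableAt ℝ (fun w : Z n => ev (t w.1) w.2) (D.up (D.dn (x, v))) := by
    rw [Met.up_dn]
    unfold ev
    refine DifferentiableAt.fun_sum fun a _ => DifferentiableAt.mul ?_ (by fun_prop)
    exact DifferentiableAt.comp (g := fun y => t y a) (f := Prod.fst) ((x, v) : Z n) (hd a)
      differentiableAt_fst
  have h1 := u4 (D.dn (x, v)) hx
  rw [e, D.br_up hg hE, Met.up_dn] at h1
  rw [ev_symm, ev_cov g hd, h1]
  rfl

end Pool.Agent.Lib.MP_45f3cb_gt.Fa
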