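import Pool.Agent.Lib.MP_45f3cb_gt.FlowD
import Pool.Agent.Lib.MP_45f3cb_gt.Calc

/-!
Smooth matrix valued functions and their derivatives.
-/

open Set MeasureTheory Filter Topology Matrix

namespace Pool.Agent.Lib.MP_45f3cb_gt.Fa

/-- real square matrices -/
abbrev Mat (n : ℕ) : Type := Matrix (Fin n) (Fin n) ℝ

/-- smooth matrix valued function -/
def MSm {n : ℕ} {E : Type} [NormedAddCommGroup E] [NormedSpace ℝ E] (A : E → Mat n) : Prop :=
  ∀ i j, Sm fun z => A z i j

section

variable {n : ℕ} {E : Type} [NormedAddCommGroup E] [NormedSpace ℝ E] {A B : E → Mat n}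

theorem MSm.const (A : Mat n) : MSm fun _ : E => A := fun _ _ => contDiff_const

theorem MSm.add (h : MSm A) (h' : MSm B) : MSm fun z => A z + B z := fun i j => (h i j).add (h' i j)

theorem MSm.sub (h : MSm A) (h' : MSm B) : MSm fun z => A z - B z := fun i j => (h i j).sub (h' i j)

theorem MSm.neg (h : MSm A) : MSm fun z => -A z := fun i j => (h i j).neg

theorem MSm.tr (h : MSm A) : MSm fun z => (A z).transpose := fun i j => h j i

theorem MSm.smul {c : E → ℝ} (hc : Sm c) (h : MSm A) : MSm fun z => c z • A z :=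
  fun i j => hc.mul (h i j)

theorem MSm.mul (h : MSm A) (h' : MSm B) : MSm fun z => A z * B z := fun i j => by
  simp only [Matrix.mul_apply]
  exact ContDiff.sum fun k _ => (h i k).mul (h' k j)

theorem MSm.comp {E' : Type} [NormedAddCommGroup E'] [NormedSpace ℝ E'] {f : E' → E} (h : MSm A)
    (hf : Sm f) : MSm fun z => A (f z) := fun i j => (h i j).comp hf

theorem MSm.mulVec {u : E → V n} (h : MSm A) (hu : Sm u) : Sm fun z => (A z).mulVec (u z) := by
  refine contDiff_pi.2 fun i => ?_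
  simp only [Matrix.mulVec, dotProduct]
  exact ContDiff.sum fun k _ => (h i k).mul (contDiff_pi.1 hu k)

theorem MSm.col (h : MSm A) (b : Fin n) : Sm fun z => (fun i => A z i b : V n) :=
  contDiff_pi.2 fun i => h i b

theorem sm_fderiv_app {F : Type} [NormedAddCommGroup F] [NormedSpace ℝ F] {f : E → F} {ξ : E → E}
    (hf : Sm f) (hξ : Sm ξ) : Sm fun z => fderiv ℝ f z (ξ z) :=
  (FlowD_smd hf).clm_apply hξ

/-- entrywise directional derivative of a matrix valued function -/
noncomputable def mD (A : E → Mat n) (z ζ : E) : Mat n :=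
  Matrix.of fun i j => fderiv ℝ (fun w => A w i j) z ζ

theorem MSm.mD {ξ : E → E} (h : MSm A) (hξ : Sm ξ) : MSm fun z => mD A z (ξ z) :=
  fun i j => sm_fderiv_app (h i j) hξ

end

variable {n : ℕ}

/-- divergence -/
noncomputable def dvg (ξ : Z n → Z n) (z : Z n) : ℝ :=
  ∑ i, ((fderiv ℝ ξ z (Pi.single i 1, 0)).1 i + (fderiv ℝ ξ z (0, Pi.single i 1)).2 i)

theorem sm_dvg {ξ : Z n → Z n} (h : Sm ξ) : Sm (dvg ξ) :=
  ContDiff.sum fun i _ =>
    ((contDiff_apply ℝ ℝ i).comp (contDiff_fst.comp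
      (sm_fderiv_app (ξ := fun _ => (Pi.single i 1, 0)) h contDiff_const))).add
    ((contDiff_apply ℝ ℝ i).comp (contDiff_snd.comp
      (sm_fderiv_app (ξ := fun _ => (0, Pi.single i 1)) h contDiff_const)))

/-- entrywise derivative -/
noncomputable def md (A : ℝ → Mat n) (t : ℝ) : Mat n := Matrix.of fun i j => deriv (fun r => A r i j) t

theorem MSm.md {A : ℝ → Mat n} (h : MSm A) : MSm (md A) := by
  intro i j
  exact (contDiff_infty_iff_deriv.1 (h i j)).2

theorem MSm.hasDerivAt {A : ℝ → Mat n} (h : MSm A) (i j : Fin n) (t : ℝ) :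
    HasDerivAt (fun r => A r i j) (Fa.md A t i j) t := by
  exact ((h i j).dAt t).hasDerivAt

theorem md_eq {A : ℝ → Mat n} {B : Mat n} {t : ℝ} (h : ∀ i j, HasDerivAt (fun r => A r i j) (B i j) t) :
    md A t = B := by
  ext i j
  exact (h i j).deriv

theorem md_congr {A B : ℝ → Mat n} {t : ℝ} (h : A =ᶠ[𝓝 t] B) : md A t = md B t := by
  ext i j
  exact Filter.EventuallyEq.deriv_eq (h.mono fun r hr => by simp only [hr])

theorem md_const (A : Mat n) (t : ℝ) : md (fun _ => A) t = 0 := by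
  exact md_eq fun i j => hasDerivAt_const t (A i j)

theorem md_add {A B : ℝ → Mat n} (h : MSm A) (h' : MSm B) (t : ℝ) :
    md (fun r => A r + B r) t = md A t + md B t := by
  exact md_eq fun i j => (h.hasDerivAt i j t).add (h'.hasDerivAt i j t)

theorem md_mul {A B : ℝ → Mat n} (h : MSm A) (h' : MSm B) (t : ℝ) :
    md (fun r => A r * B r) t = md A t * B t + A t * md B t := by
  refine md_eq fun i j => ?_
  simp only [Matrix.mul_apply, Matrix.add_apply, ← Finset.sum_add_distrib]
  exact HasDerivAt.fun_sum fun k _ => (h.hasDerivAt i k t).mul (h'.hasDerivAt k j t)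

theorem md_smul {c : ℝ → ℝ} {A : ℝ → Mat n} (hc : Sm c) (h : MSm A) (t : ℝ) :
    md (fun r => c r • A r) t = deriv c t • A t + c t • md A t := by
  exact md_eq fun i j => ((hc.dAt t).hasDerivAt).mul (h.hasDerivAt i j t)

theorem md_tr (A : ℝ → Mat n) (t : ℝ) : md (fun r => (A r)ᵀ) t = (md A t)ᵀ := rfl

theorem mD_comp {E : Type} [NormedAddCommGroup E] [NormedSpace ℝ E] {A : ℝ → Mat n} {τ : E → ℝ}
    (h : MSm A) (hτ : Sm τ) (z ζ : E) :
    mD (fun w => A (τ w)) z ζ = fderiv ℝ τ z ζ • md A (τ z) := by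
  ext i j
  have e := ((h.hasDerivAt i j (τ z)).comp_hasFDerivAt z (hτ.dAt z).hasFDerivAt).fderiv
  change fderiv ℝ ((fun r => A r i j) ∘ τ) z ζ = _
  rw [e]
  simp [mul_comm]

theorem md_curve {E : Type} [NormedAddCommGroup E] [NormedSpace ℝ E] {A : E → Mat n} {c : ℝ → E}
    {c' : E} {t : ℝ} (h : MSm A) (hc : HasDerivAt c c' t) :
    md (fun r => A (c r)) t = mD A (c t) c' := by
  exact md_eq fun i j => ((h i j).dAt (c t)).hasFDerivAt.comp_hasDerivAt t hc

theorem mD_smul {E : Type} [NormedAddCommGroup E] [NormedSpace ℝ E] {A : E → Mat n} {c : E → ℝ}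
    (hc : Sm c) (h : MSm A) (z ζ : E) :
    mD (fun w => c w • A w) z ζ = fderiv ℝ c z ζ • A z + c z • mD A z ζ := by
  ext i j
  have e := ((hc.dAt z).hasFDerivAt.mul ((h i j).dAt z).hasFDerivAt).fderiv
  change fderiv ℝ (c * fun w => A w i j) z ζ = _
  rw [e]
  simp [mD, mul_comm, add_comm]

theorem mD_mul {E : Type} [NormedAddCommGroup E] [NormedSpace ℝ E] {A B : E → Mat n}
    (h : MSm A) (h' : MSm B) (z ζ : E) :
    mD (fun w => A w * B w) z ζ = mD A z ζ * B z + A z * mD B z ζ := by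
  ext i j
  have e := (HasFDerivAt.fun_sum (u := Finset.univ) fun k _ =>
    ((h i k).dAt z).hasFDerivAt.fun_mul ((h' k j).dAt z).hasFDerivAt).fderiv
  simp only [mD, Matrix.of_apply, Matrix.mul_apply, Matrix.add_apply]
  rw [e, ← Finset.sum_add_distrib]
  simp [mul_comm, add_comm]

theorem mD_add {E : Type} [NormedAddCommGroup E] [NormedSpace ℝ E] {A B : E → Mat n}
    (h : MSm A) (h' : MSm B) (z ζ : E) : mD (fun w => A w + B w) z ζ = mD A z ζ + mD B z ζ := by
  ext i j
  have e := (((h i j).dAt z).hasFDerivAt.fun_add ((h' i j).dAt z).hasFDerivAt).fderiv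
  simp only [mD, Matrix.of_apply, Matrix.add_apply]
  rw [e]
  rfl

theorem mD_const {E : Type} [NormedAddCommGroup E] [NormedSpace ℝ E] (A : Mat n) (z ζ : E) :
    mD (fun _ : E => A) z ζ = 0 := by
  ext i j
  simp [mD]

theorem mD_smul_arg {E : Type} [NormedAddCommGroup E] [NormedSpace ℝ E] (A : E → Mat n) (z ζ : E)
    (c : ℝ) : mD A z (c • ζ) = c • mD A z ζ := by
  ext i j
  simp [mD]

/-- a matrix function that is constant in the derivative sense on an interval -/
theorem md_zero_const {A : ℝ → Mat n} (h : MSm A) {a b s t : ℝ} (h0 : ∀ r ∈ Icc a b, md A r = 0)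
    (hs : s ∈ Icc a b) (ht : t ∈ Icc a b) : A s = A t := by
  ext i j
  have hc : ContinuousOn (fun r => A r i j) (Icc a b) := (h i j).continuous.continuousOn
  have hd : ∀ r ∈ Ico a b, HasDerivWithinAt (fun r => A r i j) 0 (Ici r) r := fun r hr => by
    have e := h.hasDerivAt i j r
    rw [h0 r (Ico_subset_Icc_self hr)] at e
    exact e.hasDerivWithinAt
  exact (constant_of_has_deriv_right_zero hc hd s hs).trans
    (constant_of_has_deriv_right_zero hc hd t ht).symm

end Pool.Agent.Lib.MP_45f3cb_gt.Fa
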