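import Mathlib

/-!
The weights of the Carleman estimate and the main summation.
-/

namespace Pool.Agent.Lib.MP_45f3cb_gt.Fa

/-- the weights of the Carleman estimate -/
noncomputable def om (ρ : ℝ) (N₁ : ℕ) : ℕ → ℝ
  | 0 => 1
  | N + 1 => ρ ^ 2 * (1 / ((N₁ : ℝ) + 2) + 1 / ((N : ℝ) + 1)) * om ρ N₁ N

theorem om_pos {ρ : ℝ} (hρ : 0 < ρ) (N₁ N : ℕ) : 0 < om ρ N₁ N := by
  induction N with
  | zero => simp [om]
  | succ N ih => rw [om]; positivity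

theorem le_om {ρ : ℝ} (hρ : 0 < ρ) (N₁ N : ℕ) : ρ ^ (2 * N) / (N.factorial : ℝ) ≤ om ρ N₁ N := by
  induction N with
  | zero => simp [om]
  | succ N ih =>
    have e : ρ ^ (2 * (N + 1)) / ((N + 1).factorial : ℝ) =
        ρ ^ 2 * (1 / ((N : ℝ) + 1)) * (ρ ^ (2 * N) / (N.factorial : ℝ)) := by
      rw [Nat.factorial_succ]
      push_cast
      have : (N.factorial : ℝ) ≠ 0 := by positivity
      field_simp
      ring
    rw [om, e]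
    have h1 : (0 : ℝ) ≤ 1 / ((N₁ : ℝ) + 2) := by positivity
    gcongr
    linarith

theorem om_le {ρ : ℝ} (hρ : 0 < ρ) {N₁ N : ℕ} (h : N ≤ N₁ + 2) :
    om ρ N₁ N ≤ (2 * ρ ^ 2) ^ N / (N.factorial : ℝ) := by
  induction N with
  | zero => simp [om]
  | succ N ih =>
    have e : (2 * ρ ^ 2) ^ (N + 1) / ((N + 1).factorial : ℝ) =
        ρ ^ 2 * (1 / ((N : ℝ) + 1) + 1 / ((N : ℝ) + 1)) * ((2 * ρ ^ 2) ^ N / (N.factorial : ℝ)) := by
      rw [Nat.factorial_succ]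
      push_cast
      have : (N.factorial : ℝ) ≠ 0 := by positivity
      field_simp
      ring
    rw [om, e]
    have h1 : (N : ℝ) + 1 ≤ (N₁ : ℝ) + 2 := by exact_mod_cast h
    have h2 := (om_pos hρ N₁ N).le
    have h3 := ih (by omega)
    gcongr

theorem NumC_sq {x' cr cr' dd J R : ℝ} (hR : 0 ≤ R) (h : 0 ≤ x' - 2 * R * cr' + R ^ 2 * dd) :
    0 ≤ x' - 2 * R * cr + 2 * R * |cr - cr'| + R ^ 2 * |dd - J| + R ^ 2 * J := by
  have h1 := mul_le_mul_of_nonneg_left (le_abs_self (cr - cr')) hR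
  have h2 := mul_le_mul_of_nonneg_left (le_abs_self (dd - J)) (sq_nonneg R)
  linarith

theorem NumC_lin {J b q c K : ℝ} (hq : 0 ≤ q) (hK : 0 ≤ K) (h : |J| ≤ (K + 1) * b) :
    0 ≤ (q * (c + 1 / (K + 1 + 1)) - q * (c + 1 / (K + 1))) * J +
      (q * (c + 1 / (K + 1 + 1)) - q * c) * b := by
  have e : (q * (c + 1 / (K + 1 + 1)) - q * (c + 1 / (K + 1))) * J +
      (q * (c + 1 / (K + 1 + 1)) - q * c) * b =
      q / ((K + 1) * (K + 1 + 1)) * ((K + 1) * b - J) := by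
    field_simp
    ring
  rw [e]
  have := le_abs_self J
  exact mul_nonneg (by positivity) (by linarith)

theorem NumC_ind {x x' cr cr' JJ dd GG bb : ℕ → ℝ} {ρ : ℝ} (hρ : 0 < ρ) (N₁ : ℕ)
    (hb : ∀ N, 0 ≤ bb N) (g0 : GG 0 = x 0) (g1 : GG 1 = x 1 - 2 * cr 0 + bb 0)
    (g2 : ∀ N, GG (N + 2) = x (N + 2) - 2 * cr (N + 1) + bb (N + 1) + JJ N)
    (h2 : ∀ N (r : ℝ), 0 ≤ x' N - 2 * r * cr' N + r ^ 2 * dd N)
    (h3 : ∀ N : ℕ, |JJ N| ≤ ((N : ℝ) + 1) * bb (N + 1)) (K : ℕ) :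
    ρ ^ 2 * (1 / ((N₁ : ℝ) + 2)) * ∑ N ∈ Finset.range (K + 1), om ρ N₁ N * bb N +
        om ρ N₁ (K + 1) * x' (K + 1) -
        om ρ N₁ (K + 1) * (ρ ^ 2 * (1 / ((N₁ : ℝ) + 2) + 1 / ((K : ℝ) + 1))) * JJ K ≤
      ∑ N ∈ Finset.range (K + 1 + 1), om ρ N₁ N * GG N +
        ∑ N ∈ Finset.range (K + 1 + 1), om ρ N₁ N * (x' N - x N) +
        2 * ∑ N ∈ Finset.range (K + 1), om ρ N₁ (N + 1) * |cr N - cr' N| +
        ∑ N ∈ Finset.range (K + 1), om ρ N₁ (N + 1) *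
          (ρ ^ 2 * (1 / ((N₁ : ℝ) + 2) + 1 / ((N : ℝ) + 1))) * |dd N - JJ N| := by
  have hc : (0 : ℝ) ≤ 1 / ((N₁ : ℝ) + 2) := by positivity
  induction K with
  | zero =>
    simp only [Finset.sum_range_succ, Finset.sum_range_zero, zero_add, om, g0, g1, Nat.cast_zero,
      mul_one, one_mul, div_one]
    generalize 1 / ((N₁ : ℝ) + 2) = c at hc ⊢
    have hA := NumC_sq (cr := cr 0) (J := JJ 0) (R := ρ ^ 2 * (c + 1)) (by positivity) (h2 0 _)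
    have hB := mul_nonneg (sq_nonneg ρ) (hb 0)
    linarith
  | succ K ih =>
    have e : om ρ N₁ (K + 1 + 1) =
        ρ ^ 2 * (1 / ((N₁ : ℝ) + 2) + 1 / ((K : ℝ) + 1 + 1)) * om ρ N₁ (K + 1) := by
      rw [om]
      push_cast
      ring
    rw [Finset.sum_range_succ _ (K + 1 + 1), Finset.sum_range_succ _ (K + 1 + 1),
      Finset.sum_range_succ (fun N => om ρ N₁ N * bb N) (K + 1),
      Finset.sum_range_succ (fun N => om ρ N₁ (N + 1) * |cr N - cr' N|) (K + 1),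
      Finset.sum_range_succ (fun N => om ρ N₁ (N + 1) *
        (ρ ^ 2 * (1 / ((N₁ : ℝ) + 2) + 1 / ((N : ℝ) + 1))) * |dd N - JJ N|) (K + 1),
      show GG (K + 1 + 1) = _ from g2 K, e]
    push_cast
    have hW := (om_pos hρ N₁ (K + 1)).le
    have hA := mul_nonneg hW (NumC_sq (cr := cr (K + 1)) (J := JJ (K + 1))
      (R := ρ ^ 2 * (1 / ((N₁ : ℝ) + 2) + 1 / ((K : ℝ) + 1 + 1))) (by positivity) (h2 (K + 1) _))
    have hB := mul_nonneg hW (NumC_lin (q := ρ ^ 2) (c := 1 / ((N₁ : ℝ) + 2)) (sq_nonneg ρ)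
      (Nat.cast_nonneg K) (h3 K))
    have e2 : x (K + 2) = x (K + 1 + 1) := rfl
    rw [e2]
    linarith

/-- the part of `car_num` without the error terms. Sketch: `r N = ρ² (1 / (N₁ + 2) + 1 / (N + 1))`,
`om (N + 1) = r N * om N`; subtract `om N * (h2 N (r N))` for `N < N₁`; the coefficient of `JJ N` is
`om (N + 2) - om (N + 1) * r N ≤ 0` (use `h3`), that of `bb N` becomes
`om N * ((N + 1) r N - N r (N - 1)) = om N * ρ² / (N₁ + 2)` (at least this for `N = 0`); for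
`N = N₁ - 1` only the negative part is there, and `r (N₁ - 1) * N₁ ≤ 2 ρ²`. -/
theorem car_num1 {x x' cr cr' JJ dd GG bb : ℕ → ℝ} {ρ : ℝ} (hρ : 0 < ρ) {N₁ : ℕ} (hN : 1 ≤ N₁)
    (hb : ∀ N, 0 ≤ bb N) (hx : ∀ N, 0 ≤ x' N) (g0 : GG 0 = x 0) (g1 : GG 1 = x 1 - 2 * cr 0 + bb 0)
    (g2 : ∀ N, GG (N + 2) = x (N + 2) - 2 * cr (N + 1) + bb (N + 1) + JJ N)
    (h2 : ∀ N (r : ℝ), 0 ≤ x' N - 2 * r * cr' N + r ^ 2 * dd N)
    (h3 : ∀ N : ℕ, |JJ N| ≤ ((N : ℝ) + 1) * bb (N + 1)) :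
    ρ ^ 2 / ((N₁ : ℝ) + 2) * ∑ N ∈ Finset.range N₁, om ρ N₁ N * bb N ≤
      ∑ N ∈ Finset.range (N₁ + 1), om ρ N₁ N * GG N +
        ∑ N ∈ Finset.range (N₁ + 1), om ρ N₁ N * (x' N - x N) +
        2 * ∑ N ∈ Finset.range N₁, om ρ N₁ (N + 1) * |cr N - cr' N| +
        ∑ N ∈ Finset.range N₁, om ρ N₁ (N + 1) *
          (ρ ^ 2 * (1 / ((N₁ : ℝ) + 2) + 1 / ((N : ℝ) + 1))) * |dd N - JJ N| +
        2 * ρ ^ 2 * om ρ N₁ N₁ * bb N₁ := by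
  obtain ⟨K, rfl⟩ : ∃ K, N₁ = K + 1 := ⟨N₁ - 1, by omega⟩
  have h := NumC_ind hρ (K + 1) hb g0 g1 g2 h2 h3 K
  have hW := (om_pos hρ (K + 1) (K + 1)).le
  have h4 := mul_nonneg hW (hx (K + 1))
  have h5 : ρ ^ 2 * (1 / (((K + 1 : ℕ) : ℝ) + 2) + 1 / ((K : ℝ) + 1)) * JJ K ≤
      2 * ρ ^ 2 * bb (K + 1) := by
    have hK : (0 : ℝ) ≤ K := Nat.cast_nonneg K
    have a1 : 1 / (((K + 1 : ℕ) : ℝ) + 2) ≤ 1 / ((K : ℝ) + 1) := by
      push_cast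
      exact one_div_le_one_div_of_le (by positivity) (by linarith)
    calc ρ ^ 2 * (1 / (((K + 1 : ℕ) : ℝ) + 2) + 1 / ((K : ℝ) + 1)) * JJ K
        ≤ ρ ^ 2 * (1 / (((K + 1 : ℕ) : ℝ) + 2) + 1 / ((K : ℝ) + 1)) *
            (((K : ℝ) + 1) * bb (K + 1)) :=
          mul_le_mul_of_nonneg_left ((le_abs_self _).trans (h3 K)) (by positivity)
      _ ≤ ρ ^ 2 * (1 / ((K : ℝ) + 1) + 1 / ((K : ℝ) + 1)) * (((K : ℝ) + 1) * bb (K + 1)) := by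
          have := hb (K + 1)
          gcongr
      _ = 2 * ρ ^ 2 * bb (K + 1) := by
          field_simp
          ring
  have h6 := mul_le_mul_of_nonneg_left h5 hW
  rw [div_eq_mul_one_div (ρ ^ 2)]
  linarith

end Pool.Agent.Lib.MP_45f3cb_gt.Fa
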