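import Pool.Agent.Lib.MP_45f3cb_gt.Fa.MatA
import Pool.Agent.Lib.MP_45f3cb_gt.FlowC
import Pool.Agent.Lib.MP_45f3cb_gt.Proj
import Pool.Agent.Lib.MP_45f3cb_gt.Top

/-!
Linear ordinary differential equations.
-/

open Set MeasureTheory Filter Topology Matrix

namespace Pool.Agent.Lib.MP_45f3cb_gt.Fa

variable {n : ℕ}

theorem OdeA_mv {f f' : ℝ → ℝ} {C a b x y : ℝ} (hf : ∀ t ∈ Icc a b, HasDerivAt f (f' t) t)
    (hC : ∀ t ∈ Icc a b, |f' t| ≤ C) (hx : x ∈ Icc a b) (hy : y ∈ Icc a b) :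
    |f y - f x| ≤ C * |y - x| :=
  (convex_Icc a b).norm_image_sub_le_of_norm_hasDerivWithin_le
    (fun t ht => (hf t ht).hasDerivWithinAt) hC hx hy

theorem OdeA_fst {F G : Type} [NormedAddCommGroup F] [NormedSpace ℝ F] [NormedAddCommGroup G]
    [NormedSpace ℝ G] {f : ℝ → F × G} {f' : F × G} {t : ℝ} (h : HasDerivAt f f' t) :
    HasDerivAt (fun r => (f r).1) f'.1 t :=
  (ContinuousLinearMap.fst ℝ F G).hasFDerivAt.comp_hasDerivAt t h

theorem OdeA_snd {F G : Type} [NormedAddCommGroup F] [NormedSpace ℝ F] [NormedAddCommGroup G]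
    [NormedSpace ℝ G] {f : ℝ → F × G} {f' : F × G} {t : ℝ} (h : HasDerivAt f f' t) :
    HasDerivAt (fun r => (f r).2) f'.2 t :=
  (ContinuousLinearMap.snd ℝ F G).hasFDerivAt.comp_hasDerivAt t h

/-- the case of a bounded coefficient -/
theorem OdeA_bdd {E : Type} [NormedAddCommGroup E] [NormedSpace ℝ E] [FiniteDimensional ℝ E]
    {A : ℝ × ℝ → E →L[ℝ] E} (hA : Sm A) {K : ℝ} (hK : ∀ q, ‖A q‖ ≤ K) (t₀ T : ℝ) :
    ∃ Ψ : ℝ × ℝ → E →L[ℝ] E, Sm Ψ ∧ (∀ s, Ψ (s, t₀) = ContinuousLinearMap.id ℝ E) ∧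
      ∀ s ∈ Icc (0 : ℝ) 1, ∀ t ∈ Icc (t₀ - T) (t₀ + T),
        HasDerivAt (fun r => Ψ (s, r)) ((A (s, t)).comp (Ψ (s, t))) t := by
  have hK0 : 0 ≤ K := (norm_nonneg _).trans (hK 0)
  have hR : 0 < 1 + |T| + Real.exp (K * |T|) := by positivity
  let β : ContDiffBump ((0, t₀, 0) : ℝ × ℝ × (E →L[ℝ] E)) :=
    ⟨1 + |T| + Real.exp (K * |T|), 1 + |T| + Real.exp (K * |T|) + 1, hR, lt_add_one _⟩
  let Y₀ : ℝ × ℝ × (E →L[ℝ] E) → ℝ × ℝ × (E →L[ℝ] E) :=
    fun w => (0, 1, (A (w.1, w.2.1)).comp w.2.2)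
  have hY₀ : Sm Y₀ := contDiff_const.prodMk (contDiff_const.prodMk
    ((hA.comp (contDiff_fst.prodMk (contDiff_fst.comp contDiff_snd))).clm_comp
      (contDiff_snd.comp contDiff_snd)))
  obtain ⟨Φ, hΦ⟩ := exists_isFlow (Y := fun w => β w • Y₀ w) (β.contDiff.smul hY₀)
    β.hasCompactSupport.smul_right
  refine ⟨fun q => (Φ (q.2 - t₀) (q.1, t₀, ContinuousLinearMap.id ℝ E)).2.2, ?_, ?_, ?_⟩
  · have h1 : Sm fun q : ℝ × ℝ => ((q.2 - t₀, (q.1, t₀, ContinuousLinearMap.id ℝ E)) :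
        ℝ × (ℝ × ℝ × (E →L[ℝ] E))) :=
      (contDiff_snd.sub contDiff_const).prodMk (contDiff_fst.prodMk contDiff_const)
    exact contDiff_snd.comp (contDiff_snd.comp (hΦ.sm.comp h1))
  · intro s
    simp only [sub_self, hΦ.zero]
  intro s hs t ht
  set z : ℝ × ℝ × (E →L[ℝ] E) := (s, t₀, ContinuousLinearMap.id ℝ E) with hz
  have hd := hΦ.der z
  have h0 := hΦ.zero z
  have d1 : ∀ r, HasDerivAt (fun r => (Φ r z).1) 0 r := fun r => by
    simpa [Y₀] using OdeA_fst (hd r)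
  have d2 : ∀ r, HasDerivAt (fun r => (Φ r z).2.1) (β (Φ r z)) r := fun r => by
    simpa [Y₀] using OdeA_fst (OdeA_snd (hd r))
  have d3 : ∀ r, HasDerivAt (fun r => (Φ r z).2.2)
      (β (Φ r z) • (A ((Φ r z).1, (Φ r z).2.1)).comp (Φ r z).2.2) r := fun r =>
    OdeA_snd (OdeA_snd (hd r))
  have hm : ∀ r, |r| ≤ |T| → r ∈ Icc (-|T|) |T| := fun r hr => abs_le.1 hr
  have hm0 : (0 : ℝ) ∈ Icc (-|T|) |T| := hm 0 (by simp)
  have e1 : ∀ r, |r| ≤ |T| → (Φ r z).1 = s := fun r hr => by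
    have h := OdeA_mv (f' := fun _ => 0) (C := 0) (fun r _ => d1 r) (fun _ _ => by simp) hm0
      (hm r hr)
    rw [zero_mul, abs_nonpos_iff, sub_eq_zero, h0] at h
    exact h
  have e2 : ∀ r, |r| ≤ |T| → |(Φ r z).2.1 - t₀| ≤ |T| := fun r hr => by
    have h := OdeA_mv (C := 1) (fun r _ => d2 r)
      (fun _ _ => by rw [abs_of_nonneg β.nonneg]; exact β.le_one) hm0 (hm r hr)
    rw [one_mul, sub_zero, h0] at h
    exact h.trans hr
  have e3 : ∀ r, |r| ≤ |T| → ‖(Φ r z).2.2‖ ≤ Real.exp (K * |T|) := fun r hr => by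
    have h := flowC_gron (K := K) d3 (fun r => by
      rw [norm_smul, Real.norm_eq_abs, abs_of_nonneg β.nonneg]
      refine (mul_le_of_le_one_left (norm_nonneg _) β.le_one).trans ?_
      exact (ContinuousLinearMap.opNorm_comp_le _ _).trans
        (mul_le_mul_of_nonneg_right (hK _) (norm_nonneg _))) r
    rw [h0] at h
    refine h.trans ((mul_le_of_le_one_left (Real.exp_pos _).le
      ContinuousLinearMap.norm_id_le).trans ?_)
    exact Real.exp_le_exp.2 (mul_le_mul_of_nonneg_left hr hK0)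
  have e4 : ∀ r, |r| ≤ |T| → β (Φ r z) = 1 := fun r hr => by
    refine β.one_of_mem_closedBall ?_
    have hT := abs_nonneg T
    have hE := Real.exp_pos (K * |T|)
    have b1 : |(Φ r z).1| ≤ 1 := by
      rw [e1 r hr, abs_of_nonneg hs.1]
      exact hs.2
    have b2 := e2 r hr
    have b3 := e3 r hr
    rw [mem_closedBall_iff_norm, Prod.norm_def, Prod.norm_def]
    simp only [Prod.fst_sub, Prod.snd_sub, sub_zero, Real.norm_eq_abs]
    change _ ≤ 1 + |T| + Real.exp (K * |T|)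
    refine max_le (by linarith) (max_le (by linarith) (by linarith))
  have e5 : ∀ r, |r| ≤ |T| → (Φ r z).2.1 = t₀ + r := fun r hr => by
    have h := OdeA_mv (f := fun r => (Φ r z).2.1 - r) (f' := fun _ => 0) (C := 0)
      (fun r hr => by
        have h1 := (d2 r).sub (hasDerivAt_id r)
        rw [e4 r (abs_le.2 hr), sub_self] at h1
        exact h1) (fun _ _ => by simp) hm0 (hm r hr)
    rw [zero_mul, abs_nonpos_iff, sub_eq_zero, h0] at h
    simp only [hz] at h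
    linarith
  have hr : |t - t₀| ≤ |T| := (abs_le.2 ⟨by linarith [ht.1], by linarith [ht.2]⟩).trans
    (le_abs_self T)
  have h := (d3 (t - t₀)).comp_sub_const t t₀
  rw [e4 _ hr, one_smul, e1 _ hr, e5 _ hr, add_sub_cancel] at h
  exact h

/-- fundamental solution with a parameter. Sketch: `exists_isFlow` on `ℝ × ℝ × (E →L[ℝ] E)` for the
field `(s, t, Ψ) ↦ β (s, t, Ψ) • (0, 1, (A (s, t)).comp Ψ)` with a bump `β` that is `1` on a large
ball; a bound of `‖A‖` on the support and `flowC_gron` keep the solution in the ball for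
`|t - t₀| ≤ T` (the `t` component moves with speed at most one). -/
theorem linflow {E : Type} [NormedAddCommGroup E] [NormedSpace ℝ E] [FiniteDimensional ℝ E]
    {A : ℝ × ℝ → E →L[ℝ] E} (hA : Sm A) (t₀ T : ℝ) :
    ∃ Ψ : ℝ × ℝ → E →L[ℝ] E, Sm Ψ ∧ (∀ s, Ψ (s, t₀) = ContinuousLinearMap.id ℝ E) ∧
      ∀ s ∈ Icc (0 : ℝ) 1, ∀ t ∈ Icc (t₀ - T) (t₀ + T),
        HasDerivAt (fun r => Ψ (s, r)) ((A (s, t)).comp (Ψ (s, t))) t := by
  have hR : 0 < 1 + |T| := by positivity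
  let β : ContDiffBump ((0, t₀) : ℝ × ℝ) := ⟨1 + |T|, 1 + |T| + 1, hR, lt_add_one _⟩
  have hs : Sm fun q => β q • A q := β.contDiff.smul hA
  have hc : HasCompactSupport fun q => β q • A q := β.hasCompactSupport.smul_right
  obtain ⟨K, hK⟩ := hc.exists_bound_of_continuous hs.continuous
  obtain ⟨Ψ, h1, h2, h3⟩ := OdeA_bdd hs hK t₀ T
  refine ⟨Ψ, h1, h2, fun s hs t ht => ?_⟩
  have h := h3 s hs t ht
  have e : β (s, t) = 1 := by
    refine β.one_of_mem_closedBall ?_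
    have hT := abs_nonneg T
    have b1 : |s| ≤ 1 := by
      rw [abs_of_nonneg hs.1]
      exact hs.2
    have b2 : |t - t₀| ≤ |T| := (abs_le.2 ⟨by linarith [ht.1], by linarith [ht.2]⟩).trans
      (le_abs_self T)
    rw [mem_closedBall_iff_norm, Prod.norm_def]
    simp only [Prod.fst_sub, Prod.snd_sub, sub_zero, Real.norm_eq_abs]
    change _ ≤ 1 + |T|
    exact max_le (by linarith) (by linarith)
  rwa [e, one_smul] at h

/-- Sketch: `linflow` on `V n` (columns `Ψ t (P₀ column)`). -/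
theorem matode {B : ℝ → Mat n} (hB : MSm B) (P₀ : Mat n) (t₀ T : ℝ) :
    ∃ P : ℝ → Mat n, MSm P ∧ P t₀ = P₀ ∧ ∀ t ∈ Icc (t₀ - T) (t₀ + T), md P t = B t * P t := by
  let A : ℝ × ℝ → V n →L[ℝ] V n := fun q => LinearMap.toContinuousLinearMap (Matrix.toLin' (B q.2))
  have hAv : ∀ q v, A q v = B q.2 *ᵥ v := fun q v => by simp [A]
  have hA : Sm A := contDiff_clm_apply_iff.2 fun v => by
    simp only [hAv]
    exact (hB.comp contDiff_snd).mulVec (u := fun _ => v) contDiff_const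
  obtain ⟨Ψ, h1, h2, h3⟩ := linflow hA t₀ T
  refine ⟨fun t => Matrix.of fun i j => Ψ (0, t) (fun k => P₀ k j) i, fun i j => ?_, ?_,
    fun t ht => ?_⟩
  · exact contDiff_pi.1 ((h1.comp (contDiff_const.prodMk contDiff_id)).clm_apply
      (contDiff_const (c := fun k => P₀ k j))) i
  · ext i j
    simp [h2]
  · ext i j
    have h := (h3 0 ⟨le_rfl, zero_le_one⟩ t ht).clm_apply
      (hasDerivAt_const t (fun k => P₀ k j : V n))
    have h' := (hasDerivAt_pi.1 h i).deriv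
    simp only [md, Matrix.of_apply, Matrix.mul_apply]
    rw [h']
    simp [hAv, Matrix.mulVec, dotProduct]

/-- Sketch: `exists_smooth_inv` for a lower bound of `|det|` near `Icc a b`; `contDiff_det`,
`contDiff_adjugate`, `Matrix.mul_adjugate`. -/
theorem exists_inv {E : ℝ → Mat n} (hE : MSm E) {a b : ℝ} (h : ∀ t ∈ Icc a b, (E t).det ≠ 0) :
    ∃ G : ℝ → Mat n, MSm G ∧ ∀ t ∈ Icc a b, ∀ᶠ s in 𝓝 t, E s * G s = 1 := by
  have hd : Sm fun t => (E t).det := contDiff_det hE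
  have hc : Continuous fun t => |(E t).det| := hd.continuous.abs
  obtain ⟨m, hm, hle⟩ := isCompact_Icc.exists_forall_le' (a := 0) hc.continuousOn
    fun t ht => abs_pos.2 (h t ht)
  obtain ⟨ι, hι, hι'⟩ := exists_smooth_inv (half_pos hm)
  refine ⟨fun s => ι (E s).det • (E s).adjugate,
    MSm.smul (hι.comp hd) fun i j => contDiff_adjugate hE i j, fun t ht => ?_⟩
  have he : ∀ᶠ s in 𝓝 t, m / 2 < |(E s).det| :=
    hc.continuousAt.eventually (lt_mem_nhds ((half_lt_self hm).trans_le (hle t ht)))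
  filter_upwards [he] with s hs
  rw [Matrix.mul_smul, Matrix.mul_adjugate, smul_smul, hι' _ hs.le, one_smul]

/-- Sketch: spectral theorem or `Matrix.PosDef` square root; `Q` is the inverse of the root. -/
theorem exists_root {B : Mat n} (h : B.PosDef) : ∃ Q : Mat n, Qᵀ * B * Q = 1 := by
  open scoped MatrixOrder in
  obtain ⟨y, hy, rfl⟩ := CStarAlgebra.isStrictlyPositive_iff_eq_star_mul_self.mp
    h.isStrictlyPositive
  have hd := (Matrix.isUnit_iff_isUnit_det y).1 hy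
  refine ⟨y⁻¹, ?_⟩
  rw [Matrix.star_eq_conjTranspose, Matrix.conjTranspose_eq_transpose_of_trivial,
    ← Matrix.mul_assoc, ← Matrix.transpose_mul, Matrix.mul_nonsing_inv _ hd, Matrix.transpose_one,
    Matrix.one_mul, Matrix.mul_nonsing_inv _ hd]

/-- positivity of the index form of `y'' + A y` -/
def Idx (A : ℝ → Mat n) (a b : ℝ) : Prop :=
  ∀ y : ℝ → V n, Sm y → y a = 0 → y b = 0 → (∃ t ∈ Icc a b, y t ≠ 0) →
    0 < ∫ t in a..b, (deriv y t ⬝ᵥ deriv y t - y t ⬝ᵥ (A t *ᵥ y t))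

/-- the Lyapunov operator -/
noncomputable def Ly (A C : Mat n) : Mat n := (1 / 2 : ℝ) • (Aᵀ * C + C * A)

end Pool.Agent.Lib.MP_45f3cb_gt.Fa
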