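import Pool.Agent.Lib.MP_45f3cb_gt.Fa.OdeA

/-!
The matrix boundary value problem: uniqueness and the initial value problem.
-/

open Set MeasureTheory Filter Topology Matrix

namespace Pool.Agent.Lib.MP_45f3cb_gt.Fa

variable {n : ℕ}

theorem OdeB_deriv {y : ℝ → V n} (hy : Sm y) : Continuous (deriv y) :=
  hy.continuous_deriv (by simp)

theorem OdeB_cont₁ {y : ℝ → V n} (hy : Sm y) : Continuous fun t => deriv y t ⬝ᵥ deriv y t :=
  (OdeB_deriv hy).dotProduct (OdeB_deriv hy)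

theorem OdeB_cont₂ {A : ℝ → Mat n} {y : ℝ → V n} (hA : MSm A) (hy : Sm y) :
    Continuous fun t => y t ⬝ᵥ (A t *ᵥ y t) :=
  hy.continuous.dotProduct (hA.mulVec hy).continuous

theorem OdeB_cont₃ {A : ℝ → Mat n} {y : ℝ → V n} (hA : MSm A) (hy : Sm y) :
    Continuous fun t => deriv y t ⬝ᵥ deriv y t - y t ⬝ᵥ (A t *ᵥ y t) :=
  (OdeB_cont₁ hy).sub (OdeB_cont₂ hA hy)

theorem OdeB_fst {E F : Type} [NormedAddCommGroup E] [NormedSpace ℝ E] [NormedAddCommGroup F]
    [NormedSpace ℝ F] {f : ℝ → E × F} {f' : E × F} {t : ℝ} (h : HasDerivAt f f' t) :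
    HasDerivAt (fun r => (f r).1) f'.1 t :=
  (ContinuousLinearMap.fst ℝ E F).hasFDerivAt.comp_hasDerivAt t h

theorem OdeB_snd {E F : Type} [NormedAddCommGroup E] [NormedSpace ℝ E] [NormedAddCommGroup F]
    [NormedSpace ℝ F] {f : ℝ → E × F} {f' : E × F} {t : ℝ} (h : HasDerivAt f f' t) :
    HasDerivAt (fun r => (f r).2) f'.2 t :=
  (ContinuousLinearMap.snd ℝ E F).hasFDerivAt.comp_hasDerivAt t h

theorem OdeB_dot (v : V n) : 0 ≤ v ⬝ᵥ v := Finset.sum_nonneg fun i _ => mul_self_nonneg (v i)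

theorem OdeB_pos {y : ℝ → V n} {a b : ℝ} (hy : Sm y) (ha : y a = 0)
    (h : ∃ t ∈ Icc a b, y t ≠ 0) : 0 < ∫ t in a..b, deriv y t ⬝ᵥ deriv y t := by
  obtain ⟨t, ht, h0⟩ := h
  have hab : a < b := by
    refine lt_of_le_of_ne (ht.1.trans ht.2) fun e => h0 ?_
    rw [le_antisymm (e ▸ ht.2) ht.1, ha]
  refine intervalIntegral.integral_pos hab (OdeB_cont₁ hy).continuousOn
    (fun x _ => OdeB_dot _) ?_
  by_contra hc
  refine h0 ((constant_of_has_deriv_right_zero hy.continuous.continuousOn (fun x hx => ?_) t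
    ht).trans ha)
  have h1 : deriv y x = 0 := dotProduct_self_eq_zero.1
    (le_antisymm (not_lt.1 fun h2 => hc ⟨x, Ico_subset_Icc_self hx, h2⟩) (OdeB_dot _))
  exact (h1 ▸ (hy.dAt x).hasDerivAt).hasDerivWithinAt

theorem OdeB_nonneg {A : ℝ → Mat n} {y : ℝ → V n} {a b : ℝ} (hab : a ≤ b) (h : Idx A a b)
    (hy : Sm y) (ha : y a = 0) (hb : y b = 0) :
    0 ≤ ∫ t in a..b, (deriv y t ⬝ᵥ deriv y t - y t ⬝ᵥ (A t *ᵥ y t)) := by
  by_cases h0 : ∃ t ∈ Icc a b, y t ≠ 0
  · exact (h y hy ha hb h0).le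
  · refine intervalIntegral.integral_nonneg hab fun t ht => ?_
    have h1 : y t = 0 := by
      by_contra h2
      exact h0 ⟨t, ht, h2⟩
    rw [h1, zero_dotProduct, sub_zero]
    exact OdeB_dot _

theorem Idx.smul {A : ℝ → Mat n} {a b s : ℝ} (hA : MSm A) (hab : a ≤ b) (h : Idx A a b)
    (hs : s ∈ Icc (0 : ℝ) 1) : Idx (fun t => s • A t) a b := by
  intro y hy ha hb h0
  have h1 := OdeB_pos hy ha h0
  have h2 := h y hy ha hb h0
  have i1 := (OdeB_cont₁ hy).intervalIntegrable (μ := volume) a b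
  have i2 := (OdeB_cont₂ hA hy).intervalIntegrable (μ := volume) a b
  rw [intervalIntegral.integral_sub i1 i2] at h2
  simp only [smul_mulVec, dotProduct_smul, smul_eq_mul]
  rw [intervalIntegral.integral_sub i1 (i2.const_mul s), intervalIntegral.integral_const_mul]
  rcases hs.1.eq_or_lt with h3 | h3
  · rw [← h3, zero_mul, sub_zero]
    exact h1
  · nlinarith [mul_pos h3 h2, mul_nonneg (sub_nonneg.2 hs.2) h1.le]

theorem OdeB_alg (A C D : Mat n) :
    (∑ j, ((fun i => D i j) ⬝ᵥ (fun i => D i j) - (fun i => C i j) ⬝ᵥ (A *ᵥ fun i => C i j))) +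
      ∑ i, (D i ⬝ᵥ D i - C i ⬝ᵥ (A *ᵥ C i)) =
      ∑ i, ∑ j, 2 * ((-Ly A C) i j * C i j + D i j * D i j) := by
  have h1 : ∑ j, (fun i => C i j) ⬝ᵥ (A *ᵥ fun i => C i j) = ∑ i, ∑ j, (Aᵀ * C) i j * C i j := by
    rw [Finset.sum_comm]
    refine Finset.sum_congr rfl fun j _ => ?_
    rw [dotProduct_mulVec, ← mulVec_transpose]
    rfl
  have h2 : ∑ i, C i ⬝ᵥ (A *ᵥ C i) = ∑ i, ∑ j, (C * A) i j * C i j := by
    refine Finset.sum_congr rfl fun i _ => ?_
    rw [dotProduct_mulVec]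
    rfl
  have h3 : ∑ j, (fun i => D i j) ⬝ᵥ (fun i => D i j) = ∑ i, ∑ j, D i j * D i j :=
    Finset.sum_comm
  have h4 : ∑ i, D i ⬝ᵥ D i = ∑ i, ∑ j, D i j * D i j := rfl
  rw [Finset.sum_sub_distrib, Finset.sum_sub_distrib, h1, h2, h3, h4]
  simp only [← Finset.sum_sub_distrib, ← Finset.sum_add_distrib]
  refine Finset.sum_congr rfl fun i _ => Finset.sum_congr rfl fun j _ => ?_
  simp only [Ly, Matrix.neg_apply, Matrix.smul_apply, Matrix.add_apply, smul_eq_mul]
  ring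

/-- Sketch: `0 = ∫ (∑ C' C)' = ∫ ∑ C'² - ∑ C (Ly A C)`, which is half the sum of the index forms of
the columns plus half the sum of those of the rows. -/
theorem bvp_uniq {A C : ℝ → Mat n} {a b : ℝ} (hA : MSm A) (hC : MSm C) (hab : a ≤ b) (h : Idx A a b)
    (heq : ∀ t ∈ Icc a b, md (md C) t + Ly (A t) (C t) = 0) (ha : C a = 0) (hb : C b = 0) :
    ∀ t ∈ Icc a b, C t = 0 := by
  intro t ht
  by_contra h0
  obtain ⟨i₀, j₀, h1⟩ : ∃ i j, C t i j ≠ 0 := by
    by_contra h2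
    refine h0 (Matrix.ext fun i j => ?_)
    by_contra h3
    exact h2 ⟨i, j, h3⟩
  have sc : ∀ j, Sm fun r => (fun i => C r i j : V n) := hC.col
  have sr : ∀ i, Sm fun r => (C r i : V n) := hC.tr.col
  have dc : ∀ j r, deriv (fun r => (fun i => C r i j : V n)) r = fun i => md C r i j :=
    fun j r => (hasDerivAt_pi.2 fun i => hC.hasDerivAt i j r).deriv
  have dr : ∀ i r, deriv (fun r => (C r i : V n)) r = md C r i :=
    fun i r => (hasDerivAt_pi.2 fun j => hC.hasDerivAt i j r).deriv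
  have cc := fun j => OdeB_cont₃ hA (sc j)
  have cr := fun i => OdeB_cont₃ hA (sr i)
  have p1 := Finset.sum_pos' (s := Finset.univ)
    (fun j _ => OdeB_nonneg hab h (sc j) (by rw [ha]; rfl) (by rw [hb]; rfl))
    ⟨j₀, Finset.mem_univ _, h _ (sc j₀) (by rw [ha]; rfl) (by rw [hb]; rfl)
      ⟨t, ht, fun e => h1 (congrFun e i₀)⟩⟩
  have p2 := Finset.sum_nonneg (s := Finset.univ)
    fun i _ => OdeB_nonneg hab h (sr i) (by rw [ha]; rfl) (by rw [hb]; rfl)
  have p3 := add_pos_of_pos_of_nonneg p1 p2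
  have c1 := continuous_finsetSum Finset.univ fun j _ => cc j
  have c2 := continuous_finsetSum Finset.univ fun j _ => cr j
  rw [← intervalIntegral.integral_finsetSum fun j _ => (cc j).intervalIntegrable a b,
    ← intervalIntegral.integral_finsetSum fun j _ => (cr j).intervalIntegrable a b,
    ← intervalIntegral.integral_add (c1.intervalIntegrable a b) (c2.intervalIntegrable a b),
    intervalIntegral.integral_eq_sub_of_hasDerivAt
      (f := fun r => ∑ i, ∑ j, 2 * (md C r i j * C r i j)) ?_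
      ((c1.intervalIntegrable a b).add (c2.intervalIntegrable a b))] at p3
  · simp [ha, hb] at p3
  · intro r hr
    rw [uIcc_of_le hab] at hr
    simp only [dc, dr]
    rw [OdeB_alg, ← eq_neg_of_add_eq_zero_left (heq r hr)]
    exact HasDerivAt.fun_sum fun i _ => HasDerivAt.fun_sum fun j _ =>
      ((hC.md.hasDerivAt i j r).mul (hC.hasDerivAt i j r)).const_mul 2

/-- the state space of the initial value problem -/
abbrev OdeB_E (n : ℕ) : Type := (Fin n → Fin n → ℝ) × (Fin n → Fin n → ℝ) × ℝ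

/-- the field of the initial value problem -/
noncomputable def OdeB_F (s : ℝ) (A : Mat n) : OdeB_E n →L[ℝ] OdeB_E n :=
  LinearMap.toContinuousLinearMap
    { toFun := fun u =>
        (u.2.1, fun i j => -(s * Ly A (Matrix.of u.1) i j) - u.2.2 * (1 : Mat n) i j, 0)
      map_add' := fun u v => by
        refine Prod.ext rfl (Prod.ext ?_ (add_zero _).symm)
        funext i j
        simp only [Ly, Prod.fst_add, Prod.snd_add, Matrix.smul_apply, Matrix.add_apply,
          Matrix.mul_apply, Matrix.of_apply, Pi.add_apply, smul_eq_mul, mul_add, add_mul,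
          Finset.sum_add_distrib]
        ring
      map_smul' := fun c u => by
        refine Prod.ext rfl (Prod.ext ?_ (mul_zero c).symm)
        funext i j
        simp only [Ly, Prod.smul_fst, Prod.smul_snd, Matrix.smul_apply, Matrix.add_apply,
          Matrix.mul_apply, Matrix.of_apply, Pi.smul_apply, smul_eq_mul, RingHom.id_apply,
          mul_left_comm _ c, mul_assoc c, ← Finset.mul_sum]
        ring }

theorem OdeB_F_apply (s : ℝ) (A : Mat n) (u : OdeB_E n) : OdeB_F s A u =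
    (u.2.1, fun i j => -(s * Ly A (Matrix.of u.1) i j) - u.2.2 * (1 : Mat n) i j, 0) := rfl

theorem OdeB_F_sm {A : ℝ → Mat n} (hA : MSm A) : Sm fun q : ℝ × ℝ => OdeB_F q.1 (A q.2) := by
  refine contDiff_clm_apply_iff.2 fun u => ?_
  simp only [OdeB_F_apply]
  refine contDiff_const.prodMk (ContDiff.prodMk ?_ contDiff_const)
  refine contDiff_pi.2 fun i => contDiff_pi.2 fun j => ?_
  have h1 : MSm fun q : ℝ × ℝ => A q.2 := hA.comp contDiff_snd
  have h2 : MSm fun q : ℝ × ℝ => Ly (A q.2) (Matrix.of u.1) :=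
    MSm.smul contDiff_const ((h1.tr.mul (MSm.const _)).add ((MSm.const _).mul h1))
  exact (contDiff_fst.mul (h2 i j)).neg.sub contDiff_const

/-- solutions of the initial value problem. Sketch: `linflow` on
`(Fin n → Fin n → ℝ) × (Fin n → Fin n → ℝ) × ℝ` for `(C, C₁, r)' = (C₁, -s Ly A C - r • 1, 0)`;
on the open interval `C' = C₁`. -/
theorem bvp_ivp {A : ℝ → Mat n} (hA : MSm A) {a b : ℝ} (hab : a ≤ b) :
    ∃ Φ : ℝ → ℝ → (Mat n × Mat n × ℝ) →ₗ[ℝ] Mat n,
      (∀ u, MSm fun q : ℝ × ℝ => Φ q.1 q.2 u) ∧ ∀ s ∈ Icc (0 : ℝ) 1, ∀ u, Φ s a u = u.1 ∧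
        md (fun t => Φ s t u) a = u.2.1 ∧ ∀ t ∈ Icc a b,
          md (md fun t => Φ s t u) t + s • Ly (A t) (Φ s t u) = -(u.2.2 • (1 : Mat n)) := by
  obtain ⟨Ψ, hΨ, h0, hd⟩ := linflow (OdeB_F_sm hA) a (b - a + 1)
  refine ⟨fun s t =>
    { toFun := fun u => Matrix.of (Ψ (s, t) (Matrix.of.symm u.1, Matrix.of.symm u.2.1, u.2.2)).1
      map_add' := fun u v => congrArg (fun w : OdeB_E n => Matrix.of w.1) (map_add (Ψ (s, t))
        (Matrix.of.symm u.1, Matrix.of.symm u.2.1, u.2.2)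
        (Matrix.of.symm v.1, Matrix.of.symm v.2.1, v.2.2))
      map_smul' := fun c u => congrArg (fun w : OdeB_E n => Matrix.of w.1) (map_smul (Ψ (s, t)) c
        (Matrix.of.symm u.1, Matrix.of.symm u.2.1, u.2.2)) }, fun u i j => ?_, fun s hs u => ?_⟩
  · exact contDiff_pi.1 (contDiff_pi.1 (hΨ.clm_apply contDiff_const).fst i) j
  simp only [LinearMap.coe_mk, AddHom.coe_mk]
  generalize hw : ((Matrix.of.symm u.1, Matrix.of.symm u.2.1, u.2.2) : OdeB_E n) = w
  have hw1 : Matrix.of w.1 = u.1 := by rw [← hw]; rfl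
  have hw2 : Matrix.of w.2.1 = u.2.1 := by rw [← hw]; rfl
  have hw3 : w.2.2 = u.2.2 := by rw [← hw]
  have D : ∀ t ∈ Icc (a - (b - a + 1)) (a + (b - a + 1)),
      HasDerivAt (fun r => Ψ (s, r) w) (OdeB_F s (A t) (Ψ (s, t) w)) t := fun t ht => by
    simpa using (hd s hs t ht).clm_apply (hasDerivAt_const t w)
  have D1 : ∀ t ∈ Icc (a - (b - a + 1)) (a + (b - a + 1)),
      md (fun r => Matrix.of (Ψ (s, r) w).1) t = Matrix.of (Ψ (s, t) w).2.1 := fun t ht =>
    md_eq fun i j => hasDerivAt_pi.1 (hasDerivAt_pi.1 (OdeB_fst (D t ht)) i) j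
  have sub : ∀ t ∈ Icc a b, t ∈ Ioo (a - (b - a + 1)) (a + (b - a + 1)) := fun t ht =>
    ⟨by linarith [ht.1], by linarith [ht.2]⟩
  refine ⟨by rw [h0]; exact hw1, ?_, fun t ht => ?_⟩
  · rw [D1 a (Ioo_subset_Icc_self (sub a ⟨le_rfl, hab⟩)), h0]
    exact hw2
  have D3 : (Ψ (s, t) w).2.2 = u.2.2 := by
    have e := constant_of_has_deriv_right_zero (f := fun r => (Ψ (s, r) w).2.2) (a := a) (b := b)
      (fun r hr => (OdeB_snd (OdeB_snd
        (D r (Ioo_subset_Icc_self (sub r hr))))).continuousAt.continuousWithinAt)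
      (fun r hr => (OdeB_snd (OdeB_snd
        (D r (Ioo_subset_Icc_self (sub r (Ico_subset_Icc_self hr)))))).hasDerivWithinAt) t ht
    rw [e, h0]
    exact hw3
  have D2 : md (fun r => Matrix.of (Ψ (s, r) w).2.1) t = Matrix.of fun i j =>
      -(s * Ly (A t) (Matrix.of (Ψ (s, t) w).1) i j) - (Ψ (s, t) w).2.2 * (1 : Mat n) i j :=
    md_eq fun i j => hasDerivAt_pi.1 (hasDerivAt_pi.1
      (OdeB_fst (OdeB_snd (D t (Ioo_subset_Icc_self (sub t ht))))) i) j
  rw [md_congr (B := fun r => Matrix.of (Ψ (s, r) w).2.1)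
    (Filter.mem_of_superset (Ioo_mem_nhds (sub t ht).1 (sub t ht).2)
      fun r hr => D1 r (Ioo_subset_Icc_self hr)), D2, D3]
  ext i j
  simp only [Matrix.add_apply, Matrix.of_apply, Matrix.smul_apply, Matrix.neg_apply, smul_eq_mul]
  ring

end Pool.Agent.Lib.MP_45f3cb_gt.Fa
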