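import Pool.Agent.Lib.MP_45f3cb_gt.Fa.OdeB

/-!
The matrix boundary value problem: shooting.
-/

open Set MeasureTheory Filter Topology Matrix

namespace Pool.Agent.Lib.MP_45f3cb_gt.Fa

variable {n : ℕ}

theorem OdeC_exp (T : (Mat n × Mat n × ℝ) →ₗ[ℝ] Mat n) (c : Mat n) (r : ℝ)
    (v : Fin n × Fin n → ℝ) :
    T (c, Matrix.of fun i j => v (i, j), r) =
      T (c, 0, r) + ∑ q, v q • T (0, Matrix.single q.1 q.2 1, 0) := by
  have e : (Matrix.of fun i j => v (i, j) : Mat n) = ∑ q, v q • Matrix.single q.1 q.2 (1 : ℝ) := by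
    rw [Matrix.matrix_eq_sum_single (Matrix.of fun i j => v (i, j)), Fintype.sum_prod_type]
    refine Finset.sum_congr rfl fun i _ => Finset.sum_congr rfl fun j _ => ?_
    rw [Matrix.smul_single, smul_eq_mul, mul_one, Matrix.of_apply]
  have e' : ((c, Matrix.of fun i j => v (i, j), r) : Mat n × Mat n × ℝ) =
      (c, 0, r) + ∑ q, v q • ((0, Matrix.single q.1 q.2 1, 0) : Mat n × Mat n × ℝ) := by
    rw [e]
    simp [Prod.ext_iff, Prod.fst_sum, Prod.snd_sum]
  rw [e', map_add, map_sum]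
  simp only [map_smul]

theorem OdeC_md {X : ℝ → Mat n} (hX : MSm X) :
    md (fun r => (1 / 2 : ℝ) • (X r + (X r)ᵀ)) = fun t => (1 / 2 : ℝ) • (md X t + (md X t)ᵀ) := by
  funext t
  rw [md_smul (c := fun _ => (1 / 2 : ℝ)) contDiff_const (hX.add hX.tr), deriv_const, zero_smul,
    zero_add, md_add hX hX.tr, md_tr]

theorem OdeC_Ly (A X : Mat n) :
    Ly A ((1 / 2 : ℝ) • (X + Xᵀ)) = (1 / 2 : ℝ) • (Ly A X + (Ly A X)ᵀ) := by
  simp only [Ly, Matrix.mul_smul, Matrix.smul_mul, Matrix.mul_add, Matrix.add_mul, transpose_smul,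
    transpose_add, transpose_mul, transpose_transpose]
  module

theorem OdeC_Ly_smul (s : ℝ) (A X : Mat n) : Ly (s • A) X = s • Ly A X := by
  simp only [Ly, Matrix.mul_smul, Matrix.smul_mul, transpose_smul]
  module

theorem OdeC_zero {X : ℝ → Mat n} (hX : MSm X) {a b : ℝ} (hab : a < b)
    (h : ∀ t ∈ Icc a b, X t = 0) : md X a = 0 := by
  ext i j
  have h1 : HasDerivWithinAt (fun r => X r i j) 0 (Icc a b) a :=
    (hasDerivWithinAt_const a (Icc a b) (0 : ℝ)).congr_of_mem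
      (fun r hr => by rw [h r hr, Matrix.zero_apply]) (left_mem_Icc.2 hab.le)
  exact (uniqueDiffOn_Icc hab a (left_mem_Icc.2 hab.le)).eq_deriv _
    (hX.hasDerivAt i j a).hasDerivWithinAt h1

/-- Sketch: the shooting map `u ↦ Φ s b (0, u, 0)` is injective (`bvp_uniq`, the derivative at `a`
of a function that vanishes on `Icc a b` is zero), so its matrix in the standard basis has nonzero
determinant; solve with the adjugate, continuous in `s`; symmetrise `C ↦ (C + Cᵀ) / 2`. -/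
theorem bvp_fam {A : ℝ → Mat n} (hA : MSm A) {a b : ℝ} (hab : a < b) (h : Idx A a b) :
    ∃ C : ℝ → ℝ → Mat n, (∀ s, MSm (C s)) ∧ (∀ s t, (C s t)ᵀ = C s t) ∧
      (∀ i j, ContinuousOn (fun q : ℝ × ℝ => C q.1 q.2 i j) (Icc 0 1 ×ˢ Icc a b)) ∧
      ∀ s ∈ Icc (0 : ℝ) 1, C s a = 1 ∧ C s b = 1 ∧
        ∀ t ∈ Icc a b, md (md (C s)) t + s • Ly (A t) (C s t) = -1 := by
  obtain ⟨Φ, hΦ, hs⟩ := bvp_ivp hA hab.le
  have h1 : ∀ s u, MSm fun t => Φ s t u := fun s u =>
    (hΦ u).comp (f := fun t : ℝ => (s, t)) (contDiff_const.prodMk contDiff_id)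
  have h2 : ∀ u i j, Continuous fun s => Φ s b u i j := fun u i j =>
    ((hΦ u).comp (f := fun s : ℝ => (s, b)) (contDiff_id.prodMk contDiff_const) i j).continuous
  obtain ⟨M, hM⟩ : ∃ M : ℝ → Matrix (Fin n × Fin n) (Fin n × Fin n) ℝ, M = fun s =>
      Matrix.of fun p q => Φ s b (0, Matrix.single q.1 q.2 1, 0) p.1 p.2 := ⟨_, rfl⟩
  have hMc : Continuous M := by
    rw [hM]
    exact continuous_matrix fun p q => h2 _ _ _
  have hMv : ∀ s c r v i j, Φ s b (c, Matrix.of fun i j => v (i, j), r) i j =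
      Φ s b (c, 0, r) i j + (M s *ᵥ v) (i, j) := fun s c r v i j => by
    rw [OdeC_exp, Matrix.add_apply, Matrix.sum_apply, hM]
    simp only [Matrix.mulVec, dotProduct, Matrix.smul_apply, smul_eq_mul, Matrix.of_apply, mul_comm]
  have hdet : ∀ s ∈ Icc (0 : ℝ) 1, (M s).det ≠ 0 := fun s hs' h0 => by
    obtain ⟨v, hv, hv0⟩ := Matrix.exists_mulVec_eq_zero_iff.2 h0
    obtain ⟨e1, e2, e3⟩ := hs s hs' (0, Matrix.of fun i j => v (i, j), 0)
    have e4 := bvp_uniq (A := fun t => s • A t) (MSm.smul contDiff_const hA) (h1 s _) hab.le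
      (h.smul hA hab.le hs') (fun t ht => by rw [OdeC_Ly_smul, e3 t ht, zero_smul, neg_zero]) e1 (by
        ext i j
        rw [hMv, hv0, Pi.zero_apply, add_zero]
        exact congrFun (congrFun (map_zero (Φ s b)) i) j)
    rw [OdeC_zero (h1 s _) hab e4] at e2
    exact hv (funext fun q => (congrFun (congrFun e2 q.1) q.2).symm)
  obtain ⟨v, hv⟩ : ∃ v : ℝ → Fin n × Fin n → ℝ, v = fun s => (M s).det⁻¹ • ((M s).adjugate *ᵥ
      fun p => (1 : Mat n) p.1 p.2 - Φ s b (1, 0, 1) p.1 p.2) := ⟨_, rfl⟩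
  have hvc : ContinuousOn v (Icc 0 1) := by
    rw [hv]
    exact (hMc.matrix_det.continuousOn.inv₀ hdet).smul (hMc.matrix_adjugate.matrix_mulVec
      (continuous_pi fun p => continuous_const.sub (h2 _ _ _))).continuousOn
  have hb : ∀ s ∈ Icc (0 : ℝ) 1, Φ s b (1, Matrix.of fun i j => v s (i, j), 1) = 1 := fun s hs' => by
    ext i j
    rw [hMv, hv]
    simp only [Matrix.mulVec_smul, Matrix.mulVec_mulVec, Matrix.mul_adjugate, Matrix.smul_mulVec,
      Matrix.one_mulVec, smul_smul, inv_mul_cancel₀ (hdet s hs'), one_smul]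
    ring
  have hc : ∀ i j, ContinuousOn (fun q : ℝ × ℝ =>
      Φ q.1 q.2 (1, Matrix.of fun i j => v q.1 (i, j), 1) i j) (Icc 0 1 ×ˢ Icc a b) := fun i j => by
    simp only [OdeC_exp, Matrix.add_apply, Matrix.sum_apply, Matrix.smul_apply, smul_eq_mul]
    refine (hΦ _ i j).continuous.continuousOn.add (continuousOn_finsetSum _ fun p _ =>
      ContinuousOn.mul ?_ (hΦ _ i j).continuous.continuousOn)
    exact (continuousOn_pi.1 hvc p).comp continuousOn_fst fun q hq => hq.1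
  refine ⟨fun s t => (1 / 2 : ℝ) • (Φ s t (1, Matrix.of fun i j => v s (i, j), 1) +
    (Φ s t (1, Matrix.of fun i j => v s (i, j), 1))ᵀ), fun s =>
      MSm.smul contDiff_const ((h1 s _).add (h1 s _).tr), fun s t => ?_, fun i j => ?_,
    fun s hs' => ?_⟩
  · rw [transpose_smul, transpose_add, transpose_transpose, add_comm]
  · exact continuousOn_const.mul ((hc i j).add (hc j i))
  · obtain ⟨e1, -, e3⟩ := hs s hs' (1, Matrix.of fun i j => v s (i, j), 1)
    refine ⟨?_, ?_, fun t ht => ?_⟩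
    · simp only [e1, transpose_one]
      module
    · simp only [hb s hs', transpose_one]
      module
    · have e4 := e3 t ht
      have e5 := congrArg Matrix.transpose e4
      rw [OdeC_md (h1 s _), OdeC_md (h1 s _).md, OdeC_Ly]
      simp only [one_smul, transpose_add, transpose_smul, transpose_neg, transpose_one] at e4 e5
      linear_combination (norm := module) (1 / 2 : ℝ) • e4 + (1 / 2 : ℝ) • e5

end Pool.Agent.Lib.MP_45f3cb_gt.Fa
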