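import Pool.Agent.Lib.MP_45f3cb_gt.Fa.PtA

/-!
The jet algebra of functions over a compact set of phase space; first order operators.
-/

open Set MeasureTheory Filter Topology

namespace Pool.Agent.Lib.MP_45f3cb_gt.Fa

/-- phase space with the jet variable -/
abbrev W (n : ℕ) : Type := Z n × V n

variable {n : ℕ}

/-- a compact set of phase space with a positive weight -/
structure Ctx (n : ℕ) where
  K : Set (Z n)
  cpt : IsCompact K
  ρ : Z n → ℝ
  smρ : Sm ρ
  pos : ∀ z, 0 < ρ z

/-- smooth functions that vanish over the complement of `K` -/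
def Ctx.M (C : Ctx n) : Submodule ℝ (W n → ℝ) where
  carrier := {P | Sm P ∧ ∀ z, z ∉ C.K → ∀ y, P (z, y) = 0}
  add_mem' := fun {P Q} h h' => ⟨ContDiff.add h.1 h'.1, fun z hz y => by
    simp [h.2 z hz y, h'.2 z hz y]⟩
  zero_mem' := ⟨contDiff_const, fun _ _ _ => rfl⟩
  smul_mem' := fun c P h => ⟨ContDiff.const_smul c h.1, fun z hz y => by simp [h.2 z hz y]⟩

theorem Ctx.sm {C : Ctx n} (P : C.M) : Sm P.1 := P.2.1

theorem Ctx.off {C : Ctx n} (P : C.M) {z : Z n} (hz : z ∉ C.K) (y : V n) : P.1 (z, y) = 0 :=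
  P.2.2 z hz y

theorem Ctx.fderiv_off {C : Ctx n} (P : C.M) {z : Z n} (hz : z ∉ C.K) (y : V n) :
    fderiv ℝ P.1 (z, y) = 0 := by
  have h : P.1 =ᶠ[𝓝 (z, y)] fun _ => 0 :=
    Filter.mem_of_superset ((C.cpt.isClosed.isOpen_compl.preimage continuous_fst).mem_nhds hz)
      fun w hw => Ctx.off P hw w.2
  rw [h.fderiv_eq]
  simp

/-- elements of the module agree if they agree over `K` -/
theorem Ctx.ext {C : Ctx n} {P Q : C.M} (h : ∀ z ∈ C.K, ∀ y, P.1 (z, y) = Q.1 (z, y)) : P = Q :=
  Subtype.ext (funext fun w => by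
    by_cases hw : w.1 ∈ C.K
    · exact h w.1 hw w.2
    · exact (Ctx.off P hw w.2).trans (Ctx.off Q hw w.2).symm)

/-- the data of a first order operator: vector field, potential and Euler matrix -/
structure OD (n : ℕ) where
  ξ : Z n → Z n
  a : Z n → ℝ
  e : Z n → Mat n
  sξ : Sm ξ
  sa : Sm a
  se : MSm e

/-- the action of the operator on functions -/
noncomputable def OD.app (o : OD n) (P : W n → ℝ) (w : W n) : ℝ :=
  fderiv ℝ P w (o.ξ w.1, (o.e w.1).mulVec w.2) + o.a w.1 * P w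

theorem OD.sm_app (o : OD n) {P : W n → ℝ} (h : Sm P) : Sm (o.app P) :=
  (sm_fderiv_app h ((o.sξ.comp contDiff_fst).prodMk
    ((o.se.comp contDiff_fst).mulVec contDiff_snd))).add ((o.sa.comp contDiff_fst).mul h)

/-- the operator on the module -/
noncomputable def Ctx.op (C : Ctx n) (o : OD n) : Module.End ℝ C.M where
  toFun P := ⟨o.app P.1, o.sm_app (Ctx.sm P), fun z hz y => by
    simp [OD.app, Ctx.fderiv_off P hz y, Ctx.off P hz y]⟩
  map_add' P Q := Subtype.ext (funext fun w => by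
    simp only [OD.app, Submodule.coe_add, Pi.add_apply]
    rw [fderiv_add ((Ctx.sm P).dAt w) ((Ctx.sm Q).dAt w)]
    simp only [add_apply]
    ring)
  map_smul' c P := Subtype.ext (funext fun w => by
    simp only [OD.app, Submodule.coe_smul, Pi.smul_apply, RingHom.id_apply]
    rw [fderiv_const_smul ((Ctx.sm P).dAt w)]
    simp only [smul_apply, smul_eq_mul]
    ring)

theorem Ctx.op_apply (C : Ctx n) (o : OD n) (P : C.M) (w : W n) : (C.op o P).1 w = o.app P.1 w :=
  rfl

/-- derivative in the jet variable -/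
noncomputable def dy (a : Fin n) (P : W n → ℝ) (w : W n) : ℝ := fderiv ℝ P w (0, Pi.single a 1)

theorem sm_dy {P : W n → ℝ} (h : Sm P) (a : Fin n) : Sm (dy a P) :=
  sm_fderiv_app (ξ := fun _ => (0, Pi.single a 1)) h contDiff_const

theorem dy_slice {P : W n → ℝ} (h : Sm P) (a : Fin n) (z : Z n) :
    pdF a (fun y => P (z, y)) = fun y => dy a P (z, y) := by
  funext y
  have h1 := ((h.dAt (z, y)).hasFDerivAt.comp y (hasFDerivAt_prodMk_right z y)).fderiv
  simp only [pdF, dy]
  rw [show (fun y => P (z, y)) = P ∘ fun y => (z, y) from rfl, h1]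
  simp

theorem Ctx.intg (C : Ctx n) (P Q : C.M) : Integrable fun z => C.ρ z * (P.1 (z, 0) * Q.1 (z, 0)) :=
  Pool.Agent.Lib.MP_45f3cb_gt.intg (C.smρ.continuous.mul
    (((Ctx.sm P).continuous.comp (Continuous.prodMk_left 0)).mul
      ((Ctx.sm Q).continuous.comp (Continuous.prodMk_left 0))))
    (HasCompactSupport.intro C.cpt fun z hz => by simp [Ctx.off P hz 0])

theorem dy_coord {P : W n → ℝ} (h : Sm P) (a b : Fin n) (w : W n) :
    dy a (fun w => w.2 b * P w) w = w.2 b * dy a P w + if a = b then P w else 0 := by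
  have h1 : HasFDerivAt (fun w : W n => w.2 b)
      ((ContinuousLinearMap.proj b : V n →L[ℝ] ℝ).comp (ContinuousLinearMap.snd ℝ (Z n) (V n))) w :=
    ((ContinuousLinearMap.proj b : V n →L[ℝ] ℝ).comp
      (ContinuousLinearMap.snd ℝ (Z n) (V n))).hasFDerivAt
  have h2 := (h1.mul (h.dAt w).hasFDerivAt).fderiv
  simp only [dy]
  rw [show (fun w : W n => w.2 b * P w) = (fun w : W n => w.2 b) * P from rfl, h2]
  by_cases hab : a = b
  · subst hab
    simp
  · simp [hab, Ne.symm hab]

/-- the jet algebra -/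
noncomputable def Ctx.jet (C : Ctx n) : Jet n C.M where
  D a :=
    { toFun := fun P => ⟨dy a P.1, sm_dy (Ctx.sm P) a, fun z hz y => by
        simp [dy, Ctx.fderiv_off P hz y]⟩
      map_add' := fun P Q => Subtype.ext (funext fun w => by
        simp only [dy, Submodule.coe_add, Pi.add_apply]
        rw [fderiv_add ((Ctx.sm P).dAt w) ((Ctx.sm Q).dAt w)]
        rfl)
      map_smul' := fun c P => Subtype.ext (funext fun w => by
        simp only [dy, Submodule.coe_smul, Pi.smul_apply, RingHom.id_apply]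
        rw [fderiv_const_smul ((Ctx.sm P).dAt w)]
        rfl) }
  Y a :=
    { toFun := fun P => ⟨fun w => w.2 a * P.1 w,
        ((contDiff_apply ℝ ℝ a).comp contDiff_snd).mul (Ctx.sm P), fun z hz y => by
        simp [Ctx.off P hz y]⟩
      map_add' := fun P Q => Subtype.ext (funext fun w => mul_add _ _ _)
      map_smul' := fun c P => Subtype.ext (funext fun w => mul_left_comm _ _ _) }
  B := LinearMap.mk₂ ℝ (fun P Q => ∫ z, C.ρ z * (P.1 (z, 0) * Q.1 (z, 0)))
    (fun P P' Q => by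
      rw [← integral_add (C.intg P Q) (C.intg P' Q)]
      exact integral_congr_ae (Eventually.of_forall fun z => by simp [add_mul, mul_add]))
    (fun c P Q => by
      rw [smul_eq_mul, ← integral_const_mul]
      exact integral_congr_ae (Eventually.of_forall fun z => by simp; ring))
    (fun P Q Q' => by
      rw [← integral_add (C.intg P Q) (C.intg P Q')]
      exact integral_congr_ae (Eventually.of_forall fun z => by simp [mul_add]))
    fun c P Q => by
      rw [smul_eq_mul, ← integral_const_mul]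
      exact integral_congr_ae (Eventually.of_forall fun z => by simp; ring)
  DD a b P := Subtype.ext (funext fun w => fderiv_symm (Ctx.sm P) w _ _)
  DY a b P := Subtype.ext (funext fun w => (dy_coord (Ctx.sm P) a b w).trans (by
    split_ifs <;> rfl))
  sym P Q := integral_congr_ae (Eventually.of_forall fun z => by simp [mul_comm])
  pos P := integral_nonneg fun z => mul_nonneg (C.pos z).le (mul_self_nonneg _)
  BY a P Q := by simp

theorem Ctx.D_apply (C : Ctx n) (a : Fin n) (P : C.M) (w : W n) : (C.jet.D a P).1 w = dy a P.1 w :=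
  rfl

theorem Ctx.Y_apply (C : Ctx n) (a : Fin n) (P : C.M) (w : W n) :
    (C.jet.Y a P).1 w = w.2 a * P.1 w := rfl

theorem Ctx.B_apply (C : Ctx n) (P Q : C.M) :
    C.jet.B P Q = ∫ z, C.ρ z * (P.1 (z, 0) * Q.1 (z, 0)) := rfl

/-- divergence with respect to the weight -/
noncomputable def Ctx.dv (C : Ctx n) (ξ : Z n → Z n) (z : Z n) : ℝ :=
  dvg ξ z + fderiv ℝ C.ρ z (ξ z) / C.ρ z

theorem Ctx.sm_dv (C : Ctx n) {ξ : Z n → Z n} (h : Sm ξ) : Sm (C.dv ξ) :=
  (sm_dvg h).add ((sm_fderiv_app C.smρ h).div C.smρ fun z => (C.pos z).ne')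

/-- multiplication by a function -/
def OD.mul (a : Z n → ℝ) (ha : Sm a) : OD n :=
  ⟨fun _ => 0, a, fun _ => 0, contDiff_const, ha, MSm.const 0⟩

/-- the Euler operator of a matrix function -/
def OD.eul (e : Z n → Mat n) (he : MSm e) : OD n :=
  ⟨fun _ => 0, fun _ => 0, e, contDiff_const, contDiff_const, he⟩

/-- the adjoint -/
noncomputable def OD.adj (C : Ctx n) (o : OD n) : OD n :=
  ⟨fun z => -o.ξ z, fun z => o.a z - C.dv o.ξ z, fun z => (o.e z).transpose, o.sξ.neg,
    o.sa.sub (C.sm_dv o.sξ), o.se.tr⟩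

/-- the commutator -/
noncomputable def OD.br (o o' : OD n) : OD n :=
  ⟨fun z => fderiv ℝ o'.ξ z (o.ξ z) - fderiv ℝ o.ξ z (o'.ξ z),
    fun z => fderiv ℝ o'.a z (o.ξ z) - fderiv ℝ o.a z (o'.ξ z),
    fun z => mD o'.e z (o.ξ z) - mD o.e z (o'.ξ z) + o'.e z * o.e z - o.e z * o'.e z,
    (sm_fderiv_app o'.sξ o.sξ).sub (sm_fderiv_app o.sξ o'.sξ),
    (sm_fderiv_app o'.sa o.sξ).sub (sm_fderiv_app o.sa o'.sξ),
    (((o'.se.mD o.sξ).sub (o.se.mD o'.sξ)).add (o'.se.mul o.se)).sub (o.se.mul o'.se)⟩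

/-- product with a function -/
def OD.smul (c : Z n → ℝ) (hc : Sm c) (o : OD n) : OD n :=
  ⟨fun z => c z • o.ξ z, fun z => c z * o.a z, fun z => c z • o.e z, hc.smul o.sξ, hc.mul o.sa,
    o.se.smul hc⟩

/-- sum -/
def OD.add (o o' : OD n) : OD n :=
  ⟨fun z => o.ξ z + o'.ξ z, fun z => o.a z + o'.a z, fun z => o.e z + o'.e z, o.sξ.add o'.sξ,
    o.sa.add o'.sa, o.se.add o'.se⟩

/-- the multiplication operator -/
noncomputable def Ctx.mul (C : Ctx n) (a : Z n → ℝ) (ha : Sm a) : Module.End ℝ C.M :=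
  C.op (OD.mul a ha)

end Pool.Agent.Lib.MP_45f3cb_gt.Fa
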