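import Pool.Agent.Lib.MP_45f3cb_gt.Fa.PtB

/-!
Polynomial functions through their jets; Taylor polynomials.
-/

open Set MeasureTheory Filter Topology

namespace Pool.Agent.Lib.MP_45f3cb_gt.Fa

variable {n : ℕ} {F : Type} [NormedAddCommGroup F] [InnerProductSpace ℝ F]

theorem PtC_pdF_const (c : F) (a : Fin n) : pdF a (fun _ : V n => c) = fun _ => 0 := by
  funext y
  simp [pdF]

theorem PtC_nn_succ (k : ℕ) (P : V n → F) (v : V n) :
    nn (k + 1) P v = (1 / ((k : ℝ) + 1)) * ∑ a, nn k (pdF a P) v := rfl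

theorem PtC_sm_sum {ι : Type} (s : Finset ι) {P : ι → V n → F} (h : ∀ i ∈ s, Sm (P i)) :
    Sm fun y => ∑ i ∈ s, P i y := ContDiff.sum h

theorem PtC_pdF_sum {ι : Type} (s : Finset ι) {P : ι → V n → F} (h : ∀ i ∈ s, Sm (P i))
    (a : Fin n) : pdF a (fun y => ∑ i ∈ s, P i y) = fun y => ∑ i ∈ s, pdF a (P i) y := by
  funext y
  simp only [pdF]
  rw [fderiv_fun_sum fun i hi => (h i hi).dAt y]
  simp

theorem PtC_pdF_sub {P Q : V n → F} (h : Sm P) (h' : Sm Q) (a : Fin n) :
    pdF a (fun y => P y - Q y) = fun y => pdF a P y - pdF a Q y := by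
  funext y
  simp only [pdF]
  rw [fderiv_fun_sub (h.dAt y) (h'.dAt y)]
  rfl

theorem PtC_pdF_cmul {P : V n → ℂ} (h : Sm P) (c : ℂ) (a : Fin n) :
    pdF a (fun y => c * P y) = fun y => c * pdF a P y := by
  funext y
  simp only [pdF]
  rw [fderiv_const_mul (h.dAt y)]
  rfl

theorem PtC_const_of_one {P : V n → F} (h : PL 1 P) (v v' : V n) : P v = P v' := by
  refine is_const_of_fderiv_eq_zero (𝕜 := ℝ) (fun y => h.1.dAt y) (fun y => ?_) v v'
  have h1 : ∀ a, fderiv ℝ P y (Pi.single a 1) = 0 := fun a => h.2 a y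
  ext x
  rw [pi_eq_sum_univ' x, map_sum]
  simp [h1]

theorem PL.sm {k : ℕ} {P : V n → F} (h : PL k P) : Sm P := by
  cases k with
  | zero =>
    rw [show P = fun _ => 0 from funext h]
    exact contDiff_const
  | succ k => exact h.1

theorem PL.zero (k : ℕ) : PL k fun _ : V n => (0 : F) := by
  induction k with
  | zero => exact fun _ => rfl
  | succ k ih => exact ⟨contDiff_const, fun a => by rw [PtC_pdF_const]; exact ih⟩

theorem PL.succ {k : ℕ} {P : V n → F} (h : PL k P) : PL (k + 1) P := by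
  induction k generalizing P with
  | zero =>
    rw [show P = fun _ => 0 from funext h]
    exact PL.zero _
  | succ k ih => exact ⟨h.1, fun a => ih (h.2 a)⟩

theorem PL.mono {k l : ℕ} {P : V n → F} (h : PL k P) (hl : k ≤ l) : PL l P := by
  induction hl with
  | refl => exact h
  | step _ ih => exact ih.succ

theorem PL.const (c : F) : PL 1 fun _ : V n => c := by
  exact ⟨contDiff_const, fun a => by rw [PtC_pdF_const]; exact PL.zero 0⟩

theorem PL.add {k : ℕ} {P Q : V n → F} (h : PL k P) (h' : PL k Q) : PL k fun y => P y + Q y := by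
  induction k generalizing P Q with
  | zero => exact fun y => by simp only [h y, h' y, add_zero]
  | succ k ih =>
    exact ⟨h.1.add h'.1, fun a => by rw [pdF_add h.1 h'.1]; exact ih (h.2 a) (h'.2 a)⟩

theorem PL.smul {k : ℕ} {P : V n → F} (h : PL k P) (c : ℝ) : PL k fun y => c • P y := by
  induction k generalizing P with
  | zero => exact fun y => by simp only [h y, smul_zero]
  | succ k ih =>
    exact ⟨ContDiff.const_smul c h.1, fun a => by rw [pdF_smul h.1]; exact ih (h.2 a)⟩

theorem PL.cmul {k : ℕ} {P : V n → ℂ} (h : PL k P) (c : ℂ) : PL k fun y => c * P y := by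
  induction k generalizing P with
  | zero => exact fun y => by simp only [h y, mul_zero]
  | succ k ih =>
    exact ⟨contDiff_const.mul h.1, fun a => by rw [PtC_pdF_cmul h.1]; exact ih (h.2 a)⟩

theorem PL.sub {k : ℕ} {P Q : V n → F} (h : PL k P) (h' : PL k Q) : PL k fun y => P y - Q y := by
  induction k generalizing P Q with
  | zero => exact fun y => by simp only [h y, h' y, sub_zero]
  | succ k ih =>
    exact ⟨h.1.sub h'.1, fun a => by rw [PtC_pdF_sub h.1 h'.1]; exact ih (h.2 a) (h'.2 a)⟩

theorem PL.sum {ι : Type} (s : Finset ι) {k : ℕ} {P : ι → V n → F} (h : ∀ i ∈ s, PL k (P i)) :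
    PL k fun y => ∑ i ∈ s, P i y := by
  classical
  induction s using Finset.induction_on with
  | empty => simpa using PL.zero k
  | insert i s hi ih =>
    simp only [Finset.sum_insert hi]
    exact (h i (Finset.mem_insert_self i s)).add
      (ih fun j hj => h j (Finset.mem_insert_of_mem hj))

theorem PL.coord {k : ℕ} {P : V n → F} (h : PL k P) (a : Fin n) (c : ℝ) :
    PL (k + 1) fun y => (y a - c) • P y := by
  induction k generalizing P with
  | zero =>
    rw [show (fun y : V n => (y a - c) • P y) = fun _ => 0 from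
      funext fun y => by rw [h y, smul_zero]]
    exact PL.zero _
  | succ k ih =>
    refine ⟨sm_coord h.1 a c, fun b => ?_⟩
    rw [show pdF b (fun y : V n => (y a - c) • P y) =
      fun y => (y a - c) • pdF b P y + if b = a then P y else 0 from
      funext fun y => pdF_coord h.1 b a c y]
    refine (ih (h.2 b)).add ?_
    split_ifs
    · exact h
    · exact PL.zero _

theorem PL.aff {k : ℕ} {P : V n → F} (h : PL k P) (E : Mat n) (v : V n) :
    PL k fun y => P (v + E.mulVec y) := by
  induction k generalizing P with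
  | zero => exact fun y => h _
  | succ k ih =>
    refine ⟨sm_aff h.1 E v, fun a => ?_⟩
    rw [show pdF a (fun y => P (v + E.mulVec y)) =
      fun y => ∑ c, E c a • pdF c P (v + E.mulVec y) from funext fun y => pdF_aff h.1 E v a y]
    exact PL.sum _ fun c _ => (ih (h.2 c)).smul _

theorem PL.of_HP {d : ℕ} {q : V n → ℝ} (h : q ∈ HP n d) : PL (d + 1) q := by
  induction d generalizing q with
  | zero => exact ⟨HP_sm h, fun a y => HP_pd_zero h a y⟩
  | succ d ih => exact ⟨HP_sm h, fun a => ih (HP_pd h a)⟩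

theorem PL.nn_zero {k l : ℕ} {P : V n → F} (h : PL k P) (hl : k ≤ l) (v : V n) : nn l P v = 0 := by
  have h' := h.mono hl
  clear h hl
  induction l generalizing P with
  | zero => rw [Fa.nn_zero, h' v, norm_zero, zero_pow two_ne_zero]
  | succ l ih =>
    rw [PtC_nn_succ, Finset.sum_eq_zero fun a _ => ih (h'.2 a), mul_zero]

theorem nn_eq_of_null {k : ℕ} {P Q : V n → F} (h : Sm P) (h' : Sm Q) {v : V n}
    (h0 : nn k (fun y => P y - Q y) v = 0) : nn k P v = nn k Q v := by
  induction k generalizing P Q with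
  | zero =>
    rw [nn_zero, pow_eq_zero_iff two_ne_zero, norm_eq_zero, sub_eq_zero] at h0
    rw [nn_zero, nn_zero, h0]
  | succ k ih =>
    rw [PtC_nn_succ, PtC_nn_succ]
    refine congrArg _ (Finset.sum_congr rfl fun a _ => ih (sm_pdF h a) (sm_pdF h' a) ?_)
    have h1 := nn_pdF_le k a (fun y => P y - Q y) v
    rw [h0, mul_zero, PtC_pdF_sub h h'] at h1
    exact le_antisymm h1 (nn_nonneg _ _ _)

theorem nn_add_pl {k l : ℕ} {P Q : V n → F} (h : Sm P) (h' : PL k Q) (hl : k ≤ l) (v : V n) :
    nn l (fun y => P y + Q y) v = nn l P v := by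
  refine nn_eq_of_null (h.add h'.sm) h ?_
  simpa only [add_sub_cancel_left] using h'.nn_zero hl v

theorem nn_sub_pl {k l : ℕ} {P Q : V n → F} (h : Sm P) (h' : PL k Q) (hl : k ≤ l) (v : V n) :
    nn l (fun y => P y - Q y) v = nn l P v := by
  refine (nn_eq_of_null h (h.sub h'.sm) ?_).symm
  simpa only [sub_sub_cancel] using h'.nn_zero hl v

theorem Gz.mul {ψ : V n → ℝ} {k : ℕ} {A : V n → ℝ} (h : Gz ψ k A) (hA : Sm A) (c : ℝ) :
    Gz ψ k fun y => c * A y := by
  induction k generalizing A with
  | zero =>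
    have h1 : ∫ y, ψ y • A y = 0 := h
    change ∫ y, ψ y • (c * A y) = 0
    simp only [smul_eq_mul, mul_left_comm _ c] at h1 ⊢
    rw [integral_const_mul, h1, mul_zero]
  | succ k ih =>
    intro a
    rw [show pdF a (fun y => c * A y) = fun y => c * pdF a A y from pdF_smul hA c a]
    exact ih (h a) (sm_pdF hA a)

/-- Sketch: induction; for `k = 0` the derivative vanishes (`is_const_of_fderiv_eq_zero`). -/
theorem PL.nn_top {k : ℕ} {P : V n → F} (h : PL (k + 1) P) (v v' : V n) : nn k P v = nn k P v' := by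
  induction k generalizing P with
  | zero => rw [Fa.nn_zero, Fa.nn_zero, PtC_const_of_one h v v']
  | succ k ih =>
    rw [PtC_nn_succ, PtC_nn_succ]
    exact congrArg _ (Finset.sum_congr rfl fun a _ => ih (h.2 a))

theorem HP_low {d k : ℕ} {q : V n → ℝ} (h : q ∈ HP n d) (hk : k < d) : nn k q 0 = 0 := by
  induction k generalizing d q with
  | zero =>
    obtain ⟨d, rfl⟩ := Nat.exists_eq_succ_of_ne_zero hk.ne'
    obtain ⟨r, -, h2⟩ := HP_succ h
    rw [nn_zero, h2]
    simp
  | succ k ih =>
    obtain ⟨d, rfl⟩ := Nat.exists_eq_succ_of_ne_zero (Nat.zero_lt_of_lt hk).ne'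
    rw [PtC_nn_succ, Finset.sum_eq_zero fun a _ =>
      ih (q := pdF a q) (HP_pd h a) (Nat.lt_of_succ_lt_succ hk), mul_zero]

theorem sm_hom (v : V n) (k : ℕ) (P : V n → F) : Sm (hom v k P) := by
  induction k generalizing P with
  | zero => exact contDiff_const (c := P v)
  | succ k ih =>
    exact ContDiff.const_smul (1 / ((k : ℝ) + 1))
      (PtC_sm_sum Finset.univ fun a _ => sm_coord (ih (pdF a P)) a (v a))

theorem pl_hom (v : V n) (k : ℕ) (P : V n → F) : PL (k + 1) (hom v k P) := by
  induction k generalizing P with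
  | zero => exact PL.const (P v)
  | succ k ih =>
    exact (PL.sum Finset.univ fun a _ => (ih (pdF a P)).coord a (v a)).smul (1 / ((k : ℝ) + 1))

/-- Sketch: induction on `k` (for all `P`), `pdF_coord`, `pdF_comm`. -/
theorem pdF_hom {P : V n → F} (h : Sm P) (v : V n) (k : ℕ) (a : Fin n) :
    pdF a (hom v (k + 1) P) = hom v k (pdF a P) := by
  have key : ∀ (k : ℕ) (P : V n → F) (y : V n), pdF a (hom v (k + 1) P) y =
      (1 / ((k : ℝ) + 1)) • (∑ b, (y b - v b) • pdF a (hom v k (pdF b P)) y +
        hom v k (pdF a P) y) := fun k P y => by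
    have h1 : ∀ b ∈ (Finset.univ : Finset (Fin n)),
        Sm fun y : V n => (y b - v b) • hom v k (pdF b P) y :=
      fun b _ => sm_coord (sm_hom v k _) b (v b)
    change pdF a (fun y => (1 / ((k : ℝ) + 1)) • ∑ b, (y b - v b) • hom v k (pdF b P) y) y = _
    rw [pdF_smul (PtC_sm_sum _ h1), PtC_pdF_sum _ h1]
    simp only [pdF_coord (sm_hom v k _), Finset.sum_add_distrib, Finset.sum_ite_eq,
      Finset.mem_univ, if_true]
  induction k generalizing P with
  | zero =>
    funext y
    rw [key]
    have h2 : ∀ b, pdF a (hom v 0 (pdF b P)) y = 0 := fun b =>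
      congrFun (PtC_pdF_const (pdF b P v) a) y
    simp [h2]
  | succ k ih =>
    funext y
    rw [key]
    have h2 : ∀ b, pdF a (hom v (k + 1) (pdF b P)) y = hom v k (pdF b (pdF a P)) y := fun b => by
      rw [ih (sm_pdF h b), pdF_comm h]
    have h3 : ∑ b, (y b - v b) • hom v k (pdF b (pdF a P)) y =
        ((k : ℝ) + 1) • hom v (k + 1) (pdF a P) y := by
      rw [hom, smul_smul, mul_one_div_cancel (by positivity), one_smul]
    simp only [h2, h3]
    rw [show ((k : ℝ) + 1) • hom v (k + 1) (pdF a P) y + hom v (k + 1) (pdF a P) y =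
      (((k + 1 : ℕ) : ℝ) + 1) • hom v (k + 1) (pdF a P) y by
        rw [Nat.cast_succ, add_smul ((k : ℝ) + 1), one_smul],
      smul_smul, one_div_mul_cancel (by positivity), one_smul]

theorem hom_HP (k : ℕ) (P : V n → ℝ) : hom 0 k P ∈ HP n k := by
  induction k generalizing P with
  | zero => exact HP_const (P 0)
  | succ k ih =>
    have h1 := polyA_smul (polyA_sum fun a => HP_coord_mul (ih (pdF a P)) a) (1 / ((k : ℝ) + 1))
    rw [show hom 0 (k + 1) P = fun p => 1 / ((k : ℝ) + 1) * ∑ a, p a * hom 0 k (pdF a P) p from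
      funext fun p => by simp [hom]]
    exact h1

theorem pl_tay (v : V n) (d : ℕ) (P : V n → F) : PL (d + 1) (tay v d P) := by
  exact PL.sum (Finset.range (d + 1)) fun k hk =>
    (pl_hom v k P).mono (Finset.mem_range.1 hk)

/-- Sketch: `tay v d P v = P v`, `pdF a (tay v (d + 1) P) = tay v d (pdF a P)`; induction on `k`. -/
theorem nn_sub_tay {P : V n → F} (h : Sm P) (v : V n) {k d : ℕ} (hk : k ≤ d) :
    nn k (fun y => P y - tay v d P y) v = 0 := by
  induction k generalizing P d with
  | zero =>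
    have h1 : tay v d P v = P v := by
      rw [tay, Finset.sum_range_succ', Finset.sum_eq_zero fun k _ => by simp [hom], zero_add, hom]
    rw [nn_zero, h1, sub_self, norm_zero, zero_pow two_ne_zero]
  | succ k ih =>
    obtain ⟨d, rfl⟩ := Nat.exists_eq_succ_of_ne_zero (Nat.zero_lt_of_lt hk).ne'
    rw [PtC_nn_succ, Finset.sum_eq_zero fun a _ => ?_, mul_zero]
    have h1 : pdF a (tay v (d + 1) P) = tay v d (pdF a P) := by
      funext y
      change pdF a (fun y => ∑ k ∈ Finset.range (d + 1 + 1), hom v k P y) y = _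
      rw [PtC_pdF_sum _ fun k _ => sm_hom v k P]
      have h2 : pdF a (hom v 0 P) y = 0 := congrFun (PtC_pdF_const (P v) a) y
      simp only [Finset.sum_range_succ' _ (d + 1), pdF_hom h, h2, add_zero, tay]
    rw [PtC_pdF_sub h (pl_tay v _ P).sm, h1]
    exact ih (sm_pdF h a) (Nat.le_of_succ_le_succ hk)

theorem nn_tay {P : V n → F} (h : Sm P) (v : V n) {k d : ℕ} (hk : k ≤ d) :
    nn k (tay v d P) v = nn k P v := by
  exact (nn_eq_of_null h (pl_tay v d P).sm (nn_sub_tay h v hk)).symm

end Pool.Agent.Lib.MP_45f3cb_gt.Fa
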