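import Pool.Agent.Lib.MP_45f3cb_gt.Fa.Op0
import Pool.Agent.Lib.MP_45f3cb_gt.Fa.PtC

/-!
Level inner products as integrals.
-/

open Set MeasureTheory Filter Topology

namespace Pool.Agent.Lib.MP_45f3cb_gt.Fa

variable {n : ℕ}

namespace Ctx

variable (C : Ctx n)

theorem OpA_succ (k : ℕ) (P Q : C.M) (z : Z n) :
    C.ρ z * pip (k + 1) (fun y => P.1 (z, y)) (fun y => Q.1 (z, y)) 0 =
      (1 / ((k : ℝ) + 1)) * ∑ a, C.ρ z * pip k (fun y => (C.jet.D a P).1 (z, y))
        (fun y => (C.jet.D a Q).1 (z, y)) 0 := by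
  rw [pip, ← Finset.mul_sum, mul_left_comm]
  simp only [dy_slice (Ctx.sm P), dy_slice (Ctx.sm Q)]
  rfl

theorem OpA_zero (P Q : C.M) (z : Z n) :
    C.ρ z * pip 0 (fun y => P.1 (z, y)) (fun y => Q.1 (z, y)) 0 =
      C.ρ z * (P.1 (z, 0) * Q.1 (z, 0)) := by
  rw [pip, RCLike.inner_apply, conj_trivial, mul_comm (Q.1 _)]

theorem OpA_off (k : ℕ) (P : C.M) {z : Z n} (hz : z ∉ C.K) :
    C.ρ z * nn k (fun y => P.1 (z, y)) 0 = 0 := by
  simp only [Ctx.off P hz, nn_fun_zero, mul_zero]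

theorem intg_pip (k : ℕ) (P Q : C.M) :
    Integrable fun z => C.ρ z * pip k (fun y => P.1 (z, y)) (fun y => Q.1 (z, y)) 0 := by
  induction k generalizing P Q with
  | zero =>
    simp only [C.OpA_zero]
    exact C.intg P Q
  | succ k ih =>
    simp only [C.OpA_succ]
    exact (integrable_finsetSum _ fun a _ => ih _ _).const_mul _

/-- Sketch: induction on `k`, `dy_slice`, `integral_finset_sum`. -/
theorem ip_eq (k : ℕ) (P Q : C.M) : C.jet.ip k P Q =
    ∫ z, C.ρ z * pip k (fun y => P.1 (z, y)) (fun y => Q.1 (z, y)) 0 := by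
  induction k generalizing P Q with
  | zero =>
    simp only [C.OpA_zero]
    rfl
  | succ k ih =>
    simp only [C.OpA_succ]
    rw [Jet.ip_succ, integral_const_mul, integral_finsetSum _ fun a _ => C.intg_pip k _ _]
    simp only [ih]

theorem ip_eq_set (k : ℕ) (P : C.M) :
    C.jet.ip k P P = ∫ z in C.K, C.ρ z * nn k (fun y => P.1 (z, y)) 0 := by
  rw [C.ip_eq, setIntegral_eq_integral_of_forall_compl_eq_zero fun z hz => C.OpA_off k P hz]
  rfl

/-- upper bound by a continuous function on a compact set containing `K` -/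
theorem ip_le_int (k : ℕ) (P : C.M) {O : Set (Z n)} (hO : IsCompact O) (hK : C.K ⊆ O)
    {h : Z n → ℝ} (hh : Continuous h) (h0 : ∀ z ∈ O, 0 ≤ h z)
    (hle : ∀ z ∈ C.K, C.ρ z * nn k (fun y => P.1 (z, y)) 0 ≤ h z) :
    C.jet.ip k P P ≤ ∫ z in O, h z := by
  have hi : IntegrableOn h O := hh.continuousOn.integrableOn_compact hO
  rw [C.ip_eq_set]
  refine (setIntegral_mono_on (C.intg_pip k P P).integrableOn (hi.mono_set hK)
    C.cpt.isClosed.measurableSet hle).trans ?_
  exact setIntegral_mono_set hi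
    ((ae_restrict_iff' hO.isClosed.measurableSet).2 (Eventually.of_forall h0)) hK.eventuallyLE

/-- lower bound by a continuous function on a compact set -/
theorem int_le_ip (k : ℕ) (P : C.M) {O : Set (Z n)} (hO : IsCompact O) {h : Z n → ℝ}
    (hh : Continuous h) (hle : ∀ z ∈ O, h z ≤ C.ρ z * nn k (fun y => P.1 (z, y)) 0) :
    ∫ z in O, h z ≤ C.jet.ip k P P := by
  rw [C.ip_eq]
  refine (setIntegral_mono_on (hh.continuousOn.integrableOn_compact hO)
    (C.intg_pip k P P).integrableOn hO.isClosed.measurableSet hle).trans ?_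
  exact setIntegral_le_integral (C.intg_pip k P P)
    (Eventually.of_forall fun z => mul_nonneg (C.pos z).le (nn_nonneg k _ _))

theorem null {m k : ℕ} (hk : m ≤ k) (P : C.M)
    (h : ∀ z ∈ C.K, ∃ q : V n → ℝ, PL m q ∧ ∀ᶠ y in 𝓝 (0 : V n), P.1 (z, y) = q y) :
    C.jet.nm k P = 0 := by
  rw [Jet.nm, C.ip_eq_set, setIntegral_eq_zero_of_forall_eq_zero, Real.sqrt_zero]
  intro z hz
  obtain ⟨q, hq, he⟩ := h z hz
  rw [nn_congr he, hq.nn_zero hk, mul_zero]

end Ctx

end Pool.Agent.Lib.MP_45f3cb_gt.Fa
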