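import Pool.Agent.Lib.MP_45f3cb_gt.Fa.Op0

/-!
The algebra of first order operators.
-/

open Set MeasureTheory Filter Topology

namespace Pool.Agent.Lib.MP_45f3cb_gt.Fa

variable {n : ℕ}

theorem OpB_fst {F : Type} [NormedAddCommGroup F] [NormedSpace ℝ F] {h : Z n → F} (hh : Sm h)
    (w : W n) : HasFDerivAt (fun q : W n => h q.1)
      ((fderiv ℝ h w.1).comp (ContinuousLinearMap.fst ℝ (Z n) (V n))) w :=
  (hh.dAt w.1).hasFDerivAt.comp w hasFDerivAt_fst

theorem OpB_snd (i : Fin n) (w : W n) : HasFDerivAt (fun q : W n => q.2 i)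
    ((ContinuousLinearMap.proj i : V n →L[ℝ] ℝ).comp (ContinuousLinearMap.snd ℝ (Z n) (V n))) w :=
  ((ContinuousLinearMap.proj i : V n →L[ℝ] ℝ).comp
    (ContinuousLinearMap.snd ℝ (Z n) (V n))).hasFDerivAt

theorem OpB_mul {h : Z n → ℝ} (hh : Sm h) {P : W n → ℝ} (hP : Sm P) (w v : W n) :
    fderiv ℝ (fun q => h q.1 * P q) w v = fderiv ℝ h w.1 v.1 * P w + h w.1 * fderiv ℝ P w v := by
  have h2 := ((OpB_fst hh w).mul (hP.dAt w).hasFDerivAt).fderiv
  rw [show (fun q : W n => h q.1 * P q) = (fun q : W n => h q.1) * P from rfl, h2]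
  simp
  ring

theorem OpB_coord (i : Fin n) {P : W n → ℝ} (hP : Sm P) (w v : W n) :
    fderiv ℝ (fun q => q.2 i * P q) w v = v.2 i * P w + w.2 i * fderiv ℝ P w v := by
  have h2 := ((OpB_snd i w).mul (hP.dAt w).hasFDerivAt).fderiv
  rw [show (fun q : W n => q.2 i * P q) = (fun q : W n => q.2 i) * P from rfl, h2]
  simp
  ring

theorem OpB_vert (P : W n → ℝ) (w : W n) (v : V n) :
    fderiv ℝ P w (0, v) = ∑ i, v i * dy i P w := by
  have e : ((0, v) : W n) = ∑ i, v i • ((0, Pi.single i 1) : W n) := by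
    refine Prod.ext ?_ ?_
    · simp [Prod.fst_sum]
    · ext j
      simp [Prod.snd_sum, Finset.sum_apply, Pi.single_apply]
  rw [e, map_sum]
  simp only [map_smul, smul_eq_mul, dy]

theorem OpB_mulVec {e : Z n → Mat n} (he : MSm e) (w v : W n) :
    fderiv ℝ (fun q : W n => (e q.1).mulVec q.2) w v =
      (mD e w.1 v.1).mulVec w.2 + (e w.1).mulVec v.2 := by
  have hs : Sm fun q : W n => (e q.1).mulVec q.2 := (he.comp contDiff_fst).mulVec contDiff_snd
  funext i
  have h1 := (hasFDerivAt_pi'.1 (hs.dAt w).hasFDerivAt i).fderiv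
  have h2 : HasFDerivAt (fun q : W n => ∑ j, e q.1 i j * q.2 j) _ w :=
    HasFDerivAt.fun_sum fun j _ => (OpB_fst (he i j) w).mul (OpB_snd j w)
  have h3 := congrArg (fun L : W n →L[ℝ] ℝ => L v) (h1.symm.trans h2.fderiv)
  simp only [ContinuousLinearMap.comp_apply, ContinuousLinearMap.proj_apply] at h3
  rw [h3]
  simp [Matrix.mulVec, dotProduct, mD, ← Finset.sum_add_distrib, mul_comm, add_comm]

theorem OpB_symm {P : W n → ℝ} (hP : Sm P) (w u v : W n) :
    fderiv ℝ (fderiv ℝ P) w u v = fderiv ℝ (fderiv ℝ P) w v u :=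
  ((hP.contDiffAt (x := w)).isSymmSndFDerivAt
    (by rw [minSmoothness_of_isRCLikeNormedField]; exact WithTop.coe_le_coe.2 le_top)).eq u v

theorem OpB_dy {P : W n → ℝ} (hP : Sm P) (c : Fin n) (w v : W n) :
    fderiv ℝ (dy c P) w v = fderiv ℝ (fderiv ℝ P) w v (0, Pi.single c 1) := by
  have h := fderiv_clm_apply ((FlowD_smd hP).dAt w)
    (differentiableAt_const ((0, Pi.single c 1) : W n))
  rw [show dy c P = fun q => fderiv ℝ P q (0, Pi.single c 1) from rfl, h]
  simp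

theorem OpB_app (o : OD n) {P : W n → ℝ} (hP : Sm P) (w v : W n) :
    fderiv ℝ (o.app P) w v = fderiv ℝ (fderiv ℝ P) w v (o.ξ w.1, (o.e w.1).mulVec w.2) +
      fderiv ℝ P w (fderiv ℝ o.ξ w.1 v.1, (mD o.e w.1 v.1).mulVec w.2 + (o.e w.1).mulVec v.2) +
      (fderiv ℝ o.a w.1 v.1 * P w + o.a w.1 * fderiv ℝ P w v) := by
  have hs : Sm fun q : W n => (o.e q.1).mulVec q.2 :=
    (o.se.comp contDiff_fst).mulVec contDiff_snd
  have h1 := (OpB_fst o.sξ w).prodMk (hs.dAt w).hasFDerivAt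
  have h2 := ((FlowD_smd hP).dAt w).hasFDerivAt.clm_apply h1
  have h3 : DifferentiableAt ℝ (fun q : W n => o.a q.1 * P q) w :=
    (OpB_fst o.sa w).differentiableAt.mul (hP.dAt w)
  have h4 := (h2.add h3.hasFDerivAt).fderiv
  have e : o.app P = (fun q : W n => fderiv ℝ P q (o.ξ q.1, (o.e q.1).mulVec q.2)) +
      fun q : W n => o.a q.1 * P q := rfl
  rw [e, h4, ← OpB_mul o.sa hP, ← OpB_mulVec o.se]
  simp
  ring

theorem OpB_def (o : OD n) (P : W n → ℝ) (w : W n) : o.app P w =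
    fderiv ℝ P w (o.ξ w.1, (o.e w.1).mulVec w.2) + o.a w.1 * P w := rfl

theorem OpB_app_mul (o : OD n) {h : Z n → ℝ} (hh : Sm h) {P : W n → ℝ} (hP : Sm P) (w : W n) :
    o.app (fun q => h q.1 * P q) w = fderiv ℝ h w.1 (o.ξ w.1) * P w + h w.1 * o.app P w := by
  simp only [OD.app, OpB_mul hh hP]
  ring

theorem OpB_sum {ι : Type} [Fintype ι] {C : Ctx n} (P : ι → C.M) (w : W n) :
    (∑ i, P i).1 w = ∑ i, (P i).1 w := by
  rw [Submodule.coe_sum, Finset.sum_apply]

namespace Ctx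

variable (C : Ctx n)

theorem mul_apply (a : Z n → ℝ) (ha : Sm a) (P : C.M) (w : W n) :
    (C.mul a ha P).1 w = a w.1 * P.1 w := by
  have e : ((0, 0) : W n) = 0 := rfl
  simp [Ctx.mul, op_apply, OD.app, OD.mul, e]

theorem OpB_mul_coe (a : Z n → ℝ) (ha : Sm a) (P : C.M) :
    (C.mul a ha P).1 = fun w => a w.1 * P.1 w := funext (C.mul_apply a ha P)

theorem op_congr {o o' : OD n} (h : ∀ z ∈ C.K, o.ξ z = o'.ξ z ∧ o.a z = o'.a z ∧ o.e z = o'.e z) :
    C.op o = C.op o' := by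
  refine LinearMap.ext fun P => Ctx.ext fun z hz y => ?_
  obtain ⟨h1, h2, h3⟩ := h z hz
  simp only [op_apply, OD.app, h1, h2, h3]

theorem op_add (o o' : OD n) : C.op (o.add o') = C.op o + C.op o' := by
  refine LinearMap.ext fun P => Subtype.ext (funext fun w => ?_)
  have e : ((o.ξ w.1 + o'.ξ w.1, (o.e w.1 + o'.e w.1).mulVec w.2) : W n) =
      (o.ξ w.1, (o.e w.1).mulVec w.2) + (o'.ξ w.1, (o'.e w.1).mulVec w.2) := by
    rw [Matrix.add_mulVec]
    rfl
  change (o.add o').app P.1 w = o.app P.1 w + o'.app P.1 w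
  simp only [OD.app, OD.add, e, map_add]
  ring

theorem op_smul (c : Z n → ℝ) (hc : Sm c) (o : OD n) : C.op (o.smul c hc) = C.mul c hc * C.op o := by
  refine LinearMap.ext fun P => Subtype.ext (funext fun w => ?_)
  have e : ((c w.1 • o.ξ w.1, (c w.1 • o.e w.1).mulVec w.2) : W n) =
      c w.1 • (o.ξ w.1, (o.e w.1).mulVec w.2) := by
    rw [Matrix.smul_mulVec]
    rfl
  rw [Module.End.mul_apply, mul_apply]
  simp only [op_apply, OD.app, OD.smul, e, map_smul, smul_eq_mul]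
  ring

theorem op_eul (e : Z n → Mat n) (he : MSm e) : C.op (OD.eul e he) =
    ∑ i, ∑ j, C.mul (fun z => e z i j) (he i j) * (C.jet.Y j * C.jet.D i) := by
  refine LinearMap.ext fun P => Subtype.ext (funext fun w => ?_)
  simp only [LinearMap.sum_apply, OpB_sum, Module.End.mul_apply, mul_apply, Y_apply, D_apply,
    op_apply, OD.app, OD.eul, OpB_vert, zero_mul, add_zero, Matrix.mulVec, dotProduct,
    Finset.sum_mul, mul_assoc]

/-- Sketch: pointwise; for `Ξ w = (ξ w.1, e w.1 *ᵥ w.2)` use the symmetry of the second derivative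
(`VectorField.fderiv_apply_lieBracket` or `fderiv_clm_apply` with `fderiv_symm`) and
`fderiv Ξ w (ζ, η) = (fderiv ξ w.1 ζ, mD e w.1 ζ *ᵥ w.2 + e w.1 *ᵥ η)`. -/
theorem op_br (o o' : OD n) : C.op o * C.op o' - C.op o' * C.op o = C.op (o.br o') := by
  refine LinearMap.ext fun P => Subtype.ext (funext fun w => ?_)
  have hP := Ctx.sm P
  change o.app (o'.app P.1) w - o'.app (o.app P.1) w = (o.br o').app P.1 w
  have e : (((o.br o').ξ w.1, ((o.br o').e w.1).mulVec w.2) : W n) =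
      (fderiv ℝ o'.ξ w.1 (o.ξ w.1), (mD o'.e w.1 (o.ξ w.1)).mulVec w.2 +
        (o'.e w.1).mulVec ((o.e w.1).mulVec w.2)) -
      (fderiv ℝ o.ξ w.1 (o'.ξ w.1), (mD o.e w.1 (o'.ξ w.1)).mulVec w.2 +
        (o.e w.1).mulVec ((o'.e w.1).mulVec w.2)) := by
    refine Prod.ext rfl ?_
    simp only [OD.br, Matrix.sub_mulVec, Matrix.add_mulVec, Matrix.mulVec_mulVec, Prod.snd_sub]
    abel
  rw [OpB_def o, OpB_def o' (o.app P.1), OpB_def (o.br o'), e, map_sub, OpB_app o' hP,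
    OpB_app o hP, OpB_symm hP w (o.ξ w.1, (o.e w.1).mulVec w.2)]
  simp only [OD.app, OD.br]
  ring

theorem D_op (o : OD n) (c : Fin n) (P : C.M) : C.jet.D c (C.op o P) - C.op o (C.jet.D c P) =
    ∑ i, C.mul (fun z => o.e z i c) (o.se i c) (C.jet.D i P) := by
  refine Subtype.ext (funext fun w => ?_)
  have hP := Ctx.sm P
  rw [OpB_sum]
  simp only [mul_apply, D_apply]
  change fderiv ℝ (o.app P.1) w (0, Pi.single c 1) - o.app (dy c P.1) w = _
  have e : mD o.e w.1 0 = 0 := by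
    ext i j
    simp [mD]
  rw [OpB_app o hP, OD.app, OpB_dy hP, OpB_symm hP w (0, Pi.single c 1)]
  simp only [map_zero, e, Matrix.zero_mulVec, zero_add, OpB_vert, zero_mul]
  simp [dy, Pi.single_apply]

theorem op_Y (o : OD n) (c : Fin n) (P : C.M) : C.op o (C.jet.Y c P) - C.jet.Y c (C.op o P) =
    ∑ j, C.jet.Y j (C.mul (fun z => o.e z c j) (o.se c j) P) := by
  refine Subtype.ext (funext fun w => ?_)
  have hP := Ctx.sm P
  rw [OpB_sum]
  simp only [mul_apply, Y_apply]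
  change o.app (fun q => q.2 c * P.1 q) w - w.2 c * o.app P.1 w = _
  simp only [OD.app, OpB_coord c hP, Matrix.mulVec, dotProduct, Finset.sum_mul]
  rw [Finset.sum_congr rfl fun j _ => mul_left_comm (w.2 j) (o.e w.1 c j) (P.1 w)]
  simp only [mul_assoc]
  ring

theorem op_mul (o : OD n) (c : Z n → ℝ) (hc : Sm c) : C.op o * C.mul c hc =
    C.op ((o.smul c hc).add (OD.mul (fun z => fderiv ℝ c z (o.ξ z)) (sm_fderiv_app hc o.sξ))) := by
  rw [op_add, op_smul]
  refine LinearMap.ext fun P => Subtype.ext (funext fun w => ?_)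
  change o.app (C.mul c hc P).1 w = (C.mul c hc (C.op o P)).1 w +
    (C.mul _ (sm_fderiv_app hc o.sξ) P).1 w
  rw [OpB_mul_coe, OpB_app_mul o hc (Ctx.sm P), mul_apply, mul_apply, op_apply, add_comm]

theorem br_mul (o : OD n) (c : Z n → ℝ) (hc : Sm c) : C.op o * C.mul c hc - C.mul c hc * C.op o =
    C.mul (fun z => fderiv ℝ c z (o.ξ z)) (sm_fderiv_app hc o.sξ) := by
  rw [op_mul, op_add, op_smul]
  exact add_sub_cancel_left (C.mul c hc * C.op o) _

theorem mul_comm' (a c : Z n → ℝ) (ha : Sm a) (hc : Sm c) :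
    C.mul a ha * C.mul c hc = C.mul c hc * C.mul a ha := by
  refine LinearMap.ext fun P => Subtype.ext (funext fun w => ?_)
  simp only [Module.End.mul_apply, mul_apply]
  ring

theorem cd_op {o : OD n} (h : ∀ z ∈ C.K, o.e z = 0) : C.jet.CD (C.op o) := by
  intro c P
  rw [← sub_eq_zero, D_op]
  refine Ctx.ext fun z hz y => ?_
  rw [OpB_sum]
  simp [mul_apply, h z hz]

theorem op_Y_zero {o : OD n} (h : ∀ z ∈ C.K, o.e z = 0) (c : Fin n) (P : C.M) :
    C.op o (C.jet.Y c P) = C.jet.Y c (C.op o P) := by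
  rw [← sub_eq_zero, op_Y]
  refine Ctx.ext fun z hz y => ?_
  rw [OpB_sum]
  simp [mul_apply, Y_apply, h z hz]

end Ctx

/-- Leibniz rule -/
theorem OD.app_mul (o : OD n) {h : Z n → ℝ} (hh : Sm h) {P : W n → ℝ} (hP : Sm P) (w : W n) :
    o.app (fun q => h q.1 * P q) w = fderiv ℝ h w.1 (o.ξ w.1) * P w + h w.1 * o.app P w :=
  OpB_app_mul o hh hP w

theorem OD.app_sub_fst (o : OD n) {u : Z n → ℝ} (hu : Sm u) {P : W n → ℝ} (hP : Sm P) (w : W n) :
    o.app (fun q => P q - u q.1) w =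
      o.app P w - (fderiv ℝ u w.1 (o.ξ w.1) + o.a w.1 * u w.1) := by
  have h := ((hP.dAt w).hasFDerivAt.sub (OpB_fst hu w)).fderiv
  have e : (fun q : W n => P q - u q.1) = P - fun q : W n => u q.1 := rfl
  simp only [OD.app]
  rw [e, h]
  simp
  ring

end Pool.Agent.Lib.MP_45f3cb_gt.Fa
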