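import Pool.Agent.Lib.MP_45f3cb_gt.Fa.OpA
import Pool.Agent.Lib.MP_45f3cb_gt.Fa.OpB

/-!
Adjoints and bounds of first order operators.
-/

open Set MeasureTheory Filter Topology

namespace Pool.Agent.Lib.MP_45f3cb_gt.Fa

variable {n : ℕ}

theorem OpC_div {F : Z n → ℝ} {ξ : Z n → Z n} (hF : Sm F) (hc : HasCompactSupport F) (hξ : Sm ξ) :
    ∫ z, (fderiv ℝ F z (ξ z) + dvg ξ z * F z) = 0 := by
  have s1 : ∀ i, Sm fun w => (ξ w).1 i := fun i =>
    (contDiff_apply ℝ ℝ i).comp (contDiff_fst.comp hξ)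
  have s2 : ∀ i, Sm fun w => (ξ w).2 i := fun i =>
    (contDiff_apply ℝ ℝ i).comp (contDiff_snd.comp hξ)
  have d1 : ∀ i z u, fderiv ℝ (fun w => (ξ w).1 i) z u = (fderiv ℝ ξ z u).1 i := fun i z u => by
    have h : HasFDerivAt (fun w => (ξ w).1 i) _ z :=
      ((ContinuousLinearMap.proj i : V n →L[ℝ] ℝ).comp
        (ContinuousLinearMap.fst ℝ (V n) (V n))).hasFDerivAt.comp z (hξ.dAt z).hasFDerivAt
    rw [h.fderiv]
    rfl
  have d2 : ∀ i z u, fderiv ℝ (fun w => (ξ w).2 i) z u = (fderiv ℝ ξ z u).2 i := fun i z u => by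
    have h : HasFDerivAt (fun w => (ξ w).2 i) _ z :=
      ((ContinuousLinearMap.proj i : V n →L[ℝ] ℝ).comp
        (ContinuousLinearMap.snd ℝ (V n) (V n))).hasFDerivAt.comp z (hξ.dAt z).hasFDerivAt
    rw [h.fderiv]
    rfl
  have h1 : ∀ z, fderiv ℝ F z (ξ z) + dvg ξ z * F z =
      ∑ i, (dx i (fun w => (ξ w).1 i * F w) z + dp i (fun w => (ξ w).2 i * F w) z) := by
    intro z
    rw [fderiv_eq_sum, dvg, Finset.sum_mul, ← Finset.sum_add_distrib]
    refine Finset.sum_congr rfl fun i _ => ?_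
    rw [dx_mul ((s1 i).dAt z) (hF.dAt z), dp_mul ((s2 i).dAt z) (hF.dAt z)]
    have e1 : dx i (fun w => (ξ w).1 i) z = (fderiv ℝ ξ z (Pi.single i 1, 0)).1 i := d1 i z _
    have e2 : dp i (fun w => (ξ w).2 i) z = (fderiv ℝ ξ z (0, Pi.single i 1)).2 i := d2 i z _
    rw [e1, e2]
    ring
  have m1 : ∀ i, Sm fun w => (ξ w).1 i * F w := fun i => (s1 i).mul hF
  have m2 : ∀ i, Sm fun w => (ξ w).2 i * F w := fun i => (s2 i).mul hF
  have c1 : ∀ i, HasCompactSupport fun w => (ξ w).1 i * F w := fun i => hc.mul_left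
  have c2 : ∀ i, HasCompactSupport fun w => (ξ w).2 i * F w := fun i => hc.mul_left
  have i1 : ∀ i, Integrable (dx i fun w => (ξ w).1 i * F w) := fun i =>
    intg ((m1 i).dx i).continuous ((c1 i).fderiv_apply (𝕜 := ℝ) _)
  have i2 : ∀ i, Integrable (dp i fun w => (ξ w).2 i * F w) := fun i =>
    intg ((m2 i).dp i).continuous ((c2 i).fderiv_apply (𝕜 := ℝ) _)
  simp only [h1]
  rw [integral_finsetSum (f := fun i z => dx i (fun w => (ξ w).1 i * F w) z +
    dp i (fun w => (ξ w).2 i * F w) z) _ fun i _ => (i1 i).add (i2 i)]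
  refine Finset.sum_eq_zero fun i _ => ?_
  rw [integral_add (i1 i) (i2 i), int_dx (m1 i) (c1 i), int_dp (m2 i) (c2 i), add_zero]

/-- the part without Euler matrix -/
def OpC_zero (o : OD n) : OD n := ⟨o.ξ, o.a, fun _ => 0, o.sξ, o.sa, MSm.const 0⟩

namespace Ctx

variable (C : Ctx n)

theorem OpC_cd (a : Z n → ℝ) (ha : Sm a) : C.jet.CD (C.mul a ha) :=
  C.cd_op (o := OD.mul a ha) fun _ _ => rfl

theorem OpC_Mul (a : Z n → ℝ) (ha : Sm a) : ∃ c, 0 ≤ c ∧ C.jet.Mul c (C.mul a ha) := by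
  obtain ⟨c, hc⟩ := C.cpt.exists_bound_of_continuousOn ha.continuous.continuousOn
  refine ⟨|c|, abs_nonneg c, Jet.adj_lift (C.OpC_cd a ha) (C.OpC_cd a ha) fun P Q => ?_,
    C.OpC_cd a ha, Jet.bd_lift (abs_nonneg c) (C.OpC_cd a ha) fun P => ?_⟩
  · rw [B_apply, B_apply]
    refine integral_congr_ae (Eventually.of_forall fun z => ?_)
    simp only [mul_apply]
    ring
  · rw [B_apply, B_apply, ← integral_const_mul]
    refine integral_mono (C.intg _ _) ((C.intg P P).const_mul _) fun z => ?_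
    simp only [mul_apply]
    by_cases hz : z ∈ C.K
    · have h1 : a z ^ 2 ≤ |c| ^ 2 := by
        rw [← sq_abs (a z)]
        exact pow_le_pow_left₀ (abs_nonneg _) ((hc z hz).trans (le_abs_self c)) 2
      have h2 : 0 ≤ C.ρ z * (P.1 (z, 0) * P.1 (z, 0)) :=
        mul_nonneg (C.pos z).le (mul_self_nonneg _)
      nlinarith [mul_le_mul_of_nonneg_right h1 h2]
    · simp [Ctx.off P hz 0]

theorem OpC_bd {ι : Type} [Fintype ι] (a : ι → Z n → ℝ) (ha : ∀ i, Sm (a i)) :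
    ∃ c, 0 ≤ c ∧ ∀ i, C.jet.Bd c (C.mul (a i) (ha i)) := by
  choose c h0 hc using fun i => C.OpC_Mul (a i) (ha i)
  exact ⟨∑ i, c i, Finset.sum_nonneg fun i _ => h0 i, fun i =>
    (hc i).bd.mono (Finset.single_le_sum (fun i _ => h0 i) (Finset.mem_univ i))⟩

theorem OpC_bd2 (e : Z n → Mat n) (he : MSm e) :
    ∃ c, 0 ≤ c ∧ ∀ i j, C.jet.Bd c (C.mul (fun z => e z i j) (he i j)) := by
  obtain ⟨c, h0, hc⟩ := C.OpC_bd (ι := Fin n × Fin n) (fun q z => e z q.1 q.2) fun q => he q.1 q.2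
  exact ⟨c, h0, fun i j => hc (i, j)⟩

theorem OpC_split (o : OD n) : C.op o = C.op (OpC_zero o) + C.op (OD.eul o.e o.se) := by
  rw [← op_add]
  exact C.op_congr fun z _ => ⟨(add_zero _).symm, (add_zero _).symm, (zero_add _).symm⟩

theorem OpC_adj_eul (e : Z n → Mat n) (he : MSm e) :
    C.jet.Adj (C.op (OD.eul e he)) (C.op (OD.eul (fun z => (e z).transpose) he.tr)) := by
  rw [op_eul, op_eul, Finset.sum_comm (f := fun i j =>
    C.mul (fun z => (e z).transpose i j) (he.tr i j) * (C.jet.Y j * C.jet.D i))]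
  refine Jet.Adj.sum _ fun i _ => Jet.Adj.sum _ fun j _ => ?_
  obtain ⟨c, -, hc⟩ := C.OpC_Mul (fun z => e z i j) (he i j)
  have h := hc.adj.mul (Jet.adj_YD j i)
  have h2 : C.jet.Y i * C.jet.D j * C.mul (fun z => e z i j) (he i j) =
      C.mul (fun z => e z i j) (he i j) * (C.jet.Y i * C.jet.D j) := by
    refine LinearMap.ext fun P => ?_
    simp only [Module.End.mul_apply]
    rw [hc.cd j P]
    exact (C.op_Y_zero (o := OD.mul (fun z => e z i j) (he i j)) (fun _ _ => rfl) i _).symm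
  rw [h2] at h
  exact h

/-- Sketch: bound of `|a|` on the compact set `K`; `adj_lift`, `bd_lift`. -/
theorem mul_Mul (a : Z n → ℝ) (ha : Sm a) : ∃ c, C.jet.Mul c (C.mul a ha) := by
  obtain ⟨c, -, hc⟩ := C.OpC_Mul a ha
  exact ⟨c, hc⟩

/-- Sketch: `0 = ∫ div (ρ p q ξ)` with `p z = P (z, 0)`, coordinate by coordinate (`int_dx`,
`int_dp`, `fderiv_eq_sum`); `fderiv P (z, 0) (ξ z, 0) = fderiv p z (ξ z)`. -/
theorem adj_zero (o : OD n) (P Q : C.M) : C.jet.B (C.op o P) Q = C.jet.B P (C.op (o.adj C) Q) := by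
  have sl : ∀ R : C.M, Sm fun z : Z n => R.1 (z, 0) := fun R =>
    (Ctx.sm R).comp (contDiff_id.prodMk contDiff_const)
  have dl : ∀ (R : C.M) (z u : Z n),
      fderiv ℝ (fun z : Z n => R.1 (z, 0)) z u = fderiv ℝ R.1 (z, 0) (u, 0) := fun R z u => by
    have h : HasFDerivAt (fun z : Z n => R.1 (z, 0)) _ z :=
      ((Ctx.sm R).dAt (z, 0)).hasFDerivAt.comp z (hasFDerivAt_prodMk_left z 0)
    rw [h.fderiv]
    simp
  have h0 := OpC_div (F := fun z => C.ρ z * (P.1 (z, 0) * Q.1 (z, 0)))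
    (C.smρ.mul ((sl P).mul (sl Q)))
    (HasCompactSupport.intro C.cpt fun z hz => by simp [Ctx.off P hz 0]) o.sξ
  rw [B_apply, B_apply, ← sub_eq_zero, ← integral_sub (C.intg _ _) (C.intg _ _), ← h0]
  refine integral_congr_ae (Eventually.of_forall fun z => ?_)
  have h1 : fderiv ℝ Q.1 (z, 0) (-o.ξ z, 0) = -fderiv ℝ Q.1 (z, 0) (o.ξ z, 0) := by
    rw [← map_neg]
    simp
  have h2 := (C.pos z).ne'
  simp only [op_apply, OD.app, OD.adj, Ctx.dv, Matrix.mulVec_zero]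
  rw [fderiv_fun_mul (C.smρ.dAt z) (((sl P).mul (sl Q)).differentiable (by simp) z),
    fderiv_fun_mul ((sl P).dAt z) ((sl Q).dAt z)]
  simp only [add_apply, smul_apply, smul_eq_mul, dl, h1]
  field_simp
  ring

/-- Sketch: split `o` into the part without Euler matrix (`adj_lift`, `adj_zero`, `cd_op`) and
`OD.eul` (`op_eul`, `adj_YD`, `mul_Mul`, `op_Y_zero`). -/
theorem adj_op (o : OD n) : C.jet.Adj (C.op o) (C.op (o.adj C)) := by
  have h1 : C.op (OpC_zero (o.adj C)) = C.op ((OpC_zero o).adj C) :=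
    C.op_congr fun z _ => ⟨rfl, rfl, Matrix.transpose_zero.symm⟩
  rw [C.OpC_split o, C.OpC_split (o.adj C), h1]
  exact (Jet.adj_lift (C.cd_op fun _ _ => rfl) (C.cd_op fun _ _ => Matrix.transpose_zero)
    (C.adj_zero _)).add (C.OpC_adj_eul o.e o.se)

/-- Sketch: `op o = mul a + op (eul e)`; `nm_YD_le`. -/
theorem eu_op {o : OD n} (h : ∀ z ∈ C.K, o.ξ z = 0) : ∃ c, C.jet.Eu c (C.op o) := by
  obtain ⟨c, h0, hc⟩ := C.OpC_Mul o.a o.sa
  obtain ⟨d, d0, hd⟩ := C.OpC_bd2 o.e o.se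
  have h1 : C.op (OpC_zero o) = C.mul o.a o.sa := C.op_congr fun z hz => ⟨h z hz, rfl, rfl⟩
  refine ⟨c + n * (n * d), fun k P => ?_⟩
  rw [C.OpC_split o, h1, op_eul]
  simp only [LinearMap.add_apply, LinearMap.sum_apply, Module.End.mul_apply]
  have hP := C.jet.nm_nonneg k P
  have hk : (0 : ℝ) ≤ k := Nat.cast_nonneg k
  have h2 : C.jet.nm k (∑ i, ∑ j, C.mul (fun z => o.e z i j) (o.se i j)
      (C.jet.Y j (C.jet.D i P))) ≤ n * (n * (d * (k * C.jet.nm k P))) := by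
    refine (C.jet.nm_sum_le _ _ _).trans ((Finset.sum_le_sum (g := fun _ =>
      n * (d * (k * C.jet.nm k P))) fun i _ => ?_).trans (by simp))
    refine (C.jet.nm_sum_le _ _ _).trans ((Finset.sum_le_sum (g := fun _ =>
      d * (k * C.jet.nm k P)) fun j _ => ?_).trans (by simp))
    exact (hd i j k _).trans (mul_le_mul_of_nonneg_left (C.jet.nm_YD_le k j i P) d0)
  have h3 : 0 ≤ c * (k * C.jet.nm k P) := by positivity
  have h4 : 0 ≤ n * (n * d) * C.jet.nm k P := by positivity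
  refine (C.jet.nm_add_le _ _ _).trans ?_
  nlinarith [hc.bd k P]

theorem dc_op (o : OD n) : ∃ c, C.jet.DC c (C.op o) := by
  obtain ⟨d, -, hd⟩ := C.OpC_bd2 o.e o.se
  refine ⟨d, fun a k P => ?_⟩
  rw [D_op, Finset.mul_sum]
  exact (C.jet.nm_sum_le _ _ _).trans (Finset.sum_le_sum fun i _ => hd i a k _)

theorem yc_op (o : OD n) : ∃ c, C.jet.YC c (C.op o) := by
  obtain ⟨d, -, hd⟩ := C.OpC_bd2 o.e o.se
  refine ⟨n * d, fun a k P => ?_⟩
  rw [op_Y]
  refine (C.jet.nm_sum_le _ _ _).trans ((Finset.sum_le_sum (g := fun _ =>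
    Real.sqrt ((k : ℝ) + 1) * (d * C.jet.nm k P)) fun j _ => ?_).trans (le_of_eq ?_))
  · exact (C.jet.nm_Y_le k j _).trans
      (mul_le_mul_of_nonneg_left (hd a j k P) (Real.sqrt_nonneg _))
  · simp only [Finset.sum_const, Finset.card_univ, Fintype.card_fin, nsmul_eq_mul]
    ring

theorem eu_adj (o : OD n) : ∃ c, C.jet.Eu c (C.op (o.adj C) + C.op o) := by
  rw [← op_add]
  exact C.eu_op fun z _ => neg_add_cancel (o.ξ z)

/-- Sketch: `ip_eq`, `pip_quad` (or `Jet.quad_lift`). -/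
theorem quad {ι : Type} [Fintype ι] (q : ι → ι → Z n → ℝ) (hq : ∀ i j, Sm (q i j))
    (h : ∀ z ∈ C.K, ∀ s : ι → ℝ, 0 ≤ ∑ i, ∑ j, q i j z * s i * s j) (k : ℕ) (P : ι → C.M) :
    0 ≤ ∑ i, ∑ j, C.jet.ip k (P i) (C.mul (q i j) (hq i j) (P j)) := by
  refine Jet.quad_lift (K := fun i j => C.mul (q i j) (hq i j)) (fun i j => C.OpC_cd _ _)
    (fun P => ?_) k P
  simp only [B_apply]
  rw [Finset.sum_congr rfl fun i _ => (integral_finsetSum _ fun j _ => C.intg _ _).symm,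
    ← integral_finsetSum _ fun i _ => integrable_finsetSum _ fun j _ => C.intg _ _]
  refine integral_nonneg fun z => ?_
  simp only [mul_apply]
  by_cases hz : z ∈ C.K
  · have h1 := mul_nonneg (C.pos z).le (h z hz fun i => (P i).1 (z, 0))
    refine h1.trans (le_of_eq ?_)
    simp only [Finset.mul_sum]
    exact Finset.sum_congr rfl fun i _ => Finset.sum_congr rfl fun j _ => by ring
  · simp [Ctx.off _ hz 0]

/-- Sketch: `op o = ∑ mul (c a) * op (w a) + ∑ mul (c' a) * op (v a) + op r` with `r.ξ = 0` on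
`K` (pointwise, `Ctx.ext`); `mul_Mul`, `eu_op`. -/
theorem sml_op {o : OD n} {w v : Fin n → OD n} {c c' : Fin n → Z n → ℝ} (hc : ∀ a, Sm (c a))
    (hc' : ∀ a, Sm (c' a))
    (h : ∀ z ∈ C.K, o.ξ z = ∑ a, c a z • (w a).ξ z + ∑ a, c' a z • (v a).ξ z) :
    ∃ r : OD n, (∀ z ∈ C.K, r.ξ z = 0) ∧ (∀ P, C.op o P = ∑ a, C.mul (c a) (hc a) (C.op (w a) P) +
      ∑ a, C.mul (c' a) (hc' a) (C.op (v a) P) + C.op r P) ∧
      ∃ c₁, C.jet.Sml (fun a => C.op (w a)) (fun a => C.op (v a)) c₁ 0 (C.op o) := by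
  have hs : ∀ {u : Fin n → OD n} {b : Fin n → Z n → ℝ}, (∀ a, Sm (b a)) →
      MSm fun z => ∑ a, b a z • (u a).e z := fun {u b} hb i j => by
    simp only [Matrix.sum_apply]
    exact ContDiff.sum fun a _ => ((u a).se.smul (hb a)) i j
  let r : OD n := ⟨fun z => o.ξ z - (∑ a, c a z • (w a).ξ z + ∑ a, c' a z • (v a).ξ z),
    fun z => o.a z - (∑ a, c a z * (w a).a z + ∑ a, c' a z * (v a).a z),
    fun z => o.e z - (∑ a, c a z • (w a).e z + ∑ a, c' a z • (v a).e z),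
    o.sξ.sub ((ContDiff.sum fun a _ => (hc a).smul (w a).sξ).add
      (ContDiff.sum fun a _ => (hc' a).smul (v a).sξ)),
    o.sa.sub ((ContDiff.sum fun a _ => (hc a).mul (w a).sa).add
      (ContDiff.sum fun a _ => (hc' a).mul (v a).sa)),
    o.se.sub ((hs hc).add (hs hc'))⟩
  have hr : ∀ z ∈ C.K, r.ξ z = 0 := fun z hz => sub_eq_zero.2 (h z hz)
  have hid : ∀ P, C.op o P = ∑ a, C.mul (c a) (hc a) (C.op (w a) P) +
      ∑ a, C.mul (c' a) (hc' a) (C.op (v a) P) + C.op r P := by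
    intro P
    refine Ctx.ext fun z _ y => ?_
    have e : ((o.ξ z, (o.e z).mulVec y) : W n) =
        ∑ a, c a z • (((w a).ξ z, ((w a).e z).mulVec y) : W n) +
        ∑ a, c' a z • (((v a).ξ z, ((v a).e z).mulVec y) : W n) +
        (r.ξ z, (r.e z).mulVec y) := by
      refine Prod.ext ?_ ?_
      · simp [r, Prod.fst_sum]
      · simp [r, Prod.snd_sum, Matrix.sub_mulVec, Matrix.add_mulVec, Matrix.sum_mulVec,
          Matrix.smul_mulVec]
    simp only [Submodule.coe_add, Submodule.coe_sum, Pi.add_apply, Finset.sum_apply, mul_apply,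
      op_apply, OD.app]
    rw [e]
    simp only [map_add, map_sum, map_smul, smul_eq_mul, r, mul_add, Finset.sum_add_distrib,
      sub_mul, add_mul, Finset.sum_mul, mul_assoc]
    ring
  obtain ⟨b, b0, hb⟩ := C.OpC_bd c hc
  obtain ⟨b', b0', hb'⟩ := C.OpC_bd c' hc'
  obtain ⟨d, hd⟩ := C.eu_op hr
  refine ⟨r, hr, hid, b + b' + |d|, fun k P => ?_⟩
  have h1 : C.jet.nm k (∑ a, C.mul (c a) (hc a) (C.op (w a) P)) ≤
      b * ∑ a, C.jet.nm k (C.op (w a) P) := by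
    rw [Finset.mul_sum]
    exact (C.jet.nm_sum_le _ _ _).trans (Finset.sum_le_sum fun a _ => hb a k _)
  have h2 : C.jet.nm k (∑ a, C.mul (c' a) (hc' a) (C.op (v a) P)) ≤
      b' * ∑ a, C.jet.nm k (C.op (v a) P) := by
    rw [Finset.mul_sum]
    exact (C.jet.nm_sum_le _ _ _).trans (Finset.sum_le_sum fun a _ => hb' a k _)
  have h3 := hd.mono (le_abs_self d) k P
  have h4 := (C.jet.nm_add_le k _ (C.op r P)).trans
    (add_le_add ((C.jet.nm_add_le k _ _).trans (add_le_add h1 h2)) h3)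
  rw [← hid P] at h4
  have p1 : 0 ≤ ∑ a, C.jet.nm k (C.op (w a) P) :=
    Finset.sum_nonneg fun a _ => C.jet.nm_nonneg _ _
  have p2 : 0 ≤ ∑ a, C.jet.nm k (C.op (v a) P) :=
    Finset.sum_nonneg fun a _ => C.jet.nm_nonneg _ _
  have p3 : 0 ≤ ((k : ℝ) + 1) * C.jet.nm k P :=
    mul_nonneg (by positivity) (C.jet.nm_nonneg _ _)
  have d0 := abs_nonneg d
  refine h4.trans ?_
  nlinarith [mul_nonneg b0 p2, mul_nonneg b0 p3, mul_nonneg b0' p1, mul_nonneg b0' p3,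
    mul_nonneg d0 p1, mul_nonneg d0 p2]

theorem smv_op {o : OD n} {v : Fin n → OD n} {c' : Fin n → Z n → ℝ} (hc' : ∀ a, Sm (c' a))
    (h : ∀ z ∈ C.K, o.ξ z = ∑ a, c' a z • (v a).ξ z) :
    ∃ c₁, C.jet.Smv (fun a => C.op (v a)) c₁ (C.op o) := by
  obtain ⟨-, -, -, c₁, h1⟩ := C.sml_op (o := o) (w := fun _ => OD.mul (fun _ => 0) contDiff_const)
    (v := v) (c := fun _ _ => 0) (fun _ => contDiff_const) hc' fun z hz => by simp [h z hz]
  refine ⟨c₁, fun k P => ?_⟩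
  have h2 : C.op (OD.mul (fun _ => 0) contDiff_const) P = 0 :=
    Ctx.ext fun z _ y => (C.mul_apply (fun _ => 0) contDiff_const P (z, y)).trans (zero_mul _)
  have h3 := h1 k P
  simpa only [h2, Jet.nm_zero, Finset.sum_const_zero, zero_add, add_zero] using h3

end Ctx

end Pool.Agent.Lib.MP_45f3cb_gt.Fa
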