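import Pool.Agent.Lib.MP_45f3cb_gt.Fa.JetB
import Pool.Agent.Lib.MP_45f3cb_gt.Fa.MatA
import Pool.Agent.Lib.MP_45f3cb_gt.PolyB
import Pool.Agent.Lib.MP_45f3cb_gt.Int

/-!
Pointwise jets of functions on `V n` with values in a real inner product space.
-/

open Set MeasureTheory Filter Topology

namespace Pool.Agent.Lib.MP_45f3cb_gt.Fa

variable {n : ℕ} {F : Type} [NormedAddCommGroup F] [InnerProductSpace ℝ F]

/-- coordinate derivative -/
noncomputable def pdF (a : Fin n) (P : V n → F) (v : V n) : F := fderiv ℝ P v (Pi.single a 1)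

/-- the inner product of the `k`-jets at `v`, divided by `k !` -/
noncomputable def pip : ℕ → (V n → F) → (V n → F) → V n → ℝ
  | 0, P, Q, v => inner ℝ (P v) (Q v)
  | k + 1, P, Q, v => (1 / ((k : ℝ) + 1)) * ∑ a, pip k (pdF a P) (pdF a Q) v

/-- the squared norm of the `k`-jet at `v`, divided by `k !` -/
noncomputable def nn (k : ℕ) (P : V n → F) (v : V n) : ℝ := pip k P P v

/-- all derivatives of order `k` vanish -/
def PL : ℕ → (V n → F) → Prop
  | 0, P => ∀ y, P y = 0
  | k + 1, P => Sm P ∧ ∀ a, PL k (pdF a P)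

/-- all derivatives of order `k` have zero `ψ`-mean -/
def Gz (ψ : V n → ℝ) : ℕ → (V n → F) → Prop
  | 0, P => ∫ y, ψ y • P y = 0
  | k + 1, P => ∀ a, Gz ψ k (pdF a P)

/-- the homogeneous Taylor term of degree `k` at `v` -/
noncomputable def hom (v : V n) : ℕ → (V n → F) → V n → F
  | 0, P, _ => P v
  | k + 1, P, y => (1 / ((k : ℝ) + 1)) • ∑ a, (y a - v a) • hom v k (pdF a P) y

/-- the Taylor polynomial of degree `d` at `v` -/
noncomputable def tay (v : V n) (d : ℕ) (P : V n → F) (y : V n) : F :=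
  ∑ k ∈ Finset.range (d + 1), hom v k P y

theorem sm_pdF {P : V n → F} (h : Sm P) (a : Fin n) : Sm (pdF a P) :=
  (h.fderiv_right (m := (⊤ : ℕ∞)) (by simp)).clm_apply contDiff_const

theorem sm_coord {P : V n → F} (h : Sm P) (a : Fin n) (c : ℝ) : Sm fun y : V n => (y a - c) • P y :=
  ((contDiff_apply ℝ ℝ a).sub contDiff_const).smul h

theorem pdF_add {P Q : V n → F} (h : Sm P) (h' : Sm Q) (a : Fin n) :
    pdF a (fun y => P y + Q y) = fun y => pdF a P y + pdF a Q y := by
  funext y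
  simp only [pdF]
  rw [fderiv_fun_add (h.dAt y) (h'.dAt y)]
  rfl

theorem pdF_smul {P : V n → F} (h : Sm P) (c : ℝ) (a : Fin n) :
    pdF a (fun y => c • P y) = fun y => c • pdF a P y := by
  funext y
  simp only [pdF]
  rw [fderiv_fun_const_smul (h.dAt y)]
  rfl

theorem pdF_comm {P : V n → F} (h : Sm P) (a b : Fin n) : pdF a (pdF b P) = pdF b (pdF a P) := by
  funext y
  have h2 : ContDiffAt ℝ 2 P y := h.contDiffAt.of_le (by
    have : ((2 : ℕ∞) : WithTop ℕ∞) ≤ ((⊤ : ℕ∞) : WithTop ℕ∞) := by exact_mod_cast le_top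
    exact this)
  have hd : DifferentiableAt ℝ (fderiv ℝ P) y :=
    (h.fderiv_right (m := (⊤ : ℕ∞)) (by simp)).differentiable (by simp) y
  have key : ∀ u w : V n, fderiv ℝ (fun z => fderiv ℝ P z u) y w = fderiv ℝ (fderiv ℝ P) y w u :=
    fun u w => by
      rw [fderiv_clm_apply hd (differentiableAt_const u)]
      simp
  change fderiv ℝ (fun z => fderiv ℝ P z _) y _ = fderiv ℝ (fun z => fderiv ℝ P z _) y _
  rw [key, key]
  exact (h2.isSymmSndFDerivAt (by simp)).eq _ _

theorem pdF_coord {P : V n → F} (h : Sm P) (a b : Fin n) (c : ℝ) (y : V n) :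
    pdF a (fun y => (y b - c) • P y) y = (y b - c) • pdF a P y + if a = b then P y else 0 := by
  have h1 : HasFDerivAt (fun y : V n => y b - c) (ContinuousLinearMap.proj b : V n →L[ℝ] ℝ) y :=
    (hasFDerivAt_apply b y).sub_const c
  have h2 := (h1.smul (h.dAt y).hasFDerivAt).fderiv
  simp only [pdF]
  rw [show (fun y : V n => (y b - c) • P y) = (fun y : V n => y b - c) • P from rfl, h2]
  by_cases hab : a = b
  · subst hab
    simp
  · simp [hab, Ne.symm hab]

/-- the smooth functions -/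
def SmF (n : ℕ) (F : Type) [NormedAddCommGroup F] [InnerProductSpace ℝ F] :
    Submodule ℝ (V n → F) where
  carrier := {P | Sm P}
  add_mem' := fun {P Q} h h' => (show Sm fun y => P y + Q y from
    ContDiff.add (show Sm P from h) (show Sm Q from h'))
  zero_mem' := (show Sm fun _ : V n => (0 : F) from contDiff_const)
  smul_mem' := fun c P h => (show Sm fun y => c • P y from
    ContDiff.const_smul c (show Sm P from h))

theorem SmF.sm (P : SmF n F) : Sm P.1 := P.2

/-- the jet algebra at the point `v` -/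
noncomputable def ptJet (F : Type) [NormedAddCommGroup F] [InnerProductSpace ℝ F] (v : V n) :
    Jet n (SmF n F) where
  D a :=
    { toFun := fun P => ⟨pdF a P.1, sm_pdF (SmF.sm P) a⟩
      map_add' := fun P Q => Subtype.ext (pdF_add (SmF.sm P) (SmF.sm Q) a)
      map_smul' := fun c P => Subtype.ext (pdF_smul (SmF.sm P) c a) }
  Y a :=
    { toFun := fun P => ⟨fun y => (y a - v a) • P.1 y, sm_coord (SmF.sm P) a (v a)⟩
      map_add' := fun P Q => Subtype.ext (funext fun y => smul_add _ _ _)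
      map_smul' := fun c P => Subtype.ext (funext fun y => smul_comm _ _ _) }
  B := LinearMap.mk₂ ℝ (fun P Q => inner ℝ (P.1 v) (Q.1 v)) (fun _ _ _ => inner_add_left _ _ _)
    (fun _ _ _ => real_inner_smul_left _ _ _) (fun _ _ _ => inner_add_right _ _ _)
    fun _ _ _ => real_inner_smul_right _ _ _
  DD a b P := Subtype.ext (pdF_comm (SmF.sm P) a b)
  DY a b P := Subtype.ext (funext fun y => (pdF_coord (SmF.sm P) a b (v b) y).trans (by
    split_ifs <;> rfl))
  sym P Q := real_inner_comm _ _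
  pos P := real_inner_self_nonneg
  BY a P Q := by simp

theorem pip_eq (v : V n) (k : ℕ) (P Q : SmF n F) : (ptJet F v).ip k P Q = pip k P.1 Q.1 v := by
  induction k generalizing P Q with
  | zero => rfl
  | succ k ih =>
    rw [Jet.ip_succ, pip]
    exact congrArg _ (Finset.sum_congr rfl fun a _ => ih _ _)

theorem nn_zero (P : V n → F) (v : V n) : nn 0 P v = ‖P v‖ ^ 2 := real_inner_self_eq_norm_sq _

theorem nn_zero_real (P : V n → ℝ) (v : V n) : nn 0 P v = P v ^ 2 := by
  rw [nn_zero, Real.norm_eq_abs, sq_abs]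

theorem PtA_succ (k : ℕ) (P : V n → F) (v : V n) :
    nn (k + 1) P v = (1 / ((k : ℝ) + 1)) * ∑ a, nn k (pdF a P) v := rfl

theorem PtA_eq (v : V n) (k : ℕ) (P : SmF n F) : nn k P.1 v = (ptJet F v).ip k P P :=
  (pip_eq v k P P).symm

theorem nn_succ (k : ℕ) (P : V n → F) (v : V n) :
    ∑ a, nn k (pdF a P) v = ((k : ℝ) + 1) * nn (k + 1) P v := by
  rw [PtA_succ]
  field_simp

theorem nn_nonneg (k : ℕ) (P : V n → F) (v : V n) : 0 ≤ nn k P v := by
  induction k generalizing P with
  | zero => exact real_inner_self_nonneg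
  | succ k ih =>
    rw [PtA_succ]
    exact mul_nonneg (by positivity) (Finset.sum_nonneg fun a _ => ih _)

theorem nn_pdF_le (k : ℕ) (a : Fin n) (P : V n → F) (v : V n) :
    nn k (pdF a P) v ≤ ((k : ℝ) + 1) * nn (k + 1) P v := by
  rw [← nn_succ]
  exact Finset.single_le_sum (f := fun a => nn k (pdF a P) v) (fun _ _ => nn_nonneg _ _ _)
    (Finset.mem_univ a)

/-- Sketch: induction on `k`, `Filter.EventuallyEq.fderiv`. -/
theorem pip_congr {P P' Q Q' : V n → F} {v : V n} (h : P =ᶠ[𝓝 v] P') (h' : Q =ᶠ[𝓝 v] Q') (k : ℕ) :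
    pip k P Q v = pip k P' Q' v := by
  induction k generalizing P P' Q Q' with
  | zero => simp only [pip, h.eq_of_nhds, h'.eq_of_nhds]
  | succ k ih =>
    have key : ∀ {R R' : V n → F}, R =ᶠ[𝓝 v] R' → ∀ a, pdF a R =ᶠ[𝓝 v] pdF a R' :=
      fun hR a => (hR.fderiv (𝕜 := ℝ)).mono fun y hy => by simp only [pdF, hy]
    simp only [pip]
    exact congrArg _ (Finset.sum_congr rfl fun a _ => ih (key h a) (key h' a))

theorem nn_congr {P P' : V n → F} {v : V n} (h : P =ᶠ[𝓝 v] P') (k : ℕ) : nn k P v = nn k P' v :=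
  pip_congr h h k

theorem nn_fun_zero (k : ℕ) (v : V n) : nn k (fun _ => (0 : F)) v = 0 := by
  exact (PtA_eq v k (0 : SmF n F)).trans (by simp)

theorem nn_shift {P : V n → F} (h : Sm P) (k : ℕ) (v : V n) :
    nn k (fun y => P (v + y)) 0 = nn k P v := by
  induction k generalizing P with
  | zero => rw [nn_zero, nn_zero, add_zero]
  | succ k ih =>
    rw [PtA_succ, PtA_succ]
    refine congrArg _ (Finset.sum_congr rfl fun a _ => ?_)
    rw [← ih (sm_pdF h a)]
    congr 1
    funext y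
    simp only [pdF, fderiv_comp_add_left]

theorem nn_smul {P : V n → F} (h : Sm P) (c : ℝ) (k : ℕ) (v : V n) :
    nn k (fun y => c • P y) v = c ^ 2 * nn k P v := by
  have h1 := PtA_eq v k (c • (⟨P, h⟩ : SmF n F))
  simp only [map_smul, LinearMap.smul_apply, smul_eq_mul] at h1
  rw [← PtA_eq v k ⟨P, h⟩] at h1
  exact h1.trans (by ring)

theorem nn_mul {P : V n → ℝ} (h : Sm P) (c : ℝ) (k : ℕ) (v : V n) :
    nn k (fun y => c * P y) v = c ^ 2 * nn k P v :=
  nn_smul h c k v

theorem nn_cmul {P : V n → ℂ} (h : Sm P) (c : ℂ) (k : ℕ) (v : V n) :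
    nn k (fun y => c * P y) v = ‖c‖ ^ 2 * nn k P v := by
  induction k generalizing P with
  | zero => rw [nn_zero, nn_zero, norm_mul, mul_pow]
  | succ k ih =>
    have e : ∀ a, pdF a (fun y => c * P y) = fun y => c * pdF a P y := by
      intro a
      funext y
      simp only [pdF]
      rw [fderiv_const_mul (h.dAt y)]
      rfl
    rw [PtA_succ, PtA_succ]
    simp only [e, ih (sm_pdF h _), ← Finset.mul_sum]
    ring

theorem nn_add_le {P Q : V n → F} (h : Sm P) (h' : Sm Q) (k : ℕ) (v : V n) :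
    nn k (fun y => P y + Q y) v ≤ 2 * nn k P v + 2 * nn k Q v := by
  have h1 := (ptJet F v).ip_add_le k ⟨P, h⟩ ⟨Q, h'⟩
  rw [← PtA_eq, ← PtA_eq, ← PtA_eq] at h1
  exact h1

theorem nn_sub_le {P Q : V n → F} (h : Sm P) (h' : Sm Q) (k : ℕ) (v : V n) :
    nn k (fun y => P y - Q y) v ≤ 2 * nn k P v + 2 * nn k Q v := by
  have h1 := nn_add_le h (h'.const_smul (-1 : ℝ)) k v
  rw [nn_smul h'] at h1
  simpa [sub_eq_add_neg] using h1

theorem nn_neg {P : V n → F} (h : Sm P) (k : ℕ) (v : V n) : nn k (fun y => -P y) v = nn k P v := by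
  simpa using nn_smul h (-1) k v

/-- Sketch: `Jet.ip_comb_le`, `pip_eq`. -/
theorem nn_comb_le {ι : Type} [Fintype ι] {P : ι → V n → F} (h : ∀ i, Sm (P i)) (c : ι → ℝ) (k : ℕ)
    (v : V n) : nn k (fun y => ∑ i, c i • P i y) v ≤ (∑ i, c i ^ 2) * ∑ i, nn k (P i) v := by
  have h1 := (ptJet F v).ip_comb_le k c fun i => ⟨P i, h i⟩
  simp only [← PtA_eq] at h1
  refine le_of_eq_of_le ?_ h1
  congr 1
  funext y
  simp

theorem nn_sum_le {ι : Type} [Fintype ι] {P : ι → V n → F} (h : ∀ i, Sm (P i)) (k : ℕ) (v : V n) :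
    nn k (fun y => ∑ i, P i y) v ≤ (Fintype.card ι : ℝ) * ∑ i, nn k (P i) v := by
  simpa using nn_comb_le h (fun _ => 1) k v

/-- Sketch: `y a = v a + (y a - v a)`, `Jet.nm_Y_le`, `Jet.nm_Y_zero`; note `k - 1` is truncated
and the factor `k` kills the last term for `k = 0`. -/
theorem nn_coord_le {P : V n → F} (h : Sm P) (a : Fin n) (k : ℕ) (v : V n) :
    nn k (fun y => y a • P y) v ≤ 2 * v a ^ 2 * nn k P v + 2 * k * nn (k - 1) P v := by
  have h1 := nn_add_le (h.const_smul (v a)) (sm_coord h a (v a)) k v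
  rw [nn_smul h] at h1
  have e : (fun y : V n => v a • P y + (y a - v a) • P y) = fun y => y a • P y := by
    funext y
    rw [← add_smul, add_sub_cancel]
  rw [e] at h1
  have h2 : nn k (fun y => (y a - v a) • P y) v ≤ k * nn (k - 1) P v := by
    cases k with
    | zero => simp [nn_zero]
    | succ k =>
      have h3 := (ptJet F v).ip_le_of_nm ((ptJet F v).nm_Y_le k a ⟨P, h⟩)
      rw [mul_pow, Real.sq_sqrt (by positivity), Jet.nm_sq, ← PtA_eq, ← PtA_eq] at h3
      rw [Nat.add_sub_cancel]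
      push_cast
      exact h3
  linarith

end Pool.Agent.Lib.MP_45f3cb_gt.Fa
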