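import Pool.Agent.Lib.MP_45f3cb_gt.Fa.PtA

/-!
Pointwise jets: continuity, quadratic forms, change of frame.
-/

open Set MeasureTheory Filter Topology

namespace Pool.Agent.Lib.MP_45f3cb_gt.Fa

variable {n : ℕ} {F : Type} [NormedAddCommGroup F] [InnerProductSpace ℝ F]

theorem PtB_pdF_slice {E : Type} [NormedAddCommGroup E] [NormedSpace ℝ E] {P : E × V n → F}
    (h : Sm P) (e : E) (a : Fin n) :
    pdF a (fun y => P (e, y)) = fun y => fderiv ℝ P (e, y) ((0 : E), (Pi.single a 1 : V n)) := by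
  funext y
  have h1 : HasFDerivAt (fun y : V n => (e, y)) (ContinuousLinearMap.inr ℝ E (V n)) y :=
    hasFDerivAt_prodMk_right e y
  have h2 := ((h.dAt (e, y)).hasFDerivAt.comp y h1).fderiv
  simp only [pdF]
  rw [show (fun y : V n => P (e, y)) = P ∘ fun y : V n => (e, y) from rfl, h2]
  simp

theorem PtB_sm_slice {E : Type} [NormedAddCommGroup E] [NormedSpace ℝ E] {P : E × V n → F}
    (h : Sm P) (w : E × V n) : Sm fun q => fderiv ℝ P q w :=
  (h.fderiv_right (m := (⊤ : ℕ∞)) (by simp)).clm_apply contDiff_const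

/-- Sketch: induction on `k`; `pdF a (fun y => P (e, y)) y = fderiv P (e, y) (0, single a 1)`. -/
theorem cont_pip {E : Type} [NormedAddCommGroup E] [NormedSpace ℝ E] {P Q : E × V n → F}
    (h : Sm P) (h' : Sm Q) (k : ℕ) :
    Continuous fun q : E × V n => pip k (fun y => P (q.1, y)) (fun y => Q (q.1, y)) q.2 := by
  induction k generalizing P Q with
  | zero => exact (Continuous.inner (𝕜 := ℝ) h.continuous h'.continuous :)
  | succ k ih =>
    simp only [pip]
    refine continuous_const.mul (continuous_finsetSum _ fun a _ => ?_)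
    simp only [PtB_pdF_slice h, PtB_pdF_slice h']
    exact ih (PtB_sm_slice h _) (PtB_sm_slice h' _)

theorem cont_nn {P : V n → F} (h : Sm P) (k : ℕ) : Continuous (nn k P) := by
  have h1 : Sm fun q : ℝ × V n => P q.2 := h.comp contDiff_snd
  have h2 := (cont_pip h1 h1 k).comp (continuous_const.prodMk continuous_id :
    Continuous fun y : V n => ((0 : ℝ), y))
  exact h2

/-- a nonnegative real quadratic form is nonnegative on jets. Sketch: induction on `k`. -/
theorem pip_quad {ι : Type} [Fintype ι] {q : ι → ι → ℝ} (hq : ∀ s : ι → ℝ,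
    0 ≤ ∑ i, ∑ j, q i j * s i * s j) (k : ℕ) (P : ι → V n → ℝ) (v : V n) :
    0 ≤ ∑ i, ∑ j, q i j * pip k (P i) (P j) v := by
  induction k generalizing P with
  | zero =>
    have := hq fun i => P i v
    refine this.trans_eq (Finset.sum_congr rfl fun i _ => Finset.sum_congr rfl fun j _ => ?_)
    simp only [pip, RCLike.inner_apply, conj_trivial]
    ring
  | succ k ih =>
    have h1 : ∑ i, ∑ j, q i j * pip (k + 1) (P i) (P j) v = (1 / ((k : ℝ) + 1)) *
        ∑ a, ∑ i, ∑ j, q i j * pip k (pdF a (P i)) (pdF a (P j)) v := by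
      rw [Finset.sum_comm (γ := Fin n), Finset.mul_sum]
      refine Finset.sum_congr rfl fun i _ => ?_
      rw [Finset.sum_comm (γ := Fin n), Finset.mul_sum]
      refine Finset.sum_congr rfl fun j _ => ?_
      rw [pip, ← Finset.mul_sum]
      ring
    rw [h1]
    exact mul_nonneg (by positivity) (Finset.sum_nonneg fun a _ => ih fun i => pdF a (P i))

theorem pdF_aff {u : V n → F} (h : Sm u) (E : Mat n) (v : V n) (a : Fin n) (y : V n) :
    pdF a (fun y => u (v + E.mulVec y)) y = ∑ c, E c a • pdF c u (v + E.mulVec y) := by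
  have h1 : HasFDerivAt (fun y : V n => v + E.mulVec y)
      (LinearMap.toContinuousLinearMap (Matrix.mulVecLin E)) y :=
    (LinearMap.toContinuousLinearMap (Matrix.mulVecLin E)).hasFDerivAt.const_add v
  have h2 := ((h.dAt (v + E.mulVec y)).hasFDerivAt.comp y h1).fderiv
  simp only [pdF]
  rw [show (fun y : V n => u (v + E.mulVec y)) = u ∘ fun y : V n => v + E.mulVec y from rfl, h2]
  have h3 : E.mulVec (Pi.single a 1) = ∑ c, E c a • (Pi.single c 1 : V n) := by
    funext i
    simp [Finset.sum_apply, Pi.single_apply]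
  change fderiv ℝ u (v + E.mulVec y) (E.mulVec (Pi.single a 1)) = _
  rw [h3, map_sum]
  simp only [map_smul]

theorem sm_aff {u : V n → F} (h : Sm u) (E : Mat n) (v : V n) : Sm fun y => u (v + E.mulVec y) := by
  exact h.comp (contDiff_const.add
    (LinearMap.toContinuousLinearMap (Matrix.mulVecLin E)).contDiff)

theorem PtB_inv {E G : Mat n} (hEG : E * G = 1) (w : Fin n → F) (c : Fin n) :
    w c = ∑ a, G a c • ∑ c', E c' a • w c' := by
  simp only [Finset.smul_sum, smul_smul]
  rw [Finset.sum_comm]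
  have h1 : ∀ c', ∑ a, (G a c * E c' a) • w c' = (if c' = c then (1 : ℝ) else 0) • w c' :=
    fun c' => by
      rw [← Finset.sum_smul, ← Matrix.one_apply, ← hEG, Matrix.mul_apply]
      exact congrArg (· • w c') (Finset.sum_congr rfl fun a _ => mul_comm _ _)
  simp [h1]

/-- Sketch: induction on `k`: `(pdF c u) ∘ aff = ∑ a, G a c • pdF a (u ∘ aff)`, `nn_comb_le`. -/
theorem conv1 {E G : Mat n} (hEG : E * G = 1) (k : ℕ) {u : V n → F} (h : Sm u) (v : V n) :
    nn k u v ≤ (∑ i, ∑ j, G i j ^ 2) ^ k * nn k (fun y => u (v + E.mulVec y)) 0 := by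
  induction k generalizing u with
  | zero => simp [nn_zero]
  | succ k ih =>
    set g : ℝ := ∑ i, ∑ j, G i j ^ 2 with hg
    have hg0 : 0 ≤ g := by positivity
    have hk : (0 : ℝ) < (k : ℝ) + 1 := by positivity
    have hs := sm_aff h E v
    have h1 : ∀ c, (fun y => pdF c u (v + E.mulVec y)) =
        fun y => ∑ a, G a c • pdF a (fun y => u (v + E.mulVec y)) y := fun c => by
      funext y
      simp only [pdF_aff h]
      exact PtB_inv hEG (fun c' => pdF c' u (v + E.mulVec y)) c
    have h2 : ∀ c, nn k (pdF c u) v ≤ g ^ k * ((∑ a, G a c ^ 2) *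
        (((k : ℝ) + 1) * nn (k + 1) (fun y => u (v + E.mulVec y)) 0)) := fun c => by
      refine (ih (sm_pdF h c)).trans (mul_le_mul_of_nonneg_left ?_ (pow_nonneg hg0 k))
      rw [h1 c, ← nn_succ]
      exact nn_comb_le (fun a => sm_pdF hs a) (fun a => G a c) k 0
    have h3 := Finset.sum_le_sum fun c (_ : c ∈ Finset.univ) => h2 c
    rw [nn_succ, ← Finset.mul_sum, ← Finset.sum_mul, Finset.sum_comm, ← hg] at h3
    refine le_of_mul_le_mul_left (h3.trans_eq ?_) hk
    ring

/-- Sketch: `conv1`, then `u c ∘ aff = ∑ b, G b c • ∑ c', E c' b • u c' ∘ aff`. -/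
theorem conv2 {E G : Mat n} (hEG : E * G = 1) (k : ℕ) {u : Fin n → V n → F} (h : ∀ c, Sm (u c))
    (v : V n) (c : Fin n) : nn k (u c) v ≤ (∑ i, ∑ j, G i j ^ 2) ^ (k + 1) *
      ∑ b, nn k (fun y => ∑ c', E c' b • u c' (v + E.mulVec y)) 0 := by
  set g : ℝ := ∑ i, ∑ j, G i j ^ 2 with hg
  have hg0 : 0 ≤ g := by positivity
  have hs : ∀ b, Sm fun y => ∑ c', E c' b • u c' (v + E.mulVec y) := fun b =>
    ContDiff.sum fun c' _ => (sm_aff (h c') E v).const_smul (E c' b)
  have h1 : (fun y => u c (v + E.mulVec y)) =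
      fun y => ∑ b, G b c • ∑ c', E c' b • u c' (v + E.mulVec y) := by
    funext y
    exact PtB_inv hEG (fun c' => u c' (v + E.mulVec y)) c
  have h2 := nn_comb_le hs (fun b => G b c) k 0
  have h3 : ∑ b, G b c ^ 2 ≤ g :=
    Finset.sum_le_sum fun b _ =>
      Finset.single_le_sum (f := fun j => G b j ^ 2) (fun j _ => sq_nonneg _) (Finset.mem_univ c)
  have h4 : 0 ≤ ∑ b, nn k (fun y => ∑ c', E c' b • u c' (v + E.mulVec y)) 0 :=
    Finset.sum_nonneg fun b _ => nn_nonneg _ _ _
  refine (conv1 hEG k (h c) v).trans ?_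
  rw [h1, pow_succ, mul_assoc]
  exact mul_le_mul_of_nonneg_left (h2.trans (mul_le_mul_of_nonneg_right h3 h4)) (pow_nonneg hg0 k)

end Pool.Agent.Lib.MP_45f3cb_gt.Fa
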