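import Pool.Agent.Lib.MP_45f3cb_gt.Fa.PtC

/-!
Bounds for polynomials and the mean value gauge.
-/

open Set MeasureTheory Filter Topology

namespace Pool.Agent.Lib.MP_45f3cb_gt.Fa

variable {n : ℕ} {F : Type} [NormedAddCommGroup F] [InnerProductSpace ℝ F]

theorem PtD_fderiv (P : V n → F) (w u : V n) : fderiv ℝ P w u = ∑ a, u a • pdF a P w := by
  conv_lhs => rw [pi_eq_sum_univ' u, map_sum]
  exact Finset.sum_congr rfl fun a _ => map_smul _ _ _

theorem PtD_norm {P : V n → F} {w : V n} {B : ℝ} (hB : 0 ≤ B) (h : ∀ a, ‖pdF a P w‖ ≤ B) :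
    ‖fderiv ℝ P w‖ ≤ n * B := by
  refine ContinuousLinearMap.opNorm_le_bound _ (by positivity) fun u => ?_
  rw [PtD_fderiv]
  refine (norm_sum_le _ _).trans ?_
  have : ∀ a ∈ (Finset.univ : Finset (Fin n)), ‖u a • pdF a P w‖ ≤ B * ‖u‖ := fun a _ => by
    rw [norm_smul, mul_comm]
    exact mul_le_mul (h a) (norm_le_pi_norm u a) (norm_nonneg _) hB
  refine (Finset.sum_le_sum this).trans ?_
  rw [Finset.sum_const, Finset.card_univ, Fintype.card_fin, nsmul_eq_mul, mul_assoc]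

theorem PtD_zero_le {m : ℕ} {Q : V n → F} (h : PL m Q) (w : V n) :
    nn 0 Q w ≤ ∑ k ∈ Finset.range m, nn k Q w := by
  rcases m with _ | m
  · rw [h.nn_zero le_rfl, Finset.sum_range_zero]
  · exact Finset.single_le_sum (f := fun k => nn k Q w) (fun k _ => nn_nonneg k Q w)
      (Finset.mem_range.2 m.succ_pos)

theorem PtD_poly (n m : ℕ) (F : Type) [NormedAddCommGroup F] [InnerProductSpace ℝ F] (R : ℝ) :
    ∃ C, 0 ≤ C ∧ ∀ P : V n → F, PL m P → ∀ v v', ‖v' - v‖ ≤ R →
      ∑ k ∈ Finset.range m, nn k P v' ≤ C * ∑ k ∈ Finset.range m, nn k P v := by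
  induction m with
  | zero => exact ⟨0, le_rfl, fun P _ v v' _ => by simp⟩
  | succ m ih =>
    obtain ⟨C, hC, ih⟩ := ih
    refine ⟨2 + (2 * (n * R) ^ 2 + 1) * C * m, by positivity, fun P hP v v' hv => ?_⟩
    have hR : 0 ≤ R := (norm_nonneg _).trans hv
    obtain ⟨D, hD⟩ : ∃ D : V n → ℝ,
        ∀ w, D w = ∑ a, ∑ k ∈ Finset.range m, nn k (pdF a P) w := ⟨_, fun _ => rfl⟩
    have hD' : ∀ w, D w = ∑ k ∈ Finset.range m, ((k : ℝ) + 1) * nn (k + 1) P w := fun w => by
      rw [hD, Finset.sum_comm]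
      exact Finset.sum_congr rfl fun k _ => nn_succ k P w
    have h1 : ∀ w, ‖w - v‖ ≤ R → D w ≤ C * D v := fun w hw => by
      rw [hD, hD, Finset.mul_sum]
      exact Finset.sum_le_sum fun a _ => ih _ (hP.2 a) v w hw
    have h2 : D v ≤ m * ∑ k ∈ Finset.range m, nn (k + 1) P v := by
      rw [hD', Finset.mul_sum]
      refine Finset.sum_le_sum fun k hk => mul_le_mul_of_nonneg_right ?_ (nn_nonneg _ _ _)
      exact_mod_cast Finset.mem_range.1 hk
    have h3 : ∑ k ∈ Finset.range m, nn (k + 1) P v' ≤ D v' := by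
      rw [hD']
      refine Finset.sum_le_sum fun k _ => le_mul_of_one_le_left (nn_nonneg _ _ _) ?_
      have : (0 : ℝ) ≤ k := Nat.cast_nonneg k
      linarith
    have h4 : 0 ≤ D v := by
      rw [hD]
      exact Finset.sum_nonneg fun a _ => Finset.sum_nonneg fun k _ => nn_nonneg _ _ _
    have h5 : ‖P v' - P v‖ ≤ n * √(C * D v) * ‖v' - v‖ := by
      refine (convex_closedBall v R).norm_image_sub_le_of_norm_fderiv_le (𝕜 := ℝ)
        (fun w _ => hP.1.dAt w) (fun w hw => PtD_norm (Real.sqrt_nonneg _) fun a => ?_)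
        (Metric.mem_closedBall_self hR) (mem_closedBall_iff_norm.2 hv)
      refine Real.le_sqrt_of_sq_le ?_
      rw [← nn_zero]
      refine (PtD_zero_le (hP.2 a) w).trans (le_trans ?_ (h1 w (mem_closedBall_iff_norm.1 hw)))
      rw [hD]
      exact Finset.single_le_sum (f := fun a => ∑ k ∈ Finset.range m, nn k (pdF a P) w)
        (fun a _ => Finset.sum_nonneg fun k _ => nn_nonneg _ _ _) (Finset.mem_univ a)
    have h6 : ‖P v'‖ ≤ ‖P v‖ + n * R * √(C * D v) := by
      have e1 := norm_sub_norm_le (P v') (P v)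
      have e2 : n * √(C * D v) * ‖v' - v‖ ≤ n * √(C * D v) * R :=
        mul_le_mul_of_nonneg_left hv (by positivity)
      linarith
    have h7 : nn 0 P v' ≤ 2 * nn 0 P v + 2 * (n * R) ^ 2 * (C * D v) := by
      rw [nn_zero, nn_zero]
      have e1 : ‖P v'‖ ^ 2 ≤ (‖P v‖ + n * R * √(C * D v)) ^ 2 :=
        pow_le_pow_left₀ (norm_nonneg _) h6 2
      have e2 : (n * R * √(C * D v)) ^ 2 = (n * R) ^ 2 * (C * D v) := by
        rw [mul_pow, Real.sq_sqrt (mul_nonneg hC h4)]
      nlinarith [sq_nonneg (‖P v‖ - n * R * √(C * D v))]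
    rw [Finset.sum_range_succ', Finset.sum_range_succ']
    have h8 := h1 v' hv
    have h9 := nn_nonneg 0 P v
    have h10 : 0 ≤ ∑ k ∈ Finset.range m, nn (k + 1) P v :=
      Finset.sum_nonneg fun k _ => nn_nonneg _ _ _
    generalize ∑ k ∈ Finset.range m, nn (k + 1) P v = S at h2 h10 ⊢
    have hK : 0 ≤ (2 * ((n : ℝ) * R) ^ 2 + 1) * C := by positivity
    have h11 := mul_le_mul_of_nonneg_left h2 hK
    have h12 : 0 ≤ (2 * ((n : ℝ) * R) ^ 2 + 1) * C * m * nn 0 P v := by positivity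
    nlinarith

theorem PtD_sub {P Q : V n → F} (h : Sm P) (h' : Sm Q) (a : Fin n) :
    pdF a (fun y => P y - Q y) = fun y => pdF a P y - pdF a Q y := by
  funext y
  simp only [pdF]
  rw [fderiv_fun_sub (h.dAt y) (h'.dAt y)]
  rfl

/-- Sketch: induction on `m`, for all `P`; `‖P v' - P v‖ ≤ sup ‖fderiv P‖ * R` on the segment
(`Convex.norm_image_sub_le_of_norm_fderiv_le`, or the derivative of `t ↦ P (v + t • (v' - v))`). -/
theorem poly_bd (n m : ℕ) (F : Type) [NormedAddCommGroup F] [InnerProductSpace ℝ F] (R : ℝ) :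
    ∃ C, 0 ≤ C ∧ ∀ P : V n → F, PL (m + 1) P → ∀ v v', ‖v' - v‖ ≤ R →
      ∑ k ∈ Finset.range (m + 1), nn k P v' ≤ C * ∑ k ∈ Finset.range (m + 1), nn k P v := by
  exact PtD_poly n (m + 1) F R

/-- Sketch: `poly_bd` from the point `0`, `HP_low`, `PL.nn_zero`. -/
theorem hp_bd (n d : ℕ) (R : ℝ) : ∃ C, 0 ≤ C ∧ ∀ q ∈ HP n d, ∀ v : V n, ‖v‖ ≤ R → ∀ k,
    nn k q v ≤ C * nn d q 0 := by
  obtain ⟨C, hC, h⟩ := poly_bd n d ℝ R
  refine ⟨C, hC, fun q hq v hv k => ?_⟩
  rcases le_or_gt (d + 1) k with hk | hk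
  · rw [(PL.of_HP hq).nn_zero hk]
    exact mul_nonneg hC (nn_nonneg _ _ _)
  · have h1 := h q (PL.of_HP hq) 0 v (by rwa [sub_zero])
    rw [Finset.sum_range_succ (fun k => nn k q 0),
      Finset.sum_eq_zero fun j hj => HP_low hq (Finset.mem_range.1 hj), zero_add] at h1
    exact (Finset.single_le_sum (f := fun k => nn k q v) (fun k _ => nn_nonneg k q v)
      (Finset.mem_range.2 hk)).trans h1

/-- Sketch: induction on `k`. For `k = 0`, `T` is constant and `(∫ ψ) • T = - ∫ ψ • (A - T)`;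
`‖∫ ψ • u‖² ≤ (∫ ψ) ∫ ψ ‖u‖²` (discriminant of `∫ ψ (‖u‖ - t)²`). -/
theorem gz_bd [CompleteSpace F] {ψ : V n → ℝ} (hψ : Continuous ψ) (hc : HasCompactSupport ψ)
    (h0 : ∀ y, 0 ≤ ψ y) (hp : 0 < ∫ y, ψ y) (k : ℕ) {A T : V n → F} (hA : Sm A) (hz : Gz ψ k A)
    (hT : PL (k + 1) T) (v : V n) :
    (∫ y, ψ y) * nn k T v ≤ ∫ y, ψ y * nn k (fun y => A y - T y) y := by
  have hint : ∀ {g : V n → ℝ}, Continuous g → Integrable fun y => ψ y * g y := fun hg =>
    (hψ.mul hg).integrable_of_hasCompactSupport hc.mul_right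
  induction k generalizing A T with
  | zero =>
    have hf : ∀ y, fderiv ℝ T y = 0 := fun y => by
      ext1 u
      rw [PtD_fderiv]
      exact Finset.sum_eq_zero fun a _ => by rw [hT.2 a y, smul_zero]
    have hc' : ∀ y, T y = T v := fun y =>
      is_const_of_fderiv_eq_zero (fun y => hT.1.dAt y) hf y v
    have hi : Integrable fun y => ψ y • A y :=
      (hψ.smul hA.continuous).integrable_of_hasCompactSupport hc.smul_right
    have h1 : ∫ y, inner ℝ (T v) (ψ y • A y) = 0 := by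
      rw [integral_inner hi, show ∫ y, ψ y • A y = 0 from hz, inner_zero_right]
    have h2 : Integrable fun y => inner ℝ (T v) (ψ y • A y) := hi.const_inner _
    have h3 : ∫ y, (ψ y * nn 0 T v - 2 * inner ℝ (T v) (ψ y • A y)) = (∫ y, ψ y) * nn 0 T v := by
      rw [integral_sub (hint continuous_const) (h2.const_mul 2), integral_const_mul, h1,
        integral_mul_const, mul_zero, sub_zero]
    rw [← h3]
    refine integral_mono ((hint continuous_const).sub (h2.const_mul 2))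
      (hint (cont_nn (hA.sub hT.1) 0)) fun y => ?_
    simp only [nn_zero, hc' y]
    rw [norm_sub_sq_real, real_inner_smul_right, real_inner_comm]
    nlinarith [mul_nonneg (h0 y) (sq_nonneg ‖A y‖)]
  | succ k ih =>
    have hk : (0 : ℝ) < (k : ℝ) + 1 := by positivity
    refine le_of_mul_le_mul_left ?_ hk
    have h1 : ∀ a, Continuous (nn k (pdF a fun y => A y - T y)) := fun a =>
      cont_nn (sm_pdF (hA.sub hT.1) a) k
    have h2 : ((k : ℝ) + 1) * ∫ y, ψ y * nn (k + 1) (fun y => A y - T y) y =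
        ∑ a, ∫ y, ψ y * nn k (pdF a fun y => A y - T y) y := by
      rw [← integral_const_mul, ← integral_finsetSum _ fun a _ => hint (h1 a)]
      refine integral_congr_ae (Eventually.of_forall fun y => ?_)
      simp only
      rw [← Finset.mul_sum, nn_succ, mul_left_comm]
    rw [h2, mul_left_comm, ← nn_succ, Finset.mul_sum]
    refine Finset.sum_le_sum fun a _ => ?_
    rw [PtD_sub hA hT.1]
    exact ih (sm_pdF hA a) (hz a) (hT.2 a)

end Pool.Agent.Lib.MP_45f3cb_gt.Fa
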