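import Pool.Agent.Lib.MP_45f3cb_gt.Fa.JetK

/-!
The energy recursion: data and sizes.
-/

namespace Pool.Agent.Lib.MP_45f3cb_gt.Fa

variable {n : ℕ} {M : Type} [AddCommGroup M] [Module ℝ M]

/-- the data of the energy recursion -/
structure RecD (J : Jet n M) (C c₀ : ℝ) (m : ℕ) where
  X : Module.End ℝ M
  ν : Module.End ℝ M
  W : Fin n → Module.End ℝ M
  W' : Fin n → Module.End ℝ M
  N : Fin n → Module.End ℝ M
  N' : Fin n → Module.End ℝ M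
  Mm : Fin n → Fin n → Module.End ℝ M
  Lm : Fin n → Fin n → Module.End ℝ M
  R : Fin n → Module.End ℝ M
  th : Fin n → Module.End ℝ M
  l : Fin n → Module.End ℝ M
  θ : Fin n → Fin n → Fin n → Module.End ℝ M
  U : M
  hC : 1 ≤ C
  hc : 0 < c₀
  XY : ∀ a P, X (J.Y a P) = J.Y a (X P)
  Xadj : J.Adj X (-X - ν)
  νm : J.Mul C ν
  Wadj : ∀ b, J.Adj (W b) (W' b)
  Nadj : ∀ b, J.Adj (N b) (N' b)
  WD : ∀ b, J.DC C (W b)
  WY : ∀ b, J.YC C (W b)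
  ND : ∀ b c P, J.D b (N c P) - N c (J.D b P) = ∑ e, θ c b e (J.D e P)
  θbd : ∀ c b e, J.Bd C (θ c b e)
  θsm : ∀ a c b e, J.Sml W N C 0 (W' a * θ c b e)
  NW : ∀ a b, J.Sml W N C 0 (N a * W b - W b * N a)
  NN : ∀ a b, J.Smv N C (N a * N' b - N' b * N a)
  WW : ∀ a b, J.Sml W N C 0 (W a * W' b - W' b * W a)
  WN : ∀ b c, J.Sml W N C 0 (W' b * N c - N c * W' b)
  XW : ∀ b P, X (W b P) - W b (X P) = ∑ c, Mm b c (W c P) + ∑ c, Lm b c (N c P) + R b P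
  Reu : ∀ b, J.Eu C (R b)
  Lbd : ∀ b c, J.Bd C (Lm b c)
  lbd : ∀ a, J.Bd C (l a)
  pd : ∀ k (α β : Fin n → M), c₀ * (∑ a, J.ip k (α a) (α a) + ∑ b, J.ip k (β b) (β b)) ≤
    ∑ b, J.ip k (β b) (β b) + ∑ b, ∑ c, J.ip k (α b) (Mm b c (β c)) +
      ∑ b, J.ip k (α b) (ν (β b)) + ∑ b, ∑ c, J.ip k (α b) (Lm b c (α c)) +
      J.ip k (∑ a, th a (α a)) (∑ a, l a (α a))
  nN : ∀ k, m ≤ k → ∀ a, J.nm k (N a U - J.D a U) = 0
  nX : ∀ k, m ≤ k → J.nm k (X U - ∑ b, J.Y b (W b U)) = 0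
  eul : ∀ k : ℕ, m ≤ k → J.nm k (∑ a, th a (J.D a U)) ≤ C * ((k : ℝ) + 1) * J.nm k U

namespace RecD

variable {J : Jet n M} {C c₀ : ℝ} {m : ℕ} (H : RecD J C c₀ m)

/-- `β` -/
def be (b : Fin n) : M := H.W b H.U

/-- `α` -/
def al (a : Fin n) : M := J.D a H.U

/-- the energy -/
noncomputable def en (k : ℕ) : ℝ :=
  ∑ b, J.ip k (H.be b) (H.be b) + ((k : ℝ) + 1) * J.ip (k + 1) H.U H.U

/-- first curl term -/
noncomputable def J1 (k : ℕ) : ℝ := ∑ a, ∑ b, J.ip k (J.D a (H.be b)) (J.D b (H.be a))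

/-- second curl term -/
noncomputable def J2 (k : ℕ) : ℝ := ∑ b, ∑ c, J.ip k (H.W b (H.be c)) (J.D c (H.al b))

/-- first divergence -/
def d1 : M := ∑ a, H.N' a (H.be a)

/-- second divergence -/
def d2 : M := ∑ a, H.W' a (H.al a)

/-- the main quadratic form -/
noncomputable def Qm (k : ℕ) : ℝ :=
  ∑ b, J.ip k (H.be b) (H.be b) + ∑ b, ∑ c, J.ip k (H.al b) (H.Mm b c (H.be c)) +
    ∑ b, J.ip k (H.al b) (H.ν (H.be b)) + ∑ b, ∑ c, J.ip k (H.al b) (H.Lm b c (H.al c))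

/-- `s` -/
noncomputable def ss (j : ℕ) : ℝ := Real.sqrt ((j : ℝ) + 3)

/-- `p` -/
noncomputable def pp (j : ℕ) : ℝ := Real.sqrt (H.en (j + 2))

/-- `r` -/
noncomputable def rr (j : ℕ) : ℝ := Real.sqrt (H.en (j + 1) + ((j : ℝ) + 3) * H.en j)

/-- the size of the error terms -/
noncomputable def er (j : ℕ) : ℝ := ss j * H.pp j * H.rr j + ss j ^ 2 * H.rr j ^ 2

theorem en_nonneg (k : ℕ) : 0 ≤ H.en k :=
  add_nonneg (Finset.sum_nonneg fun _ _ => J.ip_nonneg _ _)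
    (mul_nonneg (by positivity) (J.ip_nonneg _ _))

theorem one_le_ss (j : ℕ) : 1 ≤ ss j := by
  have h : (0 : ℝ) ≤ j := Nat.cast_nonneg j
  exact Real.one_le_sqrt.2 (by linarith)

theorem RecA_U (k : ℕ) : ((k : ℝ) + 1) * J.ip (k + 1) H.U H.U ≤ H.en k :=
  le_add_of_nonneg_left (Finset.sum_nonneg fun _ _ => J.ip_nonneg _ _)

theorem RecA_be (k : ℕ) (b : Fin n) : J.ip k (H.be b) (H.be b) ≤ H.en k :=
  (Finset.single_le_sum (f := fun b => J.ip k (H.be b) (H.be b)) (fun _ _ => J.ip_nonneg _ _)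
    (Finset.mem_univ b)).trans
    (le_add_of_nonneg_right (mul_nonneg (by positivity) (J.ip_nonneg _ _)))

theorem RecA_al (k : ℕ) (a : Fin n) : J.ip k (H.al a) (H.al a) ≤ H.en k :=
  (Finset.single_le_sum (f := fun a => J.ip k (J.D a H.U) (J.D a H.U))
    (fun _ _ => J.ip_nonneg _ _) (Finset.mem_univ a)).trans
    ((J.sum_D k H.U H.U).le.trans (H.RecA_U k))

theorem RecA_sum {f : Fin n → ℝ} {r : ℝ} (h : ∀ a, f a ≤ r) : ∑ a, f a ≤ n * r := by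
  simpa using Finset.sum_le_card_nsmul Finset.univ f r fun a _ => h a

/-- Sketch: `nm_le_of_sq`, `sum_D`, `nm_D_le`, `Finset.single_le_sum`. -/
theorem size (j : ℕ) : (∀ b, J.nm (j + 2) (H.be b) ≤ H.pp j) ∧ (∀ a, J.nm (j + 2) (H.al a) ≤ H.pp j) ∧
    (∀ b, J.nm (j + 1) (H.be b) ≤ H.rr j) ∧ (∀ a, J.nm (j + 1) (H.al a) ≤ H.rr j) ∧
    ((j : ℝ) + 3) * J.nm (j + 2) H.U ≤ 2 * (ss j * H.rr j) ∧
    ((j : ℝ) + 2) * J.nm (j + 1) H.U ≤ 2 * H.rr j ∧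
    (∀ a b, J.nm (j + 1) (J.D a (H.be b)) ≤ ss j * H.pp j) ∧
    ∀ a b, J.nm (j + 1) (J.D a (H.al b)) ≤ ss j * H.pp j := by
  have hj : (0 : ℝ) ≤ j := Nat.cast_nonneg j
  have e0 := H.en_nonneg j
  have e1 := H.en_nonneg (j + 1)
  have e2 : 0 ≤ ((j : ℝ) + 3) * H.en j := by positivity
  have hr0 : 0 ≤ H.rr j := Real.sqrt_nonneg _
  have hs0 : 0 ≤ ss j := Real.sqrt_nonneg _
  have hr : H.rr j ^ 2 = H.en (j + 1) + ((j : ℝ) + 3) * H.en j := Real.sq_sqrt (by positivity)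
  have hs : ss j ^ 2 = (j : ℝ) + 3 := Real.sq_sqrt (by positivity)
  have h1 : ∀ b, J.nm (j + 2) (H.be b) ≤ H.pp j := fun b => Real.sqrt_le_sqrt (H.RecA_be _ b)
  have h2 : ∀ a, J.nm (j + 2) (H.al a) ≤ H.pp j := fun a => Real.sqrt_le_sqrt (H.RecA_al _ a)
  have hD : ∀ a P, J.nm (j + 2) P ≤ H.pp j → J.nm (j + 1) (J.D a P) ≤ ss j * H.pp j := by
    intro a P hP
    refine (J.nm_D_le (j + 1) a P).trans (mul_le_mul ?_ hP (J.nm_nonneg _ _) hs0)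
    refine Real.sqrt_le_sqrt ?_
    push_cast
    linarith
  refine ⟨h1, h2, fun b => Real.sqrt_le_sqrt ((H.RecA_be _ b).trans (by linarith)),
    fun a => Real.sqrt_le_sqrt ((H.RecA_al _ a).trans (by linarith)), ?_, ?_,
    fun a b => hD a _ (h1 b), fun a b => hD a _ (h2 b)⟩
  · refine le_of_pow_le_pow_left₀ two_ne_zero (by positivity) ?_
    have h3 := H.RecA_U (j + 1)
    have h4 := J.ip_nonneg (j + 1 + 1) H.U
    push_cast at h3
    rw [mul_pow, mul_pow, mul_pow, J.nm_sq, hr, hs]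
    have h5 : ((j : ℝ) + 3) * J.ip (j + 2) H.U H.U ≤
        4 * (H.en (j + 1) + ((j : ℝ) + 3) * H.en j) := by nlinarith
    nlinarith
  · refine le_of_pow_le_pow_left₀ two_ne_zero (by positivity) ?_
    have h3 := H.RecA_U j
    have h4 := J.ip_nonneg (j + 1) H.U
    rw [mul_pow, mul_pow, J.nm_sq, hr]
    have h5 : ((j : ℝ) + 3) * (((j : ℝ) + 1) * J.ip (j + 1) H.U H.U) ≤ ((j : ℝ) + 3) * H.en j :=
      mul_le_mul_of_nonneg_left h3 (by positivity)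
    have h6 : 0 ≤ (j : ℝ) * J.ip (j + 1) H.U H.U := by positivity
    have h7 : 0 ≤ (j : ℝ) * ((j : ℝ) * J.ip (j + 1) H.U H.U) := by positivity
    nlinarith

/-- Sketch: `D_a W_b U - W_b D_a U` by `WD`; `D_a W_b U - N_a W_b U = W_b (D_a U - N_a U) +
[D_a, W_b] U - [N_a, W_b] U` (`Adj.null`, `NW`, `nN`); `N_c D_a U = D_a N_c U - ∑ θ D_e U` and
`D_a N_c U` agrees with `D_a D_c U` (`null_D`). -/
theorem size2 : ∃ C₁, 0 ≤ C₁ ∧ ∀ j, m ≤ j →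
    (∀ a b, J.nm (j + 1) (J.D a (H.be b) - H.W b (H.al a)) ≤ C₁ * H.rr j) ∧
    (∀ a b, J.nm (j + 1) (J.D a (H.be b) - H.N a (H.be b)) ≤ C₁ * H.rr j) ∧
    (∀ a b, J.nm (j + 1) (H.W b (H.al a)) ≤ C₁ * (ss j * H.pp j + H.rr j)) ∧
    (∀ a b, J.nm (j + 1) (H.N a (H.be b)) ≤ C₁ * (ss j * H.pp j + H.rr j)) ∧
    ∀ a c, J.nm (j + 1) (H.N c (H.al a)) ≤ C₁ * (ss j * H.pp j + H.rr j) := by
  have hC := H.hC
  have hn : (0 : ℝ) ≤ n := Nat.cast_nonneg n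
  have hC0 : 0 ≤ C := by linarith
  have hCn : 0 ≤ C * n := by positivity
  refine ⟨C * (3 * n + 2), by positivity, fun j hj => ?_⟩
  obtain ⟨-, -, s3, s4, -, s6, s7, s8⟩ := H.size j
  have hr0 : 0 ≤ H.rr j := Real.sqrt_nonneg _
  have hp0 : 0 ≤ ss j * H.pp j := mul_nonneg (Real.sqrt_nonneg _) (Real.sqrt_nonneg _)
  have hCr : 0 ≤ C * H.rr j := by positivity
  have hCnr : 0 ≤ C * (n * H.rr j) := by positivity
  have hfin : ∀ x y : ℝ, x ≤ ss j * H.pp j + y → y ≤ C * (3 * n + 2) * H.rr j →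
      x ≤ C * (3 * n + 2) * (ss j * H.pp j + H.rr j) := by
    intro x y hx hy
    have h1 : 1 * (ss j * H.pp j) ≤ C * (3 * n + 2) * (ss j * H.pp j) :=
      mul_le_mul_of_nonneg_right (by nlinarith) hp0
    nlinarith
  have t0 : ∀ a b, J.nm (j + 1) (J.D a (H.be b) - H.W b (H.al a)) ≤ C * (n * H.rr j) :=
    fun a b => (H.WD b a (j + 1) H.U).trans (mul_le_mul_of_nonneg_left (RecA_sum s4) hC0)
  have t1 : ∀ a b, J.nm (j + 1) (J.D a (H.be b) - H.W b (H.al a)) ≤ C * (3 * n + 2) * H.rr j :=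
    fun a b => (t0 a b).trans (by nlinarith)
  have hN : ∀ c, J.nm (j + 1) (H.N c H.U) ≤ H.rr j := fun c =>
    (J.nm_congr (H.nN (j + 1) (by omega) c)).le.trans (s4 c)
  have t2 : ∀ a b, J.nm (j + 1) (J.D a (H.be b) - H.N a (H.be b)) ≤ C * (3 * n + 2) * H.rr j := by
    intro a b
    have e : J.D a (H.be b) - H.N a (H.be b) = (J.D a (H.be b) - H.W b (H.al a)) -
        H.W b (H.N a H.U - J.D a H.U) - (H.N a * H.W b - H.W b * H.N a) H.U := by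
      simp only [be, al, map_sub, LinearMap.sub_apply, Module.End.mul_apply]
      abel
    have h1 := (H.Wadj b).null (H.nN (j + 1) (by omega) a)
    have h2 := H.NW a b (j + 1) H.U
    have h3 : ∑ c, J.nm (j + 1) (H.W c H.U) ≤ n * H.rr j := RecA_sum s3
    have h4 := RecA_sum hN
    have h5 : C * (∑ c, J.nm (j + 1) (H.W c H.U) + ∑ c, J.nm (j + 1) (H.N c H.U) +
        (((j + 1 : ℕ) : ℝ) + 1 + 0) * J.nm (j + 1) H.U) ≤
        C * (n * H.rr j + n * H.rr j + 2 * H.rr j) := by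
      refine mul_le_mul_of_nonneg_left ?_ hC0
      push_cast
      linarith
    have h6 := J.nm_sub_le (j + 1) (J.D a (H.be b) - H.W b (H.al a))
      (H.W b (H.N a H.U - J.D a H.U))
    rw [e]
    refine (J.nm_sub_le _ _ _).trans ?_
    have h7 := t0 a b
    nlinarith
  refine ⟨t1, t2, fun a b => hfin _ _ ?_ (t1 a b), fun a b => hfin _ _ ?_ (t2 a b),
    fun a c => hfin _ (C * (n * H.rr j)) ?_ (by nlinarith)⟩
  · have h1 := J.nm_le_add_sub (j + 1) (H.W b (H.al a)) (J.D a (H.be b))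
    rw [J.nm_sub_comm] at h1
    linarith [s7 a b]
  · have h1 := J.nm_le_add_sub (j + 1) (H.N a (H.be b)) (J.D a (H.be b))
    rw [J.nm_sub_comm] at h1
    linarith [s7 a b]
  · have e : H.N c (H.al a) = J.D a (H.N c H.U) - ∑ e, H.θ c a e (J.D e H.U) := by
      rw [← H.ND a c H.U, al, sub_sub_cancel]
    have h1 : J.nm (j + 1) (J.D a (H.N c H.U)) = J.nm (j + 1) (J.D a (H.al c)) := by
      refine J.nm_congr ?_
      rw [← map_sub]
      exact J.null_D (H.nN (j + 1 + 1) (by omega) c) a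
    have h2 : J.nm (j + 1) (∑ e, H.θ c a e (J.D e H.U)) ≤ n * (C * H.rr j) :=
      (J.nm_sum_le _ _ _).trans (RecA_sum fun e =>
        (H.θbd c a e _ _).trans (mul_le_mul_of_nonneg_left (s4 e) hC0))
    rw [e]
    refine (J.nm_sub_le _ _ _).trans ?_
    rw [h1]
    linarith [s8 a c]

end RecD

end Pool.Agent.Lib.MP_45f3cb_gt.Fa
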