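import Pool.Agent.Lib.MP_45f3cb_gt.Fa.RecA

/-!
The energy identity.
-/

namespace Pool.Agent.Lib.MP_45f3cb_gt.Fa

variable {n : ℕ} {M : Type} [AddCommGroup M] [Module ℝ M]

namespace RecD

variable {J : Jet n M} {C c₀ : ℝ} {m : ℕ} (H : RecD J C c₀ m)

/-- the term with `W_b X U` -/
theorem RecB_W {j : ℕ} (hj : m ≤ j) (b : Fin n) :
    J.ip (j + 2) (H.W b (H.X H.U)) (H.al b) =
      ∑ c, J.ip (j + 1) (H.W b (H.be c)) (J.D c (H.al b)) +
      ∑ c, J.ip (j + 2) (H.W b (J.Y c (H.be c)) - J.Y c (H.W b (H.be c))) (H.al b) := by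
  have h0 := (H.Wadj b).null (H.nX (j + 2) (by omega))
  rw [map_sub] at h0
  rw [J.ip_congr h0, map_sum, map_sum, LinearMap.sum_apply, ← Finset.sum_add_distrib]
  refine Finset.sum_congr rfl fun c _ => ?_
  rw [map_sub, LinearMap.sub_apply, J.ip_Y (j + 1) c]
  simp only [be]
  ring

/-- the term with `X W_b U` -/
theorem RecB_X {j : ℕ} (hj : m ≤ j) (b : Fin n) :
    J.ip (j + 2) (H.X (H.be b)) (H.al b) =
      J.ip (j + 2) (H.W b (H.X H.U)) (H.al b) +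
      ∑ c, J.ip (j + 2) (H.al b) (H.Mm b c (H.be c)) +
      ∑ c, J.ip (j + 2) (H.al b) (H.Lm b c (H.al c)) +
      J.ip (j + 2) (H.R b H.U) (H.al b) := by
  have h := H.XW b H.U
  have h1 : H.X (H.be b) = H.W b (H.X H.U) + ∑ c, H.Mm b c (H.W c H.U) +
      ∑ c, H.Lm b c (H.N c H.U) + H.R b H.U := by
    rw [sub_eq_iff_eq_add] at h
    simp only [be]
    rw [h]
    abel
  have h2 : ∀ c, J.ip (j + 2) (H.Lm b c (H.N c H.U)) (H.al b) =
      J.ip (j + 2) (H.al b) (H.Lm b c (H.al c)) := by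
    intro c
    rw [J.ip_symm (j + 2) (H.al b)]
    refine J.ip_congr ?_ _
    rw [← map_sub]
    have h3 := H.Lbd b c (j + 2) (H.N c H.U - H.al c)
    have h4 : J.nm (j + 2) (H.N c H.U - H.al c) = 0 := H.nN (j + 2) (by omega) c
    rw [h4, mul_zero] at h3
    exact le_antisymm h3 (J.nm_nonneg _ _)
  rw [h1]
  simp only [map_add, map_sum, LinearMap.add_apply, LinearMap.sum_apply, h2]
  congr 2
  congr 1
  refine Finset.sum_congr rfl fun c _ => ?_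
  rw [J.ip_symm (j + 2) (H.al b)]
  rfl

/-- the exact identity -/
theorem RecB_id {j : ℕ} (hj : m ≤ j) :
    H.Qm (j + 2) + H.J1 (j + 1) + H.J2 (j + 1) =
      -(∑ b, ∑ c, J.ip (j + 2) (H.W b (J.Y c (H.be c)) - J.Y c (H.W b (H.be c))) (H.al b)) -
      ∑ b, J.ip (j + 2) (H.R b H.U) (H.al b) := by
  have hZ : J.nm (j + 3) (H.X H.U - ∑ b, J.Y b (H.be b)) = 0 := H.nX (j + 3) (by omega)
  have hA := H.Xadj (j + 3) (H.X H.U) H.U
  rw [LinearMap.sub_apply, LinearMap.neg_apply, map_sub, map_neg] at hA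
  have h1 : J.ip (j + 3) (H.X H.U) (H.X H.U) =
      ∑ b, J.ip (j + 2) (H.be b) (H.be b) + H.J1 (j + 1) := by
    rw [J.ip_congr hZ, J.ip_symm, J.ip_congr hZ]
    exact J.sq_sumY (j + 1) H.be
  have h2 : J.ip (j + 3) (H.X H.U) (H.ν H.U) = ∑ b, J.ip (j + 2) (H.al b) (H.ν (H.be b)) := by
    rw [J.ip_congr hZ, J.ip_sumY (j + 2)]
    refine Finset.sum_congr rfl fun b _ => ?_
    rw [H.νm.cd, ← H.νm.adj, J.ip_symm]
    rfl
  have h3 : J.ip (j + 3) (H.X (H.X H.U)) H.U = ∑ b, J.ip (j + 2) (H.X (H.be b)) (H.al b) := by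
    have h0 := H.Xadj.null hZ
    rw [map_sub] at h0
    rw [J.ip_congr h0, map_sum]
    simp only [H.XY]
    rw [J.ip_sumY (j + 2)]
    rfl
  rw [h1, h2, h3] at hA
  simp only [H.RecB_X hj, H.RecB_W hj, Finset.sum_add_distrib] at hA
  simp only [Qm, J2]
  linarith

/-- Sketch: `Xadj` for `P = X U`, `Q = U` on level `j + 3`; replace `X U` by `Z = ∑ Y_b β_b`
(`nX`, `ip_congr`, `Adj.null`); `sq_sumY`, `ip_sumY`, `XY`, `XW`, `WY`, `Reu`, `nN`, `size`. -/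
theorem recA : ∃ C₁, 0 ≤ C₁ ∧ ∀ j, m ≤ j →
    H.Qm (j + 2) + H.J1 (j + 1) + H.J2 (j + 1) ≤ C₁ * H.er j := by
  have hC : 0 ≤ C := le_trans zero_le_one H.hC
  refine ⟨(n : ℝ) ^ 2 * C + 2 * n * C, by positivity, fun j hj => ?_⟩
  obtain ⟨-, s2, s3, -, s5, -, -, -⟩ := H.size j
  have hs : 0 ≤ ss j := Real.sqrt_nonneg _
  have hp : 0 ≤ H.pp j := Real.sqrt_nonneg _
  have hr : 0 ≤ H.rr j := Real.sqrt_nonneg _
  have e1 : |∑ b, ∑ c, J.ip (j + 2) (H.W b (J.Y c (H.be c)) - J.Y c (H.W b (H.be c))) (H.al b)| ≤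
      (n : ℝ) ^ 2 * ((C * ss j * H.rr j) * H.pp j) := by
    refine Jet.abs_sum2_le (x := fun b c => H.W b (J.Y c (H.be c)) - J.Y c (H.W b (H.be c)))
      (y := fun b _ => H.al b) (fun b c => ?_) (fun b _ => s2 b)
    refine (H.WY b c (j + 1) (H.be c)).trans ?_
    have h1 : Real.sqrt (((j + 1 : ℕ) : ℝ) + 1) ≤ ss j := by
      refine Real.sqrt_le_sqrt ?_
      push_cast
      linarith
    exact mul_le_mul (mul_le_mul_of_nonneg_left h1 hC) (s3 c) (J.nm_nonneg _ _) (by positivity)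
  have e2 : |∑ b, J.ip (j + 2) (H.R b H.U) (H.al b)| ≤
      (n : ℝ) * ((C * (2 * (ss j * H.rr j))) * H.pp j) := by
    refine Jet.abs_sum1_le (x := fun b => H.R b H.U) (y := fun b => H.al b) (fun b => ?_) s2
    refine (H.Reu b (j + 2) H.U).trans ?_
    rw [mul_assoc]
    refine mul_le_mul_of_nonneg_left ?_ hC
    have h1 : (((j + 2 : ℕ) : ℝ) + 1) = (j : ℝ) + 3 := by
      push_cast
      ring
    rw [h1]
    exact s5
  rw [H.RecB_id hj]
  have e3 := neg_abs_le (∑ b, ∑ c,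
    J.ip (j + 2) (H.W b (J.Y c (H.be c)) - J.Y c (H.W b (H.be c))) (H.al b))
  have e4 := neg_abs_le (∑ b, J.ip (j + 2) (H.R b H.U) (H.al b))
  have e5 : 0 ≤ ((n : ℝ) ^ 2 * C + 2 * n * C) * (ss j ^ 2 * H.rr j ^ 2) := by positivity
  have e6 : ((n : ℝ) ^ 2 * C + 2 * n * C) * H.er j =
      (n : ℝ) ^ 2 * ((C * ss j * H.rr j) * H.pp j) +
      (n : ℝ) * ((C * (2 * (ss j * H.rr j))) * H.pp j) +
      ((n : ℝ) ^ 2 * C + 2 * n * C) * (ss j ^ 2 * H.rr j ^ 2) := by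
    simp only [er]
    ring
  linarith

end RecD

end Pool.Agent.Lib.MP_45f3cb_gt.Fa
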