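import Pool.Agent.Lib.MP_45f3cb_gt.Fa.RecA

/-!
The curl terms.
-/

namespace Pool.Agent.Lib.MP_45f3cb_gt.Fa

variable {n : ℕ} {M : Type} [AddCommGroup M] [Module ℝ M]

theorem RecC_num {s p r a b : ℝ} (hs : 1 ≤ s) (hp : 0 ≤ p) (hr : 0 ≤ r) (ha : 0 ≤ a)
    (hb : 0 ≤ b) : r * (b * (a * (s * p + r) + s ^ 2 * r)) ≤
      b * (a + 1) * (s * p * r + s ^ 2 * r ^ 2) := by
  have h1 : 0 ≤ s * p * r := by positivity
  have h2 : r ^ 2 ≤ s ^ 2 * r ^ 2 := le_mul_of_one_le_left (sq_nonneg r) (one_le_pow₀ hs)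
  have h3 : r * (a * (s * p + r) + s ^ 2 * r) ≤ (a + 1) * (s * p * r + s ^ 2 * r ^ 2) := by
    nlinarith [mul_le_mul_of_nonneg_left h2 ha]
  calc r * (b * (a * (s * p + r) + s ^ 2 * r)) = b * (r * (a * (s * p + r) + s ^ 2 * r)) := by ring
    _ ≤ b * ((a + 1) * (s * p * r + s ^ 2 * r ^ 2)) := mul_le_mul_of_nonneg_left h3 hb
    _ = _ := by ring

theorem RecC_num2 {s p r c : ℝ} (hs : 1 ≤ s) (hp : 0 ≤ p) (hr : 0 ≤ r) (hc : 0 ≤ c) :
    2 * (c * r) * (s * p) + (c * r) ^ 2 ≤ (2 * c + c ^ 2) * (s * p * r + s ^ 2 * r ^ 2) := by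
  have h1 : 0 ≤ s * p * r := by positivity
  have h2 : r ^ 2 ≤ s ^ 2 * r ^ 2 := le_mul_of_one_le_left (sq_nonneg r) (one_le_pow₀ hs)
  have h3 : 0 ≤ s ^ 2 * r ^ 2 := by positivity
  nlinarith [mul_le_mul_of_nonneg_left h2 (sq_nonneg c), mul_nonneg (sq_nonneg c) h1,
    mul_nonneg hc h3]

theorem RecC_sum_le {f : Fin n → ℝ} {t : ℝ} (h : ∀ a, f a ≤ t) : ∑ a, f a ≤ n * t := by
  calc ∑ a, f a ≤ ∑ _a : Fin n, t := Finset.sum_le_sum fun a _ => h a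
    _ = n * t := by simp

namespace RecD

variable {J : Jet n M} {C c₀ : ℝ} {m : ℕ} (H : RecD J C c₀ m)

theorem RecC_ss (j : ℕ) : ((j + 1 : ℕ) : ℝ) + 1 ≤ ss j ^ 2 := by
  rw [ss, Real.sq_sqrt (by positivity)]
  push_cast
  linarith

theorem RecC_pp (j : ℕ) : 0 ≤ H.pp j := Real.sqrt_nonneg _

theorem RecC_rr (j : ℕ) : 0 ≤ H.rr j := Real.sqrt_nonneg _

theorem RecC_lev (j : ℕ) {P : M} (h : J.nm (j + 1) P ≤ H.rr j) :
    (((j + 1 : ℕ) : ℝ) + 1) * J.nm (j + 1) P ≤ ss j ^ 2 * H.rr j :=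
  mul_le_mul (RecC_ss j) h (J.nm_nonneg _ _) (sq_nonneg _)

theorem RecC_sml {K : Module.End ℝ M} (hK : J.Sml H.W H.N C 0 K) {c : ℝ} {j : ℕ}
    (h1 : ∀ a b, J.nm (j + 1) (H.W b (H.al a)) ≤ c * (ss j * H.pp j + H.rr j))
    (h2 : ∀ a b, J.nm (j + 1) (H.N b (H.al a)) ≤ c * (ss j * H.pp j + H.rr j)) (a : Fin n) :
    J.nm (j + 1) (K (H.al a)) ≤
      C * (2 * n * c * (ss j * H.pp j + H.rr j) + ss j ^ 2 * H.rr j) := by
  refine (hK (j + 1) _).trans (mul_le_mul_of_nonneg_left ?_ (zero_le_one.trans H.hC))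
  have e1 := RecC_sum_le (h1 a)
  have e2 := RecC_sum_le (h2 a)
  have e3 := H.RecC_lev j ((H.size j).2.2.2.1 a)
  rw [add_zero]
  linarith

/-- Sketch: `K0` for `N` and `β`, `pert`, `NN`, `size`, `size2`. -/
theorem recB : ∃ C₁, 0 ≤ C₁ ∧ ∀ j, m ≤ j →
    J.ip (j + 1) H.d1 H.d1 ≤ H.J1 (j + 1) + C₁ * H.er j := by
  obtain ⟨c, hc, hs⟩ := H.size2
  have hC : 0 ≤ C := zero_le_one.trans H.hC
  refine ⟨(n : ℝ) ^ 2 * (2 * c + c ^ 2) + (n : ℝ) ^ 2 * (C * (n * c + 1)), by positivity,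
    fun j hj => ?_⟩
  obtain ⟨-, s2, -, s4, -⟩ := hs j hj
  obtain ⟨-, -, t3, -, -, -, t7, -⟩ := H.size j
  have e1 := Jet.pert (x := fun a b => J.D a (H.be b)) (y := fun a b => H.N a (H.be b)) s2 t7
  have hb : ∀ a b, J.nm (j + 1) ((H.N a * H.N' b - H.N' b * H.N a) (H.be b)) ≤
      C * (n * c * (ss j * H.pp j + H.rr j) + ss j ^ 2 * H.rr j) := by
    intro a b
    refine (H.NN a b (j + 1) _).trans (mul_le_mul_of_nonneg_left ?_ hC)
    have f1 := RecC_sum_le fun a => s4 a b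
    have f2 := H.RecC_lev j (t3 b)
    linarith
  have e2 := Jet.abs_sum2_le (x := fun a _ => H.be a)
    (y := fun a b => (H.N a * H.N' b - H.N' b * H.N a) (H.be b)) (fun a _ => t3 a) hb
  have e3 : ∑ a, ∑ b, J.ip (j + 1) (H.N b (H.be a)) (H.N a (H.be b)) =
      ∑ a, ∑ b, J.ip (j + 1) (H.N a (H.be b)) (H.N b (H.be a)) :=
    Finset.sum_congr rfl fun a _ => Finset.sum_congr rfl fun b _ => J.ip_symm _ _ _
  have n1 := mul_le_mul_of_nonneg_left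
    (RecC_num2 (one_le_ss j) (H.RecC_pp j) (H.RecC_rr j) hc) (sq_nonneg (n : ℝ))
  have n2 := mul_le_mul_of_nonneg_left
    (RecC_num (a := n * c) (one_le_ss j) (H.RecC_pp j) (H.RecC_rr j) (by positivity) hC)
    (sq_nonneg (n : ℝ))
  rw [d1, Jet.K0 H.Nadj, e3, J1, er]
  have g1 := (abs_le.1 e1).1
  have g2 := (abs_le.1 e2).2
  linarith

/-- Sketch: `K0` for `W` and `α`, `pert`, `WW`, `size`, `size2`. -/
theorem recC : ∃ C₁, 0 ≤ C₁ ∧ ∀ j, m ≤ j →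
    J.ip (j + 1) H.d2 H.d2 ≤ H.J1 (j + 1) + C₁ * H.er j := by
  obtain ⟨c, hc, hs⟩ := H.size2
  have hC : 0 ≤ C := zero_le_one.trans H.hC
  refine ⟨(n : ℝ) ^ 2 * (2 * c + c ^ 2) + (n : ℝ) ^ 2 * (C * (2 * n * c + 1)), by positivity,
    fun j hj => ?_⟩
  obtain ⟨s1, -, s3, -, s5⟩ := hs j hj
  obtain ⟨-, -, -, t4, -, -, t7, -⟩ := H.size j
  have e1 := Jet.pert (x := fun a b => J.D a (H.be b)) (y := fun a b => H.W b (H.al a)) s1 t7
  have e2 := Jet.abs_sum2_le (x := fun a _ => H.al a)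
    (y := fun a b => (H.W a * H.W' b - H.W' b * H.W a) (H.al b)) (fun a _ => t4 a)
    fun a b => H.RecC_sml (H.WW a b) s3 s5 b
  have n1 := mul_le_mul_of_nonneg_left
    (RecC_num2 (one_le_ss j) (H.RecC_pp j) (H.RecC_rr j) hc) (sq_nonneg (n : ℝ))
  have n2 := mul_le_mul_of_nonneg_left
    (RecC_num (a := 2 * n * c) (one_le_ss j) (H.RecC_pp j) (H.RecC_rr j) (by positivity) hC)
    (sq_nonneg (n : ℝ))
  rw [d2, Jet.K0 H.Wadj, J1, er]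
  have g1 := (abs_le.1 e1).1
  have g2 := (abs_le.1 e2).2
  linarith

/-- Sketch: `D_c α_b - N_c α_b = D_b (D_c U - N_c U) + ∑ θ c b e α_e`; move `W_b` to the right in
the `θ` terms (`θsm`); `K3`, `WN`, `size`, `size2`. -/
theorem recD : ∃ C₁, 0 ≤ C₁ ∧ ∀ j, m ≤ j →
    J.ip (j + 1) H.d1 H.d2 ≤ H.J2 (j + 1) + C₁ * H.er j := by
  obtain ⟨c, hc, hs⟩ := H.size2
  have hC : 0 ≤ C := zero_le_one.trans H.hC
  refine ⟨(n : ℝ) ^ 2 * (n * (C * (2 * n * c + 1))) + (n : ℝ) ^ 2 * (C * (2 * n * c + 1)),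
    by positivity, fun j hj => ?_⟩
  obtain ⟨-, -, s3, -, s5⟩ := hs j hj
  obtain ⟨-, -, t3, -, -, -, -, -⟩ := H.size j
  have e0 : ∀ b d, J.ip (j + 1) (H.W b (H.be d)) (H.N d (H.al b)) =
      J.ip (j + 1) (H.W b (H.be d)) (J.D d (H.al b)) -
        J.ip (j + 1) (H.be d) (∑ e, (H.W' b * H.θ d b e) (H.al e)) := by
    intro b d
    have f1 : H.N d (H.al b) = J.D d (H.al b) + J.D b (H.N d H.U - J.D d H.U) -
        ∑ e, H.θ d b e (H.al e) := by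
      have f := H.ND b d H.U
      simp only [al]
      rw [← f, map_sub, J.DD d b]
      abel
    have f2 := J.ip_null' (J.null_D (H.nN (j + 1 + 1) (by omega) d) b) (H.W b (H.be d))
    rw [f1, map_sub, map_add, f2, add_zero, H.Wadj b (j + 1) (H.be d) (∑ e, H.θ d b e (H.al e)),
      map_sum]
    rfl
  have hb : ∀ b d, J.nm (j + 1) (∑ e, (H.W' b * H.θ d b e) (H.al e)) ≤
      n * (C * (2 * n * c * (ss j * H.pp j + H.rr j) + ss j ^ 2 * H.rr j)) := fun b d =>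
    (J.nm_sum_le _ _ _).trans (RecC_sum_le fun e => H.RecC_sml (H.θsm b d b e) s3 s5 e)
  have e1 := Jet.abs_sum2_le (x := fun _ d => H.be d)
    (y := fun b d => ∑ e, (H.W' b * H.θ d b e) (H.al e)) (fun _ d => t3 d) hb
  have e2 := Jet.abs_sum2_le (x := fun _ d => H.be d)
    (y := fun b d => (H.W' b * H.N d - H.N d * H.W' b) (H.al b)) (fun _ d => t3 d)
    fun b d => H.RecC_sml (H.WN b d) s3 s5 b
  have e3 := Jet.K3 H.Wadj H.Nadj (j + 1) H.al H.be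
  simp only [e0, Finset.sum_sub_distrib] at e3
  have n0 := RecC_num (a := 2 * n * c) (one_le_ss j) (H.RecC_pp j) (H.RecC_rr j) (by positivity) hC
  have n1 := mul_le_mul_of_nonneg_left n0 (sq_nonneg (n : ℝ))
  have n2 := mul_le_mul_of_nonneg_left n1 (Nat.cast_nonneg n : (0 : ℝ) ≤ n)
  rw [d1, d2, J2, er]
  have g1 := (abs_le.1 e1).1
  have g2 := (abs_le.1 e2).1
  linarith

end RecD

end Pool.Agent.Lib.MP_45f3cb_gt.Fa
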