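import Pool.Agent.Lib.MP_45f3cb_gt.Fa.RecB
import Pool.Agent.Lib.MP_45f3cb_gt.Fa.RecC

/-!
The energy recursion and its solution.
-/

namespace Pool.Agent.Lib.MP_45f3cb_gt.Fa

variable {n : ℕ} {M : Type} [AddCommGroup M] [Module ℝ M]

namespace RecD

variable {J : Jet n M} {C c₀ : ℝ} {m : ℕ} (H : RecD J C c₀ m)

/-- Sketch: `pd` for `α, β` on level `j + 2` (`sum_D`); the last term by `eul`, `lbd`, `size`;
`0 ≤ |d1 + d2|²` with `recB`, `recC`, `recD` gives `-(J1 + J2) ≤ C er`; `recA`. -/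
theorem main : ∃ C₁, 0 ≤ C₁ ∧ ∀ j, m ≤ j → c₀ * H.en (j + 2) ≤ C₁ * H.er j := by
  obtain ⟨A, hA, hA'⟩ := H.recA
  obtain ⟨B, hB, hB'⟩ := H.recB
  obtain ⟨D, hD, hD'⟩ := H.recC
  obtain ⟨E, hE, hE'⟩ := H.recD
  have hC : 0 ≤ C := zero_le_one.trans H.hC
  refine ⟨A + (B + D + 2 * E) / 2 + 2 * n * C ^ 2, by positivity, fun j hj => ?_⟩
  obtain ⟨-, s2, -, -, s5, -⟩ := H.size j
  have hs : 0 ≤ ss j := Real.sqrt_nonneg _
  have hp : 0 ≤ H.pp j := Real.sqrt_nonneg _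
  have hr : 0 ≤ H.rr j := Real.sqrt_nonneg _
  have e1 : H.en (j + 2) = ∑ a, J.ip (j + 2) (H.al a) (H.al a) +
      ∑ b, J.ip (j + 2) (H.be b) (H.be b) := by
    rw [en, add_comm, ← J.sum_D]
    rfl
  have h1 : c₀ * H.en (j + 2) ≤ H.Qm (j + 2) +
      J.ip (j + 2) (∑ a, H.th a (H.al a)) (∑ a, H.l a (H.al a)) := by
    rw [e1]
    exact H.pd (j + 2) H.al H.be
  have h2 : J.nm (j + 2) (∑ a, H.th a (H.al a)) ≤ C * (2 * (ss j * H.rr j)) := by
    refine (H.eul (j + 2) (by omega)).trans ?_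
    rw [mul_assoc]
    refine mul_le_mul_of_nonneg_left (le_of_eq_of_le ?_ s5) hC
    push_cast
    ring
  have h3 : J.nm (j + 2) (∑ a, H.l a (H.al a)) ≤ n * (C * H.pp j) := by
    refine (J.nm_sum_le _ _ _).trans ((Finset.sum_le_card_nsmul _ _ _ fun a _ =>
      (H.lbd a _ _).trans (mul_le_mul_of_nonneg_left (s2 a) hC)).trans_eq ?_)
    simp
  have h4 : J.ip (j + 2) (∑ a, H.th a (H.al a)) (∑ a, H.l a (H.al a)) ≤
      2 * n * C ^ 2 * H.er j := by
    refine (J.ip_le _ _ _).trans ((mul_le_mul h2 h3 (J.nm_nonneg _ _) (by positivity)).trans ?_)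
    have : C * (2 * (ss j * H.rr j)) * (n * (C * H.pp j)) =
        2 * n * C ^ 2 * (ss j * H.pp j * H.rr j) := by ring
    rw [this]
    exact mul_le_mul_of_nonneg_left (le_add_of_nonneg_right (by positivity)) (by positivity)
  have h5 := J.ip_nonneg (j + 1) (H.d1 + H.d2)
  simp only [map_add, LinearMap.add_apply] at h5
  rw [J.ip_symm (j + 1) H.d2 H.d1] at h5
  have a1 := hA' j hj
  have a2 := hB' j hj
  have a3 := hD' j hj
  have a4 := hE' j hj
  linarith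

end RecD

/-- Sketch: `c₀ p² ≤ C₁ (s p r + s² r²)` gives `p² ≤ C₂ s² r²`; strong induction, `A` large
compared with `C₂` and the finitely many initial values. -/
theorem rec_num {e : ℕ → ℝ} {c₀ C₁ : ℝ} {m : ℕ} (hc : 0 < c₀) (hC : 0 ≤ C₁) (h0 : ∀ j, 0 ≤ e j)
    (h : ∀ j : ℕ, m ≤ j → c₀ * e (j + 2) ≤ C₁ * (Real.sqrt ((j : ℝ) + 3) * Real.sqrt (e (j + 2)) *
      Real.sqrt (e (j + 1) + ((j : ℝ) + 3) * e j) + Real.sqrt ((j : ℝ) + 3) ^ 2 *
      Real.sqrt (e (j + 1) + ((j : ℝ) + 3) * e j) ^ 2)) :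
    ∃ A : ℝ, 1 ≤ A ∧ ∀ j, e j ≤ A ^ (j + 1) * ((j + 1).factorial : ℝ) := by
  obtain ⟨C₂, hC₂, h2⟩ : ∃ C₂ : ℝ, 0 ≤ C₂ ∧ ∀ j : ℕ, m ≤ j →
      e (j + 2) ≤ C₂ * (((j : ℝ) + 3) * (e (j + 1) + ((j : ℝ) + 3) * e j)) := by
    refine ⟨(2 * C₁ * c₀ + C₁ ^ 2) / c₀ ^ 2, by positivity, fun j hj => ?_⟩
    have h1 := h j hj
    have e1 := Real.sq_sqrt (h0 (j + 2))
    have e2 := Real.sq_sqrt (show 0 ≤ (j : ℝ) + 3 by positivity)
    have e3 := Real.sq_sqrt (show 0 ≤ e (j + 1) + ((j : ℝ) + 3) * e j from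
      add_nonneg (h0 _) (mul_nonneg (by positivity) (h0 _)))
    generalize Real.sqrt (e (j + 2)) = p at h1 e1
    generalize Real.sqrt ((j : ℝ) + 3) = s at h1 e2
    generalize Real.sqrt (e (j + 1) + ((j : ℝ) + 3) * e j) = r at h1 e3
    rw [← e3, ← e2, ← e1, div_mul_eq_mul_div, le_div_iff₀ (by positivity)]
    rw [← e1] at h1
    nlinarith [mul_le_mul_of_nonneg_left h1 hc.le, sq_nonneg (c₀ * p - C₁ * (s * r))]
  have hS : 0 ≤ ∑ i ∈ Finset.range (m + 2), e i := Finset.sum_nonneg fun i _ => h0 i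
  obtain ⟨A, hA1, hA2, hA3⟩ : ∃ A : ℝ, 1 ≤ A ∧ 3 * C₂ ≤ A ∧ ∀ j < m + 2, e j ≤ A :=
    ⟨1 + 3 * C₂ + ∑ i ∈ Finset.range (m + 2), e i, by linarith, by linarith, fun j hj => by
      have := Finset.single_le_sum (f := e) (fun i _ => h0 i) (Finset.mem_range.2 hj)
      linarith⟩
  have hA0 : 0 ≤ A := zero_le_one.trans hA1
  refine ⟨A, hA1, fun j => ?_⟩
  induction j using Nat.strong_induction_on with
  | _ j ih =>
    rcases lt_or_ge j (m + 2) with hj | hj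
    · refine (hA3 j hj).trans ((le_self_pow₀ hA1 j.succ_ne_zero).trans
        (le_mul_of_one_le_right (by positivity) ?_))
      exact_mod_cast Nat.factorial_pos _
    · obtain ⟨k, rfl⟩ : ∃ k, j = k + 2 := ⟨j - 2, by omega⟩
      have i1 := ih k (by omega)
      have i2 := ih (k + 1) (by omega)
      have f1 : ((k + 1 + 1).factorial : ℝ) = ((k : ℝ) + 2) * ((k + 1).factorial : ℝ) := by
        rw [Nat.factorial_succ (k + 1)]
        push_cast
        ring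
      have f2 : ((k + 2 + 1).factorial : ℝ) =
          ((k : ℝ) + 3) * (((k : ℝ) + 2) * ((k + 1).factorial : ℝ)) := by
        rw [Nat.factorial_succ (k + 2), ← f1]
        push_cast
        ring
      rw [f1, pow_succ] at i2
      rw [f2, pow_succ, pow_succ]
      have hF : (0 : ℝ) ≤ A ^ (k + 1) * ((k + 1).factorial : ℝ) := by positivity
      have hk : (0 : ℝ) ≤ k := k.cast_nonneg
      have g1 : ((k : ℝ) + 3) * e k ≤
          2 * (A ^ (k + 1) * A * (((k : ℝ) + 2) * ((k + 1).factorial : ℝ))) := by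
        refine (mul_le_mul_of_nonneg_left i1 (by positivity)).trans ?_
        have : ((k : ℝ) + 3) ≤ 2 * (A * ((k : ℝ) + 2)) := by nlinarith
        exact (mul_le_mul_of_nonneg_right this hF).trans_eq (by ring)
      have g2 : e (k + 1) + ((k : ℝ) + 3) * e k ≤
          3 * (A ^ (k + 1) * A * (((k : ℝ) + 2) * ((k + 1).factorial : ℝ))) := by linarith
      refine (h2 k (by omega)).trans ((mul_le_mul_of_nonneg_left
        (mul_le_mul_of_nonneg_left g2 (by positivity)) hC₂).trans ?_)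
      have g3 : (0 : ℝ) ≤ A ^ (k + 1) * A *
          (((k : ℝ) + 3) * (((k : ℝ) + 2) * ((k + 1).factorial : ℝ))) := by positivity
      exact le_of_eq_of_le (by ring) ((mul_le_mul_of_nonneg_right hA2 g3).trans_eq (by ring))

theorem RecD.bound {J : Jet n M} {C c₀ : ℝ} {m : ℕ} (H : RecD J C c₀ m) :
    ∃ A : ℝ, 1 ≤ A ∧ ∀ j, H.en j ≤ A ^ (j + 1) * ((j + 1).factorial : ℝ) := by
  obtain ⟨C₁, h1, h2⟩ := H.main
  exact rec_num H.hc h1 H.en_nonneg h2

end Pool.Agent.Lib.MP_45f3cb_gt.Fa
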