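import Pool.Agent.Lib.MP_45f3cb_gt.Fa.FmA
import Pool.Agent.Lib.MP_45f3cb_gt.Fa.GeoB

/-!
Step 1: the data of a tube.
-/

open Set MeasureTheory Filter Topology Matrix

namespace Pool.Agent.Lib.MP_45f3cb_gt.Fa

variable {n : ℕ}

theorem S1A_cols {A B : Z n → Mat n} (hA : MSm A) (hB : MSm B) (b : Fin n) (z ζ : Z n) :
    fderiv ℝ (fun w => ((fun i => A w i b, fun i => B w i b) : Z n)) z ζ =
      (fun i => mD A z ζ i b, fun i => mD B z ζ i b) := by
  rw [DifferentiableAt.fderiv_prodMk ((hA.col b).dAt z) ((hB.col b).dAt z),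
    fderiv_pi fun i => (hA i b).dAt z, fderiv_pi fun i => (hB i b).dAt z]
  rfl

theorem S1A_neg (A : Z n → Mat n) (z ζ : Z n) : mD (fun w => -A w) z ζ = -mD A z ζ := by
  ext i j
  simp [mD, fderiv_fun_neg]

theorem S1A_sum (A B M : Mat n) (c : ℝ) (b : Fin n) :
    ∑ k, M k b • c • ((fun i => A i k, fun i => B i k) : Z n) =
      c • ((fun i => (A * M) i b, fun i => (B * M) i b) : Z n) := by
  refine Prod.ext (funext fun i => ?_) (funext fun i => ?_) <;>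
  · simp only [Prod.fst_sum, Prod.snd_sum, Finset.sum_apply, Prod.smul_mk, Pi.smul_apply,
      smul_eq_mul, Matrix.mul_apply, Finset.mul_sum]
    exact Finset.sum_congr rfl fun k _ => by ring

theorem S1A_alg {E G : Mat n} (h : E * G = 1) (E1 E2 Γ X R : Mat n) :
    -E * ((2 : ℝ) • (G * (E1 + Γ * E))) = -E1 - (E1 + (2 : ℝ) • (Γ * E)) ∧
    (E1 + (2 : ℝ) • (Γ * E)) * ((2 : ℝ) • (G * (E1 + Γ * E))) +
      E * (G * (E2 + X * E + (2 : ℝ) • (Γ * E1) + Γ * Γ * E -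
        (2 : ℝ) • ((E1 + Γ * E) * G * (E1 + Γ * E)) - R * E)) =
      E2 + (2 : ℝ) • (X * E + Γ * E1) -
        (-((R + X + Γ * Γ) * -E) - (2 : ℝ) • (Γ * (E1 + (2 : ℝ) • (Γ * E)))) := by
  have k : ∀ A : Mat n, E * (G * A) = A := fun A => by rw [← Matrix.mul_assoc, h, Matrix.one_mul]
  constructor
  · simp only [Matrix.neg_mul, Matrix.mul_smul, k]
    module
  · rw [k]
    simp only [Matrix.mul_neg, Matrix.mul_smul, Matrix.smul_mul, Matrix.add_mul, Matrix.mul_add,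
      Matrix.mul_assoc, k]
    module

theorem S1A_mul {C : Ctx n} {a : Z n → ℝ} {ha : Sm a} {P Q : C.M}
    (h : ∀ w, a w.1 * P.1 w = Q.1 w) : C.mul a ha P = Q :=
  Subtype.ext (funext fun w => (C.mul_apply a ha P w).trans (h w))

/-- the geometric data of a tube -/
structure S1D (g : V n → Mat n) (K : Set (V n)) (Ω : Set (Z n)) where
  rm : RM g
  τ : Z n → ℝ
  χ : Z n → ℝ
  E : ℝ → Mat n
  G : ℝ → Mat n
  lam : ℝ → ℝ
  l : ℝ → V n
  KK : Set (Z n)
  c₀ : ℝ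
  sτ : Sm τ
  sχ : Sm χ
  sE : MSm E
  sG : MSm G
  slam : Sm lam
  sl : Sm l
  clK : IsClosed K
  cpt : IsCompact KK
  opn : IsOpen Ω
  sub : KK ⊆ Ω
  mem : ∀ z : Z n, z.1 ∈ K → χ z ≠ 0 → z ∈ KK
  dτ : ∀ z ∈ KK, fderiv ℝ τ z (spray g z) = 1
  dχ : ∀ z ∈ KK, fderiv ℝ χ z (spray g z) = 0
  inv : ∀ z ∈ KK, E (τ z) * G (τ z) = 1
  hc : 0 < c₀
  pd : ∀ z ∈ KK, ∀ α β, c₀ * (α ⬝ᵥ α + β ⬝ᵥ β) ≤ QF g E G lam l (τ z) z α β

namespace S1D

variable {g : V n → Mat n} {K : Set (V n)} {Ω : Set (Z n)} (T : S1D g K Ω)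

/-- the jet space -/
noncomputable def C : Ctx n :=
  ⟨T.KK, T.cpt, fun z => Real.exp (T.lam (T.τ z)), Real.contDiff_exp.comp (T.slam.comp T.sτ),
    fun _ => Real.exp_pos _⟩

theorem der (z : Z n) (hz : z ∈ T.KK) :
    mD (fun w => T.χ w • T.E (T.τ w)) z (spray g z) = T.χ z • md T.E (T.τ z) := by
  rw [mD_smul T.sχ (T.sE.comp T.sτ), mD_comp T.sE T.sτ, T.dχ z hz, T.dτ z hz]
  simp

/-- the frame -/
noncomputable def S : FS T.C g :=
  ⟨T.rm, T.χ, fun z => T.E (T.τ z), fun z => md T.E (T.τ z), fun z => T.G (T.τ z), T.sχ,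
    T.sE.comp T.sτ, T.sE.md.comp T.sτ, T.sG.comp T.sτ, T.inv, T.der⟩

theorem sMt : MSm fun z => Mt g T.E T.G (T.τ z) z :=
  (T.rm.sm_Mt T.sE T.sG).comp (T.sτ.prodMk contDiff_id)

theorem sLt : MSm fun z => Lt g T.E T.G (T.τ z) z :=
  (T.rm.sm_Lt T.sE T.sG).comp (T.sτ.prodMk contDiff_id)

theorem sth (a : Fin n) : Sm fun z : Z n => (T.G (T.τ z) *ᵥ z.2) a :=
  contDiff_pi.1 ((T.sG.comp T.sτ).mulVec contDiff_snd) a

theorem sll (a : Fin n) : Sm fun z : Z n => T.l (T.τ z) a := contDiff_pi.1 (T.sl.comp T.sτ) a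

/-- Sketch: `[X, χ W0] = χ [X, W0]` on `KK`; `fderiv (W0 b) z (spray z)` by `mD_comp`, `mD_mul`,
`dτ`; `RM.fderiv_spray`; matrix algebra with `E * G = 1`. -/
theorem br (b : Fin n) {z : Z n} (hz : z ∈ T.KK) : ((oX T.rm).br (T.S.oW b)).ξ z =
    ∑ c, Mt g T.E T.G (T.τ z) z c b • (T.S.oW c).ξ z +
      ∑ c, Lt g T.E T.G (T.τ z) z c b • (T.S.oN c).ξ z := by
  have hE := T.sE.comp T.sτ
  have hE1 := T.sE.md.comp T.sτ
  have h1 : fderiv ℝ (T.S.W0 b) z (spray g z) = (fun i => (-md T.E (T.τ z)) i b,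
      fun i => (md (md T.E) (T.τ z) +
        (2 : ℝ) • (XG g z * T.E (T.τ z) + Gv g z * md T.E (T.τ z))) i b) := by
    refine (S1A_cols hE.neg (hE1.add (MSm.smul (c := fun _ => (2 : ℝ)) contDiff_const
      (T.rm.sm_Gv.mul hE))) b z _).trans ?_
    rw [S1A_neg, mD_add hE1 (MSm.smul (c := fun _ => (2 : ℝ)) contDiff_const (T.rm.sm_Gv.mul hE)),
      mD_smul (c := fun _ => (2 : ℝ)) contDiff_const (T.rm.sm_Gv.mul hE), mD_mul T.rm.sm_Gv hE,
      mD_comp T.sE T.sτ, mD_comp T.sE.md T.sτ, T.dτ z hz]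
    simp [XG]
  have h2 : fderiv ℝ (fun w => T.χ w • T.S.W0 b w) z (spray g z) =
      T.χ z • fderiv ℝ (T.S.W0 b) z (spray g z) := by
    rw [fderiv_fun_smul (T.sχ.dAt z) ((T.S.sW0 b).dAt z)]
    simp [T.dχ z hz]
  obtain ⟨h3, h4⟩ := S1A_alg (T.inv z hz) (md T.E (T.τ z)) (md (md T.E) (T.τ z)) (Gv g z) (XG g z)
    (Rm g z)
  have h5 := S1A_sum (-T.E (T.τ z)) (md T.E (T.τ z) + (2 : ℝ) • (Gv g z * T.E (T.τ z)))
    (Mt g T.E T.G (T.τ z) z) (T.χ z) b
  have h6 := S1A_sum 0 (T.E (T.τ z)) (Lt g T.E T.G (T.τ z) z) (T.χ z) b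
  refine Eq.trans ?_ (congrArg₂ (· + ·) h5 h6).symm
  change fderiv ℝ (fun w => T.χ w • T.S.W0 b w) z (spray g z) -
    fderiv ℝ (spray g) z (T.χ z • T.S.W0 b z) = _
  rw [h2, h1, map_smul, ← smul_sub, ← smul_add, FS.W0, T.rm.fderiv_spray]
  congr 1
  refine Prod.ext (funext fun i => ?_) (funext fun i => ?_)
  · exact (congrFun (congrFun h3 i) b).symm.trans (by simp [Mt, DE])
  · exact (congrFun (congrFun h4 i) b).symm

theorem dv {z : Z n} (hz : z ∈ T.KK) :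
    T.C.dv (spray g) z = deriv T.lam (T.τ z) + dvg (spray g) z := by
  have h := (((T.slam.dAt (T.τ z)).hasDerivAt.comp_hasFDerivAt z
    (T.sτ.dAt z).hasFDerivAt).exp).fderiv
  change dvg (spray g) z + fderiv ℝ (fun w => Real.exp ((T.lam ∘ T.τ) w)) z (spray g z) /
    Real.exp (T.lam (T.τ z)) = _
  rw [h]
  simp only [_root_.smul_apply, T.dτ z hz, smul_eq_mul, Function.comp]
  field_simp
  ring

/-- Sketch: `Ctx.quad` on `Fin n ⊕ Fin n` for the coefficients of `QF - c₀ (|α|² + |β|²)`; the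
last term through `Mul.adj` and the product of the two multipliers. -/
theorem pdj (k : ℕ) (α β : Fin n → T.C.M) :
    T.c₀ * (∑ a, T.C.jet.ip k (α a) (α a) + ∑ b, T.C.jet.ip k (β b) (β b)) ≤
      ∑ b, T.C.jet.ip k (β b) (β b) +
      ∑ b, ∑ c, T.C.jet.ip k (α b) (T.C.mul _ (T.sMt c b) (β c)) +
      ∑ b, T.C.jet.ip k (α b) (T.C.mul _ (T.C.sm_dv T.rm.sm_spray) (β b)) +
      ∑ b, ∑ c, T.C.jet.ip k (α b) (T.C.mul _ (T.sLt c b) (α c)) +
      T.C.jet.ip k (∑ a, T.C.mul _ (T.sth a) (α a)) (∑ a, T.C.mul _ (T.sll a) (α a)) := by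
  have hd := T.C.sm_dv T.rm.sm_spray
  let q : Fin n ⊕ Fin n → Fin n ⊕ Fin n → Z n → ℝ
    | .inl b, .inl c => fun z => Lt g T.E T.G (T.τ z) z c b +
        (T.G (T.τ z) *ᵥ z.2) b * T.l (T.τ z) c - if b = c then T.c₀ else 0
    | .inl b, .inr c => fun z => Mt g T.E T.G (T.τ z) z c b +
        (if b = c then 1 else 0) * T.C.dv (spray g) z
    | .inr _, .inl _ => fun _ => 0
    | .inr b, .inr c => fun _ => if b = c then 1 - T.c₀ else 0
  have hq : ∀ i j, Sm (q i j) := by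
    rintro (b | b) (c | c)
    · exact ((T.sLt c b).add ((T.sth b).mul (T.sll c))).sub contDiff_const
    · exact (T.sMt c b).add (contDiff_const.mul hd)
    · exact contDiff_const
    · exact contDiff_const
  have h := T.C.quad q hq (fun z hz s => by
    have h1 := T.pd z hz (fun a => s (.inl a)) (fun a => s (.inr a))
    rw [QF, ← T.dv hz] at h1
    have h2 : ∀ (A : Mat n) (u v : V n), v ⬝ᵥ (A *ᵥ u) = ∑ b, ∑ c, A c b * u b * v c := by
      intro A u v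
      rw [Finset.sum_comm]
      simp only [dotProduct, mulVec, Finset.mul_sum]
      exact Finset.sum_congr rfl fun _ _ => Finset.sum_congr rfl fun _ _ => by ring
    have h3 : ∀ a l u : V n, (a ⬝ᵥ u) * (l ⬝ᵥ u) = ∑ b, ∑ c, a b * l c * u b * u c := by
      intro a l u
      simp only [dotProduct, Finset.sum_mul_sum]
      exact Finset.sum_congr rfl fun _ _ => Finset.sum_congr rfl fun _ _ => by ring
    rw [h2, h2, h3] at h1
    simp only [dotProduct, mul_add, Finset.mul_sum, ← mul_assoc] at h1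
    simp only [Fintype.sum_sum_type, q, add_mul, sub_mul, ite_mul, zero_mul, one_mul,
      Finset.sum_add_distrib, Finset.sum_sub_distrib, Finset.sum_ite_eq, Finset.mem_univ, if_true,
      Finset.sum_const_zero]
    linarith) k (Sum.elim α β)
  have e1 : ∀ b c, T.C.mul _ (hq (.inl b) (.inl c)) (α c) = T.C.mul _ (T.sLt c b) (α c) +
      T.C.mul _ (T.sth b) (T.C.mul _ (T.sll c) (α c)) - (if b = c then T.c₀ else 0) • α c :=
    fun b c => S1A_mul fun w => by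
      simp only [q, Submodule.coe_add, Submodule.coe_sub, Submodule.coe_smul, Pi.add_apply,
        Pi.sub_apply, Pi.smul_apply, Ctx.mul_apply, smul_eq_mul]
      ring
  have e2 : ∀ b c, T.C.mul _ (hq (.inl b) (.inr c)) (β c) = T.C.mul _ (T.sMt c b) (β c) +
      (if b = c then (1 : ℝ) else 0) • T.C.mul _ hd (β c) :=
    fun b c => S1A_mul fun w => by
      simp only [q, Submodule.coe_add, Submodule.coe_smul, Pi.add_apply, Pi.smul_apply,
        Ctx.mul_apply, smul_eq_mul]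
      ring
  have e3 : ∀ b c, T.C.mul _ (hq (.inr b) (.inl c)) (α c) = 0 :=
    fun b c => S1A_mul fun w => by simp [q]
  have e4 : ∀ b c, T.C.mul _ (hq (.inr b) (.inr c)) (β c) = (if b = c then 1 - T.c₀ else 0) • β c :=
    fun b c => S1A_mul fun w => rfl
  have e5 : T.C.jet.ip k (∑ a, T.C.mul _ (T.sth a) (α a)) (∑ a, T.C.mul _ (T.sll a) (α a)) =
      ∑ b, ∑ c, T.C.jet.ip k (α b) (T.C.mul _ (T.sth b) (T.C.mul _ (T.sll c) (α c))) := by
    simp only [map_sum, LinearMap.sum_apply]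
    rw [Finset.sum_comm]
    exact Finset.sum_congr rfl fun b _ => Finset.sum_congr rfl fun c _ =>
      (T.C.mul_Mul _ (T.sth b)).choose_spec.adj k _ _
  simp only [Fintype.sum_sum_type, Sum.elim_inl, Sum.elim_inr, e1, e2, e3, e4, map_add, map_sub,
    map_smul, map_zero, smul_eq_mul, ite_mul, zero_mul, one_mul, sub_mul, Finset.sum_add_distrib,
    Finset.sum_sub_distrib, Finset.sum_ite_eq, Finset.mem_univ, if_true, Finset.sum_const_zero,
    ← Finset.mul_sum] at h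
  rw [e5]
  linarith

theorem adjX : T.C.jet.Adj (T.C.op (oX T.rm))
    (-T.C.op (oX T.rm) - T.C.mul _ (T.C.sm_dv T.rm.sm_spray)) := by
  rw [← T.C.op_adj_X T.rm]
  exact T.C.adj_op _

variable {d : ℕ} {w f : Z n → ℝ}

theorem U_mem (h : Sol g d K Ω w f) : (fun q => hat T.S.EE w q - w q.1) ∈ T.C.M := by
  refine ⟨(sm_hat T.S.sEE h.smw).sub (h.smw.comp contDiff_fst), fun z hz y => ?_⟩
  by_cases hK : z.1 ∈ K
  · have h0 : T.χ z = 0 := by_contra fun h1 => hz (T.mem z hK h1)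
    have h1 : T.S.EE z = 0 := by
      change T.χ z • _ = _
      rw [h0, zero_smul]
    simp [hat, h1]
  · simp only [hat]
    rw [h.off z hK, h.off (z.1, z.2 + T.S.EE z *ᵥ y) hK, sub_zero]

/-- the lifted solution -/
noncomputable def U (h : Sol g d K Ω w f) : T.C.M := ⟨_, T.U_mem h⟩

end S1D

end Pool.Agent.Lib.MP_45f3cb_gt.Fa
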