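import Pool.Agent.Lib.MP_45f3cb_gt.Fa.S1A
import Pool.Agent.Lib.MP_45f3cb_gt.Fa.FmC

/-!
Step 1: the lifted solution.
-/

open Set MeasureTheory Filter Topology Matrix

namespace Pool.Agent.Lib.MP_45f3cb_gt.Fa

variable {n : ℕ}

theorem S1B_dy {P : W n → ℝ} (hP : Sm P) {u : Z n → ℝ} (hu : Sm u) (a : Fin n) (q : W n) :
    dy a (fun q => P q - u q.1) q = dy a P q := by
  have h1 : HasFDerivAt (fun q : W n => u q.1)
      ((fderiv ℝ u q.1).comp (ContinuousLinearMap.fst ℝ (Z n) (V n))) q :=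
    (hu.dAt q.1).hasFDerivAt.comp q hasFDerivAt_fst
  have h2 := ((hP.dAt q).hasFDerivAt.sub h1).fderiv
  simp only [dy]
  rw [show (fun q : W n => P q - u q.1) = P - fun q : W n => u q.1 from rfl, h2]
  simp

theorem S1B_near {Ω : Set (Z n)} (hΩ : IsOpen Ω) {z : Z n} (hz : z ∈ Ω) (E : Mat n) :
    ∀ᶠ y in 𝓝 (0 : V n), ((z.1, z.2 + E *ᵥ y) : Z n) ∈ Ω := by
  have hc : Continuous fun y : V n => ((z.1, z.2 + E *ᵥ y) : Z n) :=
    continuous_const.prodMk (continuous_const.add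
      ((MSm.const E).mulVec (contDiff_id (E := V n))).continuous)
  refine hc.continuousAt.eventually (p := fun x => x ∈ Ω) (hΩ.mem_nhds ?_)
  simpa using hz

namespace S1D

variable {g : V n → Mat n} {K : Set (V n)} {Ω : Set (Z n)} (T : S1D g K Ω)

variable {d : ℕ} {w f : Z n → ℝ}

theorem S1B_op (h : Sol g d K Ω w f) (o : OD n) (q : W n) : (T.C.op o (T.U h)).1 q =
    o.app (hat T.S.EE w) q - (fderiv ℝ w q.1 (o.ξ q.1) + o.a q.1 * w q.1) :=
  o.app_sub_fst h.smw (sm_hat T.S.sEE h.smw) q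

theorem S1B_D (h : Sol g d K Ω w f) (a : Fin n) (q : W n) :
    (T.C.jet.D a (T.U h)).1 q = dy a (hat T.S.EE w) q :=
  S1B_dy (sm_hat T.S.sEE h.smw) h.smw a q

theorem S1B_sum {C : Ctx n} (P : Fin n → C.M) (q : W n) : (∑ a, P a).1 q = ∑ a, (P a).1 q := by
  rw [Submodule.coe_sum, Finset.sum_apply]

/-- Sketch: `Ctx.null` with a constant function; `OD.app_sub_fst`, `FS.hat_N`. -/
theorem nN (h : Sol g d K Ω w f) {k : ℕ} (hk : d + 2 ≤ k) (a : Fin n) :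
    T.C.jet.nm k (T.S.N a (T.U h) - T.C.jet.D a (T.U h)) = 0 := by
  refine T.C.null (m := 1) (by omega) _ fun z hz => ⟨_, PL.const
    (-(fderiv ℝ w z ((T.S.oN a).ξ z) + (T.S.oN a).a z * w z)), Eventually.of_forall fun y => ?_⟩
  rw [Submodule.coe_sub, Pi.sub_apply, T.S1B_D h, FS.N, T.S1B_op h, T.S.hat_N h.smw hz]
  ring

/-- Sketch: `Ctx.null`; `FS.hat_X`; near `y = 0` the point `(x, v + EE y)` is in `Ω`;
`PL.of_HP`, `PL.aff`, `PL.const`, `PL.coord`. -/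
theorem nX (h : Sol g d K Ω w f) {k : ℕ} (hk : d + 2 ≤ k) :
    T.C.jet.nm k (T.C.op (oX T.rm) (T.U h) - ∑ b, T.C.jet.Y b (T.S.Wo b (T.U h))) = 0 := by
  refine T.C.null hk _ fun z hz => ?_
  have p1 : PL (d + 2) fun y : V n => f (z.1, z.2 + T.S.EE z *ᵥ y) :=
    (PL.of_HP (h.fp z.1)).aff (T.S.EE z) z.2
  have p2 : PL (d + 2) fun _ : V n =>
      fderiv ℝ w z ((oX T.rm).ξ z) + (oX T.rm).a z * w z := (PL.const _).mono (by omega)
  have p3 : PL (d + 2) fun y : V n => ∑ b, (y b - 0) •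
      (fderiv ℝ w z ((T.S.oW b).ξ z) + (T.S.oW b).a z * w z) :=
    PL.sum _ fun b _ => ((PL.const _).coord b 0).mono (by omega)
  refine ⟨_, (p1.sub p2).add p3, ?_⟩
  filter_upwards [S1B_near T.opn (T.sub hz) (T.S.EE z)] with y hy
  have e1 := T.S.hat_X h.smw hz y
  have e2 : hat T.S.EE (fun z => fderiv ℝ w z (spray g z)) (z, y) =
      f (z.1, z.2 + T.S.EE z *ᵥ y) := h.eq _ hy
  rw [Submodule.coe_sub, Pi.sub_apply, T.S1B_op h, S1B_sum]
  simp only [Ctx.Y_apply, FS.Wo, T.S1B_op h, mul_sub, Finset.sum_sub_distrib, sub_zero,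
    smul_eq_mul]
  rw [← e2]
  have e3 : (oX T.rm).app (hat T.S.EE w) (z, y) = _ := e1
  linear_combination e3

/-- Sketch: `FS.hat_rad`, `Sol.eul`: the element agrees with `χ (d • U - ∑ Y a (D a U))` up to a
constant in `y` (`Ctx.null`, `Jet.nm_congr`); `nm_YD_le`, `Ctx.mul_Mul`. -/
theorem eul (h : Sol g d K Ω w f) : ∃ c, ∀ k : ℕ, d + 2 ≤ k →
    T.C.jet.nm k (∑ a, T.C.mul _ (T.sth a) (T.C.jet.D a (T.U h))) ≤
      c * ((k : ℝ) + 1) * T.C.jet.nm k (T.U h) := by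
  obtain ⟨c, hc⟩ := T.C.mul_Mul T.χ T.sχ
  have hb := hc.bd.mono (le_abs_self c)
  refine ⟨|c| * (1 + n), fun k hk => ?_⟩
  have h0 : T.C.jet.nm k (∑ a, T.C.mul _ (T.sth a) (T.C.jet.D a (T.U h)) -
      T.C.mul T.χ T.sχ ((d : ℝ) • T.U h - ∑ a, T.C.jet.Y a (T.C.jet.D a (T.U h)))) = 0 := by
    refine T.C.null (m := 1) (by omega) _ fun z hz => ⟨_, PL.const (T.χ z * (d * w z)), ?_⟩
    filter_upwards [S1B_near T.opn (T.sub hz) (T.S.EE z)] with y hy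
    have e1 : ∑ a, (T.G (T.τ z) *ᵥ z.2) a * dy a (hat T.S.EE w) (z, y) =
        T.χ z * (hat T.S.EE (fun z => fderiv ℝ w z (0, z.2)) (z, y) -
          ∑ a, y a * dy a (hat T.S.EE w) (z, y)) := T.S.hat_rad h.smw hz y
    have e2 : hat T.S.EE (fun z => fderiv ℝ w z (0, z.2)) (z, y) =
        d * hat T.S.EE w (z, y) := h.eul _ hy
    have e3 : (T.U h).1 (z, y) = hat T.S.EE w (z, y) - w z := rfl
    rw [Submodule.coe_sub, Pi.sub_apply, S1B_sum, Ctx.mul_apply, Submodule.coe_sub, Pi.sub_apply,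
      S1B_sum, Submodule.coe_smul, Pi.smul_apply, e3]
    simp only [Ctx.mul_apply, Ctx.Y_apply, T.S1B_D h, smul_eq_mul]
    rw [e1, e2]
    ring
  rw [T.C.jet.nm_congr h0]
  refine (hb k _).trans ?_
  have h1 := T.C.jet.nm_sub_le k ((d : ℝ) • T.U h) (∑ a, T.C.jet.Y a (T.C.jet.D a (T.U h)))
  have h2 := (T.C.jet.nm_sum_le Finset.univ k fun a => T.C.jet.Y a (T.C.jet.D a (T.U h))).trans
    (Finset.sum_le_sum fun a _ => T.C.jet.nm_YD_le k a a (T.U h))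
  rw [Finset.sum_const, Finset.card_univ, Fintype.card_fin, nsmul_eq_mul] at h2
  rw [T.C.jet.nm_smul, Nat.abs_cast] at h1
  have h3 := T.C.jet.nm_nonneg k (T.U h)
  have h4 : (d : ℝ) ≤ k + 1 := by exact_mod_cast (by omega : d ≤ k + 1)
  have h5 : (0 : ℝ) ≤ n := Nat.cast_nonneg n
  rw [mul_assoc, mul_assoc]
  refine mul_le_mul_of_nonneg_left ?_ (abs_nonneg c)
  nlinarith [mul_le_mul_of_nonneg_right h4 h3, mul_nonneg h5 h3]

end S1D

end Pool.Agent.Lib.MP_45f3cb_gt.Fa
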