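import Pool.Agent.Lib.MP_45f3cb_gt.Fa.S1B
import Pool.Agent.Lib.MP_45f3cb_gt.Fa.FmB
import Pool.Agent.Lib.MP_45f3cb_gt.Fa.RecE

/-!
Step 1: the energy bound.
-/

open Set MeasureTheory Filter Topology Matrix

namespace Pool.Agent.Lib.MP_45f3cb_gt.Fa

variable {n : ℕ}

namespace S1D

variable {g : V n → Mat n} {K : Set (V n)} {Ω : Set (Z n)} (T : S1D g K Ω)

variable {d : ℕ} {w f : Z n → ℝ}

/-- Sketch: collect the constants with `exists_const`; `R b` is `op r` of `Ctx.sml_op` for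
`br`; `θ c b e = mul ((oN c).e · e b)` (`Ctx.D_op`). -/
theorem recD (h : Sol g d K Ω w f) : ∃ (c : ℝ) (H : RecD T.C.jet c T.c₀ (d + 2)),
    H.W = T.S.Wo ∧ H.U = T.U h := by
  have hR := fun b : Fin n => T.C.sml_op (o := (oX T.rm).br (T.S.oW b)) (w := T.S.oW)
    (v := T.S.oN) (c := fun a z => Mt g T.E T.G (T.τ z) z a b)
    (c' := fun a z => Lt g T.E T.G (T.τ z) z a b) (fun a => T.sMt a b) (fun a => T.sLt a b)
    fun z hz => T.br b hz
  choose r hr0 hr1 _ using hR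
  obtain ⟨c1, h1⟩ := T.C.mul_Mul _ (T.C.sm_dv T.rm.sm_spray)
  obtain ⟨c2, e2, h2⟩ := exists_const (fun b : Fin n => T.C.dc_op (T.S.oW b))
    fun _ _ _ hh hC => hh.mono hC
  obtain ⟨c3, e3, h3⟩ := exists_const (fun b : Fin n => T.C.yc_op (T.S.oW b))
    fun _ _ _ hh hC => hh.mono hC
  obtain ⟨c4, e4, h4⟩ := exists_const (fun i : Fin n × Fin n × Fin n =>
    T.C.mul_Mul _ ((T.S.oN i.1).se i.2.2 i.2.1)) fun _ _ _ hh hC => hh.mono hC
  obtain ⟨c5, e5, h5⟩ := exists_const (fun i : Fin n × Fin n × Fin n × Fin n =>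
    T.S.sml_Wmul i.1 _ ((T.S.oN i.2.1).se i.2.2.2 i.2.2.1))
    fun _ _ _ hh hC => hh.mono le_rfl hC
  obtain ⟨c6, e6, h6⟩ := exists_const (fun i : Fin n × Fin n => T.S.sml_NW i.1 i.2)
    fun _ _ _ hh hC => hh.mono le_rfl hC
  obtain ⟨c7, e7, h7⟩ := exists_const (fun i : Fin n × Fin n => T.S.smv_NN i.1 i.2)
    fun _ _ _ hh hC => hh.mono hC
  obtain ⟨c8, e8, h8⟩ := exists_const (fun i : Fin n × Fin n => T.S.sml_WW i.1 i.2)
    fun _ _ _ hh hC => hh.mono le_rfl hC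
  obtain ⟨c9, e9, h9⟩ := exists_const (fun i : Fin n × Fin n => T.S.sml_WN i.1 i.2)
    fun _ _ _ hh hC => hh.mono le_rfl hC
  obtain ⟨c10, e10, h10⟩ := exists_const (fun b : Fin n => T.C.eu_op (hr0 b))
    fun _ _ _ hh hC => hh.mono hC
  obtain ⟨c11, e11, h11⟩ := exists_const (fun i : Fin n × Fin n =>
    T.C.mul_Mul _ (T.sLt i.2 i.1)) fun _ _ _ hh hC => hh.mono hC
  obtain ⟨c12, e12, h12⟩ := exists_const (fun a : Fin n => T.C.mul_Mul _ (T.sll a))
    fun _ _ _ hh hC => hh.mono hC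
  obtain ⟨c13, h13⟩ := T.eul h
  obtain ⟨c, hc⟩ : ∃ c : ℝ, c = |c1| + c2 + c3 + c4 + c5 + c6 + c7 + c8 + c9 + c10 + c11 + c12 +
    |c13| := ⟨_, rfl⟩
  have a1 := abs_nonneg c1
  have a13 := abs_nonneg c13
  have b1 := le_abs_self c1
  have b13 := le_abs_self c13
  refine ⟨c,
    { X := T.C.op (oX T.rm)
      ν := T.C.mul _ (T.C.sm_dv T.rm.sm_spray)
      W := T.S.Wo
      W' := T.S.Wo'
      N := T.S.N
      N' := T.S.N'
      Mm := fun b c => T.C.mul _ (T.sMt c b)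
      Lm := fun b c => T.C.mul _ (T.sLt c b)
      R := fun b => T.C.op (r b)
      th := fun a => T.C.mul _ (T.sth a)
      l := fun a => T.C.mul _ (T.sll a)
      θ := fun c b e => T.C.mul _ ((T.S.oN c).se e b)
      U := T.U h
      hC := by linarith
      hc := T.hc
      XY := fun a P => T.C.op_Y_zero (fun _ _ => rfl) a P
      Xadj := T.adjX
      νm := h1.mono (by linarith)
      Wadj := fun b => T.C.adj_op _
      Nadj := fun b => T.C.adj_op _
      WD := h2 c (by linarith)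
      WY := h3 c (by linarith)
      ND := fun b a P => T.C.D_op (T.S.oN a) b P
      θbd := fun a b e => (h4 c (by linarith) (a, b, e)).bd
      θsm := fun a a' b e => h5 c (by linarith) (a, a', b, e)
      NW := fun a b => h6 c (by linarith) (a, b)
      NN := fun a b => h7 c (by linarith) (a, b)
      WW := fun a b => h8 c (by linarith) (a, b)
      WN := fun a b => h9 c (by linarith) (a, b)
      XW := fun b P => ?_
      Reu := h10 c (by linarith)
      Lbd := fun a b => (h11 c (by linarith) (a, b)).bd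
      lbd := fun a => (h12 c (by linarith) a).bd
      pd := T.pdj
      nN := fun k hk a => T.nN h hk a
      nX := fun k hk => T.nX h hk
      eul := fun k hk => (h13 k hk).trans (mul_le_mul_of_nonneg_right
        (mul_le_mul_of_nonneg_right (by linarith) (by positivity)) (T.C.jet.nm_nonneg _ _)) },
    rfl, rfl⟩
  have e := LinearMap.congr_fun (T.C.op_br (oX T.rm) (T.S.oW b)) P
  rw [hr1 b P] at e
  exact e

theorem bound (h : Sol g d K Ω w f) : ∃ A : ℝ, 1 ≤ A ∧ ∀ j,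
    ∑ b, T.C.jet.ip j (T.S.Wo b (T.U h)) (T.S.Wo b (T.U h)) +
      ((j : ℝ) + 1) * T.C.jet.ip (j + 1) (T.U h) (T.U h) ≤
      A ^ (j + 1) * ((j + 1).factorial : ℝ) := by
  obtain ⟨c, H, h1, h2⟩ := T.recD h
  obtain ⟨A, hA, hb⟩ := H.bound
  refine ⟨A, hA, fun j => ?_⟩
  have := hb j
  simpa only [RecD.en, RecD.be, h1, h2] using this

end S1D

end Pool.Agent.Lib.MP_45f3cb_gt.Fa
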