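import Pool.Agent.Lib.MP_45f3cb_gt.Fa.S2A
import Pool.Agent.Lib.MP_45f3cb_gt.Fa.FmA
import Pool.Agent.Lib.MP_45f3cb_gt.Fa.NumC
import Pool.Agent.Lib.MP_45f3cb_gt.Fa.NumH
import Pool.Agent.Lib.MP_45f3cb_gt.Fa.FoA

/-!
Step 2: definitions.
-/

open Set MeasureTheory Filter Topology Matrix

namespace Pool.Agent.Lib.MP_45f3cb_gt.Fa

variable {n : ℕ}

namespace S2G

variable {g : V n → Mat n} {Φ₀ : V n → ℝ} {x₀ : V n} {K : Set (V n)} {O Ω : Set (Z n)}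
  (T : S2G g Φ₀ x₀ K O)

/-- the weight -/
def Φ (z : Z n) : ℝ := Φ₀ z.1 - T.ψ₀ z.2

/-- the cut-off -/
def η (z : Z n) : ℝ := T.η₀ z.1 * T.η₁ z.2

theorem sΦz : Sm T.Φ := (T.sΦ.comp contDiff_fst).sub (T.sψ₀.comp contDiff_snd)

theorem sη : Sm T.η := (T.sη₀.comp contDiff_fst).mul (T.sη₁.comp contDiff_snd)

/-- the jet space -/
def C : Ctx n :=
  ⟨(Metric.closedBall x₀ T.r ∩ K) ×ˢ T.S₂,
    ((isCompact_closedBall x₀ T.r).inter_right T.clK).prod T.cS₂, fun _ => 1, contDiff_const,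
    fun _ => one_pos⟩

/-- the trivial frame -/
noncomputable def F : FS T.C g :=
  ⟨T.rm, fun _ => 1, fun _ => 1, fun _ => 0, fun _ => 1, contDiff_const, MSm.const 1, MSm.const 0,
    MSm.const 1, fun _ _ => mul_one 1, fun z _ => by rw [mD_const]; simp⟩

theorem EE_eq (z : Z n) : T.F.EE z = 1 := by
  simp [FS.EE, F]

theorem nn_hat {w : Z n → ℝ} (hw : Sm w) (N : ℕ) (z : Z n) :
    nn N (fun y => hat T.F.EE w (z, y)) 0 = jn N w z := by
  simp only [hat, T.EE_eq, one_mulVec]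
  exact nn_shift (P := fun y => w (z.1, y)) (hw.comp (contDiff_const.prodMk contDiff_id)) N z.2

theorem S20_sm (τ : ℝ) : Sm fun z => Real.exp (τ * T.Φ z) * T.η z :=
  (contDiff_const.mul T.sΦz).exp.mul T.sη

theorem S20_mem {w : Z n → ℝ} (hw : Sm w) (h : ∀ z : Z n, z.1 ∉ K → w z = 0) (τ : ℝ) :
    (fun q : W n => Real.exp (τ * T.Φ q.1) * T.η q.1 * hat T.F.EE w q) ∈ T.C.M := by
  refine ⟨((T.S20_sm τ).comp contDiff_fst).mul (sm_hat T.F.sEE hw), fun z hz y => ?_⟩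
  by_contra h0
  have h1 := right_ne_zero_of_mul (left_ne_zero_of_mul h0)
  exact hz ⟨⟨T.η₀_supp _ (left_ne_zero_of_mul h1), by_contra fun h2 =>
    right_ne_zero_of_mul h0 (h _ h2)⟩, T.η₁_supp _ (right_ne_zero_of_mul h1)⟩

variable {d : ℕ} {w f : Z n → ℝ} {A : ℝ}

theorem V_mem (h : Sol g d K Ω w f) (τ : ℝ) :
    (fun q : W n => Real.exp (τ * T.Φ q.1) * T.η q.1 * hat T.F.EE w q) ∈ T.C.M :=
  T.S20_mem h.smw h.off τ

/-- the conjugated lift -/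
noncomputable def Vt (h : Sol g d K Ω w f) (τ : ℝ) : T.C.M := ⟨_, T.V_mem h τ⟩

/-- the weighted norm of level `N` -/
noncomputable def IN (w : Z n → ℝ) (τ : ℝ) (N : ℕ) : ℝ :=
  ∫ z, (Real.exp (τ * T.Φ z) * T.η z) ^ 2 * jn N w z

/-- the weighted norm -/
noncomputable def NN (w : Z n → ℝ) (ρ τ : ℝ) (N₁ : ℕ) : ℝ :=
  ∑ N ∈ Finset.range N₁, om ρ N₁ N * T.IN w τ N

/-- the weighted norm of the source -/
noncomputable def FF (d : ℕ) (f : Z n → ℝ) (τ : ℝ) : ℝ :=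
  ∫ x, (Real.exp (τ * Φ₀ x) * T.η₀ x) ^ 2 * jn (d + 1) f (x, 0)

theorem ip_V (h : Sol g d K Ω w f) (τ : ℝ) (N : ℕ) :
    T.C.jet.ip N (T.Vt h τ) (T.Vt h τ) = T.IN w τ N := by
  rw [Ctx.ip_eq]
  refine integral_congr_ae (Eventually.of_forall fun z => ?_)
  have := nn_mul (P := fun y => hat T.F.EE w (z, y))
    ((sm_hat T.F.sEE h.smw).comp (contDiff_const.prodMk contDiff_id))
    (Real.exp (τ * T.Φ z) * T.η z) N 0
  rw [T.nn_hat h.smw] at this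
  exact (one_mul _).trans this

/-- conjugation. Sketch: `OD.app_mul`, chain rule for `exp (τ Φ) η`. -/
theorem conj (h : Sol g d K Ω w f) (τ : ℝ) (o : OD n) {ξ : Z n → Z n} (hξ : Sm ξ)
    (he : ∀ z, o.ξ z = ξ z) (q : W n) :
    ((T.C.op o - τ • T.C.mul _ (sm_fderiv_app T.sΦz hξ)) (T.Vt h τ)).1 q =
      Real.exp (τ * T.Φ q.1) * (T.η q.1 * o.app (hat T.F.EE w) q +
        fderiv ℝ T.η q.1 (ξ q.1) * hat T.F.EE w q) := by
  have h1 := o.app_mul (T.S20_sm τ) (sm_hat T.F.sEE h.smw) q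
  have h2 := ((((T.sΦz.dAt q.1).hasFDerivAt.const_mul τ).exp).mul
    (T.sη.dAt q.1).hasFDerivAt).fderiv
  have h3 := T.C.mul_apply _ (sm_fderiv_app T.sΦz hξ) (T.Vt h τ) q
  rw [LinearMap.sub_apply, LinearMap.smul_apply, Submodule.coe_sub, Submodule.coe_smul,
    Pi.sub_apply, Pi.smul_apply, h3, Ctx.op_apply]
  change o.app (fun q : W n => Real.exp (τ * T.Φ q.1) * T.η q.1 * hat T.F.EE w q) q -
    τ * (_ * (Real.exp (τ * T.Φ q.1) * T.η q.1 * hat T.F.EE w q)) = _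
  rw [h1, show (fun z => Real.exp (τ * T.Φ z) * T.η z) =
    (fun z => Real.exp (τ * T.Φ z)) * T.η from rfl, h2, he]
  simp only [_root_.add_apply, _root_.smul_apply, smul_eq_mul]
  ring

theorem src_mem (h : Sol g d K Ω w f) (τ : ℝ) :
    (fun q : W n => Real.exp (τ * T.Φ q.1) * T.η q.1 * hat T.F.EE f q) ∈ T.C.M :=
  T.S20_mem h.smf h.offf τ

/-- the localising factor -/
noncomputable def kk (ω : V n → ℝ) (τ : ℝ) (x₁ x : V n) : ℝ :=
  ω (Real.sqrt τ • (x - x₁)) * (Real.exp (τ * Φ₀ x) * T.η₀ x)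

/-- the size of the coefficients -/
noncomputable def hh (τ : ℝ) (x : V n) : ℝ :=
  Real.exp (τ * Φ₀ x) ^ 2 * (τ * T.η₀ x ^ 2 + ∑ c, pd c T.η₀ x ^ 2)

theorem sm_kk {ω : V n → ℝ} (hω : Sm ω) (τ : ℝ) (x₁ : V n) : Sm (T.kk ω τ x₁) :=
  (hω.comp ((contDiff_id.sub contDiff_const).const_smul _)).mul
    ((contDiff_const.mul T.sΦ).exp.mul T.sη₀)

/-- the combination of levels in the remainder -/
noncomputable def cj (w : Z n → ℝ) (N : ℕ) (z : Z n) : ℝ :=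
  ((N : ℝ) + 1) * jn (N + 1) w z + ((N : ℝ) + 1) ^ 2 * jn N w z + (N : ℝ) ^ 3 * jn (N - 1) w z

/-- the fibre density of the right hand side -/
noncomputable def dens (w : Z n → ℝ) (ρ : ℝ) (N₂ : ℕ) (z : Z n) : ℝ :=
  ∑ N ∈ Finset.range (N₂ + 1), omp (ρ / 2) N * cj w N z +
    omp (ρ / 2) N₂ * ∑ e, (jn N₂ (dx e w) z + jn N₂ w z)

theorem cont_dens (hw : Sm w) (ρ : ℝ) (N₂ : ℕ) : Continuous (dens w ρ N₂) :=
  (continuous_finsetSum _ fun _ _ => continuous_const.mul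
    (((continuous_const.mul (cont_jn hw _)).add (continuous_const.mul (cont_jn hw _))).add
      (continuous_const.mul (cont_jn hw _)))).add
    (continuous_const.mul (continuous_finsetSum _ fun e _ =>
      (cont_jn (hw.dx e) _).add (cont_jn hw _)))

end S2G

end Pool.Agent.Lib.MP_45f3cb_gt.Fa
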