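import Pool.Agent.Lib.MP_45f3cb_gt.Fa.GeoA

/-!
Step 2: cut-offs and weights.
-/

open Set MeasureTheory Filter Topology Matrix

namespace Pool.Agent.Lib.MP_45f3cb_gt.Fa

variable {n : ℕ}

/-- cut-offs and weights near the tangent directions at `x₀` -/
structure S2G (g : V n → Mat n) (Φ₀ : V n → ℝ) (x₀ : V n) (K : Set (V n)) (O : Set (Z n)) where
  rm : RM g
  sΦ : Sm Φ₀
  clK : IsClosed K
  cO : IsCompact O
  η₀ : V n → ℝ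
  η₁ : V n → ℝ
  ψ₀ : V n → ℝ
  ψ : V n → ℝ
  S : Set (V n)
  S₂ : Set (V n)
  r : ℝ
  ρ₂ : ℝ
  ε₀ : ℝ
  c₀ : ℝ
  sη₀ : Sm η₀
  sη₁ : Sm η₁
  sψ₀ : Sm ψ₀
  sψ : Sm ψ
  hr : 0 < r
  hρ₂ : 0 < ρ₂
  hε₀ : 0 < ε₀
  hc₀ : 0 < c₀
  cS : IsCompact S
  cS₂ : IsCompact S₂
  sub₂ : S ⊆ S₂
  η₀_supp : ∀ x, η₀ x ≠ 0 → x ∈ Metric.closedBall x₀ r
  η₀_one : ∀ᶠ x in 𝓝 x₀, η₀ x = 1
  η₁_supp : ∀ v, η₁ v ≠ 0 → v ∈ S₂
  η₁_one : ∀ v ∈ S, η₁ v = 1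
  ψ₀_zero : ∀ v ∈ S, ψ₀ v = 0
  ψ₀_nonneg : ∀ v, 0 ≤ ψ₀ v
  sub : Metric.closedBall x₀ r ×ˢ S₂ ⊆ O
  zero : Φ₀ x₀ = 0
  neg : ∀ x ∈ K, Φ₀ x ≤ 0
  cut₀ : ∀ x ∈ K, fderiv ℝ η₀ x ≠ 0 → Φ₀ x ≤ -ε₀
  cut₁ : ∀ v, fderiv ℝ η₁ v ≠ 0 → ε₀ ≤ ψ₀ v
  low : ∀ x ∈ Metric.closedBall x₀ r, ∀ v ∈ S₂,
    c₀ ≤ ∑ b, (pd b Φ₀ x + ∑ i, 2 * Gv g (x, v) i b * pd i ψ₀ v) ^ 2
  ψ_supp : ∀ y, ψ y ≠ 0 → y ∈ S
  ψ_nonneg : ∀ y, 0 ≤ ψ y
  ψ_pos : 0 < ∫ y, ψ y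
  dir : ∀ x₁ ∈ Metric.closedBall x₀ (2 * r), ∀ ξ : V n, ∃ v₀, ξ ⬝ᵥ v₀ = 0 ∧
    (fun c => pd c Φ₀ x₁) ⬝ᵥ v₀ = 0 ∧ Metric.closedBall v₀ ρ₂ ⊆ S
  nbh : ∀ v, gi g x₀ v v = 1 → fderiv ℝ Φ₀ x₀ v = 0 → S ∈ 𝓝 v

/-- the defining function of the set of tangent unit vectors -/
noncomputable def qq (B : Mat n) (l v : V n) : ℝ := (v ⬝ᵥ (B *ᵥ v) - 1) ^ 2 + (l ⬝ᵥ v) ^ 2

theorem sm_qq (B : Mat n) (l : V n) : Sm (qq B l) := by
  unfold qq Sm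
  simp only [dotProduct, Matrix.mulVec]
  fun_prop

theorem S2A_pos {B : Mat n} (hB : B.PosDef) {v : V n} (hv : v ≠ 0) : 0 < v ⬝ᵥ (B *ᵥ v) := by
  simpa using hB.dotProduct_mulVec_pos hv

theorem S2A_smul (B : Mat n) (c : ℝ) (v : V n) :
    (c • v) ⬝ᵥ (B *ᵥ (c • v)) = c ^ 2 * (v ⬝ᵥ (B *ᵥ v)) := by
  rw [Matrix.mulVec_smul, smul_dotProduct, dotProduct_smul, smul_eq_mul, smul_eq_mul]
  ring

theorem S2A_low {B : Mat n} (hB : B.PosDef) :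
    ∃ m : ℝ, 0 < m ∧ ∀ v : V n, m * ‖v‖ ^ 2 ≤ v ⬝ᵥ (B *ᵥ v) := by
  have hc : Continuous fun v : V n => v ⬝ᵥ (B *ᵥ v) := by
    simp only [dotProduct, Matrix.mulVec]
    fun_prop
  obtain ⟨m, hm, h⟩ := (isCompact_sphere (0 : V n) 1).exists_forall_le' (a := 0) hc.continuousOn
    fun v hv => S2A_pos hB (by
      rintro rfl
      simp at hv)
  refine ⟨m, hm, fun v => ?_⟩
  by_cases hv : v = 0
  · simp [hv]
  have hn : 0 < ‖v‖ := norm_pos_iff.2 hv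
  have h1 := h (‖v‖⁻¹ • v) (by simp [norm_smul, hn.ne'])
  rw [S2A_smul, inv_pow, ← div_eq_inv_mul, le_div_iff₀ (pow_pos hn 2)] at h1
  exact h1

theorem S2A_zero {B : Mat n} {l v : V n} : qq B l v = 0 ↔ v ⬝ᵥ (B *ᵥ v) = 1 ∧ l ⬝ᵥ v = 0 := by
  unfold qq
  rw [add_eq_zero_iff_of_nonneg (sq_nonneg _) (sq_nonneg _), pow_eq_zero_iff two_ne_zero,
    pow_eq_zero_iff two_ne_zero, sub_eq_zero]

theorem S2A_nonneg (B : Mat n) (l v : V n) : 0 ≤ qq B l v := add_nonneg (sq_nonneg _) (sq_nonneg _)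

theorem cpt_qq {B : Mat n} (hB : B.PosDef) (l : V n) (s : ℝ) : IsCompact {v | qq B l v ≤ s} := by
  obtain ⟨m, hm, h⟩ := S2A_low hB
  refine Metric.isCompact_of_isClosed_isBounded
    (isClosed_le (sm_qq B l).continuous continuous_const) ?_
  refine (Metric.isBounded_closedBall (x := (0 : V n)) (r := 1 + (2 + s) / m)).subset fun v hv => ?_
  have h1 : (v ⬝ᵥ (B *ᵥ v) - 1) ^ 2 + (l ⬝ᵥ v) ^ 2 ≤ s := hv
  have h2 : ‖v‖ ^ 2 ≤ (2 + s) / m := by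
    rw [le_div_iff₀ hm]
    nlinarith [h v, sq_nonneg (l ⬝ᵥ v), sq_nonneg (v ⬝ᵥ (B *ᵥ v) - 2)]
  rw [mem_closedBall_zero_iff]
  nlinarith [sq_nonneg (‖v‖ - 1), norm_nonneg v]

/-- Sketch: the interior of `O` contains `{x₀} ×ˢ {qq = 0}`; `generalized_tube_lemma`; on the compact
set `{qq ≤ 1}` minus an open neighbourhood of `{qq = 0}` the function has a positive minimum. -/
theorem geoA {B : Mat n} (hB : B.PosDef) (l x₀ : V n) {O : Set (Z n)}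
    (h : ∀ v, qq B l v = 0 → O ∈ 𝓝 (x₀, v)) : ∃ r δ : ℝ, 0 < r ∧ 0 < δ ∧
      Metric.closedBall x₀ r ×ˢ {v | qq B l v ≤ 4 * δ} ⊆ O := by
  have hq := (sm_qq B l).continuous
  have key : ∀ᶠ p : V n × ℝ in 𝓝 (x₀, 0), ∀ v ∈ {v | qq B l v ≤ 1},
      qq B l v ≤ 4 * p.2 → (p.1, v) ∈ O := by
    refine (cpt_qq hB l 1).eventually_forall_of_forall_eventually fun v _ => ?_
    rcases (S2A_nonneg B l v).eq_or_lt with h0 | h0
    · have hc : Continuous fun z : (V n × ℝ) × V n => (z.1.1, z.2) := by fun_prop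
      have h1 : ∀ᶠ z : (V n × ℝ) × V n in 𝓝 ((x₀, 0), v), (z.1.1, z.2) ∈ O :=
        hc.continuousAt.preimage_mem_nhds (h v h0.symm)
      exact h1.mono fun z hz _ => hz
    · have h1 : ∀ᶠ z : (V n × ℝ) × V n in 𝓝 ((x₀, 0), v), 4 * z.1.2 < qq B l z.2 :=
        ContinuousAt.eventually_lt (by fun_prop) (hq.comp continuous_snd).continuousAt (by simpa)
      exact h1.mono fun z hz h2 => absurd h2 (not_le.2 hz)
  obtain ⟨t, ht, h1⟩ := Metric.nhds_basis_closedBall.eventually_iff.1 key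
  have hd : 0 < min t (1 / 4) := lt_min ht (by norm_num)
  refine ⟨t, min t (1 / 4), ht, hd, ?_⟩
  rintro ⟨x, v⟩ ⟨hx, hv⟩
  have hv' : qq B l v ≤ 4 * min t (1 / 4) := hv
  refine h1 (x := (x, min t (1 / 4))) ?_ v ?_ hv'
  · rw [← closedBall_prod_same]
    refine ⟨hx, ?_⟩
    rw [mem_closedBall_zero_iff, Real.norm_of_nonneg hd.le]
    exact min_le_left _ _
  · have := min_le_right t (1 / 4)
    show qq B l v ≤ 1
    linarith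

theorem S2A_ker (hn : 3 ≤ n) {B : Mat n} (hB : B.PosDef) (l ξ : V n) :
    ∃ v, ξ ⬝ᵥ v = 0 ∧ l ⬝ᵥ v = 0 ∧ v ⬝ᵥ (B *ᵥ v) = 1 := by
  have hk : LinearMap.ker ((dotProductBilin ℝ ℝ ξ).prod (dotProductBilin ℝ ℝ l)) ≠ ⊥ :=
    LinearMap.ker_ne_bot_of_finrank_lt (by simp; omega)
  obtain ⟨u, hu, hu0⟩ := Submodule.exists_mem_ne_zero_of_ne_bot hk
  have h1 : ξ ⬝ᵥ u = 0 ∧ l ⬝ᵥ u = 0 := by simpa using hu
  have h2 := S2A_pos hB hu0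
  refine ⟨(√(u ⬝ᵥ (B *ᵥ u)))⁻¹ • u, by simp [h1.1], by simp [h1.2], ?_⟩
  rw [S2A_smul, inv_pow, Real.sq_sqrt h2.le, inv_mul_cancel₀ h2.ne']

/-- Sketch: a nonzero vector in the kernel of `v ↦ (ξ ⬝ v, l' ⬝ v)` (dimension count), normalised;
uniform continuity of `qq` on `{qq ≤ δ}` thickened. -/
theorem geoB (hn : 3 ≤ n) {B : Mat n} (hB : B.PosDef) (l : V n) {δ : ℝ} (hδ : 0 < δ) :
    ∃ ε ρ₂ : ℝ, 0 < ε ∧ 0 < ρ₂ ∧ ∀ l' ξ : V n, ‖l' - l‖ ≤ ε → ∃ v₀, ξ ⬝ᵥ v₀ = 0 ∧ l' ⬝ᵥ v₀ = 0 ∧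
      Metric.closedBall v₀ ρ₂ ⊆ {v | qq B l v ≤ δ} := by
  have hq := (sm_qq B l).continuous
  have key : ∀ᶠ p : V n × V n in 𝓝 (l, 0), ∀ v ∈ {v | qq B 0 v ≤ 0},
      p.1 ⬝ᵥ v = 0 → qq B l (v + p.2) ≤ δ := by
    refine (cpt_qq hB 0 0).eventually_forall_of_forall_eventually fun v hv => ?_
    by_cases h0 : l ⬝ᵥ v = 0
    · have h2 : qq B l v = 0 :=
        S2A_zero.2 ⟨(S2A_zero.1 (le_antisymm hv (S2A_nonneg B 0 v))).1, h0⟩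
      have h1 : ∀ᶠ z : (V n × V n) × V n in 𝓝 ((l, 0), v), qq B l (z.2 + z.1.2) < δ :=
        ContinuousAt.eventually_lt (hq.comp (by fun_prop)).continuousAt continuousAt_const
          (by simpa [h2])
      exact h1.mono fun z hz _ => hz.le
    · have hc : Continuous fun z : (V n × V n) × V n => z.1.1 ⬝ᵥ z.2 := by
        simp only [dotProduct]
        fun_prop
      have h1 : ∀ᶠ z : (V n × V n) × V n in 𝓝 ((l, 0), v), z.1.1 ⬝ᵥ z.2 ≠ 0 :=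
        hc.continuousAt.eventually_ne h0
      exact h1.mono fun z hz h2 => absurd h2 hz
  obtain ⟨t, ht, h1⟩ := Metric.nhds_basis_closedBall.eventually_iff.1 key
  refine ⟨t, t, ht, ht, fun l' ξ hl => ?_⟩
  obtain ⟨v, a1, a2, a3⟩ := S2A_ker hn hB l' ξ
  refine ⟨v, a1, a2, fun y hy => ?_⟩
  have h2 := h1 (x := (l', y - v)) (by
    rw [← closedBall_prod_same]
    exact ⟨mem_closedBall_iff_norm.2 hl,
      mem_closedBall_zero_iff.2 (mem_closedBall_iff_norm.1 hy)⟩) v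
    (S2A_zero.2 ⟨a3, zero_dotProduct v⟩).le a2
  simpa using h2

theorem S2A_fd (u : V n → ℝ) (x w : V n) : fderiv ℝ u x w = (fun c => pd c u x) ⬝ᵥ w := by
  rw [fderiv_eq_sum_pd]
  exact Finset.sum_congr rfl fun i _ => mul_comm _ _

theorem S2A_par {g : V n → Mat n} (h : RM g) {Φ₀ ψ₁ : V n → ℝ} (hΦ : Sm Φ₀) (hψ : Sm ψ₁) {x₀ : V n}
    (hd : fderiv ℝ Φ₀ x₀ ≠ 0) {T : Set (V n)} (hT : IsCompact T) {ε : ℝ} (hε : 0 < ε) :
    ∃ t c : ℝ, 0 < t ∧ 0 < c ∧ ∀ x ∈ Metric.closedBall x₀ t,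
      ‖(fun c => pd c Φ₀ x : V n) - fun c => pd c Φ₀ x₀‖ ≤ ε ∧ ∀ v ∈ T,
        c ≤ ∑ b, (pd b Φ₀ x + ∑ i, 2 * Gv g (x, v) i b * (t * pd i ψ₁ v)) ^ 2 := by
  have hc : 0 < ∑ b, pd b Φ₀ x₀ ^ 2 := by
    refine (Finset.sum_nonneg fun b _ => sq_nonneg _).lt_of_ne fun h0 => hd ?_
    have h1 := (Finset.sum_eq_zero_iff_of_nonneg fun b _ => sq_nonneg _).1 h0.symm
    ext w
    rw [fderiv_eq_sum_pd]
    exact Finset.sum_eq_zero fun i hi => by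
      rw [pow_eq_zero_iff two_ne_zero |>.1 (h1 i hi), mul_zero]
  have c1 : ∀ b, Continuous (pd b Φ₀) := fun b => (hΦ.pd b).continuous
  have c2 : ∀ b, Continuous (pd b ψ₁) := fun b => (hψ.pd b).continuous
  have c3 : ∀ i b, Continuous fun z => Gv g z i b := fun i b => (h.sm_Gv i b).continuous
  have k1 : ∀ᶠ p : V n × ℝ in 𝓝 (x₀, 0), ∀ v ∈ T, (∑ b, pd b Φ₀ x₀ ^ 2) / 2 <
      ∑ b, (pd b Φ₀ p.1 + ∑ i, 2 * Gv g (p.1, v) i b * (p.2 * pd i ψ₁ v)) ^ 2 := by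
    refine hT.eventually_forall_of_forall_eventually fun v _ => ?_
    have hF : Continuous fun z : (V n × ℝ) × V n =>
        ∑ b, (pd b Φ₀ z.1.1 + ∑ i, 2 * Gv g (z.1.1, z.2) i b * (z.1.2 * pd i ψ₁ z.2)) ^ 2 :=
      continuous_finsetSum _ fun b _ => (((c1 b).comp (by fun_prop)).add
        (continuous_finsetSum _ fun i _ => (continuous_const.mul ((c3 i b).comp
          (f := fun z : (V n × ℝ) × V n => (z.1.1, z.2)) (by fun_prop))).mul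
          ((continuous_snd.comp continuous_fst).mul ((c2 i).comp continuous_snd)))).pow 2
    exact ContinuousAt.eventually_lt continuousAt_const hF.continuousAt (by simpa using hc)
  have k2 : ∀ᶠ p : V n × ℝ in 𝓝 (x₀, 0),
      ‖(fun c => pd c Φ₀ p.1 : V n) - fun c => pd c Φ₀ x₀‖ < ε :=
    ContinuousAt.eventually_lt (((continuous_pi fun c => (c1 c).comp continuous_fst).sub
      continuous_const).norm).continuousAt continuousAt_const (by simpa using hε)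
  obtain ⟨t, ht, h1⟩ := Metric.nhds_basis_closedBall.eventually_iff.1 (k1.and k2)
  refine ⟨t, _, ht, half_pos hc, fun x hx => ?_⟩
  have h2 := h1 (x := (x, t)) (by
    rw [← closedBall_prod_same]
    exact ⟨hx, mem_closedBall_zero_iff.2 (Real.norm_of_nonneg ht.le).le⟩)
  exact ⟨h2.2.le, fun v hv => (h2.1 v hv).le⟩

/-- Sketch: `geoA`, `geoB`; `S = {qq ≤ δ}`, `S₂ = {qq ≤ 4 δ}`, `η₁ = step' (2 δ, 3 δ) ∘ qq`,
`ψ₀ = ε₂ * step (δ, 2 δ) ∘ qq` with `ε₂` small (`exists_step`, `exists_step'`), `η₀` a bump that is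
`1` on `closedBall x₀ (r / 2)`, `ψ` a bump at a point `v₀` of `geoB`, `ε₀ = min (r² / 4) ε₂`. -/
theorem exists_S2G (hn : 3 ≤ n) {g : V n → Mat n} (h : RM g) {Φ₀ : V n → ℝ} (hΦ : Sm Φ₀) {x₀ : V n}
    {K : Set (V n)} (hK : IsClosed K) (h0 : Φ₀ x₀ = 0) (hd : fderiv ℝ Φ₀ x₀ ≠ 0)
    (hle : ∀ x ∈ K, Φ₀ x ≤ -‖x - x₀‖ ^ 2) {O : Set (Z n)} (hO : IsCompact O)
    (hn' : ∀ v, gi g x₀ v v = 1 → fderiv ℝ Φ₀ x₀ v = 0 → O ∈ 𝓝 (x₀, v)) :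
    Nonempty (S2G g Φ₀ x₀ K O) := by
  obtain ⟨l, hl⟩ : ∃ l : V n, l = fun c => pd c Φ₀ x₀ := ⟨_, rfl⟩
  have hB := h.pos x₀
  have hq := sm_qq (g x₀) l
  have hz : ∀ v, qq (g x₀) l v = 0 ↔ gi g x₀ v v = 1 ∧ fderiv ℝ Φ₀ x₀ v = 0 := fun v => by
    rw [S2A_zero, gi_eq, S2A_fd, hl]
  obtain ⟨r₁, δ, hr₁, hδ, hsub⟩ := geoA hB l x₀ fun v hv => hn' v ((hz v).1 hv).1 ((hz v).1 hv).2
  obtain ⟨ε, ρ₂, hε, hρ₂, hdir⟩ := geoB hn hB l hδ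
  obtain ⟨χ, a1, a2, -, a4, a5, -⟩ := exists_step (show δ < 2 * δ by linarith)
  obtain ⟨θ, b1, -, -, b4, b5, -⟩ := exists_step' (show 2 * δ < 3 * δ by linarith)
  have s1 : Sm fun v => χ (qq (g x₀) l v) := a1.comp hq
  obtain ⟨t, c, ht, hc, hpar⟩ := S2A_par h hΦ s1 hd (cpt_qq hB l (4 * δ)) hε
  obtain ⟨v₀, -, -, hv₀⟩ := hdir l 0 (by simpa using hε.le)
  obtain ⟨r, hr, r1, r2⟩ : ∃ r, 0 < r ∧ r ≤ r₁ ∧ 2 * r ≤ t :=
    ⟨min r₁ (t / 2), lt_min hr₁ (half_pos ht), min_le_left _ _, by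
      have := min_le_right r₁ (t / 2)
      linarith⟩
  let f₀ : ContDiffBump x₀ := ⟨r / 2, r, half_pos hr, half_lt_self hr⟩
  let f₁ : ContDiffBump v₀ := ⟨ρ₂ / 2, ρ₂, half_pos hρ₂, half_lt_self hρ₂⟩
  refine ⟨{
    rm := h, sΦ := hΦ, clK := hK, cO := hO, η₀ := f₀, η₁ := fun v => θ (qq (g x₀) l v)
    ψ₀ := fun v => t * χ (qq (g x₀) l v), ψ := f₁, S := {v | qq (g x₀) l v ≤ δ}
    S₂ := {v | qq (g x₀) l v ≤ 4 * δ}, r := r, ρ₂ := ρ₂, ε₀ := min ((r / 2) ^ 2) t, c₀ := c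
    sη₀ := f₀.contDiff, sη₁ := b1.comp hq, sψ₀ := contDiff_const.mul s1, sψ := f₁.contDiff
    hr := hr, hρ₂ := hρ₂, hε₀ := lt_min (pow_pos (half_pos hr) 2) ht, hc₀ := hc
    cS := cpt_qq hB l δ, cS₂ := cpt_qq hB l (4 * δ)
    sub₂ := fun v hv => le_trans (b := δ) hv (show δ ≤ 4 * δ by linarith)
    η₀_supp := fun x hx => Metric.ball_subset_closedBall (f₀.support_eq.subset hx)
    η₀_one := f₀.eventuallyEq_one
    η₁_supp := fun v hv => ?_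
    η₁_one := fun v hv => b4 _ (le_trans hv (by linarith))
    ψ₀_zero := fun v hv => by rw [a4 _ hv, mul_zero]
    ψ₀_nonneg := fun v => mul_nonneg ht.le (a2 _)
    sub := (prod_mono (Metric.closedBall_subset_closedBall r1) subset_rfl).trans hsub
    zero := h0
    neg := fun x hx => (hle x hx).trans (neg_nonpos.2 (sq_nonneg _))
    cut₀ := fun x hx h1 => ?_
    cut₁ := fun v h1 => ?_
    low := fun x hx v hv => ?_
    ψ_supp := fun y hy => hv₀ (Metric.ball_subset_closedBall (f₁.support_eq.subset hy))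
    ψ_nonneg := fun y => f₁.nonneg
    ψ_pos := f₁.integral_pos
    dir := fun x hx ξ =>
      hdir _ ξ (hl ▸ (hpar x (Metric.closedBall_subset_closedBall r2 hx)).1)
    nbh := fun v h1 h2 => ?_ }⟩
  · have h1 : qq (g x₀) l v < 3 * δ := not_le.1 fun h1 => hv (b5 _ h1)
    show qq (g x₀) l v ≤ 4 * δ
    linarith
  · have h2 : r / 2 ≤ ‖x - x₀‖ := not_lt.1 fun h2 => h1 (by
      rw [(f₀.eventuallyEq_one_of_mem_ball (mem_ball_iff_norm.2 h2)).fderiv_eq]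
      exact fderiv_const_apply 1)
    exact (hle x hx).trans
      (neg_le_neg ((min_le_left _ _).trans (pow_le_pow_left₀ (half_pos hr).le h2 2)))
  · have h2 : 2 * δ ≤ qq (g x₀) l v := not_lt.1 fun h2 => h1 (by
      have h3 : (fun v => θ (qq (g x₀) l v)) =ᶠ[𝓝 v] fun _ => 1 :=
        (hq.continuous.continuousAt.eventually_lt continuousAt_const h2).mono
          fun w hw => b4 _ hw.le
      rw [h3.fderiv_eq]
      exact fderiv_const_apply 1)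
    rw [a5 _ h2, mul_one]
    exact min_le_right _ _
  · have h2 : ∀ i, pd i (fun v => t * χ (qq (g x₀) l v)) v =
        t * pd i (fun v => χ (qq (g x₀) l v)) v := fun i => by
      simp only [pd]
      rw [fderiv_const_mul (s1.dAt v)]
      rfl
    simp only [h2]
    exact (hpar x (Metric.closedBall_subset_closedBall (by linarith) hx)).2 v hv
  · exact (hq.continuous.continuousAt.eventually_lt continuousAt_const
      (((hz v).2 ⟨h1, h2⟩).trans_lt hδ)).mono fun w hw => hw.le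

end Pool.Agent.Lib.MP_45f3cb_gt.Fa
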