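import Pool.Agent.Lib.MP_45f3cb_gt.Fa.S20
import Pool.Agent.Lib.MP_45f3cb_gt.Fa.FmB
import Pool.Agent.Lib.MP_45f3cb_gt.Fa.CarA

/-!
Step 2: the operators of the Carleman estimate.
-/

open Set MeasureTheory Filter Topology Matrix

namespace Pool.Agent.Lib.MP_45f3cb_gt.Fa

variable {n : ℕ}

theorem S2D_evt {ι : Type} [Finite ι] {p : ι → ℝ → Prop} (h : ∀ i, ∃ C, p i C)
    (hm : ∀ i C C', p i C → C ≤ C' → p i C') : ∀ᶠ C in atTop, ∀ i, p i C := by
  obtain ⟨C, -, hC⟩ := exists_const h hm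
  exact (eventually_ge_atTop C).mono hC

theorem S2D_mul {ι : Type} [Finite ι] (C : Ctx n) (a : ι → Z n → ℝ) (ha : ∀ i, Sm (a i)) :
    ∀ᶠ c in atTop, ∀ i, C.jet.Mul c (C.mul (a i) (ha i)) :=
  S2D_evt (p := fun i c => C.jet.Mul c (C.mul (a i) (ha i))) (fun i => C.mul_Mul (a i) (ha i))
    fun _ _ _ h h' => h.mono h'

theorem S2D_br {ι : Type} [Finite ι] (C : Ctx n) (o : ι → OD n) (a : ι → Z n → ℝ)
    (ha : ∀ i, Sm (a i)) : ∀ᶠ c in atTop, ∀ i,
      C.jet.Bd c (C.op (o i) * C.mul (a i) (ha i) - C.mul (a i) (ha i) * C.op (o i)) := by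
  refine (S2D_mul C (fun i z => fderiv ℝ (a i) z ((o i).ξ z))
    fun i => sm_fderiv_app (ha i) (o i).sξ).mono fun c hc i => ?_
  rw [C.br_mul]
  exact (hc i).bd

theorem S2D_low (C : Ctx n) (l : Fin n → Z n → ℝ) (hl : ∀ b, Sm (l b)) {c₀ : ℝ}
    (h : ∀ z ∈ C.K, c₀ ≤ ∑ b, l b z ^ 2) (k : ℕ) (P : C.M) :
    c₀ * C.jet.ip k P P ≤ ∑ b, C.jet.ip k (C.mul (l b) (hl b) P) (C.mul (l b) (hl b) P) := by
  have hq : Sm fun z => ∑ b, l b z ^ 2 - c₀ :=
    (ContDiff.sum fun b _ => (hl b).pow 2).sub contDiff_const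
  have h1 := C.quad (ι := Unit) (fun _ _ z => ∑ b, l b z ^ 2 - c₀) (fun _ _ => hq)
    (fun z hz s => by
      simp only [Finset.univ_unique, Finset.sum_singleton]
      rw [mul_assoc]
      exact mul_nonneg (sub_nonneg.2 (h z hz)) (mul_self_nonneg _)) k fun _ => P
  simp only [Finset.univ_unique, Finset.sum_singleton] at h1
  have h2 : C.mul _ hq P = ∑ b, C.mul (l b) (hl b) (C.mul (l b) (hl b) P) - c₀ • P := by
    refine Ctx.ext fun z _ y => ?_
    simp only [Ctx.mul_apply, Submodule.coe_sub, Submodule.coe_sum, Submodule.coe_smul,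
      Pi.sub_apply, Pi.smul_apply, Finset.sum_apply, smul_eq_mul]
    rw [sub_mul, Finset.sum_mul]
    congr 1
    exact Finset.sum_congr rfl fun b _ => by ring
  rw [h2, map_sub, map_sum, map_smul, smul_eq_mul] at h1
  have h3 : ∀ b, C.jet.ip k P (C.mul (l b) (hl b) (C.mul (l b) (hl b) P)) =
      C.jet.ip k (C.mul (l b) (hl b) P) (C.mul (l b) (hl b) P) := fun b => by
    obtain ⟨c, hc⟩ := C.mul_Mul (l b) (hl b)
    exact (hc.adj k P _).symm
  simp only [h3] at h1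
  linarith

namespace S2G

variable {g : V n → Mat n} {Φ₀ : V n → ℝ} {x₀ : V n} {K : Set (V n)} {O Ω : Set (Z n)}
  (T : S2G g Φ₀ x₀ K O)

theorem S2D_chi (o : OD n) : T.F.Chi o.ξ := ⟨o.ξ, o.sξ, fun z => by simp [F]⟩

theorem S2D_fderiv (z ζ : Z n) :
    fderiv ℝ T.Φ z ζ = fderiv ℝ Φ₀ z.1 ζ.1 - fderiv ℝ T.ψ₀ z.2 ζ.2 := by
  have h1 := ((T.sΦ.dAt z.1).hasFDerivAt.comp z hasFDerivAt_fst).sub
    ((T.sψ₀.dAt z.2).hasFDerivAt.comp z hasFDerivAt_snd)
  have h2 : fderiv ℝ T.Φ z = _ := h1.fderiv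
  rw [h2]
  rfl

theorem S2D_l (b : Fin n) (z : Z n) : fderiv ℝ T.Φ z (T.F.W0 b z) =
    -(pd b Φ₀ z.1 + ∑ i, 2 * Gv g (z.1, z.2) i b * pd i T.ψ₀ z.2) := by
  rw [S2D_fderiv, fderiv_eq_sum_pd, fderiv_eq_sum_pd]
  simp [FS.W0, F, Matrix.one_apply]
  ring

/-- Sketch: all commutators with multipliers are multipliers (`Ctx.br_mul`); every field has the
factor `χ = 1` (`FS.Chi.sml`, `Ctx.op_br`); `low` by `Ctx.quad` on `Unit`; `exists_const`. -/
theorem car : ∃ (c : ℝ) (H : Car T.C.jet c T.c₀), H.X = T.C.op (oX T.rm) ∧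
    H.a = T.C.mul _ (sm_fderiv_app T.sΦz T.rm.sm_spray) ∧ H.W = T.F.Wo ∧ H.N = T.F.N ∧
    (H.l = fun b => T.C.mul _ (sm_fderiv_app T.sΦz (T.F.sW0 b))) ∧
    H.m = fun b => T.C.mul _ (sm_fderiv_app T.sΦz (T.F.sY0 b)) := by
  have sν := T.C.sm_dv T.rm.sm_spray
  have sa := sm_fderiv_app T.sΦz T.rm.sm_spray
  have sl := fun b => sm_fderiv_app T.sΦz (T.F.sW0 b)
  have sm := fun b => sm_fderiv_app T.sΦz (T.F.sY0 b)
  have e1 := S2D_mul (ι := Unit) T.C _ fun _ => sν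
  have e2 := S2D_mul (ι := Unit) T.C _ fun _ => sa
  have e3 := S2D_mul T.C _ sl
  have e4 := S2D_mul T.C _ sm
  have e5 := S2D_br (ι := Unit) T.C (fun _ => (oX T.rm).adj T.C) _ fun _ => sa
  have e6 := S2D_br (ι := Unit) T.C (fun _ => (oX T.rm).adj T.C) _ fun _ => sν
  have e7 := S2D_br T.C (fun _ => (oX T.rm).adj T.C) _ sl
  have e8 := S2D_evt (p := fun b c => T.C.jet.Eu c (T.F.Wo' b + T.F.Wo b))
    (fun b => T.C.eu_adj (T.F.oW b)) fun _ _ _ h h' => h.mono h'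
  have e9 := S2D_evt (p := fun b c => T.C.jet.DC c (T.F.Wo b))
    (fun b => T.C.dc_op (T.F.oW b)) fun _ _ _ h h' => h.mono h'
  have e10 := S2D_br T.C (fun b => T.F.oW b) _ fun _ => sa
  have e11 := S2D_br (ι := Fin n × Fin n) T.C (fun i => T.F.oW i.1) _ fun i => sl i.2
  have e12 := S2D_br (ι := Fin n × Fin n) T.C (fun i => (T.F.oW i.1).adj T.C) _ fun i => sl i.2
  have e13 := S2D_evt (p := fun b c => T.C.jet.Sml T.F.Wo T.F.N c 0
      (T.C.op ((oX T.rm).adj T.C) * T.F.Wo b - T.F.Wo b * T.C.op ((oX T.rm).adj T.C)))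
    (fun b => by
      have h := FS.Chi.sml (T.S2D_chi (((oX T.rm).adj T.C).br (T.F.oW b)))
      rw [← Ctx.op_br] at h
      exact h) fun _ _ _ h h' => h.mono le_rfl h'
  have e14 := S2D_evt (ι := Fin n × Fin n) (p := fun i c => T.C.jet.Sml T.F.Wo T.F.N c 0
      (T.F.Wo i.1 * T.F.Wo' i.2 - T.F.Wo' i.2 * T.F.Wo i.1))
    (fun i => T.F.sml_WW i.1 i.2) fun _ _ _ h h' => h.mono le_rfl h'
  obtain ⟨c, h0, h1, h2, h3, h4, h5, h6, h7, h8, h9, h10, h11, h12, h13, h14⟩ :=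
    ((eventually_ge_atTop (1 : ℝ)).and (e1.and (e2.and (e3.and (e4.and (e5.and (e6.and (e7.and
      (e8.and (e9.and (e10.and (e11.and (e12.and (e13.and e14)))))))))))))).exists
  have hE : T.F.EE = fun _ => 1 := funext T.EE_eq
  refine ⟨c,
    { X := T.C.op (oX T.rm)
      X' := T.C.op ((oX T.rm).adj T.C)
      ν := T.C.mul _ sν
      a := T.C.mul _ sa
      W := T.F.Wo
      W' := T.F.Wo'
      N := T.F.N
      l := fun b => T.C.mul _ (sl b)
      m := fun b => T.C.mul _ (sm b)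
      hC := h0
      hc := T.hc₀
      XD := T.C.cd_op fun _ _ => rfl
      Xadj := T.C.adj_op _
      Xeq := T.C.op_adj_X T.rm
      νm := h1 ()
      am := h2 ()
      lm := h3
      mm := h4
      Xa := h5 ()
      Xν := h6 ()
      Xl := h7
      Wadj := fun b => T.C.adj_op _
      Weu := h8
      WD := h9
      Wa := h10
      Wl := fun c b => h11 (c, b)
      Wl' := fun c b => h12 (c, b)
      al := fun b => T.C.mul_comm' _ _ _ _
      ll := fun c b => T.C.mul_comm' _ _ _ _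
      XW := h13
      WW := fun c b => h14 (c, b)
      ND := fun c => T.C.cd_op fun z _ => ?_
      low := S2D_low T.C _ sl fun z hz => ?_ }, rfl, rfl, rfl, rfl, rfl, rfl⟩
  · show -(T.F.G z * mD T.F.EE z (T.F.Y0 c z)) = 0
    rw [hE, mD_const, mul_zero, neg_zero]
  · simp only [S2D_l, neg_sq]
    exact T.low z.1 hz.1.1 z.2 hz.2

end S2G

end Pool.Agent.Lib.MP_45f3cb_gt.Fa
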