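import Pool.Agent.Lib.MP_45f3cb_gt.Fa.S20
import Pool.Agent.Lib.MP_45f3cb_gt.Fa.FmC
import Pool.Agent.Lib.MP_45f3cb_gt.Fa.PtD
import Pool.Agent.Lib.MP_45f3cb_gt.Fa.S2B

/-!
Step 2: sizes of the conjugated lift.
-/

open Set MeasureTheory Filter Topology Matrix

namespace Pool.Agent.Lib.MP_45f3cb_gt.Fa

variable {n : ℕ}

namespace S2G

variable {g : V n → Mat n} {Φ₀ : V n → ℝ} {x₀ : V n} {K : Set (V n)} {O Ω : Set (Z n)}
  (T : S2G g Φ₀ x₀ K O)

variable {d : ℕ} {w f : Z n → ℝ} {A : ℝ}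

theorem S2E_bd {φ : Z n → ℝ} (hφ : Continuous φ) : ∃ c, 0 ≤ c ∧ ∀ z ∈ T.C.K, φ z ≤ c := by
  obtain ⟨c, hc⟩ := T.C.cpt.bddAbove_image hφ.continuousOn
  exact ⟨max c 0, le_max_right _ _, fun z hz => (hc (mem_image_of_mem _ hz)).trans (le_max_left _ _)⟩

theorem S2E_sub : T.C.K ⊆ O := fun _ hz => T.sub ⟨hz.1.1, hz.2⟩

theorem S2E_exp {τ : ℝ} (hτ : 0 ≤ τ) {z : Z n} (hz : z ∈ T.C.K) : Real.exp (τ * T.Φ z) ^ 2 ≤ 1 := by
  have h1 : T.Φ z ≤ 0 := sub_nonpos.2 ((T.neg _ hz.1.2).trans (T.ψ₀_nonneg _))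
  exact pow_le_one₀ (Real.exp_pos _).le (Real.exp_le_one_iff.2 (mul_nonpos_of_nonneg_of_nonpos hτ h1))

theorem S2E_cut {z : Z n} (hz : z ∈ T.C.K) (h : fderiv ℝ T.η z ≠ 0) : T.Φ z ≤ -T.ε₀ := by
  have h1 := T.neg _ hz.1.2
  have h2 := T.ψ₀_nonneg z.2
  by_cases h0 : fderiv ℝ T.η₀ z.1 = 0
  · have h3 : fderiv ℝ T.η₁ z.2 ≠ 0 := fun h3 => h (by
      have h4 := ((T.sη₀.dAt z.1).hasFDerivAt.comp z hasFDerivAt_fst).mul
        ((T.sη₁.dAt z.2).hasFDerivAt.comp z hasFDerivAt_snd)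
      rw [h0, h3] at h4
      have h5 : fderiv ℝ T.η z = _ := h4.fderiv
      simpa using h5)
    have := T.cut₁ _ h3
    unfold Φ
    linarith
  · have := T.cut₀ _ hz.1.2 h0
    unfold Φ
    linarith

theorem S2E_sm (hw : Sm w) (z : Z n) : Sm fun y => hat T.F.EE w (z, y) :=
  (sm_hat T.F.sEE hw).comp (contDiff_const.prodMk contDiff_id)

include T in
theorem S2E_int (hw : Sm w) (N : ℕ) : IntegrableOn (jn N w) O :=
  (cont_jn hw N).continuousOn.integrableOn_compact T.cO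

/-- the basic estimate -/
theorem S2E_le (hw : Sm w) (hA : An w O A) {c : ℝ} (hc : 0 ≤ c) (P : T.C.M) (N : ℕ) {a : Z n → ℝ}
    (hP : ∀ z ∈ T.C.K, ∀ y, P.1 (z, y) = a z * hat T.F.EE w (z, y)) (ha : ∀ z ∈ T.C.K, a z ^ 2 ≤ c) :
    T.C.jet.ip N P P ≤ c * (A ^ (N + 1) * (N.factorial : ℝ)) := by
  refine (T.C.ip_le_int N P T.cO T.S2E_sub (h := fun z => c * jn N w z)
    (continuous_const.mul (cont_jn hw N)) (fun z _ => mul_nonneg hc (jn_nonneg _ _ _))
    fun z hz => ?_).trans ?_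
  · simp only [hP z hz]
    rw [nn_mul (T.S2E_sm hw z), T.nn_hat hw, show T.C.ρ z = 1 from rfl, one_mul]
    exact mul_le_mul_of_nonneg_right (ha z hz) (jn_nonneg _ _ _)
  · rw [integral_const_mul]
    exact mul_le_mul_of_nonneg_left (hA N) hc

/-- a cut-off term -/
theorem cut_le (hw : Sm w) (hA : An w O A) {ξ : Z n → Z n} (hξ : Sm ξ) : ∃ c, 0 ≤ c ∧ ∀ τ, 0 ≤ τ →
    ∀ (P : T.C.M) (N : ℕ), (∀ z ∈ T.C.K, ∀ y, P.1 (z, y) =
      Real.exp (τ * T.Φ z) * (fderiv ℝ T.η z (ξ z) * hat T.F.EE w (z, y))) →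
      T.C.jet.ip N P P ≤ c * Real.exp (-(2 * τ * T.ε₀)) * (A ^ (N + 1) * (N.factorial : ℝ)) := by
  obtain ⟨c, hc, h⟩ := T.S2E_bd (φ := fun z => fderiv ℝ T.η z (ξ z) ^ 2)
    ((sm_fderiv_app T.sη hξ).continuous.pow 2)
  refine ⟨c, hc, fun τ hτ P N hP => T.S2E_le hw hA (by positivity) P N
    (a := fun z => Real.exp (τ * T.Φ z) * fderiv ℝ T.η z (ξ z))
    (fun z hz y => by rw [hP z hz y, mul_assoc]) fun z hz => ?_⟩
  by_cases h0 : fderiv ℝ T.η z = 0
  · rw [h0, _root_.zero_apply, mul_zero, zero_pow two_ne_zero]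
    positivity
  · have h1 := mul_le_mul_of_nonneg_left (T.S2E_cut hz h0) hτ
    have h2 : Real.exp (τ * T.Φ z) ^ 2 ≤ Real.exp (-(2 * τ * T.ε₀)) := by
      rw [← Real.exp_nat_mul]
      exact Real.exp_le_exp.2 (by push_cast; linarith)
    rw [mul_pow, mul_comm c]
    exact mul_le_mul h2 (h z hz) (sq_nonneg _) (Real.exp_pos _).le

theorem V_le (h : Sol g d K Ω w f) (hA : An w O A) : ∃ c, 0 ≤ c ∧ ∀ τ, 0 ≤ τ → ∀ N,
    T.IN w τ N ≤ c * (A ^ (N + 1) * (N.factorial : ℝ)) := by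
  obtain ⟨c, hc, h'⟩ := T.S2E_bd (φ := fun z => T.η z ^ 2) (T.sη.continuous.pow 2)
  refine ⟨c, hc, fun τ hτ N => ?_⟩
  rw [← T.ip_V h]
  refine T.S2E_le h.smw hA hc _ N (a := fun z => Real.exp (τ * T.Φ z) * T.η z) (fun z _ y => rfl)
    fun z hz => ?_
  rw [mul_pow]
  exact (mul_le_of_le_one_left (sq_nonneg _) (T.S2E_exp hτ hz)).trans (h' z hz)

/-- Sketch: `FS.hat_W`: the slice is `-(dx b w) + ∑ (2 Gv c b + ∑ y j * GE c j) (dp c w)` at
`(x, v + y)`; `nn_coord_le` at `0`, `jn_dp`; bounds of the coefficients on the compact set. -/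
theorem jn_W (hw : Sm w) : ∃ c, 0 ≤ c ∧ ∀ z ∈ T.C.K, ∀ (b : Fin n) (N : ℕ),
    nn N (fun y => (T.F.oW b).app (hat T.F.EE w) (z, y)) 0 ≤
      c * (jn N (dx b w) z + ((N : ℝ) + 1) * jn (N + 1) w z + (N : ℝ) ^ 2 * jn N w z) := by
  obtain ⟨c₁, hc₁, h₁⟩ := T.S2E_bd (φ := fun z => ∑ b, ∑ i, (2 * Gv g z i b) ^ 2)
    (continuous_finsetSum _ fun b _ => continuous_finsetSum _ fun i _ =>
      (continuous_const.mul (T.rm.sm_Gv i b).continuous).pow 2)
  obtain ⟨c₂, hc₂, h₂⟩ := T.S2E_bd (φ := fun z => ∑ b, ∑ p : Fin n × Fin n, T.F.GE b z p.1 p.2 ^ 2)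
    (continuous_finsetSum _ fun b _ => continuous_finsetSum _ fun p _ =>
      (T.F.sGE b p.1 p.2).continuous.pow 2)
  refine ⟨2 + 4 * c₁ * n + 8 * c₂ * (n * n), by positivity, fun z hz b N => ?_⟩
  have hs : ∀ {u : Z n → ℝ}, Sm u → Sm fun y : V n => u (z.1, z.2 + y) := fun hu =>
    hu.comp (contDiff_const.prodMk (contDiff_const.add contDiff_id))
  have hj : ∀ {u : Z n → ℝ}, Sm u → ∀ k, nn k (fun y : V n => u (z.1, z.2 + y)) 0 = jn k u z :=
    fun {u} hu k => nn_shift (P := fun y => u (z.1, y))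
      (hu.comp (contDiff_const.prodMk contDiff_id)) k z.2
  have e : (fun y => (T.F.oW b).app (hat T.F.EE w) (z, y)) = fun y =>
      -dx b w (z.1, z.2 + y) + (∑ i, (2 * Gv g z i b) • dp i w (z.1, z.2 + y) +
        ∑ p : Fin n × Fin n, T.F.GE b z p.1 p.2 • (y p.2 • dp p.1 w (z.1, z.2 + y))) := by
    funext y
    rw [T.F.hat_W hw hz, T.EE_eq, fderiv_eq_sum, Fintype.sum_prod_type, one_mulVec,
      Finset.sum_add_distrib, ← Finset.sum_add_distrib (s := Finset.univ)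
        (f := fun i => (2 * Gv g z i b) • dp i w (z.1, z.2 + y))]
    congr 1
    · simp [Matrix.one_apply]
    · refine Finset.sum_congr rfl fun i _ => ?_
      have h1 : T.F.χ z = 1 := rfl
      have h2 : T.F.E z = 1 := rfl
      have h3 : T.F.E1 z = 0 := rfl
      simp only [h1, h2, h3, mul_one, one_smul, one_mul, zero_add, Pi.add_apply, Matrix.smul_apply,
        smul_eq_mul, Matrix.mulVec, dotProduct, add_mul, Finset.sum_mul, mul_assoc]
  have s1 : Sm fun y : V n => ∑ i, (2 * Gv g z i b) • dp i w (z.1, z.2 + y) :=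
    ContDiff.sum fun i _ => (hs (hw.dp i)).const_smul _
  have s0 : ∀ p : Fin n × Fin n, Sm fun y : V n => y p.2 • dp p.1 w (z.1, z.2 + y) := fun p =>
    (contDiff_apply ℝ ℝ p.2).smul (hs (hw.dp p.1))
  have s2 : Sm fun y : V n =>
      ∑ p : Fin n × Fin n, T.F.GE b z p.1 p.2 • (y p.2 • dp p.1 w (z.1, z.2 + y)) :=
    ContDiff.sum fun p _ => (s0 p).const_smul _
  have a0 := jn_nonneg N (dx b w) z
  have a1 : 0 ≤ ((N : ℝ) + 1) * jn (N + 1) w z := mul_nonneg (by positivity) (jn_nonneg _ _ _)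
  have a2 : 0 ≤ (N : ℝ) ^ 2 * jn N w z := mul_nonneg (by positivity) (jn_nonneg _ _ _)
  have b1 : nn N (fun y : V n => ∑ i, (2 * Gv g z i b) • dp i w (z.1, z.2 + y)) 0 ≤
      c₁ * (n * (((N : ℝ) + 1) * jn (N + 1) w z)) := by
    refine (nn_comb_le (fun i => hs (hw.dp i)) _ N 0).trans (mul_le_mul ?_ ?_
      (Finset.sum_nonneg fun i _ => nn_nonneg _ _ _) hc₁)
    · exact (Finset.single_le_sum (f := fun b => ∑ i, (2 * Gv g z i b) ^ 2)
        (fun b _ => by positivity) (Finset.mem_univ b)).trans (h₁ z hz)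
    · refine (Finset.sum_le_sum fun i _ => (hj (hw.dp i) N).le.trans (jn_dp hw N i z)).trans ?_
      simp
  have b2 : nn N (fun y : V n =>
      ∑ p : Fin n × Fin n, T.F.GE b z p.1 p.2 • (y p.2 • dp p.1 w (z.1, z.2 + y))) 0 ≤
      c₂ * (n * n * (2 * ((N : ℝ) ^ 2 * jn N w z))) := by
    refine (nn_comb_le s0 _ N 0).trans (mul_le_mul ?_ ?_
      (Finset.sum_nonneg fun i _ => nn_nonneg _ _ _) hc₂)
    · exact (Finset.single_le_sum (f := fun b => ∑ p : Fin n × Fin n, T.F.GE b z p.1 p.2 ^ 2)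
        (fun b _ => by positivity) (Finset.mem_univ b)).trans (h₂ z hz)
    · have key : ∀ p : Fin n × Fin n, nn N (fun y : V n => y p.2 • dp p.1 w (z.1, z.2 + y)) 0 ≤
          2 * ((N : ℝ) ^ 2 * jn N w z) := fun p => by
        refine (nn_coord_le (hs (hw.dp p.1)) p.2 N 0).trans ?_
        rw [hj (hw.dp p.1), hj (hw.dp p.1)]
        rcases N with _ | N
        · simp
        · have h1 := mul_le_mul_of_nonneg_left (jn_dp hw N p.1 z)
            (show (0 : ℝ) ≤ 2 * ((N : ℝ) + 1) by positivity)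
          simp only [Pi.zero_apply, Nat.add_sub_cancel]
          push_cast
          linarith
      refine (Finset.sum_le_sum fun p _ => key p).trans ?_
      simp
  have b3 := nn_add_le s1 s2 N 0
  have b4 := nn_add_le (hs (hw.dx b)).neg (s1.add s2) N 0
  rw [nn_neg (hs (hw.dx b)), hj (hw.dx b)] at b4
  rw [e]
  refine b4.trans ?_
  have d1 : 0 ≤ c₁ * n := by positivity
  have d2 : 0 ≤ c₂ * (n * n) := by positivity
  nlinarith [mul_nonneg d1 a0, mul_nonneg d1 a2, mul_nonneg d2 a0, mul_nonneg d2 a1]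

theorem B_le (h : Sol g d K Ω w f) (h1 : 1 ≤ A) (hA : An w O A) (hA' : ∀ c, An (dx c w) O A) :
    ∃ c, 0 ≤ c ∧ ∀ τ, 0 ≤ τ → ∀ (b : Fin n) (N : ℕ),
      T.C.jet.ip N ((T.F.Wo b - τ • T.C.mul _ (sm_fderiv_app T.sΦz (T.F.sW0 b))) (T.Vt h τ))
        ((T.F.Wo b - τ • T.C.mul _ (sm_fderiv_app T.sΦz (T.F.sW0 b))) (T.Vt h τ)) ≤
      c * (((N : ℝ) + 1) ^ 2 * (A ^ (N + 2) * (N.factorial : ℝ))) := by
  have hw := h.smw
  obtain ⟨c₁, hc₁, h₁⟩ := T.S2E_bd (φ := fun z => T.η z ^ 2) (T.sη.continuous.pow 2)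
  obtain ⟨c₂, hc₂, h₂⟩ := T.jn_W hw
  obtain ⟨c₃, hc₃, h₃⟩ := T.S2E_bd (φ := fun z => ∑ b, fderiv ℝ T.η z (T.F.W0 b z) ^ 2)
    (continuous_finsetSum _ fun b _ => (sm_fderiv_app T.sη (T.F.sW0 b)).continuous.pow 2)
  refine ⟨2 * c₁ * c₂ * 3 + 2 * c₃, by positivity, fun τ hτ b N => ?_⟩
  have k1 := cont_jn (hw.dx b) N
  have k2 := cont_jn hw (N + 1)
  have k3 := cont_jn hw N
  have i1 := T.S2E_int (hw.dx b) N
  have i2 := (T.S2E_int hw (N + 1)).const_mul ((N : ℝ) + 1)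
  have i3 := (T.S2E_int hw N).const_mul ((N : ℝ) ^ 2)
  have i4 := (T.S2E_int hw N).const_mul (2 * c₃)
  refine (T.C.ip_le_int N _ T.cO T.S2E_sub (h := fun z => 2 * c₁ * c₂ *
      (jn N (dx b w) z + ((N : ℝ) + 1) * jn (N + 1) w z + (N : ℝ) ^ 2 * jn N w z) +
      2 * c₃ * jn N w z) (by fun_prop) (fun z _ => ?_) fun z hz => ?_).trans ?_
  · have := jn_nonneg N (dx b w) z
    have := jn_nonneg (N + 1) w z
    have := jn_nonneg N w z
    positivity
  · have e : ∀ q : W n,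
        ((T.F.Wo b - τ • T.C.mul _ (sm_fderiv_app T.sΦz (T.F.sW0 b))) (T.Vt h τ)).1 q = _ :=
      T.conj h τ (T.F.oW b) (T.F.sW0 b) fun z => one_smul ℝ _
    simp only [e]
    have s1 : Sm fun y => (T.F.oW b).app (hat T.F.EE w) (z, y) :=
      ((T.F.oW b).sm_app (sm_hat T.F.sEE hw)).comp (contDiff_const.prodMk contDiff_id)
    have s2 := T.S2E_sm hw z
    have b1 := nn_add_le (contDiff_const (c := T.η z).mul s1)
      (contDiff_const (c := fderiv ℝ T.η z (T.F.W0 b z)).mul s2) N 0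
    rw [nn_mul ((contDiff_const.mul s1).add (contDiff_const.mul s2)), show T.C.ρ z = 1 from rfl,
      one_mul]
    refine (mul_le_of_le_one_left (nn_nonneg _ _ _) (T.S2E_exp hτ hz)).trans (b1.trans ?_)
    rw [nn_mul s1, nn_mul s2, T.nn_hat hw]
    have b2 := mul_le_mul (h₁ z hz) (h₂ z hz b N) (nn_nonneg _ _ _) hc₁
    have b3 := mul_le_mul_of_nonneg_right
      ((Finset.single_le_sum (f := fun b => fderiv ℝ T.η z (T.F.W0 b z) ^ 2)
        (fun b _ => sq_nonneg _) (Finset.mem_univ b)).trans (h₃ z hz)) (jn_nonneg N w z)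
    linarith
  · have i5 : Integrable (fun z => jn N (dx b w) z + ((N : ℝ) + 1) * jn (N + 1) w z)
        (volume.restrict O) := i1.add i2
    have i6 : Integrable (fun z => jn N (dx b w) z + ((N : ℝ) + 1) * jn (N + 1) w z +
        (N : ℝ) ^ 2 * jn N w z) (volume.restrict O) := i5.add i3
    rw [integral_add (i6.const_mul _) i4, integral_const_mul, integral_const_mul, integral_add i5 i3,
      integral_add i1 i2, integral_const_mul, integral_const_mul]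
    have hN : (0 : ℝ) ≤ N := Nat.cast_nonneg _
    have q0 : 0 ≤ A ^ (N + 2) * (N.factorial : ℝ) := by positivity
    have q1 : A ^ (N + 1) * (N.factorial : ℝ) ≤ A ^ (N + 2) * (N.factorial : ℝ) :=
      mul_le_mul_of_nonneg_right (pow_le_pow_right₀ h1 (by omega)) (Nat.cast_nonneg _)
    have q2 := hA (N + 1)
    rw [Nat.factorial_succ, Nat.cast_mul, Nat.cast_succ, show N + 1 + 1 = N + 2 from rfl,
      mul_left_comm] at q2
    have q3 := (hA N).trans q1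
    have q4 := (hA' b N).trans q1
    generalize A ^ (N + 2) * (N.factorial : ℝ) = B at q0 q2 q3 q4
    have q5 : B ≤ ((N : ℝ) + 1) ^ 2 * B := le_mul_of_one_le_left q0 (by nlinarith)
    have q6 := mul_le_mul_of_nonneg_left q2 (show (0 : ℝ) ≤ N + 1 by positivity)
    have q7 := mul_le_mul_of_nonneg_left q3 (sq_nonneg (N : ℝ))
    have q8 : (N : ℝ) ^ 2 * B ≤ ((N : ℝ) + 1) ^ 2 * B := mul_le_mul_of_nonneg_right (by nlinarith) q0
    have q9 := mul_le_mul_of_nonneg_left (show (∫ z in O, jn N (dx b w) z) +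
        ((N : ℝ) + 1) * (∫ z in O, jn (N + 1) w z) + (N : ℝ) ^ 2 * ∫ z in O, jn N w z ≤
        3 * (((N : ℝ) + 1) ^ 2 * B) by linarith) (show 0 ≤ 2 * c₁ * c₂ by positivity)
    have q10 := mul_le_mul_of_nonneg_left (q3.trans q5) (show 0 ≤ 2 * c₃ by positivity)
    linarith

/-- Sketch: `hp_bd`, `setInt` over the product, `ψ₀ ≥ 0`; above the level `d + 1` use
`PL.nn_zero`. -/
theorem src_le (h : Sol g d K Ω w f) : ∃ c, 0 ≤ c ∧ ∀ τ, 0 ≤ τ → ∀ N,
    T.C.jet.ip N ⟨_, T.src_mem h τ⟩ ⟨_, T.src_mem h τ⟩ ≤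
      if N ≤ d + 1 then c * T.FF d f τ else 0 := by
  have hf := h.smf
  obtain ⟨c₁, hc₁, h₁⟩ := T.S2E_bd (φ := fun z => T.η₁ z.2 ^ 2)
    ((T.sη₁.continuous.comp continuous_snd).pow 2)
  obtain ⟨R, hR⟩ := T.cS₂.isBounded.exists_norm_le
  obtain ⟨c₂, hc₂, h₂⟩ := hp_bd n (d + 1) R
  refine ⟨c₁ * c₂ * ∫ _ in T.S₂, (1 : ℝ), mul_nonneg (by positivity)
    (integral_nonneg fun _ => zero_le_one), fun τ hτ N => ?_⟩
  have e : ∀ z : Z n, T.C.ρ z *
      nn N (fun y => Real.exp (τ * T.Φ z) * T.η z * hat T.F.EE f (z, y)) 0 =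
      (Real.exp (τ * T.Φ z) * T.η z) ^ 2 * jn N f z := fun z => by
    rw [nn_mul (T.S2E_sm hf z), T.nn_hat hf, show T.C.ρ z = 1 from rfl, one_mul]
  split_ifs with hN
  · obtain ⟨G, hG⟩ : ∃ G : V n → ℝ,
        G = fun x => (Real.exp (τ * Φ₀ x) * T.η₀ x) ^ 2 * jn (d + 1) f (x, 0) := ⟨_, rfl⟩
    have cG : Continuous G := by
      rw [hG]
      exact (((Real.continuous_exp.comp (continuous_const.mul T.sΦ.continuous)).mul
        T.sη₀.continuous).pow 2).mul ((cont_jn hf _).comp (Continuous.prodMk_left 0))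
    have pG : ∀ x, 0 ≤ G x := fun x => by
      rw [hG]
      exact mul_nonneg (sq_nonneg _) (jn_nonneg _ _ _)
    have iG : Integrable G := cG.integrable_of_hasCompactSupport
      (HasCompactSupport.intro (isCompact_closedBall x₀ T.r) fun x hx => by
        have h0 : T.η₀ x = 0 := by_contra fun h0 => hx (T.η₀_supp x h0)
        simp [hG, h0])
    refine (T.C.ip_le_int N _ T.C.cpt subset_rfl (h := fun z => (c₁ * c₂ * G z.1) * 1)
      (by fun_prop) (fun z _ => by have := pG z.1; positivity) fun z hz => ?_).trans ?_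
    · refine (e z).le.trans ?_
      have b1 : jn N f z ≤ c₂ * jn (d + 1) f (z.1, 0) := h₂ _ (h.fp z.1) z.2 (hR _ hz.2) N
      have b2 : Real.exp (τ * T.Φ z) ^ 2 ≤ Real.exp (τ * Φ₀ z.1) ^ 2 :=
        pow_le_pow_left₀ (Real.exp_pos _).le (Real.exp_le_exp.2
          (mul_le_mul_of_nonneg_left (sub_le_self _ (T.ψ₀_nonneg _)) hτ)) 2
      have b3 : (Real.exp (τ * T.Φ z) * T.η z) ^ 2 ≤ (Real.exp (τ * Φ₀ z.1) * T.η₀ z.1) ^ 2 * c₁ := by
        unfold η
        rw [← mul_assoc, mul_pow, mul_pow, mul_pow]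
        exact mul_le_mul (mul_le_mul_of_nonneg_right b2 (sq_nonneg _)) (h₁ z hz) (sq_nonneg _)
          (by positivity)
      refine (mul_le_mul b3 b1 (jn_nonneg _ _ _) (by positivity)).trans (le_of_eq ?_)
      rw [hG]
      ring
    · have b4 : ∫ z in T.C.K, (c₁ * c₂ * G z.1) * (1 : ℝ) =
          (∫ x in Metric.closedBall x₀ T.r ∩ K, c₁ * c₂ * G x) * ∫ _ in T.S₂, (1 : ℝ) :=
        setIntegral_prod_mul (fun x => c₁ * c₂ * G x) (fun _ => (1 : ℝ)) _ _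
      have b5 : T.FF d f τ = ∫ x, G x := by rw [hG]; rfl
      rw [b4, b5, integral_const_mul, mul_right_comm]
      exact mul_le_mul_of_nonneg_left (setIntegral_le_integral iG (Eventually.of_forall pG))
        (mul_nonneg (by positivity) (integral_nonneg fun _ => zero_le_one))
  · refine (T.C.ip_le_int N _ T.C.cpt subset_rfl (h := fun _ => 0) continuous_const
      (fun _ _ => le_rfl) fun z _ => ?_).trans (by simp)
    refine (e z).le.trans ?_
    have b1 : jn N f z = 0 := (PL.of_HP (h.fp z.1)).nn_zero (by omega) _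
    rw [b1, mul_zero]

end S2G

end Pool.Agent.Lib.MP_45f3cb_gt.Fa
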