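import Pool.Agent.Lib.MP_45f3cb_gt.Fa.S2D
import Pool.Agent.Lib.MP_45f3cb_gt.Fa.S2E
import Pool.Agent.Lib.MP_45f3cb_gt.Fa.S2C
import Pool.Agent.Lib.MP_45f3cb_gt.Fa.CarC

/-!
Step 2: the Carleman estimate.
-/

open Set MeasureTheory Filter Topology Matrix

namespace Pool.Agent.Lib.MP_45f3cb_gt.Fa

variable {n : ℕ}

namespace S2G

variable {g : V n → Mat n} {Φ₀ : V n → ℝ} {x₀ : V n} {K : Set (V n)} {O Ω : Set (Z n)}
  (T : S2G g Φ₀ x₀ K O)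

variable {d : ℕ} {w f : Z n → ℝ} {A : ℝ}

theorem S2F_sub {z : Z n} (hz : z ∈ T.C.K) : z ∈ O :=
  T.sub ⟨hz.1.1, hz.2⟩

theorem S2F_mem (h : Sol g d K Ω w f) (τ : ℝ) {ξ : Z n → Z n} (hξ : Sm ξ) :
    (fun q : W n => Real.exp (τ * T.Φ q.1) * (fderiv ℝ T.η q.1 (ξ q.1) * hat T.F.EE w q)) ∈
      T.C.M := by
  refine ⟨(Real.contDiff_exp.comp (contDiff_const.mul (T.sΦz.comp contDiff_fst))).mul
    (((sm_fderiv_app T.sη hξ).comp contDiff_fst).mul (sm_hat T.F.sEE h.smw)), fun z hz y => ?_⟩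
  by_cases hK : z.1 ∈ K
  · have h1 : z ∉ Metric.closedBall x₀ T.r ×ˢ T.S₂ := fun h1 => hz ⟨⟨h1.1, hK⟩, h1.2⟩
    have h2 : T.η =ᶠ[𝓝 z] fun _ => 0 :=
      Filter.mem_of_superset
        ((Metric.isClosed_closedBall.prod T.cS₂.isClosed).isOpen_compl.mem_nhds h1) fun u hu => by
          by_contra h3
          exact hu ⟨T.η₀_supp _ (left_ne_zero_of_mul h3), T.η₁_supp _ (right_ne_zero_of_mul h3)⟩
    simp [h2.fderiv_eq]
  · simp [hat, h.off (z.1, z.2 + T.F.EE z *ᵥ y) hK]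

/-- a cut-off term -/
noncomputable def S2F_cut (h : Sol g d K Ω w f) (τ : ℝ) {ξ : Z n → Z n} (hξ : Sm ξ) : T.C.M :=
  ⟨_, T.S2F_mem h τ hξ⟩

theorem S2F_coe_sum {C : Ctx n} (P : Fin n → C.M) (q : W n) : (∑ b, P b).1 q = ∑ b, (P b).1 q := by
  rw [Submodule.coe_sum, Finset.sum_apply]

theorem S2F_null (h : Sol g d K Ω w f) (hΩ : IsOpen Ω) (hs : O ⊆ Ω)
    {c₁ : ℝ} (H : Car T.C.jet c₁ T.c₀) (e1 : H.X = T.C.op (oX T.rm))
    (e2 : H.a = T.C.mul _ (sm_fderiv_app T.sΦz T.rm.sm_spray)) (e3 : H.W = T.F.Wo)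
    (e4 : H.l = fun b => T.C.mul _ (sm_fderiv_app T.sΦz (T.F.sW0 b))) (τ : ℝ) (N : ℕ) :
    T.C.jet.nm N (H.Gv τ (T.Vt h τ) - (⟨_, T.src_mem h τ⟩ + T.S2F_cut h τ T.rm.sm_spray -
      ∑ b, T.C.jet.Y b (T.S2F_cut h τ (T.F.sW0 b)))) = 0 := by
  refine T.C.null (m := 0) (Nat.zero_le N) _ fun z hz => ⟨fun _ => 0, fun _ => rfl, ?_⟩
  have hc : Continuous fun y : V n => ((z.1, z.2 + T.F.EE z *ᵥ y) : Z n) := by fun_prop
  have h0 : ∀ᶠ y in 𝓝 (0 : V n), ((z.1, z.2 + T.F.EE z *ᵥ y) : Z n) ∈ Ω :=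
    hc.continuousAt.eventually_mem (hΩ.mem_nhds (by simpa using hs (T.S2F_sub hz)))
  filter_upwards [h0] with y hy
  have h1 := T.conj h τ (oX T.rm) T.rm.sm_spray (fun _ => rfl) (z, y)
  have h2 := fun b => T.conj h τ (T.F.oW b) (T.F.sW0 b) (fun u => one_smul ℝ _) (z, y)
  have h3 := T.F.hat_X h.smw hz y
  have h4 : hat T.F.EE (fun z => fderiv ℝ w z (spray g z)) (z, y) = hat T.F.EE f (z, y) :=
    h.eq _ hy
  have h5 : (H.Gv τ (T.Vt h τ)).1 (z, y) = (H.A τ (T.Vt h τ)).1 (z, y) -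
      ∑ b, y b * (H.Wt τ b (T.Vt h τ)).1 (z, y) := by
    rw [Car.Gv, Submodule.coe_sub, Pi.sub_apply, S2F_coe_sum]
    rfl
  have h6 : (H.A τ (T.Vt h τ)).1 (z, y) = Real.exp (τ * T.Φ z) *
      (T.η z * (oX T.rm).app (hat T.F.EE w) (z, y) +
        fderiv ℝ T.η z (spray g z) * hat T.F.EE w (z, y)) := by
    rw [Car.A, e1, e2]
    exact h1
  have h7 : ∀ b, (H.Wt τ b (T.Vt h τ)).1 (z, y) = Real.exp (τ * T.Φ z) *
      (T.η z * (T.F.oW b).app (hat T.F.EE w) (z, y) +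
        fderiv ℝ T.η z (T.F.W0 b z) * hat T.F.EE w (z, y)) := fun b => by
    rw [Car.Wt, e3, e4]
    exact h2 b
  rw [Submodule.coe_sub, Pi.sub_apply, h5, h6, Submodule.coe_sub, Pi.sub_apply, S2F_coe_sum]
  simp only [h7, h3, h4, Submodule.coe_add, Pi.add_apply, Ctx.Y_apply, S2F_cut, mul_add,
    Finset.sum_add_distrib, Finset.mul_sum]
  have h8 : ∑ b, Real.exp (τ * T.Φ z) * (T.η z * (y b * (T.F.oW b).app (hat T.F.EE w) (z, y))) =
      ∑ b, y b * (Real.exp (τ * T.Φ z) * (T.η z * (T.F.oW b).app (hat T.F.EE w) (z, y))) :=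
    Finset.sum_congr rfl fun b _ => by ring
  rw [h8]
  ring

theorem S2F_Y (h : Sol g d K Ω w f) (h1 : 1 ≤ A) (hA : An w O A) {ξ : Z n → Z n} (hξ : Sm ξ) :
    ∃ c, 0 ≤ c ∧ ∀ τ, 0 ≤ τ → ∀ (b : Fin n) (N : ℕ),
      T.C.jet.nm N (T.C.jet.Y b (T.S2F_cut h τ hξ)) ^ 2 ≤
        c * Real.exp (-(2 * τ * T.ε₀)) * (A ^ (N + 1) * (N.factorial : ℝ)) := by
  obtain ⟨c, hc, h2⟩ := T.cut_le h.smw hA hξ
  refine ⟨c, hc, fun τ hτ b N => ?_⟩
  rcases N with _ | N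
  · rw [Jet.nm_Y_zero, zero_pow two_ne_zero]
    positivity
  · have h3 := h2 τ hτ (T.S2F_cut h τ hξ) N fun _ _ _ => rfl
    have h4 := pow_le_pow_left₀ (T.C.jet.nm_nonneg _ _) (T.C.jet.nm_Y_le N b (T.S2F_cut h τ hξ)) 2
    rw [mul_pow, Real.sq_sqrt (by positivity), T.C.jet.nm_sq N] at h4
    refine h4.trans ((mul_le_mul_of_nonneg_left h3 (by positivity)).trans ?_)
    have h5 : A ^ (N + 1) ≤ A ^ (N + 1 + 1) := pow_le_pow_right₀ h1 (by omega)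
    rw [Nat.factorial_succ]
    push_cast
    have h6 : 0 ≤ c * Real.exp (-(2 * τ * T.ε₀)) * (((N : ℝ) + 1) * (N.factorial : ℝ)) := by
      positivity
    nlinarith [mul_le_mul_of_nonneg_left h5 h6]

theorem S2F_dy (h : Sol g d K Ω w f) (τ : ℝ) (b : Fin n) (z : Z n) (y : V n) :
    dy b (T.Vt h τ).1 (z, y) = Real.exp (τ * T.Φ z) * T.η z * dy b (hat T.F.EE w) (z, y) := by
  have h1 : Sm fun q : W n => Real.exp (τ * T.Φ q.1) * T.η q.1 * hat T.F.EE w q :=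
    Ctx.sm (T.Vt h τ)
  have h2 := congrFun (dy_slice h1 b z) y
  have h3 := congrFun (dy_slice (sm_hat T.F.sEE h.smw) b z) y
  have h4 := congrFun (pdF_smul (P := fun y => hat T.F.EE w (z, y))
    ((sm_hat T.F.sEE h.smw).comp (contDiff_const.prodMk contDiff_id))
    (Real.exp (τ * T.Φ z) * T.η z) b) y
  exact h2.symm.trans (h4.trans (by rw [h3, smul_eq_mul]))

theorem S2F_FF (d : ℕ) (f : Z n → ℝ) (τ : ℝ) : 0 ≤ T.FF d f τ :=
  integral_nonneg fun _ => mul_nonneg (sq_nonneg _) (jn_nonneg _ _ _)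

/-- Sketch: `conj`, `FS.hat_X`: up to a null element (`Ctx.null` with `m = 0`, the point
`(x, v + y)` is in `Ω` for small `y`) the source is the sum of the element of `src_mem`, a cut-off
term, and `-∑ Y b` of cut-off terms (`nm_Y_le`). -/
theorem G_le (h : Sol g d K Ω w f) (hΩ : IsOpen Ω) (hs : O ⊆ Ω) (h1 : 1 ≤ A) (hA : An w O A)
    {c₁ : ℝ} (H : Car T.C.jet c₁ T.c₀) (e1 : H.X = T.C.op (oX T.rm))
    (e2 : H.a = T.C.mul _ (sm_fderiv_app T.sΦz T.rm.sm_spray)) (e3 : H.W = T.F.Wo)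
    (e4 : H.l = fun b => T.C.mul _ (sm_fderiv_app T.sΦz (T.F.sW0 b))) :
    ∃ c, 0 ≤ c ∧ ∀ τ, 0 ≤ τ → ∀ N, T.C.jet.ip N (H.Gv τ (T.Vt h τ)) (H.Gv τ (T.Vt h τ)) ≤
      (if N ≤ d + 1 then c * T.FF d f τ else 0) +
        c * Real.exp (-(2 * τ * T.ε₀)) * (A ^ (N + 1) * (N.factorial : ℝ)) := by
  obtain ⟨ca, hca, ha⟩ := T.src_le h
  obtain ⟨cb, hcb, hb⟩ := T.cut_le h.smw hA T.rm.sm_spray
  choose cc hcc hc using fun b => T.S2F_Y h h1 hA (T.F.sW0 b)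
  have hS : 0 ≤ ∑ b, cc b := Finset.sum_nonneg fun b _ => hcc b
  refine ⟨3 * ca + 3 * cb + 3 * (n * ∑ b, cc b), by positivity, fun τ hτ N => ?_⟩
  have hF := T.S2F_FF d f τ
  set E := Real.exp (-(2 * τ * T.ε₀)) * (A ^ (N + 1) * (N.factorial : ℝ)) with hE
  have hE0 : 0 ≤ E := by positivity
  have h2 := ha τ hτ N
  have h3 := hb τ hτ (T.S2F_cut h τ T.rm.sm_spray) N fun _ _ _ => rfl
  rw [← T.C.jet.nm_sq] at h2 h3
  have h4 : (∑ b, T.C.jet.nm N (T.C.jet.Y b (T.S2F_cut h τ (T.F.sW0 b)))) ^ 2 ≤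
      n * ((∑ b, cc b) * E) := by
    refine sq_sum_le_card_mul_sum_sq.trans ?_
    rw [Finset.card_univ, Fintype.card_fin, Finset.sum_mul]
    exact mul_le_mul_of_nonneg_left (Finset.sum_le_sum fun b _ =>
      (hc b τ hτ b N).trans_eq (mul_assoc _ _ _)) (Nat.cast_nonneg n)
  have h5 : T.C.jet.nm N (H.Gv τ (T.Vt h τ)) ≤ T.C.jet.nm N ⟨_, T.src_mem h τ⟩ +
      T.C.jet.nm N (T.S2F_cut h τ T.rm.sm_spray) +
      ∑ b, T.C.jet.nm N (T.C.jet.Y b (T.S2F_cut h τ (T.F.sW0 b))) := by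
    rw [T.C.jet.nm_congr (T.S2F_null h hΩ hs H e1 e2 e3 e4 τ N)]
    exact (T.C.jet.nm_sub_le _ _ _).trans
      (add_le_add (T.C.jet.nm_add_le _ _ _) (T.C.jet.nm_sum_le _ _ _))
  refine (T.C.jet.ip_le_of_nm h5).trans ?_
  rw [mul_assoc cb, ← hE] at h3
  rw [mul_assoc _ (Real.exp _), ← hE]
  generalize T.C.jet.nm N ⟨_, T.src_mem h τ⟩ = x at *
  generalize T.C.jet.nm N (T.S2F_cut h τ T.rm.sm_spray) = y at *
  generalize ∑ b, T.C.jet.nm N (T.C.jet.Y b (T.S2F_cut h τ (T.F.sW0 b))) = u at *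
  have h6 : (x + y + u) ^ 2 ≤ 3 * x ^ 2 + 3 * y ^ 2 + 3 * u ^ 2 := by
    nlinarith [sq_nonneg (x - y), sq_nonneg (x - u), sq_nonneg (y - u)]
  have h7 : 0 ≤ ca * E := by positivity
  have h8 : 0 ≤ (3 * cb + 3 * (n * ∑ b, cc b)) * T.FF d f τ := by positivity
  split_ifs at h2 ⊢ <;> nlinarith

/-- Sketch: `car`, `Car.est`, `ip_V`, `V_le`, `B_le`, `G_le`; `gv` by `conj`, `FS.hat_N`, `cut_le`;
`om_geo` and the geometric series. -/
theorem est1 (h : Sol g d K Ω w f) (hΩ : IsOpen Ω) (hs : O ⊆ Ω) (h1 : 1 ≤ A) (hA : An w O A)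
    (hA' : ∀ c, An (dx c w) O A) {ρ : ℝ} (hρ : 0 < ρ) (h8 : 8 * ρ ^ 2 * A ≤ 1) :
    ∃ C₁ c₁ δ₀ : ℝ, 0 ≤ C₁ ∧ 0 < c₁ ∧ 0 < δ₀ ∧ ∀ (τ : ℝ) (N₁ : ℕ), 1 ≤ τ → 1 ≤ N₁ →
      (N₁ : ℝ) ≤ δ₀ * τ → (c₁ * τ ^ 2 / ((N₁ : ℝ) + 2) - C₁ * τ) * T.NN w ρ τ N₁ ≤
        C₁ * T.FF d f τ + C₁ * τ * (Real.exp (-(2 * τ * T.ε₀)) + (1 / 2) ^ N₁) := by
  obtain ⟨c₁, H, e1, e2, e3, e5, e4, e6⟩ := T.car
  have hρ1 : ρ ≤ 1 := by nlinarith [sq_nonneg ρ, mul_le_mul_of_nonneg_left h1 (sq_nonneg ρ)]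
  obtain ⟨C₁, c, δ₀, hC₁, hc, hδ₀, hE⟩ := H.est hρ hρ1
  obtain ⟨cg, hcg, hG⟩ := T.G_le h hΩ hs h1 hA H e1 e2 e3 e4
  obtain ⟨cv, hcv, hV⟩ := T.V_le h hA
  obtain ⟨cb, hcb, hB⟩ := T.B_le h h1 hA hA'
  choose cy hcy hY using fun b => T.cut_le h.smw hA (T.F.sY0 b)
  obtain ⟨co, hco, hO⟩ := om_geo hρ h1 h8
  have hS : 0 ≤ ∑ b, cy b := Finset.sum_nonneg fun b _ => hcy b
  refine ⟨C₁ + cg * (d + 2) + 2 * (cg * co) + C₁ * (co * (n * cb + 2 * cv + 2 * ∑ b, cy b)), c, δ₀,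
    by positivity, hc, hδ₀, fun τ N₁ hτ hN hNτ => ?_⟩
  have hτ0 : 0 ≤ τ := by linarith
  have h2 := hE τ N₁ (T.Vt h τ) hτ hN hNτ
  simp only [T.ip_V] at h2
  have hF := T.S2F_FF d f τ
  have hNN : 0 ≤ T.NN w ρ τ N₁ := Finset.sum_nonneg fun N _ =>
    mul_nonneg (om_pos hρ _ _).le (by rw [← T.ip_V h]; exact T.C.jet.ip_nonneg _ _)
  set e := Real.exp (-(2 * τ * T.ε₀)) with he
  have he0 : 0 ≤ e := (Real.exp_pos _).le
  have ho : ∀ N, N ≤ N₁ + 2 → om ρ N₁ N * (A ^ (N + 1) * (N.factorial : ℝ)) ≤ co * (1 / 2) ^ N :=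
    fun N hN' => by
      refine le_trans (mul_le_mul_of_nonneg_left ?_ (om_pos hρ _ _).le) (hO N₁ N hN').2.1
      have h3 : A ^ (N + 1) ≤ A ^ (N + 2) := pow_le_pow_right₀ h1 (by omega)
      have h4 : (1 : ℝ) ≤ ((N : ℝ) + 1) ^ 2 := one_le_pow₀ (by linarith [Nat.cast_nonneg (α := ℝ) N])
      calc A ^ (N + 1) * (N.factorial : ℝ) ≤ A ^ (N + 2) * (N.factorial : ℝ) := by gcongr
        _ ≤ _ := le_mul_of_one_le_left (by positivity) h4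
  have hgeo : ∑ N ∈ Finset.range (N₁ + 1), om ρ N₁ N * (A ^ (N + 1) * (N.factorial : ℝ)) ≤
      2 * co := by
    refine (Finset.sum_le_sum fun N hN' => ho N (by have := Finset.mem_range.1 hN'; omega)).trans ?_
    rw [← Finset.mul_sum, mul_comm]
    exact mul_le_mul_of_nonneg_right (sum_geometric_two_le _) hco
  have h3 : ∑ N ∈ Finset.range (N₁ + 1), om ρ N₁ N *
      T.C.jet.ip N (H.Gv τ (T.Vt h τ)) (H.Gv τ (T.Vt h τ)) ≤
      cg * (d + 2) * T.FF d f τ + 2 * (cg * co) * e := by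
    refine (Finset.sum_le_sum fun N _ =>
      mul_le_mul_of_nonneg_left (hG τ hτ0 N) (om_pos hρ _ _).le).trans ?_
    simp only [mul_add, Finset.sum_add_distrib]
    refine add_le_add ?_ ?_
    · calc _ ≤ ∑ N ∈ Finset.range (N₁ + 1), if N ≤ d + 1 then cg * T.FF d f τ else 0 :=
            Finset.sum_le_sum fun N hN' => mul_le_of_le_one_left (by split_ifs <;> positivity)
              (hO N₁ N (by have := Finset.mem_range.1 hN'; omega)).1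
        _ ≤ ∑ N ∈ Finset.range (d + 2), cg * T.FF d f τ := by
            rw [← Finset.sum_filter]
            exact Finset.sum_le_sum_of_subset_of_nonneg (fun N hN' => Finset.mem_range.2 (by
              have := (Finset.mem_filter.1 hN').2; omega)) fun _ _ _ => by positivity
        _ = _ := by simp; ring
    · calc _ = cg * e * ∑ N ∈ Finset.range (N₁ + 1),
            om ρ N₁ N * (A ^ (N + 1) * (N.factorial : ℝ)) := by
            rw [Finset.mul_sum]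
            exact Finset.sum_congr rfl fun N _ => by ring
        _ ≤ cg * e * (2 * co) := by gcongr
        _ = _ := by ring
  have h4 : om ρ N₁ N₁ * H.bb τ (T.Vt h τ) N₁ ≤ n * cb * (co * (1 / 2) ^ N₁) := by
    have h5 : H.bb τ (T.Vt h τ) N₁ ≤
        n * (cb * (((N₁ : ℝ) + 1) ^ 2 * (A ^ (N₁ + 2) * (N₁.factorial : ℝ)))) := by
      refine (Finset.sum_le_card_nsmul _ _
        (cb * (((N₁ : ℝ) + 1) ^ 2 * (A ^ (N₁ + 2) * (N₁.factorial : ℝ)))) fun b _ => ?_).trans_eq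
        (by rw [Finset.card_univ, Fintype.card_fin, nsmul_eq_mul])
      rw [Car.Wt, e3, e4]
      exact hB τ hτ0 b N₁
    calc _ ≤ om ρ N₁ N₁ * (n * (cb * (((N₁ : ℝ) + 1) ^ 2 * (A ^ (N₁ + 2) * (N₁.factorial : ℝ))))) :=
          mul_le_mul_of_nonneg_left h5 (om_pos hρ _ _).le
      _ = n * cb * (om ρ N₁ N₁ * (((N₁ : ℝ) + 1) ^ 2 * (A ^ (N₁ + 2) * (N₁.factorial : ℝ)))) := by
          ring
      _ ≤ _ := mul_le_mul_of_nonneg_left (hO N₁ N₁ (by omega)).2.1 (by positivity)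
  have h5 : ∀ N, N₁ ≤ N → N ≤ N₁ + 2 → om ρ N₁ N * T.IN w τ N ≤ cv * (co * (1 / 2) ^ N₁) :=
    fun N h6 h7 => by
      calc _ ≤ om ρ N₁ N * (cv * (A ^ (N + 1) * (N.factorial : ℝ))) :=
            mul_le_mul_of_nonneg_left (hV τ hτ0 N) (om_pos hρ _ _).le
        _ = cv * (om ρ N₁ N * (A ^ (N + 1) * (N.factorial : ℝ))) := by ring
        _ ≤ cv * (co * (1 / 2) ^ N) := mul_le_mul_of_nonneg_left (ho N h7) hcv
        _ ≤ _ := by
            have : ((1 : ℝ) / 2) ^ N ≤ (1 / 2) ^ N₁ :=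
              pow_le_pow_of_le_one (by norm_num) (by norm_num) h6
            gcongr
  have h6 : ∑ N ∈ Finset.range (N₁ + 1), om ρ N₁ N * H.gg τ (T.Vt h τ) N ≤
      (∑ b, cy b) * e * (2 * co) := by
    have h7 : ∀ N, H.gg τ (T.Vt h τ) N ≤ (∑ b, cy b) * e * (A ^ (N + 1) * (N.factorial : ℝ)) :=
      fun N => by
        rw [Finset.sum_mul, Finset.sum_mul]
        refine Finset.sum_le_sum fun b _ => hY b τ hτ0 _ N fun z hz y => ?_
        have h8 := T.conj h τ (T.F.oN b) (T.F.sY0 b) (fun u => one_smul ℝ _) (z, y)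
        have h9 := T.S2F_dy h τ b z y
        have h10 : (H.gv τ (T.Vt h τ) b).1 (z, y) =
            ((T.C.op (T.F.oN b) - τ • T.C.mul _ (sm_fderiv_app T.sΦz (T.F.sY0 b)))
              (T.Vt h τ)).1 (z, y) - dy b (T.Vt h τ).1 (z, y) := by
          rw [Car.gv, e5, e6, sub_right_comm]
          rfl
        rw [h10, h8, h9, T.F.hat_N h.smw hz]
        ring
    calc _ ≤ ∑ N ∈ Finset.range (N₁ + 1), (∑ b, cy b) * e *
          (om ρ N₁ N * (A ^ (N + 1) * (N.factorial : ℝ))) := Finset.sum_le_sum fun N _ =>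
            (mul_le_mul_of_nonneg_left (h7 N) (om_pos hρ _ _).le).trans_eq (by ring)
      _ ≤ _ := by
          rw [← Finset.mul_sum]
          gcongr
  have h7 := h5 N₁ le_rfl (by omega)
  have h8 := h5 (N₁ + 1) (by omega) (by omega)
  change (c * τ ^ 2 / ((N₁ : ℝ) + 2) - C₁ * τ) * T.NN w ρ τ N₁ ≤ _ at h2
  set q : ℝ := (1 / 2) ^ N₁ with hq
  have hq0 : 0 ≤ q := by positivity
  generalize T.NN w ρ τ N₁ = NN at *
  generalize T.FF d f τ = FF at *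
  generalize ∑ b, cy b = sy at *
  have h9 : C₁ * τ * (om ρ N₁ N₁ * (H.bb τ (T.Vt h τ) N₁ + T.IN w τ N₁) +
      om ρ N₁ (N₁ + 1) * T.IN w τ (N₁ + 1) +
      ∑ N ∈ Finset.range (N₁ + 1), om ρ N₁ N * H.gg τ (T.Vt h τ) N) ≤
      C₁ * τ * (co * (n * cb + 2 * cv + 2 * sy) * (e + q)) := by
    refine mul_le_mul_of_nonneg_left ?_ (by positivity)
    have : 0 ≤ co * (n * cb + 2 * cv) * e := by positivity
    have : 0 ≤ co * (2 * sy) * q := by positivity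
    nlinarith
  set a := cg * (d + 2) with ha
  set b := 2 * (cg * co) with hb
  set k := C₁ * (co * (n * cb + 2 * cv + 2 * sy)) with hk
  have ha0 : 0 ≤ a := by positivity
  have hb0 : 0 ≤ b := by positivity
  have hk0 : 0 ≤ k := by positivity
  have h10 : b * e ≤ b * τ * e :=
    mul_le_mul_of_nonneg_right (le_mul_of_one_le_right hb0 hτ) he0
  have h11 : 0 ≤ (a + b + k) * τ * NN := by positivity
  have h12 : 0 ≤ (C₁ + b + k) * FF := by positivity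
  have h13 : 0 ≤ (C₁ + a) * τ * (e + q) := by positivity
  have h14 : 0 ≤ b * τ * q := by positivity
  have h15 : C₁ * τ * (co * (n * cb + 2 * cv + 2 * sy) * (e + q)) = k * τ * (e + q) := by
    rw [hk]
    ring
  nlinarith

end S2G

end Pool.Agent.Lib.MP_45f3cb_gt.Fa
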