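import Pool.Agent.Lib.MP_45f3cb_gt.Fa.S20

/-!
Step 2: the remainder in a window.
-/

open Set MeasureTheory Filter Topology Matrix

namespace Pool.Agent.Lib.MP_45f3cb_gt.Fa

variable {n : ℕ}

theorem S2H_pd {Φ η ω : V n → ℝ} (hΦ : Sm Φ) (hη : Sm η) (hω : Sm ω) (s τ : ℝ) (x₁ x : V n)
    (e : Fin n) : pd e (fun x => ω (s • (x - x₁)) * (Real.exp (τ * Φ x) * η x)) x =
      Real.exp (τ * Φ x) * (s * pd e ω (s • (x - x₁)) * η x +
        ω (s • (x - x₁)) * (τ * pd e Φ x * η x + pd e η x)) := by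
  have h1 : HasFDerivAt (fun x : V n => s • (x - x₁)) (s • ContinuousLinearMap.id ℝ (V n)) x :=
    ((hasFDerivAt_id x).sub_const x₁).const_smul s
  have h2 := (hω.dAt (s • (x - x₁))).hasFDerivAt.comp x h1
  have h3 := ((hΦ.dAt x).hasFDerivAt.const_mul τ).exp
  have h4 := (h2.mul (h3.mul (hη.dAt x).hasFDerivAt)).fderiv
  unfold pd
  refine (congrArg (fun L : V n →L[ℝ] ℝ => L (Pi.single e 1)) h4).trans ?_
  simp only [_root_.add_apply, _root_.smul_apply,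
    ContinuousLinearMap.comp_apply, ContinuousLinearMap.id_apply, map_smul, smul_eq_mul,
    Function.comp_apply, Pi.mul_apply]
  ring

theorem S2H_lev {u : V n → ℝ} {v : V n} {J : ℕ → ℝ} (hJ : ∀ k, 0 ≤ J k)
    (h : ∀ k : ℕ, nn k u v ≤ ((k : ℝ) + 1) * J (k + 1)) (N : ℕ) {c : ℝ}
    (hc : c = ((N : ℝ) + 1) * J (N + 1) + ((N : ℝ) + 1) ^ 2 * J N + (N : ℝ) ^ 3 * J (N - 1)) :
    nn N u v ≤ c ∧ N * nn (N - 1) u v ≤ c ∧ N * ((N - 1 : ℕ) * nn (N - 1 - 1) u v) ≤ c := by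
  have a1 : 0 ≤ ((N : ℝ) + 1) * J (N + 1) := mul_nonneg (by positivity) (hJ _)
  have a2 : 0 ≤ ((N : ℝ) + 1) ^ 2 * J N := mul_nonneg (by positivity) (hJ _)
  have a3 : 0 ≤ (N : ℝ) ^ 3 * J (N - 1) := mul_nonneg (by positivity) (hJ _)
  refine ⟨by linarith [h N], ?_, ?_⟩
  · rcases N with _ | k
    · rw [Nat.cast_zero, zero_mul]
      linarith
    · have b1 := mul_le_mul_of_nonneg_left (h k) (by positivity : (0 : ℝ) ≤ (k : ℝ) + 1)
      have b2 : ((k : ℝ) + 1) * (((k : ℝ) + 1) * J (k + 1)) ≤ ((k : ℝ) + 1 + 1) ^ 2 * J (k + 1) := by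
        rw [← mul_assoc]
        exact mul_le_mul_of_nonneg_right (by nlinarith [Nat.cast_nonneg (α := ℝ) k]) (hJ _)
      rw [Nat.add_sub_cancel]
      push_cast at hc a1 a2 a3 ⊢
      linarith
  · rcases N with _ | _ | k
    · rw [Nat.cast_zero, zero_mul]
      linarith
    · rw [Nat.add_sub_cancel, Nat.cast_zero, zero_mul, mul_zero]
      linarith
    · have hk := Nat.cast_nonneg (α := ℝ) k
      have b1 := mul_le_mul_of_nonneg_left (h k)
        (by positivity : (0 : ℝ) ≤ ((k : ℝ) + 1 + 1) * ((k : ℝ) + 1))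
      have b2 : ((k : ℝ) + 1 + 1) * ((k : ℝ) + 1) * (((k : ℝ) + 1) * J (k + 1)) ≤
          ((k : ℝ) + 1 + 1) ^ 3 * J (k + 1) := by
        rw [← mul_assoc]
        exact mul_le_mul_of_nonneg_right (by nlinarith [mul_nonneg hk hk]) (hJ _)
      simp only [Nat.add_sub_cancel] at hc a3 ⊢
      push_cast at hc a1 a2 a3 ⊢
      linarith

theorem S2H_coord {u : V n → ℝ} (hu : Sm u) {v : V n} {R : ℝ} (hR : ∀ a, v a ^ 2 ≤ R) (a : Fin n)
    (k : ℕ) : nn k (fun y => y a • u y) v ≤ 2 * R * nn k u v + 2 * (k * nn (k - 1) u v) := by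
  have h1 := nn_coord_le hu a k v
  have h2 := mul_le_mul_of_nonneg_right (hR a) (nn_nonneg k u v)
  linarith

theorem S2H_two {u : V n → ℝ} (hu : Sm u) {v : V n} {R c : ℝ} (hR : ∀ a, v a ^ 2 ≤ R) {N : ℕ}
    (h : nn N u v ≤ c ∧ N * nn (N - 1) u v ≤ c ∧ N * ((N - 1 : ℕ) * nn (N - 1 - 1) u v) ≤ c)
    (a b : Fin n) : nn N (fun y => y a • y b • u y) v ≤ 4 * (R + 1) ^ 2 * c := by
  have h0 : 0 ≤ R := (sq_nonneg _).trans (hR a)
  have h1 := S2H_coord (u := fun y => y b • u y) ((contDiff_apply ℝ ℝ b).smul hu) hR a N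
  have h2 := mul_le_mul_of_nonneg_left (S2H_coord hu hR b N) h0
  have h3 := mul_le_mul_of_nonneg_left (S2H_coord hu hR b (N - 1)) (Nat.cast_nonneg (α := ℝ) N)
  have h4 := mul_le_mul_of_nonneg_left h.1 (mul_nonneg h0 h0)
  have h5 := mul_le_mul_of_nonneg_left h.2.1 h0
  linarith [h.2.2]

theorem S2H_bc {k : V n → ℝ} (hk : Sm k) {w : Z n → ℝ} (hw : Sm w) (l : V n) (e : Fin n) (z : Z n) :
    Bc (fun z => k z.1 * w z) l e z = k z.1 * dx e w z + (pd e k z.1 - l e * k z.1) * w z := by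
  have h1 : DifferentiableAt ℝ (fun z : Z n => k z.1) z := Sm.dAt (hk.comp contDiff_fst) z
  rw [Bc, dx_mul h1 (hw.dAt z), dx_fst (hk.dAt _)]
  ring

theorem S2H_spray (g : V n → Mat n) (w : Z n → ℝ) (x y : V n) :
    fderiv ℝ w (x, y) (spray g (x, y)) = ∑ c, y c * dx c w (x, y) -
      ∑ q : Fin n × Fin n × Fin n, chr g x q.1 q.2.2 q.2.1 • y q.2.1 • y q.2.2 • dp q.1 w (x, y) := by
  rw [fderiv_eq_sum, spray_eq, Finset.sum_add_distrib, sub_eq_add_neg, Fintype.sum_prod_type,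
    ← Finset.sum_neg_distrib]
  congr 1
  refine Finset.sum_congr rfl fun i _ => ?_
  rw [Fintype.sum_prod_type]
  simp only [Pi.neg_apply, Matrix.mulVec, dotProduct, Gv, Matrix.of_apply, Finset.sum_mul,
    neg_mul, smul_eq_mul]
  congr 1
  refine Finset.sum_congr rfl fun j _ => Finset.sum_congr rfl fun m _ => ?_
  ring

namespace S2G

variable {g : V n → Mat n} {Φ₀ : V n → ℝ} {x₀ : V n} {K : Set (V n)} {O Ω : Set (Z n)}
  (T : S2G g Φ₀ x₀ K O)

variable {d : ℕ} {w f : Z n → ℝ} {A : ℝ}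

/-- Sketch: product rule; `|pd c ω|` is bounded; `|pd c Φ₀ x - pd c Φ₀ x₁| ≤ L ‖x - x₁‖` on
`closedBall x₀ (2 r)`; outside the window or outside `closedBall x₀ r` the function vanishes
near `x`. -/
theorem kk_le {ω : V n → ℝ} (hω : Sm ω) (h0 : ∀ y, 1 < ‖y‖ → ω y = 0) (h1 : ∀ y, |ω y| ≤ 1) :
    ∃ c, 0 ≤ c ∧ ∀ τ, 1 ≤ τ → ∀ x₁ ∈ Metric.closedBall x₀ (2 * T.r), ∀ x,
      T.kk ω τ x₁ x ^ 2 + ∑ e, (pd e (T.kk ω τ x₁) x - τ * pd e Φ₀ x₁ * T.kk ω τ x₁ x) ^ 2 ≤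
        (Metric.closedBall x₁ (Real.sqrt τ)⁻¹).indicator (fun x => c * T.hh τ x) x := by
  obtain ⟨B, hB⟩ := (isCompact_closedBall (0 : V n) 1).exists_bound_of_continuousOn
    (f := fun y e => pd e ω y) (continuous_pi fun e => (hω.pd e).continuous).continuousOn
  have hG : Sm fun y e => pd e Φ₀ y := contDiff_pi.2 fun e => T.sΦ.pd e
  obtain ⟨L, hL⟩ := hG.contDiffOn.exists_lipschitzOnWith (s := Metric.closedBall x₀ (2 * T.r))
    (by simp) (convex_closedBall _ _) (isCompact_closedBall _ _)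
  refine ⟨1 + 2 * n * (B + L) ^ 2 + 2, by positivity, fun τ hτ x₁ hx₁ x => ?_⟩
  have hs : 0 < Real.sqrt τ := Real.sqrt_pos.2 (by linarith)
  have hs2 : Real.sqrt τ ^ 2 = τ := Real.sq_sqrt (by linarith)
  have hpd : ∀ e, pd e (T.kk ω τ x₁) x = _ := fun e =>
    S2H_pd T.sΦ T.sη₀ hω (Real.sqrt τ) τ x₁ x e
  have hn : ‖Real.sqrt τ • (x - x₁)‖ = Real.sqrt τ * ‖x - x₁‖ := by
    rw [norm_smul, Real.norm_of_nonneg hs.le]
  simp only [hpd]
  unfold kk
  by_cases hx : x ∈ Metric.closedBall x₁ (Real.sqrt τ)⁻¹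
  swap
  · have h2 : 1 < ‖Real.sqrt τ • (x - x₁)‖ := by
      rw [mem_closedBall_iff_norm, not_le, inv_lt_iff_one_lt_mul₀' hs] at hx
      rwa [hn]
    have h3 : ω =ᶠ[𝓝 (Real.sqrt τ • (x - x₁))] fun _ => 0 :=
      ((isOpen_lt continuous_const continuous_norm).mem_nhds h2 : _) |> Eventually.mono <| h0
    have h4 : ∀ e, pd e ω (Real.sqrt τ • (x - x₁)) = 0 := fun e => by
      simp [pd, h3.fderiv_eq]
    rw [indicator_of_notMem hx]
    simp [h0 _ h2, h4]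
  rw [indicator_of_mem hx]
  have h2 : Real.sqrt τ * ‖x - x₁‖ ≤ 1 := by
    rw [mem_closedBall_iff_norm] at hx
    exact (mul_le_mul_of_nonneg_left hx hs.le).trans (mul_inv_cancel₀ hs.ne').le
  set y := Real.sqrt τ • (x - x₁) with hy
  have hω1 : ω y ^ 2 ≤ 1 := by rw [← sq_abs]; exact pow_le_one₀ (abs_nonneg _) (h1 y)
  have key : ∀ e, (Real.exp (τ * Φ₀ x) * (Real.sqrt τ * pd e ω y * T.η₀ x +
      ω y * (τ * pd e Φ₀ x * T.η₀ x + pd e T.η₀ x)) -
        τ * pd e Φ₀ x₁ * (ω y * (Real.exp (τ * Φ₀ x) * T.η₀ x))) ^ 2 ≤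
      Real.exp (τ * Φ₀ x) ^ 2 * (2 * (B + L) ^ 2 * (τ * T.η₀ x ^ 2) + 2 * pd e T.η₀ x ^ 2) := by
    intro e
    set M := pd e ω y + ω y * (Real.sqrt τ * (pd e Φ₀ x - pd e Φ₀ x₁)) with hM
    have e1 : Real.exp (τ * Φ₀ x) * (Real.sqrt τ * pd e ω y * T.η₀ x +
        ω y * (τ * pd e Φ₀ x * T.η₀ x + pd e T.η₀ x)) -
          τ * pd e Φ₀ x₁ * (ω y * (Real.exp (τ * Φ₀ x) * T.η₀ x)) =
        Real.exp (τ * Φ₀ x) * (Real.sqrt τ * T.η₀ x * M + ω y * pd e T.η₀ x) := by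
      rw [hM]
      linear_combination (-(Real.exp (τ * Φ₀ x) * ω y * T.η₀ x * (pd e Φ₀ x - pd e Φ₀ x₁))) * hs2
    have e2 : (Real.sqrt τ * T.η₀ x * M) ^ 2 ≤ (B + L) ^ 2 * (τ * T.η₀ x ^ 2) := by
      by_cases hη : T.η₀ x = 0
      · simp [hη]
      have b1 : |pd e ω y| ≤ B :=
        (norm_le_pi_norm (fun e => pd e ω y) e).trans (hB y (by simpa [hn] using h2))
      have b2 : |pd e Φ₀ x - pd e Φ₀ x₁| ≤ L * ‖x - x₁‖ := by
        have := hL.norm_sub_le (Metric.closedBall_subset_closedBall (by linarith [T.hr])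
          (T.η₀_supp x hη)) hx₁
        exact (norm_le_pi_norm _ e).trans this
      have b3 : |Real.sqrt τ * (pd e Φ₀ x - pd e Φ₀ x₁)| ≤ L := by
        rw [abs_mul, abs_of_pos hs]
        refine (mul_le_mul_of_nonneg_left b2 hs.le).trans ?_
        rw [mul_left_comm]
        exact mul_le_of_le_one_right L.2 h2
      have b4 : |M| ≤ B + L := by
        refine (abs_add_le _ _).trans (add_le_add b1 ?_)
        rw [abs_mul]
        exact (mul_le_of_le_one_left (abs_nonneg _) (h1 y)).trans b3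
      rw [mul_pow, mul_pow, hs2, mul_comm]
      exact mul_le_mul_of_nonneg_right (sq_le_sq' (abs_le.1 b4).1 (abs_le.1 b4).2) (by positivity)
    have e3 : (ω y * pd e T.η₀ x) ^ 2 ≤ pd e T.η₀ x ^ 2 := by
      rw [mul_pow]
      exact mul_le_of_le_one_left (sq_nonneg _) hω1
    rw [e1, mul_pow]
    refine mul_le_mul_of_nonneg_left ?_ (sq_nonneg _)
    linarith [sq_nonneg (Real.sqrt τ * T.η₀ x * M - ω y * pd e T.η₀ x)]
  have h3 := Finset.sum_le_sum fun e (_ : e ∈ Finset.univ) => key e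
  rw [← Finset.mul_sum, Finset.sum_add_distrib, Finset.sum_const, ← Finset.mul_sum,
    Finset.card_univ, Fintype.card_fin, nsmul_eq_mul] at h3
  have h4 : (ω y * (Real.exp (τ * Φ₀ x) * T.η₀ x)) ^ 2 ≤
      Real.exp (τ * Φ₀ x) ^ 2 * (τ * T.η₀ x ^ 2) := by
    rw [mul_pow, mul_pow]
    exact (mul_le_of_le_one_left (by positivity) hω1).trans (mul_le_mul_of_nonneg_left
      (le_mul_of_one_le_left (sq_nonneg _) hτ) (sq_nonneg _))
  have h5 : 0 ≤ ∑ c, pd c T.η₀ x ^ 2 := Finset.sum_nonneg fun c _ => sq_nonneg (pd c T.η₀ x)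
  have h6 : 0 ≤ τ * T.η₀ x ^ 2 := by positivity
  have h7 : 0 ≤ (n : ℝ) * (B + L) ^ 2 := by positivity
  refine (add_le_add h4 h3).trans ?_
  rw [hh, ← mul_add, mul_left_comm (1 + 2 * n * (B + L) ^ 2 + 2 : ℝ)]
  refine mul_le_mul_of_nonneg_left ?_ (sq_nonneg _)
  linarith [mul_nonneg h7 h5]

/-- Sketch: `Bc (k w) = k (dx c w) + (pd c k - l c k) w`; near `(x, v)` the equation gives
`∑ y c * dx c w - f = ∑ Γ^k_{ij} y i y j dp k w`; `nn_congr`, `nn_coord_le` twice, `jn_dp`. If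
`x ∉ closedBall x₀ r` then `k` vanishes near `x`. -/
theorem jn_R (h : Sol g d K Ω w f) (hΩ : IsOpen Ω) (hs : O ⊆ Ω) : ∃ c, 0 ≤ c ∧ ∀ (k : V n → ℝ)
    (l : V n), Sm k → (∀ x, k x ≠ 0 → x ∈ Metric.closedBall x₀ T.r) → ∀ x, ∀ v ∈ T.S, ∀ N : ℕ,
      jn N (Rr (fun z => k z.1 * w z) (fun z => k z.1 * f z) l) (x, v) ≤
        c * (k x ^ 2 + ∑ e, (pd e k x - l e * k x) ^ 2) * cj w N (x, v) ∧
      ∀ e, jn N (Bc (fun z => k z.1 * w z) l e) (x, v) ≤
        c * (k x ^ 2 + ∑ e, (pd e k x - l e * k x) ^ 2) * (jn N (dx e w) (x, v) + jn N w (x, v)) := by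
  obtain ⟨R₀, hR₀⟩ := T.cS.isBounded.exists_norm_le
  have hcont : Continuous fun x => ∑ q : Fin n × Fin n × Fin n, chr g x q.1 q.2.2 q.2.1 ^ 2 :=
    continuous_finsetSum _ fun q _ => (T.rm.sm_chr q.1 q.2.2 q.2.1).continuous.pow 2
  obtain ⟨Γ, hΓ⟩ := (isCompact_closedBall x₀ T.r).exists_bound_of_continuousOn hcont.continuousOn
  have hΓ0 : 0 ≤ Γ := (norm_nonneg _).trans (hΓ x₀ (Metric.mem_closedBall_self T.hr.le))
  refine ⟨2 + 2 * (Γ * (n ^ 3 * (4 * (R₀ ^ 2 + 1) ^ 2))) + 2 * (n * (2 * R₀ ^ 2 + 2)),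
    by positivity, fun k l hk hsupp x v hv N => ?_⟩
  have hR : ∀ a, v a ^ 2 ≤ R₀ ^ 2 := fun a => by
    rw [← sq_abs]
    exact pow_le_pow_left₀ (abs_nonneg _) ((norm_le_pi_norm v a).trans (hR₀ v hv)) 2
  have sl : ∀ {F : Z n → ℝ}, Sm F → Sm fun y => F (x, y) := fun hF =>
    hF.comp (contDiff_const.prodMk contDiff_id)
  have hw := h.smw
  have hA : 0 ≤ ∑ e, (pd e k x - l e * k x) ^ 2 := Finset.sum_nonneg fun _ _ => sq_nonneg _
  have hc1 : 0 ≤ Γ * (n ^ 3 * (4 * (R₀ ^ 2 + 1) ^ 2)) := by positivity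
  have hc2 : 0 ≤ (n : ℝ) * (2 * R₀ ^ 2 + 2) := by positivity
  constructor
  · have hJ := fun m => jn_nonneg m w (x, v)
    have a1 : 0 ≤ ((N : ℝ) + 1) * jn (N + 1) w (x, v) := mul_nonneg (by positivity) (hJ _)
    have a2 : jn N w (x, v) ≤ ((N : ℝ) + 1) ^ 2 * jn N w (x, v) :=
      le_mul_of_one_le_left (hJ _) (one_le_pow₀ (by linarith [Nat.cast_nonneg (α := ℝ) N]))
    have a3 : (N : ℝ) * jn (N - 1) w (x, v) ≤ (N : ℝ) ^ 3 * jn (N - 1) w (x, v) :=
      mul_le_mul_of_nonneg_right (by exact_mod_cast Nat.le_self_pow (by norm_num) N) (hJ _)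
    have a4 : 0 ≤ (N : ℝ) * jn (N - 1) w (x, v) := mul_nonneg (by positivity) (hJ _)
    have c1 : jn N w (x, v) ≤ cj w N (x, v) := by unfold cj; linarith
    have c2 : (N : ℝ) * jn (N - 1) w (x, v) ≤ cj w N (x, v) := by unfold cj; linarith [hJ N]
    have c0 : 0 ≤ cj w N (x, v) := (hJ N).trans c1
    have s1 : ∀ q : Fin n × Fin n × Fin n, Sm fun y : V n => y q.2.1 • y q.2.2 • dp q.1 w (x, y) :=
      fun q => (contDiff_apply ℝ ℝ _).smul ((contDiff_apply ℝ ℝ _).smul (sl (hw.dp _)))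
    have s2 : ∀ c : Fin n, Sm fun y : V n => y c • w (x, y) := fun c =>
      (contDiff_apply ℝ ℝ _).smul (sl hw)
    have s3 : Sm fun y : V n => ∑ q : Fin n × Fin n × Fin n,
        chr g x q.1 q.2.2 q.2.1 • y q.2.1 • y q.2.2 • dp q.1 w (x, y) :=
      ContDiff.sum fun q _ => ContDiff.const_smul _ (s1 q)
    have s4 : Sm fun y : V n => ∑ c, (pd c k x - l c * k x) • y c • w (x, y) :=
      ContDiff.sum fun c _ => ContDiff.const_smul _ (s2 c)
    have hev : (fun y => Rr (fun z => k z.1 * w z) (fun z => k z.1 * f z) l (x, y)) =ᶠ[𝓝 v]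
        fun y => k x * (∑ q : Fin n × Fin n × Fin n,
          chr g x q.1 q.2.2 q.2.1 • y q.2.1 • y q.2.2 • dp q.1 w (x, y)) +
          ∑ c, (pd c k x - l c * k x) • y c • w (x, y) := by
      have e1 : ∀ y, Rr (fun z => k z.1 * w z) (fun z => k z.1 * f z) l (x, y) =
          k x * (∑ c, y c * dx c w (x, y) - f (x, y)) +
            ∑ c, (pd c k x - l c * k x) • y c • w (x, y) := fun y => by
        rw [Rr, mul_sub, Finset.mul_sum, sub_add_eq_add_sub, ← Finset.sum_add_distrib]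
        congr 1
        refine Finset.sum_congr rfl fun c _ => ?_
        rw [S2H_bc hk hw, smul_eq_mul, smul_eq_mul]
        ring
      by_cases h0 : k x = 0
      · refine Eventually.of_forall fun y => ?_
        simp only [e1, h0, zero_mul]
      · have h1 : ∀ᶠ y in 𝓝 v, (x, y) ∈ Ω :=
          (continuous_const.prodMk continuous_id).continuousAt.preimage_mem_nhds
            (hΩ.mem_nhds (hs (T.sub ⟨hsupp x h0, T.sub₂ hv⟩)))
        refine h1.mono fun y hy => ?_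
        simp only [e1]
        rw [← h.eq _ hy, S2H_spray, sub_sub_cancel]
    have b1 : k x ^ 2 * nn N (fun y : V n => ∑ q : Fin n × Fin n × Fin n,
        chr g x q.1 q.2.2 q.2.1 • y q.2.1 • y q.2.2 • dp q.1 w (x, y)) v ≤
        k x ^ 2 * (Γ * (n ^ 3 * (4 * (R₀ ^ 2 + 1) ^ 2)) * cj w N (x, v)) := by
      by_cases h0 : k x = 0
      · simp [h0]
      refine mul_le_mul_of_nonneg_left ((nn_comb_le s1 _ N v).trans ?_) (sq_nonneg _)
      rw [mul_assoc]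
      refine mul_le_mul ((le_abs_self _).trans (hΓ x (hsupp x h0))) ?_
        (Finset.sum_nonneg fun _ _ => nn_nonneg _ _ _) hΓ0
      have b0 : ∀ q : Fin n × Fin n × Fin n,
          nn N (fun y : V n => y q.2.1 • y q.2.2 • dp q.1 w (x, y)) v ≤
            4 * (R₀ ^ 2 + 1) ^ 2 * cj w N (x, v) := fun q =>
        S2H_two (sl (hw.dp q.1)) hR (S2H_lev (u := fun y => dp q.1 w (x, y)) (v := v) hJ
          (fun m => jn_dp hw m q.1 (x, v)) N rfl) _ _
      refine (Finset.sum_le_card_nsmul _ _ _ fun q _ => b0 q).trans_eq ?_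
      simp only [Finset.card_univ, Fintype.card_prod, Fintype.card_fin, nsmul_eq_mul]
      push_cast
      ring
    have b2 : nn N (fun y : V n => ∑ c, (pd c k x - l c * k x) • y c • w (x, y)) v ≤
        (∑ e, (pd e k x - l e * k x) ^ 2) * (n * (2 * R₀ ^ 2 + 2) * cj w N (x, v)) := by
      refine (nn_comb_le s2 _ N v).trans (mul_le_mul_of_nonneg_left ?_ hA)
      refine (Finset.sum_le_card_nsmul _ _ ((2 * R₀ ^ 2 + 2) * cj w N (x, v)) fun c _ =>
        (S2H_coord (sl hw) hR c N).trans ?_).trans_eq ?_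
      · have := mul_le_mul_of_nonneg_left c1 (sq_nonneg R₀)
        change 2 * R₀ ^ 2 * jn N w (x, v) + 2 * (N * jn (N - 1) w (x, v)) ≤ _
        linarith
      · rw [Finset.card_univ, Fintype.card_fin, nsmul_eq_mul, mul_assoc]
    have b3 := nn_add_le (P := fun y => k x * _) (contDiff_const.mul s3) s4 N v
    rw [nn_mul s3] at b3
    refine (nn_congr hev N).trans_le (b3.trans ?_)
    have b4 := mul_nonneg (sq_nonneg (k x)) c0
    have b5 := mul_nonneg hA c0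
    linarith [mul_nonneg hc1 b5, mul_nonneg hc2 b4]
  · intro e
    have e1 : (fun y => Bc (fun z => k z.1 * w z) l e (x, y)) =
        fun y => k x * dx e w (x, y) + (pd e k x - l e * k x) * w (x, y) :=
      funext fun y => S2H_bc hk hw l e (x, y)
    have b1 := nn_add_le (P := fun y => k x * dx e w (x, y))
      (Q := fun y => (pd e k x - l e * k x) * w (x, y)) (contDiff_const.mul (sl (hw.dx e)))
      (contDiff_const.mul (sl hw)) N v
    rw [nn_mul (sl (hw.dx e)), nn_mul (sl hw), ← e1] at b1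
    have b2 : (pd e k x - l e * k x) ^ 2 ≤ ∑ e, (pd e k x - l e * k x) ^ 2 :=
      Finset.single_le_sum (f := fun e => (pd e k x - l e * k x) ^ 2) (fun _ _ => sq_nonneg _)
        (Finset.mem_univ e)
    have j1 := jn_nonneg N (dx e w) (x, v)
    have j2 := jn_nonneg N w (x, v)
    have b3 := mul_le_mul_of_nonneg_right b2 j2
    have b4 := mul_nonneg (add_nonneg (sq_nonneg (k x)) hA) (add_nonneg j1 j2)
    refine b1.trans ?_
    change 2 * (k x ^ 2 * jn N (dx e w) (x, v)) +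
      2 * ((pd e k x - l e * k x) ^ 2 * jn N w (x, v)) ≤ _
    linarith [mul_nonneg hc1 b4, mul_nonneg hc2 b4, mul_nonneg hA j1,
      mul_nonneg (sq_nonneg (k x)) j2]

end S2G

end Pool.Agent.Lib.MP_45f3cb_gt.Fa
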