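import Pool.Agent.Lib.MP_45f3cb_gt.Fa.TuA

/-!
The tube of geodesics around a segment.
-/

open Set MeasureTheory Filter Topology Matrix

namespace Pool.Agent.Lib.MP_45f3cb_gt.Fa

variable {n : ℕ} {g : V n → Mat n} {D : Dom n}

theorem TuB_cut {E W : Type} [NormedAddCommGroup E] [NormedSpace ℝ E] [FiniteDimensional ℝ E]
    [PseudoMetricSpace W] {u : E → W} (hu : Continuous u)
    {Y : E → E} {Φ : ℝ → E → E} (h : IsFlow Y Φ) {T : E → ℝ} (hT : Sm T) (z₀ : E) (s t : ℝ) {ε : ℝ}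
    (hε : 0 < ε) : ∃ χ₀ : E → ℝ, Sm χ₀ ∧ (∀ᶠ z in 𝓝 z₀, χ₀ z = 1) ∧
      (∀ z, fderiv ℝ T z (Y z) = -1 → fderiv ℝ χ₀ z (Y z) = 0) ∧
      ∀ z, χ₀ z ≠ 0 → T z₀ - T z ∈ Icc s t → dist (u z) (u (Φ (T z₀ - T z) z₀)) ≤ ε := by
  have hp : Sm fun z : E => (T z, z) := hT.prodMk contDiff_id
  have hΨ : Sm fun z : E => Φ (T z) z := h.sm.comp (f := fun z : E => (T z, z)) hp
  have hev : ∀ᶠ y in 𝓝 (Φ (T z₀) z₀), ∀ r ∈ Icc (s - T z₀) (t - T z₀),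
      dist (u (Φ r y)) (u (Φ r (Φ (T z₀) z₀))) < ε := by
    refine isCompact_Icc.eventually_forall_of_forall_eventually
      (P := fun y r => dist (u (Φ r y)) (u (Φ r (Φ (T z₀) z₀))) < ε) fun r _ => ?_
    have hc : Continuous fun q : E × ℝ => dist (u (Φ q.2 q.1)) (u (Φ q.2 (Φ (T z₀) z₀))) :=
      (hu.comp (h.cont.comp (f := fun q : E × ℝ => (q.2, q.1))
        (continuous_snd.prodMk continuous_fst))).dist (hu.comp ((h.cont_z _).comp continuous_snd))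
    exact (isOpen_lt hc continuous_const).mem_nhds (by simpa using hε)
  obtain ⟨δ, hδ, hb⟩ := Metric.eventually_nhds_iff_ball.1 hev
  let β : ContDiffBump (Φ (T z₀) z₀) := ⟨δ / 2, δ, half_pos hδ, half_lt_self hδ⟩
  have hβ : Sm β := β.contDiff
  refine ⟨fun z => β (Φ (T z) z), hβ.comp hΨ,
    (hΨ.continuous.tendsto z₀).eventually β.eventuallyEq_one, fun z hz => ?_, fun z hz hτ => ?_⟩
  · have h1 := (h.sm.dAt (T z, z)).hasFDerivAt.comp (f := fun z : E => (T z, z)) z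
      ((hT.dAt z).hasFDerivAt.prodMk (hasFDerivAt_id z))
    have h2 := (hβ.dAt (Φ (T z) z)).hasFDerivAt.comp (f := fun z : E => Φ (T z) z) z h1
    have h3 : fderiv ℝ (fun q : ℝ × E => Φ q.1 q.2) (T z, z) (-1, Y z) = 0 := by
      have e : ((-1 : ℝ), Y z) = ((0 : ℝ), Y z) - ((1 : ℝ), (0 : E)) := by simp
      rw [e, map_sub, ← FlowD_snd h, FlowD_fst h, h.fderiv_field, sub_self]
    refine (congrArg (fun L => L (Y z)) h2.fderiv).trans ?_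
    simp only [ContinuousLinearMap.comp_apply, ContinuousLinearMap.prod_apply,
      ContinuousLinearMap.id_apply, hz, h3, map_zero]
  · have h1 : Φ (T z) z ∈ Metric.ball (Φ (T z₀) z₀) δ := by
      have : Φ (T z) z ∈ Function.support β := hz
      rwa [β.support_eq] at this
    have h2 := hb _ h1 (-T z) ⟨by linarith [hτ.1], by linarith [hτ.2]⟩
    rw [← h.add, ← h.add, neg_add_cancel, h.zero, neg_add_eq_sub] at h2
    exact h2.le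

theorem TuB_out {X : Type} [PseudoMetricSpace X] {c : ℝ → X} (hc : Continuous c) {K : Set X}
    (hK : IsClosed K) {s : ℝ} (hs : c s ∉ K) :
    ∃ δ, 0 < δ ∧ ∀ t x, |t - s| ≤ δ → dist x (c t) ≤ δ → x ∉ K := by
  obtain ⟨r, hr, h1⟩ := Metric.isOpen_iff.1 hK.isOpen_compl _ hs
  obtain ⟨d, hd, h2⟩ := Metric.continuous_iff.1 hc s _ (half_pos hr)
  refine ⟨min (d / 2) (r / 2), lt_min (half_pos hd) (half_pos hr), fun t x ht hx => h1 ?_⟩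
  have h3 := h2 t ((ht.trans (min_le_left _ _)).trans_lt (half_lt_self hd))
  have h4 := hx.trans (min_le_right _ _)
  rw [Metric.mem_ball]
  linarith [dist_triangle x (c t) (c s)]

/-- an invariant cut-off for an abstract flow. Sketch: `Ψ z = Φ (T z) z` is smooth and
`fderiv Ψ z (Y z) = 0` where `fderiv T z (Y z) = -1` (`IsFlow.fderiv_field`, `FlowD_fst`);
`τ = T z₀ - T`; `z = Φ (-T z) (Ψ z)` and `Φ (τ z) z₀ = Φ (-T z) (Ψ z₀)`; uniform continuity of the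
flow on `Icc × closedBall`; `χ₀ = β ∘ Ψ` with a `ContDiffBump` `β` at `Ψ z₀`. -/
theorem flow_cut {E : Type} [NormedAddCommGroup E] [NormedSpace ℝ E] [FiniteDimensional ℝ E]
    {Y : E → E} {Φ : ℝ → E → E} (h : IsFlow Y Φ) {T : E → ℝ} (hT : Sm T) (z₀ : E) (s t : ℝ) {ε : ℝ}
    (hε : 0 < ε) : ∃ χ₀ : E → ℝ, Sm χ₀ ∧ (∀ᶠ z in 𝓝 z₀, χ₀ z = 1) ∧
      (∀ z, fderiv ℝ T z (Y z) = -1 → fderiv ℝ χ₀ z (Y z) = 0) ∧
      ∀ z, χ₀ z ≠ 0 → T z₀ - T z ∈ Icc s t → dist z (Φ (T z₀ - T z) z₀) ≤ ε :=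
  TuB_cut (u := fun z => z) continuous_id h hT z₀ s t hε

/-- Sketch: `time_fun`; choose `δ` with `closedBall (geo t).1 δ` disjoint from `K` for `t` within
`δ` of `s₁` or `s₂`, and `ε' ≤ min ε δ` so small that points `ε'`-close to `geo (Icc (s₁ - 1) (s₂ + 1))`
are in `Om g`; `flow_cut` for `P.flow` (continuity of `up` on a compact set converts distances);
`χ = (χ₀ ∘ dn) * χ₁ (τ)` with `χ₁ = 1` near `Icc s₁ s₂`, zero outside `Ioo (s₁ - δ) (s₂ + δ)`;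
`KK = {z | z.1 ∈ K, τ z ∈ Icc s₁ s₂, dist z (geo (τ z)) ≤ ε'}`. -/
theorem tube (P : GF D 3) (h : RM g) (hg : ∀ x i j, g x i j = D.g x i j) {K : Set (V n)}
    (hK : IsClosed K) (hKM : ∀ x ∈ K, D.b x ≤ 0) {z₀ : Z n} (h1 : gi g z₀.1 z₀.2 z₀.2 = 1)
    {s₁ s₂ ε : ℝ} (hs₁ : s₁ < 0) (hs₂ : 0 < s₂) (h2 : (geo P z₀ s₁).1 ∉ K)
    (h3 : (geo P z₀ s₂).1 ∉ K) (hε : 0 < ε) :
    ∃ (τ χ : Z n → ℝ) (KK : Set (Z n)), Sm τ ∧ Sm χ ∧ IsCompact KK ∧ KK ⊆ Om g ∧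
      (∀ᶠ z in 𝓝 z₀, χ z = 1) ∧ (∀ z : Z n, z.1 ∈ K → χ z ≠ 0 → z ∈ KK) ∧
      ∀ z ∈ KK, fderiv ℝ τ z (spray g z) = 1 ∧ fderiv ℝ χ z (spray g z) = 0 ∧ τ z ∈ Icc s₁ s₂ ∧
        dist z (geo P z₀ (τ z)) ≤ ε := by
  obtain ⟨T, hT, hTY⟩ := time_fun P
  have hgc := (sm_geo P z₀).continuous
  obtain ⟨δ₁, hδ₁, o1⟩ := TuB_out (c := fun t => (geo P z₀ t).1) hgc.fst hK h2
  obtain ⟨δ₂, hδ₂, o2⟩ := TuB_out (c := fun t => (geo P z₀ t).1) hgc.fst hK h3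
  have hC : IsCompact (geo P z₀ '' Icc s₁ s₂) := isCompact_Icc.image hgc
  obtain ⟨δ₃, hδ₃, o3⟩ := hC.exists_cthickening_subset_open h.isOpen_Om (by
    rintro _ ⟨t, -, rfl⟩
    change gi g _ _ _ ∈ Ioo (1 / 2 : ℝ) 2
    rw [geo_gi P hg, h1]
    norm_num)
  obtain ⟨δ, hδ, d1, d2, d3, d4⟩ : ∃ δ, 0 < δ ∧ δ ≤ δ₁ ∧ δ ≤ δ₂ ∧ δ ≤ δ₃ ∧ δ ≤ ε :=
    ⟨min (min δ₁ δ₂) (min δ₃ ε), lt_min (lt_min hδ₁ hδ₂) (lt_min hδ₃ hε),
      (min_le_left _ _).trans (min_le_left _ _), (min_le_left _ _).trans (min_le_right _ _),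
      (min_le_right _ _).trans (min_le_left _ _), (min_le_right _ _).trans (min_le_right _ _)⟩
  obtain ⟨χ₀, c1, c2, c3, c4⟩ := TuB_cut D.sm_up.continuous P.flow hT (D.dn z₀) (s₁ - δ) (s₂ + δ) hδ
  obtain ⟨a, a1, -, -, a2, a3, -⟩ := exists_step (show s₁ - δ < s₁ - δ / 2 by linarith)
  obtain ⟨b, b1, -, -, b2, b3, -⟩ := exists_step' (show s₂ + δ / 2 < s₂ + δ by linarith)
  have hF : Sm fun w => T (D.dn z₀) - T w := contDiff_const.sub hT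
  obtain ⟨τ, hτ⟩ : ∃ τ : Z n → ℝ, τ = fun z => T (D.dn z₀) - T (D.dn z) := ⟨_, rfl⟩
  have hτs : Sm τ := hτ ▸ hF.comp D.sm_dn
  have hone : ∀ z, τ z ∈ Icc s₁ s₂ →
      (fun w => χ₀ (D.dn w) * (a (τ w) * b (τ w))) =ᶠ[𝓝 z] fun w => χ₀ (D.dn w) := by
    intro z hz
    have : ∀ᶠ w in 𝓝 z, τ w ∈ Ioo (s₁ - δ / 2) (s₂ + δ / 2) :=
      (isOpen_Ioo.preimage hτs.continuous).mem_nhds ⟨by linarith [hz.1], by linarith [hz.2]⟩
    filter_upwards [this] with w hw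
    rw [a3 _ hw.1.le, b2 _ hw.2.le, mul_one, mul_one]
  have hth : ∀ z, τ z ∈ Icc s₁ s₂ → dist z (geo P z₀ (τ z)) ≤ δ →
      z ∈ Metric.cthickening δ₃ (geo P z₀ '' Icc s₁ s₂) := fun z hz hd =>
    Metric.mem_cthickening_of_dist_le z _ _ _ (mem_image_of_mem _ hz) (hd.trans d3)
  refine ⟨τ, fun w => χ₀ (D.dn w) * (a (τ w) * b (τ w)),
    {z | z.1 ∈ K ∧ τ z ∈ Icc s₁ s₂ ∧ dist z (geo P z₀ (τ z)) ≤ δ}, hτs,
    (c1.comp D.sm_dn).mul ((a1.comp hτs).mul (b1.comp hτs)), ?_,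
    fun z hz => o3 (hth z hz.2.1 hz.2.2), ?_, fun z hz hχ => ?_, fun z hz => ?_⟩
  · refine hC.cthickening.of_isClosed_subset ((hK.preimage continuous_fst).inter
      ((isClosed_Icc.preimage hτs.continuous).inter (isClosed_le
        (continuous_id.dist (hgc.comp hτs.continuous)) continuous_const)))
      fun z hz => hth z hz.2.1 hz.2.2
  · have h0 : τ z₀ ∈ Icc s₁ s₂ := by
      rw [hτ]
      simp only [sub_self]
      exact ⟨hs₁.le, hs₂.le⟩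
    filter_upwards [hone z₀ h0, (D.sm_dn.continuous.tendsto z₀).eventually c2] with w e1 e2
    exact e1.trans e2
  · have n1 := left_ne_zero_of_mul hχ
    have n2 : s₁ - δ < τ z := not_le.1 fun e =>
      left_ne_zero_of_mul (right_ne_zero_of_mul hχ) (a2 _ e)
    have n3 : τ z < s₂ + δ := not_le.1 fun e =>
      right_ne_zero_of_mul (right_ne_zero_of_mul hχ) (b3 _ e)
    have n4 : dist z (geo P z₀ (τ z)) ≤ δ := by
      have := c4 (D.dn z) n1 (by rw [hτ] at n2 n3; exact ⟨n2.le, n3.le⟩)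
      rw [Met.up_dn] at this
      rw [hτ]
      exact this
    have n5 : dist z.1 (geo P z₀ (τ z)).1 ≤ δ := by
      rw [Prod.dist_eq] at n4
      exact (le_max_left _ _).trans n4
    refine ⟨hz, ⟨not_lt.1 fun e => o1 _ _ ?_ (n5.trans d1) hz,
      not_lt.1 fun e => o2 _ _ ?_ (n5.trans d2) hz⟩, n4⟩
    · rw [abs_le]
      constructor <;> linarith
    · rw [abs_le]
      constructor <;> linarith
  · have m1 : gi g z.1 z.2 z.2 ∈ Ioo (1 / 2 : ℝ) 2 := o3 (hth z hz.2.1 hz.2.2)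
    rw [← H_dn hg] at m1
    have m2 : D.b (D.dn z).1 ≤ 0 := hKM _ hz.1
    have m3 := P.eqY (D.dn z) (P.ball _ m2) (by linarith [m1.2])
    have m4 := hTY (D.dn z) m2 ⟨by linarith [m1.1], by linarith [m1.2]⟩
    refine ⟨?_, ?_, hz.2.1, hz.2.2.trans d4⟩
    · rw [hτ, fderiv_dn hg hF, br_eq, ← m3, fderiv_const_sub, _root_.neg_apply, m4, neg_neg]
    · rw [(hone z hz.2.1).fderiv_eq, fderiv_dn hg c1, br_eq, ← m3, c3 _ m4]

end Pool.Agent.Lib.MP_45f3cb_gt.Fa
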